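import Pool.Agent.Lib.MP_696deb_nt.AnForms
import Pool.Agent.Lib.MP_696deb_nt.ErgTame
import Pool.Agent.Lib.MP_696deb_nt.Unif15
import Pool.Agent.Lib.MP_696deb_nt.VarChange
import Pool.Agent.Shared.Weier.Leg

/-! Analytic side of the Gross-Zagier formula for class group characters: definitions. -/

set_option autoImplicit false

open Complex Filter Topology Set MeasureTheory CongruenceSubgroup NumberTheorySymbols
open UpperHalfPlane hiding I
open scoped Real MatrixGroups ComplexConjugate Modular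
open Pool.Agent.Lib.MP_696deb_nt Pool.Agent.Lib.MP_696deb_nt.Unif Pool.Agent.Shared.Weier

namespace Pool.Agent.Dih

/-- The number of representations of `N` by the form `Q`. -/
noncomputable def rep (Q : Fm) (N : ℤ) : ℕ := {v : ℤ × ℤ | fval Q v.1 v.2 = N}.ncard

/-- The weighted number of representations. -/
noncomputable def rW (T : Finset Fm) (w : Fm → ℤ) (N : ℤ) : ℤ := ∑ Q ∈ T, w Q * rep Q N

/-- The local weight of a factorization. -/
def lam1 (P : ℕ) (χ c l : ℤ) : ℤ := if (P : ℤ) ∣ c then J(l | P) else χ * J(-15 * c | P)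

/-- The character of the field of discriminant `- p q`, without the primes 3 and 5. -/
def e15 (n k : ℕ) : ℂ := if k.Coprime 15 then (J((k : ℤ) | n) : ℂ) else 0

/-- The two ramified primes and the genus. -/
structure Par where
  p : ℕ
  q : ℕ
  χp : ℤ
  χq : ℤ

namespace Par

variable (A : Par)

/-- The absolute value of the discriminant. -/
def n : ℕ := A.p * A.q

/-- The weight of a factorization. -/
def lam (c l : ℤ) : ℤ := lam1 A.p A.χp c l * lam1 A.q A.χq c l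

/-- The divisor sum at a negative index. -/
def Sneg (k : ℕ) : ℤ := ∑ c ∈ k.divisors, A.lam c (-((k / c : ℕ) : ℤ))

/-- The logarithmic divisor sum at a positive index. -/
noncomputable def Slog (k : ℕ) : ℝ :=
  ∑ c ∈ k.divisors, A.lam c ((k / c : ℕ) : ℤ) * (Real.log (k / c : ℕ) - Real.log c)

/-- The finite part of the coefficient. -/
noncomputable def fin (T : Finset Fm) (w : Fm → ℤ) (M : ℕ) : ℝ :=
  ∑ k ∈ Finset.range (M * A.n), rW T w (M * A.n - 15 * k) * A.Slog k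

/-- The regularised archimedean part of the coefficient. -/
noncomputable def arch (T : Finset Fm) (w : Fm → ℤ) (M : ℕ) (ε : ℝ) : ℝ :=
  ∑' k : ℕ, (rW T w (M * A.n + 15 * k) * A.Sneg k : ℤ) *
    kerK ε ((M * A.n + 30 * k) / (M * A.n))

/-- The conditions on the parameters. -/
structure Ok : Prop where
  pp : A.p.Prime
  qp : A.q.Prime
  p4 : A.p % 4 = 1
  q4 : A.q % 4 = 3
  p5 : A.p ≠ 5
  q3 : A.q ≠ 3
  sgn : A.χp * A.χq * J(-15 | A.p) * J(-15 | A.q) = -1

/-- The form is positive definite, of discriminant `- p q` and in the given genus. -/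
structure InGen (Q : Fm) : Prop where
  disc : fdisc Q = -A.n
  pos : 0 < Q.1
  gp : ∀ x y : ℤ, ¬ (A.p : ℤ) ∣ fval Q x y → J(fval Q x y | A.p) = A.χp
  gq : ∀ x y : ℤ, ¬ (A.q : ℤ) ∣ fval Q x y → J(fval Q x y | A.q) = A.χq

/-- A weighted family of forms of one genus, of total weight zero. -/
structure Dat (T : Finset Fm) (w : Fm → ℤ) : Prop where
  ok : A.Ok
  gen : ∀ Q ∈ T, A.InGen Q
  deg : ∑ Q ∈ T, w Q = 0

end Par

/-- The Gauss sum of the character `x ↦ e (u x / P)`. -/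
noncomputable def gs (P : ℕ) (u : ℤ) : ℂ :=
  ∑ x ∈ Finset.range P, (J((x : ℤ) | P) : ℂ) * q1 (u * x / P)

/-- An inverse modulo `P`. -/
def inv (P : ℕ) (c : ℤ) : ℤ := ((c : ZMod P)⁻¹).val

/-- The local section of the Eisenstein series. -/
noncomputable def phi1 (P : ℕ) (u χ N c d : ℤ) : ℂ :=
  if (P : ℤ) ∣ c then (if (P : ℤ) ∣ N then (J(d | P) : ℂ) else 0)
  else χ * J(-c | P) * gs P u / P * q1 (u * (N * d * inv P c) / P)

namespace Par

variable (A : Par) (T : Finset Fm) (w : Fm → ℤ)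

/-- The section of the Eisenstein series. -/
noncomputable def phi (N c d : ℤ) : ℂ :=
  phi1 A.p (inv A.p A.q) A.χp N c d * phi1 A.q (inv A.q A.p) A.χq N c d

/-- The product of the two Gauss sums. -/
noncomputable def gg : ℂ := gs A.p (inv A.p A.q) * gs A.q (inv A.q A.p)

/-- The theta series of a form paired with the section. -/
noncomputable def Fq (Q : Fm) (c d : ℤ) (z : ℂ) : ℂ :=
  ∑' v : ℤ × ℤ, A.phi (fval Q v.1 v.2) c d * q1 (fval Q v.1 v.2 * z / A.n)

/-- The weighted sum. -/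
noncomputable def FW (c d : ℤ) (z : ℂ) : ℂ := ∑ Q ∈ T, w Q * A.Fq Q c d z

/-- The term of the theta kernel. -/
noncomputable def thT (z : ℂ) (t : ℝ) (c d : ℤ) : ℂ :=
  A.FW T w c d z * (c * conj z + d) * Real.exp (-π * t * normSq (c * z + d) / z.im)

/-- The theta kernel. -/
noncomputable def Th (z : ℂ) (t : ℝ) : ℂ := ∑' v : ℤ × ℤ, A.thT T w z t (15 * v.1) v.2

/-- The theta kernel in the symmetric variable. -/
noncomputable def Kk (z : ℂ) (τ : ℝ) : ℂ := (τ / (15 * A.n) : ℝ) * A.Th T w z (τ / (15 * A.n))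

/-- The kernel of the central derivative, a form of weight two. -/
noncomputable def Phi (z : ℂ) : ℂ :=
  (∫ τ in Ioi (0 : ℝ), (Real.log τ / τ : ℝ) * A.Kk T w z τ) / z.im

/-- The theta series with a congruence condition. -/
noncomputable def Gc (k : ℤ) (z : ℂ) : ℂ :=
  ∑ Q ∈ T, w Q * ∑' v : ℤ × ℤ,
    if (A.n : ℤ) ∣ fval Q v.1 v.2 + 15 * k then q1 (fval Q v.1 v.2 * z / A.n) else 0

end Par

/-- The Gaussian weight after Poisson summation. -/
noncomputable def jw (c l : ℤ) (Y τ : ℝ) : ℝ :=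
  √Y * (c * √τ + l / √τ) * Real.exp (-π * Y * (τ * c ^ 2 + l ^ 2 / τ))

/-- The same, multiplied by `exp (2 π Y c l)`. -/
noncomputable def jj (c l : ℤ) (Y τ : ℝ) : ℝ :=
  √Y * (c * √τ + l / √τ) * Real.exp (-π * Y * (c * √τ - l / √τ) ^ 2)

/-- The exponential integral. -/
noncomputable def bet (x : ℝ) : ℝ := ∫ u in Ioi (1 : ℝ), Real.exp (-x * u) / u

/-- A fundamental set for `Γ₀(15)`. -/
def XD : Set ℍ := {z | ∃ q : SL(2, ℤ) ⧸ Gamma0 15, q.out • z ∈ 𝒟ᵒ}

/-- The vertical strip. -/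
def Str : Set ℍ := {z | 0 ≤ z.re ∧ z.re < 1}

/-- The periodic zeta function of the period lattice. -/
noncomputable def Zk (v : ℂ) : ℂ := zet L15 v - eta L15 v

/-- The pairing of the kernel with the newform. -/
noncomputable def Par.Ii (A : Par) (T : Finset Fm) (w : Fm → ℤ) (τ : ℝ) : ℂ :=
  ∫ z in XD, conj (f15 z) * z.im * A.Kk T w z τ

/-- Measurable forms of weight two that decay at all cusps. -/
structure Dec (Φ : ℂ → ℂ) : Prop where
  meas : Measurable fun z : ℍ => Φ z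
  inv : Inv15 Φ
  dec : ∃ δ C : ℝ, 0 < δ ∧ ∀ g : SL(2, ℤ), ∀ z ∈ 𝒟,
    ‖Φ (g • z : ℍ)‖ * (g • z).im ≤ C * Real.exp (-δ * z.im)

/-- The statement of the analytic side. -/
def GZan : Prop := ∀ p q : ℕ, ∃ C : ℂ, ∀ (χp χq : ℤ) (T : Finset Fm) (w : Fm → ℤ),
  (Par.mk p q χp χq).Dat T w → ∃ Λ : ℂ → ℂ, Differentiable ℂ Λ ∧ Λ 1 = 0 ∧
    (∀ s : ℂ, 2 < s.re →
      Λ s = LSeries (e15 (p * q)) (2 * s - 1) * LSeries (fun m => (rW T w m * a15 m : ℤ)) s) ∧
    ∀ M : ℕ, 0 < M → rW T w (M * (p * q : ℕ)) = 0 →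
      Tendsto (fun ε => ((2 * (Par.mk p q χp χq).arch T w M ε : ℝ) : ℂ)) (𝓝[>] 0)
        (𝓝 (C * a15 M * deriv Λ 1 - (Par.mk p q χp χq).fin T w M))

theorem exists_mob15 {γ : SL(2, ℤ)} (hγ : γ ∈ Gamma0 15) : ∃ a b c d : ℤ,
    a * d - b * (15 * c) = 1 ∧ ∀ z : ℍ, ((γ • z : ℍ) : ℂ) = mob a b (15 * c) d z := by
  obtain ⟨c, hc⟩ := (ZMod.intCast_zmod_eq_zero_iff_dvd _ 15).mp (Gamma0_mem.mp hγ)
  rw [Nat.cast_ofNat] at hc
  exact ⟨γ 0 0, γ 0 1, c, γ 1 1, hc ▸ det_SL γ, fun z => hc ▸ coe_smul_eq_mob γ z⟩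

end Pool.Agent.Dih
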