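import Pool.Agent.Lib.MP_60ff09_nt.Dih.AN0

/-! The local sections at one prime. -/

set_option autoImplicit false

open Complex Filter Topology Set MeasureTheory CongruenceSubgroup NumberTheorySymbols
open UpperHalfPlane hiding I
open scoped Real MatrixGroups ComplexConjugate Modular
open Pool.Agent.Lib.MP_696deb_nt Pool.Agent.Lib.MP_696deb_nt.Unif Pool.Agent.Shared.Weier

namespace Pool.Agent.Dih

section Fld

variable {F : Type} [Field F] [Fintype F] [DecidableEq F]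

/-- The complex valued quadratic character. -/
noncomputable def anaX (F : Type) [Field F] [Fintype F] [DecidableEq F] : MulChar F ℂ :=
  (quadraticChar F).ringHomComp (Int.castRingHom ℂ)

theorem anaX_apply (x : F) : anaX F x = (quadraticChar F x : ℂ) := rfl

theorem anaX_zero : anaX F 0 = 0 := MulChar.map_zero _

theorem anaX_sq {x : F} (hx : x ≠ 0) : anaX F x * anaX F x = 1 := by
  rw [anaX_apply, ← pow_two, ← Int.cast_pow, quadraticChar_sq_one hx, Int.cast_one]

theorem anaX_inv (x : F) : anaX F x⁻¹ = anaX F x := by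
  by_cases hx : x = 0
  · rw [hx, inv_zero]
  · have h : anaX F x⁻¹ * anaX F x = 1 := by rw [← map_mul, inv_mul_cancel₀ hx, map_one]
    linear_combination anaX F x * h - anaX F x⁻¹ * anaX_sq hx

theorem anaX_ne (hF : ringChar F ≠ 2) : anaX F ≠ 1 :=
  (MulChar.ringHomComp_ne_one_iff (RingHom.injective_int _)).mpr (quadraticChar_ne_one hF)

theorem ana_gsq (hF : ringChar F ≠ 2) {ψ : AddChar F ℂ} (hψ : ψ.IsPrimitive) :
    gaussSum (anaX F) ψ ^ 2 = anaX F (-1) * Fintype.card F :=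
  gaussSum_sq (anaX_ne hF) ((quadraticChar_isQuadratic F).comp _) hψ

theorem ana_twist (hF : ringChar F ≠ 2) (ψ : AddChar F ℂ) (l : F) :
    ∑ d : F, anaX F d * ψ (d * l) = anaX F l * gaussSum (anaX F) ψ := by
  by_cases hl : l = 0
  · simp only [hl, mul_zero, AddChar.map_zero_eq_one, mul_one, anaX_zero, zero_mul]
    exact MulChar.sum_eq_zero_of_ne_one (anaX_ne hF)
  · have h := gaussSum_mulShift (anaX F) ψ (Units.mk0 l hl)
    rw [← h, ← mul_assoc, Units.val_mk0, anaX_sq hl, one_mul, gaussSum]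
    simp only [AddChar.mulShift_apply, mul_comm l]

theorem ana_sq_sum (hF : ringChar F ≠ 2) {ψ : AddChar F ℂ} (hψ : ψ.IsPrimitive) {A : F}
    (hA : A ≠ 0) : ∑ r : F, ψ (A * r ^ 2) = anaX F A * gaussSum (anaX F) ψ := by
  have h1 : ∑ r : F, ψ (A * r ^ 2) = ∑ x : F, (anaX F x + 1) * ψ (x * A) := by
    rw [← Finset.sum_fiberwise Finset.univ (fun r : F => r ^ 2)]
    refine Finset.sum_congr rfl fun x _ => ?_
    rw [Finset.sum_congr rfl (g := fun _ => ψ (x * A))
      (fun r hr => by rw [(Finset.mem_filter.mp hr).2, mul_comm]), Finset.sum_const, nsmul_eq_mul]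
    have h := congrArg (Int.cast : ℤ → ℂ) (quadraticChar_card_sqrts hF x)
    rw [Set.toFinset_ofPred] at h
    push_cast at h
    rw [h, anaX_apply]
  have h2 := AddChar.sum_mulShift A hψ
  rw [if_neg hA, Nat.cast_zero] at h2
  simp only [h1, add_mul, one_mul, Finset.sum_add_distrib, h2, add_zero, ana_twist hF]

/-- The local section over a finite field. -/
noncomputable def anaP (ψ : AddChar F ℂ) (χ : ℂ) (N c d : F) : ℂ :=
  if c = 0 then (if N = 0 then anaX F d else 0)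
  else χ * anaX F (-c) * gaussSum (anaX F) ψ / Fintype.card F * ψ (N * d * c⁻¹)

theorem anaP_S (hF : ringChar F ≠ 2) {ψ : AddChar F ℂ} (hψ : ψ.IsPrimitive) {a : F}
    (ha : a ≠ 0) (c d k : F) :
    ∑ r : F, anaP ψ (anaX F a) (a * r ^ 2) c d * ψ (2 * a * r * k) =
      anaX F a * gaussSum (anaX F) ψ * anaP ψ (anaX F a) (a * k ^ 2) d (-c) := by
  have hcard : (Fintype.card F : ℂ) ≠ 0 := Nat.cast_ne_zero.mpr Fintype.card_ne_zero
  have h2 : (2 : F) ≠ 0 := Ring.two_ne_zero hF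
  have hG := ana_gsq hF hψ
  have hneg : ∀ x : F, anaX F (-x) = anaX F (-1) * anaX F x := fun x => by
    rw [← map_mul, neg_one_mul]
  have hm := anaX_sq (F := F) (neg_ne_zero.mpr one_ne_zero)
  by_cases hc : c = 0 <;> by_cases hd : d = 0
  · simp [anaP, hc, hd, anaX_zero]
  · rw [Finset.sum_eq_single 0 (fun r _ hr => by simp [anaP, hc, ha, hr]) (by simp)]
    simp only [anaP, hc, hd, if_true, if_false, mul_zero, zero_mul, neg_zero, ne_eq,
      OfNat.ofNat_ne_zero, not_false_eq_true, zero_pow, AddChar.map_zero_eq_one, mul_one, hneg d]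
    field_simp
    rw [hG]
    linear_combination (-(anaX F d * (Fintype.card F : ℂ))) * hm -
      anaX F d * anaX F (-1) ^ 2 * (Fintype.card F : ℂ) * anaX_sq ha
  · have h := AddChar.sum_mulShift (2 * a * k) hψ
    simp only [anaP, hc, hd, if_true, if_false, mul_zero, zero_mul, AddChar.map_zero_eq_one,
      mul_one, ← Finset.mul_sum]
    rw [Finset.sum_congr rfl (g := fun r => ψ (r * (2 * a * k))) (fun r _ => by congr 1; ring), h]
    by_cases hk : k = 0
    · simp only [hk, mul_zero, if_true, ne_eq, OfNat.ofNat_ne_zero, not_false_eq_true, zero_pow]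
      field_simp
    · simp [h2, ha, hk]
  · have hA : a * d * c⁻¹ ≠ 0 := mul_ne_zero (mul_ne_zero ha hd) (inv_ne_zero hc)
    have h := ana_sq_sum hF hψ hA
    rw [← Equiv.sum_comp (Equiv.addRight (k * c * d⁻¹))] at h
    simp only [anaP, hc, hd, if_false, mul_assoc _ (ψ _), ← Finset.mul_sum, ← AddChar.map_add_eq_mul]
    have h3 : ∀ r : F, ψ (a * r ^ 2 * d * c⁻¹ + 2 * a * r * k) =
        ψ (a * d * c⁻¹ * (r + k * c * d⁻¹) ^ 2) * ψ (a * k ^ 2 * -c * d⁻¹) := fun r => by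
      rw [← AddChar.map_add_eq_mul]
      congr 1
      field_simp
      ring
    simp only [Equiv.coe_addRight] at h
    simp only [h3, ← Finset.sum_mul, h, map_mul, anaX_inv, hneg c, hneg d]
    linear_combination anaX F a ^ 2 * anaX F (-1) * anaX F d * gaussSum (anaX F) ψ ^ 2 /
      (Fintype.card F : ℂ) * ψ (a * k ^ 2 * -c * d⁻¹) * anaX_sq hc

theorem anaP_hat (hF : ringChar F ≠ 2) {ψ : AddChar F ℂ} (hψ : ψ.IsPrimitive) (χ : ℂ)
    (N c l : F) : ∑ d : F, anaP ψ χ N c d * ψ (d * l) = gaussSum (anaX F) ψ *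
      if N + c * l = 0 then (if c = 0 then anaX F l else χ * anaX F (-c)) else 0 := by
  have hcard : (Fintype.card F : ℂ) ≠ 0 := Nat.cast_ne_zero.mpr Fintype.card_ne_zero
  by_cases hc : c = 0
  · by_cases hN : N = 0
    · simp only [anaP, hc, hN, if_true, zero_mul, add_zero, ana_twist hF]
      ring
    · simp [anaP, hc, hN]
  · have h := AddChar.sum_mulShift (N * c⁻¹ + l) hψ
    simp only [anaP, hc, if_false, mul_assoc _ (ψ _), ← Finset.mul_sum, ← AddChar.map_add_eq_mul]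
    rw [Finset.sum_congr rfl (g := fun r => ψ (r * (N * c⁻¹ + l))) (fun r _ => by congr 1; ring), h]
    have e : N * c⁻¹ + l = 0 ↔ N + c * l = 0 := by
      rw [show N + c * l = c * (N * c⁻¹ + l) by field_simp, mul_eq_zero, or_iff_right hc]
    by_cases hk : N + c * l = 0
    · rw [if_pos hk, if_pos (e.mpr hk)]
      field_simp
    · rw [if_neg hk, if_neg (mt e.mp hk), Nat.cast_zero, mul_zero, mul_zero]

end Fld

variable {P : ℕ} {u χ : ℤ}

section Zm

variable [Fact P.Prime]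

/-- The additive character `x ↦ e (u x / P)`. -/
noncomputable def anaE (P : ℕ) [Fact P.Prime] (u : ℤ) : AddChar (ZMod P) ℂ :=
  (ZMod.stdAddChar (N := P)).mulShift (u : ZMod P)

theorem ana_q1 (u m : ℤ) : q1 (u * m / P) = anaE P u (m : ZMod P) := by
  rw [anaE, AddChar.mulShift_apply, ← Int.cast_mul (α := ZMod P), ZMod.stdAddChar_coe, q1]
  congr 1
  push_cast
  ring

theorem ana_J (m : ℤ) : (J(m | P) : ℂ) = anaX (ZMod P) (m : ZMod P) := by
  rw [← jacobiSym.legendreSym.to_jacobiSym, anaX_apply, legendreSym]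

theorem ana_sum (f : ZMod P → ℂ) : ∑ x ∈ Finset.range P, f ((x : ℤ) : ZMod P) = ∑ x, f x := by
  refine Finset.sum_nbij' (fun x => (x : ZMod P)) ZMod.val (by simp)
    (fun x _ => by simpa using ZMod.val_lt x)
    (fun x hx => ZMod.val_cast_of_lt (by simpa using hx)) (by simp) (by simp)

theorem ana_gs (u : ℤ) : gs P u = gaussSum (anaX (ZMod P)) (anaE P u) := by
  rw [gs, gaussSum, ← ana_sum]
  refine Finset.sum_congr rfl fun x _ => ?_
  rw [← ana_J, ← ana_q1, Int.cast_natCast]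

theorem ana_inv (c : ℤ) : ((inv P c : ℤ) : ZMod P) = (c : ZMod P)⁻¹ := by
  rw [inv, Int.cast_natCast, ZMod.natCast_zmod_val]

theorem ana_phi (u χ N c d : ℤ) : phi1 P u χ N c d = anaP (anaE P u) χ N c d := by
  have h := ana_q1 (P := P) u (N * d * inv P c)
  rw [Int.cast_mul, Int.cast_mul, Int.cast_mul, Int.cast_mul, ana_inv] at h
  simp only [phi1, anaP, ← ZMod.intCast_zmod_eq_zero_iff_dvd, ana_J, ana_gs, h, ZMod.card,
    Int.cast_neg]

theorem ana_char (h2 : P ≠ 2) : ringChar (ZMod P) ≠ 2 := by rwa [ZMod.ringChar_zmod_n]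

theorem ana_prim (hu : ¬ (P : ℤ) ∣ u) : (anaE P u).IsPrimitive :=
  AddChar.IsPrimitive.of_ne_one (ZMod.isPrimitive_stdAddChar P
    (mt (ZMod.intCast_zmod_eq_zero_iff_dvd u P).mp hu))

end Zm

theorem mul_inv_emod (hP : P.Prime) {c : ℤ} (hc : ¬ (P : ℤ) ∣ c) : (P : ℤ) ∣ c * inv P c - 1 := by
  have := Fact.mk hP
  rw [← ZMod.intCast_zmod_eq_zero_iff_dvd] at hc ⊢
  rw [Int.cast_sub, Int.cast_mul, ana_inv, mul_inv_cancel₀ hc, Int.cast_one, sub_self]

private theorem norm_J_le (m : ℤ) : ‖(J(m | P) : ℂ)‖ ≤ 1 := by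
  rcases jacobiSym.trichotomy m P with h | h | h <;> simp [h]

theorem norm_gs (hP : P.Prime) (h2 : P ≠ 2) (hu : ¬ (P : ℤ) ∣ u) : ‖gs P u‖ = √P := by
  have := Fact.mk hP
  have h := congrArg norm (ana_gsq (ana_char h2) (ana_prim hu))
  have h1 := congrArg norm (anaX_sq (F := ZMod P) (neg_ne_zero.mpr one_ne_zero))
  rw [norm_mul, norm_one, ← pow_two, pow_eq_one_iff_of_nonneg (norm_nonneg _) two_ne_zero] at h1
  rw [norm_pow, norm_mul, h1, one_mul, ZMod.card, Complex.norm_natCast] at h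
  rw [ana_gs, ← h, Real.sqrt_sq (norm_nonneg _)]

theorem phi1_congr (hP : P.Prime) {N c d N' c' d' : ℤ} (hN : (P : ℤ) ∣ N - N')
    (hc : (P : ℤ) ∣ c - c') (hd : (P : ℤ) ∣ d - d') :
    phi1 P u χ N c d = phi1 P u χ N' c' d' := by
  have := Fact.mk hP
  rw [← ZMod.intCast_eq_intCast_iff_dvd_sub] at hN hc hd
  rw [ana_phi, ana_phi, hN, hc, hd]

theorem norm_phi1_le (hP : P.Prime) (h2 : P ≠ 2) (hu : ¬ (P : ℤ) ∣ u) (hχ : χ ^ 2 = 1)
    (N c d : ℤ) : ‖phi1 P u χ N c d‖ ≤ 1 := by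
  have hP1 : (1 : ℝ) ≤ P := by exact_mod_cast hP.one_le
  have hn : ‖(χ : ℂ)‖ = 1 := by
    rcases sq_eq_one_iff.mp hχ with h | h <;> simp [h]
  unfold phi1
  split_ifs
  · exact norm_J_le d
  · simp
  · have hq : ‖q1 (u * (N * d * inv P c) / P)‖ = 1 := by
      have e : ((u * (N * d * inv P c) / P : ℝ) : ℂ) = u * (N * d * inv P c) / P := by
        push_cast; rfl
      rw [norm_q1, ← e, ofReal_im, mul_zero, Real.exp_zero]
    rw [norm_mul, hq, mul_one, norm_div, norm_mul, norm_mul, hn, one_mul, norm_gs hP h2 hu,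
      Complex.norm_natCast, div_le_one (by linarith)]
    calc _ ≤ 1 * √P := mul_le_mul_of_nonneg_right (norm_J_le _) (Real.sqrt_nonneg _)
      _ ≤ P := by rw [one_mul]; exact Real.sqrt_le_iff.mpr ⟨by linarith, by nlinarith⟩

theorem phi1_T (hP : P.Prime) (N c d : ℤ) :
    phi1 P u χ N c (c + d) = phi1 P u χ N c d * q1 (u * N / P) := by
  have := Fact.mk hP
  rw [ana_phi, ana_phi, ana_q1, anaP, anaP, Int.cast_add]
  split_ifs with hc hN
  · rw [hc, hN, zero_add, AddChar.map_zero_eq_one, mul_one]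
  · rw [zero_mul]
  · rw [mul_assoc _ (anaE P u _), ← AddChar.map_add_eq_mul]
    congr 2
    field_simp
    ring

theorem phi1_smul (hP : P.Prime) (N k c d : ℤ) :
    phi1 P u χ N (k * c) (k * d) = J(k | P) * phi1 P u χ N c d := by
  have := Fact.mk hP
  rw [ana_phi, ana_phi, ana_J, anaP, anaP, Int.cast_mul, Int.cast_mul]
  by_cases hk : (k : ZMod P) = 0
  · simp [hk, anaX_zero]
  by_cases hc : (c : ZMod P) = 0
  · simp [hc]
  rw [if_neg (mul_ne_zero hk hc), if_neg hc, ← mul_neg, map_mul,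
    show (N : ZMod P) * (k * d) * (k * c : ZMod P)⁻¹ = N * d * (c : ZMod P)⁻¹ by field_simp]
  ring

theorem phi1_S (hP : P.Prime) (h2 : P ≠ 2) (hu : ¬ (P : ℤ) ∣ u) {a : ℤ} (ha : ¬ (P : ℤ) ∣ a)
    (hχ : J(a | P) = χ) (c d k : ℤ) :
    ∑ r ∈ Finset.range P, phi1 P u χ (a * r ^ 2) c d * q1 (u * (2 * a * r * k) / P) =
      χ * gs P u * phi1 P u χ (a * k ^ 2) d (-c) := by
  have := Fact.mk hP
  have h := anaP_S (ana_char h2) (ana_prim hu) (mt (ZMod.intCast_zmod_eq_zero_iff_dvd a P).mp ha)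
    (c : ZMod P) d k
  rw [← ana_J, hχ, ← ana_sum] at h
  rw [ana_phi, ana_gs]
  push_cast
  rw [← h]
  refine Finset.sum_congr rfl fun r _ => ?_
  have e := ana_q1 (P := P) u (2 * a * r * k)
  rw [ana_phi]
  push_cast at e ⊢
  rw [e]

theorem phi1_hat (hP : P.Prime) (h2 : P ≠ 2) (h15 : ¬ (P : ℤ) ∣ 15) (hu : ¬ (P : ℤ) ∣ u)
    (N c l : ℤ) :
    ∑ d ∈ Finset.range P, phi1 P u χ N (15 * c) d * q1 (u * (d * l) / P) =
      gs P u * (if (P : ℤ) ∣ N + 15 * (c * l) then lam1 P χ c l else 0 : ℤ) := by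
  have := Fact.mk hP
  have h := anaP_hat (ana_char h2) (ana_prim hu) χ (N : ZMod P) ((15 * c : ℤ) : ZMod P) l
  have e1 : (N : ZMod P) + ((15 * c : ℤ) : ZMod P) * l = 0 ↔ (P : ℤ) ∣ N + 15 * (c * l) := by
    rw [← ZMod.intCast_zmod_eq_zero_iff_dvd, ← Int.cast_mul, ← Int.cast_add, mul_assoc]
  have e2 : ((15 * c : ℤ) : ZMod P) = 0 ↔ (P : ℤ) ∣ c := by
    rw [ZMod.intCast_zmod_eq_zero_iff_dvd, (Nat.prime_iff_prime_int.mp hP).dvd_mul,
      or_iff_right h15]
  rw [← ana_sum, ← ana_gs, ← ana_J, ← Int.cast_neg, ← ana_J, ← neg_mul] at h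
  simp only [e1, e2] at h
  rw [lam1]
  push_cast at h ⊢
  rw [← h]
  refine Finset.sum_congr rfl fun r _ => ?_
  have e := ana_q1 (P := P) u (r * l)
  rw [ana_phi]
  push_cast at e ⊢
  rw [e]

end Pool.Agent.Dih
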