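import Pool.Agent.Lib.MP_60ff09_nt.Dih.ANa

/-! The section at both primes. -/

set_option autoImplicit false

open Complex Filter Topology Set MeasureTheory CongruenceSubgroup NumberTheorySymbols
open UpperHalfPlane hiding I
open scoped Real MatrixGroups ComplexConjugate Modular
open Pool.Agent.Lib.MP_696deb_nt Pool.Agent.Lib.MP_696deb_nt.Unif Pool.Agent.Shared.Weier

namespace Pool.Agent.Dih

variable {A : Par} {T : Finset Fm} {w : Fm → ℤ}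


theorem Par.Ok.n_pos (h : A.Ok) : 0 < A.n := Nat.mul_pos h.pp.pos h.qp.pos

theorem Par.Ok.ne (h : A.Ok) : A.p ≠ A.q := fun e => by
  have h1 := h.p4
  have h2 := h.q4
  omega

theorem Par.Ok.chi_sq (h : A.Ok) : A.χp ^ 2 = 1 ∧ A.χq ^ 2 = 1 := by
  have h1 : IsUnit (A.χp * A.χq * J(-15 | A.p) * J(-15 | A.q)) := h.sgn ▸ isUnit_one.neg
  have h2 := isUnit_of_mul_isUnit_left (isUnit_of_mul_isUnit_left h1)
  exact ⟨Int.isUnit_sq (isUnit_of_mul_isUnit_left h2), Int.isUnit_sq (isUnit_of_mul_isUnit_right h2)⟩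

theorem Par.Ok.ana2_cop (h : A.Ok) : A.p.Coprime A.q := (Nat.coprime_primes h.pp h.qp).2 h.ne

theorem Par.Ok.ana2_dvd (h : A.Ok) {x : ℤ} : (A.n : ℤ) ∣ x ↔ (A.p : ℤ) ∣ x ∧ (A.q : ℤ) ∣ x := by
  rw [Par.n, Nat.cast_mul]
  exact ⟨fun e => ⟨dvd_of_mul_right_dvd e, dvd_of_mul_left_dvd e⟩, fun e =>
    (Nat.isCoprime_iff_coprime.2 h.ana2_cop).mul_dvd e.1 e.2⟩

theorem Par.Ok.ana2_nd (h : A.Ok) : ¬ (A.p : ℤ) ∣ A.q ∧ ¬ (A.q : ℤ) ∣ A.p := by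
  simp only [Int.natCast_dvd_natCast, Nat.prime_dvd_prime_iff_eq h.pp h.qp,
    Nat.prime_dvd_prime_iff_eq h.qp h.pp]
  exact ⟨h.ne, h.ne.symm⟩

theorem ana2_inv {P : ℕ} (hP : P.Prime) {c : ℤ} (hc : ¬ (P : ℤ) ∣ c) : ¬ (P : ℤ) ∣ inv P c :=
  fun e => hP.not_dvd_one (Int.natCast_dvd_natCast.1 (by
    simpa using dvd_sub (e.mul_left c) (mul_inv_emod hP hc)))

theorem Par.Ok.ana2_two (h : A.Ok) : A.p ≠ 2 ∧ A.q ≠ 2 := by
  have h1 := h.p4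
  have h2 := h.q4
  omega

theorem Par.Ok.ana2_15 (h : A.Ok) : ¬ (A.p : ℤ) ∣ 15 ∧ ¬ (A.q : ℤ) ∣ 15 := by
  have key : ∀ P : ℕ, P.Prime → (P : ℤ) ∣ 15 → P = 3 ∨ P = 5 := fun P hP e => by
    have e' : P ∣ 3 * 5 := by exact_mod_cast e
    rwa [hP.dvd_mul, Nat.prime_dvd_prime_iff_eq hP Nat.prime_three,
      Nat.prime_dvd_prime_iff_eq hP Nat.prime_five] at e'
  have h1 := h.p4
  have h2 := h.q4
  have h3 := h.p5
  have h4 := h.q3
  exact ⟨fun e => by have := key _ h.pp e; omega, fun e => by have := key _ h.qp e; omega⟩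

theorem ana2_q1 {P : ℕ} (hP : P.Prime) (u : ℤ) {x y : ℤ} (h : (P : ℤ) ∣ x - y) :
    q1 (u * x / P) = q1 (u * y / P) := by
  obtain ⟨t, ht⟩ := h
  have h0 : (P : ℂ) ≠ 0 := Nat.cast_ne_zero.2 hP.ne_zero
  rw [sub_eq_iff_eq_add.1 ht, ← one_mul (q1 (u * y / P)), ← q1_int (u * t), ← q1_add]
  push_cast
  congr 1
  field_simp

theorem ana2_self (P : ℕ) (a : ℤ) : (P : ℤ) ∣ a - a := by simp

theorem ana2_sq {P : ℕ} (hP : P.Prime) {a : ℤ} (h : ¬ (P : ℤ) ∣ a) : J(a | P) ^ 2 = 1 :=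
  jacobiSym.sq_one (Int.isCoprime_iff_gcd_eq_one.1
    ((Nat.prime_iff_prime_int.1 hP).irreducible.coprime_iff_not_dvd.2 h).symm)

theorem ana2_zero {P : ℕ} (hP : P.Prime) {a : ℤ} (h : (P : ℤ) ∣ a) : J(a | P) = 0 := by
  rw [jacobiSym.mod_left, Int.emod_eq_zero_of_dvd h, jacobiSym.zero_left hP.one_lt]

theorem ana2_abs (a : ℤ) (P : ℕ) : |J(a | P)| ≤ 1 := by
  rcases jacobiSym.trichotomy a P with h | h | h <;> simp [h]

theorem ana2_abs_lam {P : ℕ} {χ : ℤ} (h : χ ^ 2 = 1) (c l : ℤ) : |lam1 P χ c l| ≤ 1 := by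
  rw [lam1]
  split_ifs
  · exact ana2_abs _ _
  · rw [abs_mul, Int.isUnit_iff_abs_eq.1 (IsUnit.of_pow_eq_one h two_ne_zero), one_mul]
    exact ana2_abs _ _

theorem ana2_neg (P : ℕ) (χ c l : ℤ) : lam1 P χ (-c) (-l) = J(-1 | P) * lam1 P χ c l := by
  simp only [lam1, dvd_neg]
  split_ifs
  · rw [← jacobiSym.mul_left, neg_one_mul]
  · rw [mul_left_comm, ← jacobiSym.mul_left, neg_one_mul, mul_neg]

theorem ana2_swap {P : ℕ} (hP : P.Prime) (h15 : ¬ (P : ℤ) ∣ 15) {χ F c l : ℤ} (hχ : χ ^ 2 = 1)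
    (hF : ¬ (P : ℤ) ∣ F → J(F | P) = χ) (hd : (P : ℤ) ∣ F + 15 * (c * l)) :
    lam1 P χ l c = χ * J(-15 | P) * lam1 P χ c l := by
  have h1 := ana2_sq hP (a := -15) (by rwa [dvd_neg])
  simp only [lam1, jacobiSym.mul_left]
  split_ifs with hl hc hc
  · rw [ana2_zero hP hl, ana2_zero hP hc, mul_zero]
  · linear_combination (-J(c | P) * J(-15 | P) ^ 2) * hχ - J(c | P) * h1
  · ring
  · have hp := Nat.prime_iff_prime_int.1 hP
    have h2 := hF fun e => by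
      rcases hp.dvd_or_dvd ((dvd_add_right e).1 hd) with k | k
      · exact h15 k
      · exact (hp.dvd_or_dvd k).elim hc hl
    have h3 : J(F | P) = J(-15 * (c * l) | P) :=
      jacobiSym.mod_left' (Int.ModEq.symm (Int.modEq_iff_dvd.2 (by simpa using hd)))
    rw [h3, jacobiSym.mul_left, jacobiSym.mul_left] at h2
    have h4 := ana2_sq hP hl
    linear_combination (-J(c | P) * J(-15 | P) ^ 2) * hχ - J(-15 | P) * J(l | P) * h2 +
      J(c | P) * J(-15 | P) ^ 2 * h4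

theorem Par.Ok.sqfree (h : A.Ok) : Squarefree A.n := by
  exact (Nat.squarefree_mul h.ana2_cop).2 ⟨h.pp.squarefree, h.qp.squarefree⟩

theorem Par.Ok.n_mod (h : A.Ok) : A.n % 4 = 3 := by
  rw [Par.n, Nat.mul_mod, h.p4, h.q4]

theorem Par.Ok.q1_split (h : A.Ok) (x : ℤ) :
    q1 (x / A.n) = q1 (inv A.p A.q * x / A.p) * q1 (inv A.q A.p * x / A.q) := by
  obtain ⟨t, ht⟩ : (A.n : ℤ) ∣ A.q * inv A.p A.q + A.p * inv A.q A.p - 1 := h.ana2_dvd.2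
    ⟨by rw [add_sub_right_comm]
        exact dvd_add (mul_inv_emod h.pp h.ana2_nd.1) (dvd_mul_right _ _), by
      rw [add_sub_assoc]
      exact dvd_add (dvd_mul_right _ _) (mul_inv_emod h.qp h.ana2_nd.2)⟩
  have h1 : (A.p : ℂ) ≠ 0 := Nat.cast_ne_zero.2 h.pp.ne_zero
  have h2 : (A.q : ℂ) ≠ 0 := Nat.cast_ne_zero.2 h.qp.ne_zero
  have h3 := congrArg (Int.cast : ℤ → ℂ) ht
  rw [← q1_add, ← mul_one (q1 (x / A.n)), ← q1_int (x * t), ← q1_add]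
  simp only [Par.n] at h3 ⊢
  push_cast at h3 ⊢
  congr 1
  field_simp
  linear_combination (-x : ℂ) * h3

theorem Par.Ok.sum_crt (h : A.Ok) {f g : ℤ → ℂ} (hf : ∀ x y, (A.p : ℤ) ∣ x - y → f x = f y)
    (hg : ∀ x y, (A.q : ℤ) ∣ x - y → g x = g y) :
    ∑ r ∈ Finset.range A.n, f r * g r =
      (∑ r ∈ Finset.range A.p, f r) * ∑ r ∈ Finset.range A.q, g r := by
  rw [Finset.sum_mul_sum, ← Finset.sum_product']
  have hi : Set.InjOn (fun r => (r % A.p, r % A.q)) (Finset.range A.n : Set ℕ) :=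
    fun a ha b hb e => Nat.ModEq.eq_of_lt_of_lt
      ((Nat.modEq_and_modEq_iff_modEq_mul h.ana2_cop).1 (Prod.mk.inj e))
      (Finset.mem_range.1 ha) (Finset.mem_range.1 hb)
  have hm : ∀ r ∈ Finset.range A.n, (r % A.p, r % A.q) ∈ Finset.range A.p ×ˢ Finset.range A.q :=
    fun r _ => Finset.mem_product.2 ⟨Finset.mem_range.2 (Nat.mod_lt _ h.pp.pos),
      Finset.mem_range.2 (Nat.mod_lt _ h.qp.pos)⟩
  refine Finset.sum_nbij _ hm hi (Finset.surjOn_of_injOn_of_card_le _ hm hi (by simp [Par.n]))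
    fun r _ => ?_
  rw [hf r (r % A.p : ℕ) (Nat.mod_modEq r _).dvd, hg r (r % A.q : ℕ) (Nat.mod_modEq r _).dvd]

theorem Par.Ok.gg_ne (h : A.Ok) : A.gg ≠ 0 := by
  refine mul_ne_zero (norm_ne_zero_iff.1 ?_) (norm_ne_zero_iff.1 ?_)
  · rw [norm_gs h.pp h.ana2_two.1 (ana2_inv h.pp h.ana2_nd.1)]
    exact Real.sqrt_ne_zero'.2 (Nat.cast_pos.2 h.pp.pos)
  · rw [norm_gs h.qp h.ana2_two.2 (ana2_inv h.qp h.ana2_nd.2)]
    exact Real.sqrt_ne_zero'.2 (Nat.cast_pos.2 h.qp.pos)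

theorem Par.Ok.phi_congr (h : A.Ok) {N c d N' c' d' : ℤ} (hN : (A.n : ℤ) ∣ N - N')
    (hc : (A.n : ℤ) ∣ c - c') (hd : (A.n : ℤ) ∣ d - d') : A.phi N c d = A.phi N' c' d' := by
  rw [h.ana2_dvd] at hN hc hd
  rw [Par.phi, Par.phi, phi1_congr h.pp hN.1 hc.1 hd.1, phi1_congr h.qp hN.2 hc.2 hd.2]

theorem Par.Ok.norm_phi_le (h : A.Ok) (N c d : ℤ) : ‖A.phi N c d‖ ≤ 1 := by
  rw [Par.phi, norm_mul]
  exact mul_le_one₀
    (norm_phi1_le h.pp h.ana2_two.1 (ana2_inv h.pp h.ana2_nd.1) h.chi_sq.1 _ _ _) (norm_nonneg _)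
    (norm_phi1_le h.qp h.ana2_two.2 (ana2_inv h.qp h.ana2_nd.2) h.chi_sq.2 _ _ _)

theorem Par.Ok.phi_T (h : A.Ok) (N c d : ℤ) : A.phi N c (c + d) = A.phi N c d * q1 (N / A.n) := by
  rw [Par.phi, Par.phi, phi1_T h.pp, phi1_T h.qp, h.q1_split]
  ring

theorem Par.Ok.phi_smul (h : A.Ok) (N k c d : ℤ) :
    A.phi N (k * c) (k * d) = J(k | A.n) * A.phi N c d := by
  rw [Par.phi, Par.phi, phi1_smul h.pp, phi1_smul h.qp, Par.n,
    jacobiSym.mul_right' k h.pp.ne_zero h.qp.ne_zero, Int.cast_mul]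
  ring

theorem Par.Ok.phi_zero_one (h : A.Ok) (N : ℤ) :
    A.phi N 0 1 = if (A.n : ℤ) ∣ N then 1 else 0 := by
  simp only [Par.phi, phi1, dvd_zero, if_true, jacobiSym.one_left, Int.cast_one, h.ana2_dvd]
  by_cases h1 : (A.p : ℤ) ∣ N <;> by_cases h2 : (A.q : ℤ) ∣ N <;> simp [h1, h2]

theorem Par.Ok.phi_S (h : A.Ok) {a : ℤ} (hp : ¬ (A.p : ℤ) ∣ a) (hq : ¬ (A.q : ℤ) ∣ a)
    (h1 : J(a | A.p) = A.χp) (h2 : J(a | A.q) = A.χq) (c d k : ℤ) :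
    ∑ r ∈ Finset.range A.n, A.phi (a * r ^ 2) c d * q1 (2 * a * r * k / A.n) =
      A.χp * A.χq * A.gg * A.phi (a * k ^ 2) d (-c) := by
  have k1 : ∀ x y : ℤ, x - y ∣ a * x ^ 2 - a * y ^ 2 := fun x y => ⟨a * (x + y), by ring⟩
  have k2 : ∀ x y : ℤ, x - y ∣ 2 * a * x * k - 2 * a * y * k := fun x y => ⟨2 * a * k, by ring⟩
  have h3 := h.sum_crt
    (f := fun r => phi1 A.p (inv A.p A.q) A.χp (a * r ^ 2) c d *
      q1 (inv A.p A.q * (2 * a * r * k : ℤ) / A.p))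
    (g := fun r => phi1 A.q (inv A.q A.p) A.χq (a * r ^ 2) c d *
      q1 (inv A.q A.p * (2 * a * r * k : ℤ) / A.q))
    (fun x y e => by
      rw [phi1_congr h.pp (e.trans (k1 x y)) (ana2_self _ c) (ana2_self _ d),
        ana2_q1 h.pp _ (e.trans (k2 x y))])
    fun x y e => by
      rw [phi1_congr h.qp (e.trans (k1 x y)) (ana2_self _ c) (ana2_self _ d),
        ana2_q1 h.qp _ (e.trans (k2 x y))]
  have h4 := fun r : ℕ => h.q1_split (2 * a * r * k)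
  push_cast at h3 h4
  rw [phi1_S h.pp h.ana2_two.1 (ana2_inv h.pp h.ana2_nd.1) hp h1,
    phi1_S h.qp h.ana2_two.2 (ana2_inv h.qp h.ana2_nd.2) hq h2] at h3
  simp only [Par.phi, Par.gg, h4]
  refine (Finset.sum_congr rfl fun r _ => ?_).trans (h3.trans ?_) <;> ring

theorem Par.Ok.phi_hat (h : A.Ok) (N c l : ℤ) :
    ∑ d ∈ Finset.range A.n, A.phi N (15 * c) d * q1 (d * l / A.n) =
      A.gg * (if (A.n : ℤ) ∣ N + 15 * (c * l) then A.lam c l else 0 : ℤ) := by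
  have k2 : ∀ x y : ℤ, x - y ∣ x * l - y * l := fun x y => ⟨l, by ring⟩
  have h3 := h.sum_crt
    (f := fun r => phi1 A.p (inv A.p A.q) A.χp N (15 * c) r * q1 (inv A.p A.q * (r * l : ℤ) / A.p))
    (g := fun r => phi1 A.q (inv A.q A.p) A.χq N (15 * c) r * q1 (inv A.q A.p * (r * l : ℤ) / A.q))
    (fun x y e => by
      rw [phi1_congr h.pp (ana2_self _ N) (ana2_self _ _) e, ana2_q1 h.pp _ (e.trans (k2 x y))])
    fun x y e => by
      rw [phi1_congr h.qp (ana2_self _ N) (ana2_self _ _) e, ana2_q1 h.qp _ (e.trans (k2 x y))]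
  have h4 := fun r : ℕ => h.q1_split (r * l)
  push_cast at h3 h4
  rw [phi1_hat h.pp h.ana2_two.1 h.ana2_15.1 (ana2_inv h.pp h.ana2_nd.1),
    phi1_hat h.qp h.ana2_two.2 h.ana2_15.2 (ana2_inv h.qp h.ana2_nd.2)] at h3
  simp only [Par.phi, Par.gg, Par.lam, h4, h.ana2_dvd]
  refine (Finset.sum_congr rfl fun r _ => by ring).trans (h3.trans ?_)
  by_cases e1 : (A.p : ℤ) ∣ N + 15 * (c * l) <;> by_cases e2 : (A.q : ℤ) ∣ N + 15 * (c * l) <;>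
    simp only [e1, e2, if_true, if_false, and_self, and_false, false_and, Int.cast_zero,
      Int.cast_mul, mul_zero, zero_mul]
  ring

theorem Par.Ok.abs_lam_le (h : A.Ok) (c l : ℤ) : |A.lam c l| ≤ 1 := by
  rw [Par.lam, abs_mul]
  exact mul_le_one₀ (ana2_abs_lam h.chi_sq.1 c l) (abs_nonneg _) (ana2_abs_lam h.chi_sq.2 c l)

theorem Par.Ok.lam_neg (h : A.Ok) (c l : ℤ) : A.lam (-c) (-l) = -A.lam c l := by
  rw [Par.lam, Par.lam, ana2_neg, ana2_neg, jacobiSym.at_neg_one (h.pp.odd_of_ne_two h.ana2_two.1),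
    jacobiSym.at_neg_one (h.qp.odd_of_ne_two h.ana2_two.2), ZMod.χ₄_nat_one_mod_four h.p4,
    ZMod.χ₄_nat_three_mod_four h.q4]
  ring

theorem Par.Ok.lam_swap (h : A.Ok) {Q : Fm} (hQ : A.InGen Q) {x y c l : ℤ}
    (hd : (A.n : ℤ) ∣ fval Q x y + 15 * (c * l)) : A.lam l c = -A.lam c l := by
  rw [h.ana2_dvd] at hd
  rw [Par.lam, Par.lam, ana2_swap h.pp h.ana2_15.1 h.chi_sq.1 (hQ.gp x y) hd.1,
    ana2_swap h.qp h.ana2_15.2 h.chi_sq.2 (hQ.gq x y) hd.2]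
  linear_combination lam1 A.p A.χp c l * lam1 A.q A.χq c l * h.sgn

end Pool.Agent.Dih
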