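import Pool.Agent.Lib.MP_60ff09_nt.Dih.AN0

/-! Theta series of positive definite binary forms. -/

set_option autoImplicit false

open Complex Filter Topology Set MeasureTheory CongruenceSubgroup NumberTheorySymbols
open UpperHalfPlane hiding I
open scoped Real MatrixGroups ComplexConjugate Modular
open Pool.Agent.Lib.MP_696deb_nt Pool.Agent.Lib.MP_696deb_nt.Unif Pool.Agent.Shared.Weier

namespace Pool.Agent.Dih

variable {Q : Fm}

theorem anb_c (hD : fdisc Q < 0) (ha : 0 < Q.1) : 0 < Q.2.2 := by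
  rw [fdisc] at hD
  nlinarith [sq_nonneg Q.2.1]

theorem anb_low (hD : fdisc Q < 0) (x y : ℝ) :
    x ^ 2 + y ^ 2 ≤ 4 * (Q.1 + Q.2.2) * (Q.1 * x ^ 2 + Q.2.1 * x * y + Q.2.2 * y ^ 2) := by
  have h : (Q.2.1 : ℝ) ^ 2 - 4 * Q.1 * Q.2.2 ≤ -1 := by
    exact_mod_cast (show fdisc Q ≤ -1 by omega)
  nlinarith [sq_nonneg (2 * Q.1 * x + Q.2.1 * y), sq_nonneg (2 * Q.2.2 * y + Q.2.1 * x),
    mul_le_mul_of_nonneg_right h (add_nonneg (sq_nonneg x) (sq_nonneg y))]

theorem anb_lowZ (hD : fdisc Q < 0) (x y : ℤ) : x ^ 2 + y ^ 2 ≤ 4 * (Q.1 + Q.2.2) * fval Q x y := by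
  rw [fval]
  exact_mod_cast anb_low hD x y

theorem anb_gauss {t : ℝ} (ht : 0 < t) (x : ℝ) :
    Summable fun n : ℤ => Real.exp (-t * (n - x) ^ 2) := by
  refine ((summable_pow_mul_jacobiTheta₂_term_bound 0 (T := t / (2 * π)) (by positivity) 0).mul_left
    (Real.exp (t * x ^ 2))).of_nonneg_of_le (fun _ => (Real.exp_pos _).le) fun n => ?_
  rw [pow_zero, one_mul, ← Real.exp_add, Real.exp_le_exp, mul_zero, zero_mul, sub_zero,
    show -π * (t / (2 * π) * (n : ℝ) ^ 2) = -(t / 2 * n ^ 2) by field_simp]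
  nlinarith [mul_nonneg ht.le (sq_nonneg ((n : ℝ) - 2 * x))]

theorem anb_gauss2 {t t' : ℝ} (ht : 0 < t) (ht' : 0 < t') (x x' : ℝ) :
    Summable fun v : ℤ × ℤ => Real.exp (-t * (v.1 - x) ^ 2) * Real.exp (-t' * (v.2 - x') ^ 2) :=
  (anb_gauss ht x).mul_of_nonneg (anb_gauss ht' x') (fun _ => (Real.exp_pos _).le)
    fun _ => (Real.exp_pos _).le

theorem anb_le (hD : fdisc Q < 0) (ha : 0 < Q.1) {y : ℝ} (hy : 0 < y) (s t : ℝ) :
    Real.exp (-y * (Q.1 * s ^ 2 + Q.2.1 * s * t + Q.2.2 * t ^ 2)) ≤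
      Real.exp (-(y / (4 * (Q.1 + Q.2.2))) * s ^ 2) *
        Real.exp (-(y / (4 * (Q.1 + Q.2.2))) * t ^ 2) := by
  have h : (0 : ℝ) < 4 * (Q.1 + Q.2.2) := by exact_mod_cast (by linarith [anb_c hD ha])
  rw [← Real.exp_add, Real.exp_le_exp, ← mul_add, neg_mul, neg_mul, neg_le_neg_iff,
    div_mul_eq_mul_div, div_le_iff₀ h, mul_assoc, mul_comm _ (4 * _)]
  exact mul_le_mul_of_nonneg_left (anb_low hD s t) hy.le

theorem fval_pos (hD : fdisc Q < 0) (ha : 0 < Q.1) {v : ℤ × ℤ} (hv : v ≠ 0) :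
    0 < fval Q v.1 v.2 := by
  have h : 0 < v.1 ^ 2 + v.2 ^ 2 := by
    by_contra h
    exact hv (Prod.ext (pow_eq_zero_iff two_ne_zero |>.1 (by nlinarith [sq_nonneg v.1, sq_nonneg v.2]))
      (pow_eq_zero_iff two_ne_zero |>.1 (by nlinarith [sq_nonneg v.1, sq_nonneg v.2])))
  exact pos_of_mul_pos_right (h.trans_le (anb_lowZ hD _ _)) (by linarith [anb_c hD ha])

theorem anb_nonneg (hD : fdisc Q < 0) (ha : 0 < Q.1) (v : ℤ × ℤ) : 0 ≤ fval Q v.1 v.2 := by
  by_cases h : v = 0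
  · simp [h, fval]
  · exact (fval_pos hD ha h).le

theorem finite_rep (hD : fdisc Q < 0) (ha : 0 < Q.1) (N : ℤ) :
    {v : ℤ × ℤ | fval Q v.1 v.2 = N}.Finite := by
  refine ((finite_Icc (-(4 * (Q.1 + Q.2.2) * N)) (4 * (Q.1 + Q.2.2) * N)).prod
    (finite_Icc (-(4 * (Q.1 + Q.2.2) * N)) (4 * (Q.1 + Q.2.2) * N))).subset fun v hv => ?_
  have h := anb_lowZ hD v.1 v.2
  rw [show fval Q v.1 v.2 = N from hv] at h
  have k : ∀ x : ℤ, |x| ≤ x ^ 2 := fun x => sq_abs x ▸ Int.le_self_sq |x|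
  exact ⟨abs_le.1 (by linarith [k v.1, sq_nonneg v.2]), abs_le.1 (by linarith [k v.2, sq_nonneg v.1])⟩

theorem rep_neg (hD : fdisc Q < 0) (ha : 0 < Q.1) {N : ℤ} (hN : N < 0) : rep Q N = 0 := by
  rw [rep, eq_empty_of_forall_notMem fun v (hv : v ∈ {v : ℤ × ℤ | fval Q v.1 v.2 = N}) =>
    (anb_nonneg hD ha v).not_gt (hv ▸ hN), ncard_empty]

theorem rep_zero (hD : fdisc Q < 0) (ha : 0 < Q.1) : rep Q 0 = 1 := by
  rw [rep, show {v : ℤ × ℤ | fval Q v.1 v.2 = 0} = {0} from Set.ext fun v =>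
    ⟨fun h => by_contra fun k => (fval_pos hD ha k).ne' h, fun h => by
      simp [mem_singleton_iff.1 h, fval]⟩, ncard_singleton]

theorem summable_form (hD : fdisc Q < 0) (ha : 0 < Q.1) {y : ℝ} (hy : 0 < y) :
    Summable fun v : ℤ × ℤ => Real.exp (-y * fval Q v.1 v.2) := by
  have h : (0 : ℝ) < 4 * (Q.1 + Q.2.2) := by exact_mod_cast (by linarith [anb_c hD ha])
  refine (anb_gauss2 (div_pos hy h) (div_pos hy h) 0 0).of_nonneg_of_le
    (fun _ => (Real.exp_pos _).le) fun v => ?_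
  simpa only [fval, sub_zero, Int.cast_add, Int.cast_mul, Int.cast_pow] using anb_le hD ha hy v.1 v.2

theorem anb_one {κ : ℝ} (hκ : 0 < κ) : ∃ S : ℝ, ∀ t : ℝ, 0 < t → t ≤ κ →
    (∑' n : ℤ, Real.exp (-t * n ^ 2)) ^ 2 ≤ S / t := by
  refine ⟨π * (∑' n : ℤ, Real.exp (-(π ^ 2 / κ) * n ^ 2)) ^ 2, fun t ht h => ?_⟩
  have h1 := Real.tsum_exp_neg_mul_int_sq (a := t / π) (by positivity)
  rw [show -π * (t / π) = -t by field_simp, show -π / (t / π) = -(π ^ 2 / t) by field_simp] at h1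
  rw [h1, mul_pow, div_pow, one_pow, ← Real.sqrt_eq_rpow, Real.sq_sqrt (by positivity),
    one_div_div, div_mul_eq_mul_div]
  have h2 := fun (u : ℝ) (hu : 0 < u) => anb_gauss (t := π ^ 2 / u) (by positivity) 0
  simp only [sub_zero] at h2
  gcongr
  exacts [h2 t ht, h2 κ hκ]

/-- The sum over the nonzero vectors. -/
theorem tsum_form_le (hD : fdisc Q < 0) (ha : 0 < Q.1) : ∃ C : ℝ, ∀ y : ℝ, 0 < y →
    ∑' v : ℤ × ℤ, (if v = 0 then 0 else Real.exp (-y * fval Q v.1 v.2)) ≤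
      C * (1 + 1 / y) * Real.exp (-y) := by
  have h : (0 : ℝ) < 4 * (Q.1 + Q.2.2) := by exact_mod_cast (by linarith [anb_c hD ha])
  obtain ⟨S, hS⟩ := anb_one (one_div_pos.2 h)
  have S0 : 0 ≤ S := by
    have := (sq_nonneg _).trans (hS _ (one_div_pos.2 h) le_rfl)
    exact (div_nonneg_iff.1 this).elim And.left fun k => absurd k.2 (one_div_pos.2 h).not_ge
  set A := ∑' v : ℤ × ℤ, Real.exp (-1 * fval Q v.1 v.2) with hA
  have A0 : 0 ≤ A := tsum_nonneg fun _ => (Real.exp_pos _).le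
  refine ⟨Real.exp 1 * (A + S * (4 * (Q.1 + Q.2.2))), fun y hy => ?_⟩
  have h1 : ∀ v : ℤ × ℤ, (if v = 0 then 0 else Real.exp (-y * fval Q v.1 v.2)) ≤
      Real.exp (-y * fval Q v.1 v.2) := fun v => by
    split_ifs
    exacts [(Real.exp_pos _).le, le_rfl]
  have h2 := (summable_form hD ha hy).of_nonneg_of_le (fun v => by positivity) h1
  rcases le_total y 1 with k | k
  · have h3 := anb_gauss (div_pos hy h) 0
    have h4 := anb_gauss2 (div_pos hy h) (div_pos hy h) 0 0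
    simp only [sub_zero] at h3 h4
    have h5 := h2.tsum_le_tsum (fun v => (h1 v).trans (by
      simpa only [fval, Int.cast_add, Int.cast_mul, Int.cast_pow] using anb_le hD ha hy v.1 v.2)) h4
    rw [← h3.tsum_mul_tsum h3 h4, ← sq] at h5
    refine (h5.trans (hS _ (div_pos hy h) (by gcongr))).trans ?_
    have h6 : 1 ≤ Real.exp 1 * Real.exp (-y) := by
      rw [← Real.exp_add]
      exact Real.one_le_exp (by linarith)
    calc _ = 1 * ((0 + S * (4 * (Q.1 + Q.2.2))) * (0 + 1 / y)) := by field_simp; ring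
      _ ≤ Real.exp 1 * Real.exp (-y) * ((A + S * (4 * (Q.1 + Q.2.2))) * (1 + 1 / y)) := by
        gcongr
        exact zero_le_one
      _ = _ := by ring
  · have h3 := h2.tsum_le_tsum (g := fun v : ℤ × ℤ => Real.exp 1 * Real.exp (-y) *
      Real.exp (-1 * fval Q v.1 v.2)) (fun v => by
        split_ifs with e
        · positivity
        · have : (1 : ℝ) ≤ fval Q v.1 v.2 := by exact_mod_cast fval_pos hD ha e
          rw [← Real.exp_add, ← Real.exp_add, Real.exp_le_exp]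
          nlinarith [mul_nonneg (sub_nonneg.2 k) (sub_nonneg.2 this)])
      ((summable_form hD ha one_pos).mul_left _)
    rw [tsum_mul_left, ← hA] at h3
    refine h3.trans ?_
    calc _ = Real.exp 1 * Real.exp (-y) * ((A + 0) * (1 + 0)) := by ring
      _ ≤ Real.exp 1 * Real.exp (-y) * ((A + S * (4 * (Q.1 + Q.2.2))) * (1 + 1 / y)) := by
        gcongr <;> positivity
      _ = _ := by ring

/-- Grouping by the value of the form. -/
theorem hasSum_rep (hD : fdisc Q < 0) (ha : 0 < Q.1) {g : ℤ → ℂ}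
    (hg : Summable fun v : ℤ × ℤ => g (fval Q v.1 v.2)) :
    HasSum (fun N : ℕ => (rep Q N : ℂ) * g N) (∑' v : ℤ × ℤ, g (fval Q v.1 v.2)) := by
  have h := hg.hasSum.tsum_fiberwise fun v => (fval Q v.1 v.2).toNat
  have e : ∀ N : ℕ, (fun v : ℤ × ℤ => (fval Q v.1 v.2).toNat) ⁻¹' {N} =
      {v : ℤ × ℤ | fval Q v.1 v.2 = N} := fun N => Set.ext fun v => by
    have := anb_nonneg hD ha v
    simp only [mem_preimage, mem_singleton_iff, mem_ofPred_eq]
    omega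
  refine (funext fun N => ?_ : _ = fun N : ℕ => (rep Q N : ℂ) * g N) ▸ h
  rw [e, tsum_congr fun v : {v : ℤ × ℤ | fval Q v.1 v.2 = N} => congrArg g v.2, tsum_const,
    Nat.card_coe_set_eq, nsmul_eq_mul, rep]

theorem anb_sqrt {s : ℂ} (hs : s ≠ 0) {r : ℝ} (hr : 0 < r) :
    (s * r) ^ (1 / 2 : ℂ) = s ^ (1 / 2 : ℂ) * √r := by
  rw [mul_comm s, cpow_def_of_ne_zero (mul_ne_zero (ofReal_ne_zero.2 hr.ne') hs),
    log_ofReal_mul hr hs, add_mul, Complex.exp_add, ← cpow_def_of_ne_zero hs, mul_comm,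
    Real.sqrt_eq_rpow, Real.rpow_def_of_pos hr]
  push_cast
  rfl

/-- Inversion of the theta series. -/
theorem theta2 (hD : fdisc Q < 0) (ha : 0 < Q.1) {s : ℂ} (hs : 0 < s.re) (x₁ x₂ : ℝ) :
    ∑' v : ℤ × ℤ, cexp (-π * s * fval Q v.1 v.2) * q1 (x₁ * v.1 + x₂ * v.2) =
      2 / (s * √(-fdisc Q : ℝ)) * ∑' k : ℤ × ℤ, cexp (-(4 * π / (s * (-fdisc Q : ℤ))) *
        (Q.2.2 * (k.1 - x₁) ^ 2 - Q.2.1 * (k.1 - x₁) * (k.2 - x₂) + Q.1 * (k.2 - x₂) ^ 2)) := by
  have hc := anb_c hD ha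
  have h4 : (0 : ℝ) < 4 * (Q.1 + Q.2.2) := by exact_mod_cast (by linarith)
  have hF := summable_form hD ha (mul_pos Real.pi_pos hs)
  have hH := @anb_le Q hD ha
  obtain ⟨a, b, c⟩ := Q
  obtain ⟨D, eD⟩ : ∃ D : ℝ, D = (-fdisc (a, b, c) : ℝ) := ⟨_, rfl⟩
  have D0 : 0 < D := eD ▸ neg_pos.2 (Int.cast_lt_zero.2 hD)
  have eD' : ((-fdisc (a, b, c) : ℤ) : ℂ) = D := by
    rw [eD]
    push_cast
    rfl
  have ea : (D : ℂ) = 4 * a * c - b ^ 2 := by
    rw [← eD', fdisc]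
    push_cast
    ring
  rw [← eD, eD']
  dsimp only at *
  have s0 : s ≠ 0 := fun e => hs.ne' (e ▸ rfl)
  have c0 : (0 : ℝ) < c := Int.cast_pos.2 hc
  have c1 : (c : ℂ) ≠ 0 := Int.cast_ne_zero.2 hc.ne'
  have D1 : (D : ℂ) ≠ 0 := ofReal_ne_zero.2 D0.ne'
  have hi : 0 < s⁻¹.re := by
    rw [inv_re]
    exact div_pos hs (normSq_pos.2 s0)
  have hr : ∀ r : ℝ, 0 < r → 0 < (s * r).re := fun r hr => by
    rw [re_mul_ofReal]
    exact mul_pos hs hr
  let G : ℤ → ℤ → ℂ := fun m l => cexp (-π / (s * (c : ℝ)) * (l - x₂) ^ 2) *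
    cexp (-π * (s * (D / (4 * c) : ℝ)) * m ^ 2 + 2 * π * (I * (x₁ + b * (l - x₂) / (2 * c))) * m)
  let H : ℤ → ℤ → ℂ := fun k l => cexp (-(4 * π / (s * D)) *
    (c * (k - x₁) ^ 2 - b * (k - x₁) * (l - x₂) + a * (l - x₂) ^ 2))
  have h1 : ∀ m : ℤ, ∑' v : ℤ, cexp (-π * s * fval (a, b, c) m v) * q1 (x₁ * m + x₂ * v) =
      1 / (s * (c : ℝ)) ^ (1 / 2 : ℂ) * ∑' l, G m l := fun m => by
    have e := congrArg (cexp (-π * s * a * m ^ 2 + 2 * π * I * x₁ * m) * ·)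
      (tsum_exp_neg_quadratic (hr c c0) (-s * b * m / 2 + I * x₂))
    rw [mul_left_comm (cexp _) (1 / _), ← tsum_mul_left, ← tsum_mul_left (a := cexp _)] at e
    refine (tsum_congr fun v => ?_).trans (e.trans (congrArg _ (tsum_congr fun l => ?_)))
    · rw [q1, ← Complex.exp_add, ← Complex.exp_add, fval]
      push_cast
      exact congrArg _ (by ring)
    · simp only [G]
      rw [← Complex.exp_add, ← Complex.exp_add, mul_add I, ← mul_assoc I, I_mul_I]
      push_cast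
      refine congrArg _ ?_
      rw [ea]
      field_simp
      linear_combination (-4 * (s ^ 2 * b ^ 2 * m ^ 2)) * I_mul_I
  have h2 : ∀ l : ℤ, ∑' m, G m l =
      1 / (s * (D / (4 * c) : ℝ)) ^ (1 / 2 : ℂ) * ∑' k, H k l := fun l => by
    rw [tsum_mul_left, tsum_exp_neg_quadratic (hr _ (by positivity)), mul_left_comm,
      ← tsum_mul_left]
    refine congrArg _ (tsum_congr fun k => ?_)
    rw [← Complex.exp_add, ← mul_assoc I, I_mul_I]
    push_cast
    refine congrArg _ ?_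
    field_simp
    linear_combination (-4 * (l - x₂) ^ 2 : ℂ) * ea
  have sF : Summable fun v : ℤ × ℤ =>
      cexp (-π * s * fval (a, b, c) v.1 v.2) * q1 (x₁ * v.1 + x₂ * v.2) :=
    hF.of_norm_bounded fun v => by
      rw [q1, ← Complex.exp_add, norm_exp]
      simp
  have sG : Summable (Function.uncurry G) :=
    (anb_gauss2 (t := π * s.re * (D / (4 * c))) (t' := π * s⁻¹.re / c) (by positivity)
      (by positivity) 0 x₂).of_norm_bounded fun v => by
        have e : G v.1 v.2 = cexp (s⁻¹ * (-π / c * (v.2 - x₂) ^ 2 : ℝ) +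
            (s * (-π * (D / (4 * c)) * v.1 ^ 2 : ℝ) +
              (2 * π * (x₁ + b * (v.2 - x₂) / (2 * c)) * v.1 : ℝ) * I)) := by
          simp only [G]
          rw [← Complex.exp_add]
          push_cast
          exact congrArg _ (by field_simp)
        rw [Function.uncurry, e, norm_exp, add_re, add_re, re_mul_ofReal, re_mul_ofReal,
          re_ofReal_mul, Complex.I_re, ← Real.exp_add]
        exact le_of_eq (congrArg _ (by ring))
  have sH : Summable (Function.uncurry H) := by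
    have y0 : 0 < 4 * π * s⁻¹.re / D := by positivity
    refine (anb_gauss2 (div_pos y0 h4) (div_pos y0 h4) x₁ x₂).of_norm_bounded fun v => ?_
    have e : H v.1 v.2 = cexp (s⁻¹ * (-(4 * π / D) * (a * (v.2 - x₂) ^ 2 +
        b * (v.2 - x₂) * (x₁ - v.1) + c * (x₁ - v.1) ^ 2) : ℝ)) := by
      push_cast
      exact congrArg cexp (by field_simp; ring)
    rw [Function.uncurry, e, norm_exp, re_mul_ofReal, mul_comm (Real.exp _), sub_sq_comm (v.1 : ℝ)]
    exact (le_of_eq (congrArg _ (by ring))).trans (hH y0 _ _)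
  rw [sF.tsum_prod, tsum_congr h1, tsum_mul_left, ← sG.tsum_comm, tsum_congr h2, tsum_mul_left,
    sH.tsum_comm, ← sH.tsum_prod_uncurry sH.prod_factor, ← mul_assoc, one_div_mul_one_div, anb_sqrt s0 c0,
    anb_sqrt s0 (by positivity), mul_mul_mul_comm, ← cpow_add _ _ s0, add_halves, cpow_one,
    ← ofReal_mul, ← Real.sqrt_mul c0.le, show c * (D / (4 * c)) = D / 2 ^ 2 by field_simp; norm_num,
    Real.sqrt_div' _ (by positivity), Real.sqrt_sq zero_le_two]
  refine congrArg₂ _ ?_ rfl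
  push_cast
  rw [← mul_div_assoc, one_div_div]

end Pool.Agent.Dih
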