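import Pool.Agent.Lib.MP_60ff09_nt.Dih.ANa2
import Pool.Agent.Lib.MP_60ff09_nt.Dih.ANb

/-! Modularity of the theta series paired with the section. -/

set_option autoImplicit false

open Complex Filter Topology Set MeasureTheory CongruenceSubgroup NumberTheorySymbols
open UpperHalfPlane hiding I
open scoped Real MatrixGroups ComplexConjugate Modular
open Pool.Agent.Lib.MP_696deb_nt Pool.Agent.Lib.MP_696deb_nt.Unif Pool.Agent.Shared.Weier

namespace Pool.Agent.Dih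

variable {A : Par} {T : Finset Fm} {w : Fm → ℤ}


theorem Par.InGen.neg {Q : Fm} (hQ : A.InGen Q) (h : A.Ok) : fdisc Q < 0 := by
  rw [hQ.disc, neg_lt_zero]
  exact_mod_cast h.n_pos

/-- A unimodular change of variables. -/
def ancEq {a b c d : ℤ} (e : a * d - b * c = 1) : ℤ × ℤ ≃ ℤ × ℤ where
  toFun v := (a * v.1 + b * v.2, c * v.1 + d * v.2)
  invFun v := (d * v.1 - b * v.2, -c * v.1 + a * v.2)
  left_inv v := Prod.ext (by dsimp only; linear_combination v.1 * e)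
    (by dsimp only; linear_combination v.2 * e)
  right_inv v := Prod.ext (by dsimp only; linear_combination v.1 * e)
    (by dsimp only; linear_combination v.2 * e)

theorem Par.InGen.of_fmap {Q : Fm} (hQ : A.InGen Q) (h : A.Ok) {a b c d : ℤ} (e : a * d - b * c = 1) :
    A.InGen (fmap Q a b c d) := by
  refine ⟨by rw [fdisc_fmap e, hQ.disc], fmap_pos e (hQ.neg h) hQ.pos, fun x y => ?_, fun x y => ?_⟩
  · rw [fval_fmap]
    exact hQ.gp _ _
  · rw [fval_fmap]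
    exact hQ.gq _ _

theorem anc_prime {P : ℕ} (hP : P.Prime) {n a b c : ℤ} (hn : Squarefree n) (hd : (P : ℤ) ∣ n)
    (e : b ^ 2 - 4 * a * c = -n) (ha : (P : ℤ) ∣ a) : (P : ℤ) ∣ b ∧ ¬ (P : ℤ) ∣ c := by
  have hp : Prime (P : ℤ) := Nat.prime_iff_prime_int.1 hP
  have hb : (P : ℤ) ∣ b := by
    refine hp.dvd_of_dvd_pow (n := 2) ?_
    rw [show b ^ 2 = a * (4 * c) - n by linear_combination e]
    exact dvd_sub (ha.mul_right _) hd
  refine ⟨hb, fun hc => hp.not_isUnit (hn _ ?_)⟩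
  rw [show n = 4 * (a * c) - b * b by linear_combination e]
  exact dvd_sub ((mul_dvd_mul ha hc).mul_left _) (mul_dvd_mul hb hb)

theorem anc_first {Q : Fm} (hQ : A.InGen Q) (h : A.Ok) : ∃ a b c d : ℤ, a * d - b * c = 1 ∧
    ¬ (A.p : ℤ) ∣ fval Q a c ∧ ¬ (A.q : ℤ) ∣ fval Q a c := by
  obtain ⟨a, b, c⟩ := Q
  have hn : Squarefree (A.n : ℤ) := Int.squarefree_natCast.2 h.sqfree
  have hp : (A.p : ℤ) ∣ A.n := Int.natCast_dvd_natCast.2 (dvd_mul_right _ _)
  have hq : (A.q : ℤ) ∣ A.n := Int.natCast_dvd_natCast.2 (dvd_mul_left _ _)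
  have e : b ^ 2 - 4 * a * c = -A.n := hQ.disc
  have e' : b ^ 2 - 4 * c * a = -A.n := by linear_combination e
  have v1 : fval (a, b, c) 1 0 = a := by simp [fval]
  have v2 : fval (a, b, c) 0 1 = c := by simp [fval]
  have v3 : fval (a, b, c) 1 1 = a + b + c := by simp [fval]
  have k1 : ∀ {P : ℕ}, P.Prime → (P : ℤ) ∣ A.n → (P : ℤ) ∣ a → ¬ (P : ℤ) ∣ a + b + c :=
    fun hP hd ha h1 => (anc_prime hP hn hd e ha).2
      ((dvd_add_right (dvd_add ha (anc_prime hP hn hd e ha).1)).1 h1)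
  have k2 : ∀ {P : ℕ}, P.Prime → (P : ℤ) ∣ A.n → (P : ℤ) ∣ c → ¬ (P : ℤ) ∣ a + b + c :=
    fun hP hd hc h1 => (anc_prime hP hn hd e' hc).2
      ((dvd_add_left (dvd_add (anc_prime hP hn hd e' hc).1 hc)).1 (add_assoc a b c ▸ h1))
  by_cases pa : (A.p : ℤ) ∣ a
  · by_cases qc : (A.q : ℤ) ∣ c
    · exact ⟨1, 0, 1, 1, by norm_num, v3 ▸ k1 h.pp hp pa, v3 ▸ k2 h.qp hq qc⟩
    · exact ⟨0, -1, 1, 0, by norm_num, v2.symm ▸ (anc_prime h.pp hn hp e pa).2, v2.symm ▸ qc⟩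
  · by_cases qa : (A.q : ℤ) ∣ a
    · by_cases pc : (A.p : ℤ) ∣ c
      · exact ⟨1, 0, 1, 1, by norm_num, v3 ▸ k2 h.pp hp pc, v3 ▸ k1 h.qp hq qa⟩
      · exact ⟨0, -1, 1, 0, by norm_num, v2.symm ▸ pc, v2.symm ▸ (anc_prime h.qp hn hq e qa).2⟩
    · exact ⟨1, 0, 0, 1, by norm_num, v1.symm ▸ pa, v1.symm ▸ qa⟩

theorem anc_shift {R : Fm} (hR : A.InGen R) (h : A.Ok) (hp : ¬ (A.p : ℤ) ∣ R.1)
    (hq : ¬ (A.q : ℤ) ∣ R.1) :
    ∃ k : ℤ, (A.n : ℤ) ∣ (fmap R 1 k 0 1).2.1 ∧ (A.n : ℤ) ∣ (fmap R 1 k 0 1).2.2 := by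
  have h1 : IsCoprime (A.n : ℤ) R.1 := by
    rw [Par.n, Nat.cast_mul]
    exact (((Nat.prime_iff_prime_int.1 h.pp).coprime_iff_not_dvd).2 hp).mul_left
      (((Nat.prime_iff_prime_int.1 h.qp).coprime_iff_not_dvd).2 hq)
  have h2 : IsCoprime (A.n : ℤ) 2 := by
    have := h.n_mod
    exact ⟨1, -(A.n / 2 : ℕ), by omega⟩
  obtain ⟨u, v, huv⟩ := h2.mul_right h1
  have h3 : (A.n : ℤ) ∣ 2 * R.1 * (-(v * R.2.1)) + R.2.1 :=
    ⟨u * R.2.1, by linear_combination (-R.2.1) * huv⟩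
  refine ⟨-(v * R.2.1), by simpa [fmap] using h3, ?_⟩
  refine (h2.mul_right (h2.mul_right h1)).dvd_of_dvd_mul_left ?_
  have h4 := four_mul_fval R (-(v * R.2.1)) 1
  rw [hR.disc] at h4
  rw [show 2 * (2 * R.1) * (fmap R 1 (-(v * R.2.1)) 0 1).2.2 =
    (2 * R.1 * (-(v * R.2.1)) + R.2.1) ^ 2 + A.n by simp only [fmap]; linear_combination h4]
  exact dvd_add (dvd_pow h3 two_ne_zero) dvd_rfl

theorem Par.InGen.exists_normal {Q : Fm} (hQ : A.InGen Q) (h : A.Ok) : ∃ a b c d : ℤ,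
    a * d - b * c = 1 ∧ (A.n : ℤ) ∣ (fmap Q a b c d).2.1 ∧ (A.n : ℤ) ∣ (fmap Q a b c d).2.2 := by
  obtain ⟨a, b, c, d, e, hp, hq⟩ := anc_first hQ h
  obtain ⟨k, h1, h2⟩ := anc_shift (hQ.of_fmap h e) h hp hq
  rw [fmap_fmap] at h1 h2
  exact ⟨_, _, _, _, by linear_combination e, h1, h2⟩

theorem anc_normal {Q : Fm} (hQ : A.InGen Q) (h : A.Ok) : ∃ a b c d x y z : ℤ,
    a * d - b * c = 1 ∧ fmap Q a b c d = (x, A.n * y, A.n * z) ∧
      2 * x * (2 * z) - A.n * y * y = 1 := by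
  obtain ⟨a, b, c, d, e, ⟨y, hy⟩, z, hz⟩ := hQ.exists_normal h
  refine ⟨a, b, c, d, (fmap Q a b c d).1, y, z, e, Prod.ext rfl (Prod.ext hy hz), ?_⟩
  have h1 := (hQ.of_fmap h e).disc
  rw [fdisc, hy, hz] at h1
  have n0 : (A.n : ℤ) ≠ 0 := by exact_mod_cast h.n_pos.ne'
  exact mul_left_cancel₀ n0 (by linear_combination -h1)

theorem anc_dual {n x y z : ℤ} (e : 2 * x * (2 * z) - n * y * y = 1) :
    fmap (z, -(n * y), n * x) (2 * x) (n * y) y (2 * z) = (x, n * y, n * z) := by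
  simp only [fmap, fval, Prod.mk.injEq]
  exact ⟨by linear_combination x * e, by linear_combination n * y * e,
    by linear_combination n * z * e⟩

theorem rep_fmap (Q : Fm) {a b c d : ℤ} (e : a * d - b * c = 1) (N : ℤ) :
    rep (fmap Q a b c d) N = rep Q N := by
  rw [rep, rep, ← ncard_preimage_of_injective_subset_range (s := {v | fval Q v.1 v.2 = N})
    (ancEq e).injective (by rw [(ancEq e).surjective.range_eq]; exact subset_univ _)]
  simp only [fval_fmap]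
  rfl

theorem Par.InGen.rep_mul {Q : Fm} (hQ : A.InGen Q) (h : A.Ok) (m : ℤ) :
    rep Q (A.n * m) = rep Q m := by
  obtain ⟨a, b, c, d, x, y, z, e, e1, e2⟩ := anc_normal hQ h
  have n0 : (A.n : ℤ) ≠ 0 := by exact_mod_cast h.n_pos.ne'
  rw [← rep_fmap Q e, ← rep_fmap Q e m, e1]
  have hi : Function.Injective fun k : ℤ × ℤ => (-(A.n * k.2), k.1) := fun k l hk => by
    simp only [Prod.mk.injEq, neg_inj, mul_right_inj' n0] at hk
    exact Prod.ext hk.2 hk.1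
  conv_rhs => rw [← anc_dual e2, rep_fmap _ e2, rep, ← ncard_image_of_injective _ hi]
  rw [rep]
  congr 1
  ext ⟨u, v⟩
  simp only [mem_ofPred_eq, mem_image, fval, Prod.mk.injEq, Prod.exists]
  constructor
  · intro hv
    have h1 : (A.n : ℤ) ∣ x * u ^ 2 := ⟨m - y * u * v - z * v ^ 2, by linear_combination hv⟩
    have h2 : IsCoprime (A.n : ℤ) x := ⟨-(y * y), 4 * z, by linear_combination e2⟩
    obtain ⟨t, rfl⟩ := ((Int.squarefree_natCast.2 h.sqfree).dvd_pow_iff_dvd two_ne_zero).1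
      (h2.dvd_of_dvd_mul_left h1)
    exact ⟨v, -t, mul_left_cancel₀ n0 (by linear_combination hv), by ring, rfl⟩
  · rintro ⟨k, l, hk, rfl, rfl⟩
    linear_combination (A.n : ℤ) * hk

theorem Par.InGen.summable_Fq {Q : Fm} (hQ : A.InGen Q) (h : A.Ok) {g : ℤ × ℤ → ℂ} {C : ℝ}
    (hg : ∀ v, ‖g v‖ ≤ C) {z : ℂ} (hz : 0 < z.im) :
    Summable fun v : ℤ × ℤ => g v * q1 (fval Q v.1 v.2 * z / A.n) := by
  have n0 : (0 : ℝ) < A.n := by exact_mod_cast h.n_pos
  refine Summable.of_norm_bounded ((summable_form (hQ.neg h) hQ.pos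
    (y := 2 * π * z.im / A.n) (by positivity)).mul_left C) fun v => ?_
  rw [norm_mul, norm_q1]
  have : ((fval Q v.1 v.2 : ℂ) * z / A.n).im = fval Q v.1 v.2 * z.im / A.n := by
    rw [div_natCast_im, ← ofReal_intCast, im_ofReal_mul]
  rw [this, show -2 * π * ((fval Q v.1 v.2 : ℝ) * z.im / A.n) =
    -(2 * π * z.im / A.n) * fval Q v.1 v.2 by ring]
  exact mul_le_mul_of_nonneg_right (hg v) (Real.exp_pos _).le

theorem Par.Fq_fmap (Q : Fm) {a b c d : ℤ} (e : a * d - b * c = 1) (x y : ℤ) (z : ℂ) :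
    A.Fq (fmap Q a b c d) x y z = A.Fq Q x y z := by
  rw [Par.Fq, Par.Fq, ← (ancEq e).tsum_eq fun v : ℤ × ℤ =>
    A.phi (fval Q v.1 v.2) x y * q1 (fval Q v.1 v.2 * z / A.n)]
  simp only [fval_fmap]
  rfl

theorem Par.Ok.Fq_T (h : A.Ok) (Q : Fm) (c d : ℤ) (z : ℂ) :
    A.Fq Q c d (z + 1) = A.Fq Q c (c + d) z := by
  refine tsum_congr fun v => ?_
  rw [h.phi_T, mul_add, add_div, q1_add, mul_one]
  ring

theorem Par.Ok.Fq_smul (h : A.Ok) (Q : Fm) (k c d : ℤ) (z : ℂ) :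
    A.Fq Q (k * c) (k * d) z = J(k | A.n) * A.Fq Q c d z := by
  rw [Par.Fq, Par.Fq, ← tsum_mul_left]
  refine tsum_congr fun v => ?_
  rw [h.phi_smul, mul_assoc]

theorem anc_q1 {n : ℕ} (hn : 0 < n) {x y : ℤ} (h : (n : ℤ) ∣ x - y) :
    q1 (x / n) = q1 (y / n) := by
  obtain ⟨k, hk⟩ := h
  have n0 : (n : ℂ) ≠ 0 := by exact_mod_cast hn.ne'
  rw [show (x : ℂ) / n = y / n + k by
    rw [eq_add_of_sub_eq' hk]; push_cast; field_simp, q1_add, q1_int, mul_one]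

theorem anc_orth {n : ℕ} (hn : 0 < n) (m : ℤ) :
    ∑ j ∈ Finset.range n, q1 (j * (m / n)) = if (n : ℤ) ∣ m then (n : ℂ) else 0 := by
  have n0 : (n : ℂ) ≠ 0 := by exact_mod_cast hn.ne'
  simp only [q1_nat_mul]
  split_ifs with h
  · obtain ⟨k, rfl⟩ := h
    rw [show ((n * k : ℤ) : ℂ) / n = k by push_cast; field_simp, q1_int]
    simp
  · have h1 : q1 (m / n) ≠ 1 := fun e => h <| by
      obtain ⟨k, hk⟩ := exp_eq_one_iff.1 e
      refine ⟨k, Int.cast_injective (α := ℂ) ?_⟩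
      have h2 : (m : ℂ) / n = k := mul_left_cancel₀ two_pi_I_ne_zero (by rw [hk, mul_comm])
      rw [Int.cast_mul, Int.cast_natCast, ← h2, mul_div_cancel₀ _ n0]
    rw [geom_sum_eq h1, ← q1_nat_mul, mul_div_cancel₀ _ n0, q1_int, sub_self, zero_div]

theorem anc_pick {n : ℕ} (hn : 0 < n) (x : ℤ) {g : ℤ → ℂ}
    (hg : ∀ y, (n : ℤ) ∣ x - y → g y = g x) :
    ∑ j ∈ Finset.range n, (if (n : ℤ) ∣ x - j then g j else 0) = g x := by
  have n0 : (0 : ℤ) < n := by exact_mod_cast hn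
  have h0 := Int.emod_nonneg x n0.ne'
  have h1 := Int.emod_lt_of_pos x n0
  have h2 : (n : ℤ) ∣ x - (x % n).toNat := by
    rw [Int.toNat_of_nonneg h0]
    exact ⟨x / n, by rw [Int.emod_def]; ring⟩
  rw [Finset.sum_eq_single_of_mem (x % n).toNat (Finset.mem_range.2 (by omega)), if_pos h2, hg _ h2]
  intro j hj hne
  refine if_neg fun h => hne ?_
  have h4 : x % n = j := by
    rw [Int.emod_eq_emod_iff_emod_sub_eq_zero.2 (Int.emod_eq_zero_of_dvd h)]
    exact Int.emod_eq_of_lt (by omega) (by have := Finset.mem_range.1 hj; omega)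
  rw [h4, Int.toNat_natCast]

theorem anc_four {n : ℕ} (hn : 0 < n) {f : ℤ → ℂ} (hf : ∀ x y, (n : ℤ) ∣ x - y → f y = f x)
    (x : ℤ) : ∑ j ∈ Finset.range n, (∑ r ∈ Finset.range n, f r * q1 (((j : ℤ) * r : ℤ) / n)) *
      q1 (-(j * x / n)) = n * f x := by
  simp only [Finset.sum_mul]
  rw [Finset.sum_comm, ← anc_pick hn x (hf x), Finset.mul_sum]
  refine Finset.sum_congr rfl fun r _ => ?_
  have := anc_orth hn (r - x)
  simp only [dvd_sub_comm (b := (r : ℤ))] at this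
  rw [mul_ite, mul_zero, mul_comm, ← mul_zero (f r), ← mul_ite, ← this, Finset.mul_sum]
  refine Finset.sum_congr rfl fun j _ => ?_
  rw [mul_assoc, ← q1_add]
  congr 2
  push_cast
  ring

theorem anc_split {n : ℕ} (hn : 0 < n) {G : ℤ × ℤ → ℂ} (hG : Summable G) :
    ∑ j ∈ Finset.range n, ∑' k : ℤ × ℤ, G (n * k.1 + j, k.2) = ∑' u, G u := by
  have n0 : (n : ℤ) ≠ 0 := by exact_mod_cast hn.ne'
  have h1 : ∀ u : ℤ × ℤ, G u = ∑ j ∈ Finset.range n, if (n : ℤ) ∣ u.1 - j then G u else 0 :=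
    fun u => (anc_pick hn u.1 (g := fun _ => G u) fun _ _ => rfl).symm
  rw [tsum_congr h1, Summable.tsum_finsetSum
    (f := fun (j : ℕ) (u : ℤ × ℤ) => if (n : ℤ) ∣ u.1 - j then G u else 0) fun j _ =>
    (hG.indicator {u | (n : ℤ) ∣ u.1 - j}).congr fun u => by simp [indicator_apply]]
  refine Finset.sum_congr rfl fun j _ => ?_
  have hi : Function.Injective fun k : ℤ × ℤ => (n * k.1 + j, k.2) := fun k l hk => by
    simp only [Prod.mk.injEq, add_left_inj, mul_right_inj' n0] at hk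
    exact Prod.ext hk.1 hk.2
  rw [← hi.tsum_eq (f := fun u : ℤ × ℤ => if (n : ℤ) ∣ u.1 - j then G u else 0)]
  · exact tsum_congr fun k => (if_pos (by simp)).symm
  · rintro ⟨u, v⟩ hu
    obtain ⟨k, hk⟩ : (n : ℤ) ∣ u - j := by
      by_contra h
      exact hu (if_neg h)
    exact ⟨(k, v), Prod.ext (by dsimp only; linear_combination -hk) rfl⟩

theorem Par.InGen.Fq_S' {Q : Fm} (hQ : A.InGen Q) (h : A.Ok) (c d : ℤ) {z : ℂ} (hz : 0 < z.im) :
    A.Fq Q c d (-1 / z) = A.χp * A.χq * A.gg / (I * √(A.n : ℝ)) * z * A.Fq Q d (-c) z := by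
  obtain ⟨a', b', c', d', x, y, t, e, e1, e2⟩ := anc_normal hQ h
  have hR := hQ.of_fmap h e
  rw [← A.Fq_fmap Q e, ← A.Fq_fmap Q e d, e1] at *
  have hn := h.n_pos
  have n0 : (A.n : ℂ) ≠ 0 := by exact_mod_cast hn.ne'
  have z0 : z ≠ 0 := fun e => by simp [e] at hz
  have hx : IsCoprime (A.n : ℤ) x := ⟨-(y * y), 4 * t, by linear_combination e2⟩
  have hp : ¬ (A.p : ℤ) ∣ x := fun e => (Nat.prime_iff_prime_int.1 h.pp).not_isUnit
    (hx.isUnit_of_dvd' (Int.natCast_dvd_natCast.2 (dvd_mul_right _ _)) e)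
  have hq : ¬ (A.q : ℤ) ∣ x := fun e => (Nat.prime_iff_prime_int.1 h.qp).not_isUnit
    (hx.isUnit_of_dvd' (Int.natCast_dvd_natCast.2 (dvd_mul_left _ _)) e)
  have v1 : fval (x, A.n * y, A.n * t) 1 0 = x := by simp [fval]
  have jp : J(x | A.p) = A.χp := by simpa only [v1] using hR.gp 1 0 (by rwa [v1])
  have jq : J(x | A.q) = A.χq := by simpa only [v1] using hR.gq 1 0 (by rwa [v1])
  have hφ : ∀ u v c d : ℤ, A.phi (fval (x, A.n * y, A.n * t) u v) c d = A.phi (x * u ^ 2) c d :=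
    fun u v c d => h.phi_congr ⟨y * u * v + t * v ^ 2, by simp only [fval]; ring⟩ (by simp) (by simp)
  obtain ⟨F, hF⟩ : ∃ F : ℤ → ℂ, ∀ J, F J = ∑ r ∈ Finset.range A.n,
    A.phi (x * (r : ℤ) ^ 2) c d * q1 ((J * r : ℤ) / A.n) := ⟨_, fun _ => rfl⟩
  have F1 : ∀ u v : ℤ, (A.n : ℤ) ∣ u - v → F u = F v := fun u v huv => by
    rw [hF, hF]
    exact Finset.sum_congr rfl fun r _ => by
      rw [anc_q1 hn (y := v * r) (by rw [← sub_mul]; exact huv.mul_right _)]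
  have F2 : ∀ u, ‖F u‖ ≤ A.n := fun u => by
    rw [hF]
    refine (norm_sum_le _ _).trans ((Finset.sum_le_card_nsmul _ _ 1 fun r _ => ?_).trans (by simp))
    rw [norm_mul, norm_q1, div_natCast_im, intCast_im, zero_div, mul_zero, Real.exp_zero, mul_one]
    exact h.norm_phi_le _ _ _
  have F3 : ∀ u : ℤ, A.phi (x * u ^ 2) c d =
      ∑ j ∈ Finset.range A.n, F j * q1 (-(j * u / A.n)) / A.n := fun u => by
    rw [← Finset.sum_div, eq_div_iff n0, mul_comm]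
    simp only [hF]
    exact (anc_four hn (f := fun r => A.phi (x * r ^ 2) c d) (fun a b ⟨k, hk⟩ => h.phi_congr
      ⟨-(x * k * (a + b)), by linear_combination -x * (a + b) * hk⟩ (by simp) (by simp)) u).symm
  have F4 : ∀ k : ℤ × ℤ, F (2 * x * k.1 + A.n * y * k.2) =
      A.χp * A.χq * A.gg * A.phi (x * k.1 ^ 2) d (-c) := fun k => by
    rw [F1 _ (2 * x * k.1) ⟨y * k.2, by ring⟩, hF, ← h.phi_S hp hq jp jq]
    refine Finset.sum_congr rfl fun r _ => ?_
    congr 2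
    push_cast
    ring
  have hz' : 0 < (-1 / z).im := by
    rw [neg_div, one_div, neg_im, inv_im, neg_div, neg_neg]
    exact div_pos hz (normSq_pos.2 z0)
  have hs : 0 < (2 * I / (A.n * z)).re := by
    rw [show 2 * I / (A.n * z) = (2 / A.n : ℝ) * (-1 / z * -I) by push_cast; field_simp,
      re_ofReal_mul]
    simpa using mul_pos (by positivity) hz'
  have hR' : A.InGen (t, -(A.n * y), A.n * x) := by
    have := hR.of_fmap h (a := 2 * t) (b := -(A.n * y)) (c := -y) (d := 2 * x)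
      (by linear_combination e2)
    rwa [← anc_dual e2, fmap_inv e2] at this
  obtain ⟨G, hG⟩ : ∃ G : ℤ × ℤ → ℂ, G = fun u =>
    F u.1 * q1 (fval (t, -(A.n * y), A.n * x) u.1 u.2 * z / A.n) := ⟨_, rfl⟩
  have G1 : Summable G := hG ▸ hR'.summable_Fq h (fun u => F2 u.1) hz
  have r0 : ((√(A.n : ℝ) : ℝ) : ℂ) ≠ 0 := by
    exact_mod_cast (Real.sqrt_pos.2 (by exact_mod_cast hn)).ne'
  have key : ∀ j : ℕ, ∑' v : ℤ × ℤ, F j * q1 (-(j * v.1 / A.n)) / A.n *
      q1 (fval (x, A.n * y, A.n * t) v.1 v.2 * (-1 / z) / A.n) =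
      z / (I * √(A.n : ℝ)) * ∑' k : ℤ × ℤ, G (A.n * k.1 + j, k.2) := fun j => by
    have h1 := theta2 (hR.neg h) hR.pos hs (-(j / A.n)) 0
    rw [hR.disc] at h1
    calc _ = F j / A.n * ∑' v : ℤ × ℤ, cexp (-π * (2 * I / (A.n * z)) *
          fval (x, A.n * y, A.n * t) v.1 v.2) * q1 ((-(j / A.n) : ℝ) * v.1 + (0 : ℝ) * v.2) := by
          rw [← tsum_mul_left]
          refine tsum_congr fun v => ?_
          rw [q1, q1, q1, show 2 * π * I * (fval (x, A.n * y, A.n * t) v.1 v.2 * (-1 / z) / A.n) =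
            -π * (2 * I / (A.n * z)) * fval (x, A.n * y, A.n * t) v.1 v.2 by field_simp,
            show ((-(j / A.n) : ℝ) : ℂ) * v.1 + (0 : ℝ) * v.2 = -(j * v.1 / A.n) by push_cast; ring]
          ring
      _ = _ := by
          rw [h1, ← mul_assoc, ← tsum_mul_left, ← tsum_mul_left]
          refine tsum_congr fun k => ?_
          simp only [hG]
          rw [F1 (A.n * k.1 + j) j (by simp), q1]
          simp only [fval]
          push_cast
          rw [neg_neg, neg_neg, ← mul_assoc]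
          congr 1
          · field_simp
          · congr 1
            field_simp
            ring_nf
            rw [I_sq]
            ring
  rw [Par.Fq]
  simp only [hφ, F3, Finset.sum_mul]
  rw [Summable.tsum_finsetSum fun j _ => hR.summable_Fq h (C := 1) (fun v => ?_) hz']
  · simp only [key]
    rw [← Finset.mul_sum, anc_split hn G1, ← (ancEq e2).tsum_eq, Par.Fq, ← tsum_mul_left,
      ← tsum_mul_left]
    refine tsum_congr fun k => ?_
    simp only [hG, ancEq, Equiv.coe_fn_mk]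
    rw [F4, ← fval_fmap, anc_dual e2, hφ]
    ring
  · have h1 : ((j : ℂ) * v.1).im = 0 := by simp
    rw [norm_div, norm_mul, norm_q1, neg_im, div_natCast_im, h1, zero_div, neg_zero, mul_zero,
      Real.exp_zero, mul_one, norm_natCast]
    exact div_le_one_of_le₀ (F2 _) (Nat.cast_nonneg _)

end Pool.Agent.Dih
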