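import Pool.Agent.Lib.MP_60ff09_nt.Dih.ANc

/-! The transformation law under the full modular group, and bounds. -/

set_option autoImplicit false

open Complex Filter Topology Set MeasureTheory CongruenceSubgroup NumberTheorySymbols
open UpperHalfPlane hiding I
open scoped Real MatrixGroups ComplexConjugate Modular
open Pool.Agent.Lib.MP_696deb_nt Pool.Agent.Lib.MP_696deb_nt.Unif Pool.Agent.Shared.Weier

namespace Pool.Agent.Dih

variable {A : Par} {T : Finset Fm} {w : Fm → ℤ}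


private lemma anc2_S_pos {z : ℂ} (hz : 0 < z.im) : 0 < (-1 / z).im := by
  simpa [mob] using im_mob_pos (a := 0) (b := -1) (c := 1) (d := 0) (by norm_num) hz

private lemma anc2_norm (N : ℤ) (z : ℂ) :
    ‖q1 (N * z / A.n)‖ = Real.exp (-(2 * π * z.im / A.n) * N) := by
  rw [norm_q1, ← ofReal_natCast, div_ofReal_im]
  congr 1
  simp only [mul_im, intCast_re, intCast_im]
  ring

private lemma anc2_ne {Q : Fm} (hQ : A.InGen Q) (h : A.Ok) : A.Fq Q 0 1 I ≠ 0 := by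
  have e : ∀ N : ℤ, A.phi N 0 1 * q1 (N * I / A.n) =
      ((if (A.n : ℤ) ∣ N then Real.exp (-(2 * π / A.n) * N) else 0 : ℝ) : ℂ) := fun N => by
    rw [h.phi_zero_one]
    split_ifs
    · rw [q1, one_mul, ofReal_exp]
      congr 1
      push_cast
      linear_combination (2 * π * N / A.n) * I_mul_I
    · simp
  have hs := hQ.summable_Fq h (fun v => h.norm_phi_le (fval Q v.1 v.2) 0 1) (z := I) (by simp)
  simp only [e] at hs
  simp only [Par.Fq, e]
  rw [← ofReal_tsum, ofReal_ne_zero]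
  refine ((summable_ofReal.mp hs).tsum_pos (fun v => ?_) 0 ?_).ne'
  · split_ifs <;> positivity
  · simp [fval]

theorem Par.InGen.Fq_S {Q : Fm} (hQ : A.InGen Q) (h : A.Ok) (c d : ℤ) {z : ℂ} (hz : 0 < z.im) :
    A.Fq Q c d (-1 / z) = z * A.Fq Q d (-c) z := by
  obtain ⟨μ, hμ⟩ : ∃ μ : ℂ, ∀ (c d : ℤ) {z : ℂ}, 0 < z.im →
      A.Fq Q c d (-1 / z) = μ * z * A.Fq Q d (-c) z := ⟨_, hQ.Fq_S' h⟩
  have hU : ∀ (c d : ℤ) {z : ℂ}, 0 < z.im →
      A.Fq Q c d (-1 / (z + 1)) = μ * (z + 1) * A.Fq Q d (d - c) z := fun c d z hz => by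
    rw [hμ c d (by simpa using hz), h.Fq_T, sub_eq_add_neg]
  have hI : (-1 / I : ℂ) = I := by simp
  have h1 := hμ 0 1 (z := I) (by simp)
  have h2 := hμ 1 0 (z := I) (by simp)
  have hi : (I + 1 : ℂ) ≠ 0 := fun e => by simpa using congr_arg Complex.re e
  have e1 : (-1 / (I + 1) + 1 : ℂ) = I / (I + 1) := by field_simp; ring
  have e2 : (-1 / (I / (I + 1)) + 1 : ℂ) = I := by
    field_simp
    linear_combination -I_mul_I
  have p1 : 0 < (-1 / (I + 1) : ℂ).im := anc2_S_pos (by simp)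
  have h3 := hU 0 1 (anc2_S_pos (z := -1 / (I + 1) + 1) (by simpa using p1))
  have h4 := hU 1 1 p1
  have h5 := hU 1 0 (z := I) (by simp)
  rw [e1] at h3 h4
  rw [e2] at h3
  simp only [hI, neg_zero, sub_zero, sub_self, zero_sub] at h1 h2 h3 h4 h5
  have h6 : A.Fq Q 0 1 I = -μ ^ 2 * A.Fq Q 0 (-1) I := by
    rw [h1, h2]
    linear_combination (μ ^ 2 * A.Fq Q 0 (-1) I) * I_mul_I
  have h7 : A.Fq Q 0 1 I = μ * A.Fq Q 0 1 I := by
    conv_lhs => rw [h3, h4, h5]
    rw [h6]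
    field_simp
    linear_combination (μ ^ 3 * A.Fq Q 0 (-1) I) * I_mul_I
  rw [hμ c d hz, mul_right_cancel₀ (anc2_ne hQ h) (h7.symm.trans (one_mul _).symm), one_mul]

private def anc2_P (F : ℤ → ℤ → ℂ → ℂ) (a b c d : ℤ) : Prop := ∀ (x y : ℤ) (z : ℂ), 0 < z.im →
  F x y (mob a b c d z) = (c * z + d) * F (x * a + y * c) (x * b + y * d) z

private lemma anc2_comp {F : ℤ → ℤ → ℂ → ℂ} {a b c d a' b' c' d' : ℤ} (h : anc2_P F a b c d)
    (h' : anc2_P F a' b' c' d') (hd : 0 < a' * d' - b' * c') :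
    anc2_P F (a * a' + b * c') (a * b' + b * d') (c * a' + d * c') (c * b' + d * d') := by
  intro x y z hz
  have := den_ne hd.ne' hz
  rw [← mob_mob hd.ne' a b c d hz, h _ _ _ (im_mob_pos hd hz), h' _ _ z hz,
    mob_den hd.ne' c d hz, ← mul_assoc, div_mul_cancel₀ _ this]
  congr 2 <;> ring

theorem Par.InGen.Fq_mob {Q : Fm} (hQ : A.InGen Q) (h : A.Ok) {a b c d : ℤ}
    (e : a * d - b * c = 1) (x y : ℤ) {z : ℂ} (hz : 0 < z.im) :
    A.Fq Q x y (mob a b c d z) = (c * z + d) * A.Fq Q (x * a + y * c) (x * b + y * d) z := by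
  have tT : anc2_P (A.Fq Q) 1 1 0 1 := fun x y z _ => by simpa [mob] using h.Fq_T Q x y z
  have tT' : anc2_P (A.Fq Q) 1 (-1) 0 1 := fun x y z _ => by
    simpa [mob, sub_eq_add_neg] using (h.Fq_T Q x (-x + y) (z - 1)).symm
  have tS : anc2_P (A.Fq Q) 0 (-1) 1 0 := fun x y z hz => by
    simpa [mob] using hQ.Fq_S h x y hz
  have tN : anc2_P (A.Fq Q) (-1) 0 0 (-1) := by simpa using anc2_comp tS tS (by norm_num)
  have tU : anc2_P (A.Fq Q) 1 0 1 1 := by
    simpa using anc2_comp (anc2_comp tT tS (by norm_num)) tT (by norm_num)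
  have tU' : anc2_P (A.Fq Q) 1 0 (-1) 1 := by
    simpa using anc2_comp (anc2_comp (anc2_comp tS tT (by norm_num)) tS (by norm_num)) tN
      (by norm_num)
  refine euclid (N := 1) (Or.inl rfl) (anc2_P (A.Fq Q)) (fun a b c d _ => ⟨fun H => ?_, fun H => ?_⟩)
    (fun a b c d _ => ⟨fun H => ?_, fun H => ?_⟩) (fun x y z _ => by simp [mob]) tN a b c d
    (by simpa using e) x y z hz
  · simpa using anc2_comp H tT (by norm_num)
  · simpa using anc2_comp H tT' (by norm_num)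
  · simpa using anc2_comp H tU (by norm_num)
  · simpa using anc2_comp H tU' (by norm_num)

theorem Par.Dat.FW_mob (h : A.Dat T w) {a b c d : ℤ} (e : a * d - b * c = 1) (x y : ℤ) {z : ℂ}
    (hz : 0 < z.im) :
    A.FW T w x y (mob a b c d z) = (c * z + d) * A.FW T w (x * a + y * c) (x * b + y * d) z := by
  simp only [Par.FW, Finset.mul_sum]
  exact Finset.sum_congr rfl fun Q hQ => by rw [(h.gen Q hQ).Fq_mob h.ok e x y hz]; ring

theorem Par.Dat.FW_smul (h : A.Dat T w) (k c d : ℤ) (z : ℂ) :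
    A.FW T w (k * c) (k * d) z = J(k | A.n) * A.FW T w c d z := by
  simp only [Par.FW, Finset.mul_sum]
  exact Finset.sum_congr rfl fun Q _ => by rw [h.ok.Fq_smul]; ring

theorem Par.Dat.FW_per (h : A.Dat T w) (c d : ℤ) (z : ℂ) :
    A.FW T w c (d + A.n) z = A.FW T w c d z := by
  have e : ∀ N : ℤ, A.phi N c (d + A.n) = A.phi N c d := fun N =>
    h.ok.phi_congr (by simp) (by simp) (by simp)
  simp only [Par.FW, Par.Fq, e]

theorem Par.Dat.FW_hat (h : A.Dat T w) (c l : ℤ) {z : ℂ} (hz : 0 < z.im) :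
    ∑ d ∈ Finset.range A.n, A.FW T w (15 * c) d z * q1 (d * l / A.n) =
      A.gg * A.lam c l * A.Gc T w (c * l) z := by
  simp only [Par.FW, Par.Gc, Finset.sum_mul, Finset.mul_sum]
  rw [Finset.sum_comm]
  refine Finset.sum_congr rfl fun Q hQ => ?_
  simp only [mul_assoc (w Q : ℂ), ← Finset.mul_sum, Par.Fq, ← tsum_mul_right]
  rw [mul_left_comm, ← tsum_mul_left, ← Summable.tsum_finsetSum fun d _ =>
    ((h.gen Q hQ).summable_Fq h.ok (fun v => h.ok.norm_phi_le _ _ _) hz).mul_right _]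
  congr 1
  refine tsum_congr fun v => ?_
  simp only [mul_right_comm _ (q1 (fval Q v.1 v.2 * z / A.n)), ← Finset.sum_mul, h.ok.phi_hat]
  split_ifs <;> simp

theorem Par.Dat.rW_zero (h : A.Dat T w) : rW T w 0 = 0 := by
  refine (Finset.sum_congr rfl fun Q hQ => ?_).trans h.deg
  simp [rep_zero ((h.gen Q hQ).neg h.ok) (h.gen Q hQ).pos]

theorem Par.Dat.rW_neg (h : A.Dat T w) {N : ℤ} (hN : N < 0) : rW T w N = 0 := by
  exact Finset.sum_eq_zero fun Q hQ => by
    simp [rep_neg ((h.gen Q hQ).neg h.ok) (h.gen Q hQ).pos hN]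

theorem Par.Dat.hasSum_FW (h : A.Dat T w) {z : ℂ} (hz : 0 < z.im) :
    HasSum (fun m : ℕ => (rW T w m : ℂ) * q1 (m * z)) (A.FW T w 0 1 z) := by
  have hn : (A.n : ℂ) ≠ 0 := by exact_mod_cast h.ok.n_pos.ne'
  simp only [rW, Par.FW, Int.cast_sum, Int.cast_mul, Finset.sum_mul, mul_assoc]
  refine hasSum_sum fun Q hQ => HasSum.mul_left _ ?_
  have H := hasSum_rep ((h.gen Q hQ).neg h.ok) (h.gen Q hQ).pos
    (g := fun N => A.phi N 0 1 * q1 (N * z / A.n))
    ((h.gen Q hQ).summable_Fq h.ok (fun v => h.ok.norm_phi_le _ _ _) hz)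
  rw [← (mul_right_injective₀ h.ok.n_pos.ne').hasSum_iff fun N hN => ?_] at H
  · convert! H using 2 with m
    simp only [Function.comp, h.ok.phi_zero_one, Nat.cast_mul, (h.gen Q hQ).rep_mul h.ok,
      dvd_mul_right, if_true, one_mul]
    congr 2
    push_cast
    field_simp
  · rw [h.ok.phi_zero_one, if_neg, zero_mul, mul_zero]
    intro hd
    obtain ⟨m, rfl⟩ := Int.natCast_dvd_natCast.mp hd
    exact hN ⟨m, rfl⟩

private lemma anc2_ite (p : Prop) [Decidable p] (x : ℂ) :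
    (if p then x else 0) = (if p then 1 else 0) * x := by
  split_ifs <;> simp

private lemma anc2_ite_le (p : Prop) [Decidable p] : ‖(if p then 1 else 0 : ℂ)‖ ≤ 1 := by
  split_ifs <;> simp

theorem Par.Dat.hasSum_Gc (h : A.Dat T w) (k : ℤ) {z : ℂ} (hz : 0 < z.im) :
    HasSum (fun m : ℤ => (rW T w (m * A.n - 15 * k) : ℂ) * q1 ((m * A.n - 15 * k) * z / A.n))
      (A.Gc T w k z) := by
  simp only [rW, Par.Gc, Int.cast_sum, Int.cast_mul, Finset.sum_mul, mul_assoc]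
  refine hasSum_sum fun Q hQ => HasSum.mul_left _ ?_
  have hD := (h.gen Q hQ).neg h.ok
  have H := hasSum_rep hD (h.gen Q hQ).pos
    (g := fun N => if (A.n : ℤ) ∣ N + 15 * k then q1 (N * z / A.n) else 0)
    (by simpa only [← anc2_ite] using (h.gen Q hQ).summable_Fq h.ok (fun v => anc2_ite_le _) hz)
  have H1 := ((Nat.cast_injective (R := ℤ)).hasSum_iff (f := fun N : ℤ =>
    (rep Q N : ℂ) * if (A.n : ℤ) ∣ N + 15 * k then q1 (N * z / A.n) else 0) fun N hN => by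
      rw [rep_neg hD (h.gen Q hQ).pos (not_le.mp fun h0 => hN ⟨N.toNat, by omega⟩)]
      simp).mp H
  have hi : Function.Injective fun m : ℤ => m * A.n - 15 * k := fun a b e =>
    mul_right_cancel₀ (Int.natCast_ne_zero.mpr h.ok.n_pos.ne') (sub_left_injective e)
  rw [← hi.hasSum_iff fun N hN => ?_] at H1
  · convert! H1 using 2 with m
    simp
  · rw [if_neg, mul_zero]
    rintro ⟨m, hm⟩
    exact hN ⟨m, by linarith⟩

private lemma anc2_bound (h : A.Dat T w) : ∃ C : ℝ, 0 ≤ C ∧ ∀ g : ℤ → ℂ, (∀ N, ‖g N‖ ≤ 1) →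
    ∀ z : ℂ, 0 < z.im →
      ‖∑ Q ∈ T, (w Q : ℂ) * ∑' v : ℤ × ℤ, g (fval Q v.1 v.2) * q1 (fval Q v.1 v.2 * z / A.n)‖ ≤
        C * (1 + 1 / z.im) * Real.exp (-2 * π * z.im / A.n) := by
  choose! C hC using fun Q (hQ : Q ∈ T) =>
    tsum_form_le ((h.gen Q hQ).neg h.ok) (h.gen Q hQ).pos
  have hn : (0 : ℝ) < A.n := by exact_mod_cast h.ok.n_pos
  refine ⟨∑ Q ∈ T, ‖(w Q : ℂ)‖ * (|C Q| * (1 + A.n)), by positivity, fun g hg z hz => ?_⟩
  have hy : 0 < 2 * π * z.im / A.n := by positivity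
  have e : ∑ Q ∈ T, (w Q : ℂ) * ∑' v : ℤ × ℤ, g (fval Q v.1 v.2) * q1 (fval Q v.1 v.2 * z / A.n) =
      ∑ Q ∈ T, (w Q : ℂ) * (g 0 + ∑' v : ℤ × ℤ,
        if v = 0 then 0 else g (fval Q v.1 v.2) * q1 (fval Q v.1 v.2 * z / A.n)) :=
    Finset.sum_congr rfl fun Q hQ => by
      rw [((h.gen Q hQ).summable_Fq h.ok (fun v => hg _) hz).tsum_eq_add_tsum_ite 0]
      simp [fval, q1]
  have e0 : ∑ Q ∈ T, (w Q : ℂ) = 0 := by exact_mod_cast h.deg
  rw [e]
  simp only [mul_add (w _ : ℂ), Finset.sum_add_distrib, ← Finset.sum_mul, e0, zero_mul, zero_add]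
  simp only [Finset.sum_mul, mul_assoc]
  refine norm_sum_le_of_le _ fun Q hQ => ?_
  rw [norm_mul]
  gcongr
  have hs := summable_form ((h.gen Q hQ).neg h.ok) (h.gen Q hQ).pos hy
  refine (tsum_of_norm_bounded (g := fun v : ℤ × ℤ => if v = 0 then 0 else
    Real.exp (-(2 * π * z.im / A.n) * fval Q v.1 v.2)) (Summable.hasSum ?_) fun v => ?_).trans
    ((hC Q hQ _ hy).trans ?_)
  · refine hs.of_nonneg_of_le (fun v => ?_) fun v => ?_ <;> split_ifs <;>
      first | positivity | rfl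
  · split_ifs
    · simp
    · rw [norm_mul, anc2_norm]
      exact mul_le_of_le_one_left (Real.exp_nonneg _) (hg _)
  · rw [neg_mul, neg_div, ← mul_assoc 2 π, mul_assoc, ← mul_assoc (1 + A.n : ℝ)]
    refine (mul_le_mul_of_nonneg_right (le_abs_self _) (by positivity)).trans ?_
    gcongr
    have h1 : 1 / (2 * π * z.im / A.n) ≤ A.n * (1 / z.im) := by
      rw [one_div_div, mul_one_div]
      gcongr
      nlinarith [Real.pi_gt_three]
    nlinarith [one_div_pos.mpr hz]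

theorem Par.Dat.norm_FW_le (h : A.Dat T w) : ∃ C : ℝ, ∀ (c d : ℤ) (z : ℂ), 0 < z.im →
    ‖A.FW T w c d z‖ ≤ C * (1 + 1 / z.im) * Real.exp (-2 * π * z.im / A.n) := by
  obtain ⟨C, -, hC⟩ := anc2_bound h
  exact ⟨C, fun c d z hz => hC (fun N => A.phi N c d) (fun N => h.ok.norm_phi_le N c d) z hz⟩

theorem Par.Dat.norm_Gc_le (h : A.Dat T w) : ∃ C : ℝ, ∀ (k : ℤ) (z : ℂ), 0 < z.im →
    ‖A.Gc T w k z‖ ≤ C * (1 + 1 / z.im) := by
  obtain ⟨C, h0, hC⟩ := anc2_bound h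
  refine ⟨C, fun k z hz => ?_⟩
  have := hC (fun N => if (A.n : ℤ) ∣ N + 15 * k then 1 else 0) (fun N => anc2_ite_le _) z hz
  simp only [← anc2_ite] at this
  refine this.trans (mul_le_of_le_one_right (by positivity) (Real.exp_le_one_iff.mpr ?_))
  rw [neg_mul, neg_mul, neg_div, neg_nonpos]
  positivity

private lemma anc2_cont {Q : Fm} (hQ : A.InGen Q) (h : A.Ok) {g : ℤ × ℤ → ℂ}
    (hg : ∀ v, ‖g v‖ ≤ 1) :
    ContinuousOn (fun z : ℂ => ∑' v : ℤ × ℤ, g v * q1 (fval Q v.1 v.2 * z / A.n))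
      {z | 0 < z.im} := by
  intro z hz
  have hz : 0 < z.im := hz
  have hn : (0 : ℝ) < A.n := by exact_mod_cast h.n_pos
  refine (ContinuousOn.continuousAt (s := {u : ℂ | z.im / 2 < u.im}) ?_
    ((isOpen_lt continuous_const Complex.continuous_im).mem_nhds (half_lt_self hz))).continuousWithinAt
  refine continuousOn_tsum (fun v => ?_)
    (summable_form (hQ.neg h) hQ.pos (y := 2 * π * (z.im / 2) / A.n) (by positivity))
    fun v u hu => ?_
  · unfold q1
    fun_prop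
  · have hu : z.im / 2 < u.im := hu
    have hv : (0 : ℝ) ≤ fval Q v.1 v.2 := by
      rcases eq_or_ne v 0 with rfl | hv
      · simp [fval]
      · exact_mod_cast (fval_pos (hQ.neg h) hQ.pos hv).le
    rw [norm_mul, anc2_norm]
    refine (mul_le_of_le_one_left (Real.exp_nonneg _) (hg _)).trans ?_
    gcongr

theorem Par.Dat.continuousOn_FW (h : A.Dat T w) (c d : ℤ) :
    ContinuousOn (A.FW T w c d) {z | 0 < z.im} := by
  exact continuousOn_finsetSum _ fun Q hQ => continuousOn_const.mul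
    (anc2_cont (h.gen Q hQ) h.ok fun v => h.ok.norm_phi_le _ _ _)

theorem Par.Dat.continuousOn_Gc (h : A.Dat T w) (k : ℤ) :
    ContinuousOn (A.Gc T w k) {z | 0 < z.im} := by
  refine continuousOn_finsetSum _ fun Q hQ => continuousOn_const.mul ?_
  simpa only [← anc2_ite] using anc2_cont (h.gen Q hQ) h.ok fun v => anc2_ite_le _

end Pool.Agent.Dih
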