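import Pool.Agent.Lib.MP_60ff09_nt.Dih.AN0

/-! Poisson summation with a periodic weight. -/

set_option autoImplicit false

open Complex Filter Topology Set MeasureTheory CongruenceSubgroup NumberTheorySymbols
open UpperHalfPlane hiding I
open scoped Real MatrixGroups ComplexConjugate Modular
open Pool.Agent.Lib.MP_696deb_nt Pool.Agent.Lib.MP_696deb_nt.Unif Pool.Agent.Shared.Weier

namespace Pool.Agent.Dih

theorem summable_gauss_lin {a : ℝ} (ha : 0 < a) (ξ B : ℝ) :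
    Summable fun d : ℤ => (|(d : ℝ)| + B) * Real.exp (-π * a * (d + ξ) ^ 2) := by
  have key : ∀ k : ℕ, Summable fun d : ℤ => |(d : ℝ)| ^ k * Real.exp (-π * a * (d + ξ) ^ 2) := by
    intro k
    refine Summable.of_nonneg_of_le (fun d => by positivity) (fun d => ?_)
      (summable_pow_mul_jacobiTheta₂_term_bound (a * |ξ|) ha k)
    rw [Int.cast_abs]
    refine mul_le_mul_of_nonneg_left (Real.exp_le_exp.mpr ?_) (by positivity)
    have h1 : -(|ξ| * |(d : ℝ)|) ≤ ξ * d := by rw [← abs_mul]; exact neg_abs_le _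
    have h2 : 0 ≤ π * a * (ξ ^ 2 + 2 * (ξ * d + |ξ| * |(d : ℝ)|)) :=
      mul_nonneg (by positivity) (by nlinarith [sq_nonneg ξ])
    nlinarith [h2]
  refine ((key 1).add ((key 0).mul_left B)).congr fun d => ?_
  ring

/-- The dual Gaussian term. -/
noncomputable def andT (a ξ η : ℝ) (l : ℤ) : ℂ :=
  q1 (ξ * l) * (-I * ((l / a + η) / √a * Real.exp (-π * l ^ 2 / a) : ℝ))

theorem and_base {a : ℝ} (ha : 0 < a) (ξ η : ℝ) : ∃ S : ℂ,
    HasSum (fun d : ℤ => (d + ξ - I * η) * (Real.exp (-π * a * (d + ξ) ^ 2) : ℂ)) S ∧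
      HasSum (andT a ξ η) S := by
  have ha0 : (a : ℂ) ≠ 0 := by exact_mod_cast ha.ne'
  have hs : 0 < √a := Real.sqrt_pos.mpr ha
  have hs0 : ((√a : ℝ) : ℂ) ≠ 0 := by exact_mod_cast hs.ne'
  have hpi : (π : ℂ) ≠ 0 := by exact_mod_cast Real.pi_ne_zero
  have h1 : 0 < (I / a : ℂ).im := by
    rw [div_ofReal_im]; simpa using ha
  have h2 : 0 < (I * a : ℂ).im := by simpa using ha
  have e1 : (ξ : ℂ) / (I / a) = -(I * a * ξ) := by
    field_simp
    rw [I_sq]; ring
  have e2 : (-1 : ℂ) / (I / a) = I * a := by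
    field_simp
    rw [I_sq]
  have e3 : (1 : ℂ) / (-I * (I / a)) ^ (1 / 2 : ℂ) = (√a : ℝ) := by
    have : -I * (I / a) = ((a⁻¹ : ℝ) : ℂ) := by
      push_cast
      field_simp
      rw [I_sq]; ring
    rw [this, show (1 / 2 : ℂ) = ((1 / 2 : ℝ) : ℂ) by push_cast; rfl,
      ← ofReal_cpow (inv_nonneg.mpr ha.le), ← Real.sqrt_eq_rpow, Real.sqrt_inv]
    push_cast
    rw [one_div, inv_inv]
  have e4 : -π * I * (ξ : ℂ) ^ 2 / (I / a) = -π * a * ξ ^ 2 := by
    field_simp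
  have f0 := jacobiTheta₂_functional_equation ξ (I / a)
  have f1 := jacobiTheta₂'_functional_equation ξ (I / a)
  rw [e1, e2, e3, e4] at f0 f1
  rw [jacobiTheta₂_neg_left] at f0 f1
  rw [jacobiTheta₂'_neg_left] at f1
  have t1 : ∀ d : ℤ, (Real.exp (-π * a * (d + ξ) ^ 2) : ℂ) =
      cexp (-π * a * ξ ^ 2) * jacobiTheta₂_term d (I * a * ξ) (I * a) := fun d => by
    rw [jacobiTheta₂_term, ← exp_add, ofReal_exp]
    congr 1
    push_cast
    linear_combination (-2 * π * d * a * ξ - π * d ^ 2 * a) * I_sq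
  have t2 : ∀ l : ℤ, q1 (ξ * l) * (Real.exp (-π * l ^ 2 / a) : ℂ) =
      jacobiTheta₂_term l ξ (I / a) := fun l => by
    rw [jacobiTheta₂_term, q1, ofReal_exp, ← exp_add]
    congr 1
    push_cast
    linear_combination (-π * l ^ 2 / a) * I_sq
  refine ⟨cexp (-π * a * ξ ^ 2) * (jacobiTheta₂' (I * a * ξ) (I * a) / (2 * π * I) +
    (ξ - I * η) * jacobiTheta₂ (I * a * ξ) (I * a)), ?_, ?_⟩
  · refine ((((hasSum_jacobiTheta₂'_term (I * a * ξ) h2).div_const (2 * π * I)).add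
      ((hasSum_jacobiTheta₂_term (I * a * ξ) h2).mul_left (ξ - I * η))).mul_left
        (cexp (-π * a * ξ ^ 2))).congr_fun ?_
    intro d
    rw [t1, jacobiTheta₂'_term]
    field_simp
    ring
  · have h3 := (((hasSum_jacobiTheta₂'_term ξ h1).div_const (2 * π * I * a)).add
      ((hasSum_jacobiTheta₂_term ξ h1).mul_left (η : ℂ))).mul_left (-I / (√a : ℝ))
    have e5 : -I / (√a : ℝ) * (jacobiTheta₂' ξ (I / a) / (2 * π * I * a) +
        η * jacobiTheta₂ ξ (I / a)) = cexp (-π * a * ξ ^ 2) * (jacobiTheta₂' (I * a * ξ) (I * a) /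
          (2 * π * I) + (ξ - I * η) * jacobiTheta₂ (I * a * ξ) (I * a)) := by
      rw [f0, f1]
      generalize jacobiTheta₂' (I * a * ξ) (I * a) = A
      generalize jacobiTheta₂ (I * a * ξ) (I * a) = B
      generalize cexp (-π * a * ξ ^ 2) = E
      field_simp
      ring
    rw [e5] at h3
    refine h3.congr_fun fun l => ?_
    rw [andT, jacobiTheta₂'_term, ← t2]
    push_cast
    field_simp

theorem pois1 {n : ℕ} (hn : 0 < n) {φ : ℤ → ℂ} (hφ : ∀ d, φ (d + n) = φ d) {a : ℝ} (ha : 0 < a)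
    (ξ η : ℝ) :
    ∑' d : ℤ, φ d * (d + ξ - I * η) * Real.exp (-π * a * (d + ξ) ^ 2) =
      ∑' l : ℤ, (∑ d ∈ Finset.range n, φ d * q1 (d * l / n)) / n * q1 (ξ * l / n) *
        (-I * ((l / (n * a) + η) / √a * Real.exp (-π * (l / n) ^ 2 / a) : ℝ)) := by
  have : NeZero n := ⟨hn.ne'⟩
  have hn0 : (0 : ℝ) < n := by exact_mod_cast hn
  have hnc : (n : ℂ) ≠ 0 := by exact_mod_cast hn.ne'
  have ha0 : (a : ℂ) ≠ 0 := by exact_mod_cast ha.ne'
  have hs0 : ((√a : ℝ) : ℂ) ≠ 0 := by exact_mod_cast (Real.sqrt_pos.mpr ha).ne'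
  have hper : ∀ m r : ℤ, φ (m * n + r) = φ r := fun m r => by
    rw [add_comm]
    exact (Function.Periodic.int_mul (f := φ) (c := (n : ℤ)) hφ m) r
  choose S h1 h2 using fun r : Fin n =>
    and_base (a := a * n ^ 2) (by positivity) (((r : ℕ) + ξ) / n) (η / n)
  have hL : HasSum (fun d : ℤ => φ d * (d + ξ - I * η) * (Real.exp (-π * a * (d + ξ) ^ 2) : ℂ))
      (∑ r : Fin n, φ (r : ℕ) * n * S r) := by
    rw [← ((Equiv.prodComm _ _).trans (Int.divModEquiv n).symm).hasSum_iff]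
    have h3 : ∀ r : Fin n, HasSum (fun m : ℤ => ((fun d : ℤ => φ d * (d + ξ - I * η) *
        (Real.exp (-π * a * (d + ξ) ^ 2) : ℂ)) ∘
          ((Equiv.prodComm _ _).trans (Int.divModEquiv n).symm)) (r, m))
        (φ (r : ℕ) * n * S r) := fun r => by
      refine ((h1 r).mul_left (φ (r : ℕ) * n)).congr_fun fun m => ?_
      have e : -π * a * (((m * n + (r : ℕ) : ℤ) : ℝ) + ξ) ^ 2 =
          -π * (a * n ^ 2) * (m + ((r : ℕ) + ξ) / n) ^ 2 := by
        push_cast
        field_simp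
        ring
      simp only [Function.comp, Equiv.trans_apply, Equiv.prodComm_apply, Prod.swap_prod_mk,
        Int.divModEquiv_symm_apply, hper, e]
      push_cast
      field_simp
      ring
    have h4 : Summable ((fun d : ℤ => φ d * (d + ξ - I * η) *
        (Real.exp (-π * a * (d + ξ) ^ 2) : ℂ)) ∘
          ((Equiv.prodComm _ _).trans (Int.divModEquiv n).symm)) := by
      rw [← summable_norm_iff, summable_prod_of_nonneg fun _ => norm_nonneg _]
      exact ⟨fun r => (h3 r).summable.norm, Summable.of_finite⟩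
    have h5 := (h4.hasSum.prod_fiberwise h3).unique (hasSum_fintype _)
    exact h5 ▸ h4.hasSum
  have hR := hasSum_sum (s := Finset.univ) fun (r : Fin n) _ => (h2 r).mul_left (φ (r : ℕ) * n)
  rw [hL.tsum_eq, ← hR.tsum_eq]
  refine tsum_congr fun l => ?_
  rw [Finset.sum_range, Finset.sum_div, Finset.sum_mul, Finset.sum_mul]
  refine Finset.sum_congr rfl fun r _ => ?_
  have e1 : q1 (((((r : ℕ) + ξ) / n : ℝ) : ℂ) * l) = q1 ((r : ℕ) * l / n) * q1 (ξ * l / n) := by
    rw [← q1_add]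
    congr 1
    push_cast
    ring
  have e2 : √(a * n ^ 2) = √a * n := by
    rw [Real.sqrt_mul ha.le, Real.sqrt_sq hn0.le]
  have e3 : -π * (l : ℝ) ^ 2 / (a * n ^ 2) = -π * (l / n) ^ 2 / a := by
    field_simp
  rw [andT, e1, e2, e3]
  push_cast
  field_simp

end Pool.Agent.Dih
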