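import Pool.Agent.Lib.MP_60ff09_nt.Dih.ANc2
import Pool.Agent.Lib.MP_60ff09_nt.Dih.ANd

/-! The symmetric expansion of the kernel. -/

set_option autoImplicit false

open Complex Filter Topology Set MeasureTheory CongruenceSubgroup NumberTheorySymbols
open UpperHalfPlane hiding I
open scoped Real MatrixGroups ComplexConjugate Modular
open Pool.Agent.Lib.MP_696deb_nt Pool.Agent.Lib.MP_696deb_nt.Unif Pool.Agent.Shared.Weier

namespace Pool.Agent.Dih

variable {A : Par} {T : Finset Fm} {w : Fm → ℤ}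

theorem ane_prod {a b K L : ℝ} (ha : 0 < a) (hb : 0 < b) {f : ℤ × ℤ → ℝ} (h0 : ∀ v, 0 ≤ f v)
    (hK : 0 ≤ K) (hL : 0 ≤ L) (h : ∀ v, f v ≤ (K * |(v.1 : ℝ)| + L * |(v.2 : ℝ)|) *
      Real.exp (-π * (a * v.1 ^ 2 + b * v.2 ^ 2))) : Summable f := by
  refine Summable.of_nonneg_of_le h0 (fun v => (h v).trans ?_) (((summable_gauss_lin ha 0 1).mul_of_nonneg
    (summable_gauss_lin hb 0 1) (fun _ => by positivity) fun _ => by positivity).mul_left (K + L))
  rw [add_zero, add_zero, mul_mul_mul_comm, ← Real.exp_add, ← mul_assoc]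
  refine mul_le_mul ?_ (le_of_eq (by ring_nf)) (by positivity) (by positivity)
  have := abs_nonneg (v.1 : ℝ)
  have := abs_nonneg (v.2 : ℝ)
  have : 0 ≤ K * (|(v.1 : ℝ)| * |(v.2 : ℝ)| + |(v.2 : ℝ)| + 1) +
    L * (|(v.1 : ℝ)| * |(v.2 : ℝ)| + |(v.1 : ℝ)| + 1) := by positivity
  linarith

theorem summable_jw {Y τ : ℝ} (hY : 0 < Y) (hτ : 0 < τ) :
    Summable fun v : ℤ × ℤ => |jw v.1 v.2 Y τ| := by
  refine ane_prod (a := Y * τ) (b := Y / τ) (K := √Y * √τ) (L := √Y / √τ) (by positivity)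
    (by positivity) (fun _ => abs_nonneg _) (by positivity) (by positivity) fun v => ?_
  rw [jw, abs_mul, abs_mul, Real.abs_exp, abs_of_nonneg (Real.sqrt_nonneg _)]
  refine mul_le_mul ((mul_le_mul_of_nonneg_left (abs_add_le _ _) (Real.sqrt_nonneg _)).trans_eq ?_)
    (le_of_eq (by ring_nf)) (by positivity) (by positivity)
  rw [abs_mul, abs_div, abs_of_nonneg (Real.sqrt_nonneg _)]
  ring

theorem Par.Dat.summable_thT (h : A.Dat T w) {z : ℂ} (hz : 0 < z.im) {t : ℝ} (ht : 0 < t) :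
    Summable fun v : ℤ × ℤ => ‖A.thT T w z t v.1 v.2‖ := by
  obtain ⟨C, hC⟩ := h.norm_FW_le
  have h0 := (norm_nonneg _).trans (hC 0 0 z hz)
  have ha : 0 < t * z.im / (1 + z.re ^ 2 + z.im ^ 2) := by positivity
  refine ane_prod ha ha (fun _ => norm_nonneg _) (mul_nonneg h0 (norm_nonneg z)) h0 fun v => ?_
  rw [Par.thT, norm_mul, norm_mul, Complex.norm_real, Real.norm_of_nonneg (Real.exp_nonneg _),
    mul_assoc _ ‖z‖, ← mul_add]
  refine mul_le_mul (mul_le_mul (hC _ _ z hz) ((norm_add_le _ _).trans_eq ?_) (norm_nonneg _) h0)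
    (Real.exp_le_exp.2 ?_) (Real.exp_nonneg _) (by positivity)
  · rw [norm_mul, norm_conj, norm_intCast, norm_intCast, mul_comm]
  · rw [← sub_nonneg]
    have : 0 ≤ π * t * ((v.1 * z.re + v.2) ^ 2 + (v.1 * (z.re ^ 2 + z.im ^ 2) + v.2 * z.re) ^ 2) /
      (z.im * (1 + z.re ^ 2 + z.im ^ 2)) := by positivity
    refine this.trans_eq ?_
    simp only [normSq_apply, add_re, add_im, mul_re, mul_im, intCast_re, intCast_im]
    field_simp
    ring

theorem ane_real {y τ n : ℝ} (hy : 0 < y) (hτ : 0 < τ) (hn : 0 < n) (c l : ℤ) :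
    τ / (15 * n) * Real.exp (-π * (τ / (15 * n) / y) * (15 * c * y) ^ 2) *
      ((l / (n * (τ / (15 * n) / y)) + 15 * c * y) / √(τ / (15 * n) / y) *
        Real.exp (-π * (l / n) ^ 2 / (τ / (15 * n) / y))) = y * jw c l (15 * y / n) τ := by
  obtain ⟨s, hs, rfl⟩ : ∃ s, 0 < s ∧ τ = s ^ 2 := ⟨√τ, by positivity, (Real.sq_sqrt hτ.le).symm⟩
  obtain ⟨r, hr, rfl⟩ : ∃ r, 0 < r ∧ y = r ^ 2 * n / 15 :=
    ⟨√(15 * y / n), by positivity, by rw [Real.sq_sqrt (by positivity)]; field_simp⟩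
  rw [jw, show s ^ 2 / (15 * n) / (r ^ 2 * n / 15) = (s / (r * n)) ^ 2 by field_simp,
    show 15 * (r ^ 2 * n / 15) / n = r ^ 2 by field_simp, Real.sqrt_sq hs.le, Real.sqrt_sq hr.le,
    Real.sqrt_sq (by positivity), show -π * r ^ 2 * (s ^ 2 * c ^ 2 + l ^ 2 / s ^ 2) =
      -π * (s / (r * n)) ^ 2 * (15 * c * (r ^ 2 * n / 15)) ^ 2 +
        -π * (l / n) ^ 2 / (s / (r * n)) ^ 2 by field_simp; ring, Real.exp_add]
  field_simp
  ring

theorem Par.Dat.Kk_eq (h : A.Dat T w) {z : ℂ} (hz : 0 < z.im) {τ : ℝ} (hτ : 0 < τ) :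
    A.Kk T w z τ = z.im * (-I * A.gg / A.n) * ∑' v : ℤ × ℤ, A.lam v.1 v.2 *
      A.Gc T w (v.1 * v.2) z * jw v.1 v.2 (15 * z.im / A.n) τ *
        q1 (15 * (v.1 * v.2) * z.re / A.n) := by
  have hn : (0 : ℝ) < A.n := Nat.cast_pos.2 h.ok.n_pos
  obtain ⟨C, hC⟩ := h.norm_Gc_le
  have s1 : Summable fun v : ℤ × ℤ => A.thT T w z (τ / (15 * A.n)) (15 * v.1) v.2 :=
    (h.summable_thT hz (by positivity)).of_norm.comp_injective
      (i := fun v : ℤ × ℤ => (15 * v.1, v.2)) fun a b e => Prod.ext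
        (mul_left_cancel₀ (by norm_num) (Prod.ext_iff.1 e).1) (Prod.ext_iff.1 e).2
  have s2 : Summable fun v : ℤ × ℤ => A.lam v.1 v.2 * A.Gc T w (v.1 * v.2) z *
      jw v.1 v.2 (15 * z.im / A.n) τ * q1 (15 * (v.1 * v.2) * z.re / A.n) := by
    refine Summable.of_norm_bounded ((summable_jw (Y := 15 * z.im / A.n) (by positivity)
      hτ).mul_left (C * (1 + 1 / z.im))) fun v => ?_
    rw [norm_mul, norm_mul, norm_mul, norm_q1, norm_intCast, Complex.norm_real, Real.norm_eq_abs,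
      show (15 * (v.1 * v.2) * z.re / A.n : ℂ) = (15 * (v.1 * v.2) * z.re / A.n : ℝ) by push_cast; rfl,
      ofReal_im, mul_zero, Real.exp_zero, mul_one]
    exact mul_le_mul_of_nonneg_right ((mul_le_of_le_one_left (norm_nonneg _)
      (by exact_mod_cast h.ok.abs_lam_le _ _)).trans (hC _ z hz)) (abs_nonneg _)
  rw [Par.Kk, Par.Th, s1.tsum_prod, s2.tsum_prod, ← tsum_mul_left, ← tsum_mul_left]
  refine tsum_congr fun c => ?_
  have e := pois1 h.ok.n_pos (φ := fun d => A.FW T w (15 * c) d z) (fun d => h.FW_per _ d z)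
    (a := τ / (15 * A.n) / z.im) (by positivity) (15 * c * z.re) (15 * c * z.im)
  have e' : ∀ d : ℤ, A.thT T w z (τ / (15 * A.n)) (15 * c) d =
      Real.exp (-π * (τ / (15 * A.n) / z.im) * (15 * c * z.im) ^ 2) * (A.FW T w (15 * c) d z *
        (d + (15 * c * z.re : ℝ) - I * (15 * c * z.im : ℝ)) *
          Real.exp (-π * (τ / (15 * A.n) / z.im) * (d + 15 * c * z.re) ^ 2)) := fun d => by
    rw [Par.thT, mul_left_comm, ← ofReal_mul, ← Real.exp_add]
    congr 3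
    · apply Complex.ext <;> simp [add_comm]
    · simp only [normSq_apply, add_re, add_im, mul_re, mul_im, intCast_re, intCast_im]
      push_cast
      ring_nf
  simp only [e']
  rw [tsum_mul_left, e, ← mul_assoc, ← tsum_mul_left, ← tsum_mul_left]
  refine tsum_congr fun l => ?_
  have k := congrArg ofReal (ane_real hz hτ hn c l)
  rw [ofReal_mul, ofReal_mul, ofReal_mul z.im] at k
  rw [h.FW_hat c l hz, show ((15 * c * z.re : ℝ) * l / A.n : ℂ) = 15 * (c * l) * z.re / A.n by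
    push_cast; ring]
  linear_combination -I * A.gg / A.n * A.lam c l * A.Gc T w (c * l) z *
    q1 (15 * (c * l) * z.re / A.n) * k

theorem Par.Dat.Kk_inv (h : A.Dat T w) {z : ℂ} (hz : 0 < z.im) {τ : ℝ} (hτ : 0 < τ) :
    A.Kk T w z τ⁻¹ = -A.Kk T w z τ := by
  rw [h.Kk_eq hz hτ, h.Kk_eq hz (inv_pos.2 hτ), ← mul_neg, ← tsum_neg,
    ← (Equiv.prodComm ℤ ℤ).tsum_eq]
  refine congrArg _ (tsum_congr fun ⟨c, l⟩ => ?_)
  have e : (A.lam l c : ℂ) * A.Gc T w (c * l) z = -(A.lam c l * A.Gc T w (c * l) z) := by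
    by_cases k : ∃ Q ∈ T, ∃ v : ℤ × ℤ, (A.n : ℤ) ∣ fval Q v.1 v.2 + 15 * (c * l)
    · obtain ⟨Q, hQ, v, k⟩ := k
      rw [h.ok.lam_swap (h.gen Q hQ) k, Int.cast_neg, neg_mul]
    · push Not at k
      rw [Par.Gc, Finset.sum_eq_zero fun Q hQ => by simp [k Q hQ], mul_zero, mul_zero, neg_zero]
  have e' : jw l c (15 * z.im / A.n) τ⁻¹ = jw c l (15 * z.im / A.n) τ := by
    simp only [jw, Real.sqrt_inv, div_eq_mul_inv, inv_inv]
    ring_nf
  simp only [Equiv.prodComm_apply, Prod.swap_prod_mk]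
  rw [mul_comm l c, e, e', mul_comm (l : ℂ)]
  ring

end Pool.Agent.Dih
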