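import Pool.Agent.Lib.MP_60ff09_nt.Dih.AN0

/-! The fundamental set, unfolding, and integrals over the strip. -/

set_option autoImplicit false

open Complex Filter Topology Set MeasureTheory CongruenceSubgroup NumberTheorySymbols
open UpperHalfPlane hiding I
open scoped Real MatrixGroups ComplexConjugate Modular
open Pool.Agent.Lib.MP_696deb_nt Pool.Agent.Lib.MP_696deb_nt.Unif Pool.Agent.Shared.Weier

namespace Pool.Agent.Dih

instance anf_countable : Countable SL(2, ℤ) :=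
  inferInstanceAs (Countable {A : Fin 2 → Fin 2 → ℤ // Matrix.det A = 1})

theorem anf_cont (g : SL(2, ℤ)) : Continuous fun z : ℍ => g • z :=
  continuous_const_smul (Matrix.SpecialLinearGroup.mapGL ℝ g)

theorem anf_mp (g : SL(2, ℤ)) : MeasurePreserving (fun z : ℍ => g • z) volume volume :=
  measurePreserving_smul (Matrix.SpecialLinearGroup.mapGL ℝ g) volume

theorem anf_emb (g : SL(2, ℤ)) : MeasurableEmbedding fun z : ℍ => g • z :=
  measurableEmbedding_const_smul (Matrix.SpecialLinearGroup.mapGL ℝ g)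

theorem anf_open : IsOpen XD := by
  rw [XD, ofPred_exists]
  exact isOpen_iUnion fun q => ModularGroup.isOpen_fdo.preimage (anf_cont _)

theorem measurableSet_XD : MeasurableSet XD := anf_open.measurableSet

theorem measurableSet_Str : MeasurableSet Str :=
  (measurableSet_Ico (a := (0 : ℝ)) (b := 1)).preimage UpperHalfPlane.continuous_re.measurable

theorem anf_vol : volume 𝒟ᵒ < ⊤ := by
  have h1 : Integrable (fun p : ℝ × ℝ => (1 : ℝ) * p.2 ^ (-2 : ℝ))
      ((volume.restrict (Icc (-1 : ℝ) 1)).prod (volume.restrict (Ioi (1 / 2 : ℝ)))) :=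
    (integrable_const _).mul_prod (integrableOn_Ioi_rpow_of_lt (by norm_num) (by norm_num))
  have h2 := h1.lintegral_lt_top
  rw [Measure.prod_restrict, ← Measure.volume_eq_prod,
    ← Complex.volume_preserving_equiv_real_prod.setLIntegral_comp_preimage_emb
      Complex.measurableEquivRealProd.measurableEmbedding] at h2
  rw [volume_eq_lintegral]
  refine lt_of_le_of_lt ((lintegral_mono_set ?_).trans (setLIntegral_mono'
    ((measurableSet_Icc.prod measurableSet_Ioi).preimage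
      Complex.measurableEquivRealProd.measurable) fun z hz => le_of_eq ?_)) h2
  · rintro _ ⟨z, hz, rfl⟩
    have a := abs_lt.1 hz.2
    have b := ModularGroup.three_lt_four_mul_im_sq_of_mem_fdo hz
    have c := z.im_pos
    refine ⟨⟨?_, ?_⟩, ?_⟩
    · change -1 ≤ z.re
      linarith [a.1]
    · change z.re ≤ 1
      linarith [a.2]
    · change 1 / 2 < z.im
      nlinarith
  · have a : 0 < z.im := lt_trans (by norm_num) (show 1 / 2 < z.im from hz.2)
    change _ = ENNReal.ofReal (1 * z.im ^ (-2 : ℝ))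
    rw [ENNReal.ofReal, ENNReal.coe_inj]
    ext
    rw [Real.coe_toNNReal _ (by positivity), Real.rpow_neg a.le]
    simp

theorem volume_XD_lt : volume XD < ⊤ := by
  have : Finite (SL(2, ℤ) ⧸ Gamma0 15) := Subgroup.finite_quotient_of_finiteIndex
  rw [XD, ofPred_exists]
  rw [← biUnion_univ]
  exact measure_biUnion_lt_top finite_univ fun q _ =>
    ((anf_mp q.out).measure_preimage_emb (anf_emb _) _).trans_lt anf_vol

theorem exists_of_mem_XD {z : ℍ} (hz : z ∈ XD) :
    ∃ q : SL(2, ℤ) ⧸ Gamma0 15, ∃ z₀ ∈ 𝒟, z = q.out⁻¹ • z₀ := by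
  obtain ⟨q, hq⟩ := hz
  exact ⟨q, _, ModularGroup.fdo_subset_fd hq, (inv_smul_smul _ _).symm⟩

theorem stab_XD {z : ℍ} (hz : z ∈ XD) {g : SL(2, ℤ)} (hg : g • z = z) : g = 1 ∨ g = -1 := by
  obtain ⟨q, hq⟩ := hz
  have h := ModularGroup.eq_one_or_neg_one_of_mem_fdo_mem_fdo (g := q.out * g * q.out⁻¹) hq
    (by rwa [mul_smul, mul_smul, inv_smul_smul, hg])
  refine h.imp (fun e => ?_) fun e => ?_
  · rw [mul_inv_eq_one] at e
    exact mul_eq_left.1 e
  · rw [mul_inv_eq_iff_eq_mul, neg_one_mul, ← mul_neg_one] at e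
    exact mul_left_cancel e

theorem anf_neg {g : SL(2, ℤ)} (hg : g ∈ Gamma0 15) : -g ∈ Gamma0 15 := by
  rw [Gamma0_mem] at hg ⊢
  simpa using hg

theorem anf_key {z : ℍ} (hz : z ∈ XD) {g : SL(2, ℤ)} (hg : g ∈ Gamma0 15) (h : g • z ∈ XD) :
    g = 1 ∨ g = -1 := by
  obtain ⟨q, hq⟩ := hz
  obtain ⟨r, hr⟩ := h
  have h := ModularGroup.eq_one_or_neg_one_of_mem_fdo_mem_fdo (g := r.out * g * q.out⁻¹) hq
    (by rwa [mul_smul, mul_smul, inv_smul_smul])
  obtain rfl : r = q := by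
    rw [← r.out_eq, ← q.out_eq]
    refine QuotientGroup.eq.2 ?_
    rcases h with e | e
    · rw [mul_inv_eq_one] at e
      rwa [← e, inv_mul_cancel_left]
    · rw [mul_inv_eq_iff_eq_mul, neg_one_mul, ← neg_eq_iff_eq_neg, ← mul_neg] at e
      rw [← e, inv_mul_cancel_left]
      exact anf_neg hg
  refine stab_XD ⟨r, hq⟩ (MulAction.injective r.out ?_)
  have e := ModularGroup.eq_smul_self_of_mem_fdo_mem_fdo (g := r.out * g * r.out⁻¹) hq
    (by rwa [mul_smul, mul_smul, inv_smul_smul])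
  rw [mul_smul, mul_smul, inv_smul_smul] at e
  exact e.symm

theorem eq_of_eqv {z w : ℍ} (hz : z ∈ XD) (hw : w ∈ XD) (h : Eqv z w) : z = w := by
  obtain ⟨a, b, c, d, h, e⟩ := h
  obtain ⟨g, hg⟩ : ∃ g : SL(2, ℤ), g = ⟨!![a, b; 15 * c, d], by
    simpa [Matrix.det_fin_two] using h⟩ := ⟨_, rfl⟩
  obtain rfl : w = g • z := UpperHalfPlane.ext (by rw [coe_smul_eq_mob, e, hg]; rfl)
  have k : g ∈ Gamma0 15 := by
    rw [Gamma0_mem, hg]
    exact (ZMod.intCast_zmod_eq_zero_iff_dvd _ 15).2 ⟨c, rfl⟩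
  rcases anf_key hz k hw with rfl | rfl
  · exact (one_smul _ _).symm
  · rw [ModularGroup.SL_neg_smul, one_smul]

theorem anf_null {s : Set ℂ} (hs : volume s = 0) : ∀ᵐ z : ℍ, ∀ g : SL(2, ℤ), ↑(g • z) ∉ s := by
  refine ae_all_iff.2 fun g => (anf_mp g).quasiMeasurePreserving.ae (p := fun z : ℍ => ↑z ∉ s) ?_
  rw [ae_iff, volume_eq_lintegral]
  refine setLIntegral_measure_zero _ _ (measure_mono_null ?_ hs)
  rintro _ ⟨z, hz, rfl⟩
  exact not_not.1 hz

theorem anf_re (x : ℝ) : volume {z : ℂ | z.re = x} = 0 := by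
  have := Complex.volume_preserving_equiv_real_prod.measure_preimage_equiv ({x} ×ˢ univ)
  rw [Measure.volume_eq_prod, Measure.prod_prod, Real.volume_singleton, zero_mul] at this
  exact measure_mono_null (fun z hz => by exact ⟨hz, trivial⟩) this

theorem anf_im (y : ℝ) : volume {z : ℂ | z.im = y} = 0 := by
  have := Complex.volume_preserving_equiv_real_prod.measure_preimage_equiv (univ ×ˢ {y})
  rw [Measure.volume_eq_prod, Measure.prod_prod, Real.volume_singleton, mul_zero] at this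
  exact measure_mono_null (fun z hz => by exact ⟨trivial, hz⟩) this

theorem anf_ae : ∀ᵐ z : ℍ, ∃ γ : Gamma0 15, (γ : SL(2, ℤ))⁻¹ • z ∈ XD := by
  filter_upwards [anf_null (anf_re (1 / 2)), anf_null (anf_re (-(1 / 2))),
    anf_null (Measure.addHaar_sphere volume (0 : ℂ) 1)] with z h1 h2 h3
  obtain ⟨g, hg⟩ := ModularGroup.exists_smul_mem_fd z
  have h4 : g • z ∈ 𝒟ᵒ := ⟨hg.1.lt_of_ne fun e => h3 g (by
    rw [mem_sphere_zero_iff_norm, ← sq_eq_sq₀ (norm_nonneg _) zero_le_one, ← normSq_eq_norm_sq,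
      ← e, one_pow]), hg.2.lt_of_ne fun e => by
    rcases eq_or_eq_neg_of_abs_eq e with e | e
    exacts [h1 g e, h2 g e]⟩
  refine ⟨⟨g⁻¹ * (g : SL(2, ℤ) ⧸ Gamma0 15).out, QuotientGroup.eq.1 (Quotient.out_eq _).symm⟩,
    g, ?_⟩
  rwa [mul_inv_rev, inv_inv, mul_smul, smul_inv_smul]

/-- The translates of the fundamental set. -/
def anfX (γ : Gamma0 15) : Set ℍ := (fun z => (γ : SL(2, ℤ))⁻¹ • z) ⁻¹' XD

theorem anf_pre (γ : Gamma0 15) : (fun z => (γ : SL(2, ℤ)) • z) ⁻¹' anfX γ = XD := by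
  ext z
  simp only [anfX, mem_preimage, inv_smul_smul]

theorem anf_sum : Measure.sum (fun γ => volume.restrict (anfX γ)) = 2 • (volume : Measure ℍ) := by
  have hm : ∀ γ, MeasurableSet (anfX γ) := fun γ =>
    measurableSet_XD.preimage (anf_cont _).measurable
  ext s hs
  rw [Measure.sum_apply _ hs, Measure.smul_apply, nsmul_eq_mul, ← setLIntegral_const]
  simp only [Measure.restrict_apply hs]
  simp only [inter_comm s, ← Measure.restrict_apply (hm _), ← lintegral_indicator_one (hm _)]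
  rw [← lintegral_tsum fun γ => (measurable_one.indicator (hm γ)).aemeasurable]
  refine lintegral_congr_ae (ae_restrict_of_ae (anf_ae.mono fun z ⟨γ, hγ⟩ => ?_))
  have ne : γ ≠ ⟨-γ, anf_neg γ.2⟩ := fun e => by
    have h1 : (γ : SL(2, ℤ)) * 1 = γ * -1 := by simpa using congrArg Subtype.val e
    simpa using congrArg (fun g : SL(2, ℤ) => g 0 0) (mul_left_cancel h1)
  have h2 : z ∈ anfX ⟨-γ, anf_neg γ.2⟩ := by
    change (-(γ : SL(2, ℤ)))⁻¹ • z ∈ XD
    rwa [inv_neg, ModularGroup.SL_neg_smul]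
  classical
  refine (tsum_eq_sum (s := {γ, ⟨-γ, anf_neg γ.2⟩}) fun δ hδ => indicator_of_notMem
    (fun h => hδ ?_) _).trans ?_
  · have h3 := anf_key (g := (δ : SL(2, ℤ))⁻¹ * γ) hγ (mul_mem (inv_mem δ.2) γ.2)
      (by rwa [mul_smul, smul_inv_smul])
    rw [inv_mul_eq_one, inv_mul_eq_iff_eq_mul, mul_neg_one, ← neg_eq_iff_eq_neg] at h3
    rw [Finset.mem_insert, Finset.mem_singleton]
    exact h3.imp Subtype.ext fun e => Subtype.ext e.symm
  · rw [Finset.sum_pair ne, indicator_of_mem (show z ∈ anfX γ from hγ), indicator_of_mem h2]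
    norm_num

theorem lintegral_unfold {h : ℍ → ENNReal} (hh : Measurable h) :
    ∑' γ : Gamma0 15, ∫⁻ z in XD, h ((γ : SL(2, ℤ)) • z) = 2 * ∫⁻ z, h z := by
  have e := lintegral_sum_measure h fun γ => volume.restrict (anfX γ)
  rw [anf_sum, two_smul, lintegral_add_measure, ← two_mul] at e
  rw [e]
  refine tsum_congr fun γ => ?_
  rw [← (anf_mp γ).setLIntegral_comp_preimage_emb (anf_emb _) h, anf_pre]

theorem anf_hasSum {E : Type} [NormedAddCommGroup E] [NormedSpace ℝ E] {h : ℍ → E}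
    (hh : Integrable h) :
    HasSum (fun γ : Gamma0 15 => ∫ z in XD, h ((γ : SL(2, ℤ)) • z)) ((∫ z, h z) + ∫ z, h z) := by
  have e := hasSum_integral_measure (f := h) (μ := fun γ => volume.restrict (anfX γ))
    (by rw [anf_sum, two_smul]; exact hh.add_measure hh)
  rw [anf_sum, two_smul, integral_add_measure hh hh] at e
  convert e using 2 with γ
  rw [← (anf_mp γ).setIntegral_preimage_emb (anf_emb _) h, anf_pre]

theorem integral_unfold {h : ℍ → ℂ} (hh : Integrable h) :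
    (∀ γ : Gamma0 15, IntegrableOn (fun z => h ((γ : SL(2, ℤ)) • z)) XD) ∧
    (Summable fun γ : Gamma0 15 => ∫ z in XD, ‖h ((γ : SL(2, ℤ)) • z)‖) ∧
    HasSum (fun γ : Gamma0 15 => ∫ z in XD, h ((γ : SL(2, ℤ)) • z)) (2 * ∫ z, h z) ∧
    ∫ z in XD, ∑' γ : Gamma0 15, h ((γ : SL(2, ℤ)) • z) = 2 * ∫ z, h z := by
  have h1 : ∀ γ : Gamma0 15, IntegrableOn (fun z => h ((γ : SL(2, ℤ)) • z)) XD := fun γ =>
    ((anf_mp γ).integrable_comp_of_integrable hh).integrableOn
  have h2 := (anf_hasSum hh.norm).summable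
  have h3 := anf_hasSum hh
  rw [← two_mul] at h3
  exact ⟨h1, h2, h3, (integral_tsum_of_summable_integral_norm h1 h2).symm.trans h3.tsum_eq⟩

/-- Almost every orbit avoids a given horizontal line. -/
theorem ae_im_ne (y : ℝ) : ∀ᵐ z : ℍ, ∀ g : SL(2, ℤ), (g • z).im ≠ y := anf_null (anf_im y)

end Pool.Agent.Dih
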