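import Pool.Agent.Lib.MP_60ff09_nt.Dih.AN0

/-! Integrals over the strip as iterated integrals. -/

set_option autoImplicit false

open Complex Filter Topology Set MeasureTheory CongruenceSubgroup NumberTheorySymbols
open UpperHalfPlane hiding I
open scoped Real MatrixGroups ComplexConjugate Modular
open Pool.Agent.Lib.MP_696deb_nt Pool.Agent.Lib.MP_696deb_nt.Unif Pool.Agent.Shared.Weier

namespace Pool.Agent.Dih

/-- Real coordinates. -/
noncomputable def anf2e (z : ℍ) : ℝ × ℝ := (z.re, z.im)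

/-- The invariant measure in real coordinates. -/
noncomputable def anf2m (ν : Measure ℝ) : Measure (ℝ × ℝ) :=
  (ν.prod (volume.restrict (Ioi 0))).withDensity fun v => ENNReal.ofReal (1 / v.2 ^ 2)

theorem anf2_emb : MeasurableEmbedding anf2e :=
  measurableEquivRealProd.measurableEmbedding.comp measurableEmbedding_coe

theorem anf2_meas : Measurable fun v : ℝ × ℝ => ENNReal.ofReal (1 / v.2 ^ 2) := by fun_prop

theorem anf2_lt {μ : Measure (ℝ × ℝ)} : ∀ᵐ v ∂μ, ENNReal.ofReal (1 / v.2 ^ 2) < ⊤ :=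
  .of_forall fun _ => ENNReal.ofReal_lt_top

theorem anf2_all : MeasurePreserving anf2e volume (anf2m volume) := by
  refine ⟨anf2_emb.measurable, Measure.ext fun s hs => ?_⟩
  have h1 : UpperHalfPlane.coe '' (anf2e ⁻¹' s) =
      measurableEquivRealProd ⁻¹' (s ∩ univ ×ˢ Ioi 0) := by
    ext z
    exact ⟨by rintro ⟨w, hw, rfl⟩; exact ⟨hw, trivial, w.im_pos⟩, fun h => ⟨⟨z, h.2.2⟩, h.1, rfl⟩⟩
  rw [anf2_emb.map_apply, volume_eq_lintegral, anf2m, withDensity_apply _ hs,
    ← Measure.restrict_univ (μ := (volume : Measure ℝ)), Measure.restrict_restrict measurableSet_Ioi,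
    inter_univ, Measure.prod_restrict, Measure.restrict_restrict hs, ← Measure.volume_eq_prod,
    ← volume_preserving_equiv_real_prod.setLIntegral_comp_preimage_emb
      measurableEquivRealProd.measurableEmbedding, h1]
  refine lintegral_congr fun z => ?_
  rw [ENNReal.ofReal, ENNReal.coe_inj]
  ext
  rw [Real.coe_toNNReal _ (by positivity)]
  simp

theorem anf2_str :
    MeasurePreserving anf2e (volume.restrict Str) (anf2m (volume.restrict (Ioc 0 1))) := by
  have h := anf2_all.restrict_preimage_emb anf2_emb (Ico 0 1 ×ˢ univ)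
  rwa [anf2m, restrict_withDensity', ← Measure.restrict_prod_eq_prod_univ,
    Measure.restrict_congr_set Ico_ae_eq_Ioc,
    show anf2e ⁻¹' (Ico 0 1 ×ˢ univ) = Str from Set.ext fun z => and_iff_left trivial] at h

theorem anf2_int {μ : Measure ℍ} {ν : Measure ℝ} [SFinite ν]
    (h : MeasurePreserving anf2e μ (anf2m ν)) {F : ℂ → ℂ} (hF : Integrable (fun z : ℍ => F z) μ) :
    Integrable (fun v : ℝ × ℝ => ((1 / v.2 ^ 2 : ℝ) : ℂ) * F (v.1 + v.2 * I))
      (ν.prod (volume.restrict (Ioi 0))) ∧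
    ∫ z, F z ∂μ = ∫ y in Ioi (0 : ℝ), ((1 / y ^ 2 : ℝ) : ℂ) * ∫ x : ℝ, F (x + y * I) ∂ν := by
  have h1 : (fun z : ℍ => F z) = (fun v : ℝ × ℝ => F (v.1 + v.2 * I)) ∘ anf2e :=
    funext fun z => congrArg F (UpperHalfPlane.re_add_im z).symm
  have h2 : (fun v : ℝ × ℝ => (ENNReal.ofReal (1 / v.2 ^ 2)).toReal • F (v.1 + v.2 * I)) =
      fun v => ((1 / v.2 ^ 2 : ℝ) : ℂ) * F (v.1 + v.2 * I) := funext fun v => by
    rw [ENNReal.toReal_ofReal (by positivity), real_smul]
  rw [h1, h.integrable_comp_emb anf2_emb, anf2m,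
    integrable_withDensity_iff_integrable_smul' anf2_meas anf2_lt, h2] at hF
  refine ⟨hF, (congrArg _ h1).trans
    ((h.integral_comp anf2_emb fun v => F (v.1 + v.2 * I)).trans ?_)⟩
  rw [anf2m, integral_withDensity_eq_integral_toReal_smul anf2_meas anf2_lt, h2,
    integral_prod_symm _ hF]
  simp only [integral_const_mul]

theorem lintegral_Str {F : ℂ → ENNReal} (hF : Measurable fun z : ℍ => F z) :
    ∫⁻ z in Str, F z =
      ∫⁻ y in Ioi (0 : ℝ), ENNReal.ofReal (1 / y ^ 2) * ∫⁻ x in Ioc (0 : ℝ) 1, F (x + y * I) := by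
  have h1 : (fun z : ℍ => F z) = (fun v : ℝ × ℝ => F (v.1 + v.2 * I)) ∘ anf2e :=
    funext fun z => congrArg F (UpperHalfPlane.re_add_im z).symm
  have h2 : AEMeasurable (fun v : ℝ × ℝ => F (v.1 + v.2 * I)) (anf2m (volume.restrict (Ioc 0 1))) := by
    rw [← anf2_str.map_eq, anf2_emb.aemeasurable_map_iff, ← h1]
    exact hF.aemeasurable
  have h3 := (aemeasurable_withDensity_ennreal_iff anf2_meas.ennreal_toNNReal).1
    (by simpa only [anf2m, ENNReal.coe_toNNReal ENNReal.ofReal_ne_top] using h2)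
  simp only [ENNReal.coe_toNNReal ENNReal.ofReal_ne_top] at h3
  refine (congrArg _ h1).trans
    ((anf2_str.lintegral_comp_emb anf2_emb fun v => F (v.1 + v.2 * I)).trans ?_)
  rw [anf2m, lintegral_withDensity_eq_lintegral_mul_non_measurable _ anf2_meas anf2_lt]
  refine (lintegral_prod_symm _ h3).trans (lintegral_congr fun y => ?_)
  exact lintegral_const_mul' (ENNReal.ofReal (1 / y ^ 2)) _ ENNReal.ofReal_ne_top

theorem integral_Str {F : ℂ → ℂ} (hF : IntegrableOn (fun z : ℍ => F z) Str) :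
    IntegrableOn (fun y : ℝ => ((1 / y ^ 2 : ℝ) : ℂ) * ∫ x in (0 : ℝ)..1, F (x + y * I)) (Ioi 0) ∧
    ∫ z in Str, F z =
      ∫ y in Ioi (0 : ℝ), ((1 / y ^ 2 : ℝ) : ℂ) * ∫ x in (0 : ℝ)..1, F (x + y * I) := by
  obtain ⟨h1, h2⟩ := anf2_int anf2_str hF
  have h3 := h1.integral_prod_right
  simp only [integral_const_mul] at h3
  simp only [intervalIntegral.integral_of_le zero_le_one]
  exact ⟨h3, h2⟩

theorem integrableOn_Str {F : ℍ → ℂ} (hF : Measurable F) {g : ℝ → ℝ}
    (hg : IntegrableOn (fun y => g y / y ^ 2) (Ioi 0)) (h : ∀ z ∈ Str, ‖F z‖ ≤ g z.im) :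
    IntegrableOn F Str := by
  have h1 : Integrable ((fun v : ℝ × ℝ => g v.2) ∘ anf2e) (volume.restrict Str) := by
    rw [anf2_str.integrable_comp_emb anf2_emb, anf2m,
      integrable_withDensity_iff_integrable_smul' anf2_meas anf2_lt]
    refine (Integrable.comp_snd hg _).congr (.of_forall fun v => ?_)
    simp only
    rw [ENNReal.toReal_ofReal (by positivity), smul_eq_mul]
    ring
  refine h1.mono' hF.aestronglyMeasurable ((ae_restrict_iff' ?_).2 (.of_forall h))
  exact (measurableSet_Ico (a := (0 : ℝ)) (b := 1)).preimage UpperHalfPlane.continuous_re.measurable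

/-- The same over the whole upper half plane. -/
theorem integral_upper {F : ℂ → ℂ} (hF : Integrable fun z : ℍ => F z) :
    Integrable (fun v : ℝ × ℝ => ((1 / v.2 ^ 2 : ℝ) : ℂ) * F (v.1 + v.2 * I))
      (volume.prod (volume.restrict (Ioi 0))) ∧
    ∫ z : ℍ, F z = ∫ y in Ioi (0 : ℝ), ((1 / y ^ 2 : ℝ) : ℂ) * ∫ x : ℝ, F (x + y * I) := by
  exact anf2_int anf2_all hF

end Pool.Agent.Dih
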