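import Pool.Agent.Lib.MP_60ff09_nt.Dih.ANf

/-! The newform at the cusps: traces to lower levels and bounds. -/

set_option autoImplicit false

open Complex Filter Topology Set MeasureTheory CongruenceSubgroup NumberTheorySymbols
open UpperHalfPlane hiding I
open scoped Real MatrixGroups ComplexConjugate Modular
open Pool.Agent.Lib.MP_696deb_nt Pool.Agent.Lib.MP_696deb_nt.Unif Pool.Agent.Shared.Weier

namespace Pool.Agent.Dih

/-- The weight two action of a unimodular matrix. -/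
noncomputable def angS (g : SL(2, ℤ)) (G : ℂ → ℂ) : ℂ → ℂ :=
  sl (g 0 0) (g 0 1) (g 1 0) (g 1 1) G

lemma ang_det (g : SL(2, ℤ)) : 0 < g 0 0 * g 1 1 - g 0 1 * g 1 0 := by
  rw [det_SL]; exact one_pos

lemma angS_mul (g h : SL(2, ℤ)) (G : ℂ → ℂ) {z : ℂ} (hz : 0 < z.im) :
    angS (g * h) G z = angS h (angS g G) z := by
  rw [angS, angS, angS, sl_sl (ang_det h).ne' _ _ _ _ _ hz]
  simp [Matrix.mul_apply, Fin.sum_univ_two]

lemma angS_inv (g : SL(2, ℤ)) (G : ℂ → ℂ) :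
    angS g⁻¹ G = sl (g 1 1) (-g 0 1) (-g 1 0) (g 0 0) G := by
  rw [angS, Matrix.SpecialLinearGroup.SL2_inv_expl]
  rfl

lemma angS_f15 {γ : SL(2, ℤ)} (hγ : γ ∈ Gamma0 15) {z : ℂ} (hz : 0 < z.im) :
    angS γ f15 z = f15 z := by
  obtain ⟨c, hc⟩ := (ZMod.intCast_zmod_eq_zero_iff_dvd _ 15).mp (Gamma0_mem.mp hγ)
  rw [Nat.cast_ofNat] at hc
  have := det_SL γ
  rw [angS]
  rw [hc] at this ⊢
  exact f15_inv _ _ _ _ this z hz

lemma angS_left {γ : SL(2, ℤ)} (hγ : γ ∈ Gamma0 15) (g : SL(2, ℤ)) {z : ℂ} (hz : 0 < z.im) :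
    angS (γ * g) f15 z = angS g f15 z := by
  rw [angS_mul _ _ _ hz]
  exact sl_congr (fun _ => angS_f15 hγ) (ang_det g) hz

/-- The group of matrices whose lower left entry is killed by `k` modulo fifteen. -/
def angH (k : ℕ) : Subgroup SL(2, ℤ) where
  carrier := {g | (15 : ℤ) ∣ k * g 1 0}
  one_mem' := by simp
  mul_mem' := by
    intro g h hg hh
    have : (k : ℤ) * (g * h) 1 0 = k * g 1 0 * h 0 0 + k * h 1 0 * g 1 1 := by
      simp [Matrix.mul_apply, Fin.sum_univ_two]; ring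
    rw [mem_ofPred_eq, this]
    exact dvd_add (Dvd.dvd.mul_right hg _) (Dvd.dvd.mul_right hh _)
  inv_mem' := by
    intro g hg
    have : g⁻¹ 1 0 = -g 1 0 := by rw [Matrix.SpecialLinearGroup.SL2_inv_expl]; rfl
    rw [mem_ofPred_eq, this, mul_neg]
    exact (dvd_neg).2 hg

lemma angH_mem {k : ℕ} {g : SL(2, ℤ)} : g ∈ angH k ↔ (15 : ℤ) ∣ k * g 1 0 := Iff.rfl

lemma angH_le (k : ℕ) {γ : SL(2, ℤ)} (hγ : γ ∈ Gamma0 15) : γ ∈ angH k := by
  have := (ZMod.intCast_zmod_eq_zero_iff_dvd _ 15).mp (Gamma0_mem.mp hγ)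
  rw [Nat.cast_ofNat] at this
  exact angH_mem.2 (this.mul_left _)

open Classical in
/-- One term of the trace. -/
noncomputable def angT (k : ℕ) (g : SL(2, ℤ)) (z : ℂ) : ℂ :=
  if g ∈ angH k then angS g⁻¹ f15 z else 0

lemma angT_coset (k : ℕ) {g h : SL(2, ℤ)}
    (e : (g : SL(2, ℤ) ⧸ Gamma0 15) = h) {z : ℂ} (hz : 0 < z.im) : angT k g z = angT k h z := by
  have h1 := QuotientGroup.eq.1 e
  have h2 : h = g * (g⁻¹ * h) := by group
  generalize g⁻¹ * h = γ at h1 h2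
  subst h2
  rw [angT, angT, mul_inv_rev, angS_left (inv_mem h1) _ hz]
  have h3 : g * γ ∈ angH k ↔ g ∈ angH k := Subgroup.mul_mem_cancel_right _ (angH_le k h1)
  by_cases hg : g ∈ angH k
  · rw [if_pos hg, if_pos (h3.2 hg)]
  · rw [if_neg hg, if_neg (mt h3.1 hg)]

lemma angT_left {k : ℕ} {δ : SL(2, ℤ)} (hδ : δ ∈ angH k) (g : SL(2, ℤ)) {z : ℂ} (hz : 0 < z.im) :
    angS δ (angT k g) z = angT k (δ⁻¹ * g) z := by
  by_cases hg : g ∈ angH k
  · have h1 : angT k g = angS g⁻¹ f15 := funext fun w => if_pos hg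
    rw [h1, ← angS_mul _ _ _ hz, angT, if_pos (mul_mem (inv_mem hδ) hg), mul_inv_rev, inv_inv]
  · have h1 : angT k g = fun _ => 0 := funext fun w => if_neg hg
    rw [h1, angT, if_neg (by rwa [(angH k).mul_mem_cancel_left (inv_mem hδ)])]
    simp [angS, sl]

/-- The trace. -/
noncomputable def angG (k : ℕ) (z : ℂ) : ℂ := ∑ᶠ q : SL(2, ℤ) ⧸ Gamma0 15, angT k q.out z

lemma angG_inv {k : ℕ} {δ : SL(2, ℤ)} (hδ : δ ∈ angH k) {z : ℂ} (hz : 0 < z.im) :
    angS δ (angG k) z = angG k z := by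
  have := Fintype.ofFinite (SL(2, ℤ) ⧸ Gamma0 15)
  have h1 : angS δ (angG k) z = ∑ q : SL(2, ℤ) ⧸ Gamma0 15, angS δ (angT k q.out) z := by
    simp only [angS, sl, angG, finsum_eq_sum_of_fintype, Finset.mul_sum, Finset.sum_div]
  rw [h1, angG, finsum_eq_sum_of_fintype, ← Equiv.sum_comp (MulAction.toPerm δ⁻¹)
    (fun q : SL(2, ℤ) ⧸ Gamma0 15 => angT k q.out z)]
  refine Finset.sum_congr rfl fun q _ => ?_
  rw [angT_left hδ _ hz]
  refine angT_coset k ?_ hz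
  rw [QuotientGroup.out_eq', MulAction.toPerm_apply, ← smul_eq_mul,
    MulAction.Quotient.mk_smul_out]

lemma angT_hol (k : ℕ) (g : SL(2, ℤ)) : Hol (angT k g) := by
  by_cases hg : g ∈ angH k
  · have h1 : angT k g = angS g⁻¹ f15 := funext fun w => if_pos hg
    rw [h1]; exact s15_f15.hol.sl (ang_det _)
  · have h1 : angT k g = fun _ => 0 := funext fun w => if_neg hg
    rw [h1]; exact fun z _ => differentiableAt_const _

lemma angG_s15 (k : ℕ) : S15 (angG k) := by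
  have := Fintype.ofFinite (SL(2, ℤ) ⧸ Gamma0 15)
  have h0 : angG k = fun z => ∑ q : SL(2, ℤ) ⧸ Gamma0 15, angT k q.out z :=
    funext fun z => finsum_eq_sum_of_fintype _
  refine ⟨fun z hz => ?_, fun a b c d h z hz => ?_, ?_⟩
  · rw [h0]
    exact DifferentiableAt.fun_sum fun q _ => angT_hol k _ z hz
  · have h1 := angG_inv (k := k) (δ := ⟨!![a, b; 15 * c, d], by rwa [Matrix.det_fin_two_of]⟩)
      (angH_mem.2 (Dvd.dvd.mul_left ⟨c, rfl⟩ _)) hz
    exact h1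
  · obtain ⟨C, hC⟩ := f15_bd
    refine ⟨∑ _q : SL(2, ℤ) ⧸ Gamma0 15, max C 0, fun z hz => ?_⟩
    rw [h0]
    refine (mul_le_mul_of_nonneg_right (norm_sum_le _ _) hz.le).trans ?_
    rw [Finset.sum_mul]
    refine Finset.sum_le_sum fun q _ => ?_
    rw [angT]
    split_ifs
    · exact (bd_sl hC (ang_det _) z hz).trans (le_max_left _ _)
    · simp

lemma ang_shift {F : ℂ → ℂ} {A : PowerSeries ℂ} (h : QE F A) (c : ℝ) :
    QE (fun z => F (z + c)) (PowerSeries.rescale (q1 c) A) :=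
  QE.of_hasSum fun z hz => by
    have := h.hasSum (z := z + c) (by simpa using hz)
    simp only [q1_add, mul_pow] at this
    simp only [PowerSeries.coeff_rescale]
    convert this using 2
    ring

lemma ang_not_inv {m : ℤ} (hm : ¬ 15 ∣ m) :
    ¬ ∀ z : ℂ, 0 < z.im → sl 1 0 m 1 f15 z = f15 z := fun H => by
  have h1 : ∀ z : ℂ, 0 < z.im → f15 (z + ((-m / 15 : ℝ) : ℂ)) = f15 z := fun z hz => by
    have h2 := sl_sl (a' := 0) (b' := -1) (c' := 15) (d' := 0) (by norm_num) 1 0 m 1 f15 hz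
    rw [sl_congr H (by norm_num) hz, f15_w15 hz] at h2
    have h3 := f15_w15 (z := z + ((-m / 15 : ℝ) : ℂ)) (by simpa using hz)
    have h4 : ∀ w : ℂ, w = z + ((-m / 15 : ℝ) : ℂ) → sl 0 (-1) 15 0 f15 w =
        sl (1 * 0 + 0 * 15) (1 * -1 + 0 * 0) (m * 0 + 1 * 15) (m * -1 + 1 * 0) f15 z := by
      intro w hw
      have h5 : (15 : ℂ) * w = 15 * z - m := by rw [hw]; push_cast; ring
      simp only [sl, mob]
      push_cast
      simp only [zero_mul, mul_zero, add_zero, zero_add, h5, mul_neg, mul_one,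
        sub_eq_add_neg]
      norm_num
    rw [h4 _ rfl, ← h2] at h3
    exact (neg_injective h3).symm
  have h2 := congr_arg (PowerSeries.coeff 1) ((ang_shift qe_f15 _).unique qe_f15 h1)
  have h3 : PowerSeries.coeff 1 (toC F15) = 1 := by
    rw [PowerSeries.coeff_map, show PowerSeries.coeff 1 F15 = 1 from a15_one, map_one]
  rw [PowerSeries.coeff_rescale, h3, mul_one, pow_one, q1, Complex.exp_eq_one_iff] at h2
  obtain ⟨n, hn⟩ := h2
  have h4 : (-m : ℂ) = 15 * n := by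
    have h5 : (2 * π * I : ℂ) ≠ 0 := two_pi_I_ne_zero
    push_cast at hn
    have := mul_left_cancel₀ h5 (hn.trans (mul_comm _ _))
    linear_combination 15 * this
  have h5 : -m = 15 * n := by exact_mod_cast h4
  exact hm ((dvd_neg).1 ⟨n, h5⟩)

theorem trace_f15 (k : ℕ) {z : ℂ} (hz : 0 < z.im) :
    ∑ᶠ q : SL(2, ℤ) ⧸ Gamma0 15, (if (15 : ℤ) ∣ k * q.out 1 0 then
      sl (q.out 1 1) (-q.out 0 1) (-q.out 1 0) (q.out 0 0) f15 z else 0) =
      if k.Coprime 15 then f15 z else 0 := by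
  have h0 : ∑ᶠ q : SL(2, ℤ) ⧸ Gamma0 15, (if (15 : ℤ) ∣ k * q.out 1 0 then
      sl (q.out 1 1) (-q.out 0 1) (-q.out 1 0) (q.out 0 0) f15 z else 0) = angG k z := by
    refine finsum_congr fun q => ?_
    rw [angT, angS_inv]
    by_cases h : q.out ∈ angH k
    · rw [if_pos h, if_pos (angH_mem.1 h)]
    · rw [if_neg h, if_neg (mt angH_mem.2 h)]
  rw [h0]
  split_ifs with hk
  · rw [angG, finsum_eq_single _ ((1 : SL(2, ℤ)) : SL(2, ℤ) ⧸ Gamma0 15)]
    · rw [angT_coset k (QuotientGroup.out_eq' _) hz, angT, if_pos (one_mem _), inv_one,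
        angS_f15 (one_mem _) hz]
    · intro q hq
      refine if_neg fun h => hq ?_
      have h1 : (15 : ℤ) ∣ q.out 1 0 := by
        refine IsCoprime.dvd_of_dvd_mul_left ?_ (angH_mem.1 h)
        exact_mod_cast Nat.isCoprime_iff_coprime.2 hk.symm
      rw [← QuotientGroup.out_eq' q, eq_comm, QuotientGroup.eq, inv_one, one_mul, Gamma0_mem]
      exact (ZMod.intCast_zmod_eq_zero_iff_dvd _ 15).mpr (by exact_mod_cast h1)
  · obtain ⟨m, hm, hkm⟩ : ∃ m : ℤ, ¬ 15 ∣ m ∧ (15 : ℤ) ∣ k * m := by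
      by_cases h3 : 3 ∣ k
      · exact ⟨5, by norm_num, by omega⟩
      by_cases h5 : 5 ∣ k
      · exact ⟨3, by norm_num, by omega⟩
      exact absurd (Nat.Coprime.mul_right (k := k) (m := 3) (n := 5)
        ((Nat.prime_three.coprime_iff_not_dvd.2 h3).symm)
        ((Nat.prime_five.coprime_iff_not_dvd.2 h5).symm)) hk
    obtain ⟨c, hc⟩ := (angG_s15 k).eq_mul
    have h1 : c = 0 := by
      by_contra h
      refine ang_not_inv hm fun w hw => mul_left_cancel₀ h ?_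
      have h2 : sl 1 0 m 1 (angG k) w = angG k w :=
        angG_inv (k := k) (δ := ⟨!![1, 0; m, 1], by simp [Matrix.det_fin_two_of]⟩)
          (angH_mem.2 hkm) hw
      rw [sl_congr hc (by norm_num) hw, hc w hw] at h2
      rw [← h2]
      simp only [sl]
      ring
    rw [hc z hz, h1, zero_mul]

lemma ang_lower_inf {y : ℝ} (hy : 0 < y) : ∃ c : ℝ, 0 < c ∧ ∀ w : ℂ, y ≤ w.im →
    c * Real.exp (-2 * π * w.im) ≤ ‖f15 w‖ := by
  obtain ⟨H, h1, h2⟩ := ((qe_P1.mul qe_P3).mul qe_P5).mul qe_P15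
  have hr : Real.exp (-2 * π * y) < 1 := by
    rw [Real.exp_lt_one_iff]; nlinarith [Real.pi_pos]
  have h3 : ∀ q ∈ Metric.closedBall (0 : ℂ) (Real.exp (-2 * π * y)), ‖q‖ < 1 := fun q hq =>
    (mem_closedBall_zero_iff.1 hq).trans_lt hr
  obtain ⟨q₀, hq₀, hmin⟩ := (isCompact_closedBall (0 : ℂ) (Real.exp (-2 * π * y))).exists_isMinOn
    ⟨0, Metric.mem_closedBall_self (Real.exp_pos _).le⟩ (f := fun q => ‖H q‖)
    fun q hq => (h1.differentiableAt (h3 q hq)).continuousAt.norm.continuousWithinAt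
  refine ⟨‖H q₀‖, norm_pos_iff.2 ?_, fun w hw => ?_⟩
  · rcases eq_or_ne q₀ 0 with rfl | h0
    · rw [h1.apply_zero, ← map_mul, ← map_mul, ← map_mul, PowerSeries.coeff_map]
      simp [cc_P1, cc_P3, cc_P5, cc_P15]
    · obtain ⟨z, hz, rfl⟩ := exists_q1 (h3 _ hq₀) h0
      have h4 := f15_ne hz
      rw [f15_eq_q] at h4
      rw [← h2 z hz]
      exact right_ne_zero_of_mul h4
  · have h4 := h2 w (hy.trans_le hw)
    simp only at h4
    rw [f15_eq_q, h4, norm_mul, norm_q1, mul_comm]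
    refine mul_le_mul_of_nonneg_left (hmin ?_) (Real.exp_pos _).le
    rw [mem_closedBall_zero_iff, norm_q1, Real.exp_le_exp]
    nlinarith [Real.pi_pos]

lemma ang_half_le {z : ℍ} (hz : z ∈ 𝒟) : 1 / 2 ≤ z.im := by
  have h1 := ModularGroup.three_le_four_mul_im_sq_of_mem_fd hz
  have h2 := z.im_pos
  nlinarith

lemma ang_lower_one (g : SL(2, ℤ)) : ∃ c : ℝ, 0 < c ∧ ∀ z ∈ 𝒟,
    c * Real.exp (-2 * π * z.im) ≤ ‖angS g f15 z‖ * z.im := by
  obtain ⟨Q, k, ε, hQ, H⟩ := f15_cusp (det_SL g)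
  have hQ1 : (1 : ℝ) ≤ Q := by exact_mod_cast hQ
  have hu : 0 < 1 * Q - k * 0 := by simpa using hQ
  obtain ⟨c, hc, h1⟩ := ang_lower_inf (y := 1 / 2 / Q) (by positivity)
  have hε : ε ≠ 0 := by
    rintro rfl
    have h2 := H I (by simp)
    rw [zero_mul, sl, det_SL] at h2
    have h3 := f15_ne (im_mob_pos (ang_det g) (z := I) (by simp))
    have h4 := den_ne (ang_det g).ne' (z := I) (by simp)
    simp [h3, h4] at h2
  refine ⟨‖ε‖ * c * (1 / 2 / Q), by positivity, fun z hz => ?_⟩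
  have h2 : (mob 1 k 0 Q z).im = z.im / Q := by
    rw [im_mob]
    have : (0 : ℝ) < Q := by linarith
    simp only [Int.cast_zero, zero_mul, zero_add, Complex.norm_intCast, sq_abs, coe_im]
    push_cast
    field_simp
    simp
  have h3 : 1 / 2 / Q ≤ z.im / Q := by have := ang_half_le hz; gcongr
  have h4 := h1 (mob 1 k 0 Q z) (h2 ▸ h3)
  have h5 := norm_sl hu f15 z
  rw [coe_im] at h5
  rw [angS, H z z.im_pos, norm_mul, mul_assoc ‖ε‖ _ z.im, h5]
  rw [h2] at h4 ⊢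
  have h6 : Real.exp (-2 * π * z.im) ≤ Real.exp (-2 * π * (z.im / Q)) := by
    rw [Real.exp_le_exp]
    have := div_le_self z.im_pos.le hQ1
    nlinarith [Real.pi_pos]
  calc ‖ε‖ * c * (1 / 2 / Q) * Real.exp (-2 * π * z.im)
      = ‖ε‖ * (c * Real.exp (-2 * π * z.im) * (1 / 2 / Q)) := by ring
    _ ≤ ‖ε‖ * (c * Real.exp (-2 * π * (z.im / Q)) * (z.im / Q)) := by gcongr
    _ ≤ _ := by have := z.im_pos; gcongr

theorem f15_lower : ∃ c : ℝ, 0 < c ∧ ∀ g : SL(2, ℤ), ∀ z ∈ 𝒟,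
    c * Real.exp (-2 * π * z.im) ≤ ‖f15 (g • z : ℍ)‖ * (g • z).im := by
  choose c hc H using ang_lower_one
  obtain ⟨q₀, hq₀⟩ := Finite.exists_min fun q : SL(2, ℤ) ⧸ Gamma0 15 => c q.out⁻¹
  refine ⟨_, hc q₀.out⁻¹, fun g z hz => ?_⟩
  obtain ⟨γ, hγ⟩ := QuotientGroup.mk_out_eq_mul (Gamma0 15) g⁻¹
  have h1 := H ((g⁻¹ : SL(2, ℤ)) : SL(2, ℤ) ⧸ Gamma0 15).out⁻¹ z hz
  have h2 := mul_le_mul_of_nonneg_right (hq₀ (g⁻¹ : SL(2, ℤ))) (Real.exp_pos (-2 * π * z.im)).le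
  refine h2.trans (h1.trans_eq ?_)
  have h3 := norm_sl (ang_det g) f15 z
  rw [← coe_smul_eq_mob, coe_im, coe_im] at h3
  rw [hγ, mul_inv_rev, inv_inv, angS_left (inv_mem γ.2) _ z.im_pos, angS, h3]

lemma ang_Fi_one (g : SL(2, ℤ)) : ∃ R : ℝ, ∀ z ∈ 𝒟, ‖Fi (g • z : ℍ)‖ ≤ R := by
  have h1 := (tendsto_Fi_mob (ang_det g)).norm.eventually
    (eventually_le_nhds (lt_add_one ‖ms (g 0 0) (g 1 0)‖))
  obtain ⟨Y, hY⟩ := eventually_atTop.1 (eventually_comap.1 h1)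
  obtain ⟨R, hR⟩ := (ModularGroup.isCompact_truncatedFundamentalDomain Y).exists_bound_of_continuousOn
    (f := fun z : ℍ => Fi (g • z : ℍ))
    (by simpa only [coe_smul_eq_mob] using
      (qe_Fi.hol.comp_mob (ang_det g)).continuous_coe.continuousOn)
  refine ⟨max R (‖ms (g 0 0) (g 1 0)‖ + 1), fun z hz => ?_⟩
  rcases le_total z.im Y with h | h
  · exact (hR z ⟨hz, h⟩).trans (le_max_left _ _)
  · rw [coe_smul_eq_mob]
    exact (hY z.im h z rfl).trans (le_max_right _ _)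

theorem Fi_bdd_XD : ∃ R : ℝ, ∀ z ∈ XD, ‖Fi z‖ ≤ R := by
  choose R H using ang_Fi_one
  obtain ⟨q₀, hq₀⟩ := Finite.exists_max fun q : SL(2, ℤ) ⧸ Gamma0 15 => R q.out⁻¹
  refine ⟨R q₀.out⁻¹, fun z hz => ?_⟩
  obtain ⟨q, z₀, h0, rfl⟩ := exists_of_mem_XD hz
  exact (H _ z₀ h0).trans (hq₀ q)

end Pool.Agent.Dih
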