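import Pool.Agent.Lib.MP_60ff09_nt.Dih.ANe

/-! Transformation law, bounds and continuity of the kernel. -/

set_option autoImplicit false

open Complex Filter Topology Set MeasureTheory CongruenceSubgroup NumberTheorySymbols
open UpperHalfPlane hiding I
open scoped Real MatrixGroups ComplexConjugate Modular
open Pool.Agent.Lib.MP_696deb_nt Pool.Agent.Lib.MP_696deb_nt.Unif Pool.Agent.Shared.Weier

namespace Pool.Agent.Dih

variable {A : Par} {T : Finset Fm} {w : Fm → ℤ}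


theorem Par.Dat.thT_mob (h : A.Dat T w) {a b c d : ℤ} (e : a * d - b * c = 1) (x y : ℤ) {z : ℂ}
    (hz : 0 < z.im) (t : ℝ) : A.thT T w (mob a b c d z) t x y * (c * conj z + d) =
      (c * z + d) * A.thT T w z t (x * a + y * c) (x * b + y * d) := by
  have e' : a * d - b * c ≠ 0 := by rw [e]; exact one_ne_zero
  have hj := den_ne e' hz
  have h1 := mob_den e' x y hz
  have h2 : (x : ℂ) * conj (mob a b c d z) + y =
      (((x * a + y * c : ℤ) : ℂ) * conj z + (x * b + y * d : ℤ)) / (c * conj z + d) := by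
    simpa only [map_add, map_mul, map_div₀, map_intCast] using congrArg conj h1
  have h3 : (c : ℂ) * conj z + d ≠ 0 := by
    simpa only [map_add, map_mul, map_intCast] using (map_ne_zero (starRingEnd ℂ)).2 hj
  have h4 : -π * t * normSq ((x : ℂ) * mob a b c d z + y) / (mob a b c d z).im =
      -π * t * normSq (((x * a + y * c : ℤ) : ℂ) * z + (x * b + y * d : ℤ)) / z.im := by
    have h5 : normSq ((c : ℂ) * z + d) ≠ 0 := (normSq_pos.2 hj).ne'
    rw [h1, im_mob, e, map_div₀, Complex.sq_norm, Int.cast_one]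
    generalize normSq ((c : ℂ) * z + d) = s at h5
    field_simp
  rw [Par.thT, Par.thT, h.FW_mob e x y hz, h4, h2]
  field_simp

/-- A unimodular change of variables. -/
def anh_eqv {a b c d : ℤ} (e : a * d - b * c = 1) : ℤ × ℤ ≃ ℤ × ℤ where
  toFun v := (v.1 * a + v.2 * c, v.1 * b + v.2 * d)
  invFun v := (v.1 * d - v.2 * c, v.2 * a - v.1 * b)
  left_inv v := Prod.ext (by linear_combination v.1 * e) (by linear_combination v.2 * e)
  right_inv v := Prod.ext (by linear_combination v.1 * e) (by linear_combination v.2 * e)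

theorem Par.Dat.Kk_mob (h : A.Dat T w) {a b c d : ℤ} (e : a * d - b * (15 * c) = 1) {z : ℂ}
    (hz : 0 < z.im) (τ : ℝ) : A.Kk T w (mob a b (15 * c) d z) τ * ((15 * c : ℤ) * conj z + d) =
      ((15 * c : ℤ) * z + d) * A.Kk T w z τ := by
  have e' : a * d - 15 * b * c = 1 := by linarith
  rw [Par.Kk, Par.Kk, mul_assoc, mul_left_comm (_ + _), Par.Th, Par.Th, ← tsum_mul_right,
    ← (anh_eqv e').tsum_eq fun v => A.thT T w z _ (15 * v.1) v.2, ← tsum_mul_left (a := _ + _)]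
  refine congrArg _ (tsum_congr fun v => (h.thT_mob e _ _ hz _).trans ?_)
  congr 2
  · change _ = 15 * (v.1 * a + v.2 * c)
    ring
  · change _ = v.1 * (15 * b) + v.2 * d
    ring

theorem anh_sum : Summable fun v : ℤ × ℤ => (‖v‖ ^ 3)⁻¹ := by
  refine ((finTwoArrowEquiv ℤ).symm.summable_iff.2
    (EisensteinSeries.summable_one_div_norm_rpow (k := (3 : ℕ)) (by norm_num))).congr fun v => ?_
  have e : ‖(![v.1, v.2] : Fin 2 → ℤ)‖ = ‖v‖ := le_antisymm
    ((pi_norm_le_iff_of_nonneg (norm_nonneg _)).2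
      (Fin.forall_fin_two.2 ⟨norm_fst_le v, norm_snd_le v⟩))
    (max_le (norm_le_pi_norm (![v.1, v.2] : Fin 2 → ℤ) 0)
      (norm_le_pi_norm (![v.1, v.2] : Fin 2 → ℤ) 1))
  rw [← e, ← Real.rpow_natCast, ← Real.rpow_neg (norm_nonneg _)]
  rfl

theorem anh_exp {x : ℝ} (hx : 0 < x) (K : ℕ) : Real.exp (-x) ≤ K.factorial / x ^ K := by
  have := Real.pow_div_factorial_le_exp x hx.le K
  rw [Real.exp_neg, ← inv_div]
  exact inv_anti₀ (by positivity) this

theorem anh_rho (R : ℝ) {B : ℝ} (hB : 0 < B) : ∃ ρ : ℝ, 0 < ρ ∧ ∀ z : ℂ, |z.re| ≤ R → B ≤ z.im →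
    ∀ v : ℤ × ℤ, ρ * ‖v‖ ≤ ‖(v.1 : ℂ) * z + v.2‖ := by
  refine ⟨B / (B + |R| + 1), by positivity, fun z h1 h2 v => ?_⟩
  have a1 := Complex.abs_im_le_norm ((v.1 : ℂ) * z + v.2)
  have a2 := Complex.abs_re_le_norm ((v.1 : ℂ) * z + v.2)
  simp only [add_im, add_re, mul_im, mul_re, intCast_im, intCast_re, zero_mul, add_zero,
    sub_zero] at a1 a2
  have a0 := norm_nonneg ((v.1 : ℂ) * z + v.2)
  generalize ‖(v.1 : ℂ) * z + v.2‖ = r at a0 a1 a2
  rw [abs_mul, abs_of_pos (hB.trans_le h2)] at a1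
  have a3 : |(v.1 : ℝ)| * B ≤ r := (mul_le_mul_of_nonneg_left h2 (abs_nonneg _)).trans a1
  have a4 : |(v.2 : ℝ)| ≤ r + |(v.1 : ℝ)| * |R| := by
    have b1 := abs_sub ((v.1 : ℝ) * z.re + v.2) (v.1 * z.re)
    have b2 := mul_le_mul_of_nonneg_left (h1.trans (le_abs_self R)) (abs_nonneg (v.1 : ℝ))
    rw [add_sub_cancel_left, abs_mul] at b1
    linarith
  have a5 := mul_le_mul_of_nonneg_right a4 hB.le
  have a6 := mul_le_mul_of_nonneg_right a3 (abs_nonneg R)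
  have a7 := mul_nonneg a0 (abs_nonneg R)
  have a8 := mul_nonneg a0 hB.le
  rw [div_mul_eq_mul_div, div_le_iff₀ (by positivity), Prod.norm_def, Int.norm_eq_abs,
    Int.norm_eq_abs, mul_max_of_nonneg _ _ hB.le]
  exact max_le (by linarith) (by linarith)

theorem anh_conj (c d : ℤ) (z : ℂ) : ‖(c : ℂ) * conj z + d‖ = ‖(c : ℂ) * z + d‖ := by
  rw [← Complex.norm_conj]
  simp only [map_add, map_mul, map_intCast, Complex.conj_conj]

theorem anh_thT {z : ℂ} {t D a ρ : ℝ} (hD : ∀ c d, ‖A.FW T w c d z‖ ≤ D) (ha : 0 < a)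
    (ha' : a ≤ π * t / z.im) (hρ : 0 < ρ) (hv : ∀ v : ℤ × ℤ, ρ * ‖v‖ ≤ ‖(v.1 : ℂ) * z + v.2‖)
    (k : ℕ) (v : ℤ × ℤ) : ‖A.thT T w z t v.1 v.2‖ ≤
      D * ((k + 2).factorial / a ^ (k + 2) / ρ ^ (2 * k + 3)) * (‖v‖ ^ 3)⁻¹ := by
  rcases eq_or_ne v 0 with rfl | h0
  · simp [Par.thT]
  have hD0 : 0 ≤ D := (norm_nonneg _).trans (hD 0 0)
  have h1 : 1 ≤ ‖v‖ := by
    by_contra! h1
    have a1 := (norm_fst_le v).trans_lt h1
    have a2 := (norm_snd_le v).trans_lt h1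
    rw [Int.norm_eq_abs, ← Int.cast_abs, ← Int.cast_one, Int.cast_lt, Int.abs_lt_one_iff] at a1 a2
    exact h0 (Prod.ext a1 a2)
  have h2 := hv v
  rw [Par.thT, norm_mul, norm_mul, anh_conj, Complex.norm_real, Real.norm_of_nonneg
    (Real.exp_pos _).le, Complex.normSq_eq_norm_sq, mul_assoc, mul_assoc D]
  refine mul_le_mul (hD _ _) ?_ (by positivity) hD0
  generalize ‖(v.1 : ℂ) * z + v.2‖ = r at h2
  generalize ‖v‖ = s at h1 h2
  have hs : 0 < s := by linarith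
  have hr : 0 < r := lt_of_lt_of_le (by positivity) h2
  have h3 : Real.exp (-π * t * r ^ 2 / z.im) ≤ Real.exp (-(a * r ^ 2)) := by
    refine Real.exp_le_exp.2 ?_
    have := mul_le_mul_of_nonneg_right ha' (sq_nonneg r)
    rw [show -π * t * r ^ 2 / z.im = -(π * t / z.im * r ^ 2) by ring]
    linarith
  have h4 : ρ ^ (2 * k + 3) * s ^ 3 ≤ r ^ (2 * k + 3) :=
    (mul_le_mul_of_nonneg_left (pow_le_pow_right₀ h1 (show 3 ≤ 2 * k + 3 by omega))
      (by positivity)).trans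
      (by rw [← mul_pow]; exact pow_le_pow_left₀ (by positivity) h2 _)
  calc r * Real.exp (-π * t * r ^ 2 / z.im) ≤ r * ((k + 2).factorial / (a * r ^ 2) ^ (k + 2)) :=
        mul_le_mul_of_nonneg_left (h3.trans (anh_exp (by positivity) _)) hr.le
    _ = (k + 2).factorial / a ^ (k + 2) / r ^ (2 * k + 3) := by
        rw [mul_pow]
        field_simp
        ring
    _ ≤ (k + 2).factorial / a ^ (k + 2) / (ρ ^ (2 * k + 3) * s ^ 3) := by gcongr
    _ = _ := by rw [← div_div, div_eq_mul_inv]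

theorem anh_FW (h : A.Dat T w) : ∃ C : ℝ, 0 ≤ C ∧ ∀ (c d : ℤ) (z : ℂ), 0 < z.im →
    ‖A.FW T w c d z‖ ≤ C * (1 + 1 / z.im) * Real.exp (-2 * π * z.im / A.n) := by
  obtain ⟨C, hC⟩ := h.norm_FW_le
  refine ⟨|C|, abs_nonneg C, fun c d z hz => (hC c d z hz).trans ?_⟩
  gcongr
  exact le_abs_self C

theorem anh_inj : Function.Injective fun v : ℤ × ℤ => ((15 * v.1, v.2) : ℤ × ℤ) := fun v v' e => by
  obtain ⟨h1, h2⟩ := Prod.ext_iff.1 e
  exact Prod.ext (by dsimp only at h1; omega) h2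

theorem anh_Th (h : A.Dat T w) {a b c d : ℤ} (e : a * d - b * c = 1) {z : ℂ} (hz : 0 < z.im)
    {t : ℝ} (ht : 0 < t) :
    ‖A.Th T w (mob a b c d z) t‖ ≤ ∑' v : ℤ × ℤ, ‖A.thT T w z t v.1 v.2‖ := by
  have hs := h.summable_thT hz ht
  have hi := (anh_eqv e).injective.comp anh_inj
  have h1 : ∀ v : ℤ × ℤ, ‖A.thT T w (mob a b c d z) t (15 * v.1) v.2‖ =
      ‖A.thT T w z t (15 * v.1 * a + v.2 * c) (15 * v.1 * b + v.2 * d)‖ := fun v => by
    have h2 := congrArg norm (h.thT_mob e (15 * v.1) v.2 hz t)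
    rw [norm_mul, norm_mul, anh_conj, mul_comm] at h2
    exact mul_left_cancel₀ (norm_ne_zero_iff.2 (den_ne (by rw [e]; exact one_ne_zero) hz)) h2
  have h3 : Summable fun v : ℤ × ℤ => ‖A.thT T w (mob a b c d z) t (15 * v.1) v.2‖ :=
    (hs.comp_injective hi).congr fun v => (h1 v).symm
  exact (norm_tsum_le_tsum_norm h3).trans
    (h3.tsum_le_tsum_of_inj _ hi (fun _ _ => norm_nonneg _) (fun v => (h1 v).le) hs)

theorem Par.Dat.norm_Kk_le (h : A.Dat T w) (k : ℕ) : ∃ C : ℝ, ∀ g : SL(2, ℤ), ∀ z ∈ 𝒟, ∀ τ : ℝ,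
    0 < τ → ‖A.Kk T w (g • z : ℍ) τ‖ ≤ C * Real.exp (-π * z.im / A.n) / τ ^ (k + 1) := by
  obtain ⟨C, hC, hF⟩ := anh_FW h
  obtain ⟨ρ, hρ, hv⟩ := anh_rho (1 / 2) (B := 1 / 2) (by norm_num)
  have hn : (0 : ℝ) < A.n := Nat.cast_pos.2 h.ok.n_pos
  have hS : 0 ≤ ∑' v : ℤ × ℤ, (‖v‖ ^ 3)⁻¹ := tsum_nonneg fun v => by positivity
  refine ⟨C * 3 * ((k + 2).factorial / π ^ (k + 2) / ρ ^ (2 * k + 3)) * (∑' v : ℤ × ℤ, (‖v‖ ^ 3)⁻¹) *
    (15 * A.n) ^ (k + 1) * ((k + 2).factorial / (π / A.n) ^ (k + 2)), fun g z hz τ hτ => ?_⟩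
  have hy : 0 < z.im := z.im_pos
  have hy' : 0 < (z : ℂ).im := hy
  have h1 : 1 / 2 ≤ z.im := by nlinarith [ModularGroup.three_le_four_mul_im_sq_of_mem_fd hz]
  have ht : 0 < τ / (15 * A.n) := by positivity
  have h2 : ∀ c d, ‖A.FW T w c d z‖ ≤ C * 3 * Real.exp (-2 * π * z.im / A.n) := fun c d =>
    (hF c d z hy').trans (by
      have : 1 / z.im ≤ 2 := by rw [div_le_iff₀ hy]; linarith
      rw [coe_im]
      gcongr
      linarith)
  have h3 := anh_thT h2 (a := π * (τ / (15 * A.n)) / z.im) (by positivity) le_rfl hρ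
    (hv z hz.2 h1) k
  have h4 := anh_Th h (det_SL g) hy' ht
  have h5 := (h.summable_thT hy' ht).tsum_le_tsum h3 (anh_sum.mul_left _)
  rw [tsum_mul_left] at h5
  have h6 : z.im ^ (k + 2) * Real.exp (-π * z.im / A.n) ≤
      (k + 2).factorial / (π / A.n) ^ (k + 2) := by
    have := anh_exp (x := π * z.im / A.n) (by positivity) (k + 2)
    rw [neg_mul, neg_div]
    refine (mul_le_mul_of_nonneg_left this (by positivity)).trans_eq ?_
    rw [show π * z.im / A.n = z.im * (π / A.n) by ring, mul_pow]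
    field_simp
  rw [Par.Kk, norm_mul, Complex.norm_real, Real.norm_of_nonneg ht.le, coe_smul_eq_mob]
  refine (mul_le_mul_of_nonneg_left (h4.trans h5) ht.le).trans ?_
  have h7 := mul_le_mul_of_nonneg_left h6 (show 0 ≤ C * 3 * ((k + 2).factorial / π ^ (k + 2) /
    ρ ^ (2 * k + 3)) * (∑' v : ℤ × ℤ, (‖v‖ ^ 3)⁻¹) * (15 * A.n) ^ (k + 1) *
      Real.exp (-π * z.im / A.n) / τ ^ (k + 1) by positivity)
  refine le_trans (le_of_eq ?_) (h7.trans_eq (by ring))
  rw [show -2 * π * z.im / A.n = -π * z.im / A.n + -π * z.im / A.n by ring, Real.exp_add, div_pow,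
    mul_pow, div_pow]
  field_simp
  ring

theorem Par.Dat.continuousOn_Kk (h : A.Dat T w) :
    ContinuousOn (fun v : ℂ × ℝ => A.Kk T w v.1 v.2) {v | 0 < v.1.im ∧ 0 < v.2} := by
  obtain ⟨C, hC, hF⟩ := anh_FW h
  have hn : (0 : ℝ) < A.n := Nat.cast_pos.2 h.ok.n_pos
  refine ContinuousOn.mul (by fun_prop) (continuousOn_of_locally_continuousOn ?_)
  rintro ⟨z, τ⟩ ⟨hz, hτ⟩
  dsimp only at hz hτ
  obtain ⟨B, hB, hB1, hB2⟩ : ∃ B : ℝ, 0 < B ∧ B < z.im ∧ B < τ :=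
    ⟨min z.im τ / 2, by positivity, by linarith [min_le_left z.im τ],
      by linarith [min_le_right z.im τ]⟩
  obtain ⟨R, hR, hR1, hR2⟩ : ∃ R : ℝ, 0 < R ∧ |z.re| < R ∧ z.im < R :=
    ⟨|z.re| + z.im + 1, by positivity, by linarith, by linarith [abs_nonneg z.re]⟩
  obtain ⟨ρ, hρ, hv⟩ := anh_rho R hB
  refine ⟨{v | |v.1.re| < R} ∩ ({v | B < v.1.im} ∩ ({v | v.1.im < R} ∩ {v | B < v.2})),
    (isOpen_lt (by fun_prop) (by fun_prop)).inter ((isOpen_lt (by fun_prop) (by fun_prop)).inter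
      ((isOpen_lt (by fun_prop) (by fun_prop)).inter (isOpen_lt (by fun_prop) (by fun_prop)))),
    ⟨hR1, hB1, hR2, hB2⟩, ?_⟩
  refine continuousOn_tsum (fun v => ?_) ((anh_sum.comp_injective anh_inj).mul_left
    (C * (1 + 1 / B) * ((0 + 2).factorial / (π * (B / (15 * A.n)) / R) ^ (0 + 2) /
      ρ ^ (2 * 0 + 3)))) ?_
  · refine (((h.continuousOn_FW _ _).comp continuousOn_fst fun x hx => hx.1.1).mul
      (by fun_prop)).mul (continuous_ofReal.comp_continuousOn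
        (Real.continuous_exp.comp_continuousOn
          (ContinuousOn.div (by fun_prop) (by fun_prop) fun x hx => hx.1.1.ne')))
  · rintro v ⟨x, s⟩ ⟨⟨a1, a2⟩, a3, a4, a5, a6⟩
    simp only [mem_ofPred_eq] at a1 a2 a3 a4 a5 a6
    refine anh_thT (fun c d => (hF c d x a1).trans ?_) (by positivity) (by gcongr) hρ
      (hv x a3.le a4.le) 0 (15 * v.1, v.2)
    refine (mul_le_of_le_one_right (by positivity) (Real.exp_le_one_iff.2 ?_)).trans (by gcongr)
    have : 0 ≤ 2 * π * x.im / A.n := by positivity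
    rw [neg_mul, neg_mul, neg_div]
    linarith

end Pool.Agent.Dih
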