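import Pool.Agent.Lib.MP_60ff09_nt.Dih.ANh

/-! The kernel of the central derivative decays at the cusps. -/

set_option autoImplicit false

open Complex Filter Topology Set MeasureTheory CongruenceSubgroup NumberTheorySymbols
open UpperHalfPlane hiding I
open scoped Real MatrixGroups ComplexConjugate Modular
open Pool.Agent.Lib.MP_696deb_nt Pool.Agent.Lib.MP_696deb_nt.Unif Pool.Agent.Shared.Weier

namespace Pool.Agent.Dih

variable {A : Par} {T : Finset Fm} {w : Fm → ℤ}


theorem Par.Dat.norm_Kk_le' (h : A.Dat T w) : ∃ C : ℝ, ∀ g : SL(2, ℤ), ∀ z ∈ 𝒟, ∀ τ : ℝ,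
    0 < τ → ‖A.Kk T w (g • z : ℍ) τ‖ ≤ C * Real.exp (-π * z.im / A.n) * min τ τ⁻¹ := by
  obtain ⟨C, hC⟩ := h.norm_Kk_le 0
  refine ⟨C, fun g z hz τ hτ => ?_⟩
  rcases le_total τ τ⁻¹ with h1 | h1
  · rw [min_eq_left h1]
    have h2 := hC g z hz τ⁻¹ (inv_pos.mpr hτ)
    rw [h.Kk_inv (g • z).im_pos hτ, norm_neg] at h2
    simpa [div_eq_mul_inv] using h2
  · rw [min_eq_right h1]
    have h2 := hC g z hz τ hτ
    simpa [div_eq_mul_inv] using h2

theorem integrableOn_log_min :
    IntegrableOn (fun τ : ℝ => |Real.log τ| / τ * min τ τ⁻¹) (Ioi 0) := by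
  rw [← Ioc_union_Ioi_eq_Ioi (zero_le_one' ℝ)]
  refine IntegrableOn.union ?_ ?_
  · have h1 : IntegrableOn (fun τ : ℝ => |Real.log τ|) (Ioc 0 1) :=
      ((intervalIntegrable_iff_integrableOn_Ioc_of_le zero_le_one).mp
        (intervalIntegral.intervalIntegrable_log' (a := 0) (b := 1))).abs
    refine h1.congr_fun (fun τ hτ => ?_) measurableSet_Ioc
    have h2 : τ ≤ τ⁻¹ := hτ.2.trans ((one_le_inv₀ hτ.1).mpr hτ.2)
    have h3 := hτ.1.ne'
    simp only [min_eq_left h2]
    field_simp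
  · have h1 : IntegrableOn (fun τ : ℝ => 2 * τ ^ (-(3 / 2) : ℝ)) (Ioi 1) :=
      (integrableOn_Ioi_rpow_of_lt (by norm_num) zero_lt_one).const_mul 2
    refine Integrable.mono' h1 ?_ ?_
    · exact (by fun_prop : Measurable fun τ : ℝ => |Real.log τ| / τ * min τ τ⁻¹).aestronglyMeasurable
    · refine (ae_restrict_iff' measurableSet_Ioi).mpr (Eventually.of_forall fun τ hτ => ?_)
      have h0 : (1 : ℝ) < τ := hτ
      have hp : 0 < τ := zero_lt_one.trans h0
      have h2 : τ⁻¹ ≤ τ := (inv_le_one_of_one_le₀ h0.le).trans h0.le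
      have h3 : Real.log τ ≤ τ ^ (1 / 2 : ℝ) / (1 / 2) := Real.log_le_rpow_div hp.le (by norm_num)
      have h4 : τ ^ (-(3 / 2) : ℝ) = τ ^ (1 / 2 : ℝ) / τ * τ⁻¹ := by
        rw [show (-(3 / 2) : ℝ) = 1 / 2 - 1 + -1 by norm_num, Real.rpow_add hp, Real.rpow_sub hp,
          Real.rpow_one, Real.rpow_neg_one]
      rw [min_eq_right h2, Real.norm_eq_abs, abs_of_nonneg (by positivity),
        abs_of_nonneg (Real.log_nonneg h0.le), h4]
      have h5 : Real.log τ ≤ 2 * τ ^ (1 / 2 : ℝ) := by linarith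
      calc Real.log τ / τ * τ⁻¹ ≤ 2 * τ ^ (1 / 2 : ℝ) / τ * τ⁻¹ := by gcongr
        _ = _ := by ring

private theorem contOn (h : A.Dat T w) :
    ContinuousOn (fun v : ℍ × ℝ => A.Kk T w v.1 v.2) (univ ×ˢ Ioi 0) := by
  have hc : Continuous fun v : ℍ × ℝ => (((v.1 : ℂ), v.2) : ℂ × ℝ) :=
    (UpperHalfPlane.continuous_coe.comp continuous_fst).prodMk continuous_snd
  exact h.continuousOn_Kk.comp hc.continuousOn fun v hv => ⟨v.1.im_pos, hv.2⟩

theorem Par.Dat.aemeas_Kk (h : A.Dat T w) (μ : Measure ℍ) [SFinite μ] : AEStronglyMeasurable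
    (fun v : ℍ × ℝ => A.Kk T w v.1 v.2) (μ.prod (volume.restrict (Ioi 0))) := by
  have e : μ.prod (volume.restrict (Ioi (0 : ℝ))) = (μ.prod volume).restrict (univ ×ˢ Ioi 0) := by
    rw [← Measure.prod_restrict, Measure.restrict_univ]
  rw [e]
  exact (contOn h).aestronglyMeasurable (MeasurableSet.univ.prod measurableSet_Ioi)

private theorem norm_term {C τ : ℝ} (hτ : 0 < τ) {x : ℂ} (hx : ‖x‖ ≤ C * min τ τ⁻¹) :
    ‖((Real.log τ / τ : ℝ) : ℂ) * x‖ ≤ C * (|Real.log τ| / τ * min τ τ⁻¹) := by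
  rw [norm_mul, Complex.norm_real, Real.norm_eq_abs, abs_div, abs_of_pos hτ]
  calc |Real.log τ| / τ * ‖x‖ ≤ |Real.log τ| / τ * (C * min τ τ⁻¹) := by gcongr
    _ = _ := by ring

theorem Par.Dat.dec_Phi (h : A.Dat T w) : Dec (A.Phi T w) := by
  obtain ⟨C, hC⟩ := h.norm_Kk_le'
  have hn : (0 : ℝ) < A.n := by exact_mod_cast h.ok.n_pos
  have hall : ∀ z : ℍ, ∀ τ : ℝ, 0 < τ → ‖A.Kk T w z τ‖ ≤ |C| * min τ τ⁻¹ := by
    intro z τ hτ
    obtain ⟨g, hg⟩ := ModularGroup.exists_smul_mem_fd z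
    have h1 := hC g⁻¹ (g • z) hg τ hτ
    rw [inv_smul_smul] at h1
    refine h1.trans ?_
    have h2 : Real.exp (-π * (g • z).im / A.n) ≤ 1 := by
      rw [Real.exp_le_one_iff]
      have := (g • z).im_pos
      have := Real.pi_pos
      rw [neg_mul, neg_div, neg_nonpos]
      positivity
    have h3 : 0 ≤ min τ τ⁻¹ := le_min hτ.le (inv_pos.mpr hτ).le
    refine mul_le_mul_of_nonneg_right ?_ h3
    calc C * Real.exp (-π * (g • z).im / A.n) ≤ |C| * Real.exp (-π * (g • z).im / A.n) := by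
          gcongr
          exact le_abs_self C
      _ ≤ |C| * 1 := by gcongr
      _ = |C| := mul_one _
  refine ⟨?_, ?_, π / A.n, C * ∫ τ in Ioi (0 : ℝ), |Real.log τ| / τ * min τ τ⁻¹,
    div_pos Real.pi_pos hn, fun g z hz => ?_⟩
  · have hc : Continuous fun z : ℍ =>
        ∫ τ in Ioi (0 : ℝ), ((Real.log τ / τ : ℝ) : ℂ) * A.Kk T w z τ := by
      refine continuous_of_dominated (bound := fun τ => |C| * (|Real.log τ| / τ * min τ τ⁻¹))
        (fun z => ?_) (fun z => ?_) (integrableOn_log_min.const_mul _) ?_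
      · refine AEStronglyMeasurable.mul ?_ ?_
        · exact (by fun_prop : Measurable fun τ : ℝ =>
            ((Real.log τ / τ : ℝ) : ℂ)).aestronglyMeasurable
        · refine ContinuousOn.aestronglyMeasurable ?_ measurableSet_Ioi
          exact (contOn h).comp (Continuous.prodMk_right z).continuousOn
            fun τ hτ => ⟨trivial, hτ⟩
      · exact (ae_restrict_iff' measurableSet_Ioi).mpr
          (Eventually.of_forall fun τ hτ => norm_term hτ (hall z τ hτ))
      · refine (ae_restrict_iff' measurableSet_Ioi).mpr (Eventually.of_forall fun τ hτ => ?_)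
        refine continuous_const.mul ?_
        exact (contOn h).comp_continuous (Continuous.prodMk_left τ) fun z => ⟨trivial, hτ⟩
    refine hc.measurable.div ?_
    exact (Complex.continuous_ofReal.comp UpperHalfPlane.continuous_im).measurable
  · intro a b c d e z hz
    have hj : ((15 * c : ℤ) : ℂ) * z + d ≠ 0 := den_ne (by rw [e]; exact one_ne_zero) hz
    have hcj : conj (((15 * c : ℤ) : ℂ) * z + d) = ((15 * c : ℤ) : ℂ) * conj z + d := by
      simp only [map_add, map_mul, map_intCast]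
    have hj' : ((15 * c : ℤ) : ℂ) * conj z + d ≠ 0 := by
      rw [← hcj]
      exact (map_ne_zero _).mpr hj
    have hk : ∀ τ : ℝ, ((Real.log τ / τ : ℝ) : ℂ) * A.Kk T w (mob a b (15 * c) d z) τ =
        (((15 * c : ℤ) : ℂ) * z + d) / (((15 * c : ℤ) : ℂ) * conj z + d) *
          (((Real.log τ / τ : ℝ) : ℂ) * A.Kk T w z τ) := by
      intro τ
      rw [eq_div_of_mul_eq hj' (h.Kk_mob e hz τ)]
      ring
    have hs : (((‖((15 * c : ℤ) : ℂ) * z + d‖ : ℝ) : ℂ)) ^ 2 =
        (((15 * c : ℤ) : ℂ) * z + d) * (((15 * c : ℤ) : ℂ) * conj z + d) := by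
      rw [← hcj, Complex.mul_conj, Complex.normSq_eq_norm_sq, Complex.ofReal_pow]
    have hy : (z.im : ℂ) ≠ 0 := by exact_mod_cast hz.ne'
    unfold sl Par.Phi
    simp only [hk]
    rw [integral_const_mul, im_mob, e, Complex.ofReal_div, Complex.ofReal_pow, hs]
    generalize ((15 * c : ℤ) : ℂ) * z + d = j at hj
    generalize ((15 * c : ℤ) : ℂ) * conj z + d = j' at hj'
    push_cast
    field_simp
  · have hy := (g • z).im_pos
    have e1 : ‖A.Phi T w (g • z : ℍ)‖ * (g • z).im =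
        ‖∫ τ in Ioi (0 : ℝ), ((Real.log τ / τ : ℝ) : ℂ) * A.Kk T w (g • z : ℍ) τ‖ := by
      unfold Par.Phi
      rw [norm_div, Complex.norm_real, Real.norm_eq_abs, UpperHalfPlane.coe_im, abs_of_pos hy,
        div_mul_cancel₀ _ hy.ne']
    rw [e1]
    refine (norm_integral_le_of_norm_le
      (integrableOn_log_min.const_mul (C * Real.exp (-π * z.im / A.n))) ?_).trans (le_of_eq ?_)
    · exact (ae_restrict_iff' measurableSet_Ioi).mpr
        (Eventually.of_forall fun τ hτ => norm_term hτ (hC g z hz τ hτ))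
    · rw [integral_const_mul, show -(π / A.n) * z.im = -π * z.im / A.n by ring]
      ring

end Pool.Agent.Dih
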