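import Pool.Agent.Lib.MP_60ff09_nt.Dih.ANc2

/-! Bounds for representation numbers. -/

set_option autoImplicit false

open Complex Filter Topology Set MeasureTheory CongruenceSubgroup NumberTheorySymbols
open UpperHalfPlane hiding I
open scoped Real MatrixGroups ComplexConjugate Modular
open Pool.Agent.Lib.MP_696deb_nt Pool.Agent.Lib.MP_696deb_nt.Unif Pool.Agent.Shared.Weier

namespace Pool.Agent.Dih

variable {A : Par} {T : Finset Fm} {w : Fm → ℤ}


theorem anr_cofactor {g h x y : ℤ} (hg : g ≠ 0) (hd : g * h ∣ x * y)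
    (e : (Int.gcd (g * h) x : ℤ) = g) : h ∣ y := by
  have h1 := Int.gcd_eq_gcd_ab (g * h) x
  rw [e] at h1
  obtain ⟨k, hk⟩ := hd
  refine ⟨y * Int.gcdA (g * h) x + k * Int.gcdB (g * h) x, mul_left_cancel₀ hg ?_⟩
  linear_combination y * h1 + Int.gcdB (g * h) x * hk

theorem anr_fiber {n : ℕ} (hn : Squarefree n) {N : ℕ} (hN : N ≠ 0) {r t s : ℤ}
    (hr : (N : ℤ) ∣ r ^ 2 + n) (ht : (N : ℤ) ∣ t ^ 2 + n) (hs : (N : ℤ) ∣ s ^ 2 + n)
    (e : Int.gcd (N : ℤ) (t - r) = Int.gcd (N : ℤ) (s - r)) : (N : ℤ) ∣ 4 * (t - s) := by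
  obtain ⟨g, hg⟩ : ∃ g : ℤ, (Int.gcd (N : ℤ) (t - r) : ℤ) = g := ⟨_, rfl⟩
  have hg' : (Int.gcd (N : ℤ) (s - r) : ℤ) = g := e ▸ hg
  obtain ⟨h, hh⟩ : g ∣ N := hg ▸ Int.gcd_dvd_left ..
  have g0 : g ≠ 0 := by
    rintro rfl
    exact hN (by simpa using hh)
  have g1 : g ∣ t - r := hg ▸ Int.gcd_dvd_right ..
  have g2 : g ∣ s - r := hg' ▸ Int.gcd_dvd_right ..
  rw [hh] at hr ht hs hg hg' ⊢
  have k1 : h ∣ t + r := anr_cofactor g0 ((dvd_sub ht hr).trans (dvd_of_eq (by ring))) hg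
  have k2 : h ∣ s + r := anr_cofactor g0 ((dvd_sub hs hr).trans (dvd_of_eq (by ring))) hg'
  have g3 : g ∣ t - s := (dvd_sub g1 g2).trans (dvd_of_eq (by ring))
  have k3 : h ∣ t - s := (dvd_sub k1 k2).trans (dvd_of_eq (by ring))
  have e1 : (Int.gcd g h : ℤ) ∣ g := Int.gcd_dvd_left ..
  have e2 : (Int.gcd g h : ℤ) ∣ h := Int.gcd_dvd_right ..
  have e3 : (Int.gcd g h : ℤ) ∣ 2 * r :=
    (dvd_sub (e2.trans k1) (e1.trans g1)).trans (dvd_of_eq (by ring))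
  have e4 : (Int.gcd g h : ℤ) * Int.gcd g h ∣ n * 4 :=
    (dvd_sub (((mul_dvd_mul e1 e2).trans hr).mul_right 4) (mul_dvd_mul e3 e3)).trans
      (dvd_of_eq (by ring))
  obtain ⟨c, hc⟩ : Int.gcd g h ∣ 4 :=
    hn.dvd_of_squarefree_of_mul_dvd_mul_right (Int.natCast_dvd_natCast.1 (by exact_mod_cast e4))
  have hc' : (4 : ℤ) = Int.gcd g h * c := by exact_mod_cast hc
  rw [hc', Int.gcd_eq_gcd_ab]
  obtain ⟨u, hu⟩ := g3
  obtain ⟨v, hv⟩ := k3
  exact ⟨(Int.gcdA g h * v + Int.gcdB g h * u) * c, by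
    linear_combination g * Int.gcdA g h * c * hv + h * Int.gcdB g h * c * hu⟩

theorem anr_prim {n N : ℕ} (hN : N ≠ 0) {v : ℤ × ℤ} (hv : v.1 ^ 2 + n * v.2 ^ 2 = N) :
    ∃ (g D t : ℕ) (x y : ℤ), v = (g * x, g * y) ∧ g ^ 2 * D = N ∧ x ^ 2 + n * y ^ 2 = D ∧ t < D ∧
      (D : ℤ) ∣ t * y - x ∧ (D : ℤ) ∣ (t : ℤ) ^ 2 + n := by
  obtain ⟨a, b⟩ := v
  have h0 : 0 < Int.gcd a b := by
    rw [Int.gcd_pos_iff]
    by_contra h
    push Not at h
    obtain ⟨rfl, rfl⟩ := h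
    exact hN (by simpa using hv.symm)
  obtain ⟨x, y, hxy, ha, hb⟩ := Int.exists_gcd_one h0
  obtain ⟨g, hg⟩ : ∃ g, Int.gcd a b = g := ⟨_, rfl⟩
  rw [hg] at ha hb h0
  obtain ⟨D, hD⟩ : ∃ D : ℕ, x ^ 2 + n * y ^ 2 = D := ⟨(x ^ 2 + n * y ^ 2).toNat, by
    rw [Int.toNat_of_nonneg (by positivity)]⟩
  have e : g ^ 2 * D = N := by
    have : ((g ^ 2 * D : ℕ) : ℤ) = N := by
      push_cast
      rw [← hD, ← hv, ha, hb]
      ring
    exact_mod_cast this
  have D0 : (0 : ℤ) < D := by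
    have : D ≠ 0 := by
      rintro rfl
      exact hN (by simpa using e.symm)
    omega
  have hc : IsCoprime y (D : ℤ) := by
    have h1 : IsCoprime y (x ^ 2) := (Int.isCoprime_iff_gcd_eq_one.2 hxy).symm.pow_right
    have h2 := h1.add_mul_left_right (n * y)
    rwa [show x ^ 2 + y * (n * y) = D by rw [← hD]; ring] at h2
  obtain ⟨u, z, huz⟩ := hc
  have t0 : 0 ≤ x * u % D := Int.emod_nonneg _ D0.ne'
  have t1 : x * u % D < D := Int.emod_lt_of_pos _ D0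
  have t2 : (D : ℤ) ∣ x * u % D * y - x := ⟨-(x * u / D) * y - x * z, by
    rw [Int.emod_def]
    linear_combination x * huz⟩
  refine ⟨g, D, (x * u % D).toNat, x, y, ?_, e, hD, by omega, ?_, ?_⟩
  · rw [ha, hb, mul_comm x, mul_comm y]
  · rwa [Int.toNat_of_nonneg t0]
  · rw [Int.toNat_of_nonneg t0]
    have h1 : IsCoprime (D : ℤ) (y ^ 2) := (IsCoprime.symm ⟨u, z, huz⟩).pow_right
    exact h1.dvd_of_dvd_mul_left ((dvd_add (t2.mul_right (x * u % D * y + x))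
      (dvd_refl (D : ℤ))).trans (dvd_of_eq (by linear_combination -hD)))

theorem anr_sign {n D t x y x' y' : ℤ} (h1 : 1 < n) (hD : D ≠ 0) (e : x ^ 2 + n * y ^ 2 = D)
    (e' : x' ^ 2 + n * y' ^ 2 = D) (d : D ∣ t * y - x) (d' : D ∣ t * y' - x') :
    (x = x' ∧ y = y') ∨ (x = -x' ∧ y = -y') := by
  obtain ⟨k, hk⟩ : D ∣ x * y' - x' * y :=
    (dvd_sub (d'.mul_right y) (d.mul_right y')).trans (dvd_of_eq (by ring))
  have h2 : D ^ 2 = (x * x' + n * y * y') ^ 2 + n * k ^ 2 * D ^ 2 := by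
    have : D ^ 2 = (x * x' + n * y * y') ^ 2 + n * (x * y' - x' * y) ^ 2 := by
      rw [sq D]
      nth_rewrite 1 [← e]
      rw [← e']
      ring
    rw [hk] at this
    linear_combination this
  have h3 : 0 < D ^ 2 := by positivity
  have k0 : k = 0 := by
    by_contra hk0
    have h4 : 1 ≤ k ^ 2 := sq_pos_of_ne_zero hk0
    have h5 : 2 ≤ n * k ^ 2 := by nlinarith
    nlinarith [sq_nonneg (x * x' + n * y * y')]
  have key : ∀ a b : ℤ, a ^ 2 + n * b ^ 2 = 0 → a = 0 ∧ b = 0 := fun a b h => by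
    have h4 : 0 ≤ n * b ^ 2 := by positivity
    have ha : a ^ 2 = 0 := by nlinarith [sq_nonneg a]
    have hb : n * b ^ 2 = 0 := by linarith
    exact ⟨pow_eq_zero_iff two_ne_zero |>.1 ha,
      pow_eq_zero_iff two_ne_zero |>.1 ((mul_eq_zero.1 hb).resolve_left (by omega))⟩
  rw [k0] at h2
  rcases sq_eq_sq_iff_eq_or_eq_neg.1 (show D ^ 2 = (x * x' + n * y * y') ^ 2 by
    linear_combination h2) with h | h
  · obtain ⟨a, b⟩ := key (x - x') (y - y') (by linear_combination e + e' + 2 * h)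
    exact Or.inl ⟨by linarith, by linarith⟩
  · obtain ⟨a, b⟩ := key (x + x') (y + y') (by linear_combination e + e' + 2 * h)
    exact Or.inr ⟨by linarith, by linarith⟩

theorem card_sqrt_le {n : ℕ} (hn : Squarefree n) (h2 : n % 2 = 1) {N : ℕ} (hN : N ≠ 0) :
    ((Finset.range N).filter fun t : ℕ => (N : ℤ) ∣ (t : ℤ) ^ 2 + n).card ≤ 4 * N.divisors.card := by
  have _ := h2
  set S := (Finset.range N).filter fun t : ℕ => (N : ℤ) ∣ (t : ℤ) ^ 2 + n with hS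
  rcases S.eq_empty_or_nonempty with h0 | ⟨r, hr⟩
  · rw [h0]
    simp
  have hr' := (Finset.mem_filter.1 hr).2
  have hc : (Finset.range 4 ×ˢ N.divisors).card = 4 * N.divisors.card := by simp
  rw [← hc]
  refine Finset.card_le_card_of_injOn (fun t => (4 * t / N, Int.gcd (N : ℤ) (t - r))) ?_ ?_
  · intro t ht
    have h1 := Finset.mem_range.1 (Finset.mem_filter.1 ht).1
    refine Finset.mem_coe.2 (Finset.mem_product.2 ⟨Finset.mem_range.2 ?_, Nat.mem_divisors.2 ⟨?_, hN⟩⟩)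
    · exact Nat.div_lt_of_lt_mul (by omega)
    · exact Int.natCast_dvd_natCast.1 (Int.gcd_dvd_left ..)
  · intro t ht s hs e
    have e1 : 4 * t / N = 4 * s / N := congrArg Prod.fst e
    have e2 : Int.gcd (N : ℤ) (t - r) = Int.gcd (N : ℤ) (s - r) := congrArg Prod.snd e
    have h4 := anr_fiber hn hN hr' (Finset.mem_filter.1 ht).2 (Finset.mem_filter.1 hs).2 e2
    have h5 : 4 * s ≡ 4 * t [MOD N] := by
      rw [Nat.modEq_iff_dvd]
      push_cast
      rw [← mul_sub]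
      exact h4
    have h6 := Nat.div_add_mod (4 * t) N
    have h7 := Nat.div_add_mod (4 * s) N
    rw [e1, ← h5, h7] at h6
    omega

theorem rep_principal_le {n : ℕ} (hn : Squarefree n) (h2 : n % 2 = 1) (h1 : 1 < n) {N : ℕ}
    (hN : N ≠ 0) : rep (1, 0, n) N ≤ 8 * N.divisors.card ^ 2 := by
  classical
  have hv : ∀ v : ℤ × ℤ, v ∈ {v : ℤ × ℤ | fval (1, 0, n) v.1 v.2 = N} →
      v.1 ^ 2 + n * v.2 ^ 2 = N := fun v h => by
    have h' : fval (1, 0, n) v.1 v.2 = N := h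
    rw [← h', fval]
    ring
  have H : ∀ v : ℤ × ℤ, ∃ (g D t : ℕ) (x y : ℤ), v.1 ^ 2 + n * v.2 ^ 2 = N →
      v = (g * x, g * y) ∧ g ^ 2 * D = N ∧ x ^ 2 + n * y ^ 2 = D ∧ t < D ∧
        (D : ℤ) ∣ t * y - x ∧ (D : ℤ) ∣ (t : ℤ) ^ 2 + n := fun v => by
    by_cases h : v.1 ^ 2 + n * v.2 ^ 2 = N
    · obtain ⟨g, D, t, x, y, h'⟩ := anr_prim hN h
      exact ⟨g, D, t, x, y, fun _ => h'⟩
    · exact ⟨0, 0, 0, 0, 0, fun h' => absurd h' h⟩
  choose g D t x y H using H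
  set F : Finset (Σ _ : ℕ, ℕ) := N.divisors.sigma fun D =>
    (Finset.range D).filter fun t : ℕ => (D : ℤ) ∣ (t : ℤ) ^ 2 + n with hF
  have hc : (F ×ˢ (Finset.univ : Finset Bool)).card ≤ 8 * N.divisors.card ^ 2 := by
    have h3 : F.card ≤ N.divisors.card * (4 * N.divisors.card) := by
      rw [hF, Finset.card_sigma]
      refine Finset.sum_le_card_nsmul _ _ _ fun D hD => ?_
      exact (card_sqrt_le hn h2 (Nat.pos_of_mem_divisors hD).ne').trans (Nat.mul_le_mul_left _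
        (Finset.card_le_card (Nat.divisors_subset_of_dvd hN (Nat.dvd_of_mem_divisors hD))))
    rw [Finset.card_product, Finset.card_univ, Fintype.card_bool]
    nlinarith
  refine le_trans ?_ hc
  rw [rep, ← Set.ncard_coe_finset]
  refine Set.ncard_le_ncard_of_injOn
    (fun v => (⟨D v, t v⟩, decide (0 < v.1 ∨ (v.1 = 0 ∧ 0 < v.2)))) ?_ ?_ (Finset.finite_toSet _)
  · intro v h
    obtain ⟨-, e, -, h4, -, h5⟩ := H v (hv v h)
    exact Finset.mem_coe.2 (Finset.mem_product.2 ⟨Finset.mem_sigma.2 ⟨Nat.mem_divisors.2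
      ⟨Dvd.intro_left _ e, hN⟩, Finset.mem_filter.2 ⟨Finset.mem_range.2 h4, h5⟩⟩, Finset.mem_univ _⟩)
  · intro v h v' h' e
    obtain ⟨a1, a2, a3, a4, a5, -⟩ := H v (hv v h)
    obtain ⟨b1, b2, b3, -, b5, -⟩ := H v' (hv v' h')
    have e1 : D v = D v' := congrArg (fun p => p.1.1) e
    have e2 : t v = t v' := congrArg (fun p => p.1.2) e
    have e3 : (0 < v.1 ∨ (v.1 = 0 ∧ 0 < v.2)) ↔ (0 < v'.1 ∨ (v'.1 = 0 ∧ 0 < v'.2)) :=
      decide_eq_decide.1 (congrArg Prod.snd e)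
    rw [← e1] at b2 b3 b5
    rw [← e2] at b5
    have e4 : g v = g v' :=
      Nat.pow_left_injective two_ne_zero (Nat.eq_of_mul_eq_mul_right (by omega) (a2.trans b2.symm))
    rw [← e4] at b1
    rcases anr_sign (by exact_mod_cast h1) (by omega) a3 b3 a5 b5 with ⟨c1, c2⟩ | ⟨c1, c2⟩
    · rw [a1, b1, c1, c2]
    · exfalso
      have f1 : v.1 = -v'.1 := by rw [congrArg Prod.fst a1, congrArg Prod.fst b1, c1, mul_neg]
      have f2 : v.2 = -v'.2 := by rw [congrArg Prod.snd a1, congrArg Prod.snd b1, c2, mul_neg]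
      have f3 : ¬ (v.1 = 0 ∧ v.2 = 0) := by
        rintro ⟨f4, f5⟩
        have := hv v h
        rw [f4, f5] at this
        exact hN (by simpa using this.symm)
      omega

theorem anr_card_mul (a b : ℕ) : (a * b).divisors.card ≤ a.divisors.card * b.divisors.card := by
  rw [Nat.divisors_mul]
  exact Finset.card_mul_le

theorem Par.InGen.anr_rep_le {Q : Fm} (hQ : A.InGen Q) (h : A.Ok) {N : ℕ} (hN : N ≠ 0) :
    rep Q N ≤ 8 * (4 * Q.1.toNat).divisors.card ^ 2 * N.divisors.card ^ 2 := by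
  have hn := h.n_mod
  have ha := hQ.pos
  have h1 := rep_principal_le h.sqfree (by omega) (by omega)
    (N := 4 * Q.1.toNat * N) (mul_ne_zero (by omega) hN)
  have h2 : rep Q N ≤ rep (1, 0, A.n) (4 * Q.1.toNat * N : ℕ) := by
    refine Set.ncard_le_ncard_of_injOn (fun v => (2 * Q.1 * v.1 + Q.2.1 * v.2, v.2)) ?_ ?_
      (finite_rep (by simp only [fdisc]; omega) one_pos _)
    · intro v hv
      have h3 := four_mul_fval Q v.1 v.2
      rw [show fval Q v.1 v.2 = N from hv, hQ.disc] at h3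
      change fval (1, 0, A.n) _ _ = _
      push_cast
      rw [Int.toNat_of_nonneg ha.le, h3, fval]
      ring
    · intro v _ v' _ e
      have e1 : 2 * Q.1 * v.1 + Q.2.1 * v.2 = 2 * Q.1 * v'.1 + Q.2.1 * v'.2 := congrArg Prod.fst e
      have e2 : v.2 = v'.2 := (Prod.ext_iff.1 e).2
      rw [e2] at e1
      exact Prod.ext (mul_left_cancel₀ (show 2 * Q.1 ≠ 0 by omega) (add_right_cancel e1)) e2
  refine h2.trans (h1.trans ?_)
  rw [mul_assoc 8, ← mul_pow]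
  exact Nat.mul_le_mul_left _ (Nat.pow_le_pow_left (anr_card_mul _ _) 2)

theorem Par.Ok.anr_Sneg (h : A.Ok) (k : ℕ) : |(A.Sneg k : ℝ)| ≤ k.divisors.card := by
  have h1 : |A.Sneg k| ≤ k.divisors.card := by
    refine (Finset.abs_sum_le_sum_abs _ _).trans ?_
    simpa using Finset.sum_le_card_nsmul k.divisors _ 1 fun c _ => h.abs_lam_le c (-((k / c : ℕ) : ℤ))
  exact_mod_cast h1

theorem Par.Dat.abs_rW_le (h : A.Dat T w) : ∃ C : ℝ, ∀ N : ℕ, N ≠ 0 →
    |(rW T w N : ℝ)| ≤ C * (N.divisors.card : ℝ) ^ 2 := by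
  refine ⟨∑ Q ∈ T, |(w Q : ℝ)| * (8 * ((4 * Q.1.toNat).divisors.card : ℝ) ^ 2), fun N hN => ?_⟩
  rw [rW, Finset.sum_mul]
  push_cast
  refine (Finset.abs_sum_le_sum_abs _ _).trans (Finset.sum_le_sum fun Q hQ => ?_)
  rw [abs_mul, mul_assoc, Nat.abs_cast]
  refine mul_le_mul_of_nonneg_left ?_ (abs_nonneg _)
  exact_mod_cast (h.gen Q hQ).anr_rep_le h.ok hN

theorem Par.Dat.summable_arch (h : A.Dat T w) (M : ℕ) {ε : ℝ} (hε : 0 < ε) :
    Summable fun k : ℕ => |((rW T w (M * A.n + 15 * k) * A.Sneg k : ℤ) : ℝ)| *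
      (k : ℝ) ^ (-1 - ε) := by
  obtain ⟨C, hC⟩ := h.abs_rW_le
  obtain ⟨B, hB, H⟩ := fdivisor_bound (ε := ε / 6) (by positivity)
  have hs : Summable fun k : ℕ => |C| * B ^ 3 * ((M * A.n + 15 : ℕ) : ℝ) ^ (ε / 3) *
      (k : ℝ) ^ (-1 - ε / 2) := (Real.summable_nat_rpow.2 (by linarith)).mul_left _
  refine hs.of_nonneg_of_le (fun k => by positivity) fun k => ?_
  rcases eq_or_ne k 0 with rfl | hk
  · rw [Nat.cast_zero (R := ℝ), Real.zero_rpow (by linarith), Real.zero_rpow (by linarith), mul_zero,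
      mul_zero]
  have k0 : (0 : ℝ) < k := by positivity
  have h1 := hC (M * A.n + 15 * k) (by omega)
  have h2 := H (M * A.n + 15 * k) (by omega)
  have h3 := (h.ok.anr_Sneg k).trans (H k hk)
  have h4 : ((M * A.n + 15 * k : ℕ) : ℝ) ^ (ε / 6) ≤
      ((M * A.n + 15 : ℕ) : ℝ) ^ (ε / 6) * (k : ℝ) ^ (ε / 6) := by
    rw [← Real.mul_rpow (by positivity) k0.le]
    refine Real.rpow_le_rpow (by positivity) ?_ (by positivity)
    have : M * A.n + 15 * k ≤ (M * A.n + 15) * k := by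
      rw [add_mul]
      exact Nat.add_le_add_right (Nat.le_mul_of_pos_right _ (Nat.pos_of_ne_zero hk)) _
    exact_mod_cast this
  have h5 : |(rW T w (M * A.n + 15 * k) : ℝ)| ≤
      |C| * (B * (((M * A.n + 15 : ℕ) : ℝ) ^ (ε / 6) * (k : ℝ) ^ (ε / 6))) ^ 2 := by
    rw [show (M * A.n + 15 * k : ℤ) = (M * A.n + 15 * k : ℕ) by push_cast; rfl]
    refine h1.trans (mul_le_mul (le_abs_self C) ?_ (by positivity) (abs_nonneg C))
    exact pow_le_pow_left₀ (by positivity)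
      (h2.trans (mul_le_mul_of_nonneg_left h4 (by positivity))) 2
  rw [Int.cast_mul, abs_mul]
  refine (mul_le_mul_of_nonneg_right (mul_le_mul h5 h3 (abs_nonneg _) (by positivity))
    (by positivity)).trans_eq ?_
  have e1 : ((M * A.n + 15 : ℕ) : ℝ) ^ (ε / 3) = (((M * A.n + 15 : ℕ) : ℝ) ^ (ε / 6)) ^ 2 := by
    rw [← Real.rpow_natCast, ← Real.rpow_mul (by positivity)]
    congr 1
    push_cast
    ring
  have e2 : (k : ℝ) ^ (-1 - ε / 2) = ((k : ℝ) ^ (ε / 6)) ^ 3 * (k : ℝ) ^ (-1 - ε) := by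
    rw [← Real.rpow_natCast, ← Real.rpow_mul k0.le, ← Real.rpow_add k0]
    congr 1
    push_cast
    ring
  rw [e1, e2]
  ring

end Pool.Agent.Dih
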