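import Pool.Agent.Lib.MP_60ff09_nt.Dih.ANc2
import Pool.Agent.Lib.MP_60ff09_nt.Dih.ANr
import Pool.Agent.Lib.MP_60ff09_nt.Dih.ANf2
import Pool.Agent.Lib.MP_696deb_nt.Bound

/-! The Rankin-Selberg integral over the strip. -/

set_option autoImplicit false

open Complex Filter Topology Set MeasureTheory CongruenceSubgroup NumberTheorySymbols
open UpperHalfPlane hiding I
open scoped Real MatrixGroups ComplexConjugate Modular
open Pool.Agent.Lib.MP_696deb_nt Pool.Agent.Lib.MP_696deb_nt.Unif Pool.Agent.Shared.Weier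

namespace Pool.Agent.Dih

variable {A : Par} {T : Finset Fm} {w : Fm → ℤ}


private theorem ani_cont {F : ℂ → ℂ} (hF : ContinuousOn F {z | 0 < z.im}) :
    Continuous fun z : ℍ => F z :=
  hF.comp_continuous UpperHalfPlane.continuous_coe fun z => z.im_pos

private theorem ani_line {F : ℂ → ℂ} (hF : ContinuousOn F {z | 0 < z.im}) {y : ℝ} (hy : 0 < y) :
    Continuous fun u : ℝ => F (u + y * I) :=
  hF.comp_continuous (by fun_prop) fun u => by simpa using hy

private theorem ani_f15 : ContinuousOn f15 {z | 0 < z.im} := fun z hz =>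
  (qe_f15.hol z hz).continuousAt.continuousWithinAt

private theorem ani_gam {r b : ℝ} (hr : -1 < r) (hb : 0 < b) :
    IntegrableOn (fun y : ℝ => y ^ r * Real.exp (-b * y)) (Ioi 0) := by
  simpa using integrableOn_rpow_mul_exp_neg_mul_rpow hr one_pos hb

theorem Par.Dat.integrableOn_theta (h : A.Dat T w) {σ : ℝ} (hσ : 1 < σ) :
    IntegrableOn (fun z : ℍ => ‖A.FW T w 0 1 z‖ * z.im ^ (σ + 1)) Str := by
  obtain ⟨C, hC⟩ := h.norm_FW_le
  have hn : (0 : ℝ) < A.n := by exact_mod_cast h.ok.n_pos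
  have hb : 0 < 2 * π / A.n := by positivity
  have hc : Continuous fun z : ℍ => ‖A.FW T w 0 1 z‖ * z.im ^ (σ + 1) :=
    (ani_cont (h.continuousOn_FW 0 1)).norm.mul
      (UpperHalfPlane.continuous_im.rpow_const fun z => Or.inl z.im_pos.ne')
  have h1 := integrableOn_Str (F := fun z : ℍ => ((‖A.FW T w 0 1 z‖ * z.im ^ (σ + 1) : ℝ) : ℂ))
    (Complex.continuous_ofReal.comp hc).measurable
    (g := fun y => C * (1 + 1 / y) * Real.exp (-2 * π * y / A.n) * y ^ (σ + 1)) ?_ ?_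
  · exact h1.re
  · have h2 := ((ani_gam (r := σ - 1) (by linarith) hb).add
      (ani_gam (r := σ - 2) (by linarith) hb)).const_mul C
    refine IntegrableOn.congr_fun h2 (fun y hy => ?_) measurableSet_Ioi
    have hy : 0 < y := hy
    have e1 : y ^ (σ + 1) = y ^ (σ - 2) * y ^ 3 := by
      rw [← Real.rpow_natCast, ← Real.rpow_add hy]; congr 1; push_cast; ring
    have e2 : y ^ (σ - 1) = y ^ (σ - 2) * y := by
      rw [← Real.rpow_add_one hy.ne']; congr 1; ring
    have e3 : -2 * π * y / A.n = -(2 * π / A.n) * y := by ring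
    simp only [Pi.add_apply]
    rw [e1, e2, e3]
    field_simp
  · intro z _
    have h3 : 0 ≤ z.im ^ (σ + 1) := Real.rpow_nonneg z.im_pos.le _
    rw [Complex.norm_real, Real.norm_of_nonneg (mul_nonneg (norm_nonneg _) h3)]
    exact mul_le_mul_of_nonneg_right (hC 0 1 z z.im_pos) h3

private theorem ani_qe (h : A.Dat T w) :
    QE (A.FW T w 0 1) (PowerSeries.mk fun m : ℕ => (rW T w m : ℂ)) :=
  QE.of_hasSum fun z hz => by
    simpa only [PowerSeries.coeff_mk, q1_nat_mul] using h.hasSum_FW hz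

private theorem ani_a15 {z : ℂ} (hz : 0 < z.im) :
    HasSum (fun m : ℕ => (a15 m : ℂ) * q1 z ^ m) (f15 z) := by
  simpa [a15, PowerSeries.coeff_map] using qe_f15.hasSum hz

private theorem ani_conj (u y : ℝ) (m : ℕ) : conj (q1 (u + y * I) ^ m) =
    (Real.exp (-(4 * π * m) * y) : ℂ) * (1 / q1 (u + y * I) ^ m) := by
  have h0 : q1 (u + y * I) ^ m ≠ 0 := pow_ne_zero _ (q1_ne _)
  rw [mul_one_div, eq_div_iff h0, mul_comm, Complex.mul_conj, Complex.normSq_eq_norm_sq, norm_pow,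
    norm_q1, ← pow_mul, ← Real.exp_nat_mul]
  congr 2
  simp
  ring

private theorem ani_inner (h : A.Dat T w) {y : ℝ} (hy : 0 < y) :
    HasSum (fun m : ℕ => ((rW T w m * a15 m : ℤ) : ℂ) * Real.exp (-(4 * π * m) * y))
      (∫ u in (0 : ℝ)..1, A.FW T w 0 1 (u + y * I) * conj (f15 (u + y * I))) := by
  obtain ⟨C, hC⟩ := h.norm_FW_le
  set M := C * (1 + 1 / y) * Real.exp (-2 * π * y / A.n) with hM
  have him : ∀ u : ℝ, (u + y * I : ℂ).im = y := fun u => by simp
  have hpos : ∀ u : ℝ, 0 < (u + y * I : ℂ).im := fun u => by rw [him]; exact hy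
  have hle : ∀ u : ℝ, ‖A.FW T w 0 1 (u + y * I)‖ ≤ M := fun u => by
    have := hC 0 1 _ (hpos u)
    rwa [him] at this
  have hs : Summable fun m : ℕ => M * ‖(a15 m : ℂ) * q1 ((0 : ℝ) + y * I) ^ m‖ :=
    (ani_a15 (hpos 0)).summable.norm.mul_left M
  have hq : Continuous fun u : ℝ => q1 (u + y * I) := by unfold q1; fun_prop
  have h1 := intervalIntegral.hasSum_integral_of_dominated_convergence (μ := volume) (a := 0) (b := 1)
    (F := fun (m : ℕ) (u : ℝ) => A.FW T w 0 1 (u + y * I) * conj ((a15 m : ℂ) * q1 (u + y * I) ^ m))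
    (f := fun u : ℝ => A.FW T w 0 1 (u + y * I) * conj (f15 (u + y * I)))
    (fun m _ => M * ‖(a15 m : ℂ) * q1 ((0 : ℝ) + y * I) ^ m‖)
    (fun m => ((ani_line (h.continuousOn_FW 0 1) hy).mul
      (Complex.continuous_conj.comp (continuous_const.mul (hq.pow m)))).aestronglyMeasurable)
    (fun m => ae_of_all _ fun u _ => by
      rw [norm_mul, Complex.norm_conj]
      refine mul_le_mul (hle u) (le_of_eq ?_) (norm_nonneg _) ((norm_nonneg _).trans (hle u))
      rw [norm_mul, norm_mul, norm_pow, norm_pow, norm_q1, norm_q1, him, him])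
    (ae_of_all _ fun _ _ => hs) intervalIntegrable_const
    (ae_of_all _ fun u _ => ((Complex.hasSum_conj'.mpr (ani_a15 (hpos u))).mul_left _))
  have h3 : ∀ m : ℕ, ((rW T w m * a15 m : ℤ) : ℂ) * Real.exp (-(4 * π * m) * y) =
      ∫ u in (0 : ℝ)..1, A.FW T w 0 1 (u + y * I) * conj ((a15 m : ℂ) * q1 (u + y * I) ^ m) := by
    intro m
    have h2 := (ani_qe h).coeff_eq_integral m hy
    rw [PowerSeries.coeff_mk] at h2
    rw [Int.cast_mul, h2, mul_assoc, ← intervalIntegral.integral_mul_const]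
    congr 1
    ext u
    rw [map_mul, ani_conj, map_intCast]
    ring
  simp only [h3]
  exact h1

private theorem ani_summable (h : A.Dat T w) {σ : ℝ} (hσ : 1 < σ) :
    Summable fun m : ℕ => ‖((rW T w m * a15 m : ℤ) : ℂ)‖ / (4 * π * m) ^ (σ + 1) := by
  obtain ⟨C, hC⟩ := h.abs_rW_le
  obtain ⟨B, hB1, hB⟩ := fdivisor_bound (ε := 1 / 8) (by norm_num)
  have h1 := (a15_summable (s := ((σ + 3 / 4 : ℝ) : ℂ)) (by simp only [ofReal_re]; linarith)).norm
  refine Summable.of_nonneg_of_le (fun m => by positivity) (fun m => ?_)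
    (h1.mul_left (|C| * B ^ 2))
  rcases Nat.eq_zero_or_pos m with rfl | hm
  · simp [a15_zero]
  have hm' : (0 : ℝ) < m := by exact_mod_cast hm
  rw [LSeries.norm_term_eq, if_neg hm.ne', ofReal_re, Int.cast_mul, norm_mul, Complex.norm_intCast]
  have h2 : |(rW T w m : ℝ)| ≤ |C| * B ^ 2 * (m : ℝ) ^ (1 / 4 : ℝ) := by
    refine (hC m hm.ne').trans ?_
    have h3 : ((m.divisors.card : ℕ) : ℝ) ^ 2 ≤ (B * (m : ℝ) ^ (1 / 8 : ℝ)) ^ 2 :=
      pow_le_pow_left₀ (Nat.cast_nonneg _) (hB m hm.ne') 2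
    have h4 : ((m : ℝ) ^ (1 / 8 : ℝ)) ^ 2 = (m : ℝ) ^ (1 / 4 : ℝ) := by
      rw [← Real.rpow_natCast, ← Real.rpow_mul hm'.le]; norm_num
    rw [mul_pow, h4] at h3
    rw [mul_assoc]
    exact mul_le_mul (le_abs_self C) h3 (by positivity) (abs_nonneg C)
  have h5 : (m : ℝ) ^ (σ + 3 / 4) * (m : ℝ) ^ (1 / 4 : ℝ) ≤ (4 * π * m) ^ (σ + 1) := by
    rw [← Real.rpow_add hm', show σ + 3 / 4 + 1 / 4 = σ + 1 by ring]
    refine Real.rpow_le_rpow hm'.le ?_ (by linarith)
    nlinarith [Real.pi_gt_three]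
  have h6 : 0 < (m : ℝ) ^ (σ + 3 / 4) := by positivity
  have h7 : 0 < (m : ℝ) ^ (1 / 4 : ℝ) := by positivity
  calc |(rW T w m : ℝ)| * ‖(a15 m : ℂ)‖ / (4 * π * m) ^ (σ + 1)
      ≤ |C| * B ^ 2 * (m : ℝ) ^ (1 / 4 : ℝ) * ‖(a15 m : ℂ)‖ /
        ((m : ℝ) ^ (σ + 3 / 4) * (m : ℝ) ^ (1 / 4 : ℝ)) := by gcongr
    _ = |C| * B ^ 2 * (‖(a15 m : ℂ)‖ / (m : ℝ) ^ (σ + 3 / 4)) := by field_simp

theorem Par.Dat.integral_theta (h : A.Dat T w) {s : ℂ} (hs : 1 < s.re) :
    ∫ z in Str, A.FW T w 0 1 z * conj (f15 z) * (z.im : ℂ) ^ (s + 2) =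
      Gamma (s + 1) * (4 * π : ℂ) ^ (-(s + 1)) *
        LSeries (fun m => (rW T w m * a15 m : ℤ)) (s + 1) := by
  obtain ⟨C, hC⟩ := f15_bd
  have hc : Continuous fun z : ℍ => A.FW T w 0 1 z * conj (f15 z) * (z.im : ℂ) ^ (s + 2) :=
    ((ani_cont (h.continuousOn_FW 0 1)).mul
      (Complex.continuous_conj.comp (ani_cont ani_f15))).mul
      ((Complex.continuous_ofReal.comp UpperHalfPlane.continuous_im).cpow continuous_const
        fun z => Complex.ofReal_mem_slitPlane.mpr z.im_pos)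
  have hi : IntegrableOn
      (fun z : ℍ => A.FW T w 0 1 z * conj (f15 z) * (z.im : ℂ) ^ (s + 2)) Str := by
    refine Integrable.mono' ((h.integrableOn_theta hs).const_mul C) hc.aestronglyMeasurable
      (ae_of_all _ fun z => ?_)
    have h1 : 0 ≤ z.im ^ (s.re + 1) := Real.rpow_nonneg z.im_pos.le _
    have h2 : ‖f15 z‖ * z.im ≤ C := hC z z.im_pos
    rw [norm_mul, norm_mul, Complex.norm_conj, Complex.norm_cpow_eq_rpow_re_of_pos z.im_pos,
      show (s + 2).re = s.re + 1 + 1 by simp; ring, Real.rpow_add_one z.im_pos.ne']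
    calc ‖A.FW T w 0 1 z‖ * ‖f15 z‖ * (z.im ^ (s.re + 1) * z.im)
        = ‖f15 z‖ * z.im * (‖A.FW T w 0 1 z‖ * z.im ^ (s.re + 1)) := by ring
      _ ≤ C * (‖A.FW T w 0 1 z‖ * z.im ^ (s.re + 1)) := by gcongr
  have h1 := (integral_Str
    (F := fun z : ℂ => A.FW T w 0 1 z * conj (f15 z) * (z.im : ℂ) ^ (s + 2)) hi).2
  have h2 := hasSum_mellin (a := fun m : ℕ => ((rW T w m * a15 m : ℤ) : ℂ))
    (p := fun m : ℕ => 4 * π * m) (s := s + 1)
    (F := fun y : ℝ => ∫ u in (0 : ℝ)..1, A.FW T w 0 1 (u + y * I) * conj (f15 (u + y * I)))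
    (fun m => by
      rcases Nat.eq_zero_or_pos m with rfl | hm
      · left; simp [a15_zero]
      · right; positivity)
    (by simp; linarith) (fun y hy => ani_inner h hy)
    (by simpa only [add_re, one_re] using ani_summable h hs)
  refine h1.trans ?_
  have h3 : ∫ y in Ioi (0 : ℝ), ((1 / y ^ 2 : ℝ) : ℂ) * ∫ x in (0 : ℝ)..1,
      A.FW T w 0 1 (x + y * I) * conj (f15 (x + y * I)) * (((x + y * I : ℂ).im : ℝ) : ℂ) ^ (s + 2) =
      mellin (fun y : ℝ => ∫ u in (0 : ℝ)..1,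
        A.FW T w 0 1 (u + y * I) * conj (f15 (u + y * I))) (s + 1) := by
    refine setIntegral_congr_fun measurableSet_Ioi fun y hy => ?_
    have hy : (y : ℂ) ≠ 0 := ofReal_ne_zero.mpr (ne_of_gt hy)
    have him : ∀ u : ℝ, (u + y * I : ℂ).im = y := fun u => by simp
    simp only [him, intervalIntegral.integral_mul_const, smul_eq_mul, add_sub_cancel_right]
    rw [cpow_add _ _ hy, cpow_two]
    push_cast
    field_simp
  rw [h3, ← h2.tsum_eq, LSeries, ← tsum_mul_left]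
  congr 1
  ext m
  rcases Nat.eq_zero_or_pos m with rfl | hm
  · simp [a15_zero]
  have h4 : ((4 * π * m : ℝ) : ℂ) ^ (s + 1) = (4 * π : ℂ) ^ (s + 1) * (m : ℂ) ^ (s + 1) := by
    have := mul_cpow_ofReal_nonneg (a := 4 * π) (b := m) (by positivity) (Nat.cast_nonneg m) (s + 1)
    push_cast at this ⊢
    exact this
  rw [LSeries.term_of_ne_zero hm.ne', h4, cpow_neg]
  ring

end Pool.Agent.Dih
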