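import Pool.Agent.Lib.MP_60ff09_nt.Dih.ANh2
import Pool.Agent.Lib.MP_60ff09_nt.Dih.ANg
import Pool.Agent.Lib.MP_60ff09_nt.Dih.ANi

/-! Unfolding of the Mellin transform. -/

set_option autoImplicit false

open Complex Filter Topology Set MeasureTheory CongruenceSubgroup NumberTheorySymbols
open UpperHalfPlane hiding I
open scoped Real MatrixGroups ComplexConjugate Modular Classical
open Pool.Agent.Lib.MP_696deb_nt Pool.Agent.Lib.MP_696deb_nt.Unif Pool.Agent.Shared.Weier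

namespace Pool.Agent.Dih

variable {A : Par} {T : Finset Fm} {w : Fm → ℤ}

theorem anj_cop (g : SL(2, ℤ)) : IsCoprime (g 1 0) (g 1 1) :=
  ⟨-g 0 1, g 0 0, by have := det_SL g; linarith⟩

theorem anj_gcd (k : ℕ) (g : SL(2, ℤ)) : Int.gcd (k * g 1 0) (k * g 1 1) = k := by
  rw [Int.gcd_mul_left, Int.isCoprime_iff_gcd_eq_one.1 (anj_cop g)]
  simp

theorem anj_T {g g' : SL(2, ℤ)} (h0 : g' 1 0 = g 1 0) (h1 : g' 1 1 = g 1 1) :
    ∃ m : ℤ, g' = ModularGroup.T ^ m * g := by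
  have e := det_SL g
  have e' := det_SL g'
  rw [h0, h1] at e'
  refine ⟨g' 0 1 * g 0 0 - g' 0 0 * g 0 1, ?_⟩
  ext i j
  fin_cases i <;> fin_cases j <;>
    simp [ModularGroup.coe_T_zpow, Matrix.mul_apply, Fin.sum_univ_two, h0, h1]
  · linear_combination g 0 0 * e' - g' 0 0 * e
  · linear_combination g 0 1 * e' - g' 0 1 * e

/-- Nonzero pairs are positive multiples of bottom rows of matrices that move `z` to the strip. -/
theorem exists_equiv_row (z : ℍ) :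
    ∃ e : {x : ℕ × SL(2, ℤ) // x.1 ≠ 0 ∧ x.2 • z ∈ Str} ≃ {v : ℤ × ℤ // v ≠ 0},
      ∀ x, (e x).1 = (x.1.1 * x.1.2 1 0, x.1.1 * x.1.2 1 1) := by
  have hne : ∀ x : {x : ℕ × SL(2, ℤ) // x.1 ≠ 0 ∧ x.2 • z ∈ Str},
      ((x.1.1 * x.1.2 1 0, x.1.1 * x.1.2 1 1) : ℤ × ℤ) ≠ 0 := fun x e => by
    have := anj_gcd x.1.1 x.1.2
    obtain ⟨e1, e2⟩ := Prod.mk_eq_zero.1 e
    rw [e1, e2] at this
    exact x.2.1 (by simpa using this.symm)
  refine ⟨Equiv.ofBijective (fun x => ⟨_, hne x⟩) ⟨?_, ?_⟩, fun x => rfl⟩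
  · rintro ⟨⟨k, g⟩, hk, hg⟩ ⟨⟨k', g'⟩, hk', hg'⟩ e
    simp only [Subtype.mk.injEq, Prod.mk.injEq] at e hk hk' hg hg' ⊢
    obtain rfl : k = k' := by rw [← anj_gcd k g, e.1, e.2, anj_gcd]
    have hk0 : (k : ℤ) ≠ 0 := by exact_mod_cast hk
    obtain ⟨m, rfl⟩ := anj_T (mul_left_cancel₀ hk0 e.1) (mul_left_cancel₀ hk0 e.2)
    simp only [Str, mem_ofPred_eq, mul_smul, ModularGroup.re_T_zpow_smul] at hg hg'
    have h1 : (m : ℝ) < 1 := by linarith [hg.2, hg'.1]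
    have h2 : (-1 : ℝ) < m := by linarith [hg.1, hg'.2]
    obtain rfl : m = 0 := by
      have h3 : m < 1 := by exact_mod_cast h1
      have h4 : -1 < m := by exact_mod_cast h2
      omega
    simp
  · rintro ⟨⟨x, y⟩, hv⟩
    have hk : 0 < Int.gcd x y := Int.gcd_pos_iff.2 (by
      by_contra hc
      push Not at hc
      exact hv (Prod.ext hc.1 hc.2))
    obtain ⟨c, d, h1, h2, h3⟩ := Int.exists_gcd_one hk
    obtain ⟨a, b, h4⟩ := Int.isCoprime_iff_gcd_eq_one.2 h1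
    obtain ⟨g, hg0, hg1⟩ : ∃ g : SL(2, ℤ), g 1 0 = c ∧ g 1 1 = d :=
      ⟨⟨!![b, -a; c, d], by rw [Matrix.det_fin_two_of]; linarith⟩, rfl, rfl⟩
    refine ⟨⟨(Int.gcd x y, ModularGroup.T ^ (-⌊(g • z).re⌋) * g), hk.ne', ?_⟩, ?_⟩
    · simp only [Str, mem_ofPred_eq, mul_smul, ModularGroup.re_T_zpow_smul, Int.cast_neg]
      constructor <;> linarith [Int.floor_le (g • z).re, Int.lt_floor_add_one (g • z).re]
    · simp only [Subtype.mk.injEq, ModularGroup.T_pow_mul_apply_one, hg0, hg1, Prod.mk.injEq]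
      exact ⟨by linarith, by linarith⟩

theorem anj_pow {k Y : ℝ} (hk : 0 < k) (hY : 0 < Y) (s : ℂ) :
    (1 / ((π * k ^ 2 / Y : ℝ) : ℂ)) ^ (s + 1) * k * Y =
      (π : ℂ) ^ (-(s + 1)) * (k : ℂ) ^ (-(2 * s + 1)) * (Y : ℂ) ^ (s + 2) := by
  have e : ∀ x : ℝ, 0 < x → ∀ u : ℂ, (x : ℂ) ^ u = exp (Real.log x * u) := fun x hx u => by
    rw [cpow_def_of_ne_zero (by exact_mod_cast hx.ne'), ofReal_log hx.le]
  have hp := Real.pi_pos
  have e1 := e k hk 1
  have e2 := e Y hY 1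
  rw [cpow_one] at e1 e2
  rw [← ofReal_one, ← ofReal_div, e _ (by positivity), e _ hp, e _ hk, e _ hY, one_div,
    Real.log_inv, Real.log_div (by positivity) hY.ne', Real.log_mul hp.ne' (by positivity),
    Real.log_pow]
  rw [e1, e2]
  simp only [← Complex.exp_add]
  congr 1
  push_cast
  ring

theorem anj_inv (g : SL(2, ℤ)) (z : ℍ) :
    angS g⁻¹ f15 (g • z : ℍ) = f15 z * (g 1 0 * z + g 1 1) ^ 2 := by
  have h1 := angS_mul g⁻¹ g f15 z.im_pos
  rw [inv_mul_cancel, angS_f15 (one_mem _) z.im_pos, angS, sl, det_SL, ← coe_smul_eq_mob,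
    Int.cast_one, one_mul, eq_div_iff (pow_ne_zero _ (den_ne (ang_det g).ne' z.im_pos))] at h1
  exact h1.symm

/-- The Mellin transform of one term. -/
theorem Par.Dat.mellin_term (h : A.Dat T w) {s : ℂ} (hs : -1 < s.re) (z : ℍ) {k : ℕ} (hk : k ≠ 0)
    (g : SL(2, ℤ)) :
    ∫ t in Ioi (0 : ℝ), (t : ℂ) ^ s * (conj (f15 z) * z.im * A.thT T w z t (k * g 1 0) (k * g 1 1)) =
      Gamma (s + 1) * (π : ℂ) ^ (-(s + 1)) * (J((k : ℤ) | A.n) * (k : ℂ) ^ (-(2 * s + 1))) *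
        (A.FW T w 0 1 (g • z : ℍ) *
          conj (sl (g 1 1) (-g 0 1) (-g 1 0) (g 0 0) f15 (g • z : ℍ)) *
            ((g • z).im : ℂ) ^ (s + 2)) := by
  have hj := den_ne (ang_det g).ne' z.im_pos
  have hk0 : (0 : ℝ) < k := Nat.cast_pos.2 (Nat.pos_of_ne_zero hk)
  have hY := (g • z).im_pos
  have h1 := h.FW_mob (det_SL g) 0 1 z.im_pos
  rw [← coe_smul_eq_mob, zero_mul, zero_mul, one_mul, one_mul, zero_add, zero_add] at h1
  have h2 : (g • z).im = z.im / normSq ((g 1 0 : ℂ) * z + g 1 1) := by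
    rw [← coe_im, coe_smul_eq_mob, im_mob, det_SL, Int.cast_one, one_mul, Complex.sq_norm, coe_im]
  have h3 : (z.im : ℂ) = (g • z).im * (((g 1 0 : ℂ) * z + g 1 1) * conj ((g 1 0 : ℂ) * z + g 1 1)) := by
    rw [Complex.mul_conj, h2, ← ofReal_mul, div_mul_cancel₀ _ (normSq_pos.2 hj).ne']
  have h4 := anj_pow hk0 hY s
  have h5 := integral_cpow_mul_exp_neg_mul_Ioi (a := s + 1) (r := π * k ^ 2 / (g • z).im)
    (by simp only [add_re, one_re]; linarith) (by have := Real.pi_pos; positivity)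
  have h6 : ∀ t : ℝ, (t : ℂ) ^ s * (conj (f15 z) * z.im * A.thT T w z t (k * g 1 0) (k * g 1 1)) =
      conj (f15 z) * z.im * (J((k : ℤ) | A.n) * A.FW T w (g 1 0) (g 1 1) z) *
        (k * conj ((g 1 0 : ℂ) * z + g 1 1)) *
        ((t : ℂ) ^ (s + 1 - 1) * exp (-(((π * k ^ 2 / (g • z).im : ℝ) : ℂ) * t))) := fun t => by
    have h7 : -π * t * normSq (((k * g 1 0 : ℤ) : ℂ) * z + (k * g 1 1 : ℤ)) / (z : ℂ).im =
        -(π * k ^ 2 / (g • z).im * t) := by
      rw [show ((k * g 1 0 : ℤ) : ℂ) * z + (k * g 1 1 : ℤ) = (k : ℝ) * ((g 1 0 : ℂ) * z + g 1 1) by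
        push_cast; ring, map_mul, normSq_ofReal, h2, coe_im]
      have := z.im_pos
      have := normSq_pos.2 hj
      field_simp
    rw [Par.thT, h.FW_smul, h7, add_sub_cancel_right]
    simp only [map_add, map_mul, map_intCast]
    push_cast
    ring
  simp only [h6]
  rw [integral_const_mul, h5, ← angS_inv, anj_inv, h1, h3, map_mul, map_pow]
  rw [ofReal_natCast] at h4
  linear_combination Gamma (s + 1) * J((k : ℤ) | A.n) * A.FW T w (g 1 0) (g 1 1) z * conj (f15 z) *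
    ((g 1 0 : ℂ) * z + g 1 1) * conj ((g 1 0 : ℂ) * z + g 1 1) ^ 2 * h4

theorem anj_hasSum {G M : Type} [Group G] [AddCommMonoid M] [TopologicalSpace M] [ContinuousAdd M]
    {H : Subgroup G} [Fintype (G ⧸ H)] {F : G → M} {a : G ⧸ H → M}
    (h : ∀ q : G ⧸ H, HasSum (fun γ : H => F (q.out * γ)) (a q)) : HasSum F (∑ q, a q) := by
  have h1 : ∀ q : G ⧸ H, HasSum (fun g : G => if (g : G ⧸ H) = q then F g else 0) (a q) := by
    intro q
    have hi : Function.Injective fun γ : H => q.out * (γ : G) := fun γ γ' e =>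
      Subtype.ext (mul_left_cancel e)
    rw [← hi.hasSum_iff]
    · convert h q using 2 with γ
      exact if_pos (by rw [QuotientGroup.mk_mul_of_mem _ γ.2, QuotientGroup.out_eq'])
    · intro g hg
      refine if_neg fun e => hg ⟨⟨q.out⁻¹ * g, ?_⟩, mul_inv_cancel_left _ _⟩
      rw [← QuotientGroup.eq, QuotientGroup.out_eq', e]
  convert hasSum_sum (s := Finset.univ) fun q _ => h1 q using 2 with g
  simp

theorem anj_bd (k : ℕ) : ∃ C : ℝ, ∀ g : SL(2, ℤ), ∀ z : ℍ, ‖angT k g z‖ * z.im ≤ C := by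
  obtain ⟨C, hC⟩ := f15_bd
  refine ⟨C, fun g z => ?_⟩
  rw [angT]
  split_ifs
  · exact bd_sl hC (ang_det _) z z.im_pos
  · rw [norm_zero, zero_mul]
    exact le_trans (mul_nonneg (norm_nonneg _) z.im_pos.le) (hC z z.im_pos)

theorem Par.Dat.anj_cont (h : A.Dat T w) : Continuous fun z : ℍ => A.FW T w 0 1 z :=
  (h.continuousOn_FW 0 1).comp_continuous UpperHalfPlane.continuous_coe fun z => z.im_pos

theorem Par.Dat.anj_int (h : A.Dat T w) {s : ℂ} (hs : 1 < s.re) (k : ℕ) (g : SL(2, ℤ)) :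
    IntegrableOn (fun z : ℍ => A.FW T w 0 1 z * conj (angT k g z) * (z.im : ℂ) ^ (s + 2)) Str := by
  obtain ⟨C, hC⟩ := anj_bd k
  have h0 : ContinuousOn (angT k g) {z | 0 < z.im} := fun z hz =>
    (angT_hol k g z hz).continuousAt.continuousWithinAt
  have hc : Continuous fun z : ℍ => A.FW T w 0 1 z * conj (angT k g z) * (z.im : ℂ) ^ (s + 2) :=
    (h.anj_cont.mul (Complex.continuous_conj.comp
      (h0.comp_continuous UpperHalfPlane.continuous_coe fun z => z.im_pos))).mul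
      ((Complex.continuous_ofReal.comp UpperHalfPlane.continuous_im).cpow continuous_const
        fun z => Complex.ofReal_mem_slitPlane.mpr z.im_pos)
  refine Integrable.mono' ((h.integrableOn_theta hs).const_mul C) hc.aestronglyMeasurable
    (ae_of_all _ fun z => ?_)
  have h1 : 0 ≤ z.im ^ (s.re + 1) := Real.rpow_nonneg z.im_pos.le _
  have h2 := hC g z
  rw [norm_mul, norm_mul, Complex.norm_conj, Complex.norm_cpow_eq_rpow_re_of_pos z.im_pos,
    show (s + 2).re = s.re + 1 + 1 by simp; ring, Real.rpow_add_one z.im_pos.ne']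
  calc ‖A.FW T w 0 1 z‖ * ‖angT k g z‖ * (z.im ^ (s.re + 1) * z.im)
      = ‖angT k g z‖ * z.im * (‖A.FW T w 0 1 z‖ * z.im ^ (s.re + 1)) := by ring
    _ ≤ C * (‖A.FW T w 0 1 z‖ * z.im ^ (s.re + 1)) := by gcongr

/-- Unfolding of the sum over the matrices of a given type. -/
theorem Par.Dat.unfold_type (h : A.Dat T w) {s : ℂ} (hs : 1 < s.re) (k : ℕ) :
    HasSum (fun g : SL(2, ℤ) => ∫ z in XD, if (15 : ℤ) ∣ k * g 1 0 ∧ g • z ∈ Str then
      A.FW T w 0 1 (g • z : ℍ) * conj (sl (g 1 1) (-g 0 1) (-g 1 0) (g 0 0) f15 (g • z : ℍ)) *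
        ((g • z).im : ℂ) ^ (s + 2) else 0)
      (if k.Coprime 15 then
        2 * ∫ z in Str, A.FW T w 0 1 z * conj (f15 z) * (z.im : ℂ) ^ (s + 2) else 0) := by
  have := Fintype.ofFinite (SL(2, ℤ) ⧸ Gamma0 15)
  set K : SL(2, ℤ) → ℍ → ℂ := fun g => Str.indicator fun z : ℍ =>
    A.FW T w 0 1 z * conj (angT k g z) * (z.im : ℂ) ^ (s + 2) with hK
  have h1 : ∀ (g : SL(2, ℤ)) (z : ℍ), (if (15 : ℤ) ∣ k * g 1 0 ∧ g • z ∈ Str then
      A.FW T w 0 1 (g • z : ℍ) * conj (sl (g 1 1) (-g 0 1) (-g 1 0) (g 0 0) f15 (g • z : ℍ)) *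
        ((g • z).im : ℂ) ^ (s + 2) else 0) = K g (g • z) := fun g z => by
    simp only [hK, indicator, angT, angH_mem, angS_inv]
    by_cases h1 : (15 : ℤ) ∣ k * g 1 0 <;> by_cases h2 : g • z ∈ Str <;> simp [h1, h2]
  have h2 : ∀ g, Integrable (K g) := fun g =>
    (integrable_indicator_iff measurableSet_Str).2 (h.anj_int hs k g)
  have h3 : ∀ q : SL(2, ℤ) ⧸ Gamma0 15, HasSum (fun γ : Gamma0 15 =>
      ∫ z in XD, K (q.out * γ) ((q.out * (γ : SL(2, ℤ))) • z)) (2 * ∫ z, K q.out z) := fun q => by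
    have h4 := (integral_unfold ((anf_mp q.out).integrable_comp_of_integrable (h2 q.out))).2.2.1
    rw [show ∫ z, (K q.out ∘ fun z => q.out • z) z = ∫ z, K q.out z from
      (anf_mp q.out).integral_comp (anf_emb _) _] at h4
    convert h4 using 4 with γ z
    have h5 : K (q.out * γ) = K q.out := by
      simp only [hK]
      congr 1
      funext v
      rw [angT_coset k (QuotientGroup.mk_mul_of_mem q.out γ.2) v.im_pos]
    rw [h5, mul_smul]
    rfl
  simp only [h1]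
  convert anj_hasSum (F := fun g => ∫ z in XD, K g (g • z)) h3 using 1
  rw [← Finset.mul_sum]
  simp only [hK, integral_indicator measurableSet_Str]
  rw [← integral_finsetSum _ fun q _ => h.anj_int hs k _]
  have h6 : ∀ z : ℍ, ∑ q : SL(2, ℤ) ⧸ Gamma0 15, A.FW T w 0 1 z * conj (angT k q.out z) *
      (z.im : ℂ) ^ (s + 2) = A.FW T w 0 1 z * conj (if k.Coprime 15 then f15 z else 0) *
        (z.im : ℂ) ^ (s + 2) := fun z => by
    rw [← trace_f15 k z.im_pos, finsum_eq_sum_of_fintype, map_sum, Finset.mul_sum, Finset.sum_mul]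
    refine Finset.sum_congr rfl fun q _ => ?_
    simp only [angT, angH_mem, angS_inv]
  simp only [h6]
  split_ifs <;> simp

/-- Absolute convergence of the unfolded sum. -/
theorem Par.Dat.unfold_abs (h : A.Dat T w) {σ : ℝ} (hσ : 1 < σ) :
    ∑' g : SL(2, ℤ), ∫⁻ z in XD, (if g • z ∈ Str then
      ENNReal.ofReal (‖A.FW T w 0 1 (g • z : ℍ)‖ * (g • z).im ^ (σ + 1)) else 0) ≠ ⊤ := by
  have := Fintype.ofFinite (SL(2, ℤ) ⧸ Gamma0 15)
  set K : ℍ → ENNReal := Str.indicator fun z : ℍ =>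
    ENNReal.ofReal (‖A.FW T w 0 1 z‖ * z.im ^ (σ + 1)) with hK
  have h1 : Measurable K := ((h.anj_cont.norm.mul (UpperHalfPlane.continuous_im.rpow_const
    fun z => Or.inl z.im_pos.ne')).measurable.ennreal_ofReal).indicator measurableSet_Str
  have h2 : ∫⁻ z, K z ≠ ⊤ := by
    rw [hK, lintegral_indicator measurableSet_Str]
    exact (h.integrableOn_theta hσ).lintegral_lt_top.ne
  have h3 : ∀ q : SL(2, ℤ) ⧸ Gamma0 15, HasSum (fun γ : Gamma0 15 =>
      ∫⁻ z in XD, K ((q.out * (γ : SL(2, ℤ))) • z)) (2 * ∫⁻ z, K z) := fun q => by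
    have h4 := lintegral_unfold (h1.comp (anf_cont q.out).measurable)
    rw [show ∫⁻ z, (K ∘ fun z => q.out • z) z = ∫⁻ z, K z from
      (anf_mp q.out).lintegral_comp h1] at h4
    rw [← h4]
    simp only [mul_smul]
    exact ENNReal.summable.hasSum
  have h5 := (anj_hasSum (F := fun g => ∫⁻ z in XD, K (g • z)) h3).tsum_eq
  refine ne_of_eq_of_ne h5 ?_
  exact ENNReal.sum_ne_top.2 fun _ _ => ENNReal.mul_ne_top (by simp) h2

end Pool.Agent.Dih
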