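import Pool.Agent.Lib.MP_60ff09_nt.Dih.ANj

/-! The Mellin transform of the pairing is the Rankin-Selberg series. -/

set_option autoImplicit false

open Complex Filter Topology Set MeasureTheory CongruenceSubgroup NumberTheorySymbols
open UpperHalfPlane hiding I
open scoped Real MatrixGroups ComplexConjugate Modular Classical
open Pool.Agent.Lib.MP_696deb_nt Pool.Agent.Lib.MP_696deb_nt.Unif Pool.Agent.Shared.Weier

namespace Pool.Agent.Dih

variable {A : Par} {T : Finset Fm} {w : Fm → ℤ}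

private instance : Countable SL(2, ℤ) :=
  Function.Injective.countable (f := fun (g : SL(2, ℤ)) (i j : Fin 2) => g i j) fun _ _ e =>
    Matrix.SpecialLinearGroup.ext _ _ fun i j => congrFun (congrFun e i) j

/-- The condition on a term of the unfolded sum. -/
def j2C (x : ℕ × SL(2, ℤ)) (z : ℍ) : Prop :=
  x.1 ≠ 0 ∧ (15 : ℤ) ∣ x.1 * x.2 1 0 ∧ x.2 • z ∈ Str

/-- A term of the unfolded sum. -/
noncomputable def Par.j2H (A : Par) (T : Finset Fm) (w : Fm → ℤ) (s : ℂ) (x : ℕ × SL(2, ℤ))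
    (v : ℍ × ℝ) : ℂ :=
  if j2C x v.1 then (v.2 : ℂ) ^ s *
    (conj (f15 v.1) * v.1.im * A.thT T w v.1 v.2 (x.1 * x.2 1 0) (x.1 * x.2 1 1)) else 0

theorem j2_tsum (z : ℍ) {F : ℤ → ℤ → ℂ} (h0 : F 0 0 = 0) :
    ∑' x : ℕ × SL(2, ℤ), (if j2C x z then F (x.1 * x.2 1 0) (x.1 * x.2 1 1) else 0) =
      ∑' v : ℤ × ℤ, F (15 * v.1) v.2 := by
  obtain ⟨e, he⟩ := exists_equiv_row z
  set G : ℤ × ℤ → ℂ := fun v => if (15 : ℤ) ∣ v.1 then F v.1 v.2 else 0 with hG
  have h1 : ∑' v : ℤ × ℤ, F (15 * v.1) v.2 = ∑' v, G v := by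
    have inj : Function.Injective fun v : ℤ × ℤ => (15 * v.1, v.2) := fun a b e => by
      simp only [Prod.mk.injEq] at e
      exact Prod.ext (by omega) e.2
    rw [← inj.tsum_eq (f := G)]
    · simp [hG]
    · intro v hv
      by_cases hd : (15 : ℤ) ∣ v.1
      · obtain ⟨c, hc⟩ := hd
        exact ⟨(c, v.2), Prod.ext hc.symm rfl⟩
      · simp [hG, hd] at hv
  have h2 : ∑' v : {v : ℤ × ℤ // v ≠ 0}, G v = ∑' v, G v :=
    tsum_subtype_eq_of_support_subset (s := {v | v ≠ 0}) fun v hv e => by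
      subst e
      simp [hG, h0] at hv
  have h3 := tsum_subtype {x : ℕ × SL(2, ℤ) | x.1 ≠ 0 ∧ x.2 • z ∈ Str}
    fun x => G (x.1 * x.2 1 0, x.1 * x.2 1 1)
  rw [h1, ← h2, ← e.tsum_eq]
  simp only [he]
  refine Eq.trans (tsum_congr fun x => ?_) h3.symm
  by_cases hx : x.1 ≠ 0 ∧ x.2 • z ∈ Str
  · rw [indicator_of_mem (show x ∈ {x : ℕ × SL(2, ℤ) | x.1 ≠ 0 ∧ x.2 • z ∈ Str} from hx)]
    simp only [hG, j2C, hx.1, hx.2, ne_eq, not_false_eq_true, true_and, and_true]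
  · rw [indicator_of_notMem (show x ∉ {x : ℕ × SL(2, ℤ) | x.1 ≠ 0 ∧ x.2 • z ∈ Str} from hx),
      if_neg fun c => hx ⟨c.1, c.2.2⟩]

theorem Par.tsum_j2H (s : ℂ) (v : ℍ × ℝ) : ∑' x, A.j2H T w s x v =
    (v.2 : ℂ) ^ s * (conj (f15 v.1) * v.1.im * A.Th T w v.1 v.2) := by
  rw [Par.Th, ← tsum_mul_left, ← tsum_mul_left]
  exact j2_tsum v.1 (F := fun c d => (v.2 : ℂ) ^ s *
    (conj (f15 v.1) * v.1.im * A.thT T w v.1 v.2 c d)) (by simp [Par.thT])

theorem measurableSet_j2C (x : ℕ × SL(2, ℤ)) : MeasurableSet {z : ℍ | j2C x z} :=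
  (MeasurableSet.const _).inter ((MeasurableSet.const _).inter
    ((continuous_smul_int x.2).measurable measurableSet_Str))

theorem Par.Dat.continuous_FW (h : A.Dat T w) (c d : ℤ) :
    Continuous fun z : ℍ => A.FW T w c d z :=
  (h.continuousOn_FW c d).comp_continuous continuous_coe fun z => z.im_pos

theorem Par.Dat.measurable_j2H (h : A.Dat T w) (s : ℂ) (x : ℕ × SL(2, ℤ)) :
    Measurable (A.j2H T w s x) := by
  have h1 : Continuous fun z : ℍ => f15 z := qe_f15.hol.continuous_coe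
  have h2 := h.continuous_FW (x.1 * x.2 1 0) (x.1 * x.2 1 1)
  have h3 : Continuous fun z : ℍ => (z : ℂ) := continuous_coe
  have h4 : Continuous fun z : ℍ => z.im := UpperHalfPlane.continuous_im
  refine Measurable.ite (measurable_fst (measurableSet_j2C x)) (Measurable.mul
    ((measurable_ofReal.comp measurable_snd).pow_const s) (Continuous.measurable ?_))
    measurable_const
  unfold Par.thT
  refine Continuous.mul (((continuous_conj.comp h1).mul (continuous_ofReal.comp h4)).comp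
    continuous_fst) (Continuous.mul ((h2.mul ((continuous_const.mul
      (continuous_conj.comp h3)).add continuous_const)).comp continuous_fst) (continuous_ofReal.comp
    (Real.continuous_exp.comp (Continuous.div (by fun_prop) (by fun_prop) fun v => ?_))))
  exact v.1.im_pos.ne'

theorem Par.Dat.lintegral_term (h : A.Dat T w) {C : ℝ}
    (hC : ∀ z : ℂ, 0 < z.im → ‖f15 z‖ * z.im ≤ C) {s : ℂ} (hs : -1 < s.re) (z : ℍ) {k : ℕ}
    (hk : k ≠ 0) (g : SL(2, ℤ)) :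
    ∫⁻ t in Ioi (0 : ℝ), ‖(t : ℂ) ^ s *
      (conj (f15 z) * z.im * A.thT T w z t (k * g 1 0) (k * g 1 1))‖ₑ ≤
      ENNReal.ofReal (Real.Gamma (s.re + 1) * π ^ (-(s.re + 1)) * C * (k : ℝ) ^ (-(2 * s.re + 1))) *
        ENNReal.ofReal (‖A.FW T w 0 1 (g • z : ℍ)‖ * (g • z).im ^ (s.re + 1)) := by
  set σ := s.re with hσ
  set K : ℂ := conj (f15 z) * z.im * (A.FW T w (k * g 1 0) (k * g 1 1) z *
    (((k * g 1 0 : ℤ) : ℂ) * conj (z : ℂ) + (k * g 1 1 : ℤ))) with hK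
  set a : ℝ := π * normSq (((k * g 1 0 : ℤ) : ℂ) * z + (k * g 1 1 : ℤ)) / z.im with ha
  have a0 : 0 < a := by
    refine div_pos (mul_pos Real.pi_pos (normSq_pos.2 ?_)) z.im_pos
    have := den_ne (a := g 0 0) (b := g 0 1) (c := g 1 0) (d := g 1 1)
      (by rw [det_SL]; exact one_ne_zero) z.im_pos
    push_cast
    rw [mul_assoc, ← mul_add]
    exact mul_ne_zero (Nat.cast_ne_zero.2 hk) this
  have e1 : ∀ t : ℝ, conj (f15 z) * z.im * A.thT T w z t (k * g 1 0) (k * g 1 1) =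
      K * Real.exp (-a * t) := fun t => by
    have : -π * t * normSq (((k * g 1 0 : ℤ) : ℂ) * z + (k * g 1 1 : ℤ)) / (z : ℂ).im =
      -a * t := by rw [ha, coe_im]; ring
    rw [Par.thT, this, hK]
    ring
  have i1 : IntegrableOn (fun t : ℝ => t ^ σ * Real.exp (-a * t)) (Ioi 0) := by
    simpa using integrableOn_rpow_mul_exp_neg_mul_rpow hs one_pos a0
  have n1 : ∀ t ∈ Ioi (0 : ℝ), 0 ≤ t ^ σ * Real.exp (-a * t) := fun t ht =>
    mul_nonneg (Real.rpow_nonneg (le_of_lt ht) _) (Real.exp_pos _).le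
  have e2 := h.mellin_term (s := σ) (by simpa using hs) z hk g
  have e3 : ∫ t in Ioi (0 : ℝ), (t : ℂ) ^ (σ : ℂ) *
      (conj (f15 z) * z.im * A.thT T w z t (k * g 1 0) (k * g 1 1)) =
      K * (∫ t in Ioi (0 : ℝ), t ^ σ * Real.exp (-a * t) : ℝ) := by
    rw [← integral_complex_ofReal, ← integral_const_mul]
    refine setIntegral_congr_fun measurableSet_Ioi fun t ht => ?_
    simp only [e1]
    rw [ofReal_mul, ofReal_cpow (le_of_lt ht)]
    ring
  have e4 : ∫⁻ t in Ioi (0 : ℝ), ‖(t : ℂ) ^ s *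
      (conj (f15 z) * z.im * A.thT T w z t (k * g 1 0) (k * g 1 1))‖ₑ =
      ENNReal.ofReal (‖K‖ * ∫ t in Ioi (0 : ℝ), t ^ σ * Real.exp (-a * t)) := by
    rw [← integral_const_mul, ofReal_integral_eq_lintegral_ofReal (i1.const_mul _)]
    · refine setLIntegral_congr_fun measurableSet_Ioi fun t ht => ?_
      simp only [e1]
      rw [← ofReal_norm, norm_mul, norm_mul, norm_cpow_eq_rpow_re_of_pos ht, norm_real,
        Real.norm_of_nonneg (Real.exp_pos _).le]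
      congr 1
      ring
    · filter_upwards [ae_restrict_mem measurableSet_Ioi] with t ht
      exact mul_nonneg (norm_nonneg _) (n1 t ht)
  have G0 : 0 < Real.Gamma (σ + 1) := Real.Gamma_pos_of_pos (by linarith)
  have y0 := (g • z).im_pos
  have b1 := bd_sl hC (a := g 1 1) (b := -g 0 1) (c := -g 1 0) (d := g 0 0)
    (by have := det_SL g; nlinarith) (g • z : ℍ) y0
  have C0 : 0 ≤ C := le_trans (by positivity) b1
  rw [e4, ← ENNReal.ofReal_mul (by positivity)]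
  refine ENNReal.ofReal_le_ofReal ?_
  have e5 := congrArg norm (e3.symm.trans e2)
  rw [norm_mul, norm_real, Real.norm_of_nonneg (setIntegral_nonneg measurableSet_Ioi n1)] at e5
  have k0 : (0 : ℝ) < k := Nat.cast_pos.2 (Nat.pos_of_ne_zero hk)
  have J1 : ‖(J((k : ℤ) | A.n) : ℂ)‖ ≤ 1 := by
    rcases jacobiSym.trichotomy k A.n with e | e | e <;> simp [e]
  have e6 : ‖Gamma ((σ : ℂ) + 1)‖ = Real.Gamma (σ + 1) := by
    rw [← ofReal_one, ← ofReal_add, Gamma_ofReal, norm_real, Real.norm_of_nonneg G0.le]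
  have e7 : ‖(k : ℂ) ^ (-(2 * (σ : ℂ) + 1))‖ = (k : ℝ) ^ (-(2 * σ + 1)) := by
    rw [← ofReal_natCast, norm_cpow_eq_rpow_re_of_pos k0]
    simp
  have e8 : ‖(π : ℂ) ^ (-((σ : ℂ) + 1))‖ = π ^ (-(σ + 1)) := by
    rw [norm_cpow_eq_rpow_re_of_pos Real.pi_pos]
    simp
  have e9 : ‖((g • z).im : ℂ) ^ ((σ : ℂ) + 2)‖ = (g • z).im ^ (σ + 1) * (g • z).im := by
    rw [norm_cpow_eq_rpow_re_of_pos y0, ← Real.rpow_add_one y0.ne']
    congr 1
    simp
    ring
  rw [e5]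
  simp only [norm_mul, e6, e7, e8, e9, RCLike.norm_conj]
  rw [coe_im] at b1
  calc _ = Real.Gamma (σ + 1) * π ^ (-(σ + 1)) * (k : ℝ) ^ (-(2 * σ + 1)) *
        (‖A.FW T w 0 1 (g • z : ℍ)‖ * (g • z).im ^ (σ + 1)) * (‖(J((k : ℤ) | A.n) : ℂ)‖ *
        (‖sl (g 1 1) (-g 0 1) (-g 1 0) (g 0 0) f15 (g • z : ℍ)‖ * (g • z).im)) := by ring
    _ ≤ Real.Gamma (σ + 1) * π ^ (-(σ + 1)) * (k : ℝ) ^ (-(2 * σ + 1)) *
        (‖A.FW T w 0 1 (g • z : ℍ)‖ * (g • z).im ^ (σ + 1)) * (1 * C) := by gcongr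
    _ = _ := by ring

theorem Par.Dat.lintegral_j2H (h : A.Dat T w) {s : ℂ} (hs : 1 < s.re) :
    ∑' x, ∫⁻ v, ‖A.j2H T w s x v‖ₑ ∂(volume.restrict XD).prod (volume.restrict (Ioi 0)) ≠ ⊤ := by
  obtain ⟨C, hC⟩ := f15_bd
  have C0 : 0 ≤ C := le_trans (by simp) (hC I (by simp))
  set B : ℕ → ℝ := fun k =>
    Real.Gamma (s.re + 1) * π ^ (-(s.re + 1)) * C * (k : ℝ) ^ (-(2 * s.re + 1)) with hB
  have G0 : 0 < Real.Gamma (s.re + 1) := Real.Gamma_pos_of_pos (by linarith)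
  have B0 : ∀ k, 0 ≤ B k := fun k => by positivity
  have Bs : Summable B := (Real.summable_nat_rpow.2 (by linarith)).mul_left _
  have key : ∀ x : ℕ × SL(2, ℤ),
      ∫⁻ v, ‖A.j2H T w s x v‖ₑ ∂(volume.restrict XD).prod (volume.restrict (Ioi 0)) ≤
      ENNReal.ofReal (B x.1) * ∫⁻ z in XD, (if x.2 • z ∈ Str then
        ENNReal.ofReal (‖A.FW T w 0 1 (x.2 • z : ℍ)‖ * (x.2 • z).im ^ (s.re + 1)) else 0) := by
    intro x
    rw [lintegral_prod _ (h.measurable_j2H s x).enorm.aemeasurable,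
      ← lintegral_const_mul' _ _ ENNReal.ofReal_ne_top]
    refine lintegral_mono fun z => ?_
    by_cases hx : j2C x z
    · simp only [Par.j2H, if_pos hx, if_pos hx.2.2]
      exact h.lintegral_term hC (by linarith) z hx.1 x.2
    · simp [Par.j2H, if_neg hx]
  refine ne_top_of_le_ne_top ?_ (ENNReal.tsum_le_tsum key)
  rw [ENNReal.tsum_prod']
  simp only [ENNReal.tsum_mul_left, ENNReal.tsum_mul_right]
  refine ENNReal.mul_ne_top ?_ (h.unfold_abs hs)
  rw [← ENNReal.ofReal_tsum_of_nonneg B0 Bs]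
  exact ENNReal.ofReal_ne_top

theorem Par.Dat.mellin_Ii (h : A.Dat T w) {s : ℂ} (hs : 1 < s.re) :
    mellin (A.Ii T w) s = 2 * (15 * A.n : ℂ) ^ s * Gamma (s + 1) ^ 2 *
      ((π : ℂ) ^ (-(s + 1)) * (4 * π : ℂ) ^ (-(s + 1))) *
      (LSeries (e15 A.n) (2 * s + 1) * LSeries (fun m => (rW T w m * a15 m : ℤ)) (s + 1)) := by
  set μ : Measure (ℍ × ℝ) := (volume.restrict XD).prod (volume.restrict (Ioi 0)) with hμ
  have hl := h.lintegral_j2H hs
  have hm := h.measurable_j2H s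
  have i1 : ∀ x, Integrable (A.j2H T w s x) μ := fun x =>
    ⟨(hm x).aestronglyMeasurable, lt_of_le_of_lt (ENNReal.le_tsum x) hl.lt_top⟩
  have i2 : Integrable (fun v => ∑' x, A.j2H T w s x v) μ := by
    refine ⟨(Measurable.tsum hm).aestronglyMeasurable, lt_of_le_of_lt ?_ hl.lt_top⟩
    rw [← lintegral_tsum fun x => (hm x).enorm.aemeasurable]
    exact lintegral_mono fun v => enorm_tsum_le_tsum_enorm
  have s1 : Summable fun x => ∫ v, ‖A.j2H T w s x v‖ ∂μ := by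
    simp only [fun x => integral_norm_eq_lintegral_enorm (i1 x).1]
    exact ENNReal.summable_toReal hl
  have s2 := hasSum_integral_of_summable_integral_norm i1 s1
  set c : ℕ → ℂ := fun k => if k = 0 then 0 else
    Gamma (s + 1) * (π : ℂ) ^ (-(s + 1)) * (J((k : ℤ) | A.n) * (k : ℂ) ^ (-(2 * s + 1))) with hc
  have e1 : ∀ (k : ℕ) (g : SL(2, ℤ)), ∫ v, A.j2H T w s (k, g) v ∂μ =
      c k * ∫ z in XD, if (15 : ℤ) ∣ k * g 1 0 ∧ g • z ∈ Str then A.FW T w 0 1 (g • z : ℍ) *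
        conj (sl (g 1 1) (-g 0 1) (-g 1 0) (g 0 0) f15 (g • z : ℍ)) *
          ((g • z).im : ℂ) ^ (s + 2) else 0 := by
    intro k g
    rw [integral_prod _ (i1 _), ← integral_const_mul]
    refine integral_congr_ae (Eventually.of_forall fun z => ?_)
    by_cases hx : j2C (k, g) z
    · simp only [Par.j2H, if_pos hx, if_pos hx.2, hc, if_neg hx.1]
      exact h.mellin_term (by linarith) z hx.1 g
    · by_cases hk : k = 0
      · simp only [Par.j2H, if_neg hx, integral_zero, hc, if_pos hk, zero_mul]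
      · simp only [Par.j2H, if_neg hx, integral_zero]
        rw [if_neg fun e => hx ⟨hk, e⟩, mul_zero]
  have s3 := s2.prod_fiberwise fun k => by
    simp only [e1]
    exact (h.unfold_type hs k).mul_left (c k)
  have e2 : ∫ v, ∑' x, A.j2H T w s x v ∂μ = 2 * Gamma (s + 1) ^ 2 *
      ((π : ℂ) ^ (-(s + 1)) * (4 * π : ℂ) ^ (-(s + 1))) *
      (LSeries (e15 A.n) (2 * s + 1) * LSeries (fun m => (rW T w m * a15 m : ℤ)) (s + 1)) := by
    rw [← s3.tsum_eq, h.integral_theta hs, LSeries.eq_1 (e15 A.n), ← tsum_mul_right,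
      ← tsum_mul_left]
    refine tsum_congr fun k => ?_
    by_cases hk : k = 0
    · simp [hc, hk]
    · rw [LSeries.term_of_ne_zero hk, e15, div_eq_mul_inv, ← cpow_neg]
      simp only [hc, if_neg hk]
      split_ifs <;> ring
  have n0 : (0 : ℝ) < 15 * A.n := by have := h.ok.n_pos; positivity
  have e3 := mellin_comp_mul_left (fun t : ℝ => (t : ℂ) *
    ∫ z in XD, conj (f15 z) * z.im * A.Th T w z t) s (inv_pos.2 n0)
  have e4 : A.Ii T w = fun τ : ℝ => (((15 * A.n : ℝ)⁻¹ * τ : ℝ) : ℂ) *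
      ∫ z in XD, conj (f15 z) * z.im * A.Th T w z ((15 * A.n : ℝ)⁻¹ * τ) := by
    funext τ
    rw [Par.Ii, ← integral_const_mul]
    simp only [Par.Kk, div_eq_inv_mul, mul_left_comm]
  have e5 : mellin (fun t : ℝ => (t : ℂ) * ∫ z in XD, conj (f15 z) * z.im * A.Th T w z t) s =
      ∫ v, ∑' x, A.j2H T w s x v ∂μ := by
    rw [integral_prod_symm _ i2, mellin]
    refine setIntegral_congr_fun measurableSet_Ioi fun t ht => ?_
    simp only [Par.tsum_j2H, integral_const_mul, smul_eq_mul]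
    rw [← mul_assoc, cpow_sub _ _ (ofReal_ne_zero.2 (ne_of_gt ht)), cpow_one,
      div_mul_cancel₀ _ (ofReal_ne_zero.2 (ne_of_gt ht))]
  rw [e4, e3, e5, e2, ofReal_inv, inv_cpow _ _ (by
    rw [arg_ofReal_of_nonneg n0.le]; exact Real.pi_ne_zero.symm), cpow_neg, inv_inv, smul_eq_mul]
  push_cast
  ring

end Pool.Agent.Dih
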