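import Pool.Agent.Lib.MP_60ff09_nt.Dih.ANh2
import Pool.Agent.Lib.MP_60ff09_nt.Dih.ANf

/-! Analytic continuation and the central derivative. -/

set_option autoImplicit false

open Complex Filter Topology Set MeasureTheory CongruenceSubgroup NumberTheorySymbols
open UpperHalfPlane hiding I
open scoped Real MatrixGroups ComplexConjugate Modular
open Pool.Agent.Lib.MP_696deb_nt Pool.Agent.Lib.MP_696deb_nt.Unif Pool.Agent.Shared.Weier

namespace Pool.Agent.Dih

variable {A : Par} {T : Finset Fm} {w : Fm → ℤ}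

theorem ANk_red {B : ℍ → ℝ} {C r : ℝ} (hr : 0 ≤ r)
    (h : ∀ g : SL(2, ℤ), ∀ z ∈ 𝒟, B (g • z) ≤ C * Real.exp (-π * z.im / A.n) * r) (z : ℍ) :
    B z ≤ |C| * r := by
  obtain ⟨g, hg⟩ := ModularGroup.exists_smul_mem_fd z
  have h1 := h g⁻¹ _ hg
  rw [inv_smul_smul] at h1
  refine h1.trans (mul_le_mul_of_nonneg_right ?_ hr)
  have h2 : Real.exp (-π * (g • z).im / A.n) ≤ 1 := by
    rw [Real.exp_le_one_iff]
    refine div_nonpos_of_nonpos_of_nonneg ?_ (Nat.cast_nonneg _)
    have := mul_pos Real.pi_pos (g • z).im_pos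
    linarith
  calc C * Real.exp (-π * (g • z).im / A.n) ≤ |C| * Real.exp (-π * (g • z).im / A.n) :=
        mul_le_mul_of_nonneg_right (le_abs_self C) (Real.exp_pos _).le
    _ ≤ |C| := mul_le_of_le_one_right (abs_nonneg C) h2

theorem ANk_f15 : ∃ C : ℝ, 0 ≤ C ∧ ∀ z : ℍ, ‖conj (f15 z) * z.im‖ ≤ C := by
  obtain ⟨C, hC⟩ := f15_bd
  refine ⟨|C|, abs_nonneg C, fun z => ?_⟩
  rw [norm_mul, Complex.norm_conj, Complex.norm_real, Real.norm_of_nonneg z.im_pos.le]
  exact (hC z z.im_pos).trans (le_abs_self C)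

theorem ANk_cont_f15 : Continuous fun z : ℍ => conj (f15 z) * (z.im : ℂ) := by
  have h1 : Continuous fun z : ℍ => f15 z := continuous_iff_continuousAt.2 fun z =>
    (qe_f15.hol z z.im_pos).continuousAt.comp UpperHalfPlane.continuous_coe.continuousAt
  exact (Complex.continuous_conj.comp h1).mul
    (Complex.continuous_ofReal.comp UpperHalfPlane.continuous_im)

theorem ANk_min (h : A.Dat T w) : ∃ C : ℝ, 0 ≤ C ∧ ∀ z : ℍ, ∀ τ : ℝ, 0 < τ →
    ‖conj (f15 z) * z.im * A.Kk T w z τ‖ ≤ C * min τ τ⁻¹ := by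
  obtain ⟨C, hC⟩ := h.norm_Kk_le'
  obtain ⟨D, hD, hD'⟩ := ANk_f15
  refine ⟨D * |C|, by positivity, fun z τ hτ => ?_⟩
  rw [norm_mul, mul_assoc]
  exact mul_le_mul (hD' z) (ANk_red (B := fun z => ‖A.Kk T w z τ‖) (by positivity)
    (fun g z hz => hC g z hz τ hτ) z) (norm_nonneg _) hD

theorem ANk_le (h : A.Dat T w) (k : ℕ) : ∃ C : ℝ, ∀ τ : ℝ, 0 < τ →
    ‖A.Ii T w τ‖ ≤ C * (τ ^ (k + 1))⁻¹ := by
  obtain ⟨C, hC⟩ := h.norm_Kk_le k
  obtain ⟨D, hD, hD'⟩ := ANk_f15
  refine ⟨D * |C| * volume.real XD, fun τ hτ => ?_⟩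
  refine (norm_setIntegral_le_of_norm_le_const (C := D * (|C| * (τ ^ (k + 1))⁻¹)) volume_XD_lt
    fun z _ => ?_).trans_eq (by ring)
  rw [norm_mul]
  exact mul_le_mul (hD' z) (ANk_red (B := fun z => ‖A.Kk T w z τ‖) (by positivity)
    (fun g z hz => hC g z hz τ hτ) z) (norm_nonneg _) hD

theorem ANk_inv (h : A.Dat T w) {τ : ℝ} (hτ : 0 < τ) : A.Ii T w τ⁻¹ = -A.Ii T w τ := by
  unfold Par.Ii
  rw [← integral_neg]
  congr 1
  funext z
  rw [h.Kk_inv z.im_pos hτ, mul_neg]

theorem ANk_cont (h : A.Dat T w) : ContinuousOn (A.Ii T w) (Ioi 0) := by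
  obtain ⟨C, hC, hC'⟩ := ANk_min h
  have : IsFiniteMeasure (volume.restrict XD) := isFiniteMeasure_restrict.2 volume_XD_lt.ne
  refine continuousOn_of_dominated (bound := fun _ => C) (fun τ hτ => ?_)
    (fun τ hτ => Eventually.of_forall fun z => (hC' z τ hτ).trans ?_) (integrable_const C)
    (Eventually.of_forall fun z => ?_)
  · exact (ANk_cont_f15.mul (h.continuousOn_Kk.comp_continuous
      (UpperHalfPlane.continuous_coe.prodMk continuous_const)
      fun z => ⟨z.im_pos, hτ⟩)).aestronglyMeasurable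
  · refine mul_le_of_le_one_right hC ?_
    rcases le_total τ 1 with h1 | h1
    · exact (min_le_left _ _).trans h1
    · exact (min_le_right _ _).trans (inv_le_one_of_one_le₀ h1)
  · exact continuousOn_const.mul (h.continuousOn_Kk.comp
      (continuous_const.prodMk continuous_id).continuousOn fun τ hτ => ⟨z.im_pos, hτ⟩)

theorem ANk_deriv (h : A.Dat T w) (s : ℂ) : HasDerivAt (mellin (A.Ii T w))
    (mellin (fun t => Real.log t • A.Ii T w t) s) s := by
  obtain ⟨k, hk⟩ := exists_nat_gt |s.re|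
  obtain ⟨C, hC⟩ := ANk_le h k
  have hk' := abs_lt.1 hk
  refine (mellin_hasDerivAt_of_isBigO_rpow (a := ((k + 1 : ℕ) : ℝ)) (b := -((k + 1 : ℕ) : ℝ))
    ((ANk_cont h).locallyIntegrableOn measurableSet_Ioi) ?_ (by push_cast; linarith) ?_
    (by push_cast; linarith)).2
  · refine Asymptotics.IsBigO.of_bound C ?_
    filter_upwards [eventually_gt_atTop 0] with τ hτ
    rw [Real.rpow_neg hτ.le, Real.rpow_natCast, Real.norm_of_nonneg (by positivity)]
    exact hC τ hτ
  · refine Asymptotics.IsBigO.of_bound C ?_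
    filter_upwards [self_mem_nhdsWithin] with τ hτ
    have hτ' : 0 < τ := hτ
    have h1 := hC τ⁻¹ (inv_pos.2 hτ')
    rw [ANk_inv h hτ', norm_neg, inv_pow, inv_inv] at h1
    rw [neg_neg, Real.rpow_natCast, Real.norm_of_nonneg (by positivity)]
    exact h1

theorem Par.Dat.differentiable_mellin (h : A.Dat T w) : Differentiable ℂ (mellin (A.Ii T w)) := by
  exact fun s => (ANk_deriv h s).differentiableAt

theorem Par.Dat.mellin_zero (h : A.Dat T w) : mellin (A.Ii T w) 0 = 0 := by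
  have h1 := mellin_comp_inv (A.Ii T w) 0
  have h2 : mellin (fun t => A.Ii T w t⁻¹) 0 = -mellin (A.Ii T w) 0 := by
    unfold mellin
    rw [← integral_neg]
    refine setIntegral_congr_fun measurableSet_Ioi fun t ht => ?_
    simp only [ANk_inv h ht, smul_neg]
  rw [neg_zero, h2] at h1
  linear_combination (-1 / 2 : ℂ) * h1

theorem Par.Dat.deriv_mellin (h : A.Dat T w) : deriv (mellin (A.Ii T w)) 0 =
    ∫ z in XD, conj (f15 z) * A.Phi T w z * (z.im : ℂ) ^ 2 := by
  obtain ⟨C, hC, hC'⟩ := ANk_min h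
  have : IsFiniteMeasure (volume.restrict XD) := isFiniteMeasure_restrict.2 volume_XD_lt.ne
  have hI : Integrable (Function.uncurry fun (z : ℍ) (τ : ℝ) =>
      ((Real.log τ / τ : ℝ) : ℂ) * (conj (f15 z) * z.im * A.Kk T w z τ))
      ((volume.restrict XD).prod (volume.restrict (Ioi 0))) := by
    refine Integrable.mono' ((Integrable.comp_snd integrableOn_log_min _).const_mul C) ?_ ?_
    · exact ((Complex.measurable_ofReal.comp ((Real.measurable_log.comp measurable_snd).div
        measurable_snd)).aestronglyMeasurable).mul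
        ((ANk_cont_f15.measurable.comp measurable_fst).aestronglyMeasurable.mul (h.aemeas_Kk _))
    · filter_upwards [Measure.quasiMeasurePreserving_snd.ae (ae_restrict_mem measurableSet_Ioi)]
        with v hv
      have hv' : 0 < v.2 := hv
      show ‖((Real.log v.2 / v.2 : ℝ) : ℂ) * _‖ ≤ _
      rw [norm_mul, Complex.norm_real, Real.norm_eq_abs, abs_div, abs_of_pos hv', mul_left_comm]
      exact mul_le_mul_of_nonneg_left (hC' v.1 v.2 hv') (by positivity)
  rw [(ANk_deriv h 0).deriv]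
  have h1 : mellin (fun t => Real.log t • A.Ii T w t) 0 = ∫ τ in Ioi (0 : ℝ), ∫ z in XD,
      ((Real.log τ / τ : ℝ) : ℂ) * (conj (f15 z) * z.im * A.Kk T w z τ) := by
    unfold mellin
    refine setIntegral_congr_fun measurableSet_Ioi fun t _ => ?_
    simp only [integral_const_mul, zero_sub, Complex.cpow_neg_one, Complex.real_smul, smul_eq_mul,
      Par.Ii]
    push_cast
    ring
  rw [h1, ← integral_integral_swap hI]
  congr 1
  funext z
  have hz : ((z.im : ℝ) : ℂ) ≠ 0 := by exact_mod_cast z.im_pos.ne'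
  simp only [mul_left_comm _ (conj (f15 z) * z.im), integral_const_mul, Par.Phi, coe_im]
  field_simp

end Pool.Agent.Dih
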