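import Pool.Agent.Lib.MP_60ff09_nt.Dih.ANg

/-! A uniform bound for the Cauchy transform on the modular curve. -/

set_option autoImplicit false

open Complex Filter Topology Set MeasureTheory CongruenceSubgroup NumberTheorySymbols
open UpperHalfPlane hiding I
open scoped Real MatrixGroups ComplexConjugate Modular
open Pool.Agent.Lib.MP_696deb_nt Pool.Agent.Lib.MP_696deb_nt.Unif Pool.Agent.Shared.Weier

namespace Pool.Agent.Dih

theorem Zk_add {l : ℂ} (hl : l ∈ L15.lattice) (v : ℂ) (hv : v ∉ L15.lattice) :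
    Zk (v + l) = Zk v := by
  rw [Zk, Zk, zet_add hl hv, map_add, add_sub_add_right_eq_sub]

theorem anl_cont {v : ℂ} (hv : v ∉ L15.lattice) : ContinuousAt Zk v :=
  (analyticAt_zet hv).continuousAt.sub (eta L15).continuous.continuousAt

theorem measurable_Zk : Measurable Zk := by
  exact measurable_of_countable_not_continuousAt
    ((Unif.countable_lattice L15).mono fun _ h => by_contra fun h' => h (anl_cont h'))

theorem anl_ae : ∀ᵐ u : ℂ, u ∉ L15.lattice := (Unif.countable_lattice L15).ae_notMem _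

theorem anl_near (x : ℂ) : ∃ B : ℂ → ℂ, ContinuousAt B 0 ∧
    ∀ u ∉ L15.lattice, Zk (u + x) = B u / u := by
  by_cases hx : x ∈ L15.lattice
  · refine ⟨fun u => 1 + u * (zet0 L15 u - eta L15 u), continuousAt_const.add (continuousAt_id.mul
      (analyticAt_zet0.continuousAt.sub (eta L15).continuous.continuousAt)), fun u hu => ?_⟩
    rw [Zk_add hx u hu, Zk, zet, add_div, mul_div_cancel_left₀ _ (ne_zero_of_notMem hu),
      add_sub_assoc]
  · exact ⟨fun u => u * Zk (u + x), continuousAt_id.mul ((anl_cont hx).comp_of_eq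
      (continuous_add_const x).continuousAt (zero_add x)),
      fun u hu => (mul_div_cancel_left₀ _ (ne_zero_of_notMem hu)).symm⟩

theorem anl_loc {r : ℝ} (h0 : 0 < r) (h2 : r < 2) : LocallyIntegrable fun u => ‖Zk u‖ ^ r := by
  intro x
  obtain ⟨B, hB, h⟩ := anl_near x
  obtain ⟨ε, hε, h1⟩ := Metric.eventually_nhds_iff_ball.1
    (hB.norm.eventually (eventually_le_nhds (lt_add_one _)))
  refine ⟨_, Metric.ball_mem_nhds x hε, ?_⟩
  rw [← (measurePreserving_add_right volume x).integrableOn_comp_preimage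
    (MeasurableEquiv.addRight x).measurableEmbedding, Metric.preimage_add_right_ball, sub_self]
  refine integrableOn_ball_of_norm_le_rpow (C := (‖B 0‖ + 1) ^ r) (α := r) (by simp) (by simpa)
    ?_ (((measurable_Zk.norm.pow_const r).comp (measurable_add_const x)).aestronglyMeasurable)
  filter_upwards [ae_restrict_of_ae anl_ae, ae_restrict_mem measurableSet_ball] with u hu hb
  rw [Function.comp_apply, Real.norm_of_nonneg (by positivity), h u hu, norm_div,
    Real.div_rpow (norm_nonneg _) (norm_nonneg _), Real.rpow_neg (norm_nonneg _), div_eq_mul_inv]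
  have := h1 u hb
  gcongr

theorem lintegral_Zk_rpow {r : ℝ} (h0 : 0 < r) (h2 : r < 2) (R : ℝ) : ∃ C : ℝ, ∀ v : ℂ,
    ∫⁻ u in Metric.closedBall (0 : ℂ) R, ENNReal.ofReal (‖Zk (v - u)‖ ^ r) ≤ ENNReal.ofReal C := by
  refine ⟨_, fun v => le_trans ?_ (ENNReal.ofReal_toReal (((anl_loc h0 h2).integrableOn_isCompact
    (isCompact_closedBall 0 (∑ i, ‖L15.basis i‖ + R))).setLIntegral_lt_top.ne)).ge⟩
  have h1 : (ZSpan.floor L15.basis v : ℂ) ∈ L15.lattice := by
    rw [L15.lattice_eq_span_range_basis]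
    exact (ZSpan.floor L15.basis v).2
  have h3 := Measure.measurePreserving_sub_left (volume : Measure ℂ) (ZSpan.fract L15.basis v)
  refine le_trans ?_ (h3.setLIntegral_comp_preimage_emb
    (MeasurableEquiv.subLeft _).measurableEmbedding _ _).le
  refine (lintegral_congr_ae (ae_restrict_of_ae ?_)).trans_le (lintegral_mono_set fun u hu => ?_)
  · filter_upwards [h3.quasiMeasurePreserving.ae anl_ae] with u hu
    rw [← Zk_add h1 _ hu, ZSpan.fract_apply, sub_add_eq_add_sub, sub_add_cancel]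
  · exact mem_closedBall_zero_iff.2
      (norm_sub_le_of_le (ZSpan.norm_fract_le _ _) (mem_closedBall_zero_iff.1 hu))

theorem lintegral_Zk_XD {r : ℝ} (h0 : 0 < r) (h2 : r < 2) : ∃ C : ℝ, ∀ v : ℂ,
    ∫⁻ z in XD, ENNReal.ofReal (‖Zk (v - Fi z)‖ ^ r * (‖f15 z‖ * z.im) ^ 2) ≤
      ENNReal.ofReal C := by
  obtain ⟨R, hR⟩ := Fi_bdd_XD
  obtain ⟨C, hC⟩ := lintegral_Zk_rpow h0 h2 R
  refine ⟨C, fun v => le_trans ?_ ((lintegral_mono_set (s := Fi '' ((↑) '' XD)) ?_).trans (hC v))⟩
  · have h1 := measurableEmbedding_coe.measurableSet_image.2 measurableSet_XD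
    have h3 : MeasurePreserving UpperHalfPlane.coe (volume.comap UpperHalfPlane.coe)
        (volume.restrict (range UpperHalfPlane.coe)) :=
      ⟨measurable_coe, measurableEmbedding_coe.map_comap _⟩
    rw [lintegral_image_eq_lintegral_abs_det_fderiv_mul volume h1 (f' := fun z =>
      (ContinuousLinearMap.toSpanSingleton ℂ (2 * π * I * f15 z)).restrictScalars ℝ)
      (forall_mem_image.2 fun z _ => ((hasDerivAt_Fi z.im_pos).hasFDerivAt.restrictScalars
        ℝ).hasFDerivWithinAt) (forall_mem_image.2 fun z hz => forall_mem_image.2 fun w hw e =>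
          congrArg _ (eq_of_eqv hz hw ((sub_mem_iff z.im_pos w.im_pos).1
            (by rw [e, sub_self]; exact zero_mem _)))), volume_def,
      restrict_withDensity measurableSet_XD, ← inter_eq_self_of_subset_left (image_subset_range _ _),
      ← Measure.restrict_restrict h1, ← h3.setLIntegral_comp_emb measurableEmbedding_coe]
    refine (lintegral_withDensity_le_lintegral_mul _ (by fun_prop) _).trans
      (lintegral_mono fun z => ?_)
    rw [Pi.mul_apply, ← ENNReal.ofReal_coe_nnreal, ← ENNReal.ofReal_mul (by positivity),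
      ← ENNReal.ofReal_mul (by positivity)]
    refine ENNReal.ofReal_le_ofReal ?_
    have h5 : 1 ≤ 2 * |π| := by linarith [Real.pi_gt_three, le_abs_self π]
    simp [ContinuousLinearMap.det, LinearMap.det_restrictScalars, Algebra.norm_complex_eq,
      Complex.normSq_eq_norm_sq]
    rw [mul_pow, mul_left_comm, mul_left_comm _ (_ ^ 2), inv_mul_cancel₀ (pow_pos z.im_pos 2).ne',
      mul_one, mul_comm]
    gcongr
    exact le_mul_of_one_le_left (norm_nonneg _) h5
  · rintro _ ⟨_, ⟨z, hz, rfl⟩, rfl⟩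
    exact mem_closedBall_zero_iff.2 (hR z hz)

theorem anl_ineq {Z φ ψ s C K : ℝ} (hZ : 0 ≤ Z) (hφ : 0 < φ) (hψ : 0 ≤ ψ) (s1 : s ≤ 1)
    (h1 : ψ ≤ C) (h2 : ψ ≤ K * φ ^ s) : Z * φ * ψ ≤ C + K * (Z ^ (2 - s) * φ ^ 2) := by
  have h3 : Z * φ ≤ 1 + (Z * φ) ^ (2 - s) := by
    rcases le_total (Z * φ) 1 with h | h
    · exact h.trans (le_add_of_nonneg_right (by positivity))
    · exact (Real.self_le_rpow_of_one_le h (by linarith)).trans (le_add_of_nonneg_left one_pos.le)
  have h4 : (Z * φ) ^ (2 - s) * (K * φ ^ s) = K * (Z ^ (2 - s) * φ ^ 2) := by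
    rw [Real.mul_rpow hZ hφ.le, Real.rpow_sub hφ, Real.rpow_two]
    have : φ ^ s ≠ 0 := by positivity
    field_simp
  calc _ ≤ (1 + (Z * φ) ^ (2 - s)) * ψ := by gcongr
    _ ≤ _ := by
      rw [add_mul, one_mul, ← h4]
      gcongr

theorem Dec.lintegral_Zk {Φ : ℂ → ℂ} (h : Dec Φ) : ∃ C : ℝ, ∀ v : ℂ,
    ∫⁻ z in XD, ‖Zk (v - Fi z) * (conj (Φ z) * f15 z * (z.im : ℂ) ^ 2)‖ₑ ≤ ENNReal.ofReal C := by
  obtain ⟨δ, C, hδ, hC⟩ := h.dec
  obtain ⟨c, hc, hf⟩ := f15_lower
  set s := min 1 (δ / (2 * π))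
  have s0 : 0 < s := lt_min one_pos (by positivity)
  have s1 : s ≤ 1 := min_le_left _ _
  have s2 : s * (2 * π) ≤ δ := (le_div_iff₀ (by positivity)).1 (min_le_right _ _)
  obtain ⟨B, hB⟩ := lintegral_Zk_XD (r := 2 - s) (by linarith) (by linarith)
  refine ⟨_, fun v => le_trans ?_ (ENNReal.ofReal_toReal (a := ENNReal.ofReal C * volume XD +
    ENNReal.ofReal (C / c ^ s) * ENNReal.ofReal B) (ENNReal.add_ne_top.2
      ⟨ENNReal.mul_ne_top ENNReal.ofReal_ne_top volume_XD_lt.ne,
        ENNReal.mul_ne_top ENNReal.ofReal_ne_top ENNReal.ofReal_ne_top⟩)).ge⟩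
  refine le_trans ?_ (add_le_add le_rfl (mul_le_mul_right (hB v) _))
  rw [← setLIntegral_const, ← lintegral_const_mul' _ _ ENNReal.ofReal_ne_top,
    ← lintegral_add_left measurable_const]
  refine setLIntegral_mono_ae' measurableSet_XD (.of_forall fun z hz => ?_)
  obtain ⟨q, w, hw, e⟩ := exists_of_mem_XD hz
  have h1 := hC q.out⁻¹ w hw
  have h2 := hf q.out⁻¹ w hw
  rw [← e] at h1 h2
  have h3 := z.im_pos
  have h4 := w.im_pos
  have hC0 : 0 ≤ C := nonneg_of_mul_nonneg_left (le_trans (by positivity) h1) (Real.exp_pos _)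
  rw [← ofReal_norm, ← ENNReal.ofReal_mul (by positivity),
    ← ENNReal.ofReal_add hC0 (by positivity)]
  refine ENNReal.ofReal_le_ofReal ?_
  have h5 : ‖Zk (v - Fi z) * (conj (Φ z) * f15 z * (z.im : ℂ) ^ 2)‖ =
      ‖Zk (v - Fi z)‖ * (‖f15 z‖ * z.im) * (‖Φ z‖ * z.im) := by
    simp only [norm_mul, norm_pow, norm_conj, norm_real, Real.norm_of_nonneg h3.le]
    ring
  rw [h5]
  refine anl_ineq (norm_nonneg _) (lt_of_lt_of_le (by positivity) h2) (by positivity) s1
    (h1.trans (mul_le_of_le_one_right hC0 (Real.exp_le_one_iff.2 (by nlinarith)))) (h1.trans ?_)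
  calc C * Real.exp (-δ * w.im) ≤ C * Real.exp (-2 * π * w.im * s) :=
        mul_le_mul_of_nonneg_left (Real.exp_le_exp.2 (by nlinarith)) hC0
    _ = C / c ^ s * (c * Real.exp (-2 * π * w.im)) ^ s := by
        rw [Real.mul_rpow hc.le (Real.exp_pos _).le, ← Real.exp_mul, ← mul_assoc,
          div_mul_cancel₀ _ (by positivity)]
    _ ≤ _ := mul_le_mul_of_nonneg_left (Real.rpow_le_rpow (by positivity) h2 s0.le)
        (by positivity)

end Pool.Agent.Dih
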