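import Pool.Agent.Lib.MP_60ff09_nt.Dih.ANf

/-! A residue computation on horocycles. -/

set_option autoImplicit false

open Complex Filter Topology Set MeasureTheory CongruenceSubgroup NumberTheorySymbols
open UpperHalfPlane hiding I
open scoped Real MatrixGroups ComplexConjugate Modular Classical
open Pool.Agent.Lib.MP_696deb_nt Pool.Agent.Lib.MP_696deb_nt.Unif Pool.Agent.Shared.Weier

namespace Pool.Agent.Dih

/-- The residue theorem for simple poles in a disc. -/
theorem anm_res {k : ℂ → ℂ} {R : ℝ} (hR : 0 < R) (S : Finset ℂ) (ρ : ℂ → ℂ)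
    (hS : ∀ s ∈ S, ‖s‖ < R) (hd : ∀ q, ‖q‖ ≤ R → q ∉ S → DifferentiableAt ℂ k q)
    (hl : ∀ s ∈ S, ∃ L, Tendsto (fun q => k q - ρ s * (q - s)⁻¹) (𝓝[≠] s) (𝓝 L)) :
    ∮ q in C(0, R), k q = 2 * π * I * ∑ s ∈ S, ρ s := by
  have ht : ∀ (s q : ℂ), q ≠ s → DifferentiableAt ℂ (fun q => ρ s * (q - s)⁻¹) q := fun s q h =>
    ((differentiableAt_id.sub_const s).inv (sub_ne_zero.mpr h)).const_mul _
  set g : ℂ → ℂ := fun q => k q - ∑ s ∈ S, ρ s * (q - s)⁻¹ with hg
  have hgd : ∀ q, ‖q‖ ≤ R → q ∉ S → DifferentiableAt ℂ g q := fun q h1 h2 =>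
    (hd q h1 h2).sub (DifferentiableAt.fun_sum fun s hs => ht s q fun e => h2 (e ▸ hs))
  have hgl : ∀ s ∈ S, ∃ L, Tendsto g (𝓝[≠] s) (𝓝 L) := fun s hs => by
    obtain ⟨L, hL⟩ := hl s hs
    have h1 : ContinuousAt (fun q => ∑ t ∈ S.erase s, ρ t * (q - t)⁻¹) s :=
      (DifferentiableAt.fun_sum fun t h => ht t s (Finset.ne_of_mem_erase h).symm).continuousAt
    refine ⟨_, (hL.sub (h1.tendsto.mono_left nhdsWithin_le_nhds)).congr fun q => ?_⟩
    simp only [hg, ← Finset.add_sum_erase S _ hs]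
    ring
  choose! L hL using hgl
  set g' : ℂ → ℂ := fun q => if q ∈ S then L q else g q with hg'
  have heq : ∀ q ∉ S, g' =ᶠ[𝓝 q] g := fun q hq => by
    filter_upwards [S.finite_toSet.isClosed.isOpen_compl.mem_nhds hq] with p hp
    exact if_neg hp
  have hsp : ∀ q ∈ Metric.sphere (0 : ℂ) R, q ∉ S := fun q hq h =>
    (hS q h).ne (by simpa using hq)
  have h0 : ∮ q in C(0, R), g' q = 0 := by
    refine circleIntegral_eq_zero_of_differentiable_on_off_countable hR.le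
      S.countable_toSet (fun q hq => ContinuousAt.continuousWithinAt ?_) fun q hq => ?_
    · by_cases h : q ∈ S
      · rw [← continuousWithinAt_compl_self, ContinuousWithinAt, show g' q = L q from if_pos h]
        refine (hL q h).congr' ?_
        filter_upwards [self_mem_nhdsWithin, mem_nhdsWithin_of_mem_nhds
          ((S.erase q).finite_toSet.isClosed.isOpen_compl.mem_nhds (by simp))] with p h1 h2
        exact (if_neg fun e => h2 (Finset.mem_erase.mpr ⟨h1, e⟩)).symm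
      · exact ((hgd q (by simpa using hq) h).congr_of_eventuallyEq (heq q h)).continuousAt
    · exact (hgd q (le_of_lt (by simpa using hq.1)) hq.2).congr_of_eventuallyEq (heq q hq.2)
  have h1 : ∮ q in C(0, R), g q = 0 :=
    (circleIntegral.integral_congr hR.le fun q hq => (if_neg (hsp q hq)).symm).trans h0
  have hi : ∀ s ∈ S, CircleIntegrable (fun q => ρ s * (q - s)⁻¹) 0 R := fun s hs =>
    ContinuousOn.circleIntegrable hR.le fun q hq =>
      (ht s q fun e => hsp q hq (e ▸ hs)).continuousAt.continuousWithinAt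
  rw [hg, circleIntegral.integral_sub (ContinuousOn.circleIntegrable hR.le fun q hq =>
      (hd q (le_of_eq (by simpa using hq)) (hsp q hq)).continuousAt.continuousWithinAt)
    (ContinuousOn.circleIntegrable hR.le fun q hq => (DifferentiableAt.fun_sum fun s hs =>
      ht s q fun e => hsp q hq (e ▸ hs)).continuousAt.continuousWithinAt),
    circleIntegral.integral_fun_sum hi, sub_eq_zero] at h1
  rw [h1, Finset.mul_sum]
  refine Finset.sum_congr rfl fun s hs => ?_
  rw [circleIntegral.integral_const_mul,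
    circleIntegral.integral_sub_inv_of_mem_ball (by simpa using hS s hs), mul_comm]

theorem anm_circle (F : ℂ → ℂ) (y : ℝ) :
    ∮ q in C(0, Real.exp (-2 * π * y)), F q =
      2 * π * I * ∫ x in (0 : ℝ)..1, F (q1 (x + y * I)) * q1 (x + y * I) := by
  have h1 : ∀ x : ℝ, circleMap 0 (Real.exp (-2 * π * y)) (2 * π * x) = q1 (x + y * I) := by
    intro x
    simp only [circleMap, q1, zero_add, ofReal_exp, ← Complex.exp_add]
    congr 1
    push_cast
    linear_combination (-2 * π * y) * I_mul_I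
  have h2 := intervalIntegral.smul_integral_comp_mul_left (a := 0) (b := 1)
    (fun θ : ℝ => deriv (circleMap 0 (Real.exp (-2 * π * y))) θ •
      F (circleMap 0 (Real.exp (-2 * π * y)) θ)) (2 * π)
  rw [mul_zero, mul_one] at h2
  rw [circleIntegral, ← h2]
  simp only [deriv_circleMap, h1, smul_eq_mul, real_smul]
  rw [mul_assoc _ I, ← intervalIntegral.integral_const_mul I]
  push_cast
  congr 2 with x
  ring

/-- The local form of the zeta function at a simple pole. -/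
theorem anm_loc {G φ : ℂ → ℂ} {s c : ℂ} (hG : AnalyticAt ℂ G s) (h1 : deriv G s ≠ 0)
    (hφ : DifferentiableAt ℂ φ s) (hc : G s - c ∈ L15.lattice) :
    (∀ᶠ q in 𝓝[≠] s, G q - c ∉ L15.lattice) ∧ ∃ L,
      Tendsto (fun q => zet L15 (G q - c) * φ q - φ s / deriv G s * (q - s)⁻¹) (𝓝[≠] s) (𝓝 L) := by
  have hD : DifferentiableAt ℂ (dslope G s) s := by
    obtain ⟨p, hp⟩ := hG
    exact hp.has_fpower_series_dslope_fslope.differentiableAt
  have hD0 : dslope G s s ≠ 0 := by rwa [dslope_same]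
  have hu : Tendsto (fun q => G q - G s) (𝓝[≠] s) (𝓝 0) := by
    simpa using (hG.continuousAt.tendsto.sub_const (G s)).mono_left nhdsWithin_le_nhds
  have hne : ∀ᶠ q in 𝓝[≠] s, dslope G s q ≠ 0 :=
    mem_nhdsWithin_of_mem_nhds (hD.continuousAt.eventually_ne hD0)
  have he : ∀ q, G q - G s = (q - s) * dslope G s q := fun q => (sub_smul_dslope G s q).symm
  have hn : ∀ᶠ q in 𝓝[≠] s, G q - G s ∉ L15.lattice := by
    refine (tendsto_nhdsWithin_iff.mpr ⟨hu, ?_⟩).eventually (Shared.Weier.ev_notMem (L := L15) 0)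
    filter_upwards [hne, self_mem_nhdsWithin] with q h2 h3
    rw [he]
    exact mul_ne_zero (sub_ne_zero.mpr h3) h2
  refine ⟨hn.mono fun q h2 h3 => h2 (by simpa using sub_mem h3 hc), ?_⟩
  have h4 := hasDerivAt_iff_tendsto_slope.mp (hφ.div hD hD0).hasDerivAt
  have h5 := (((analyticAt_zet0 (L := L15)).continuousAt.tendsto.comp hu).add_const
    (eta L15 (G s - c))).mul (hφ.continuousAt.tendsto.mono_left nhdsWithin_le_nhds)
  refine ⟨_, (h4.add h5).congr' ?_⟩
  filter_upwards [hn, hne, self_mem_nhdsWithin] with q h2 h3 h6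
  have h7 : q - s ≠ 0 := sub_ne_zero.mpr h6
  rw [show G q - c = (G q - G s) + (G s - c) by ring, zet_add hc h2, zet, slope_def_field]
  simp only [Function.comp, Pi.div_apply, dslope_same]
  rw [show 1 / (G q - G s) = 1 / ((q - s) * dslope G s q) by rw [he]]
  field_simp
  ring

theorem anm_exists {z : ℂ} {w : ℍ} (h : Eqv w z) :
    ∃ γ : Gamma0 15, (((γ : SL(2, ℤ)) • w : ℍ) : ℂ) = z := by
  obtain ⟨a, b, c, d, h, rfl⟩ := h
  refine ⟨⟨⟨!![a, b; 15 * c, d], by rw [Matrix.det_fin_two_of]; exact h⟩, ?_⟩, ?_⟩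
  · rw [Gamma0_mem]
    exact (ZMod.intCast_zmod_eq_zero_iff_dvd _ 15).mpr ⟨c, rfl⟩
  · exact coe_smul_eq_mob _ w

theorem anm_inj {z w : ℍ} (hz : z ∈ Str) (hw : w ∈ Str) (h : q1 z = q1 w) : z = w := by
  obtain ⟨n, hn⟩ := Complex.exp_eq_exp_iff_exists_int.mp h
  have h1 : (z : ℂ) = w + n := mul_left_cancel₀ two_pi_I_ne_zero (by linear_combination hn)
  have h2 : z.re = w.re + n := by simpa using congrArg Complex.re h1
  have h3 : (n : ℝ) < 1 := by linarith [hz.2, hw.1]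
  have h4 : (-1 : ℝ) < n := by linarith [hz.1, hw.2]
  have h5 : n = 0 := by
    have : n < 1 := by exact_mod_cast h3
    have : -1 < n := by exact_mod_cast h4
    omega
  exact UpperHalfPlane.ext (by simpa [h5] using h1)

/-- The sum over the group, fibre by fibre. -/
theorem anm_hasSum {w : ℍ} (hw : w ∈ XD) (P : ℍ → Prop) [DecidablePred P]
    (hP : ∀ z, P z → z ∈ Str) (S : Finset ℂ) (ρ : ℂ → ℂ)
    (hS : ∀ s, s ∈ S ↔ ∃ γ : Gamma0 15, P ((γ : SL(2, ℤ)) • w) ∧
      q1 ((γ : SL(2, ℤ)) • w : ℍ) = s) :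
    HasSum (fun γ : Gamma0 15 => if P ((γ : SL(2, ℤ)) • w) then
      ρ (q1 ((γ : SL(2, ℤ)) • w : ℍ)) else 0) (2 * ∑ s ∈ S, ρ s) := by
  let ν : Gamma0 15 := ⟨-1, by rw [Gamma0_mem]; simp⟩
  have hν : ∀ γ : Gamma0 15, ((γ * ν : Gamma0 15) : SL(2, ℤ)) • w = (γ : SL(2, ℤ)) • w := by
    intro γ
    simp [ν]
  have hν1 : ν ≠ 1 := fun h => by
    have := congrArg (fun γ : Gamma0 15 => (γ : SL(2, ℤ)) 0 0) h
    simp [ν] at this
  have h1 : ∀ s ∈ S, HasSum (fun γ : Gamma0 15 => if P ((γ : SL(2, ℤ)) • w) ∧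
      q1 ((γ : SL(2, ℤ)) • w : ℍ) = s then ρ s else 0) (2 * ρ s) := fun s hs => by
    obtain ⟨γ₀, h2, h3⟩ := (hS s).mp hs
    have h4 : γ₀ ≠ γ₀ * ν := fun h => hν1 (by simpa using h)
    have h5 := hasSum_sum_of_ne_finset_zero (s := {γ₀, γ₀ * ν})
      (f := fun γ : Gamma0 15 => if P ((γ : SL(2, ℤ)) • w) ∧
      q1 ((γ : SL(2, ℤ)) • w : ℍ) = s then ρ s else 0) (L := .unconditional _) fun γ hγ => by
        refine if_neg fun h => hγ ?_
        have h6 := anm_inj (hP _ h.1) (hP _ h2) (h.2.trans h3.symm)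
        rw [← inv_smul_eq_iff, ← mul_smul] at h6
        rw [Finset.mem_insert, Finset.mem_singleton]
        refine (stab_XD hw h6).imp (fun e => Subtype.ext ?_) fun e => Subtype.ext ?_
        · exact (inv_mul_eq_one.mp e).symm
        · exact inv_mul_eq_iff_eq_mul.mp e
    rwa [Finset.sum_pair h4, hν, if_pos ⟨h2, h3⟩, ← two_mul] at h5
  rw [Finset.mul_sum]
  convert hasSum_sum h1 using 2 with γ
  split_ifs with h
  · simp only [h, true_and]
    rw [Finset.sum_ite_eq_of_mem S _ _ ((hS _).mpr ⟨γ, h, rfl⟩)]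
  · exact (Finset.sum_eq_zero fun s _ => if_neg fun e => h e.1).symm

theorem res_horo {α : ℂ} {β : ℝ} (hη : ∀ v, eta L15 v = α * v + β * conj v) {m : ℕ} (hm : 0 < m)
    {y : ℝ} (hy : 0 < y) {w : ℍ} (hw : w ∈ XD) (hne : ∀ g : SL(2, ℤ), (g • w).im ≠ y) :
    2 * ∫ x in (0 : ℝ)..1, Zk (Fi (x + y * I) - Fi w) * q1 (m * (x + y * I)) =
      (∑' γ : Gamma0 15, if (γ : SL(2, ℤ)) • w ∈ Str ∧ y < ((γ : SL(2, ℤ)) • w).im then
        q1 (m * ((γ : SL(2, ℤ)) • w : ℍ)) / f15 ((γ : SL(2, ℤ)) • w : ℍ) else 0) -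
      2 * (β * a15 m / m * Real.exp (-4 * π * m * y)) := by
  obtain ⟨G, hG, hF⟩ := qe_Fi
  obtain ⟨n, rfl⟩ : ∃ n, m = n + 1 := ⟨m - 1, by omega⟩
  set r := Real.exp (-2 * π * y) with hr
  have hr0 : 0 < r := Real.exp_pos _
  have hr1 : r < 1 := by rw [hr, Real.exp_lt_one_iff]; nlinarith [Real.pi_pos]
  have him : ∀ x : ℝ, 0 < ((x : ℂ) + y * I).im := fun x => by simpa using hy
  have hA : ∀ q : ℂ, ‖q‖ < 1 → AnalyticAt ℂ G q := fun q hq =>
    hG.differentiableOn.analyticAt (Metric.isOpen_ball.mem_nhds (by simpa using hq))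
  have hD : ∀ z : ℂ, 0 < z.im → q1 z * deriv G (q1 z) = f15 z := fun z hz => by
    have h3 := (hG.differentiableAt (norm_q1_lt hz)).hasDerivAt.comp z (hasDerivAt_q1 z)
    have h4 : Fi =ᶠ[𝓝 z] G ∘ q1 := by
      filter_upwards [upper_mem_nhds hz] with v hv
      exact hF v hv
    have h5 := (h3.congr_of_eventuallyEq h4).unique (hasDerivAt_Fi hz)
    exact mul_left_cancel₀ two_pi_I_ne_zero (by linear_combination h5)
  have h0 : ∀ q : ℂ, G q - Fi w ∈ L15.lattice → q ≠ 0 := by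
    rintro q hq rfl
    rw [hG.apply_zero] at hq
    exact Fi_notMem w.im_pos (by simpa using hq)
  have hD' : ∀ q : ℂ, ‖q‖ < 1 → G q - Fi w ∈ L15.lattice → deriv G q ≠ 0 := fun q hq h e => by
    obtain ⟨z, hz, rfl⟩ := exists_q1 hq (h0 q h)
    exact f15_ne hz (by rw [← hD z hz, e, mul_zero])
  have hfin : (Metric.closedBall (0 : ℂ) r \ {q | G q - Fi w ∉ L15.lattice}).Finite := by
    refine (isCompact_closedBall _ _).finite_sdiff_of_mem_codiscreteWithin
      (mem_codiscreteWithin.mpr fun q hq => disjoint_principal_right.mpr ?_)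
    have hq1 : ‖q‖ < 1 := lt_of_le_of_lt (by simpa using hq) hr1
    have : ∀ᶠ p in 𝓝[≠] q, G p - Fi w ∉ L15.lattice := by
      by_cases h : G q - Fi w ∈ L15.lattice
      · exact (anm_loc (hA q hq1) (hD' q hq1 h) differentiableAt_id h).1
      · exact mem_nhdsWithin_of_mem_nhds (((hA q hq1).continuousAt.sub continuousAt_const)
          (isOpen_compl.mem_nhds h))
    exact this.mono fun p hp h => h.2 hp
  set S := hfin.toFinset with hS
  have hmem : ∀ q, q ∈ S ↔ ‖q‖ ≤ r ∧ G q - Fi w ∈ L15.lattice := fun q => by simp [hS]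
  have hlt : ∀ z : ℍ, y < z.im → ‖q1 z‖ < r := fun z hz => by
    rw [norm_q1, hr, Real.exp_lt_exp, coe_im]
    nlinarith [Real.pi_pos]
  have hmem' : ∀ s, s ∈ S ↔ ∃ γ : Gamma0 15, ((γ : SL(2, ℤ)) • w ∈ Str ∧
      y < ((γ : SL(2, ℤ)) • w).im) ∧ q1 ((γ : SL(2, ℤ)) • w : ℍ) = s := fun s => by
    rw [hmem]
    constructor
    · rintro ⟨h1, h2⟩
      obtain ⟨z, hz, rfl⟩ := exists_q1 (h1.trans_lt hr1) (h0 s h2)
      rw [← hF z hz] at h2
      obtain ⟨γ, hγ⟩ := anm_exists ((((sub_mem_iff hz w.im_pos).mp h2).symm hz).trans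
        (Eqv.add_int z (-⌊z.re⌋)) w.im_pos)
      have h3 : ((γ : SL(2, ℤ)) • w).re = Int.fract z.re := by
        simpa [Int.fract, sub_eq_add_neg] using congrArg Complex.re hγ
      have h4 : ((γ : SL(2, ℤ)) • w).im = z.im := by simpa using congrArg Complex.im hγ
      refine ⟨γ, ⟨⟨h3 ▸ Int.fract_nonneg _, h3 ▸ Int.fract_lt_one _⟩,
        lt_of_le_of_ne ?_ (hne _).symm⟩, by rw [hγ, q1_add, q1_int, mul_one]⟩
      rw [norm_q1, hr, Real.exp_le_exp] at h1
      rw [h4]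
      nlinarith [Real.pi_pos]
    · rintro ⟨γ, ⟨-, h2⟩, rfl⟩
      refine ⟨(hlt _ h2).le, ?_⟩
      obtain ⟨a, b, c, d, h3, h4⟩ := exists_mob15 γ.2
      rw [← hF _ ((γ : SL(2, ℤ)) • w).im_pos, ← neg_sub, neg_mem_iff]
      exact Eqv.sub_mem ⟨a, b, c, d, h3, h4 w⟩ w.im_pos
  have hSr : ∀ s ∈ S, ‖s‖ < r := fun s hs => by
    obtain ⟨γ, ⟨-, h2⟩, rfl⟩ := (hmem' s).mp hs
    exact hlt _ h2
  set k : ℂ → ℂ := fun q => (zet L15 (G q - Fi w) - α * (G q - Fi w)) * q ^ n with hk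
  have hkd : ∀ q, ‖q‖ ≤ r → q ∉ S → DifferentiableAt ℂ k q := fun q h1 h2 => by
    have h3 := (hG.differentiableAt (h1.trans_lt hr1)).sub_const (Fi w)
    exact (((hasDerivAt_zet fun h => h2 ((hmem q).mpr ⟨h1, h⟩)).differentiableAt.comp q h3).sub
      (h3.const_mul α)).mul (differentiableAt_pow n)
  have hres := anm_res hr0 S (fun s => s ^ n / deriv G s) hSr hkd fun s hs => by
    have hs1 : ‖s‖ < 1 := (hSr s hs).trans hr1
    have h1 := ((hmem s).mp hs).2
    obtain ⟨L, hL⟩ := (anm_loc (hA s hs1) (hD' s hs1 h1) (differentiableAt_pow n) h1).2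
    have h2 : ContinuousAt (fun q => α * (G q - Fi w) * q ^ n) s :=
      (continuousAt_const.mul ((hA s hs1).continuousAt.sub continuousAt_const)).mul
        (continuous_pow n).continuousAt
    refine ⟨_, (hL.sub (h2.tendsto.mono_left nhdsWithin_le_nhds)).congr fun q => ?_⟩
    simp only [hk]
    ring
  rw [hr, anm_circle] at hres
  replace hres := mul_left_cancel₀ two_pi_I_ne_zero hres
  have hsum := anm_hasSum hw (fun z => z ∈ Str ∧ y < z.im) (fun _ h => h.1) S
    (fun s => s ^ n / deriv G s) hmem'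
  have e1 : ∀ z : ℍ, q1 ((n + 1 : ℕ) * z) / f15 z = q1 z ^ n / deriv G (q1 z) := fun z => by
    rw [q1_nat_mul, ← hD z z.im_pos, pow_succ', mul_div_mul_left _ _ (q1_ne _)]
  simp only [e1]
  rw [hsum.tsum_eq, ← hres, ← mul_sub]
  congr 1
  have hcq : Continuous fun x : ℝ => q1 (x + y * I) := by unfold q1; fun_prop
  have hnq : ∀ x : ℝ, ‖q1 (x + y * I)‖ = r := fun x => by rw [norm_q1]; simp [hr]
  have c1 : Continuous fun x : ℝ => k (q1 (x + y * I)) * q1 (x + y * I) :=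
    Continuous.mul (continuous_iff_continuousAt.mpr fun x => ContinuousAt.comp (g := k)
      (hkd _ (hnq x).le fun h => (hSr _ h).ne (hnq x)).continuousAt hcq.continuousAt) hcq
  have c2 : Continuous fun x : ℝ => 1 / q1 (x + y * I) ^ (n + 1) * (Fi (x + y * I) - Fi w) :=
    (continuous_const.div (hcq.pow _) fun x => pow_ne_zero _ (q1_ne _)).mul
      (Continuous.sub (continuous_iff_continuousAt.mpr fun x => ContinuousAt.comp (g := Fi)
        (hasDerivAt_Fi (him x)).continuousAt (by fun_prop)) continuous_const)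
  have e2 := (qe_Fi.sub (QE.const (Fi w))).coeff_eq_integral (n + 1) hy
  simp only [map_sub, PowerSeries.coeff_mk, PowerSeries.coeff_C, n.succ_ne_zero, if_false,
    sub_zero] at e2
  have e3 : (a15 (n + 1) : ℂ) / (n + 1 : ℕ) = ∫ x in (0 : ℝ)..1,
      conj (1 / q1 (x + y * I) ^ (n + 1) * (Fi (x + y * I) - Fi w)) := by
    rw [intervalIntegral.intervalIntegral_conj, ← e2]
    simp
  have e4 : (Real.exp (-4 * π * (n + 1 : ℕ) * y) : ℂ) = ((r : ℂ) ^ 2) ^ (n + 1) := by
    rw [hr, ← pow_mul, ← ofReal_pow, ← Real.exp_nat_mul]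
    congr 2
    push_cast
    ring
  have c3 : Continuous fun x : ℝ => β * conj (1 / q1 (x + y * I) ^ (n + 1) *
      (Fi (x + y * I) - Fi w)) * ((r : ℂ) ^ 2) ^ (n + 1) :=
    (continuous_const.mul (continuous_conj.comp c2)).mul continuous_const
  rw [mul_div_assoc, e3, e4, ← intervalIntegral.integral_const_mul,
    ← intervalIntegral.integral_mul_const, ← intervalIntegral.integral_sub
      (c1.intervalIntegrable _ _) (c3.intervalIntegrable _ _)]
  congr 1 with x
  have e5 : (r : ℂ) ^ 2 = q1 (x + y * I) * conj (q1 (x + y * I)) := by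
    rw [mul_conj, normSq_eq_norm_sq, hnq, ofReal_pow]
  have e6 : conj (q1 (x + y * I)) ≠ 0 := (map_ne_zero _).mpr (q1_ne _)
  simp only [Zk, hk, hη, q1_nat_mul, ← hF _ (him x), e5, map_mul, map_div₀,
    map_one, map_pow, mul_pow]
  field_simp
  ring

end Pool.Agent.Dih
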