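import Pool.Agent.Lib.MP_60ff09_nt.Dih.ANf2

/-! Twisted averages over low horocycles tend to zero. -/

set_option autoImplicit false

open Complex Filter Topology Set MeasureTheory CongruenceSubgroup NumberTheorySymbols
open UpperHalfPlane hiding I
open scoped Real MatrixGroups ComplexConjugate Modular
open Pool.Agent.Lib.MP_696deb_nt Pool.Agent.Lib.MP_696deb_nt.Unif Pool.Agent.Shared.Weier

namespace Pool.Agent.Dih

theorem ann_pow {ε : ℝ} (hε : 0 < ε) : IntegrableOn (fun y : ℝ => ε * y ^ (ε - 1)) (Ioc 0 1) ∧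
    ∫ y in Ioc (0 : ℝ) 1, ε * y ^ (ε - 1) = 1 := by
  refine ⟨((intervalIntegral.intervalIntegrable_rpow' (by linarith)).const_mul ε).1, ?_⟩
  rw [← intervalIntegral.integral_of_le zero_le_one, intervalIntegral.integral_const_mul,
    integral_rpow (.inl (by linarith)), sub_add_cancel, Real.one_rpow, Real.zero_rpow hε.ne']
  field_simp
  ring

/-- The majorant. -/
noncomputable def annM (ε a C η : ℝ) (y : ℝ) : ℝ :=
  (Ioc (0 : ℝ) 1).indicator (fun y => a * (ε * y ^ (ε - 1))) y +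
    (Ioi η).indicator (fun y => ε * C * y ^ (-(3 / 2) : ℝ)) y

theorem annM_int {ε η : ℝ} (hε : 0 < ε) (hη : 0 < η) (a C : ℝ) : Integrable (annM ε a C η) ∧
    ∫ y, annM ε a C η y = a + ε * C * ∫ y in Ioi η, y ^ (-(3 / 2) : ℝ) := by
  have h1 := ((ann_pow hε).1.const_mul a)
  have h2 := (integrableOn_Ioi_rpow_of_lt (a := -(3 / 2)) (by norm_num) hη).const_mul (ε * C)
  have h3 := (integrable_indicator_iff measurableSet_Ioc).2 h1
  have h4 := (integrable_indicator_iff measurableSet_Ioi).2 h2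
  refine ⟨h3.add h4, ?_⟩
  unfold annM
  rw [integral_add h3 h4, integral_indicator measurableSet_Ioc, integral_indicator measurableSet_Ioi,
    integral_const_mul, (ann_pow hε).2, mul_one, integral_const_mul]

theorem annM_nonneg {ε a C η : ℝ} (hε : 0 < ε) (hη : 0 < η) (ha : 0 ≤ a) (hC : 0 ≤ C) (y : ℝ) :
    0 ≤ annM ε a C η y :=
  add_nonneg (indicator_nonneg (fun y hy => by have := hy.1; positivity) y)
    (indicator_nonneg (fun y hy => by have := hη.trans hy; positivity) y)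

theorem annM_le {ε a C η y t : ℝ} (hε : ε ∈ Ioc (0 : ℝ) (1 / 2)) (hη : η ∈ Ioc (0 : ℝ) 1)
    (ha : 0 ≤ a) (hC : 0 ≤ C) (hy : 0 < y) (h1 : y ≤ η → t ≤ a) (h2 : t ≤ C / (1 + y)) :
    ε * y ^ (ε - 1) * t ≤ annM ε a C η y := by
  have e0 := hε.1
  have p0 : 0 ≤ ε * y ^ (ε - 1) := by positivity
  unfold annM
  rcases le_or_gt y η with h | h
  · rw [indicator_of_mem (show y ∈ Ioc (0 : ℝ) 1 from ⟨hy, h.trans hη.2⟩),
      indicator_of_notMem (show y ∉ Ioi η from not_lt.2 h), add_zero, mul_comm a]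
    exact mul_le_mul_of_nonneg_left (h1 h) p0
  refine le_add_of_nonneg_of_le (indicator_nonneg (fun y hy => by have := hy.1; positivity) y) ?_
  rw [indicator_of_mem (show y ∈ Ioi η from h)]
  have h3 : y ^ (ε + 1 / 2) ≤ 1 + y := by
    rcases le_total y 1 with k | k
    · linarith [Real.rpow_le_one hy.le k (show 0 ≤ ε + 1 / 2 by linarith)]
    · have := Real.rpow_le_rpow_of_exponent_le k (show ε + 1 / 2 ≤ 1 by linarith [hε.2])
      rw [Real.rpow_one] at this
      linarith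
  have h4 : y ^ (ε - 1) = y ^ (-(3 / 2) : ℝ) * y ^ (ε + 1 / 2) := by
    rw [← Real.rpow_add hy]
    exact congrArg _ (by ring)
  have h5 : y ^ (ε + 1 / 2) * (C / (1 + y)) ≤ C := by
    rw [← mul_div_assoc, div_le_iff₀ (by linarith), mul_comm]
    exact mul_le_mul_of_nonneg_left h3 hC
  refine (mul_le_mul_of_nonneg_left h2 p0).trans ?_
  rw [h4, show ε * (y ^ (-(3 / 2) : ℝ) * y ^ (ε + 1 / 2)) * (C / (1 + y)) =
    ε * (y ^ (ε + 1 / 2) * (C / (1 + y))) * y ^ (-(3 / 2) : ℝ) by ring]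
  gcongr

theorem ann_int {F : ℝ → ℂ} {C ε : ℝ} (hε : ε ∈ Ioc (0 : ℝ) (1 / 2)) (hC : 0 ≤ C)
    (hF : Measurable F) (hb : ∀ y, 0 < y → ‖F y‖ ≤ C / (1 + y)) :
    IntegrableOn (fun y : ℝ => ((ε * y ^ (ε - 1) : ℝ) : ℂ) * F y) (Ioi 0) := by
  refine (annM_int hε.1 one_pos C C).1.integrableOn.mono'
    (Measurable.aestronglyMeasurable (by fun_prop))
    ((ae_restrict_mem measurableSet_Ioi).mono fun y hy => ?_)
  have y0 : 0 < y := hy
  have e0 := hε.1
  rw [norm_mul, Complex.norm_of_nonneg (by positivity)]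
  exact annM_le hε ⟨one_pos, le_rfl⟩ hC hC y0
    (fun _ => (hb y y0).trans (div_le_self hC (by linarith))) (hb y y0)

theorem abel_zero {D : ℝ → ℝ → ℂ} {C : ℝ}
    (hb : ∀ ε ∈ Ioc (0 : ℝ) (1 / 2), ∀ y, 0 < y → ‖D ε y‖ ≤ C / (1 + y))
    (h0 : Tendsto (fun v : ℝ × ℝ => D v.1 v.2) (𝓝[>] 0 ×ˢ 𝓝[>] 0) (𝓝 0)) :
    Tendsto (fun ε : ℝ => ∫ y in Ioi (0 : ℝ), ε * y ^ (ε - 1) * ‖D ε y‖) (𝓝[>] 0) (𝓝 0) := by
  have hC : 0 ≤ C := by
    have := (norm_nonneg _).trans (hb (1 / 2) ⟨by norm_num, le_rfl⟩ 1 one_pos)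
    linarith
  rw [Metric.tendsto_nhds]
  intro δ hδ
  obtain ⟨p, hp, q, hq, h⟩ := eventually_prod_iff.1
    (Metric.tendsto_nhds.1 h0 (δ / 2) (half_pos hδ))
  obtain ⟨η, η0, hη⟩ := (mem_nhdsGT_iff_exists_Ioc_subset).1
    (inter_mem hq (Ioc_mem_nhdsGT one_pos))
  have η1 : η ∈ Ioc (0 : ℝ) 1 := (hη ⟨η0, le_rfl⟩).2
  have h1 : Tendsto (fun ε : ℝ => ε * C * ∫ y in Ioi η, y ^ (-(3 / 2) : ℝ)) (𝓝[>] 0) (𝓝 0) :=
    (Continuous.tendsto' (by fun_prop) 0 0 (by simp)).mono_left nhdsWithin_le_nhds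
  filter_upwards [hp, Ioc_mem_nhdsGT (show (0 : ℝ) < 1 / 2 by norm_num),
    h1.eventually (gt_mem_nhds (half_pos hδ))] with ε k1 k2 k3
  have e0 := k2.1
  have k4 : ∀ᵐ y ∂volume.restrict (Ioi (0 : ℝ)), 0 ≤ ε * y ^ (ε - 1) * ‖D ε y‖ :=
    (ae_restrict_mem measurableSet_Ioi).mono fun y hy => by
      have y0 : 0 < y := hy
      positivity
  obtain ⟨i1, i2⟩ := annM_int k2.1 η1.1 (δ / 2) C
  rw [Real.dist_eq, sub_zero, abs_of_nonneg (integral_nonneg_of_ae k4)]
  refine ((integral_mono_of_nonneg k4 i1.integrableOn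
    ((ae_restrict_mem measurableSet_Ioi).mono fun y hy => ?_)).trans
    (setIntegral_le_integral i1
      (.of_forall (annM_nonneg k2.1 η1.1 (half_pos hδ).le hC)))).trans_lt (by linarith)
  refine annM_le k2 η1 (half_pos hδ).le hC hy (fun k => ?_) (hb ε k2 y hy)
  simpa using (h k1 (hη ⟨hy, k⟩).1).le

/-- The point with given coordinates. -/
noncomputable def annP (x y : ℝ) : ℍ := ofComplex (x + y * I)

theorem annP_coe (x : ℝ) {y : ℝ} (hy : 0 < y) : (annP x y : ℂ) = x + y * I := by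
  rw [annP, ofComplex_apply_of_im_pos (by simpa using hy)]

theorem annP_re (x : ℝ) {y : ℝ} (hy : 0 < y) : (annP x y).re = x := by
  rw [← coe_re, annP_coe x hy]
  simp

theorem annP_im (x : ℝ) {y : ℝ} (hy : 0 < y) : (annP x y).im = y := by
  rw [← coe_im, annP_coe x hy]
  simp

theorem annP_meas : Measurable fun p : ℝ × ℝ => annP p.1 p.2 :=
  measurable_ofComplex.comp (by fun_prop)

theorem annP_smul (x : ℝ) {y : ℝ} (hy : 0 < y) (w : ℍ) :
    (annP x y).toSL2R • w = annP (x + y * w.re) (y * w.im) := by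
  have h1 : ((√y : ℝ) : ℂ) ≠ 0 := by simpa [Real.sqrt_ne_zero'] using hy
  have h2 : ((√y : ℝ) : ℂ) * (√y : ℝ) = y := by rw [← ofReal_mul, Real.mul_self_sqrt hy.le]
  have h3 : (w : ℂ) = w.re + w.im * I := (Complex.re_add_im (w : ℂ)).symm
  ext
  rw [annP_coe _ (mul_pos hy w.im_pos), coe_specialLinearGroup_apply]
  simp only [coe_toSL2R, annP_re x hy, annP_im x hy, Matrix.of_apply, Matrix.cons_val',
    Matrix.cons_val_zero, Matrix.cons_val_one, Matrix.cons_val_fin_one, Algebra.algebraMap_self,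
    RingHom.id_apply]
  push_cast
  field_simp
  linear_combination (w : ℂ) * h2 + y * h3

theorem ann_q1_add (a b : ℂ) : q1 (a + b) = q1 a * q1 b := by rw [q1, q1, q1, mul_add, exp_add]

theorem ann_q1_norm (a : ℝ) : ‖q1 a‖ = 1 := by
  rw [q1, norm_exp]
  simp

theorem ann_q1_nat (m : ℕ) : q1 m = 1 := by
  rw [q1, mul_comm]
  exact exp_nat_mul_two_pi_mul_I m

theorem ann_q1_cont : Continuous q1 := by
  unfold q1
  fun_prop

theorem ann_q1_int {m : ℕ} (h0 : 0 < m) : ∫ x in Ioc (0 : ℝ) 1, q1 (m * x : ℝ) = 0 := by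
  have h : (2 * π * I * m : ℂ) ≠ 0 := by simp [h0.ne', Real.pi_ne_zero]
  have := integral_exp_mul_complex (a := 0) (b := 1) h
  rw [← intervalIntegral.integral_of_le zero_le_one]
  simp only [q1, ofReal_mul, ofReal_natCast, ← mul_assoc, this]
  rw [ofReal_one, mul_one, ← q1, ann_q1_nat]
  simp

section

variable {v : ℍ → ℂ} {C : ℝ}

theorem ann_akr {ε : ℝ} (hε : 0 < ε) (hm : Measurable v) (hb : ∀ z, ‖v z‖ ≤ C) (z : ℍ) :
    Integrable (fun w => (akr ε z w : ℂ) * v w) ∧ ‖∫ w, (akr ε z w : ℂ) * v w‖ ≤ C := by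
  have h1 := (integrable_akr hε z).mul_const C
  have h2 : ∀ w, ‖(akr ε z w : ℂ) * v w‖ ≤ akr ε z w * C := fun w => by
    rw [norm_mul, Complex.norm_of_nonneg (akr_nonneg hε z w)]
    exact mul_le_mul_of_nonneg_left (hb w) (akr_nonneg hε z w)
  refine ⟨h1.mono' ((measurable_ofReal.comp (continuous_akr_right ε z).measurable).mul
    hm).aestronglyMeasurable (.of_forall h2), ?_⟩
  refine (norm_integral_le_of_norm_le h1 (.of_forall h2)).trans_eq ?_
  rw [integral_mul_const, integral_akr hε, one_mul]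

theorem ann_avg (hm : Measurable v) (hb : ∀ z, ‖v z‖ ≤ C)
    (hi : ∀ γ ∈ Gamma0 15, ∀ z : ℍ, v (γ • z) = v z) (z z' : ℍ) :
    Tendsto (fun ε => (∫ w, (akr ε z w : ℂ) * v w) - ∫ w, (akr ε z' w : ℂ) * v w) (𝓝[>] 0)
      (𝓝 0) := by
  have t : ∀ L : ℂ →L[ℝ] ℝ, Tendsto (fun ε => L ((∫ w, (akr ε z w : ℂ) * v w) -
      ∫ w, (akr ε z' w : ℂ) * v w)) (𝓝[>] 0) (𝓝 0) := fun L => by
    have k : ∀ w, |L (v w)| ≤ ‖L‖ * C := fun w =>
      (L.le_opNorm _).trans (mul_le_mul_of_nonneg_left (hb w) (norm_nonneg _))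
    have m : Measurable fun w => L (v w) := L.continuous.measurable.comp hm
    have T : Tame (Gamma0 15) fun w => L (v w) := ⟨m, fun γ hγ w => by rw [hi γ hγ],
      (locallyIntegrable_const (‖L‖ * C)).mono m.aestronglyMeasurable
        (.of_forall fun w => (k w).trans (le_abs_self _)), fun g => ⟨0, _, fun w _ _ => k _⟩⟩
    refine (T.tendsto z z').congr' (eventually_mem_nhdsWithin.mono fun ε hε => ?_)
    simp only
    rw [map_sub, ← L.integral_comp_comm (ann_akr hε hm hb z).1,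
      ← L.integral_comp_comm (ann_akr hε hm hb z').1]
    simp only [avg, ← real_smul, map_smul, smul_eq_mul]
  have := ((continuous_ofReal.tendsto 0).comp (t reCLM)).add
    (((continuous_ofReal.tendsto 0).comp (t imCLM)).mul_const I)
  simpa only [Function.comp_def, reCLM_apply, imCLM_apply, Complex.re_add_im, ofReal_zero,
    zero_mul, add_zero] using this

/-- The Fourier coefficient. -/
noncomputable def annU (v : ℍ → ℂ) (m : ℕ) (y : ℝ) : ℂ :=
  ∫ x in Ioc (0 : ℝ) 1, v (annP x y) * q1 (m * x : ℝ)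

theorem annU_meas (hm : Measurable v) (m : ℕ) : Measurable (annU v m) :=
  (StronglyMeasurable.integral_prod_left (f := fun x y : ℝ => v (annP x y) * q1 (m * x : ℝ))
    (((hm.comp annP_meas).mul
      (ann_q1_cont.measurable.comp (by fun_prop))).stronglyMeasurable)).measurable

theorem annU_le (hb : ∀ z, ‖v z‖ ≤ C) (m : ℕ) (y : ℝ) : ‖annU v m y‖ ≤ C := by
  refine (norm_setIntegral_le_of_norm_le_const (C := C) measure_Ioc_lt_top fun x _ => ?_).trans_eq
    (by simp)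
  rw [norm_mul, ann_q1_norm, mul_one]
  exact hb _

theorem annU_shift (hi : ∀ γ ∈ Gamma0 15, ∀ z : ℍ, v (γ • z) = v z) (m : ℕ) (a : ℝ) {y : ℝ}
    (hy : 0 < y) : ∫ x in Ioc (0 : ℝ) 1, v (annP (x + a) y) * q1 (m * x : ℝ) =
      q1 (-(m * a) : ℝ) * annU v m y := by
  have p : Function.Periodic (fun x : ℝ => v (annP x y) * q1 (m * x : ℝ)) 1 := fun x => by
    have e : annP (x + 1) y = ModularGroup.T • annP x y := by
      ext
      rw [modular_T_smul, coe_vadd, annP_coe _ hy, annP_coe _ hy]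
      push_cast
      ring
    simp only
    rw [e, hi _ (Gamma0_mem.2 (by simp [ModularGroup.T])), mul_add, mul_one, ofReal_add, ann_q1_add,
      ofReal_natCast, ann_q1_nat, mul_one]
  have h := p.intervalIntegral_add_eq a 0
  have h' := intervalIntegral.integral_comp_add_right (a := 0) (b := 1)
    (fun x : ℝ => v (annP x y) * q1 (m * x : ℝ)) a
  rw [zero_add, add_comm 1, h, zero_add] at h'
  rw [annU, ← intervalIntegral.integral_of_le zero_le_one,
    ← intervalIntegral.integral_of_le zero_le_one, ← h', ← intervalIntegral.integral_const_mul]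
  refine intervalIntegral.integral_congr fun x _ => ?_
  rw [mul_left_comm, ← ann_q1_add, ← ofReal_add]
  exact congrArg (fun t : ℝ => v (annP (x + a) y) * q1 t) (by ring)

/-- The Fourier transform of the kernel. -/
noncomputable def annG (t ε s : ℝ) : ℂ :=
  ∫ ξ : ℝ, (((1 + ξ ^ 2 + s ^ 2) ^ (-1 - |ε|) : ℝ) : ℂ) * q1 (-(t * ξ) : ℝ)

theorem annG_bd (t ε s ξ : ℝ) :
    ‖(((1 + ξ ^ 2 + s ^ 2) ^ (-1 - |ε|) : ℝ) : ℂ) * q1 (-(t * ξ) : ℝ)‖ ≤ (1 + ξ ^ 2 + s ^ 2)⁻¹ := by
  rw [norm_mul, ann_q1_norm, mul_one, Complex.norm_of_nonneg (by positivity),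
    ← Real.rpow_neg_one]
  exact Real.rpow_le_rpow_of_exponent_le (by nlinarith [sq_nonneg ξ, sq_nonneg s])
    (by linarith [abs_nonneg ε])

theorem annG_cont : Continuous fun p : ℝ × ℝ × ℝ => annG p.1 p.2.1 p.2.2 := by
  refine continuous_of_dominated (bound := fun ξ : ℝ => (1 + ξ ^ 2)⁻¹) (fun p => ?_)
    (fun p => .of_forall fun ξ => (annG_bd _ _ _ ξ).trans
      (inv_anti₀ (by positivity) (by nlinarith [sq_nonneg p.2.2])))
    integrable_inv_one_add_sq (.of_forall fun ξ => ?_)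
  · exact Measurable.aestronglyMeasurable
      (Measurable.mul (by fun_prop) (ann_q1_cont.measurable.comp (by fun_prop)))
  · exact (continuous_ofReal.comp (Continuous.rpow (by fun_prop) (by fun_prop)
      fun p => .inl (by positivity))).mul (ann_q1_cont.comp (by fun_prop))

theorem annG_zero : annG 0 0 0 = π := by
  rw [← integral_univ_inv_one_add_sq, ← integral_complex_ofReal]
  simp [annG, q1, Real.rpow_neg_one]

theorem annG_le (t ε : ℝ) {s : ℝ} (hs : 0 < s) : ‖annG t ε s‖ ≤ 2 * π / (1 + s) := by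
  have a0 : (0 : ℝ) < 2 / (1 + s) := by positivity
  have h1 := (integrable_inv_one_add_sq.comp_mul_left' a0.ne').const_mul ((2 / (1 + s)) ^ 2)
  refine (norm_integral_le_of_norm_le h1 (.of_forall fun ξ => (annG_bd t ε s ξ).trans ?_)).trans_eq ?_
  · rw [← div_eq_mul_inv, inv_eq_one_div, div_le_div_iff₀ (by positivity) (by positivity)]
    have : 1 ≤ (2 / (1 + s)) ^ 2 * (1 + s ^ 2) := by
      rw [div_pow, div_mul_eq_mul_div, le_div_iff₀ (by positivity)]
      nlinarith [sq_nonneg (s - 1), sq_nonneg s]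
    nlinarith
  · rw [integral_const_mul, Measure.integral_comp_mul_left fun x : ℝ => (1 + x ^ 2)⁻¹,
      integral_univ_inv_one_add_sq, abs_of_pos (inv_pos.2 a0), smul_eq_mul]
    field_simp

theorem ann_ker {ε s : ℝ} (hε : 0 < ε) (hs : 0 < s) (ξ : ℝ) :
    1 / s ^ 2 * akr ε UpperHalfPlane.I (annP ξ s) =
      2 ^ (1 + ε) / (2 * π) * (ε * s ^ (ε - 1)) * (1 + ξ ^ 2 + s ^ 2) ^ (-1 - |ε|) := by
  have e1 : s ^ (ε - 1) = s ^ (1 + ε) / s ^ 2 := by
    rw [← Real.rpow_natCast, ← Real.rpow_sub hs]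
    exact congrArg _ (by push_cast; ring)
  rw [akr, cosh_dist', annP_re ξ hs, annP_im ξ hs, abs_of_pos hε, UpperHalfPlane.I_re,
    UpperHalfPlane.I_im, show ((0 - ξ) ^ 2 + 1 ^ 2 + s ^ 2) / (2 * 1 * s) =
      (1 + ξ ^ 2 + s ^ 2) / (2 * s) by ring, Real.div_rpow (by positivity) (by positivity),
    show -1 - ε = -(1 + ε) by ring, Real.rpow_neg (x := 2 * s) (by positivity),
    Real.mul_rpow zero_le_two hs.le, e1]
  field_simp

theorem ann_B (hm : Measurable v) (hb : ∀ z, ‖v z‖ ≤ C)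
    (hi : ∀ γ ∈ Gamma0 15, ∀ z : ℍ, v (γ • z) = v z) {m : ℕ} (h0 : 0 < m) {c : ℝ} (hc : 0 < c) :
    Tendsto (fun ε : ℝ => ∫ s in Ioi (0 : ℝ), ((ε * s ^ (ε - 1) : ℝ) : ℂ) *
      (annG (m * c) ε s * annU v m (c * s))) (𝓝[>] 0) (𝓝 0) := by
  obtain ⟨F, hF⟩ : ∃ F : ℝ → ℝ → ℍ → ℂ, ∀ ε x w, F ε x w = (akr ε UpperHalfPlane.I w : ℂ) *
    (v (annP (x + c * w.re) (c * w.im)) * q1 (m * x : ℝ)) := ⟨_, fun _ _ _ => rfl⟩
  have f1 : ∀ ε, 0 < ε → Integrable (Function.uncurry (F ε))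
      ((volume.restrict (Ioc (0 : ℝ) 1)).prod volume) := fun ε hε => by
    refine (((integrable_akr hε UpperHalfPlane.I).mul_const C).comp_snd _).mono'
      (Measurable.aestronglyMeasurable ?_) (.of_forall fun p => ?_)
    · have r1 := UpperHalfPlane.continuous_re.measurable
      have r2 := UpperHalfPlane.continuous_im.measurable
      simp only [Function.uncurry_def, hF]
      exact (measurable_ofReal.comp ((continuous_akr_right ε _).measurable.comp measurable_snd)).mul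
        ((hm.comp (annP_meas.comp (f := fun p : ℝ × ℍ => (p.1 + c * p.2.re, c * p.2.im))
          (by fun_prop))).mul (ann_q1_cont.measurable.comp (by fun_prop)))
    · rw [Function.uncurry_def]
      simp only
      rw [hF, norm_mul, norm_mul, ann_q1_norm, mul_one,
        Complex.norm_of_nonneg (akr_nonneg hε _ _)]
      exact mul_le_mul_of_nonneg_left (hb _) (akr_nonneg hε _ _)
  have f2 : ∀ ε x, ∫ w, F ε x w = (∫ w, (akr ε (annP x c) w : ℂ) * v w) * q1 (m * x : ℝ) :=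
    fun ε x => by
    rw [← integral_smul_eq_self (μ := volume) (fun w => (akr ε (annP x c) w : ℂ) * v w)
      (g := (annP x c).toSL2R), ← integral_mul_const]
    refine integral_congr_ae (.of_forall fun w => ?_)
    simp only
    rw [hF, mul_assoc, ← annP_smul x hc, ← akr_smul ε (annP x c).toSL2R, toSL2R_smul_I]
  have q0 : Continuous fun x : ℝ => q1 (m * x : ℝ) := ann_q1_cont.comp (by fun_prop)
  have f3 : Tendsto (fun ε => ∫ x in Ioc (0 : ℝ) 1, ((∫ w, F ε x w) -
      (∫ w, (akr ε UpperHalfPlane.I w : ℂ) * v w) * q1 (m * x : ℝ))) (𝓝[>] 0)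
      (𝓝 (∫ _ in Ioc (0 : ℝ) 1, 0)) := by
    refine tendsto_integral_filter_of_dominated_convergence (fun _ => C + C)
      (eventually_mem_nhdsWithin.mono fun ε hε => (f1 ε hε).integral_prod_left.1.sub
        (q0.const_mul _).aestronglyMeasurable)
      (eventually_mem_nhdsWithin.mono fun ε hε => .of_forall fun x => ?_) (integrable_const _)
      (.of_forall fun x => ?_)
    · rw [f2, ← sub_mul, norm_mul, ann_q1_norm, mul_one]
      exact (norm_sub_le _ _).trans (add_le_add (ann_akr hε hm hb _).2 (ann_akr hε hm hb _).2)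
    · simpa only [f2, ← sub_mul, zero_mul] using
        (ann_avg hm hb hi (annP x c) UpperHalfPlane.I).mul_const (q1 (m * x : ℝ))
  have f4 : Tendsto (fun ε : ℝ => ((2 * π / 2 ^ (1 + ε) : ℝ) : ℂ)) (𝓝[>] 0)
      (𝓝 ((2 * π / 2 ^ (1 + (0 : ℝ)) : ℝ) : ℂ)) :=
    ((continuous_ofReal.comp (continuous_const.div (Continuous.rpow continuous_const (by fun_prop)
      fun _ => .inl two_ne_zero) fun _ => by positivity)).tendsto 0).mono_left nhdsWithin_le_nhds
  have f5 := f4.mul f3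
  rw [integral_zero, mul_zero] at f5
  refine f5.congr' (eventually_mem_nhdsWithin.mono fun ε hε => ?_)
  have e0 : 0 < ε := hε
  have f6 : ∀ w : ℍ, ∫ x in Ioc (0 : ℝ) 1, F ε x w = (akr ε UpperHalfPlane.I (ofComplex w) : ℂ) *
      (q1 (-(m * c * (w : ℂ).re) : ℝ) * annU v m (c * (w : ℂ).im)) := fun w => by
    simp only [hF]
    rw [integral_const_mul, annU_shift hi m _ (mul_pos hc w.im_pos), ofComplex_apply, mul_assoc]
    rfl
  have f7 := (f1 ε e0).integral_prod_right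
  simp only [Function.uncurry_def, f6] at f7
  have f8 : Integrable (fun x => ∫ w, F ε x w) (volume.restrict (Ioc (0 : ℝ) 1)) :=
    (f1 ε e0).integral_prod_left
  simp only
  rw [integral_sub f8
    ((q0.const_mul _).integrableOn_Icc.mono_set Ioc_subset_Icc_self), integral_const_mul,
    ann_q1_int h0, mul_zero, sub_zero, integral_integral_swap (f1 ε e0)]
  simp only [f6]
  rw [(integral_upper (F := fun ζ => (akr ε UpperHalfPlane.I (ofComplex ζ) : ℂ) *
    (q1 (-(m * c * ζ.re) : ℝ) * annU v m (c * ζ.im))) f7).2, ← integral_const_mul]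
  refine setIntegral_congr_fun measurableSet_Ioi fun s hs => ?_
  have k1 : ∀ ξ : ℝ, ((ξ : ℂ) + s * I).re = ξ := fun ξ => by simp
  have k2 : ∀ ξ : ℝ, ((ξ : ℂ) + s * I).im = s := fun ξ => by simp
  simp only [k1, k2]
  rw [annG, ← integral_mul_const, ← integral_const_mul, ← integral_const_mul, ← integral_const_mul]
  refine integral_congr_ae (.of_forall fun ξ => ?_)
  have k3 := congrArg ((↑) : ℝ → ℂ) (ann_ker e0 hs ξ)
  have k4 : ((2 * π / 2 ^ (1 + ε) : ℝ) : ℂ) * (2 ^ (1 + ε) / (2 * π) : ℝ) = 1 := by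
    rw [← ofReal_mul, ← ofReal_one]
    exact congrArg _ (by field_simp)
  rw [ofReal_mul, ofReal_mul, ofReal_mul, annP] at k3
  simp only
  linear_combination (((2 * π / 2 ^ (1 + ε) : ℝ) : ℂ) * q1 (-(m * c * ξ) : ℝ) * annU v m (c * s)) *
    k3 + (((ε * s ^ (ε - 1) : ℝ) : ℂ) * (((1 + ξ ^ 2 + s ^ 2) ^ (-1 - |ε|) : ℝ) : ℂ) *
      q1 (-(m * c * ξ) : ℝ) * annU v m (c * s)) * k4

end

theorem horo_zero {u : ℂ → ℂ} (hm : Measurable fun z : ℍ => u z) {C : ℝ}
    (hb : ∀ z : ℍ, ‖u z‖ ≤ C) (hi : ∀ γ ∈ Gamma0 15, ∀ z : ℍ, u (γ • z : ℍ) = u z) {m : ℕ}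
    (h0 : 0 < m) :
    Tendsto (fun ε : ℝ => ∫ y in Ioi (0 : ℝ), (ε * y ^ (ε - 1) : ℝ) *
      ∫ x in (0 : ℝ)..1, u (x + y * I) * q1 (m * (x + y * I))) (𝓝[>] 0) (𝓝 0) := by
  obtain ⟨v, hv⟩ : ∃ v : ℍ → ℂ, v = fun z : ℍ => u z := ⟨_, rfl⟩
  have vm : Measurable v := hv ▸ hm
  have vb : ∀ z, ‖v z‖ ≤ C := hv ▸ hb
  have vi : ∀ γ ∈ Gamma0 15, ∀ z : ℍ, v (γ • z) = v z := hv ▸ hi
  have hC : 0 ≤ C := (norm_nonneg _).trans (vb UpperHalfPlane.I)
  have m0 : (0 : ℝ) < m := by exact_mod_cast h0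
  obtain ⟨c, hG, hc⟩ : ∃ c : ℝ, annG (m * c) 0 0 ≠ 0 ∧ c ∈ Ioi (0 : ℝ) := by
    have h1 : Continuous fun c : ℝ => annG (m * c) 0 0 :=
      annG_cont.comp (f := fun c : ℝ => ((m * c : ℝ), (0 : ℝ), (0 : ℝ))) (by fun_prop)
    have h2 := (h1.tendsto 0).eventually_ne (b₂ := 0) (by
      rw [mul_zero, annG_zero]
      exact ofReal_ne_zero.2 Real.pi_ne_zero)
    exact ((h2.filter_mono nhdsWithin_le_nhds).and (eventually_mem_nhdsWithin (s := Ioi 0))).exists
  have c0 : 0 < c := hc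
  obtain ⟨e, he⟩ : ∃ e : ℝ → ℂ, ∀ s, e s = q1 (m * (s * I)) := ⟨_, fun _ => rfl⟩
  have ec : Continuous e := funext he ▸ ann_q1_cont.comp (by fun_prop)
  have eb : ∀ s, 0 < s → ‖e (c * s)‖ ≤ (1 + 1 / (2 * π * m * c)) / (1 + s) := fun s hs => by
    have h1 : ‖e (c * s)‖ = Real.exp (-(2 * π * m * c * s)) := by
      rw [he, q1, norm_exp]
      exact congrArg _ (by simp; ring)
    have h2 : 0 < 2 * π * m * c := by positivity
    generalize 2 * π * m * c = a at h1 h2
    rw [h1, Real.exp_neg, inv_eq_one_div, div_le_div_iff₀ (Real.exp_pos _) (by linarith)]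
    refine le_trans ?_ (mul_le_mul_of_nonneg_left (Real.add_one_le_exp (a * s)) (by positivity))
    have h3 : 1 / a * (a * s + 1) = s + 1 / a := by field_simp
    have h4 : 0 < 1 / a := by positivity
    nlinarith [mul_pos h2 hs]
  have Um : Measurable fun s => annU v m (c * s) := (annU_meas vm m).comp (by fun_prop)
  have Gc : ∀ ε, Continuous fun s => annG (m * c) ε s := fun ε =>
    annG_cont.comp (f := fun s : ℝ => ((m * c : ℝ), ε, s)) (by fun_prop)
  have mb : ∀ (x : ℂ) (K s : ℝ), ‖x‖ ≤ K / (1 + s) → ‖x * annU v m (c * s)‖ ≤ K * C / (1 + s) :=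
    fun x K s h => by
    rw [norm_mul, mul_div_right_comm]
    exact mul_le_mul h (annU_le vb m _) (norm_nonneg _) ((norm_nonneg _).trans h)
  have h1 := abel_zero (D := fun ε s => annG (m * c) ε s - annG (m * c) 0 0 * e (c * s))
    (C := 2 * π + ‖annG (m * c) 0 0‖ * (1 + 1 / (2 * π * m * c))) (fun ε _ s hs => by
      rw [add_div, mul_div_assoc _ (1 + _)]
      refine (norm_sub_le _ _).trans (add_le_add (annG_le _ _ hs) ?_)
      rw [norm_mul]
      exact mul_le_mul_of_nonneg_left (eb s hs) (norm_nonneg _)) (by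
      refine (Continuous.tendsto' ((annG_cont.comp
        (f := fun p : ℝ × ℝ => ((m * c : ℝ), p.1, p.2)) (by fun_prop)).sub
        ((ec.comp (by fun_prop)).const_mul _)) (0, 0) 0 (by simp [he, q1])).mono_left ?_
      rw [nhds_prod_eq]
      exact Filter.prod_mono nhdsWithin_le_nhds nhdsWithin_le_nhds)
  have h2 : Tendsto (fun ε : ℝ => ∫ s in Ioi (0 : ℝ), ((ε * s ^ (ε - 1) : ℝ) : ℂ) *
      ((annG (m * c) ε s - annG (m * c) 0 0 * e (c * s)) * annU v m (c * s))) (𝓝[>] 0) (𝓝 0) := by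
    refine squeeze_zero_norm' ?_ (by simpa only [zero_mul] using h1.mul_const C)
    filter_upwards [Ioc_mem_nhdsGT (show (0 : ℝ) < 1 / 2 by norm_num)] with ε hε
    have e0 := hε.1
    have i1 := (ann_int hε (by positivity) (Gc ε).measurable fun s hs => annG_le _ _ hs).sub
      ((ann_int hε (by positivity) (ec.comp (continuous_const_mul c)).measurable eb).const_mul
        (annG (m * c) 0 0))
    rw [← integral_mul_const]
    refine norm_integral_le_of_norm_le ((i1.norm.mul_const C).congr ?_) ?_ <;>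
      refine (ae_restrict_mem measurableSet_Ioi).mono fun s hs => ?_
    · have s0 : 0 < s := hs
      simp only [Pi.sub_apply, Function.comp_apply]
      rw [mul_left_comm, ← mul_sub, norm_mul, Complex.norm_of_nonneg (by positivity)]
    · have s0 : 0 < s := hs
      rw [norm_mul, norm_mul, Complex.norm_of_nonneg (by positivity), ← mul_assoc]
      exact mul_le_mul_of_nonneg_left (annU_le vb m _) (by positivity)
  have h3 : Tendsto (fun ε : ℝ => ((c ^ ε : ℝ) : ℂ) / annG (m * c) 0 0) (𝓝[>] 0)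
      (𝓝 (((c ^ (0 : ℝ) : ℝ) : ℂ) / annG (m * c) 0 0)) :=
    (((continuous_ofReal.comp (Continuous.rpow continuous_const continuous_id
      fun _ => .inl c0.ne')).div_const _).tendsto 0).mono_left nhdsWithin_le_nhds
  have h4 := h3.mul ((ann_B vm vb vi h0 c0).sub h2)
  rw [sub_zero, mul_zero] at h4
  refine h4.congr' ?_
  filter_upwards [Ioc_mem_nhdsGT (show (0 : ℝ) < 1 / 2 by norm_num)] with ε hε
  have i1 := ann_int (F := fun s => annG (m * c) ε s * annU v m (c * s)) hε (by positivity)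
    ((Gc ε).measurable.mul Um) fun s hs => mb _ _ s (annG_le _ _ hs)
  have i2 := ann_int (F := fun s => e (c * s) * annU v m (c * s)) hε (by positivity)
    ((ec.comp (continuous_const_mul c)).measurable.mul Um) fun s hs => mb _ _ s (eb s hs)
  have i3 : ∀ s : ℝ, ((ε * s ^ (ε - 1) : ℝ) : ℂ) *
      ((annG (m * c) ε s - annG (m * c) 0 0 * e (c * s)) * annU v m (c * s)) =
      ((ε * s ^ (ε - 1) : ℝ) : ℂ) * (annG (m * c) ε s * annU v m (c * s)) -
        annG (m * c) 0 0 * (((ε * s ^ (ε - 1) : ℝ) : ℂ) * (e (c * s) * annU v m (c * s))) :=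
    fun s => by ring
  have i4 := integral_comp_mul_left_Ioi
    (fun y : ℝ => ((ε * y ^ (ε - 1) : ℝ) : ℂ) * (e y * annU v m y)) 0 c0
  rw [mul_zero, eq_inv_smul_iff₀ c0.ne'] at i4
  simp only [i3]
  rw [integral_sub i1 (i2.const_mul _), sub_sub_cancel, integral_const_mul, ← mul_assoc,
    div_mul_cancel₀ _ hG, ← integral_const_mul]
  refine Eq.trans ?_ (i4.trans (setIntegral_congr_fun measurableSet_Ioi fun y hy => ?_))
  · rw [← integral_smul]
    refine setIntegral_congr_fun measurableSet_Ioi fun s hs => ?_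
    rw [Real.mul_rpow c0.le (le_of_lt hs), Real.rpow_sub_one c0.ne', real_smul]
    have : (c : ℂ) ≠ 0 := ofReal_ne_zero.2 c0.ne'
    push_cast
    field_simp
  · rw [annU, intervalIntegral.integral_of_le zero_le_one, ← integral_const_mul]
    refine congrArg _ (integral_congr_ae (.of_forall fun x => ?_))
    simp only
    rw [hv, he, mul_add, ann_q1_add, ofReal_mul, ofReal_natCast]
    simp only [annP_coe x hy]
    ring

end Pool.Agent.Dih
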