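import Pool.Agent.Lib.MP_60ff09_nt.Dih.ANl
import Pool.Agent.Lib.MP_60ff09_nt.Dih.ANm
import Pool.Agent.Lib.MP_60ff09_nt.Dih.ANn

/-! Holomorphic projection in weight two. -/

set_option autoImplicit false

open Complex Filter Topology Set MeasureTheory CongruenceSubgroup NumberTheorySymbols
open UpperHalfPlane hiding I
open scoped Real MatrixGroups ComplexConjugate Modular Classical
open Pool.Agent.Lib.MP_696deb_nt Pool.Agent.Lib.MP_696deb_nt.Unif Pool.Agent.Shared.Weier

namespace Pool.Agent.Dih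

/-- The Cauchy transform. -/
noncomputable def cau (Φ : ℂ → ℂ) (z : ℂ) : ℂ :=
  ∫ w in XD, Zk (Fi z - Fi w) * (conj (Φ w) * f15 w * (w.im : ℂ) ^ 2)

theorem Dec.bd {Φ : ℂ → ℂ} (h : Dec Φ) : ∃ C : ℝ, ∀ z : ℍ, ‖Φ z‖ * z.im ≤ C := by
  obtain ⟨δ, C, hδ, hC⟩ := h.dec
  refine ⟨|C|, fun z => ?_⟩
  obtain ⟨g, hg⟩ := ModularGroup.exists_smul_mem_fd z
  have h1 := hC g⁻¹ _ hg
  rw [inv_smul_smul] at h1
  refine h1.trans ((mul_le_mul_of_nonneg_right (le_abs_self C) (Real.exp_pos _).le).trans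
    (mul_le_of_le_one_right (abs_nonneg C) (Real.exp_le_one_iff.2 ?_)))
  have := (g • z).im_pos
  nlinarith

/-- The density of the pairing with the newform. -/
noncomputable def anoG (Φ : ℂ → ℂ) (w : ℍ) : ℂ := conj (Φ w) * f15 w * (w.im : ℂ) ^ 2

theorem ano_cont {F : ℂ → ℂ} (h : Hol F) : Continuous fun z : ℍ => F z :=
  continuous_iff_continuousAt.2 fun z =>
    (h z z.im_pos).continuousAt.comp UpperHalfPlane.continuous_coe.continuousAt

theorem ano_q1 : Continuous q1 := continuous_iff_continuousAt.2 fun z =>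
  (hasDerivAt_q1 z).continuousAt

theorem ano_im (x y : ℝ) : ((x : ℂ) + y * I).im = y := by simp

theorem ano_norm (m : ℕ) (z : ℂ) : ‖q1 (m * z)‖ = Real.exp (-(2 * π * m) * z.im) := by
  rw [norm_q1]
  congr 1
  simp only [mul_im, natCast_re, natCast_im, zero_mul, add_zero]
  ring

theorem ano_inv {F : ℂ → ℂ} (hF : Inv15 F) {a b c d : ℤ} (h : a * d - b * (15 * c) = 1) {z : ℂ}
    (hz : 0 < z.im) : F (mob a b (15 * c) d z) = (((15 * c : ℤ) : ℂ) * z + d) ^ 2 * F z := by
  have := hF a b c d h z hz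
  rw [sl, h, Int.cast_one, one_mul,
    div_eq_iff (pow_ne_zero 2 (den_ne (a := a) (b := b) (by omega) hz))] at this
  rw [this, mul_comm]

variable {Φ : ℂ → ℂ}

theorem anoG_inv (h : Dec Φ) {γ : SL(2, ℤ)} (hγ : γ ∈ Gamma0 15) (z : ℍ) :
    anoG Φ (γ • z) = anoG Φ z := by
  obtain ⟨a, b, c, d, h1, h2⟩ := exists_mob15 hγ
  have hj := den_ne (a := a) (b := b) (c := 15 * c) (d := d) (by omega) z.im_pos
  have e : (γ • z).im = (mob a b (15 * c) d z).im := congrArg Complex.im (h2 z)
  rw [anoG, anoG, e, h2, ano_inv h.inv h1 z.im_pos, ano_inv f15_inv h1 z.im_pos, im_mob, h1]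
  generalize ((15 * c : ℤ) : ℂ) * z + d = j at hj
  have hj' : conj j ≠ 0 := (map_ne_zero _).2 hj
  rw [map_mul, map_pow, Int.cast_one, one_mul, ofReal_div, ofReal_pow, ← conj_mul', coe_im]
  field_simp

theorem anoG_meas (h : Dec Φ) : Measurable (anoG Φ) :=
  ((continuous_conj.measurable.comp h.meas).mul (ano_cont s15_f15.hol).measurable).mul
    ((continuous_ofReal.comp UpperHalfPlane.continuous_im).pow 2).measurable

theorem anoG_int (h : Dec Φ) : IntegrableOn (anoG Φ) XD := by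
  obtain ⟨C, hC⟩ := h.bd
  obtain ⟨D, hD⟩ := f15_bd
  refine Measure.integrableOn_of_bounded (M := C * D) volume_XD_lt.ne
    (anoG_meas h).aestronglyMeasurable (ae_of_all _ fun z => ?_)
  have h1 : ‖anoG Φ z‖ = (‖Φ z‖ * z.im) * (‖f15 z‖ * z.im) := by
    rw [anoG, norm_mul, norm_mul, norm_pow, norm_conj, norm_real, Real.norm_of_nonneg z.im_pos.le]
    ring
  have := z.im_pos
  rw [h1]
  exact mul_le_mul (hC z) (hD z z.im_pos) (by positivity) ((by positivity : _ ≤ _).trans (hC z))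

theorem ano_ker (h : Dec Φ) {X : Type} [MeasurableSpace X] {u : X → ℂ} (hu : Measurable u) :
    Measurable fun v : X × ℍ => Zk (u v.1 - Fi v.2) * anoG Φ v.2 :=
  (measurable_Zk.comp ((hu.comp measurable_fst).sub
    ((ano_cont qe_Fi.hol).measurable.comp measurable_snd))).mul ((anoG_meas h).comp measurable_snd)

theorem ano_meas (h : Dec Φ) : Measurable fun z : ℍ => cau Φ z :=
  (ano_ker h (ano_cont qe_Fi.hol).measurable).stronglyMeasurable.integral_prod_right'.measurable

theorem ano_bd (h : Dec Φ) : ∃ C : ℝ, ∀ z : ℍ, ‖cau Φ z‖ ≤ C := by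
  obtain ⟨C, hC⟩ := h.lintegral_Zk
  refine ⟨|C|, fun z => ?_⟩
  have := (enorm_integral_le_lintegral_enorm _).trans
    ((hC (Fi z)).trans (ENNReal.ofReal_le_ofReal (le_abs_self C)))
  rwa [← ofReal_norm, ENNReal.ofReal_le_ofReal_iff (abs_nonneg C)] at this

theorem ano_cau_inv (γ : SL(2, ℤ)) (hγ : γ ∈ Gamma0 15) (z : ℍ) :
    cau Φ (γ • z : ℍ) = cau Φ z := by
  obtain ⟨a, b, c, d, h1, h2⟩ := exists_mob15 hγ
  refine integral_congr_ae (ae_restrict_of_ae ((ae_im_ne z.im).mono fun w hw => ?_))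
  have k : Fi z - Fi w ∉ L15.lattice := fun k => by
    obtain ⟨a, b, c, d, k1, k2⟩ := ((sub_mem_iff z.im_pos w.im_pos).1 k).symm z.im_pos
    exact hw ⟨!![a, b; 15 * c, d], by rwa [Matrix.det_fin_two_of]⟩
      (congrArg Complex.im ((coe_smul_eq_mob _ w).trans k2.symm))
  simp only [h2, Fi_Gamma0 h1 z.im_pos, add_sub_right_comm, Zk_add (ms_mem h1) _ k]

/-- The truncated integrand on the strip. -/
noncomputable def anoF (Φ : ℂ → ℂ) (m : ℕ) (y : ℝ) (z : ℂ) : ℂ :=
  if y < z.im then conj (Φ z) * (z.im : ℂ) ^ 2 * q1 (m * z) else 0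

theorem anoF_int (h : Dec Φ) {m : ℕ} (hm : 0 < m) {y : ℝ} (hy : 0 < y) :
    IntegrableOn (fun z : ℍ => anoF Φ m y z) Str := by
  obtain ⟨C, hC⟩ := h.bd
  have hC0 : 0 ≤ C := (mul_nonneg (norm_nonneg _) UpperHalfPlane.I.im_pos.le).trans (hC _)
  refine integrableOn_Str (g := fun t => C / y * Real.exp (-(2 * π * m) * t) * t ^ 2) ?_ ?_
    fun z _ => ?_
  · exact Measurable.ite (measurableSet_lt measurable_const UpperHalfPlane.continuous_im.measurable)
      (((continuous_conj.measurable.comp h.meas).mul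
        ((continuous_ofReal.comp UpperHalfPlane.continuous_im).pow 2).measurable).mul
        (ano_q1.comp (continuous_const.mul UpperHalfPlane.continuous_coe)).measurable)
      measurable_const
  · refine IntegrableOn.congr_fun (Integrable.const_mul
      (exp_neg_integrableOn_Ioi 0 (by positivity : 0 < 2 * π * m)) (C / y)) (fun t ht => ?_)
      measurableSet_Ioi
    exact (mul_div_cancel_right₀ _ (pow_ne_zero 2 (ne_of_gt ht))).symm
  · rw [anoF]
    split_ifs with k
    · have hz := z.im_pos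
      have h1 := hC z
      rw [norm_mul, norm_mul, ano_norm, norm_conj, norm_pow, norm_real, coe_im,
        Real.norm_of_nonneg hz.le, mul_right_comm]
      refine mul_le_mul_of_nonneg_right (mul_le_mul_of_nonneg_right ?_ (Real.exp_pos _).le)
        (sq_nonneg _)
      rw [le_div_iff₀ hy]
      exact (mul_le_mul_of_nonneg_left (le_of_lt k) (norm_nonneg _)).trans h1
    · rw [norm_zero]
      positivity

theorem anoF_eq (h : Dec Φ) {m : ℕ} (hm : 0 < m) {y : ℝ} (hy : 0 < y) :
    ∫ z in Str, anoF Φ m y z =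
      ∫ t in Ioi y, ∫ x in (0 : ℝ)..1, conj (Φ (x + t * I)) * q1 (m * (x + t * I)) := by
  rw [(integral_Str (anoF_int h hm hy)).2, ← inter_eq_left.2 (Ioi_subset_Ioi hy.le), inter_comm,
    ← setIntegral_indicator measurableSet_Ioi]
  refine setIntegral_congr_fun measurableSet_Ioi fun t ht => ?_
  have h0 : (t : ℂ) ≠ 0 := ofReal_ne_zero.2 (ne_of_gt ht)
  simp only [anoF, ano_im, indicator, mem_Ioi]
  split_ifs
  · rw [← intervalIntegral.integral_const_mul]
    refine intervalIntegral.integral_congr fun x _ => ?_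
    push_cast
    field_simp
  · simp

theorem Dec.cau_horo {Φ : ℂ → ℂ} (h : Dec Φ) {α : ℂ} {β : ℝ}
    (hη : ∀ v, eta L15 v = α * v + β * conj v) {m : ℕ} (hm : 0 < m) {y : ℝ} (hy : 0 < y) :
    ∫ x in (0 : ℝ)..1, cau Φ (x + y * I) * q1 (m * (x + y * I)) =
      (∫ t in Ioi y, ∫ x in (0 : ℝ)..1, conj (Φ (x + t * I)) * q1 (m * (x + t * I))) -
        β * a15 m / m * Real.exp (-4 * π * m * y) *
          ∫ w in XD, conj (Φ w) * f15 w * (w.im : ℂ) ^ 2 := by
  have hu : Continuous fun x : ℝ => Fi (x + y * I) := continuous_iff_continuousAt.2 fun x =>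
    (qe_Fi.hol _ (by rwa [ano_im])).continuousAt.comp (f := fun x : ℝ => (x : ℂ) + y * I)
      (by fun_prop)
  have hq : Continuous fun x : ℝ => q1 (m * (x + y * I)) := ano_q1.comp (by fun_prop)
  obtain ⟨C, hC⟩ := h.lintegral_Zk
  have hI : Integrable (Function.uncurry fun (x : ℝ) (w : ℍ) =>
      Zk (Fi (x + y * I) - Fi w) * anoG Φ w * q1 (m * (x + y * I)))
      ((volume.restrict (uIoc 0 1)).prod (volume.restrict XD)) := by
    have hk : Measurable (Function.uncurry fun (x : ℝ) (w : ℍ) =>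
        Zk (Fi (x + y * I) - Fi w) * anoG Φ w * q1 (m * (x + y * I))) :=
      (ano_ker h hu.measurable).mul (hq.measurable.comp measurable_fst)
    refine ⟨hk.aestronglyMeasurable, ?_⟩
    rw [hasFiniteIntegral_iff_enorm, lintegral_prod _ hk.enorm.aemeasurable]
    refine (lintegral_mono (g := fun _ => ENNReal.ofReal C) fun x : ℝ =>
      (lintegral_mono fun w => ?_).trans (hC (Fi (x + y * I)))).trans_lt ?_
    swap
    · simp
    refine enorm_le_iff_norm_le.2 ((norm_mul _ _).trans_le (mul_le_of_le_one_right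
      (norm_nonneg _) ?_))
    rw [ano_norm, ano_im, Real.exp_le_one_iff]
    exact mul_nonpos_of_nonpos_of_nonneg (neg_nonpos.2 (by positivity)) hy.le
  have hA := hI.integral_prod_right
  have hh : Integrable (Str.indicator fun z : ℍ => anoF Φ m y z) :=
    (integrable_indicator_iff measurableSet_Str).2 (anoF_int h hm hy)
  have h1 := (integral_unfold hh).2.2.2
  rw [integral_indicator measurableSet_Str, anoF_eq h hm hy] at h1
  have h2 : ∫ x in (0 : ℝ)..1, cau Φ (x + y * I) * q1 (m * (x + y * I)) = ∫ w in XD,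
      ∫ x in (0 : ℝ)..1, Zk (Fi (x + y * I) - Fi w) * anoG Φ w * q1 (m * (x + y * I)) := by
    rw [← intervalIntegral_integral_swap hI]
    exact intervalIntegral.integral_congr fun x _ => (integral_mul_const _ _).symm
  set c : ℂ := β * a15 m / m * Real.exp (-4 * π * m * y)
  have hA' : IntegrableOn (fun w : ℍ => ∫ x in (0 : ℝ)..1,
      Zk (Fi (x + y * I) - Fi w) * anoG Φ w * q1 (m * (x + y * I))) XD := by
    simpa only [IntegrableOn, Function.uncurry, uIoc_of_le zero_le_one,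
      intervalIntegral.integral_of_le zero_le_one] using hA
  have h3 : ∫ w in XD, ∑' γ : Gamma0 15, Str.indicator (fun z : ℍ => anoF Φ m y z)
      ((γ : SL(2, ℤ)) • w) = ∫ w in XD, 2 * ((∫ x in (0 : ℝ)..1,
        Zk (Fi (x + y * I) - Fi w) * anoG Φ w * q1 (m * (x + y * I))) + c * anoG Φ w) := by
    refine integral_congr_ae ?_
    filter_upwards [ae_restrict_of_ae (ae_im_ne y), ae_restrict_mem measurableSet_XD] with w k1 k2
    have k := eq_sub_iff_add_eq.1 (res_horo hη hm hy k2 k1)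
    simp only [mul_right_comm _ (anoG Φ w)]
    rw [intervalIntegral.integral_mul_const, ← add_mul, ← mul_assoc, mul_add, k, ← tsum_mul_right]
    refine tsum_congr fun γ => ?_
    rw [← anoG_inv h γ.2 w]
    generalize (γ : SL(2, ℤ)) • w = z
    have := f15_ne z.im_pos
    by_cases k3 : z ∈ Str <;> by_cases k4 : y < z.im <;> simp [anoF, anoG, k3, k4]
    field_simp
  rw [h3, integral_const_mul, integral_add hA' ((anoG_int h).const_mul c), integral_const_mul,
    ← h2] at h1
  exact eq_sub_of_add_eq (mul_left_cancel₀ two_ne_zero h1)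

theorem ano_ofReal {f : ℝ → ℝ} {μ : Measure ℝ} (h : Integrable f μ) (c : ℂ) :
    Integrable (fun x => (f x : ℂ) * c) μ := (Integrable.ofReal (𝕜 := ℂ) h).mul_const c

theorem ano_abel {φ : ℝ → ℂ} {ε : ℝ} (hε : 0 < ε)
    (hi : IntegrableOn (fun t : ℝ => ((t ^ ε : ℝ) : ℂ) * φ t) (Ioi 0)) :
    IntegrableOn (fun y : ℝ => ((ε * y ^ (ε - 1) : ℝ) : ℂ) * ∫ t in Ioi y, φ t) (Ioi 0) ∧
    ∫ y in Ioi (0 : ℝ), ((ε * y ^ (ε - 1) : ℝ) : ℂ) * ∫ t in Ioi y, φ t =
      ∫ t in Ioi (0 : ℝ), ((t ^ ε : ℝ) : ℂ) * φ t := by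
  set k : ℝ → ℝ → ℝ := fun y t => (Iio t).indicator (fun y => ε * y ^ (ε - 1) / t ^ ε) y with hk
  have hI : ∀ t : ℝ, Ioi 0 ∩ Iio t = Ioo 0 t := fun t => rfl
  have k1 : ∀ t, IntegrableOn (fun y => k y t) (Ioi 0) := fun t => by
    rw [hk, IntegrableOn, integrable_indicator_iff measurableSet_Iio, IntegrableOn,
      Measure.restrict_restrict measurableSet_Iio, inter_comm, hI]
    exact ((((intervalIntegral.intervalIntegrable_rpow' (a := 0) (b := t)
      (by linarith : -1 < ε - 1)).1.mono_set Ioo_subset_Ioc_self).const_mul ε).div_const _)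
  have k2 : ∀ t ∈ Ioi (0 : ℝ), ∫ y in Ioi 0, k y t = 1 := fun t ht => by
    have : 0 < t ^ ε := Real.rpow_pos_of_pos ht ε
    rw [hk, setIntegral_indicator measurableSet_Iio, hI, ← integral_Ioc_eq_integral_Ioo,
      ← intervalIntegral.integral_of_le (le_of_lt ht), intervalIntegral.integral_div,
      intervalIntegral.integral_const_mul, integral_rpow (Or.inl (by linarith)), sub_add_cancel,
      Real.zero_rpow hε.ne']
    field_simp
    simp
  have k3 : Measurable fun v : ℝ × ℝ => k v.1 v.2 :=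
    Measurable.ite (measurableSet_lt measurable_fst measurable_snd) (by fun_prop) measurable_const
  have k4 : Integrable (Function.uncurry fun y t : ℝ => (k y t : ℂ) * (((t ^ ε : ℝ) : ℂ) * φ t))
      ((volume.restrict (Ioi 0)).prod (volume.restrict (Ioi 0))) := by
    refine (integrable_prod_iff' ((measurable_ofReal.comp k3).aestronglyMeasurable.mul
      hi.aestronglyMeasurable.comp_snd)).2 ⟨ae_of_all _ fun t =>
        ano_ofReal (k1 t) (((t ^ ε : ℝ) : ℂ) * φ t), hi.norm.congr ?_⟩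
    filter_upwards [ae_restrict_mem measurableSet_Ioi] with t ht
    rw [← one_mul ‖_‖, ← k2 t ht, ← integral_mul_const]
    refine setIntegral_congr_fun measurableSet_Ioi fun y hy => ?_
    have : 0 ≤ k y t := indicator_apply_nonneg fun _ => by
      have : (0 : ℝ) < y := hy
      have : (0 : ℝ) < t := ht
      positivity
    simp only [Pi.mul_apply, Function.comp_apply]
    rw [norm_mul (k y t : ℂ), norm_real, Real.norm_of_nonneg this]
  have k5 : ∀ y ∈ Ioi (0 : ℝ), ∫ t in Ioi 0, (k y t : ℂ) * (((t ^ ε : ℝ) : ℂ) * φ t) =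
      ((ε * y ^ (ε - 1) : ℝ) : ℂ) * ∫ t in Ioi y, φ t := fun y (hy : 0 < y) => by
    rw [← integral_const_mul, ← inter_eq_left.2 (Ioi_subset_Ioi hy.le), inter_comm,
      ← setIntegral_indicator measurableSet_Ioi]
    refine setIntegral_congr_fun measurableSet_Ioi fun t ht => ?_
    have : t ^ ε ≠ 0 := (Real.rpow_pos_of_pos ht ε).ne'
    simp only [hk, indicator, mem_Iio, mem_Ioi]
    split_ifs
    · rw [← mul_assoc, ← ofReal_mul, div_mul_cancel₀ _ this]
    · simp
  refine ⟨IntegrableOn.congr_fun k4.integral_prod_left k5 measurableSet_Ioi, ?_⟩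
  rw [← setIntegral_congr_fun measurableSet_Ioi k5, integral_integral_swap k4]
  refine setIntegral_congr_fun measurableSet_Ioi fun t ht => ?_
  rw [integral_mul_const, integral_complex_ofReal, k2 t ht, ofReal_one, one_mul]

theorem ano_phi (h : Dec Φ) {m : ℕ} (hm : 0 < m) {ε : ℝ} (hε : 0 < ε) :
    IntegrableOn (fun t : ℝ => ((t ^ ε : ℝ) : ℂ) *
      ∫ x in (0 : ℝ)..1, conj (Φ (x + t * I)) * q1 (m * (x + t * I))) (Ioi 0) := by
  obtain ⟨C, hC⟩ := h.bd
  refine IntegrableOn.congr_fun (integral_Str (F := fun z =>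
    ((z.im ^ ε * z.im ^ 2 : ℝ) : ℂ) * (conj (Φ z) * q1 (m * z))) (integrableOn_Str
      (g := fun t => C * (t ^ (ε - 1) * Real.exp (-(2 * π * m) * t ^ (1 : ℝ))) * t ^ 2) ?_ ?_
        fun z _ => ?_)).1 (fun t ht => ?_) measurableSet_Ioi
  · have := UpperHalfPlane.continuous_im.measurable
    exact (measurable_ofReal.comp ((this.pow_const ε).mul (this.pow_const 2))).mul
      ((continuous_conj.measurable.comp h.meas).mul
        (ano_q1.comp (continuous_const.mul UpperHalfPlane.continuous_coe)).measurable)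
  · refine IntegrableOn.congr_fun (Integrable.const_mul (integrableOn_rpow_mul_exp_neg_mul_rpow
      (by linarith : -1 < ε - 1) one_pos (by positivity : 0 < 2 * π * m)) C) (fun t ht => ?_)
      measurableSet_Ioi
    exact (mul_div_cancel_right₀ _ (pow_ne_zero 2 (ne_of_gt ht))).symm
  · have hz := z.im_pos
    rw [norm_mul, norm_mul, ano_norm, norm_conj, norm_real, coe_im, Real.rpow_one,
      Real.norm_of_nonneg (by positivity), Real.rpow_sub_one hz.ne']
    calc _ = ‖Φ z‖ * z.im * (z.im ^ ε / z.im * Real.exp (-(2 * π * m) * z.im)) * z.im ^ 2 := by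
          field_simp
      _ ≤ _ := by gcongr; exact hC z
  · have h0 : (t : ℂ) ≠ 0 := ofReal_ne_zero.2 (ne_of_gt ht)
    simp only [ano_im]
    rw [intervalIntegral.integral_const_mul, ← mul_assoc]
    congr 1
    push_cast
    field_simp

theorem proj : ∃ β : ℝ, ∀ Φ : ℂ → ℂ, Dec Φ → ∀ m : ℕ, 0 < m →
    Tendsto (fun ε : ℝ => ∫ y in Ioi (0 : ℝ), (y ^ ε * Real.exp (-2 * π * m * y) : ℝ) *
      ∫ x in (0 : ℝ)..1, Φ (x + y * I) * q1 (-(m * x))) (𝓝[>] 0)
      (𝓝 (β * a15 m / m * ∫ z in XD, conj (f15 z) * Φ z * (z.im : ℂ) ^ 2)) := by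
  obtain ⟨α, β, -, hη⟩ := exists_eta_eq L15
  refine ⟨β, fun Φ h m hm => ?_⟩
  obtain ⟨C, hC⟩ := ano_bd h
  have h0 := horo_zero (ano_meas h) hC ano_cau_inv hm
  have hr : 0 < 4 * π * m := by positivity
  have h1 : Tendsto (fun ε : ℝ => (1 / (4 * π * m)) ^ ε * Real.Gamma (ε + 1)) (𝓝[>] 0) (𝓝 1) := by
    have : ContinuousAt (fun ε : ℝ => (1 / (4 * π * m)) ^ ε * Real.Gamma (ε + 1)) 0 :=
      (Real.continuousAt_const_rpow (by positivity)).mul
        ((Real.differentiableAt_Gamma fun n => by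
          have : (0 : ℝ) ≤ n := n.cast_nonneg
          intro k; linarith).continuousAt.comp (f := fun ε : ℝ => ε + 1) (by fun_prop))
    simpa using this.tendsto.mono_left nhdsWithin_le_nhds
  set P := β * a15 m / m * ∫ w in XD, conj (Φ w) * f15 w * (w.im : ℂ) ^ 2 with hP
  have h2 := (continuous_conj.tendsto _).comp
    (h0.add (((continuous_ofReal.tendsto 1).comp h1).mul_const P))
  have h3 : conj (0 + ((1 : ℝ) : ℂ) * P) =
      β * a15 m / m * ∫ z in XD, conj (f15 z) * Φ z * (z.im : ℂ) ^ 2 := by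
    rw [zero_add, ofReal_one, one_mul, hP, map_mul, ← integral_conj]
    congr 1
    · simp
    · refine integral_congr_ae (ae_of_all _ fun z => ?_)
      simp [mul_comm]
  rw [h3] at h2
  refine h2.congr' (eventually_mem_nhdsWithin.mono fun ε (hε : 0 < ε) => ?_)
  obtain ⟨k1, k2⟩ := ano_abel hε (ano_phi h hm hε)
  have k3 : IntegrableOn (fun y : ℝ => y ^ (ε - 1) * Real.exp (-(4 * π * m * y))) (Ioi 0) := by
    simpa using integrableOn_rpow_mul_exp_neg_mul_rpow (by linarith : -1 < ε - 1) one_pos hr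
  have k4 : ∫ y in Ioi (0 : ℝ), ((ε * y ^ (ε - 1) : ℝ) : ℂ) *
      ∫ x in (0 : ℝ)..1, cau Φ (x + y * I) * q1 (m * (x + y * I)) = ∫ y in Ioi (0 : ℝ),
      (((ε * y ^ (ε - 1) : ℝ) : ℂ) * (∫ t in Ioi y, ∫ x in (0 : ℝ)..1,
        conj (Φ (x + t * I)) * q1 (m * (x + t * I))) -
        ((ε * (y ^ (ε - 1) * Real.exp (-(4 * π * m * y))) : ℝ) : ℂ) * P) := by
    refine setIntegral_congr_fun measurableSet_Ioi fun y hy => ?_
    rw [h.cau_horo hη hm hy, hP, show -4 * π * m * y = -(4 * π * m * y) by ring, ofReal_mul ε (_ * _),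
      ofReal_mul (_ ^ _), ofReal_mul ε]
    ring
  simp only [Function.comp_apply]
  rw [k4, integral_sub k1 (ano_ofReal (k3.const_mul ε) P), k2,
    integral_mul_const, integral_complex_ofReal, integral_const_mul,
    Real.integral_rpow_mul_exp_neg_mul_Ioi hε hr, Real.Gamma_add_one hε.ne', mul_left_comm ε,
    sub_add_cancel, ← integral_conj]
  refine setIntegral_congr_fun measurableSet_Ioi fun y _ => ?_
  simp only [intervalIntegral.integral_of_le zero_le_one]
  rw [map_mul, conj_ofReal, ← integral_conj, ofReal_mul, mul_assoc]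
  congr 1
  rw [← integral_const_mul]
  refine integral_congr_ae (ae_of_all _ fun x => ?_)
  simp only
  rw [map_mul, conj_conj, mul_left_comm, q1, q1, ← exp_conj, ofReal_exp, ← exp_add]
  congr 2
  simp only [map_mul, map_add, conj_ofReal, conj_I, map_natCast, map_ofNat]
  push_cast
  linear_combination (2 * π * m * y : ℂ) * I_mul_I

end Pool.Agent.Dih
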