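import Pool.Agent.Lib.MP_60ff09_nt.Dih.AN0

/-! Two definite integrals. -/

set_option autoImplicit false

open Complex Filter Topology Set MeasureTheory CongruenceSubgroup NumberTheorySymbols
open UpperHalfPlane hiding I
open scoped Real MatrixGroups ComplexConjugate Modular
open Pool.Agent.Lib.MP_696deb_nt Pool.Agent.Lib.MP_696deb_nt.Unif Pool.Agent.Shared.Weier

namespace Pool.Agent.Dih

theorem jj_neg (c l : ℤ) (Y τ : ℝ) : jj (-c) (-l) Y τ = -jj c l Y τ := by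
  simp only [jj, Int.cast_neg]
  rw [show -(c : ℝ) * √τ - -(l : ℝ) / √τ = -(c * √τ - l / √τ) by ring, neg_sq]
  ring

theorem jj_eq (c l : ℤ) (Y : ℝ) {τ : ℝ} (hτ : 0 < τ) :
    jj c l Y τ = jw c l Y τ * Real.exp (2 * π * Y * (c * l)) := by
  have h1 : √τ ≠ 0 := (Real.sqrt_pos.2 hτ).ne'
  have h2 : ((c : ℝ) * √τ - l / √τ) ^ 2 = τ * c ^ 2 + l ^ 2 / τ - 2 * (c * l) := by
    rw [sub_sq, mul_pow, div_pow, Real.sq_sqrt hτ.le]
    field_simp
    ring
  rw [jj, jw, mul_assoc _ (Real.exp _), ← Real.exp_add, h2]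
  congr 2
  ring

theorem anp_bound {Y : ℝ} (hY : 0 < Y) : ∃ K : ℝ, ∀ c l : ℤ, c ≠ 0 → l ≠ 0 → ∀ τ : ℝ, 0 < τ →
    |Real.log τ / τ * jw c l Y τ| ≤
      (|(c : ℝ)| + |(l : ℝ)|) * K * Real.exp (-(π * Y / 2) * τ) := by
  refine ⟨√Y * (6 / (π * Y / 2) ^ 3), fun c l hc hl τ hτ => ?_⟩
  set a := π * Y / 2 with ha
  have a0 : 0 < a := by positivity
  have i0 : 0 < τ⁻¹ := inv_pos.2 hτ
  have s0 := Real.sqrt_pos.2 hτ
  set s := τ + τ⁻¹ with hs
  have h1 : |Real.log τ| ≤ s := by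
    have k1 := Real.log_le_sub_one_of_pos hτ
    have k2 := Real.log_le_sub_one_of_pos i0
    rw [Real.log_inv] at k2
    rw [abs_le]
    constructor <;> linarith
  have h2 : √τ ≤ s ∧ (√τ)⁻¹ ≤ s := by
    have k1 : τ * τ⁻¹ = 1 := mul_inv_cancel₀ hτ.ne'
    have k2 : 1 ≤ s := by nlinarith [sq_nonneg (τ - τ⁻¹), sq_nonneg (s - 1)]
    rw [← Real.sqrt_inv]
    constructor <;> refine Real.sqrt_le_iff.2 ⟨by linarith, by nlinarith⟩
  have c1 : (1 : ℝ) ≤ (c : ℝ) ^ 2 := by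
    exact_mod_cast (one_le_sq_iff_one_le_abs c).2 (Int.one_le_abs hc)
  have l1 : (1 : ℝ) ≤ (l : ℝ) ^ 2 := by
    exact_mod_cast (one_le_sq_iff_one_le_abs l).2 (Int.one_le_abs hl)
  have h3 : |(c : ℝ) * √τ + l / √τ| ≤ (|(c : ℝ)| + |(l : ℝ)|) * s := by
    refine (abs_add_le _ _).trans ?_
    rw [abs_mul, div_eq_mul_inv, abs_mul, abs_of_pos s0, abs_of_pos (inv_pos.2 s0), add_mul]
    gcongr
    exacts [h2.1, h2.2]
  have h4 : Real.exp (-π * Y * (τ * c ^ 2 + l ^ 2 / τ)) ≤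
      Real.exp (-(a * s)) * Real.exp (-a * τ) := by
    rw [← Real.exp_add]
    refine Real.exp_le_exp.2 ?_
    have k1 : s ≤ τ * c ^ 2 + l ^ 2 / τ := by
      rw [div_eq_mul_inv]
      nlinarith
    have k2 : -π * Y = -(2 * a) := by rw [ha]; ring
    rw [k2]
    nlinarith
  have s1 : 0 < s := by positivity
  have h5 : s ^ 3 * Real.exp (-(a * s)) ≤ 6 / a ^ 3 := by
    have k1 := Real.pow_div_factorial_le_exp (a * s) (by positivity) 3
    rw [Real.exp_neg, ← div_eq_mul_inv, div_le_div_iff₀ (Real.exp_pos _) (by positivity)]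
    rw [div_le_iff₀ (by positivity)] at k1
    norm_num [Nat.factorial] at k1
    nlinarith
  have h6 : τ⁻¹ ≤ s := by linarith
  rw [jw, abs_mul, abs_mul, abs_mul, div_eq_mul_inv, abs_mul, abs_of_pos i0,
    abs_of_pos (Real.sqrt_pos.2 hY), abs_of_pos (Real.exp_pos _)]
  calc _ ≤ s * s * (√Y * ((|(c : ℝ)| + |(l : ℝ)|) * s) *
        (Real.exp (-(a * s)) * Real.exp (-a * τ))) := by gcongr
    _ = (|(c : ℝ)| + |(l : ℝ)|) * (√Y * (s ^ 3 * Real.exp (-(a * s)))) * Real.exp (-a * τ) := by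
      ring
    _ ≤ _ := by gcongr

theorem integral_abs_jw {Y : ℝ} (hY : 0 < Y) : ∃ C : ℝ, ∀ c l : ℤ, c ≠ 0 → l ≠ 0 →
    IntegrableOn (fun τ : ℝ => Real.log τ / τ * jw c l Y τ) (Ioi 0) ∧
    ∫ τ in Ioi (0 : ℝ), |Real.log τ / τ * jw c l Y τ| ≤ C * (|c| + |l|) := by
  obtain ⟨K, hK⟩ := anp_bound hY
  have ha : 0 < π * Y / 2 := by positivity
  have hi := exp_neg_integrableOn_Ioi 0 ha
  refine ⟨K * ∫ τ in Ioi (0 : ℝ), Real.exp (-(π * Y / 2) * τ), fun c l hc hl => ?_⟩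
  have hi' := hi.const_mul ((|(c : ℝ)| + |(l : ℝ)|) * K)
  have hb : ∀ᵐ τ ∂(volume.restrict (Ioi (0 : ℝ))), |Real.log τ / τ * jw c l Y τ| ≤
      (|(c : ℝ)| + |(l : ℝ)|) * K * Real.exp (-(π * Y / 2) * τ) :=
    (ae_restrict_mem measurableSet_Ioi).mono fun τ hτ => hK c l hc hl τ hτ
  have hm : Measurable fun τ : ℝ => Real.log τ / τ * jw c l Y τ := by
    unfold jw
    fun_prop
  have h1 : IntegrableOn (fun τ : ℝ => Real.log τ / τ * jw c l Y τ) (Ioi 0) :=
    hi'.mono' hm.aestronglyMeasurable hb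
  refine ⟨h1, (integral_mono_ae h1.abs hi' hb).trans_eq ?_⟩
  rw [integral_const_mul]
  push_cast
  ring

theorem anp_mass {Y : ℝ} (hY : 0 < Y) {c l : ℤ} (hc : 0 < c) (hl : 0 < l) :
    ∫ τ in Ioi (0 : ℝ), τ⁻¹ * jj c l Y τ = 2 := by
  have c0 : (0 : ℝ) < c := by exact_mod_cast hc
  have l0 : (0 : ℝ) < l := by exact_mod_cast hl
  have him : (fun τ : ℝ => c * √τ - l / √τ) '' Ioi 0 = univ := by
    refine eq_univ_of_forall fun y => ?_
    have h1 : |y| < √(y ^ 2 + 4 * c * l) :=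
      Real.lt_sqrt_of_sq_lt (by rw [sq_abs]; nlinarith [mul_pos c0 l0])
    have h2 := Real.sq_sqrt (show 0 ≤ y ^ 2 + 4 * c * l by positivity)
    set r := √(y ^ 2 + 4 * c * l)
    have h3 : 0 < y + r := by linarith [neg_abs_le y]
    refine ⟨((y + r) / (2 * c)) ^ 2, by simp only [mem_Ioi]; positivity, ?_⟩
    simp only
    rw [Real.sqrt_sq (by positivity)]
    field_simp
    linear_combination h2
  have h4 := integral_image_eq_integral_abs_deriv_smul (s := Ioi (0 : ℝ)) measurableSet_Ioi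
    (f := fun τ => c * √τ - l / √τ) (f' := fun τ => τ⁻¹ * (c * √τ + l / √τ) / 2)
    (fun τ hτ => by
      have t0 : (0 : ℝ) < τ := hτ
      have s0 := Real.sqrt_pos.2 t0
      have k1 := Real.hasDerivAt_sqrt t0.ne'
      refine ((k1.const_mul (c : ℝ)).sub
        ((hasDerivAt_const τ (l : ℝ)).div k1 s0.ne')).hasDerivWithinAt.congr_deriv ?_
      have k2 : τ⁻¹ = (√τ ^ 2)⁻¹ := by rw [Real.sq_sqrt t0.le]
      rw [k2]
      field_simp
      ring)
    (fun x hx y hy e => by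
      have x0 := Real.sqrt_pos.2 (show (0 : ℝ) < x from hx)
      have y0 := Real.sqrt_pos.2 (show (0 : ℝ) < y from hy)
      have k1 : (√x - √y) * (c * (√x * √y) + l) = 0 := by
        simp only at e
        field_simp at e
        linear_combination e
      have k2 := (mul_eq_zero.1 k1).resolve_right (by positivity)
      exact (Real.sqrt_inj (le_of_lt hx) (le_of_lt hy)).1 (sub_eq_zero.1 k2))
    fun v => 2 * √Y * Real.exp (-(π * Y) * v ^ 2)
  rw [him, Measure.restrict_univ, integral_const_mul, integral_gaussian,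
    show π / (π * Y) = Y⁻¹ by field_simp, Real.sqrt_inv,
    mul_inv_cancel_right₀ (Real.sqrt_pos.2 hY).ne'] at h4
  rw [h4]
  refine setIntegral_congr_fun measurableSet_Ioi fun τ hτ => ?_
  have t0 : (0 : ℝ) < τ := hτ
  have s0 := Real.sqrt_pos.2 t0
  rw [abs_of_pos (by positivity), smul_eq_mul, jj, neg_mul π Y]
  ring

theorem integral_jj_pos {Y : ℝ} (hY : 0 < Y) {c l : ℤ} (hc : 0 < c) (hl : 0 < l) :
    ∫ τ in Ioi (0 : ℝ), Real.log τ / τ * jj c l Y τ = 2 * (Real.log l - Real.log c) := by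
  have c0 : (0 : ℝ) < c := by exact_mod_cast hc
  have l0 : (0 : ℝ) < l := by exact_mod_cast hl
  have h1 := anp_mass hY hc hl
  have h2 : IntegrableOn (fun τ : ℝ => τ⁻¹ * jj c l Y τ) (Ioi 0) :=
    Integrable.of_integral_ne_zero (by rw [h1]; norm_num)
  obtain ⟨C, hC⟩ := integral_abs_jw hY
  have h3 : IntegrableOn (fun τ : ℝ => Real.log τ / τ * jj c l Y τ) (Ioi 0) :=
    IntegrableOn.congr_fun ((hC c l hc.ne' hl.ne').1.mul_const (Real.exp (2 * π * Y * (c * l))))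
      (fun τ hτ => by simp only [jj_eq c l Y hτ, mul_assoc]) measurableSet_Ioi
  set k : ℝ := ((l : ℝ) / c) ^ 2 with hk
  have k0 : 0 < k := by positivity
  have him : (fun τ : ℝ => k / τ) '' Ioi 0 = Ioi 0 := by
    refine Subset.antisymm ?_ fun τ hτ => ⟨k / τ, div_pos k0 hτ, ?_⟩
    · rintro _ ⟨τ, hτ, rfl⟩
      exact div_pos k0 hτ
    · exact div_div_cancel₀ k0.ne'
  have h4 := integral_image_eq_integral_abs_deriv_smul (s := Ioi (0 : ℝ)) measurableSet_Ioi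
    (f := fun τ => k / τ) (f' := fun τ => -k / τ ^ 2)
    (fun τ hτ => by
      have := ((hasDerivAt_inv (ne_of_gt hτ)).const_mul k).hasDerivWithinAt (s := Ioi 0)
      simpa only [div_eq_mul_inv, mul_neg, neg_mul] using this)
    (fun x _ y _ e => inv_injective (mul_left_cancel₀ k0.ne' e))
    fun τ => Real.log τ / τ * jj c l Y τ
  have h5 : ∫ τ in Ioi (0 : ℝ), |-k / τ ^ 2| • (Real.log (k / τ) / (k / τ) * jj c l Y (k / τ)) =
      ∫ τ in Ioi (0 : ℝ), (Real.log k * (τ⁻¹ * jj c l Y τ) - Real.log τ / τ * jj c l Y τ) := by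
    refine setIntegral_congr_fun measurableSet_Ioi fun τ hτ => ?_
    have t0 : (0 : ℝ) < τ := hτ
    have s0 := Real.sqrt_pos.2 t0
    have e1 : √(k / τ) = l / c / √τ := by
      rw [Real.sqrt_div k0.le, hk, Real.sqrt_sq (by positivity)]
    have e2 : jj c l Y (k / τ) = jj c l Y τ := by
      rw [jj, jj, e1, show (c : ℝ) * (l / c / √τ) = l / √τ by field_simp,
        show (l : ℝ) / (l / c / √τ) = c * √τ by field_simp, add_comm ((l : ℝ) / √τ),
        ← neg_sub ((c : ℝ) * √τ), neg_sq]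
    rw [e2, neg_div, abs_neg, abs_of_pos (by positivity), Real.log_div k0.ne' t0.ne', smul_eq_mul]
    field_simp
  rw [him, h5, integral_sub (h2.const_mul _) h3, integral_const_mul, h1, hk, Real.log_pow,
    Real.log_div l0.ne' c0.ne'] at h4
  push_cast at h4
  linarith

end Pool.Agent.Dih
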