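import Pool.Agent.Lib.MP_60ff09_nt.Dih.ANp

/-! The integral at a negative index. -/

set_option autoImplicit false

open Complex Filter Topology Set MeasureTheory CongruenceSubgroup NumberTheorySymbols
open UpperHalfPlane hiding I
open scoped Real MatrixGroups ComplexConjugate Modular
open Pool.Agent.Lib.MP_696deb_nt Pool.Agent.Lib.MP_696deb_nt.Unif Pool.Agent.Shared.Weier

namespace Pool.Agent.Dih

/-- The combination of a square root and its inverse. -/
noncomputable def anp2_v (c l τ : ℝ) : ℝ := c * √τ + l / √τ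

/-- The tail of the Gaussian integral. -/
noncomputable def anp2_G (a x : ℝ) : ℝ := ∫ s in Ioi x, Real.exp (-a * s ^ 2)

theorem anp2_dv (c l : ℝ) {τ : ℝ} (h : 0 < τ) :
    HasDerivAt (anp2_v c l) (anp2_v c (-l) τ / (2 * τ)) τ := by
  have h1 := Real.hasDerivAt_sqrt h.ne'
  have h2 : √τ ≠ 0 := (Real.sqrt_pos.2 h).ne'
  refine ((h1.const_mul c).add ((hasDerivAt_const τ l).div h1 h2)).congr_deriv ?_
  unfold anp2_v
  obtain ⟨r, hr, rfl⟩ : ∃ r : ℝ, 0 < r ∧ τ = r ^ 2 := ⟨√τ, Real.sqrt_pos.2 h, (Real.sq_sqrt h.le).symm⟩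
  rw [Real.sqrt_sq hr.le]
  field_simp
  ring

theorem anp2_sq (c l : ℝ) {τ : ℝ} (h : 0 < τ) :
    anp2_v c l τ ^ 2 = anp2_v c (-l) τ ^ 2 + 4 * (c * l) := by
  have h2 : √τ ≠ 0 := (Real.sqrt_pos.2 h).ne'
  unfold anp2_v
  field_simp
  ring

theorem anp2_pos {c l τ : ℝ} (hc : 0 < c) (hl : 0 < l) (h : 0 < τ) : 0 < anp2_v c l τ := by
  have := Real.sqrt_pos.2 h
  unfold anp2_v
  positivity

theorem anp2_gauss {c l b : ℝ} (hc : 0 < c) (hl : 0 < l) (hb : 0 < b) :
    IntegrableOn (fun τ => anp2_v c l τ / (2 * τ) * Real.exp (-b * anp2_v c (-l) τ ^ 2)) (Ioi 0) ∧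
    ∫ τ in Ioi 0, anp2_v c l τ / (2 * τ) * Real.exp (-b * anp2_v c (-l) τ ^ 2) = √(π / b) := by
  have hd : ∀ τ ∈ Ioi (0 : ℝ), HasDerivWithinAt (anp2_v c (-l)) (anp2_v c l τ / (2 * τ)) (Ioi 0) τ :=
    fun τ h => by simpa only [neg_neg] using (anp2_dv c (-l) h).hasDerivWithinAt
  have hi : InjOn (anp2_v c (-l)) (Ioi 0) := StrictMonoOn.injOn fun x hx y hy h => by
    have h1 := Real.sqrt_lt_sqrt (le_of_lt hx) h
    have h2 := Real.sqrt_pos.2 hx
    unfold anp2_v
    rw [neg_div, neg_div]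
    gcongr
  have hs : anp2_v c (-l) '' Ioi 0 = univ := eq_univ_of_forall fun s => by
    have h1 : |s| < √(s ^ 2 + 4 * c * l) := Real.lt_sqrt_of_sq_lt (by rw [sq_abs]; nlinarith [mul_pos hc hl])
    have h2 := Real.sq_sqrt (show 0 ≤ s ^ 2 + 4 * c * l by positivity)
    have h3 : 0 < s + √(s ^ 2 + 4 * c * l) := by linarith [neg_abs_le s]
    refine ⟨((s + √(s ^ 2 + 4 * c * l)) / (2 * c)) ^ 2, mem_Ioi.2 (by positivity), ?_⟩
    unfold anp2_v
    rw [Real.sqrt_sq (by positivity)]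
    generalize √(s ^ 2 + 4 * c * l) = t at h2 h3
    field_simp
    linear_combination h2
  have he : ∀ τ ∈ Ioi (0 : ℝ), |anp2_v c l τ / (2 * τ)| • Real.exp (-b * anp2_v c (-l) τ ^ 2) =
      anp2_v c l τ / (2 * τ) * Real.exp (-b * anp2_v c (-l) τ ^ 2) := fun τ h => by
    rw [abs_of_pos (div_pos (anp2_pos hc hl h) (mul_pos two_pos h)), smul_eq_mul]
  have h1 := integrableOn_image_iff_integrableOn_abs_deriv_smul measurableSet_Ioi hd hi
    fun s => Real.exp (-b * s ^ 2)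
  have h2 := integral_image_eq_integral_abs_deriv_smul measurableSet_Ioi hd hi
    fun s => Real.exp (-b * s ^ 2)
  rw [hs] at h1 h2
  rw [setIntegral_univ, integral_gaussian, setIntegral_congr_fun measurableSet_Ioi he] at h2
  exact ⟨(h1.1 (integrable_exp_neg_mul_sq hb).integrableOn).congr_fun he measurableSet_Ioi, h2.symm⟩

theorem anp2_dG {a : ℝ} (ha : 0 < a) (x : ℝ) :
    HasDerivAt (anp2_G a) (-Real.exp (-a * x ^ 2)) x := by
  have h1 : Continuous fun s : ℝ => Real.exp (-a * s ^ 2) := by fun_prop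
  have h2 : anp2_G a = fun x => anp2_G a 0 - ∫ s in (0 : ℝ)..x, Real.exp (-a * s ^ 2) := by
    funext x
    rw [← intervalIntegral.integral_Ioi_sub_Ioi' (integrable_exp_neg_mul_sq ha).integrableOn
      (integrable_exp_neg_mul_sq ha).integrableOn, anp2_G, anp2_G, sub_sub_cancel]
  rw [h2]
  exact (h1.integral_hasStrictDerivAt 0 x).hasDerivAt.const_sub _

theorem anp2_tail {a : ℝ} (ha : 0 < a) : Tendsto (fun x => x * anp2_G a x) atTop (𝓝 0) := by
  refine squeeze_zero' ?_ ?_ (tendsto_integral_Ioi_zero (μ := volume)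
    (f := fun s : ℝ => s * Real.exp (-a * s ^ 2)) tendsto_id)
  · filter_upwards [eventually_ge_atTop 0] with x hx
    exact mul_nonneg hx (integral_nonneg fun _ => (Real.exp_pos _).le)
  · filter_upwards with x
    rw [anp2_G, ← integral_const_mul]
    exact setIntegral_mono_on ((integrable_exp_neg_mul_sq ha).const_mul x).integrableOn
      (integrable_mul_exp_neg_mul_sq ha).integrableOn measurableSet_Ioi fun s hs =>
        mul_le_mul_of_nonneg_right (le_of_lt hs) (Real.exp_pos _).le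

theorem anp2_lim {a c l : ℝ} (ha : 0 < a) (hc : 1 ≤ c) (hl : 1 ≤ l) {F : Filter ℝ}
    (h0 : ∀ᶠ τ in F, 0 < τ) (h : Tendsto (fun τ => √τ + (√τ)⁻¹) F atTop) :
    Tendsto (fun τ => Real.log τ * anp2_G a (anp2_v c l τ)) F (𝓝 0) := by
  have h1 : ∀ τ : ℝ, √τ + (√τ)⁻¹ ≤ anp2_v c l τ := fun τ => by
    have := Real.sqrt_nonneg τ
    rw [anp2_v, div_eq_mul_inv]
    exact add_le_add (le_mul_of_one_le_left this hc) (le_mul_of_one_le_left (inv_nonneg.2 this) hl)
  have h2 := ((anp2_tail ha).comp (tendsto_atTop_mono h1 h)).const_mul 2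
  rw [mul_zero] at h2
  refine squeeze_zero_norm' ?_ h2
  filter_upwards [h0] with τ hτ
  have h3 := Real.sqrt_pos.2 hτ
  have h4 := Real.log_le_sub_one_of_pos h3
  have h5 := Real.log_le_sub_one_of_pos (inv_pos.2 h3)
  rw [Real.log_inv] at h5
  rw [Real.log_sqrt hτ.le] at h4 h5
  have h6 : 0 ≤ anp2_G a (anp2_v c l τ) := integral_nonneg fun _ => (Real.exp_pos _).le
  rw [norm_mul, Real.norm_of_nonneg h6, Function.comp_apply, ← mul_assoc]
  refine mul_le_mul_of_nonneg_right (abs_le.2 ⟨?_, ?_⟩) h6 <;>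
    linarith [h1 τ, inv_pos.2 h3]

theorem anp2_fub {a c l : ℝ} (ha : 0 < a) (hc : 0 < c) (hl : 0 < l) :
    IntegrableOn (fun τ => τ⁻¹ * anp2_G a (anp2_v c l τ)) (Ioi 0) ∧
    ∫ τ in Ioi 0, τ⁻¹ * anp2_G a (anp2_v c l τ) = √(π / a) * bet (4 * a * (c * l)) := by
  let f : ℝ → ℝ → ℝ := fun τ r =>
    2 * (anp2_v c l τ / (2 * τ)) * Real.exp (-a * (anp2_v c l τ * r) ^ 2)
  have hcl := mul_pos hc hl
  have e1 : ∀ τ ∈ Ioi (0 : ℝ), ∫ r in Ioi (1 : ℝ), f τ r = τ⁻¹ * anp2_G a (anp2_v c l τ) :=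
    fun τ h => by
      have h1 := anp2_pos hc hl h
      have h2 : τ ≠ 0 := ne_of_gt h
      rw [integral_const_mul, integral_comp_mul_left_Ioi (fun s => Real.exp (-a * s ^ 2)) 1 h1,
        mul_one, smul_eq_mul, anp2_G]
      field_simp
  have e2 : ∀ τ ∈ Ioi (0 : ℝ), ∀ r, f τ r = anp2_v c l τ / (2 * τ) *
      Real.exp (-(a * r ^ 2) * anp2_v c (-l) τ ^ 2) * (2 * Real.exp (-(4 * a * (c * l)) * r ^ 2)) :=
    fun τ h r => by
      simp only [f]
      rw [mul_pow, anp2_sq c l h, show -a * ((anp2_v c (-l) τ ^ 2 + 4 * (c * l)) * r ^ 2) =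
        -(a * r ^ 2) * anp2_v c (-l) τ ^ 2 + -(4 * a * (c * l)) * r ^ 2 by ring, Real.exp_add]
      ring
  have hi : Integrable (Function.uncurry f)
      ((volume.restrict (Ioi (0 : ℝ))).prod (volume.restrict (Ioi (1 : ℝ)))) := by
    refine ((anp2_gauss hc hl ha).1.mul_prod (((integrable_exp_neg_mul_sq
      (show 0 < 4 * a * (c * l) by positivity)).const_mul 2).integrableOn (s := Ioi 1))).mono'
      (Measurable.aestronglyMeasurable (by unfold f anp2_v; fun_prop)) ?_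
    rw [Measure.prod_restrict]
    refine (ae_restrict_iff' (measurableSet_Ioi.prod measurableSet_Ioi)).2
      (Eventually.of_forall fun z hz => ?_)
    have h1 := anp2_pos hc hl hz.1
    have h2 : 0 < z.1 := hz.1
    have h3 : a ≤ a * z.2 ^ 2 := le_mul_of_one_le_right ha.le (one_le_pow₀ (le_of_lt hz.2))
    rw [Function.uncurry_def]
    simp only [e2 _ hz.1]
    rw [Real.norm_of_nonneg (by positivity)]
    gcongr
  refine ⟨hi.integral_prod_left.congr ((ae_restrict_iff' measurableSet_Ioi).2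
    (Eventually.of_forall e1)), ?_⟩
  rw [← setIntegral_congr_fun measurableSet_Ioi e1, integral_integral_swap hi, bet,
    ← integral_comp_rpow_Ioi_of_pos' (g := fun u => Real.exp (-(4 * a * (c * l)) * u) / u) two_pos
      zero_le_one, Real.one_rpow, ← integral_const_mul]
  refine setIntegral_congr_fun measurableSet_Ioi fun r hr => ?_
  have h1 : 0 < r := one_pos.trans hr
  rw [setIntegral_congr_fun measurableSet_Ioi fun τ h => e2 τ h r, integral_mul_const,
    (anp2_gauss hc hl (by positivity)).2, ← div_div, Real.sqrt_div' _ (sq_nonneg r),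
    Real.sqrt_sq h1.le, Real.rpow_two, show (2 : ℝ) - 1 = 1 by norm_num, Real.rpow_one, smul_eq_mul]
  field_simp

theorem integral_jj_neg {Y : ℝ} (hY : 0 < Y) {c l : ℤ} (hc : 0 < c) (hl : 0 < l) :
    ∫ τ in Ioi (0 : ℝ), Real.log τ / τ * jj c (-l) Y τ = 2 * bet (4 * π * Y * (c * l)) := by
  have hc' : (1 : ℝ) ≤ c := by exact_mod_cast hc
  have hl' : (1 : ℝ) ≤ l := by exact_mod_cast hl
  have ha : 0 < π * Y := by positivity
  obtain ⟨f1, f2⟩ := anp2_fub ha (one_pos.trans_le hc') (one_pos.trans_le hl')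
  obtain ⟨C, hC⟩ := integral_abs_jw hY
  have sY : √Y ≠ 0 := (Real.sqrt_pos.2 hY).ne'
  have e : ∀ τ ∈ Ioi (0 : ℝ), Real.log τ / τ * jj c (-l) Y τ = -2 * √Y * (Real.log τ *
      (-Real.exp (-(π * Y) * anp2_v c l τ ^ 2) * (anp2_v c (-l) τ / (2 * τ)))) := fun τ h => by
    have h2 : τ ≠ 0 := ne_of_gt h
    rw [jj, anp2_v, anp2_v, Int.cast_neg, neg_div, sub_neg_eq_add, neg_mul π]
    field_simp
  have i1 : IntegrableOn (fun τ => Real.log τ *
      (-Real.exp (-(π * Y) * anp2_v c l τ ^ 2) * (anp2_v c (-l) τ / (2 * τ)))) (Ioi 0) := by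
    refine IntegrableOn.congr_fun (((hC c (-l) hc.ne' (neg_ne_zero.2 hl.ne')).1.mul_const
      (Real.exp (2 * π * Y * (c * (-l : ℤ))))).const_mul (-2 * √Y)⁻¹ :) (fun τ h => ?_)
      measurableSet_Ioi
    rw [mul_assoc (_ / _), ← jj_eq _ _ _ h, e τ h, inv_mul_cancel_left₀ (by simpa using sY)]
  have h1 := integral_Ioi_mul_deriv_eq_deriv_mul (u := Real.log)
    (v := fun τ => anp2_G (π * Y) (anp2_v c l τ)) (fun τ h => Real.hasDerivAt_log (ne_of_gt h))
    (fun τ h => (anp2_dG ha _).comp τ (anp2_dv c l h)) i1 f1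
    (anp2_lim ha hc' hl' self_mem_nhdsWithin (tendsto_atTop_mono
      (fun τ => le_add_of_nonneg_left (Real.sqrt_nonneg τ)) (tendsto_inv_nhdsGT_zero.comp
        (tendsto_nhdsWithin_iff.2 ⟨(Real.continuous_sqrt.tendsto' 0 0 Real.sqrt_zero).mono_left
          nhdsWithin_le_nhds, eventually_mem_nhdsWithin.mono fun _ h => Real.sqrt_pos.2 h⟩))))
    (anp2_lim ha hc' hl' (eventually_gt_atTop 0) (tendsto_atTop_mono
      (fun τ => le_add_of_nonneg_right (inv_nonneg.2 (Real.sqrt_nonneg τ))) Real.tendsto_sqrt_atTop))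
  rw [setIntegral_congr_fun measurableSet_Ioi e, integral_const_mul, h1, f2, ← div_div,
    div_self Real.pi_ne_zero, one_div, Real.sqrt_inv, mul_assoc 4 π]
  field_simp
  ring

end Pool.Agent.Dih
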