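import Pool.Agent.Lib.MP_60ff09_nt.Dih.ANh2
import Pool.Agent.Lib.MP_60ff09_nt.Dih.ANp2
import Pool.Agent.Lib.MP_60ff09_nt.Dih.ANr

/-! The Fourier coefficients of the kernel. -/

set_option autoImplicit false

open Complex Filter Topology Set MeasureTheory CongruenceSubgroup NumberTheorySymbols
open UpperHalfPlane hiding I
open scoped Real MatrixGroups ComplexConjugate Modular
open Pool.Agent.Lib.MP_696deb_nt Pool.Agent.Lib.MP_696deb_nt.Unif Pool.Agent.Shared.Weier

namespace Pool.Agent.Dih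

variable {A : Par} {T : Finset Fm} {w : Fm → ℤ}

private lemma hs_int {ι : Type} [Countable ι] {F : ι → ℝ → ℂ} {f : ℝ → ℂ} {B : ι → ℝ}
    (hc : ∀ n, Continuous (F n)) (hb : ∀ n t, ‖F n t‖ ≤ B n) (hB : Summable B)
    (hl : ∀ t, HasSum (fun n => F n t) (f t)) :
    HasSum (fun n => ∫ t in (0 : ℝ)..1, F n t) (∫ t in (0 : ℝ)..1, f t) :=
  intervalIntegral.hasSum_integral_of_dominated_convergence (fun n _ => B n)
    (fun n => (hc n).aestronglyMeasurable) (fun n => ae_of_all _ fun t _ => hb n t)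
    (ae_of_all _ fun _ _ => hB) intervalIntegrable_const (ae_of_all _ fun t _ => hl t)

private lemma cont_q1 : Continuous q1 := by unfold q1; fun_prop

private lemma int_q1 (m : ℤ) : ∫ x in (0 : ℝ)..1, q1 (m * x) = if m = 0 then 1 else 0 := by
  split_ifs with h
  · simp [h, q1]
  · have h1 : (2 * π * I * m : ℂ) ≠ 0 := by
      simp [h, Real.pi_ne_zero]
    have h2 : ∀ x : ℝ, q1 (m * x) = cexp ((2 * π * I * m) * x) := fun x => by
      rw [q1, mul_assoc (2 * π * I)]
    simp_rw [h2]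
    rw [integral_exp_mul_complex h1]
    have h3 := q1_int m
    rw [q1] at h3
    simp [h3]

private lemma q1_im (t : ℝ) : q1 (t * I) = Real.exp (-2 * π * t) := by
  rw [q1, Complex.ofReal_exp]
  congr 1
  push_cast
  linear_combination (2 * π * t) * I_mul_I

private lemma coef_Gc (h : A.Dat T w) (M : ℕ) (k : ℤ) {y : ℝ} (hy : 0 < y) :
    ∫ x in (0 : ℝ)..1, A.Gc T w k (x + y * I) * q1 (15 * k * x / A.n) * q1 (-(M * x)) =
      rW T w (M * A.n - 15 * k) *
        (Real.exp (-2 * π * M * y) * Real.exp (2 * π * (15 * y / A.n) * k) : ℝ) := by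
  have hn : (A.n : ℂ) ≠ 0 := Nat.cast_ne_zero.mpr h.ok.n_pos.ne'
  have hn' : (A.n : ℝ) ≠ 0 := Nat.cast_ne_zero.mpr h.ok.n_pos.ne'
  set a : ℤ → ℂ := fun m => (rW T w (m * A.n - 15 * k) : ℂ) *
    q1 ((m * A.n - 15 * k) * (y * I) / A.n) with ha
  have hs : Summable fun m => ‖a m‖ :=
    summable_norm_iff.mpr (h.hasSum_Gc k (z := y * I) (by simpa using hy)).summable
  have key := hs_int (F := fun (m : ℤ) (x : ℝ) => a m * q1 (((m - M : ℤ) : ℂ) * x))
    (f := fun x : ℝ => A.Gc T w k (x + y * I) * q1 (15 * k * x / A.n) * q1 (-(M * x)))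
    (B := fun m => ‖a m‖)
    (fun m => continuous_const.mul (cont_q1.comp (by fun_prop)))
    (fun m t => by rw [norm_mul, norm_q1]; simp) hs
    (fun x => by
      have := ((h.hasSum_Gc k (z := x + y * I) (by simpa using hy)).mul_right
        (q1 (15 * k * x / A.n))).mul_right (q1 (-(M * x)))
      refine this.congr_fun fun m => ?_
      simp only [ha, mul_assoc, ← q1_add]
      congr 2
      push_cast
      field_simp
      ring)
  simp only [intervalIntegral.integral_const_mul, int_q1] at key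
  have h2 : HasSum (fun m : ℤ => a m * if m - M = 0 then 1 else 0) (a M) := by
    have := hasSum_single (f := fun m : ℤ => a m * if m - M = 0 then (1 : ℂ) else 0) (M : ℤ)
      (fun m hm => by rw [if_neg (sub_ne_zero.mpr hm), mul_zero])
    simpa using this
  rw [key.unique h2, ha]
  simp only
  congr 1
  rw [← Real.exp_add]
  have : ((M : ℤ) * A.n - 15 * k : ℂ) * (y * I) / A.n =
      (((M * A.n - 15 * k) * y / A.n : ℝ) : ℂ) * I := by
    push_cast
    ring
  rw [this, q1_im]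
  congr 2
  field_simp
  ring

theorem Par.Dat.coef_Kk (h : A.Dat T w) (M : ℕ) {y τ : ℝ} (hy : 0 < y) (hτ : 0 < τ) :
    ∫ x in (0 : ℝ)..1, A.Kk T w (x + y * I) τ * q1 (-(M * x)) =
      y * (-I * A.gg / A.n) * (Real.exp (-2 * π * M * y) * ∑' v : ℤ × ℤ,
        (rW T w (M * A.n - 15 * (v.1 * v.2)) * A.lam v.1 v.2 : ℤ) *
          jj v.1 v.2 (15 * y / A.n) τ : ℝ) := by
  have hn' : (0 : ℝ) < A.n := Nat.cast_pos.mpr h.ok.n_pos
  have hY : 0 < 15 * y / A.n := by positivity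
  obtain ⟨C, hC⟩ := h.norm_Gc_le
  have him : ∀ x : ℝ, (x + y * I : ℂ).im = y := fun x => by simp
  have hre : ∀ x : ℝ, (x + y * I : ℂ).re = x := fun x => by simp
  set F : ℤ × ℤ → ℝ → ℂ := fun v x => (A.lam v.1 v.2 * jw v.1 v.2 (15 * y / A.n) τ : ℂ) *
    (A.Gc T w (v.1 * v.2) (x + y * I) * q1 (15 * ((v.1 * v.2 : ℤ) : ℂ) * x / A.n) *
      q1 (-(M * x))) with hF
  have hb : ∀ v x, ‖F v x‖ ≤ |jw v.1 v.2 (15 * y / A.n) τ| * (C * (1 + 1 / y)) := fun v x => by
    have h1 := hC (v.1 * v.2) (x + y * I) (by rw [him]; exact hy)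
    rw [him] at h1
    have h2 : ‖(A.lam v.1 v.2 : ℂ)‖ ≤ 1 := by
      rw [Complex.norm_intCast]
      exact_mod_cast h.ok.abs_lam_le v.1 v.2
    have h3 : ‖q1 (15 * ((v.1 * v.2 : ℤ) : ℂ) * x / A.n)‖ = 1 := by
      have : (15 * ((v.1 * v.2 : ℤ) : ℂ) * x / A.n) =
          ((15 * ((v.1 * v.2 : ℤ) : ℝ) * x / A.n : ℝ) : ℂ) := by push_cast; ring
      rw [this, norm_q1]; simp only [ofReal_im, mul_zero, Real.exp_zero]
    have h4 : ‖q1 (-(M * x))‖ = 1 := by rw [norm_q1]; simp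
    simp only [hF, norm_mul, h3, h4, mul_one, Complex.norm_real, Real.norm_eq_abs]
    exact mul_le_mul (mul_le_of_le_one_left (abs_nonneg _) h2) h1 (norm_nonneg _) (abs_nonneg _)
  have hB := (summable_jw hY hτ).mul_right (C * (1 + 1 / y))
  have key := hs_int (F := F) (f := fun x => ∑' v, F v x) (fun v => by
      refine continuous_const.mul (Continuous.mul (Continuous.mul ?_ ?_) ?_)
      · exact (h.continuousOn_Gc _).comp_continuous (by fun_prop) fun x => by
          simpa using hy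
      · exact cont_q1.comp (by fun_prop)
      · exact cont_q1.comp (by fun_prop)) hb hB
    fun x => (Summable.of_norm_bounded hB fun v => hb v x).hasSum
  have h1 : ∀ x : ℝ, A.Kk T w (x + y * I) τ * q1 (-(M * x)) =
      y * (-I * A.gg / A.n) * ∑' v, F v x := fun x => by
    rw [h.Kk_eq (by rw [him]; exact hy) hτ, him, hre, mul_assoc, ← tsum_mul_right]
    congr 1
    refine tsum_congr fun v => ?_
    simp only [hF]
    push_cast
    ring
  simp_rw [h1]
  rw [intervalIntegral.integral_const_mul, ← key.tsum_eq]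
  congr 1
  rw [← tsum_mul_left, Complex.ofReal_tsum]
  refine tsum_congr fun v => ?_
  simp only [hF]
  rw [intervalIntegral.integral_const_mul, coef_Gc h M _ hy, jj_eq _ _ _ hτ]
  push_cast
  ring

private lemma tsum_div {b : ℤ × ℤ → ℝ} (hb : Summable b) (h0 : ∀ v, v.1 * v.2 = 0 → b v = 0)
    (hn : ∀ c l, b (-c, -l) = b (c, l)) :
    (Summable fun k : ℕ => ∑ c ∈ k.divisors, b (c, (k / c : ℕ))) ∧
    (Summable fun k : ℕ => ∑ c ∈ k.divisors, b (c, -(k / c : ℕ))) ∧
    ∑' v, b v = 2 * (∑' k : ℕ, ∑ c ∈ k.divisors, b (c, (k / c : ℕ)) +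
      ∑' k : ℕ, ∑ c ∈ k.divisors, b (c, -(k / c : ℕ))) := by
  have h1 := hb.hasSum.tsum_fiberwise fun v => v.1 * v.2
  have h2 : ∀ k : ℤ, ∑' v : (fun v : ℤ × ℤ => v.1 * v.2) ⁻¹' {k}, b v =
      ∑ v ∈ k.divisorsAntidiag, b v := fun k => by
    rw [tsum_subtype, tsum_eq_sum (s := k.divisorsAntidiag)]
    · refine Finset.sum_congr rfl fun v hv => indicator_of_mem ?_ _
      exact (Int.mem_divisorsAntidiag.mp hv).1
    · intro v hv
      by_cases h : v ∈ (fun v : ℤ × ℤ => v.1 * v.2) ⁻¹' {k}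
      · rw [indicator_of_mem h]
        refine h0 v ?_
        by_contra h3
        have h4 : v.1 * v.2 = k := h
        exact hv (Int.mem_divisorsAntidiag.mpr ⟨h4, h4 ▸ h3⟩)
      · exact indicator_of_notMem h _
  simp_rw [h2] at h1
  have h3 : ∀ k : ℕ, ∑ v ∈ (k : ℤ).divisorsAntidiag, b v =
      2 * ∑ c ∈ k.divisors, b (c, (k / c : ℕ)) := fun k => by
    rw [Int.divisorsAntidiag_natCast, Finset.sum_disjUnion, Finset.sum_map, Finset.sum_map,
      ← Nat.sum_divisorsAntidiagonal fun c l : ℕ => b (c, l), two_mul]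
    congr 1
    exact Finset.sum_congr rfl fun v _ => hn v.1 v.2
  have h4 : ∀ k : ℕ, ∑ v ∈ (-k : ℤ).divisorsAntidiag, b v =
      2 * ∑ c ∈ k.divisors, b (c, -(k / c : ℕ)) := fun k => by
    rw [Int.divisorsAntidiag_neg_natCast, Finset.sum_disjUnion, Finset.sum_map, Finset.sum_map,
      ← Nat.sum_divisorsAntidiagonal fun c l : ℕ => b (c, -l), two_mul]
    congr 1
    refine Finset.sum_congr rfl fun v _ => ?_
    have := hn v.1 (-v.2)
    rw [neg_neg] at this
    exact this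
  have s1 := h1.summable.comp_injective (Nat.cast_injective (R := ℤ))
  have s2 := h1.summable.comp_injective
    (neg_injective.comp (Nat.cast_injective (R := ℤ)))
  have h5 := Summable.tsum_of_nat_of_neg (f := fun k : ℤ => ∑ v ∈ k.divisorsAntidiag, b v) s1 s2
  simp only [Function.comp_def, h3, h4] at s1 s2
  refine ⟨(summable_mul_left_iff two_ne_zero).mp s1, (summable_mul_left_iff two_ne_zero).mp s2, ?_⟩
  rw [← h1.tsum_eq, h5]
  simp only [h3, h4, tsum_mul_left, Int.divisorsAntidiag_zero, Finset.sum_empty]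
  ring

private lemma summable_u {a : ℝ} (ha : 0 < a) :
    Summable fun c : ℤ => |(c : ℝ)| ^ 3 * Real.exp (-a * |(c : ℝ)|) := by
  have h := Real.summable_pow_mul_exp_neg_nat_mul 3 ha
  refine Summable.of_nat_of_neg ?_ ?_ <;> simpa using h

private lemma abs_rW_sq (h : A.Dat T w) : ∃ C : ℝ, 0 ≤ C ∧ ∀ N : ℤ,
    |(rW T w N : ℝ)| ≤ C * (N : ℝ) ^ 2 := by
  obtain ⟨C, hC⟩ := h.abs_rW_le
  refine ⟨|C|, abs_nonneg _, fun N => ?_⟩
  rcases lt_trichotomy N 0 with h1 | h1 | h1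
  · rw [h.rW_neg h1, Int.cast_zero, abs_zero]; positivity
  · rw [h1, h.rW_zero]; simp
  · lift N to ℕ using h1.le
    have h2 : (N.divisors.card : ℝ) ≤ N := by exact_mod_cast Nat.card_divisors_le_self N
    refine (hC N (by omega)).trans ?_
    rw [Int.cast_natCast]
    exact mul_le_mul (le_abs_self C) (by gcongr) (by positivity) (abs_nonneg _)

private lemma bound_jj (h : A.Dat T w) (N : ℕ) {Y : ℝ} (hY : 0 < Y) : ∃ K : ℝ, ∀ c l : ℤ,
    c ≠ 0 → l ≠ 0 → |(rW T w (N - 15 * (c * l)) : ℝ)| * Real.exp (2 * π * Y * (c * l)) *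
      (|(c : ℝ)| + |(l : ℝ)|) ≤ K * (|(c : ℝ)| ^ 3 * Real.exp (-(π * Y) * |(c : ℝ)|) *
        (|(l : ℝ)| ^ 3 * Real.exp (-(π * Y) * |(l : ℝ)|))) := by
  obtain ⟨C, hC0, hC⟩ := abs_rW_sq h
  refine ⟨C * (N + 15) ^ 2 * Real.exp (4 * π * Y * N) * 2, fun c l hc hl => ?_⟩
  have hc1 : (1 : ℝ) ≤ |(c : ℝ)| := by exact_mod_cast Int.one_le_abs hc
  have hl1 : (1 : ℝ) ≤ |(l : ℝ)| := by exact_mod_cast Int.one_le_abs hl
  by_cases h1 : (N : ℤ) - 15 * (c * l) < 0
  · rw [h.rW_neg h1, Int.cast_zero, abs_zero, zero_mul, zero_mul]; positivity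
  have h2 : (15 * (c * l) : ℝ) ≤ N := by
    have : 15 * (c * l) ≤ (N : ℤ) := by omega
    exact_mod_cast this
  set s := |(c : ℝ)|
  set t := |(l : ℝ)|
  have hst : |(c * l : ℝ)| = s * t := abs_mul _ _
  have hN : (0 : ℝ) ≤ N := Nat.cast_nonneg N
  have h3 : s + t ≤ 2 * (s * t) := by nlinarith
  have h4 : (1 : ℝ) ≤ s * t := by nlinarith
  have hπ : 0 < π * Y := mul_pos Real.pi_pos hY
  have h5 : |(rW T w (N - 15 * (c * l)) : ℝ)| ≤ C * ((N + 15) * (s * t)) ^ 2 := by
    refine (hC _).trans (mul_le_mul_of_nonneg_left ?_ hC0)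
    push_cast
    have := neg_abs_le (c * l : ℝ)
    exact pow_le_pow_left₀ (by linarith) (by nlinarith) 2
  have h6 : Real.exp (2 * π * Y * (c * l)) ≤ Real.exp (4 * π * Y * N) *
      (Real.exp (-(π * Y) * s) * Real.exp (-(π * Y) * t)) := by
    rw [← Real.exp_add, ← Real.exp_add, Real.exp_le_exp]
    have : 2 * (c * l : ℝ) ≤ 4 * N - (s + t) := by
      rcases abs_cases (c * l : ℝ) with h7 | h7 <;> nlinarith
    nlinarith
  calc _ ≤ C * ((N + 15) * (s * t)) ^ 2 * (Real.exp (4 * π * Y * N) *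
        (Real.exp (-(π * Y) * s) * Real.exp (-(π * Y) * t))) * (2 * (s * t)) := by
        gcongr
    _ = _ := by ring

theorem Par.Dat.integral_tsum_jj (h : A.Dat T w) {M : ℕ} (h0 : rW T w (M * A.n) = 0) {Y : ℝ}
    (hY : 0 < Y) :
    ∫ τ in Ioi (0 : ℝ), Real.log τ / τ * ∑' v : ℤ × ℤ,
      (rW T w (M * A.n - 15 * (v.1 * v.2)) * A.lam v.1 v.2 : ℤ) * jj v.1 v.2 Y τ =
      4 * (A.fin T w M + ∑' k : ℕ, (rW T w (M * A.n + 15 * k) * A.Sneg k : ℤ) *
        bet (4 * π * Y * k)) := by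
  set a : ℤ × ℤ → ℝ := fun v =>
    ((rW T w (M * A.n - 15 * (v.1 * v.2)) * A.lam v.1 v.2 : ℤ) : ℝ) with ha
  have ha0 : ∀ v : ℤ × ℤ, v.1 * v.2 = 0 → a v = 0 := fun v hv => by
    simp only [ha, hv, mul_zero, sub_zero, h0, zero_mul, Int.cast_zero]
  obtain ⟨C, hC⟩ := integral_abs_jw hY
  obtain ⟨K, hK⟩ := bound_jj h (M * A.n) hY
  set F : ℤ × ℤ → ℝ → ℝ := fun v τ => a v * (Real.log τ / τ * jj v.1 v.2 Y τ) with hF
  have hFe : ∀ v : ℤ × ℤ, EqOn (F v) (fun τ => a v * Real.exp (2 * π * Y * (v.1 * v.2)) *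
      (Real.log τ / τ * jw v.1 v.2 Y τ)) (Ioi 0) := fun v τ hτ => by
    simp only [hF, jj_eq _ _ _ hτ]
    ring
  have hi : ∀ v, Integrable (F v) (volume.restrict (Ioi 0)) := fun v => by
    by_cases hv : v.1 * v.2 = 0
    · simp only [hF, ha0 v hv, zero_mul]
      exact integrable_zero _ _ _
    · exact IntegrableOn.congr_fun
        ((hC _ _ (left_ne_zero_of_mul hv) (right_ne_zero_of_mul hv)).1.const_mul _)
        (hFe v).symm measurableSet_Ioi
  have hπ : 0 < π * Y := mul_pos Real.pi_pos hY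
  have hs : Summable fun v => ∫ τ in Ioi (0 : ℝ), ‖F v τ‖ := by
    refine Summable.of_nonneg_of_le (fun v => integral_nonneg fun _ => norm_nonneg _) (fun v => ?_)
      ((summable_mul_of_summable_norm' (summable_u hπ).norm (summable_u hπ)
        (summable_u hπ).norm (summable_u hπ)).mul_left (|C| * K))
    by_cases hv : v.1 * v.2 = 0
    · rcases mul_eq_zero.mp hv with h1 | h1 <;> simp [hF, ha0 v hv, h1]
    have hc := left_ne_zero_of_mul hv
    have hl := right_ne_zero_of_mul hv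
    have h1 : ∫ τ in Ioi (0 : ℝ), ‖F v τ‖ = |a v| * Real.exp (2 * π * Y * (v.1 * v.2)) *
        ∫ τ in Ioi (0 : ℝ), |Real.log τ / τ * jw v.1 v.2 Y τ| := by
      rw [← integral_const_mul]
      refine setIntegral_congr_fun measurableSet_Ioi fun τ hτ => ?_
      simp only [hFe v hτ]
      rw [Real.norm_eq_abs, abs_mul, abs_mul (a v), Real.abs_exp]
    have h2 : |a v| ≤ |(rW T w ((M * A.n : ℕ) - 15 * (v.1 * v.2)) : ℝ)| := by
      have h3 : |(A.lam v.1 v.2 : ℝ)| ≤ 1 := by exact_mod_cast h.ok.abs_lam_le v.1 v.2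
      simp only [ha, Int.cast_mul, abs_mul, Nat.cast_mul]
      exact mul_le_of_le_one_right (abs_nonneg _) h3
    rw [h1]
    calc _ ≤ |(rW T w ((M * A.n : ℕ) - 15 * (v.1 * v.2)) : ℝ)| *
          Real.exp (2 * π * Y * (v.1 * v.2)) * (|C| * (|(v.1 : ℝ)| + |(v.2 : ℝ)|)) := by
          have h4 := (hC _ _ hc hl).2
          push_cast at h4
          gcongr
          exact h4.trans (mul_le_mul_of_nonneg_right (le_abs_self C) (by positivity))
      _ = |C| * (|(rW T w ((M * A.n : ℕ) - 15 * (v.1 * v.2)) : ℝ)| *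
          Real.exp (2 * π * Y * (v.1 * v.2)) * (|(v.1 : ℝ)| + |(v.2 : ℝ)|)) := by ring
      _ ≤ _ := by
          rw [mul_assoc |C|]
          exact mul_le_mul_of_nonneg_left (hK _ _ hc hl) (abs_nonneg C)
  have key := hasSum_integral_of_summable_integral_norm hi hs
  have e1 : ∀ τ : ℝ, Real.log τ / τ * ∑' v, a v * jj v.1 v.2 Y τ = ∑' v, F v τ := fun τ => by
    rw [← tsum_mul_left]
    exact tsum_congr fun v => by simp only [hF]; ring
  change ∫ τ in Ioi (0 : ℝ), Real.log τ / τ * ∑' v, a v * jj v.1 v.2 Y τ = _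
  simp_rw [e1]
  obtain ⟨-, -, e2⟩ := tsum_div key.summable
    (fun v hv => by simp only [hF, ha0 v hv, zero_mul, integral_zero])
    (fun c l => by
      simp only [hF, ha, jj_neg, h.ok.lam_neg, neg_mul, mul_neg, neg_neg, Int.cast_neg])
  have e3 : ∀ k : ℕ, ∑ c ∈ k.divisors, ∫ τ in Ioi (0 : ℝ), F (c, (k / c : ℕ)) τ =
      2 * (rW T w (M * A.n - 15 * k) * A.Slog k) := fun k => by
    rw [Par.Slog, Finset.mul_sum, Finset.mul_sum]
    refine Finset.sum_congr rfl fun c hc => ?_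
    have hd := Nat.dvd_of_mem_divisors hc
    have hc0 := Nat.pos_of_mem_divisors hc
    have hk := Nat.div_pos (Nat.divisor_le hc) hc0
    have e : (c : ℤ) * (k / c : ℕ) = k := by exact_mod_cast Nat.mul_div_cancel' hd
    simp only [hF, ha]
    rw [integral_const_mul, integral_jj_pos hY (by exact_mod_cast hc0) (by exact_mod_cast hk), e]
    simp only [Int.cast_mul, Int.cast_natCast]
    ring
  have e4 : ∀ k : ℕ, ∑ c ∈ k.divisors, ∫ τ in Ioi (0 : ℝ), F (c, -(k / c : ℕ)) τ =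
      2 * ((rW T w (M * A.n + 15 * k) * A.Sneg k : ℤ) * bet (4 * π * Y * k)) := fun k => by
    rw [Par.Sneg, Finset.mul_sum, Int.cast_sum, Finset.sum_mul, Finset.mul_sum]
    refine Finset.sum_congr rfl fun c hc => ?_
    have hd := Nat.dvd_of_mem_divisors hc
    have hc0 := Nat.pos_of_mem_divisors hc
    have hk := Nat.div_pos (Nat.divisor_le hc) hc0
    have e : (c : ℤ) * (k / c : ℕ) = k := by exact_mod_cast Nat.mul_div_cancel' hd
    have e' : (((c : ℤ) : ℝ) * (((k / c : ℕ) : ℤ) : ℝ)) = k := by exact_mod_cast e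
    simp only [hF, ha]
    rw [integral_const_mul, integral_jj_neg hY (by exact_mod_cast hc0) (by exact_mod_cast hk), e',
      mul_neg, e, mul_neg, sub_neg_eq_add]
    ring
  rw [← key.tsum_eq, e2]
  simp only [e3, e4, tsum_mul_left]
  rw [tsum_eq_sum (s := Finset.range (M * A.n)), Par.fin]
  · ring
  · intro k hk
    rcases k.eq_zero_or_pos with rfl | hk0
    · simp [Par.Slog]
    · have h1 : ((M * A.n : ℕ) : ℤ) ≤ k := by exact_mod_cast not_lt.mp (mt Finset.mem_range.mpr hk)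
      rw [h.rW_neg (by push_cast at h1; omega), Int.cast_zero, zero_mul]

theorem Par.Dat.coef_Phi (h : A.Dat T w) {M : ℕ} (h0 : rW T w (M * A.n) = 0) {y : ℝ} (hy : 0 < y) :
    ∫ x in (0 : ℝ)..1, A.Phi T w (x + y * I) * q1 (-(M * x)) =
      -I * A.gg / A.n * (4 * Real.exp (-2 * π * M * y) * (A.fin T w M +
        ∑' k : ℕ, (rW T w (M * A.n + 15 * k) * A.Sneg k : ℤ) *
          bet (4 * π * (15 * y / A.n) * k)) : ℝ) := by
  have hn' : (0 : ℝ) < A.n := Nat.cast_pos.mpr h.ok.n_pos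
  have hY : 0 < 15 * y / A.n := by positivity
  have him : ∀ x : ℝ, (x + y * I : ℂ).im = y := fun x => by simp
  obtain ⟨C, hC⟩ := h.norm_Kk_le'
  have hb : ∀ x τ : ℝ, 0 < τ → ‖A.Kk T w (x + y * I) τ‖ ≤ |C| * min τ τ⁻¹ := fun x τ hτ => by
    obtain ⟨g, hg⟩ := ModularGroup.exists_smul_mem_fd ⟨x + y * I, by rw [him]; exact hy⟩
    have h1 := hC g⁻¹ _ hg τ hτ
    rw [inv_smul_smul] at h1
    refine h1.trans (mul_le_mul_of_nonneg_right ?_ (le_min hτ.le (inv_nonneg.mpr hτ.le)))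
    refine (mul_le_mul_of_nonneg_right (le_abs_self C) (Real.exp_nonneg _)).trans
      (mul_le_of_le_one_right (abs_nonneg C) (Real.exp_le_one_iff.mpr ?_))
    refine div_nonpos_of_nonpos_of_nonneg ?_ hn'.le
    exact mul_nonpos_of_nonpos_of_nonneg (neg_nonpos.mpr Real.pi_pos.le) (im_pos _).le
  set f : ℝ → ℝ → ℂ := fun x τ =>
    (Real.log τ / τ : ℝ) * (A.Kk T w (x + y * I) τ * q1 (-(M * x))) with hf
  have hi : Integrable (Function.uncurry f)
      ((volume.restrict (uIoc (0 : ℝ) 1)).prod (volume.restrict (Ioi (0 : ℝ)))) := by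
    have hm : MeasurableSet (uIoc (0 : ℝ) 1 ×ˢ Ioi (0 : ℝ)) :=
      measurableSet_uIoc.prod measurableSet_Ioi
    have h1 : Integrable (fun v : ℝ × ℝ => |C| * (|Real.log v.2| / v.2 * min v.2 v.2⁻¹))
        ((volume.restrict (uIoc (0 : ℝ) 1)).prod (volume.restrict (Ioi (0 : ℝ)))) :=
      Integrable.mul_prod (f := fun _ : ℝ => |C|)
        (intervalIntegrable_iff.mp intervalIntegrable_const) integrableOn_log_min
    rw [Measure.prod_restrict] at h1 ⊢
    refine h1.mono' (ContinuousOn.aestronglyMeasurable ?_ hm)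
      ((ae_restrict_iff' hm).mpr (ae_of_all _ fun v hv => ?_))
    · refine ContinuousOn.mul (continuous_ofReal.comp_continuousOn ?_) (ContinuousOn.mul ?_ ?_)
      · exact (continuousOn_snd.log fun v hv => (mem_Ioi.mp hv.2).ne').div continuousOn_snd
          fun v hv => (mem_Ioi.mp hv.2).ne'
      · exact h.continuousOn_Kk.comp (f := fun v : ℝ × ℝ => ((v.1 + y * I : ℂ), v.2))
          (Continuous.continuousOn (by fun_prop)) fun v hv => ⟨by rw [him]; exact hy, hv.2⟩
      · exact (cont_q1.comp (by fun_prop)).continuousOn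
    · have h4 : ‖q1 (-(M * v.1))‖ = 1 := by rw [norm_q1]; simp
      have hτ : 0 < v.2 := hv.2
      simp only [hf, Function.uncurry, norm_mul, h4, mul_one, Complex.norm_real, Real.norm_eq_abs,
        abs_div, abs_of_pos hτ]
      rw [mul_left_comm]
      exact mul_le_mul_of_nonneg_left (hb _ _ hτ) (by positivity)
  have e1 : ∀ x : ℝ, A.Phi T w (x + y * I) * q1 (-(M * x)) =
      (y : ℂ)⁻¹ * ∫ τ in Ioi (0 : ℝ), f x τ := fun x => by
    simp only [hf, ← mul_assoc]
    rw [integral_mul_const, Par.Phi, him]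
    ring
  simp_rw [e1]
  rw [intervalIntegral.integral_const_mul, intervalIntegral_integral_swap hi,
    setIntegral_congr_fun (g := fun τ : ℝ => y * (-I * A.gg / A.n) *
      (Real.exp (-2 * π * M * y) * (Real.log τ / τ * ∑' v : ℤ × ℤ,
        (rW T w (M * A.n - 15 * (v.1 * v.2)) * A.lam v.1 v.2 : ℤ) *
          jj v.1 v.2 (15 * y / A.n) τ) : ℝ)) measurableSet_Ioi fun τ hτ => ?_]
  · rw [integral_const_mul, integral_complex_ofReal, integral_const_mul, h.integral_tsum_jj h0 hY,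
      ← mul_assoc, ← mul_assoc, inv_mul_cancel₀ (ofReal_ne_zero.mpr hy.ne'), one_mul]
    congr 2
    ring
  · simp only [hf]
    rw [intervalIntegral.integral_const_mul, h.coef_Kk M hy hτ]
    simp only [ofReal_mul]
    ring

end Pool.Agent.Dih
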