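import Pool.Agent.Lib.MP_60ff09_nt.Dih.ANr

/-! The logarithms in the finite part. -/

set_option autoImplicit false

open Complex Filter Topology Set MeasureTheory CongruenceSubgroup NumberTheorySymbols
open UpperHalfPlane hiding I
open scoped Real MatrixGroups ComplexConjugate Modular
open Pool.Agent.Lib.MP_696deb_nt Pool.Agent.Lib.MP_696deb_nt.Unif Pool.Agent.Shared.Weier

namespace Pool.Agent.Dih

variable {A : Par} {T : Finset Fm} {w : Fm → ℤ}


theorem Par.Ok.Slog_sub_mem (h : A.Ok) {P : ℕ} (hP : P.Prime) (k : ℕ) :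
    A.Slog k - (∑ c ∈ k.divisors, A.lam c ((k / c : ℕ) : ℤ) *
      (((k / c).factorization P : ℤ) - c.factorization P) : ℤ) * Real.log P ∈ LogS P := by
  rw [Par.Slog, Int.cast_sum, Finset.sum_mul, ← Finset.sum_sub_distrib]
  refine Submodule.sum_mem _ fun c _ => ?_
  have h1 := LogS.int_mul (A.lam c ((k / c : ℕ) : ℤ))
    (sub_mem (log_nat_sub_mem P (k / c)) (log_nat_sub_mem P c))
  convert h1 using 1
  simp only [Int.cast_mul, Int.cast_sub, Int.cast_natCast]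
  ring

theorem ans_fac {P c : ℕ} (hP : P.Prime) (hc : ¬ P ∣ c) (i : ℕ) :
    (P ^ i * c).factorization P = i := by
  have c0 : c ≠ 0 := fun e => hc (e ▸ dvd_zero P)
  rw [Nat.factorization_mul (pow_ne_zero i hP.ne_zero) c0, hP.factorization_pow,
    Finsupp.add_apply, Finsupp.single_eq_same, Nat.factorization_eq_zero_of_not_dvd hc, add_zero]

theorem ans_split {P k : ℕ} (hP : P.Prime) (hk : ¬ P ∣ k) (e : ℕ) (F : ℤ → ℤ → ℤ) :
    ∑ c ∈ (P ^ e * k).divisors, F c ((P ^ e * k / c : ℕ) : ℤ) *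
      (((P ^ e * k / c).factorization P : ℤ) - c.factorization P) =
    ∑ c ∈ k.divisors, ∑ i ∈ Finset.range (e + 1),
      F (P ^ i * c) (P ^ (e - i) * (k / c : ℕ)) * (((e - i : ℕ) : ℤ) - i) := by
  have hc : (P ^ e).Coprime k := ((Nat.Prime.coprime_iff_not_dvd hP).2 hk).pow_left e
  rw [Nat.divisors_mul, Finset.mul_def, Finset.sum_image hc.mul_injOn_divisors,
    Finset.sum_product_right]
  refine Finset.sum_congr rfl fun c hc => ?_
  rw [Nat.sum_divisors_prime_pow hP]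
  refine Finset.sum_congr rfl fun i hi => ?_
  have h1 := Nat.dvd_of_mem_divisors hc
  have h2 : P ^ e * k / (P ^ i * c) = P ^ (e - i) * (k / c) := by
    rw [Nat.mul_div_mul_comm (pow_dvd_pow P (Nat.lt_succ_iff.1 (Finset.mem_range.1 hi))) h1,
      Nat.pow_div (Nat.lt_succ_iff.1 (Finset.mem_range.1 hi)) hP.pos]
  simp only [h2]
  rw [ans_fac hP (fun e => hk (e.trans h1)),
    ans_fac hP fun e => hk (e.trans (Nat.div_dvd_of_dvd h1)), Nat.cast_mul, Nat.cast_mul,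
    Nat.cast_pow, Nat.cast_pow]

theorem ans_nd {P R : ℕ} (hP : P.Prime) (hR : R.Prime) (h : P ≠ R) : ¬ (R : ℤ) ∣ P := by
  rw [Int.natCast_dvd_natCast, Nat.prime_dvd_prime_iff_eq hR hP]
  exact h.symm

theorem ans_lam {P R : ℕ} (hP : P.Prime) (hR : R.Prime) (h : P ≠ R) (χ c l : ℤ) (i j : ℕ) :
    lam1 R χ (P ^ j * c) (P ^ i * l) =
      J((P : ℤ) | R) ^ (i + j) * lam1 R χ (P ^ i * c) (P ^ j * l) := by
  have h1 := ana2_sq hR (ans_nd hP hR h)
  have hR' := Nat.prime_iff_prime_int.1 hR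
  have h2 : ∀ i : ℕ, (R : ℤ) ∣ P ^ i * c ↔ (R : ℤ) ∣ c := fun i =>
    ⟨fun e => (hR'.dvd_or_dvd e).resolve_left fun e => ans_nd hP hR h (hR'.dvd_of_dvd_pow e),
      fun e => e.mul_left _⟩
  have h3 : ∀ i : ℕ, (J((P : ℤ) | R) ^ i) ^ 2 = 1 := fun i => by
    rw [pow_right_comm, h1, one_pow]
  simp only [lam1, h2, jacobiSym.mul_left, jacobiSym.pow_left, pow_add]
  split_ifs
  · linear_combination (-J((P : ℤ) | R) ^ i * J(l | R)) * h3 j
  · linear_combination (-J((P : ℤ) | R) ^ j * χ * J(-15 | R) * J(c | R)) * h3 i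

theorem ans_refl {e : ℕ} {a : ℕ → ℕ → ℤ} (h : ∀ i j, i + j = e → a i j = a j i) :
    ∑ i ∈ Finset.range (e + 1), a i (e - i) * (((e - i : ℕ) : ℤ) - i) = 0 := by
  refine Finset.sum_involution (fun i _ => e - i) (fun i hi => ?_) (fun i hi h1 h2 => h1 ?_)
    (fun i _ => Finset.mem_range.2 (by omega)) fun i hi => ?_
  · have := Finset.mem_range.1 hi
    rw [show e - (e - i) = i by omega, h i (e - i) (by omega)]
    ring
  · rw [h2, sub_self, mul_zero]
  · have := Finset.mem_range.1 hi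
    omega

theorem Par.Ok.coef_eq_zero (h : A.Ok) {P : ℕ} (hP : P.Prime) (h1 : P ≠ A.p) (h2 : P ≠ A.q) {k : ℕ}
    (he : (J((P : ℤ) | A.p) * J((P : ℤ) | A.q)) ^ k.factorization P = 1) :
    ∑ c ∈ k.divisors, A.lam c ((k / c : ℕ) : ℤ) *
      (((k / c).factorization P : ℤ) - c.factorization P) = 0 := by
  rcases eq_or_ne k 0 with rfl | k0
  · simp
  obtain ⟨e, k, hk, rfl⟩ := Nat.exists_eq_pow_mul_and_not_dvd k0 P hP.ne_one
  rw [ans_fac hP hk] at he
  rw [ans_split hP hk]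
  refine Finset.sum_eq_zero fun c _ => ans_refl
    (a := fun i j => A.lam (P ^ i * c) (P ^ j * (k / c : ℕ))) fun i j hij => ?_
  rw [Par.lam, Par.lam, ans_lam hP h.pp h1, ans_lam hP h.qp h2, add_comm j i, hij,
    mul_mul_mul_comm, ← mul_pow, he, one_mul]

theorem Par.Ok.ans_dvd (h : A.Ok) {Q : Fm} (hQ : A.InGen Q) {P : ℕ} (hP : P.Prime)
    (hi : J((P : ℤ) | A.p) * J((P : ℤ) | A.q) = -1) {x y : ℤ} (e : (P : ℤ) ∣ fval Q x y) :
    (P : ℤ) ∣ x ∧ (P : ℤ) ∣ y := by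
  have hp : Odd A.p := Nat.odd_iff.2 (Nat.odd_of_mod_four_eq_one h.p4)
  have hq : Odd A.q := Nat.odd_iff.2 (Nat.odd_of_mod_four_eq_three h.q4)
  have hd := hQ.disc
  rcases hP.eq_two_or_odd' with rfl | h2
  · have h8 : A.n % 8 = 3 := by
      have h4 := h.n_mod
      rw [← jacobiSym.mul_right' _ h.pp.ne_zero h.qp.ne_zero, Nat.cast_ofNat,
        jacobiSym.at_two (hp.mul hq), ZMod.χ₈_nat_eq_if_mod_eight, ← Par.n] at hi
      split_ifs at hi <;> omega
    rw [fdisc] at hd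
    have hb : Odd Q.2.1 := by
      rw [← Int.odd_pow' two_ne_zero, Int.odd_iff]
      generalize Q.2.1 ^ 2 = u at hd
      rw [mul_assoc] at hd
      omega
    have hac : Odd (Q.1 * Q.2.2) := by
      obtain ⟨t, ht⟩ := hb
      obtain ⟨u, hu⟩ := Int.even_mul_succ_self t
      have : Q.2.1 ^ 2 = 8 * u + 1 := by rw [ht]; linear_combination 4 * hu
      rw [this, mul_assoc] at hd
      rw [Int.odd_iff]
      omega
    rw [Int.odd_mul, ← Int.not_even_iff_odd, ← Int.not_even_iff_odd] at hac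
    rw [← Int.not_even_iff_odd] at hb
    simp only [Nat.cast_ofNat, ← even_iff_two_dvd, fval, Int.even_add, Int.even_mul,
      Int.even_pow' two_ne_zero] at e ⊢
    tauto
  · have := Fact.mk hP
    have hj : J(fdisc Q | P) = -1 := by
      rw [hd, Par.n, Nat.cast_mul, ← mul_neg, jacobiSym.mul_left,
        jacobiSym.quadratic_reciprocity_one_mod_four h.p4 h2, ← hi, jacobiSym.neg _ h2]
      congr 1
      rcases Nat.odd_mod_four_iff.1 (Nat.odd_iff.1 h2) with h4 | h4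
      · rw [ZMod.χ₄_nat_one_mod_four h4, one_mul,
          jacobiSym.quadratic_reciprocity_one_mod_four h4 hq]
      · rw [ZMod.χ₄_nat_three_mod_four h4, neg_one_mul,
          jacobiSym.quadratic_reciprocity_three_mod_four h4 h.q4]
    refine ⟨(jacobiSym.prime_dvd_of_eq_neg_one hj (x := 2 * Q.2.2 * y + Q.2.1 * x) ?_).2,
      (jacobiSym.prime_dvd_of_eq_neg_one hj (x := 2 * Q.1 * x + Q.2.1 * y) ?_).2⟩
    · exact (e.mul_left (4 * Q.2.2)).trans (dvd_of_eq (by rw [fdisc, fval]; ring))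
    · exact (e.mul_left (4 * Q.1)).trans (dvd_of_eq (by rw [fdisc, fval]; ring))

theorem Par.Ok.even_val (h : A.Ok) {Q : Fm} (hQ : A.InGen Q) {P : ℕ} (hP : P.Prime)
    (hi : J((P : ℤ) | A.p) * J((P : ℤ) | A.q) = -1) {x y : ℤ} {N : ℕ} (hN : fval Q x y = N) :
    Even (N.factorization P) := by
  induction N using Nat.strong_induction_on generalizing x y with
  | _ N ih =>
    rcases eq_or_ne N 0 with rfl | N0
    · simp
    by_cases hd : P ∣ N
    · obtain ⟨⟨x, rfl⟩, y, rfl⟩ := h.ans_dvd hQ hP hi (x := x) (y := y)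
        (hN ▸ Int.natCast_dvd_natCast.2 hd)
      have h1 : (N : ℤ) = P ^ 2 * fval Q x y := by rw [← hN, fval, fval]; ring
      obtain ⟨M, rfl⟩ : P ^ 2 ∣ N := Int.natCast_dvd_natCast.1 ⟨_, by rw [h1, Nat.cast_pow]⟩
      have M0 : M ≠ 0 := right_ne_zero_of_mul N0
      rw [Nat.cast_mul, Nat.cast_pow,
        mul_right_inj' (pow_ne_zero 2 (Int.natCast_ne_zero.2 hP.ne_zero))] at h1
      rw [Nat.factorization_mul (pow_ne_zero 2 hP.ne_zero) M0, hP.factorization_pow,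
        Finsupp.add_apply, Finsupp.single_eq_same]
      exact even_two.add (ih M (lt_mul_of_one_lt_left (Nat.pos_of_ne_zero M0)
        (Nat.one_lt_pow two_ne_zero hP.one_lt)) h1.symm)
    · rw [Nat.factorization_eq_zero_of_not_dvd hd]
      exact Even.zero

theorem ans_congr {P : ℕ} {a b : ℤ} (h : (P : ℤ) ∣ a - b) : J(a | P) = J(b | P) :=
  jacobiSym.mod_left' (Int.emod_eq_emod_iff_emod_sub_eq_zero.2 (Int.emod_eq_zero_of_dvd h))

theorem ans_pos {P : ℕ} {c : ℤ} (h : (P : ℤ) ∣ c) (χ l : ℤ) : lam1 P χ c l = J(l | P) := if_pos h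

theorem ans_neg {P : ℕ} {c : ℤ} (h : ¬ (P : ℤ) ∣ c) (χ l : ℤ) :
    lam1 P χ c l = χ * J(-15 * c | P) := if_neg h

theorem ans_val {P : ℕ} (hP : P.Prime) {β N : ℤ} (hN : ¬ (P : ℤ) ∣ N) (e : ℕ) :
    ∀ a c x y : ℤ, ¬ (P : ℤ) ∣ a → ¬ (P : ℤ) ∣ c →
      a * x ^ 2 + P * β * x * y + P * c * y ^ 2 = P ^ e * N →
      J(N | P) = J(a | P) * (J(a | P) * J(c | P)) ^ e := by
  have hP' := Nat.prime_iff_prime_int.1 hP
  induction e with
  | zero =>
    intro a c x y _ _ h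
    have h1 : (P : ℤ) ∣ N - a * x ^ 2 := ⟨β * x * y + c * y ^ 2, by linear_combination -h⟩
    have h2 : ¬ (P : ℤ) ∣ x := fun e => hN (by
      simpa using dvd_add h1 ((dvd_pow e two_ne_zero).mul_left a))
    rw [ans_congr h1, jacobiSym.mul_left, jacobiSym.pow_left, ana2_sq hP h2, pow_zero]
  | succ e ih =>
    intro a c x y ha hc h
    obtain ⟨x, rfl⟩ := hP'.dvd_of_dvd_pow ((hP'.dvd_or_dvd (show (P : ℤ) ∣ a * x ^ 2 from
      ⟨P ^ e * N - β * x * y - c * y ^ 2, by linear_combination h⟩)).resolve_left ha)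
    rw [ih c a y x hc ha (mul_left_cancel₀ hP'.ne_zero (by linear_combination h)),
      mul_comm J(c | P) J(a | P), pow_succ]
    linear_combination (-J(c | P) * (J(a | P) * J(c | P)) ^ e) * ana2_sq hP ha

theorem ans_ram {P R : ℕ} (hP : P.Prime) (hR : R.Prime) (h : P ≠ R) (h2 : Odd P)
    (hr : J((R : ℤ) | P) = J((P : ℤ) | R)) (h15 : ¬ (P : ℤ) ∣ 15) {χ : ℤ} (χ' : ℤ) {Q : Fm}
    (hd : fdisc Q = -(P * R)) (hb : (P * R : ℤ) ∣ Q.2.1) (hc : (P * R : ℤ) ∣ Q.2.2)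
    (hg : ∀ x y : ℤ, ¬ (P : ℤ) ∣ fval Q x y → J(fval Q x y | P) = χ) {k e : ℕ} (hk : ¬ P ∣ k)
    {x y B : ℤ} (hN : fval Q x y = (P : ℤ) ^ (e + 1) * B - 15 * (P ^ e * k : ℕ)) :
    ∑ c ∈ k.divisors, ∑ i ∈ Finset.range (e + 1),
      lam1 P χ (P ^ i * c) (P ^ (e - i) * (k / c : ℕ)) *
        lam1 R χ' (P ^ i * c) (P ^ (e - i) * (k / c : ℕ)) * (((e - i : ℕ) : ℤ) - i) = 0 := by
  have hP' := Nat.prime_iff_prime_int.1 hP
  have hR' := Nat.prime_iff_prime_int.1 hR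
  obtain ⟨a, b, c⟩ := Q
  obtain ⟨b, rfl⟩ := hb
  obtain ⟨c, rfl⟩ := hc
  simp only [fdisc, fval] at hd hN hg
  have h1 : (P : ℤ) ∣ 4 * (a * c) - 1 := ⟨R * b ^ 2,
    mul_left_cancel₀ (mul_ne_zero hP'.ne_zero hR'.ne_zero) (by linear_combination -hd)⟩
  have h3 : ¬ (P : ℤ) ∣ a * c := fun e => hP'.not_dvd_one (by simpa using dvd_sub (e.mul_left 4) h1)
  have ha : ¬ (P : ℤ) ∣ a := fun e => h3 (e.mul_right c)
  have h4 : J(a | P) = χ := by simpa using hg 1 0 (by simpa using ha)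
  have h5 := ans_congr h1
  rw [jacobiSym.mul_left, jacobiSym.at_four h2, one_mul, jacobiSym.one_left,
    jacobiSym.mul_left] at h5
  have hk' : ¬ (P : ℤ) ∣ k := mt Int.natCast_dvd_natCast.1 hk
  have h6 := ans_val hP (β := R * b) (N := P * B - 15 * k) (fun e => (hP'.dvd_or_dvd
    ((dvd_sub_right (dvd_mul_right _ B)).1 e)).elim h15 hk') e a (R * c) x y ha
    (fun e => (hP'.dvd_or_dvd e).elim (ans_nd hR hP h.symm) fun e => h3 (e.mul_left a))
    (by push_cast at hN; linear_combination hN)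
  rw [ans_congr (b := -15 * k) ⟨B, by ring⟩, jacobiSym.mul_left (R : ℤ), mul_left_comm, h5, mul_one,
    h4, hr] at h6
  refine Finset.sum_eq_zero fun d hd => ans_refl (a := fun i j => lam1 P χ (P ^ i * d)
    (P ^ j * (k / d : ℕ)) * lam1 R χ' (P ^ i * d) (P ^ j * (k / d : ℕ))) ?_
  obtain ⟨l, rfl⟩ := Nat.dvd_of_mem_divisors hd
  rw [Nat.mul_div_cancel_left _ (Nat.pos_of_mem_divisors hd)]
  rw [Nat.cast_mul] at hk' h6
  have key : ∀ i j, i + j = e → i ≤ j → lam1 P χ (P ^ i * d) (P ^ j * l) *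
      lam1 R χ' (P ^ i * d) (P ^ j * l) =
      lam1 P χ (P ^ j * d) (P ^ i * l) * lam1 R χ' (P ^ j * d) (P ^ i * l) := fun i j hij hle => by
    rcases hle.eq_or_lt with rfl | hlt
    · rfl
    have dj : ∀ z : ℤ, (P : ℤ) ∣ P ^ j * z := fun z => (dvd_pow_self _ (by omega)).mul_right z
    rcases eq_or_ne i 0 with rfl | i0
    · rw [ans_lam hP hR h χ' d l j 0, ans_pos (dj d), pow_zero, one_mul, one_mul,
        ans_neg fun e => hk' (e.mul_right l), add_zero, ← mul_assoc]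
      congr 1
      rw [← hij, zero_add, ← mul_assoc, jacobiSym.mul_left] at h6
      have h7 := ana2_sq hP fun e => hk' (e.mul_left d)
      have h8 : χ ^ 2 = 1 := h4 ▸ ana2_sq hP ha
      have h9 : (J((P : ℤ) | R) ^ j) ^ 2 = 1 := by
        rw [pow_right_comm, ana2_sq hR (ans_nd hP hR h), one_pow]
      linear_combination (χ * J((P : ℤ) | R) ^ j * J((l : ℤ) | P)) * h6 -
        χ * J(-15 * (d : ℤ) | P) * J((P : ℤ) | R) ^ j * h7 +
        J((l : ℤ) | P) * (J((P : ℤ) | R) ^ j) ^ 2 * h8 + J((l : ℤ) | P) * h9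
    · have di : ∀ z : ℤ, (P : ℤ) ∣ P ^ i * z := fun z => (dvd_pow_self _ i0).mul_right z
      rw [ans_pos (di d), ans_pos (dj d), ana2_zero hP (dj l), ana2_zero hP (di l), zero_mul,
        zero_mul]
  intro i j hij
  rcases le_total i j with hle | hle
  · exact key i j hij hle
  · exact (key j i (add_comm i j ▸ hij) hle).symm

theorem Par.Ok.coef_eq_zero_ram (h : A.Ok) {Q : Fm} (hQ : A.InGen Q) {P : ℕ}
    (hP : P = A.p ∨ P = A.q) {k : ℕ} (hk : k ≠ 0) {x y B : ℤ}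
    (hN : fval Q x y = (P : ℤ) ^ (k.factorization P + 1) * B - 15 * k) :
    ∑ c ∈ k.divisors, A.lam c ((k / c : ℕ) : ℤ) *
      (((k / c).factorization P : ℤ) - c.factorization P) = 0 := by
  have hP' : P.Prime := hP.elim (fun e => e ▸ h.pp) fun e => e ▸ h.qp
  obtain ⟨e, k, hk', rfl⟩ := Nat.exists_eq_pow_mul_and_not_dvd hk P hP'.ne_one
  obtain ⟨a, b, c, d, h1, h2, h3⟩ := hQ.exists_normal h
  have h4 := hQ.of_fmap h h1
  have h5 : fval (fmap Q a b c d) (d * x - b * y) (a * y - c * x) = fval Q x y := by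
    rw [fval_fmap]
    congr 1
    · linear_combination x * h1
    · linear_combination y * h1
  have hp : Odd A.p := Nat.odd_iff.2 (Nat.odd_of_mod_four_eq_one h.p4)
  have hq : Odd A.q := Nat.odd_iff.2 (Nat.odd_of_mod_four_eq_three h.q4)
  have hr := jacobiSym.quadratic_reciprocity_one_mod_four h.p4 hq
  have hd := h4.disc
  rw [ans_fac hP' hk', ← h5] at hN
  rw [Par.n, Nat.cast_mul] at h2 h3 hd
  rw [ans_split hP' hk']
  rcases hP with rfl | rfl
  · exact ans_ram h.pp h.qp h.ne hp hr.symm h.ana2_15.1 A.χq hd h2 h3 h4.gp hk' hN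
  · rw [mul_comm] at h2 h3 hd
    simpa only [Par.lam, mul_comm (lam1 A.p _ _ _)] using
      ans_ram h.qp h.pp h.ne.symm hq hr h.ana2_15.2 A.χp hd h2 h3 h4.gq hk' hN

end Pool.Agent.Dih
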