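import Pool.Agent.Lib.MP_60ff09_nt.Dih.ANs

/-! The logarithms in the finite part: conclusions. -/

set_option autoImplicit false

open Complex Filter Topology Set MeasureTheory CongruenceSubgroup NumberTheorySymbols
open UpperHalfPlane hiding I
open scoped Real MatrixGroups ComplexConjugate Modular
open Pool.Agent.Lib.MP_696deb_nt Pool.Agent.Lib.MP_696deb_nt.Unif Pool.Agent.Shared.Weier

namespace Pool.Agent.Dih

variable {A : Par} {T : Finset Fm} {w : Fm → ℤ}

/-- The coefficient of `log P` in the logarithmic divisor sum. -/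
private def s2coef (A : Par) (P k : ℕ) : ℤ :=
  ∑ c ∈ k.divisors, A.lam c ((k / c : ℕ) : ℤ) *
    (((k / c).factorization P : ℤ) - c.factorization P)

/-- The coefficient of `log P` in the finite part. -/
private noncomputable def s2rho (A : Par) (T : Finset Fm) (w : Fm → ℤ) (P M : ℕ) : ℤ :=
  ∑ k ∈ Finset.range (M * A.n), rW T w (M * A.n - 15 * k) * s2coef A P k

private theorem s2_fin_sub (h : A.Dat T w) {P : ℕ} (hP : P.Prime) (M : ℕ) :
    A.fin T w M - s2rho A T w P M * Real.log P ∈ LogS P := by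
  unfold Par.fin s2rho
  rw [Int.cast_sum, Finset.sum_mul, ← Finset.sum_sub_distrib]
  refine Submodule.sum_mem _ fun k _ => ?_
  have h1 := LogS.int_mul (rW T w (M * A.n - 15 * k)) (h.ok.Slog_sub_mem hP k)
  rw [Int.cast_mul, mul_assoc, ← mul_sub]
  exact h1

private theorem s2_self {r : ℕ} (hr : r.Prime) : J((r : ℤ) | r) = 0 := by
  have : NeZero r := ⟨hr.ne_zero⟩
  rw [jacobiSym.eq_zero_iff_not_coprime]
  simpa using hr.ne_one

/-- Split primes do not occur. -/
theorem Par.Dat.fin_split (h : A.Dat T w) {P : ℕ} (hP : P.Prime)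
    (hs : J((P : ℤ) | A.p) * J((P : ℤ) | A.q) = 1) (M : ℕ) : A.fin T w M ∈ LogS P := by
  have h1 : P ≠ A.p := by
    rintro rfl
    rw [s2_self hP] at hs
    simp at hs
  have h2 : P ≠ A.q := by
    rintro rfl
    rw [s2_self hP] at hs
    simp at hs
  have h3 : s2rho A T w P M = 0 := by
    refine Finset.sum_eq_zero fun k _ => ?_
    have : s2coef A P k = 0 := h.ok.coef_eq_zero hP h1 h2 (by rw [hs, one_pow])
    rw [this, mul_zero]
  simpa [h3] using s2_fin_sub h hP M

private theorem s2_exists {N : ℤ} (hN : rW T w N ≠ 0) : ∃ Q ∈ T, ∃ x y : ℤ, fval Q x y = N := by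
  obtain ⟨Q, hQ, h1⟩ := Finset.exists_ne_zero_of_sum_ne_zero hN
  have h2 : rep Q N ≠ 0 := fun e => h1 (by rw [e]; simp)
  obtain ⟨v, hv⟩ := Set.nonempty_of_ncard_ne_zero h2
  exact ⟨Q, hQ, v.1, v.2, hv⟩

private theorem s2_disc (h : A.Dat T w) {Q : Fm} (hQ : Q ∈ T) : fdisc Q < 0 := by
  rw [(h.gen Q hQ).disc]
  have := h.ok.n_pos
  omega

private theorem s2_nonpos (h : A.Dat T w) {N : ℤ} (hN : N ≤ 0) : rW T w N = 0 := by
  rcases hN.lt_or_eq with hN | rfl
  · refine Finset.sum_eq_zero fun Q hQ => ?_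
    rw [rep_neg (s2_disc h hQ) (h.gen Q hQ).pos hN]
    simp
  · refine Eq.trans (Finset.sum_congr rfl fun Q hQ => ?_) h.deg
    rw [rep_zero (s2_disc h hQ) (h.gen Q hQ).pos]
    simp

private theorem s2_inert {P : ℕ} (h : A.Ok) (hP : P.Prime) (h1 : P ≠ A.p) (h2 : P ≠ A.q)
    (hs : J((P : ℤ) | A.p) * J((P : ℤ) | A.q) ≠ 1) :
    J((P : ℤ) | A.p) * J((P : ℤ) | A.q) = -1 := by
  have c1 : (P : ℤ).gcd A.p = 1 := by
    simpa using (Nat.coprime_primes hP h.pp).mpr h1
  have c2 : (P : ℤ).gcd A.q = 1 := by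
    simpa using (Nat.coprime_primes hP h.qp).mpr h2
  rcases jacobiSym.eq_one_or_neg_one c1 with e1 | e1 <;>
    rcases jacobiSym.eq_one_or_neg_one c2 with e2 | e2 <;> simp_all

private theorem s2_dvd (h : A.Dat T w) {P : ℕ} (hP : P.Prime) (h15 : ¬ P ∣ 15)
    (hs : J((P : ℤ) | A.p) * J((P : ℤ) | A.q) ≠ 1) {l j k : ℕ}
    (hk : rW T w ((l * P ^ j : ℕ) * A.n - 15 * k) * s2coef A P k ≠ 0) : P ^ j ∣ k := by
  by_contra hd
  have hk0 : k ≠ 0 := by
    rintro rfl
    exact hd (dvd_zero _)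
  have he : k.factorization P < j := by
    by_contra hh
    exact hd ((hP.pow_dvd_iff_le_factorization hk0).mpr (not_lt.mp hh))
  obtain ⟨Q, hQ, x, y, hxy⟩ := s2_exists (left_ne_zero_of_mul hk)
  refine right_ne_zero_of_mul hk ?_
  obtain ⟨d, rfl⟩ := Nat.exists_eq_add_of_lt he
  by_cases hr : P = A.p ∨ P = A.q
  · refine h.ok.coef_eq_zero_ram (h.gen Q hQ) hr hk0 (x := x) (y := y)
      (B := l * P ^ d * A.n) ?_
    rw [hxy]
    push_cast
    ring
  · have h1 : P ≠ A.p := fun e => hr (Or.inl e)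
    have h2 : P ≠ A.q := fun e => hr (Or.inr e)
    have hi := s2_inert h.ok hP h1 h2 hs
    have hpos : 0 < ((l * P ^ (k.factorization P + d + 1) : ℕ) : ℤ) * A.n - 15 * k := by
      by_contra hh
      exact left_ne_zero_of_mul hk (s2_nonpos h (not_lt.mp hh))
    obtain ⟨N, hN⟩ := Int.eq_ofNat_of_zero_le hpos.le
    have hN0 : N ≠ 0 := by
      rintro rfl
      rw [hN] at hpos
      simp at hpos
    have hev := h.ok.even_val (h.gen Q hQ) hP hi (hxy.trans hN)
    have hsum : N + 15 * k = l * P ^ (k.factorization P + d + 1) * A.n := by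
      have : (N : ℤ) + 15 * k = ((l * P ^ (k.factorization P + d + 1) : ℕ) : ℤ) * A.n := by
        rw [← hN]; ring
      exact_mod_cast this
    have hf : N.factorization P = k.factorization P := by
      have d1 : ∀ i ≤ k.factorization P + 1, P ^ i ∣ N + 15 * k := fun i hi => by
        rw [hsum]
        exact ((pow_dvd_pow P (by omega)).mul_left l).mul_right _
      have co : ∀ i, (P ^ i).Coprime 15 := fun i =>
        Nat.Coprime.pow_left i ((Nat.Prime.coprime_iff_not_dvd hP).mpr h15)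
      apply le_antisymm
      · by_contra hh
        have d2 : P ^ (k.factorization P + 1) ∣ N :=
          (hP.pow_dvd_iff_le_factorization hN0).mpr (by omega)
        have d3 := (Nat.dvd_add_right d2).mp (d1 _ le_rfl)
        have d4 := (hP.pow_dvd_iff_le_factorization hk0).mp ((co _).dvd_of_dvd_mul_left d3)
        omega
      · refine (hP.pow_dvd_iff_le_factorization hN0).mp ?_
        exact (Nat.dvd_add_left ((Nat.ordProj_dvd k P).mul_left 15)).mp (d1 _ (by omega))
    refine h.ok.coef_eq_zero hP h1 h2 ?_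
    rw [hi, ← hf]
    exact hev.neg_one_pow

private theorem s2_card {P : ℕ} (hP : P.Prime) (j x : ℕ) :
    (P ^ j * x).divisors.card ≤ (j + 1) * x := by
  classical
  rw [Nat.divisors_mul]
  refine Finset.card_mul_le.trans (Nat.mul_le_mul ?_ (Nat.card_divisors_le_self x))
  rw [Nat.divisors_prime_pow hP]
  simp

private theorem s2_coef_le (h : A.Ok) (P k : ℕ) :
    |s2coef A P k| ≤ k.divisors.card * k.factorization P := by
  refine (Finset.abs_sum_le_sum_abs _ _).trans ?_
  rw [← nsmul_eq_mul]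
  refine Finset.sum_le_card_nsmul _ _ _ fun c hc => ?_
  obtain ⟨hc, hk⟩ := Nat.mem_divisors.mp hc
  have h1 : c.factorization P ≤ k.factorization P :=
    (Nat.factorization_le_iff_dvd (ne_zero_of_dvd_ne_zero hk hc) hk).mpr hc P
  have hc' := Nat.div_dvd_of_dvd hc
  have h2 : (k / c).factorization P ≤ k.factorization P :=
    (Nat.factorization_le_iff_dvd (ne_zero_of_dvd_ne_zero hk hc') hk).mpr hc' P
  rw [abs_mul]
  refine (mul_le_of_le_one_left (abs_nonneg _) (h.abs_lam_le _ _)).trans ?_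
  rw [abs_le]
  omega

/-- Primes that do not split occur with polynomially growing coefficients. -/
theorem Par.Dat.fin_nonsplit (h : A.Dat T w) {P : ℕ} (hP : P.Prime) (h15 : ¬ P ∣ 15)
    (hs : J((P : ℤ) | A.p) * J((P : ℤ) | A.q) ≠ 1) (l : ℕ) : ∃ C : ℝ, ∀ j : ℕ, ∃ ρ : ℤ,
      |(ρ : ℝ)| ≤ C * (j + 1) ^ 4 ∧ A.fin T w (l * P ^ j) - ρ * Real.log P ∈ LogS P := by
  classical
  obtain ⟨C, hC⟩ := h.abs_rW_le
  set L : ℕ := l * A.n with hL
  refine ⟨L * (|C| * L ^ 2 * (L * (L + 1))), fun j => ⟨_, ?_, s2_fin_sub h hP _⟩⟩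
  have hterm : ∀ k ∈ (Finset.range L).image (fun k' => P ^ j * k'),
      |((rW T w ((l * P ^ j : ℕ) * A.n - 15 * k) * s2coef A P k : ℤ) : ℝ)| ≤
        |C| * L ^ 2 * (L * (L + 1)) * (j + 1) ^ 4 := by
    intro k hk
    obtain ⟨k', hk', rfl⟩ := Finset.mem_image.mp hk
    have hk'L : k' < L := Finset.mem_range.mp hk'
    have b1 : |(rW T w ((l * P ^ j : ℕ) * A.n - 15 * (P ^ j * k' : ℕ)) : ℝ)| ≤
        |C| * (((j + 1) * L : ℕ) : ℝ) ^ 2 := by
      by_cases hx : L ≤ 15 * k'
      · rw [s2_nonpos h]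
        · simp only [Int.cast_zero, abs_zero]
          positivity
        · have : l * P ^ j * A.n ≤ 15 * (P ^ j * k') := by
            calc l * P ^ j * A.n = P ^ j * L := by rw [hL]; ring
              _ ≤ P ^ j * (15 * k') := Nat.mul_le_mul_left _ hx
              _ = _ := by ring
          have h2 : ((l * P ^ j * A.n : ℕ) : ℤ) ≤ ((15 * (P ^ j * k') : ℕ) : ℤ) := by
            exact_mod_cast this
          push_cast at h2 ⊢
          linarith
      · obtain ⟨x, hx'⟩ := Nat.exists_eq_add_of_lt (not_le.mp hx)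
        have e : ((l * P ^ j : ℕ) : ℤ) * A.n - 15 * (P ^ j * k' : ℕ) =
            ((P ^ j * (x + 1) : ℕ) : ℤ) := by
          have h2 : (l : ℤ) * A.n = 15 * k' + x + 1 := by exact_mod_cast hL.symm.trans hx'
          push_cast
          linear_combination (P : ℤ) ^ j * h2
        rw [e]
        refine (hC _ (mul_ne_zero (pow_ne_zero _ hP.ne_zero) (Nat.succ_ne_zero x))).trans ?_
        have h3 : (P ^ j * (x + 1)).divisors.card ≤ (j + 1) * L :=
          (s2_card hP j _).trans (Nat.mul_le_mul_left _ (by omega))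
        have h4 : ((P ^ j * (x + 1)).divisors.card : ℝ) ≤ ((j + 1) * L : ℕ) := by
          exact_mod_cast h3
        exact mul_le_mul (le_abs_self C) (pow_le_pow_left₀ (Nat.cast_nonneg _) h4 2)
          (by positivity) (abs_nonneg C)
    have b2 : |(s2coef A P (P ^ j * k') : ℝ)| ≤ (((j + 1) * L * ((j + 1) * (L + 1)) : ℕ) : ℝ) := by
      have h3 : (P ^ j * k').divisors.card ≤ (j + 1) * L :=
        (s2_card hP j _).trans (Nat.mul_le_mul_left _ hk'L.le)
      have h4 : (P ^ j * k').factorization P ≤ (j + 1) * (L + 1) := by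
        rcases eq_or_ne k' 0 with rfl | h0
        · simp
        · rw [Nat.factorization_mul (pow_ne_zero _ hP.ne_zero) h0, hP.factorization_pow]
          have := Nat.factorization_lt P h0
          simp only [Finsupp.coe_add, Pi.add_apply, Finsupp.single_eq_same]
          nlinarith
      have h5 := (s2_coef_le h.ok P (P ^ j * k')).trans
        (Int.ofNat_le.mpr (Nat.mul_le_mul h3 h4))
      exact_mod_cast h5
    rw [Int.cast_mul, abs_mul]
    refine (mul_le_mul b1 b2 (abs_nonneg _) (by positivity)).trans (le_of_eq ?_)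
    push_cast
    ring
  have hsub : (Finset.range L).image (fun k' => P ^ j * k') ⊆ Finset.range (l * P ^ j * A.n) := by
    intro k hk
    obtain ⟨k', hk', rfl⟩ := Finset.mem_image.mp hk
    rw [Finset.mem_range] at hk' ⊢
    calc P ^ j * k' < P ^ j * L := Nat.mul_lt_mul_of_pos_left hk' (pow_pos hP.pos j)
      _ = _ := by rw [hL]; ring
  have hsum : s2rho A T w P (l * P ^ j) = ∑ k ∈ (Finset.range L).image (fun k' => P ^ j * k'),
      rW T w ((l * P ^ j : ℕ) * A.n - 15 * k) * s2coef A P k := by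
    refine (Finset.sum_subset hsub fun k hk hk2 => ?_).symm
    by_contra hne
    obtain ⟨k', rfl⟩ := s2_dvd h hP h15 hs hne
    refine hk2 (Finset.mem_image.mpr ⟨k', Finset.mem_range.mpr ?_, rfl⟩)
    rw [Finset.mem_range] at hk
    refine Nat.lt_of_mul_lt_mul_left (a := P ^ j) (hk.trans_eq ?_)
    rw [hL]; ring
  rw [hsum, Int.cast_sum]
  refine (Finset.abs_sum_le_sum_abs _ _).trans ((Finset.sum_le_card_nsmul _ _ _ hterm).trans ?_)
  rw [nsmul_eq_mul, mul_assoc (L : ℝ)]
  refine mul_le_mul_of_nonneg_right ?_ (by positivity)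
  exact_mod_cast Finset.card_image_le.trans (Finset.card_range L).le

end Pool.Agent.Dih
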