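import Pool.Agent.Lib.MP_60ff09_nt.Dih.AN0

/-! Comparison of two kernels. -/

set_option autoImplicit false

open Complex Filter Topology Set MeasureTheory CongruenceSubgroup NumberTheorySymbols
open UpperHalfPlane hiding I
open scoped Real MatrixGroups ComplexConjugate Modular
open Pool.Agent.Lib.MP_696deb_nt Pool.Agent.Lib.MP_696deb_nt.Unif Pool.Agent.Shared.Weier

namespace Pool.Agent.Dih

/-- The kernel that comes out of the holomorphic projection. -/
noncomputable def kerA (ε x : ℝ) : ℝ := ∫ u in Ioi (1 : ℝ), (1 + x * u) ^ (-1 - ε) / u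

private theorem ant_int {g : ℝ → ℝ} {C : ℝ} (hm : Measurable g)
    (h : ∀ u : ℝ, 1 < u → |g u| ≤ C * u ^ (-2 : ℝ)) :
    IntegrableOn g (Ioi 1) ∧ |∫ u in Ioi (1 : ℝ), g u| ≤ C := by
  have hi : IntegrableOn (fun u : ℝ => C * u ^ (-2 : ℝ)) (Ioi 1) :=
    (integrableOn_Ioi_rpow_of_lt (by norm_num) one_pos).const_mul C
  have hb : ∀ᵐ u ∂(volume.restrict (Ioi (1 : ℝ))), ‖g u‖ ≤ C * u ^ (-2 : ℝ) := by
    filter_upwards [ae_restrict_mem measurableSet_Ioi] with u hu using h u hu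
  refine ⟨hi.mono' hm.aestronglyMeasurable hb, ?_⟩
  have := norm_integral_le_of_norm_le hi hb
  rw [integral_const_mul, integral_Ioi_rpow_of_lt (by norm_num) one_pos] at this
  norm_num at this
  exact this

private theorem ant_rpow {s u : ℝ} (hs : 1 ≤ s) (hu : 1 < u) : u ^ (-s) / u ≤ u ^ (-2 : ℝ) := by
  have h0 : 0 < u := by linarith
  rw [← Real.rpow_sub_one h0.ne']
  exact Real.rpow_le_rpow_of_exponent_le hu.le (by linarith)

private theorem ant_kerA {ε x : ℝ} (hε : 0 < ε) (hx : 0 < x) (u : ℝ) (hu : 1 < u) :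
    |(1 + x * u) ^ (-1 - ε) / u| ≤ x ^ (-1 - ε) * u ^ (-2 : ℝ) := by
  have h0 : 0 < u := by linarith
  have h1 : 0 < x * u := by positivity
  rw [abs_of_nonneg (by positivity)]
  have h2 : (1 + x * u) ^ (-1 - ε) ≤ (x * u) ^ (-1 - ε) :=
    Real.rpow_le_rpow_of_nonpos h1 (by linarith) (by linarith)
  have h3 := ant_rpow (s := 1 + ε) (by linarith) hu
  rw [show -(1 + ε) = -1 - ε by ring] at h3
  calc (1 + x * u) ^ (-1 - ε) / u ≤ (x * u) ^ (-1 - ε) / u := by gcongr
    _ = x ^ (-1 - ε) * (u ^ (-1 - ε) / u) := by rw [Real.mul_rpow hx.le h0.le]; ring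
    _ ≤ _ := by gcongr

private theorem ant_kerA_int {ε x : ℝ} (hε : 0 < ε) (hx : 0 < x) :
    IntegrableOn (fun u : ℝ => (1 + x * u) ^ (-1 - ε) / u) (Ioi 1) ∧
      |kerA ε x| ≤ x ^ (-1 - ε) :=
  ant_int (by fun_prop) (ant_kerA hε hx)

private theorem ant_exp {s t : ℝ} (hs : 0 < s) (ht : 0 < t) :
    Real.exp (-t) ≤ s ^ s * t ^ (-s) := by
  rw [Real.rpow_def_of_pos hs, Real.rpow_def_of_pos ht, ← Real.exp_add, Real.exp_le_exp]
  have h := Real.log_le_sub_one_of_pos (div_pos ht hs)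
  rw [Real.log_div ht.ne' hs.ne'] at h
  have h2 : s * (Real.log t - Real.log s) ≤ s * (t / s - 1) := by gcongr
  have h3 : s * (t / s - 1) = t - s := by field_simp
  nlinarith

private theorem ant_bet {s x : ℝ} (hs : 1 ≤ s) (hx : 0 < x) : |bet x| ≤ s ^ s * x ^ (-s) := by
  refine (ant_int (g := fun u : ℝ => Real.exp (-x * u) / u) (by fun_prop) fun u hu => ?_).2
  have h0 : 0 < u := by linarith
  have hs0 : 0 < s := by linarith
  rw [abs_of_nonneg (by positivity)]
  have h1 := ant_exp hs0 (mul_pos hx h0)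
  have h3 := ant_rpow hs hu
  calc Real.exp (-x * u) / u ≤ s ^ s * (x * u) ^ (-s) / u := by
        rw [neg_mul]; gcongr
    _ = s ^ s * x ^ (-s) * (u ^ (-s) / u) := by rw [Real.mul_rpow hx.le h0.le]; ring
    _ ≤ _ := by gcongr

private theorem ant_gamma {ε r : ℝ} (hε : 0 < ε) (hr : 0 < r) :
    IntegrableOn (fun y : ℝ => y ^ ε * Real.exp (-r * y)) (Ioi 0) ∧
    ∫ y in Ioi (0 : ℝ), y ^ ε * Real.exp (-r * y) = Real.Gamma (1 + ε) * r ^ (-1 - ε) := by
  constructor
  · simpa using integrableOn_rpow_mul_exp_neg_mul_rpow (p := 1) (s := ε) (by linarith) one_pos hr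
  · have := Real.integral_rpow_mul_exp_neg_mul_Ioi (a := 1 + ε) (by linarith) hr
    simp only [add_sub_cancel_left] at this
    simp only [neg_mul]
    rw [this, one_div, Real.inv_rpow hr.le, ← Real.rpow_neg hr.le, mul_comm]
    congr 2
    ring

private theorem ant_mv {ε w : ℝ} (hε : 0 < ε) (h1 : ε ≤ 1) (hw : 0 < w) :
    |(1 + w) ^ (-ε) - (1 / 2 + w) ^ (-ε)| ≤ ε / w := by
  have ha : 0 < 1 / 2 + w := by positivity
  have hb : 0 < 1 + w := by positivity
  have h2 : (1 + w) ^ (-ε) ≤ (1 / 2 + w) ^ (-ε) :=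
    Real.rpow_le_rpow_of_nonpos ha (by linarith) (by linarith)
  rw [abs_sub_comm, abs_of_nonneg (by linarith)]
  have h3 : (1 + w) ^ (-ε) = (1 / 2 + w) ^ (-ε) * ((1 + w) / (1 / 2 + w)) ^ (-ε) := by
    rw [← Real.mul_rpow ha.le (by positivity)]
    congr 1
    field_simp
  have h4 : 1 - ε * (1 / 2 / (1 / 2 + w)) ≤ ((1 + w) / (1 / 2 + w)) ^ (-ε) := by
    rw [Real.rpow_def_of_pos (by positivity)]
    refine le_trans ?_ (Real.add_one_le_exp _)
    have h := Real.log_le_sub_one_of_pos (div_pos hb ha)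
    have e : (1 + w) / (1 / 2 + w) - 1 = 1 / 2 / (1 / 2 + w) := by field_simp; ring
    rw [e] at h
    nlinarith
  have h5 : (1 / 2 + w) ^ (-ε) ≤ 2 := by
    calc (1 / 2 + w) ^ (-ε) ≤ (1 / 2 : ℝ) ^ (-ε) :=
          Real.rpow_le_rpow_of_nonpos (by norm_num) (by linarith) (by linarith)
      _ ≤ (1 / 2 : ℝ) ^ (-1 : ℝ) :=
          Real.rpow_le_rpow_of_exponent_ge (by norm_num) (by norm_num) (by linarith)
      _ = 2 := by norm_num
  have h6 : 0 ≤ (1 / 2 + w) ^ (-ε) := by positivity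
  have h7 : 0 ≤ ε * (1 / 2 / (1 / 2 + w)) := by positivity
  calc (1 / 2 + w) ^ (-ε) - (1 + w) ^ (-ε)
      ≤ (1 / 2 + w) ^ (-ε) * (ε * (1 / 2 / (1 / 2 + w))) := by rw [h3]; nlinarith
    _ ≤ 2 * (ε * (1 / 2 / (1 / 2 + w))) := by gcongr
    _ = ε / (1 / 2 + w) := by field_simp
    _ ≤ ε / w := by gcongr; linarith

private theorem ant_kerK (ε : ℝ) {x : ℝ} (hx : 0 < x) :
    2 ^ ε * (2 * kerK ε (1 + 2 * x)) =
      ∫ u in Ioi (1 : ℝ), (1 / 2 + x * u) ^ (-ε) / (1 + x * u) / u := by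
  have him : (fun u : ℝ => 1 + 2 * x * u) '' Ioi 1 = Ioi (1 + 2 * x) := by
    ext y
    simp only [mem_image, mem_Ioi]
    constructor
    · rintro ⟨u, hu, rfl⟩
      nlinarith
    · intro hy
      refine ⟨(y - 1) / (2 * x), ?_, by field_simp; ring⟩
      rw [lt_div_iff₀ (by positivity)]
      linarith
  have hd : ∀ u ∈ Ioi (1 : ℝ),
      HasDerivWithinAt (fun u : ℝ => 1 + 2 * x * u) (2 * x) (Ioi 1) u := fun u _ => by
    simpa using (((hasDerivAt_id u).const_mul (2 * x)).const_add 1).hasDerivWithinAt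
  have hinj : InjOn (fun u : ℝ => 1 + 2 * x * u) (Ioi 1) := fun a _ b _ h => by
    have h' : 2 * x * a = 2 * x * b := by simpa using h
    exact mul_left_cancel₀ (by positivity) h'
  rw [kerK, if_pos (by linarith), ← him,
    integral_image_eq_integral_abs_deriv_smul measurableSet_Ioi hd hinj, ← integral_const_mul,
    ← integral_const_mul]
  refine setIntegral_congr_fun measurableSet_Ioi fun u hu => ?_
  have h0 : 0 < u := lt_trans one_pos hu
  have e1 : (1 + 2 * x * u) ^ (-ε) = 2 ^ (-ε) * (1 / 2 + x * u) ^ (-ε) := by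
    rw [← Real.mul_rpow (by norm_num) (by positivity)]
    congr 1
    ring
  have e2 : (2 : ℝ) ^ (-ε) = (2 ^ ε)⁻¹ := Real.rpow_neg (by norm_num) ε
  have e3 : (1 + 2 * x * u) ^ 2 - 1 = 4 * x * u * (1 + x * u) := by ring
  have e4 : (0 : ℝ) < 2 ^ ε := by positivity
  simp only [smul_eq_mul]
  rw [abs_of_pos (by positivity), e1, e2, e3]
  field_simp
  ring

theorem integral_bet {ε m κ : ℝ} (hε : 0 < ε) (hm : 0 < m) (hκ : 0 < κ) :
    IntegrableOn (fun y : ℝ => y ^ ε * Real.exp (-m * y) * bet (κ * y)) (Ioi 0) ∧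
    ∫ y in Ioi (0 : ℝ), y ^ ε * Real.exp (-m * y) * bet (κ * y) =
      Real.Gamma (1 + ε) * m ^ (-1 - ε) * kerA ε (κ / m) := by
  set f : ℝ → ℝ → ℝ := fun y u => y ^ ε * Real.exp (-m * y) * (Real.exp (-(κ * y) * u) / u)
    with hf
  have hx : 0 < κ / m := div_pos hκ hm
  have e1 : ∀ u y : ℝ, f y u = y ^ ε * Real.exp (-(m + κ * u) * y) / u := fun u y => by
    simp only [hf]
    rw [show -(m + κ * u) * y = -m * y + -(κ * y) * u by ring, Real.exp_add]
    ring
  have e2 : ∀ u : ℝ, 1 < u → ∫ y in Ioi (0 : ℝ), f y u =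
      Real.Gamma (1 + ε) * m ^ (-1 - ε) * ((1 + κ / m * u) ^ (-1 - ε) / u) := fun u hu => by
    have h0 : 0 < u := by linarith
    simp only [e1]
    rw [integral_div, (ant_gamma hε (by positivity)).2,
      show m + κ * u = m * (1 + κ / m * u) by field_simp, Real.mul_rpow hm.le (by positivity)]
    ring
  have hi : Integrable (Function.uncurry f)
      ((volume.restrict (Ioi (0 : ℝ))).prod (volume.restrict (Ioi (1 : ℝ)))) := by
    have hme : Measurable (Function.uncurry f) := by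
      simp only [hf, Function.uncurry_def]
      fun_prop
    rw [integrable_prod_iff' hme.aestronglyMeasurable]
    constructor
    · filter_upwards [ae_restrict_mem measurableSet_Ioi] with u hu
      have h0 : 0 < u := lt_trans one_pos hu
      simp only [Function.uncurry_apply_pair, e1]
      exact (ant_gamma hε (by positivity)).1.div_const u
    · refine (((ant_kerA_int hε hx).1.const_mul
        (Real.Gamma (1 + ε) * m ^ (-1 - ε)))).congr ?_
      filter_upwards [ae_restrict_mem measurableSet_Ioi] with u hu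
      have h0 : 0 < u := lt_trans one_pos hu
      rw [← e2 u hu]
      refine setIntegral_congr_fun measurableSet_Ioi fun y hy => ?_
      have hy0 : 0 < y := hy
      simp only [Function.uncurry_apply_pair, e1]
      rw [Real.norm_of_nonneg (by positivity)]
  have e3 : ∀ y : ℝ, y ^ ε * Real.exp (-m * y) * bet (κ * y) = ∫ u in Ioi (1 : ℝ), f y u :=
    fun y => by simp only [hf, bet]; rw [integral_const_mul]
  simp only [e3]
  refine ⟨hi.integral_prod_left, ?_⟩
  rw [integral_integral_swap hi, kerA, ← integral_const_mul]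
  exact setIntegral_congr_fun measurableSet_Ioi fun u hu => e2 u hu

theorem bet_nonneg (x : ℝ) : 0 ≤ bet x := by
  refine setIntegral_nonneg measurableSet_Ioi fun u hu => ?_
  have h0 : 0 < u := lt_trans one_pos hu
  positivity

theorem kerA_le {ε x : ℝ} (hε : 0 < ε) (hx : 0 < x) :
    0 ≤ kerA ε x ∧ kerA ε x ≤ x ^ (-1 - ε) := by
  refine ⟨setIntegral_nonneg measurableSet_Ioi fun u hu => ?_,
    (le_abs_self _).trans (ant_kerA_int hε hx).2⟩
  have h0 : 0 < u := lt_trans one_pos hu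
  positivity

theorem kerA_sub {ε x : ℝ} (hε : 0 < ε) (h1 : ε ≤ 1) (hx : 0 < x) :
    |kerA ε x - 2 ^ ε * (2 * kerK ε (1 + 2 * x))| ≤ ε / x ^ 2 := by
  have hD := ant_int (g := fun u : ℝ => (1 + x * u) ^ (-1 - ε) / u -
    (1 / 2 + x * u) ^ (-ε) / (1 + x * u) / u) (C := ε / x ^ 2) (by fun_prop) fun u hu => by
      have h0 : 0 < u := by linarith
      have hw : 0 < x * u := by positivity
      have e : (1 + x * u) ^ (-1 - ε) / u - (1 / 2 + x * u) ^ (-ε) / (1 + x * u) / u =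
          ((1 + x * u) ^ (-ε) - (1 / 2 + x * u) ^ (-ε)) / ((1 + x * u) * u) := by
        rw [show -1 - ε = -ε - 1 by ring, Real.rpow_sub_one (by positivity)]
        field_simp
      rw [e, abs_div, abs_of_pos (show 0 < (1 + x * u) * u by positivity)]
      have h2 : u ^ (-2 : ℝ) = (u ^ 2)⁻¹ := by
        rw [Real.rpow_neg h0.le]; norm_num
      calc _ ≤ ε / (x * u) / ((1 + x * u) * u) := by gcongr; exact ant_mv hε h1 hw
        _ ≤ ε / (x * u) / (x * u) := by gcongr; nlinarith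
        _ = _ := by rw [h2]; field_simp
  have hA := (ant_kerA_int hε hx).1
  have hK : IntegrableOn (fun u : ℝ => (1 / 2 + x * u) ^ (-ε) / (1 + x * u) / u) (Ioi 1) :=
    (hA.sub hD.1).congr (Eventually.of_forall fun u => by simp)
  rw [ant_kerK ε hx, kerA, ← integral_sub hA hK]
  exact hD.2

theorem ker_cmp {N : ℕ → ℝ} (h0 : N 0 = 0)
    (hN : ∀ ε : ℝ, 0 < ε → Summable fun k : ℕ => |N k| * (k : ℝ) ^ (-1 - ε)) {x : ℝ} (hx : 0 < x) :
    Tendsto (fun ε : ℝ => ∑' k : ℕ, N k * kerA ε (k * x) -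
      2 ^ ε * (2 * ∑' k : ℕ, N k * kerK ε (1 + 2 * (k * x)))) (𝓝[>] 0) (𝓝 0) := by
  have hS := hN 1 one_pos
  set S : ℝ := ∑' k : ℕ, |N k| * (k : ℝ) ^ (-1 - 1 : ℝ) with hSd
  have hlim : Tendsto (fun ε : ℝ => ε * (S / x ^ 2)) (𝓝[>] 0) (𝓝 0) := by
    have : Tendsto (fun ε : ℝ => ε * (S / x ^ 2)) (𝓝 0) (𝓝 (0 * (S / x ^ 2))) :=
      (continuous_id.mul continuous_const).tendsto 0
    rw [zero_mul] at this
    exact this.mono_left nhdsWithin_le_nhds
  refine squeeze_zero_norm' ?_ hlim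
  filter_upwards [Ioc_mem_nhdsGT one_pos] with ε hε
  have hA : Summable fun k : ℕ => N k * kerA ε (k * x) := by
    refine ((hN ε hε.1).mul_right (x ^ (-1 - ε))).of_norm_bounded fun k => ?_
    rcases Nat.eq_zero_or_pos k with rfl | hk
    · simp [h0]
    have hk' : (0 : ℝ) < k := by exact_mod_cast hk
    rw [norm_mul, Real.norm_eq_abs, Real.norm_eq_abs, mul_assoc, ← Real.mul_rpow hk'.le hx.le]
    gcongr
    exact (ant_kerA_int hε.1 (by positivity)).2
  have hb : ∀ k : ℕ, ‖N k * (kerA ε (k * x) - 2 ^ ε * (2 * kerK ε (1 + 2 * (k * x))))‖ ≤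
      |N k| * (k : ℝ) ^ (-1 - 1 : ℝ) * (ε / x ^ 2) := fun k => by
    rcases Nat.eq_zero_or_pos k with rfl | hk
    · simp [h0]
    have hk' : (0 : ℝ) < k := by exact_mod_cast hk
    rw [norm_mul, Real.norm_eq_abs, Real.norm_eq_abs, mul_assoc]
    gcongr
    refine (kerA_sub hε.1 hε.2 (by positivity)).trans (le_of_eq ?_)
    rw [show (-1 - 1 : ℝ) = -2 by norm_num, Real.rpow_neg hk'.le]
    norm_num
    field_simp
  have hD := (hS.mul_right (ε / x ^ 2)).of_norm_bounded hb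
  have hK : Summable fun k : ℕ => N k * (2 ^ ε * (2 * kerK ε (1 + 2 * (k * x)))) :=
    (hA.sub hD).congr fun k => by ring
  have e : ∑' k : ℕ, N k * kerA ε (k * x) -
      2 ^ ε * (2 * ∑' k : ℕ, N k * kerK ε (1 + 2 * (k * x))) =
      ∑' k : ℕ, N k * (kerA ε (k * x) - 2 ^ ε * (2 * kerK ε (1 + 2 * (k * x)))) := by
    rw [← tsum_mul_left, ← tsum_mul_left,
      tsum_congr (f := fun k : ℕ => 2 ^ ε * (2 * (N k * kerK ε (1 + 2 * (k * x)))))
        (g := fun k : ℕ => N k * (2 ^ ε * (2 * kerK ε (1 + 2 * (k * x))))) fun k => by ring,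
      ← hA.tsum_sub hK]
    exact tsum_congr fun k => by ring
  rw [e]
  refine (tsum_of_norm_bounded (hS.mul_right (ε / x ^ 2)).hasSum hb).trans (le_of_eq ?_)
  rw [tsum_mul_right, ← hSd]
  ring

theorem integral_tsum_bet {N : ℕ → ℝ} (h0 : N 0 = 0) {ε : ℝ} (hε : 0 < ε)
    (hN : Summable fun k : ℕ => |N k| * (k : ℝ) ^ (-1 - ε)) {m κ : ℝ} (hm : 0 < m) (hκ : 0 < κ)
    (F : ℝ) :
    ∫ y in Ioi (0 : ℝ), y ^ ε * Real.exp (-m * y) * (F + ∑' k : ℕ, N k * bet (κ * y * k)) =
      Real.Gamma (1 + ε) * m ^ (-1 - ε) * (F + ∑' k : ℕ, N k * kerA ε (k * (κ / m))) := by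
  set c : ℝ := Real.Gamma (1 + ε) * m ^ (-1 - ε) with hc
  have hc0 : 0 ≤ c := mul_nonneg (Real.Gamma_pos_of_pos (by linarith)).le (by positivity)
  have hx : 0 < κ / m := div_pos hκ hm
  set G : ℕ → ℝ → ℝ := fun k y => y ^ ε * Real.exp (-m * y) *
    (if k = 0 then F else N k * bet (κ * y * k)) with hG
  have hG0 : G 0 = fun y => y ^ ε * Real.exp (-m * y) * F := by
    funext y; simp [hG]
  have hG1 : ∀ k : ℕ, G (k + 1) = fun y => N (k + 1) *
      (y ^ ε * Real.exp (-m * y) * bet (κ * (k + 1 : ℕ) * y)) := fun k => by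
    funext y
    simp only [hG, Nat.succ_ne_zero, if_false]
    rw [mul_right_comm κ y]
    ring
  have hk : ∀ k : ℕ, 0 < κ * (k + 1 : ℕ) := fun k => by positivity
  have hi : ∀ k, Integrable (G k) (volume.restrict (Ioi (0 : ℝ))) := fun k => by
    rcases k with _ | k
    · rw [hG0]; exact (ant_gamma hε hm).1.mul_const F
    · rw [hG1]; exact (integral_bet hε hm (hk k)).1.const_mul _
  have hv : ∀ k : ℕ, κ * (k + 1 : ℕ) / m = (k + 1 : ℕ) * (κ / m) := fun k => by ring
  have hI : ∀ k : ℕ, ∫ y in Ioi (0 : ℝ), G (k + 1) y =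
      c * (N (k + 1) * kerA ε ((k + 1 : ℕ) * (κ / m))) := fun k => by
    rw [hG1, integral_const_mul, (integral_bet hε hm (hk k)).2, hv]
    ring
  have hA : ∀ k : ℕ, |N (k + 1)| * kerA ε ((k + 1 : ℕ) * (κ / m)) ≤
      |N (k + 1)| * ((k + 1 : ℕ) : ℝ) ^ (-1 - ε) * (κ / m) ^ (-1 - ε) := fun k => by
    rw [mul_assoc, ← Real.mul_rpow (by positivity) hx.le]
    gcongr
    exact (kerA_le hε (by positivity)).2
  have hN1 := ((summable_nat_add_iff 1).2 hN).mul_right ((κ / m) ^ (-1 - ε))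
  have hA0 : ∀ k : ℕ, 0 ≤ kerA ε ((k + 1 : ℕ) * (κ / m)) := fun k =>
    (kerA_le hε (by positivity)).1
  have hs : Summable fun k : ℕ => ∫ y in Ioi (0 : ℝ), ‖G k y‖ := by
    rw [← summable_nat_add_iff 1]
    refine (hN1.mul_left c).of_nonneg_of_le (fun k => integral_nonneg fun y => norm_nonneg _)
      fun k => ?_
    have e : ∫ y in Ioi (0 : ℝ), ‖G (k + 1) y‖ = ∫ y in Ioi (0 : ℝ), |N (k + 1)| *
        (y ^ ε * Real.exp (-m * y) * bet (κ * (k + 1 : ℕ) * y)) := by
      refine setIntegral_congr_fun measurableSet_Ioi fun y hy => ?_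
      have hy0 : 0 < y := hy
      have := bet_nonneg (κ * (k + 1 : ℕ) * y)
      simp only [hG1]
      rw [norm_mul, Real.norm_eq_abs, Real.norm_of_nonneg (by positivity)]
    rw [e, integral_const_mul, (integral_bet hε hm (hk k)).2, hv]
    calc _ = c * (|N (k + 1)| * kerA ε ((k + 1 : ℕ) * (κ / m))) := by ring
      _ ≤ _ := mul_le_mul_of_nonneg_left (hA k) hc0
  have hH := hasSum_integral_of_summable_integral_norm hi hs
  have hK : Summable fun k : ℕ => N k * kerA ε (k * (κ / m)) := by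
    rw [← summable_nat_add_iff 1]
    refine hN1.of_norm_bounded fun k => ?_
    rw [norm_mul, Real.norm_eq_abs, Real.norm_of_nonneg (hA0 k)]
    exact hA k
  have e1 : ∫ y in Ioi (0 : ℝ), y ^ ε * Real.exp (-m * y) *
      (F + ∑' k : ℕ, N k * bet (κ * y * k)) = ∫ y in Ioi (0 : ℝ), ∑' k, G k y := by
    refine setIntegral_congr_fun measurableSet_Ioi fun y hy => ?_
    have hy0 : 0 < y := hy
    have hB : Summable fun k : ℕ => N (k + 1) * bet (κ * y * (k + 1 : ℕ)) := by
      refine (((summable_nat_add_iff 1).2 hN).mul_right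
        ((1 + ε) ^ (1 + ε) * (κ * y) ^ (-1 - ε))).of_norm_bounded fun k => ?_
      have h := ant_bet (s := 1 + ε) (x := κ * y * (k + 1 : ℕ)) (by linarith) (by positivity)
      rw [show -(1 + ε) = -1 - ε by ring, Real.mul_rpow (by positivity) (by positivity)] at h
      rw [norm_mul, Real.norm_eq_abs, Real.norm_eq_abs, mul_assoc |N (k + 1)|]
      exact mul_le_mul_of_nonneg_left (h.trans (le_of_eq (by ring))) (abs_nonneg _)
    have hB' : Summable fun k : ℕ => if k = 0 then F else N k * bet (κ * y * k) := by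
      rw [← summable_nat_add_iff 1]
      simpa using hB
    have hB2 : Summable fun k : ℕ => N k * bet (κ * y * k) := (summable_nat_add_iff 1).1 hB
    simp only [hG]
    rw [tsum_mul_left, hB'.tsum_eq_zero_add, hB2.tsum_eq_zero_add]
    simp [h0]
  rw [e1, ← hH.tsum_eq, hH.summable.tsum_eq_zero_add, hK.tsum_eq_zero_add]
  simp only [hI]
  rw [tsum_mul_left, hG0, integral_mul_const, (ant_gamma hε hm).2, h0]
  ring

end Pool.Agent.Dih
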