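import Pool.Agent.Lib.MP_60ff09_nt.Dih.ANj2
import Pool.Agent.Lib.MP_60ff09_nt.Dih.ANk
import Pool.Agent.Lib.MP_60ff09_nt.Dih.ANo
import Pool.Agent.Lib.MP_60ff09_nt.Dih.ANq
import Pool.Agent.Lib.MP_60ff09_nt.Dih.ANt

/-! The analytic side of the formula. -/

set_option autoImplicit false

open Complex Filter Topology Set MeasureTheory CongruenceSubgroup NumberTheorySymbols
open UpperHalfPlane hiding I
open scoped Real MatrixGroups ComplexConjugate Modular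
open Pool.Agent.Lib.MP_696deb_nt Pool.Agent.Lib.MP_696deb_nt.Unif Pool.Agent.Shared.Weier

namespace Pool.Agent.Dih

variable {A : Par} {T : Finset Fm} {w : Fm → ℤ}

/-- The inverse of the gamma factor. -/
noncomputable def gamInv (n : ℕ) (s : ℂ) : ℂ :=
  (15 * n : ℂ) ^ (1 - s) * (π : ℂ) ^ s * (4 * π : ℂ) ^ s / 2 * (Gamma s)⁻¹ ^ 2

theorem differentiable_gamInv {n : ℕ} (hn : 0 < n) : Differentiable ℂ (gamInv n) := by
  have h1 : (15 * n : ℂ) ≠ 0 := mul_ne_zero (by norm_num) (Nat.cast_ne_zero.2 hn.ne')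
  have h2 : (π : ℂ) ≠ 0 := ofReal_ne_zero.2 Real.pi_ne_zero
  have h3 : (4 * π : ℂ) ≠ 0 := mul_ne_zero (by norm_num) h2
  refine Differentiable.mul (Differentiable.div_const (Differentiable.mul (Differentiable.mul
    ?_ ?_) ?_) _) (differentiable_one_div_Gamma.pow 2)
  · exact (differentiable_id.const_sub 1).const_cpow (Or.inl h1)
  · exact differentiable_id.const_cpow (Or.inl h2)
  · exact differentiable_id.const_cpow (Or.inl h3)

theorem gamInv_one (n : ℕ) : gamInv n 1 = 2 * π ^ 2 := by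
  simp only [gamInv, sub_self, cpow_zero, cpow_one, Complex.Gamma_one]
  ring

theorem gamInv_mul {n : ℕ} (hn : 0 < n) {s : ℂ} (hs : 0 < s.re) :
    2 * (15 * n : ℂ) ^ (s - 1) * Gamma s ^ 2 * ((π : ℂ) ^ (-s) * (4 * π : ℂ) ^ (-s)) *
      gamInv n s = 1 := by
  have h1 : (15 * n : ℂ) ≠ 0 := mul_ne_zero (by norm_num) (Nat.cast_ne_zero.2 hn.ne')
  have h2 : (π : ℂ) ≠ 0 := ofReal_ne_zero.2 Real.pi_ne_zero
  have h3 : (4 * π : ℂ) ≠ 0 := mul_ne_zero (by norm_num) h2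
  have h4 : Gamma s ≠ 0 := Gamma_ne_zero_of_re_pos hs
  have e1 : (15 * n : ℂ) ^ (s - 1) ≠ 0 := cpow_ne_zero_iff.2 (Or.inl h1)
  have e2 : (π : ℂ) ^ s ≠ 0 := cpow_ne_zero_iff.2 (Or.inl h2)
  have e3 : (4 * π : ℂ) ^ s ≠ 0 := cpow_ne_zero_iff.2 (Or.inl h3)
  rw [gamInv, ← neg_sub s 1, cpow_neg, cpow_neg, cpow_neg]
  field_simp

theorem tendsto_gamma_rpow {m : ℝ} (hm : 0 < m) :
    Tendsto (fun ε : ℝ => Real.Gamma (1 + ε) * m ^ (-1 - ε)) (𝓝[>] 0) (𝓝 m⁻¹) := by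
  have h1 : ContinuousAt Real.Gamma (1 + 0) := by
    refine (Real.differentiableAt_Gamma fun k => ?_).continuousAt
    have : (0 : ℝ) ≤ k := Nat.cast_nonneg k
    intro e
    linarith
  have h2 : ContinuousAt (fun ε : ℝ => Real.Gamma (1 + ε) * m ^ (-1 - ε)) 0 := by
    refine ContinuousAt.mul (ContinuousAt.comp (f := fun ε : ℝ => 1 + ε) h1 (by fun_prop)) ?_
    exact ContinuousAt.rpow continuousAt_const (by fun_prop) (Or.inl hm.ne')
  have h3 := h2.tendsto.mono_left (nhdsWithin_le_nhds (s := Ioi 0))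
  simpa [Real.rpow_neg_one] using h3

theorem Par.Dat.tendsto_arch (h : A.Dat T w) {M : ℕ} (hM : 0 < M) (h0 : rW T w (M * A.n) = 0)
    {L : ℂ} (hL : Tendsto (fun ε : ℝ => ∫ y in Ioi (0 : ℝ),
      (y ^ ε * Real.exp (-2 * π * M * y) : ℝ) * ∫ x in (0 : ℝ)..1, A.Phi T w (x + y * I) *
        q1 (-(M * x))) (𝓝[>] 0) (𝓝 L)) :
    Tendsto (fun ε => ((2 * A.arch T w M ε : ℝ) : ℂ)) (𝓝[>] 0)
      (𝓝 (L * (π * M) / (-I * A.gg / A.n) - A.fin T w M)) := by
  have hn : (0 : ℝ) < A.n := by exact_mod_cast h.ok.n_pos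
  have hM' : (0 : ℝ) < M := by exact_mod_cast hM
  have hπ := Real.pi_pos
  set N : ℕ → ℝ := fun k => ((rW T w (M * A.n + 15 * k) * A.Sneg k : ℤ) : ℝ) with hN
  have N0 : N 0 = 0 := by simp [hN, Par.Sneg]
  have Ns : ∀ ε : ℝ, 0 < ε → Summable fun k : ℕ => |N k| * (k : ℝ) ^ (-1 - ε) :=
    fun ε hε => h.summable_arch M hε
  set c : ℂ := -I * A.gg / A.n with hc
  have c0 : c ≠ 0 := div_ne_zero (mul_ne_zero (neg_ne_zero.2 I_ne_zero) h.ok.gg_ne)
    (Nat.cast_ne_zero.2 h.ok.n_pos.ne')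
  set m : ℝ := 4 * π * M with hm
  set κ : ℝ := 60 * π / A.n with hκ
  have m0 : 0 < m := by positivity
  have κ0 : 0 < κ := by positivity
  have x0 : 0 < κ / m := div_pos κ0 m0
  set S : ℝ → ℝ := fun ε => ∑' k : ℕ, N k * kerA ε (k * (κ / m)) with hS
  have e1 : ∀ ε : ℝ, 0 < ε → ∫ y in Ioi (0 : ℝ), (y ^ ε * Real.exp (-2 * π * M * y) : ℝ) *
      ∫ x in (0 : ℝ)..1, A.Phi T w (x + y * I) * q1 (-(M * x)) =
      4 * c * (Real.Gamma (1 + ε) * m ^ (-1 - ε) * (A.fin T w M + S ε) : ℝ) := by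
    intro ε hε
    rw [← integral_tsum_bet N0 hε (Ns ε hε) m0 κ0, ← integral_complex_ofReal, ← integral_const_mul]
    refine setIntegral_congr_fun measurableSet_Ioi fun y hy => ?_
    have e2 : ∀ k : ℕ, 4 * π * (15 * y / A.n) * k = κ * y * k := fun k => by rw [hκ]; ring
    have e3 : Real.exp (-m * y) = Real.exp (-2 * π * M * y) * Real.exp (-2 * π * M * y) := by
      rw [← Real.exp_add, hm]; ring_nf
    simp only [h.coef_Phi h0 hy, e2, e3]
    rw [← hc]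
    simp only [hN, ofReal_mul]
    push_cast
    ring
  have t1 : Tendsto (fun ε : ℝ => ((Real.Gamma (1 + ε) * m ^ (-1 - ε) : ℝ) : ℂ)) (𝓝[>] 0)
      (𝓝 (m⁻¹ : ℝ)) := (continuous_ofReal.tendsto _).comp (tendsto_gamma_rpow m0)
  have mi : ((m⁻¹ : ℝ) : ℂ) ≠ 0 := ofReal_ne_zero.2 (inv_ne_zero m0.ne')
  have t2 : Tendsto (fun ε : ℝ => ((S ε : ℝ) : ℂ)) (𝓝[>] 0)
      (𝓝 (L / (4 * c * (m⁻¹ : ℝ)) - A.fin T w M)) := by
    have t3 := (hL.div (t1.const_mul (4 * c))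
      (mul_ne_zero (mul_ne_zero (by norm_num) c0) mi)).sub_const (A.fin T w M : ℂ)
    refine t3.congr' ?_
    filter_upwards [self_mem_nhdsWithin, t1.eventually_ne mi] with ε hε hne
    rw [Pi.div_apply, e1 ε hε, ofReal_mul _ (_ + _), ofReal_add]
    field_simp
    ring
  have t4 := (continuous_ofReal.tendsto _).comp (ker_cmp N0 Ns x0)
  have t5 : Tendsto (fun ε : ℝ => (((2 : ℝ) ^ ε : ℝ) : ℂ)) (𝓝[>] 0) (𝓝 1) := by
    have : ContinuousAt (fun ε : ℝ => (((2 : ℝ) ^ ε : ℝ) : ℂ)) 0 :=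
      continuous_ofReal.continuousAt.comp
        (ContinuousAt.rpow continuousAt_const continuousAt_id (Or.inl two_ne_zero))
    simpa using this.tendsto.mono_left (nhdsWithin_le_nhds (s := Ioi 0))
  have t6 := (t2.sub t4).div t5 one_ne_zero
  have e4 : (L / (4 * c * (m⁻¹ : ℝ)) - A.fin T w M - ((0 : ℝ) : ℂ)) / 1 =
      L * (π * M) / c - A.fin T w M := by
    have : (π : ℂ) ≠ 0 := ofReal_ne_zero.2 hπ.ne'
    have : (M : ℂ) ≠ 0 := Nat.cast_ne_zero.2 hM.ne'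
    rw [hm]
    push_cast
    field_simp
    ring
  rw [e4] at t6
  refine t6.congr fun ε => ?_
  have e5 : ∀ k : ℕ, 1 + 2 * (k * (κ / m)) = (M * A.n + 30 * k) / (M * A.n) := fun k => by
    rw [hκ, hm]; field_simp; ring
  have e6 : (((2 : ℝ) ^ ε : ℝ) : ℂ) ≠ 0 := ofReal_ne_zero.2 (by positivity)
  simp only [Pi.div_apply, Function.comp_apply, e5]
  rw [ofReal_sub, ofReal_mul, div_eq_iff e6]
  simp only [hS, hN, Par.arch]
  ring

theorem gzan : GZan := by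
  obtain ⟨β, hβ⟩ := proj
  intro p q
  refine ⟨β / (2 * π * (-I * (Par.mk p q 0 0).gg / (p * q : ℕ))), fun χp χq T w h => ?_⟩
  set A := Par.mk p q χp χq with hA
  have hn := h.ok.n_pos
  have d1 : Differentiable ℂ fun s : ℂ => mellin (A.Ii T w) (s - 1) :=
    h.differentiable_mellin.comp (differentiable_id.sub_const 1)
  have d2 := differentiable_gamInv hn
  refine ⟨fun s => mellin (A.Ii T w) (s - 1) * gamInv A.n s, d1.mul d2, ?_, fun s hs => ?_,
    fun M hM h0 => ?_⟩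
  · simp only [sub_self, h.mellin_zero, zero_mul]
  · have h1 : 1 < (s - 1).re := by simp only [sub_re, one_re]; linarith
    have h2 := gamInv_mul hn (s := s) (by linarith)
    have e : 2 * (s - 1) + 1 = 2 * s - 1 := by ring
    simp only [h.mellin_Ii h1, sub_add_cancel, e]
    rw [mul_right_comm, h2, one_mul]
    rfl
  · have t := h.tendsto_arch hM h0 (hβ _ h.dec_Phi M hM)
    have e : deriv (fun s => mellin (A.Ii T w) (s - 1) * gamInv A.n s) 1 =
        (∫ z in XD, conj (f15 z) * A.Phi T w z * (z.im : ℂ) ^ 2) * (2 * π ^ 2) := by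
      rw [deriv_fun_mul (d1 1) (d2 1), deriv_comp_sub_const]
      simp only [sub_self, h.mellin_zero, zero_mul, add_zero, h.deriv_mellin, gamInv_one]
    convert t using 3
    rw [e]
    have c0 : A.gg ≠ 0 := h.ok.gg_ne
    have c1 : (π : ℂ) ≠ 0 := ofReal_ne_zero.2 Real.pi_ne_zero
    have c2 : (M : ℂ) ≠ 0 := Nat.cast_ne_zero.2 hM.ne'
    have c3 : (A.n : ℂ) ≠ 0 := Nat.cast_ne_zero.2 hn.ne'
    change β / (2 * π * (-I * A.gg / A.n)) * _ * _ = _
    field_simp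

end Pool.Agent.Dih
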