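import Pool.Agent.Lib.MP_60ff09_nt.V4Hom

/-! The conjecture descends from the complex numbers to the coefficient field. -/

set_option autoImplicit false

open scoped Classical TensorProduct
open NumberField CategoryTheory

namespace Pool.Agent.Lib.MP_60ff09_nt.V4

section
variable {R G : Type} [CommRing R] [Group G]

theorem rank_eig_congr {A B : Rep.{0} R G} (E : A ≃ₗ[R] B)
    (h : ∀ g x, E (A.ρ g x) = B.ρ g (E x)) (χ : G → ℤ) :
    Module.rank R (eig A χ) = Module.rank R (eig B χ) := by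
  refine (E.ofSubmodules (eig A χ) (eig B χ) (le_antisymm ?_ fun y hy => ?_)).rank_eq
  · rintro _ ⟨x, hx, rfl⟩ σ
    exact (h σ x).symm.trans ((congrArg E (hx σ)).trans (map_zsmul E _ _))
  · refine ⟨E.symm y, fun σ => E.injective ?_, E.apply_symm_apply y⟩
    rw [h, map_zsmul, E.apply_symm_apply]
    exact hy σ

theorem eq_on_bc {S P : Type} [CommRing S] [Algebra R S] [AddCommGroup P] (A : Rep.{0} R G)
    (f g : bc S A →+ P) (h : ∀ s x, f (s ⊗ₜ[R] x) = g (s ⊗ₜ[R] x)) (w : bc S A) : f w = g w :=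
  TensorProduct.induction_on (motive := fun w => w ∈ f.eqLocus g) w (zero_mem _) h
    fun _ _ => add_mem

theorem eqv_bc {S : Type} [CommRing S] [Algebra R S] (A : Rep.{0} R G) (B : Rep.{0} S G)
    (E : bc S A ≃ₗ[S] B) (g : G) (h : ∀ s x, E (s ⊗ₜ[R] A.ρ g x) = B.ρ g (E (s ⊗ₜ[R] x)))
    (w : bc S A) : E ((bc S A).ρ g w) = B.ρ g (E w) :=
  eq_on_bc A (E.toLinearMap ∘ₗ (bc S A).ρ g).toAddMonoidHom
    (B.ρ g ∘ₗ E.toLinearMap).toAddMonoidHom h w

theorem rank_eig_bc {S : Type} [CommRing S] [Algebra R S] (A : Rep.{0} R G) (B : Rep.{0} S G)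
    (E : bc S A ≃ₗ[S] B) (h : ∀ g s x, E (s ⊗ₜ[R] A.ρ g x) = B.ρ g (E (s ⊗ₜ[R] x)))
    (χ : G → ℤ) : Module.rank S (eig (bc S A) χ) = Module.rank S (eig B χ) :=
  rank_eig_congr E (fun g => eqv_bc A B E g (h g)) χ

theorem rank_hom (V W : Rep.{0} R G) : Module.rank R (V ⟶ W) =
    Module.rank R (eig (Rep.of (Representation.linHom V.ρ W.ρ)) fun _ => 1) := by
  let f : (V ⟶ W) →ₗ[R] eig (Rep.of (Representation.linHom V.ρ W.ρ)) fun _ => 1 :=
    { toFun := fun φ => ⟨φ.hom.toLinearMap, fun σ => LinearMap.ext fun x => by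
        change W.ρ σ (φ.hom (V.ρ σ⁻¹ x)) = ((1 : ℤ) • φ.hom.toLinearMap) x
        rw [← Rep.hom_comm_apply, one_smul, Representation.self_inv_apply]
        rfl⟩
      map_add' := fun _ _ => rfl
      map_smul' := fun _ _ => rfl }
  refine (LinearEquiv.ofBijective f ⟨fun φ ψ e => ?_, fun w => ?_⟩).rank_eq
  · exact Rep.hom_ext (Representation.IntertwiningMap.ext (congrArg Subtype.val e))
  · refine ⟨Rep.ofHom ⟨w.1, fun σ => LinearMap.ext fun x => ?_⟩, rfl⟩
    have k : W.ρ σ (w.1 (V.ρ σ⁻¹ (V.ρ σ x))) = ((1 : ℤ) • w.1) (V.ρ σ x) :=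
      LinearMap.congr_fun (w.2 σ) (V.ρ σ x)
    rw [one_smul, Representation.inv_self_apply] at k
    exact k.symm

theorem rank_hom_congr (V : Rep.{0} R G) {A B : Rep.{0} R G} (E : A ≃ₗ[R] B)
    (h : ∀ g x, E (A.ρ g x) = B.ρ g (E x)) :
    Module.rank R (V ⟶ A) = Module.rank R (V ⟶ B) := by
  rw [rank_hom, rank_hom]
  exact rank_eig_congr (A := Rep.of (Representation.linHom V.ρ A.ρ))
    (B := Rep.of (Representation.linHom V.ρ B.ρ)) (LinearEquiv.congrRight E)
    (fun g f => LinearMap.ext fun x => h g _) _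

theorem rank_hom_congr_bc {S : Type} [CommRing S] [Algebra R S] (V : Rep.{0} S G)
    (A : Rep.{0} R G) (B : Rep.{0} S G) (E : bc S A ≃ₗ[S] B)
    (h : ∀ g s x, E (s ⊗ₜ[R] A.ρ g x) = B.ρ g (E (s ⊗ₜ[R] x))) :
    Module.rank S (V ⟶ bc S A) = Module.rank S (V ⟶ B) :=
  rank_hom_congr V E fun g => eqv_bc A B E g (h g)

end

section
variable {L G : Type} [Field L] [Group G] (S : Type) [Field S] [Algebra L S]

theorem rank_hom_bc [Finite G] [CharZero S] (V W : Rep.{0} L G) [Module.Finite L V] :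
    Module.rank S (bc S V ⟶ bc S W) = Module.rank L (V ⟶ W) := by
  have : Module.FinitePresentation L V := Module.finitePresentation_of_finite L V
  have hb := Module.FinitePresentation.isBaseChange_map (R := L) (M := V) (N := W) S
  rw [rank_hom, rank_hom, ← rank_eig S (Rep.of (Representation.linHom V.ρ W.ρ)) (fun _ => 1)
    (fun _ _ => rfl) fun _ => rfl]
  refine (rank_eig_bc (Rep.of (Representation.linHom V.ρ W.ρ))
    (Rep.of (Representation.linHom (bc S V).ρ (bc S W).ρ)) hb.equiv (fun g s f => ?_) _).symm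
  change hb.equiv (s ⊗ₜ (W.ρ g ∘ₗ f ∘ₗ V.ρ g⁻¹)) =
    (W.ρ g).baseChange S ∘ₗ hb.equiv (s ⊗ₜ f) ∘ₗ (V.ρ g⁻¹).baseChange S
  rw [hb.equiv_tmul, hb.equiv_tmul, LinearMap.smul_comp, LinearMap.comp_smul]
  simp only [LinearMap.baseChangeHom_apply, LinearMap.baseChange_comp]

theorem ker_bc (V : Rep.{0} L G) : (bc S V).ρ.ker = V.ρ.ker := by
  ext g
  rw [MonoidHom.mem_ker, MonoidHom.mem_ker]
  change (V.ρ g).baseChange S = 1 ↔ _
  refine ⟨fun h => LinearMap.baseChangeHom_injective L V S (N := V) ?_, fun h => ?_⟩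
  · change (V.ρ g).baseChange S = (1 : Module.End L V).baseChange S
    rw [h, LinearMap.baseChange_one]
  · rw [h, LinearMap.baseChange_one]

end

theorem eul_congr {G : Type} [Group G] [Finite G] {A B : Rep.{0} ℂ G} (E : A ≃ₗ[ℂ] B)
    (h : ∀ g x, E (A.ρ g x) = B.ρ g (E x)) (I : Subgroup G) (φ : G) (a : ℤ) (p : ℕ) (s : ℂ) :
    eul (onInv B I φ) a p s = eul (onInv A I φ) a p s := by
  have := Fintype.ofFinite I
  have k : ∀ x, E (onInv A I φ x) = onInv B I φ (E x) := fun x => by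
    simp [onInv, finsum_eq_sum_of_fintype, LinearMap.sum_apply, h]
  unfold eul
  rw [← LinearMap.det_conj _ E]
  congr 1
  refine LinearMap.ext fun y => ?_
  obtain ⟨x, rfl⟩ := E.surjective y
  split_ifs <;> simp [pow_two, k]

variable {M L : Type} [Field M] [NumberField M] [IsGalois ℚ M] [Field L] [Algebra L ℂ]

theorem rank_homG (V : Rep L (M ≃ₐ[ℚ] M)) [Module.Finite L V] :
    Module.rank ℂ (HomG (bc ℂ V)) = Module.rank L (HomG V) := by
  have k : ∀ (K K' : Subgroup (M ≃ₐ[ℚ] M)) [K.Normal] [K'.Normal], K = K' →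
      Module.rank ℂ (bc ℂ V ⟶ mw ℂ X115 (IntermediateField.fixedField K)) =
      Module.rank ℂ (bc ℂ V ⟶ mw ℂ X115 (IntermediateField.fixedField K')) := by
    intro K K' _ _ e
    subst e
    rfl
  refine (k _ _ (ker_bc ℂ V)).trans (Eq.trans ?_ (rank_hom_bc ℂ V _))
  refine (rank_hom_congr_bc (bc ℂ V) (mw L X115 (IntermediateField.fixedField V.ρ.ker))
    (mw ℂ X115 (IntermediateField.fixedField V.ρ.ker))
    (TensorProduct.AlgebraTensorModule.cancelBaseChange ℤ L ℂ ℂ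
      (pts X115 (IntermediateField.fixedField V.ρ.ker)))
    fun g s y => ?_).symm
  let A := pts X115 (IntermediateField.fixedField V.ρ.ker)
  let t : bc L A →+ bc ℂ A :=
    (TensorProduct.AlgebraTensorModule.cancelBaseChange ℤ L ℂ ℂ A).toLinearMap.toAddMonoidHom.comp
      (TensorProduct.mk L ℂ (bc L A) s).toAddMonoidHom
  let σ := AlgEquiv.restrictNormalHom (IntermediateField.fixedField V.ρ.ker) g
  exact eq_on_bc A (t.comp ((bc L A).ρ σ).toAddMonoidHom)
    (((bc ℂ A).ρ σ).toAddMonoidHom.comp t) (fun _ _ => rfl) y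

theorem beil_bc {a : ℕ → ℤ} {V : Rep L (M ≃ₐ[ℚ] M)} [Module.Finite L V] {r : ℕ}
    (h : Beil a (bc ℂ V) r) : Beil a V r := by
  obtain ⟨F, h1, h2, h3, h4, h5⟩ := h
  have e := rank_homG V
  have f : Module.finrank L (HomG V) = Module.finrank ℂ (HomG (bc ℂ V)) :=
    (congrArg Cardinal.toNat e).symm
  refine ⟨F, h1, fun Q φ hQ s hs => ?_, ?_, f ▸ h4, f.trans h5⟩
  · convert h2 Q φ hQ s hs using 4 with p hp
    exact eul_congr (A := bc ℂ (bc ℂ V)) (B := bc ℂ V) (TensorProduct.lid ℂ (bc ℂ V))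
      (fun g => eqv_bc _ _ _ g fun s y => (map_smul ((bc ℂ V).ρ g) s y).symm) _ _ _ _ _
  · exact Module.rank_lt_aleph0_iff.1 (e ▸ Module.rank_lt_aleph0 ℂ _)

end Pool.Agent.Lib.MP_60ff09_nt.V4
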