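import Pool.Agent.Lib.MP_60ff09_nt.Dih.AN0
import Pool.Agent.Lib.MP_696deb_nt.B2.CMp

/-! Classes of ideals, representation numbers and the count of pairs: definitions. -/

set_option autoImplicit false

open Complex Finset NumberTheorySymbols
open scoped Real ComplexConjugate Classical
open Pool.Agent.Lib.MP_696deb_nt Pool.Agent.Lib.MP_696deb_nt.B2.CM

namespace Pool.Agent.Dih

/-- The complex conjugate lattice. -/
noncomputable abbrev cjl (I : Lt) : Lt := mp starRingAut I

/-- Invertible ideals of norm `N`. -/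
structure IsNm (n : ℕ) (I : Lt) (N : ℝ) : Prop where
  iv : IsIv (Oc n 1) I
  pos : 0 < N
  mul : I * cjl I = sc N (ot (Oc n 1))

/-- The number of vectors of given length. -/
noncomputable def repL (I : Lt) (t : ℝ) : ℕ := {v : ℂ | v ∈ I ∧ normSq v = t}.ncard

/-- The ideal of a form. -/
noncomputable abbrev fid (n : ℕ) (Q : Fm) : Lt := idl n 1 Q.1 Q.2.1

/-- The class of a form. -/
noncomputable def fcl (n : ℕ) (Q : Fm) : Pc n 1 := cl (Oc n 1) (fid n Q)

/-- A form in a given class, with first coefficient prime to `30 n`. -/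
noncomputable def cfm (n : ℕ) (x : Pc n 1) : Fm :=
  Classical.epsilon fun Q => fdisc Q = -n ∧ 0 < Q.1 ∧ IsCoprime Q.1 (30 * n) ∧ fcl n Q = x

/-- The representation number of a class. -/
noncomputable def rcl (n : ℕ) (x : Pc n 1) (N : ℤ) : ℕ := rep (cfm n x) N

/-- The genus character. -/
noncomputable def gcl (P : ℕ) {n : ℕ} (x : Pc n 1) : ℤ := J((cfm n x).1 | P)

/-- The coefficients of the theta series of a character. -/
noncomputable def bch {n : ℕ} [Fintype (Pc n 1)] (ψ : Pc n 1 → ℂ) (m : ℕ) : ℂ :=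
  (∑ x, ψ x * rcl n x m) / 2

/-- The forms that carry a weight on classes. -/
noncomputable def TW {n : ℕ} [Fintype (Pc n 1)] (W : Pc n 1 → ℤ) : Finset Fm :=
  (univ.filter fun x => W x ≠ 0).image (cfm n)

/-- The weight on forms. -/
noncomputable def wW {n : ℕ} (W : Pc n 1 → ℤ) (Q : Fm) : ℤ := W (fcl n Q)

/-- The trace of an integer of the quadratic field. -/
noncomputable def trc (v : ℂ) : ℤ := ⌊2 * v.re⌋

/-- The sum over the points of the Hecke correspondence. -/
noncomputable def hsum {E : Type*} [AddCommMonoid E] (M : ℕ) (g : ℂ → E) (τ : ℂ) : E :=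
  ∑ x ∈ M.divisorsAntidiagonal, ∑ b ∈ range x.2, g ((x.1 * τ + b) / x.2)

/-- The number of matrices of level fifteen with given determinant and bilinear form. -/
noncomputable def cntG (Q R : Fm) (M t : ℤ) : ℕ :=
  {γ : ℤ × ℤ × ℤ × ℤ | γ.1 * γ.2.2.2 - γ.2.1 * (15 * γ.2.2.1) = M ∧
    fbil Q (fmap R γ.1 γ.2.1 (15 * γ.2.2.1) γ.2.2.2) = -t}.ncard

/-- The real linear map `z ↦ α z + β conj z` sends `I` to `J`. -/
def hom2 (x : ℂ × ℂ) (I J : Lt) : Prop := ∀ z ∈ I, x.1 * z + x.2 * conj z ∈ J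

/-- The same count for lattices. -/
noncomputable def cntH (n : ℕ) (r : ℤ) (I J : Lt) (ρ : ℝ) (M t : ℤ) : ℕ :=
  {x : ℂ × ℂ | hom2 x I J ∧ hom2 x (idl n 1 15 (-r) * I) (idl n 1 15 (-r) * J) ∧
    normSq x.1 - normSq x.2 = M * ρ ∧ n * (normSq x.1 + normSq x.2) = t * ρ}.ncard

/-- The number of forms in an orbit with given bilinear form. -/
noncomputable def cntO (Q R : Fm) (t : ℤ) : ℕ := {S : Fm | FEq R S ∧ fbil Q S = -t}.ncard

/-- A family of Heegner forms indexed by their classes. -/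
def HFam (n : ℕ) (r : ℤ) (e : Pc n 1 → Fm) : Prop := ∀ y, IsHg (-n) r (e y) ∧ fcl n (e y) = y

theorem good_ok {n : ℕ} (hn : Good n) : Ok n 1 := by
  refine ⟨hn.mod4, ?_, one_ne_zero⟩
  have h4 := hn.mod4
  have h3 : n ≠ 3 := fun e => by have := hn.cop; rw [e] at this; revert this; norm_num
  omega

end Pool.Agent.Dih
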