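import Pool.Agent.Lib.MP_60ff09_nt.Dih.CL0
import Pool.Agent.Lib.MP_60ff09_nt.Dih.ANb

/-! Norms of invertible ideals. -/

set_option autoImplicit false

open Complex Finset NumberTheorySymbols
open scoped Real ComplexConjugate Classical
open Pool.Agent.Lib.MP_696deb_nt Pool.Agent.Lib.MP_696deb_nt.B2.CM

namespace Pool.Agent.Dih

variable {n : ℕ} {I J : Lt} {N N' : ℝ} {m b k : ℤ} {a v : ℂ}

theorem mem_cjl : v ∈ cjl I ↔ conj v ∈ I := by
  refine ⟨?_, fun h => mem_mp.2 ⟨conj v, h, conj_conj v⟩⟩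
  intro h
  obtain ⟨y, hy, e⟩ := mem_mp.1 h
  have e' : conj y = v := e
  rwa [← e', conj_conj]

theorem cjl_cjl (I : Lt) : cjl (cjl I) = I := by
  ext z
  rw [mem_cjl, mem_cjl, conj_conj]

theorem cla_dl (n : ℕ) : (starRingAut : ℂ ≃+* ℂ) (dl n) = -dl n := conj_dl n

theorem cjl_idl (n : ℕ) (m b : ℤ) : cjl (idl n 1 m b) = idl n 1 m (-b) := by
  rw [cjl, idl, mp_sp2, map_intCast, cmb_be_neg (cla_dl n), cmb_sp2_neg, idl]

theorem cjl_ot (hn : Good n) : cjl (ot (Oc n 1)) = ot (Oc n 1) := by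
  exact mp_Oc hn.mod4 (Or.inr (cla_dl n))

theorem isNm_idl (hn : Good n) (h : b ^ 2 + n = 4 * m * k) (hm : 0 < m) :
    IsNm n (idl n 1 m b) m := by
  have h1 : b ^ 2 + n * ((1 : ℕ) : ℤ) ^ 2 = 4 * m * k := by simpa using h
  have hp : ∃ x y z : ℤ, x * m + y * b + z * k = 1 := by
    obtain ⟨g, x, y, z, m', b', k', e1, e2, e3, e4⟩ := cmb_gcd m b k
    obtain ⟨u, hu⟩ := (Int.squarefree_natCast.2 hn.sqf g ⟨4 * m' * k' - b' ^ 2, by
      rw [e2, e3, e4] at h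
      linear_combination h⟩).exists_left_inv
    exact ⟨u * x, u * y, u * z, by linear_combination u * e1 + hu⟩
  refine ⟨isIv_idl hn.mod4 h1 hm.ne' hp, by exact_mod_cast hm, ?_⟩
  rw [cjl_idl, idl_mul_neg hn.mod4 h1 hp, ofReal_intCast]

theorem isNm_one (hn : Good n) : IsNm n (ot (Oc n 1)) 1 := by
  refine ⟨isIv_one _, one_pos, ?_⟩
  rw [cjl_ot hn, ot_mul_ot le_rfl, ofReal_one, sc_one]

theorem IsNm.mul' (h : IsNm n I N) (h' : IsNm n J N') : IsNm n (I * J) (N * N') := by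
  refine ⟨h.iv.mul h'.iv, mul_pos h.pos h'.pos, ?_⟩
  rw [cjl, mp_mul, mul_mul_mul_comm, h.mul, h'.mul, sc_mul, mul_sc, sc_sc, ot_mul_ot le_rfl,
    ofReal_mul]

theorem IsNm.sc' (h : IsNm n I N) (ha : a ≠ 0) : IsNm n (sc a I) (normSq a * N) := by
  refine ⟨h.iv.sc ha, mul_pos (normSq_pos.2 ha) h.pos, ?_⟩
  have e : (starRingAut : ℂ ≃+* ℂ) a = conj a := rfl
  rw [cjl, mp_sc, sc_mul, mul_sc, h.mul, sc_sc, sc_sc, e, mul_conj, ofReal_mul]

theorem IsNm.cj (h : IsNm n I N) (hn : Good n) : IsNm n (cjl I) N := by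
  refine ⟨h.iv.mp hn.mod4 (Or.inr (cla_dl n)), h.pos, ?_⟩
  rw [cjl_cjl, mul_comm, h.mul]

theorem IsNm.cl_cj (h : IsNm n I N) (hn : Good n) :
    cl (Oc n 1) (cjl I) = (cl (Oc n 1) I)⁻¹ := by
  exact cl_mp_neg (good_ok hn) (cla_dl n) h.iv

theorem IsNm.unique (h : IsNm n I N) (h' : IsNm n I N') (hn : Good n) : N = N' := by
  have h0 : (N : ℂ) ≠ 0 := ofReal_ne_zero.2 h.pos.ne'
  have h1 : sc ((N : ℂ)⁻¹ * N') (ot (Oc n 1)) = ot (Oc n 1) := by
    rw [← sc_sc, ← h'.mul, h.mul, sc_inv_sc h0]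
  rcases unit_Oc (good_ok hn) h1 with e | e
  · rw [inv_mul_eq_one₀ h0] at e
    exact_mod_cast e
  · rw [inv_mul_eq_iff_eq_mul₀ h0] at e
    have e' : N' = N * -1 := by exact_mod_cast e
    have := h.pos
    have := h'.pos
    linarith

theorem exists_isNm (hn : Good n) (h : IsIv (Oc n 1) I) : ∃ N, IsNm n I N := by
  obtain ⟨a, m, b, k, h1, h2, h3, -, rfl⟩ := h.exists_idl (good_ok hn)
  exact ⟨_, (isNm_idl hn (by simpa using h3) h2).sc' h1⟩

/-- Division by an invertible ideal. -/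
theorem IsNm.mul_mem_iff (h : IsNm n I N) (hJ : IsIv (Oc n 1) J) :
    (∀ z ∈ I, a * z ∈ J) ↔ N * a ∈ cjl I * J := by
  have h0 : (N : ℂ) ≠ 0 := ofReal_ne_zero.2 h.pos.ne'
  constructor
  · intro ha
    have h1 : sc a I ≤ J := fun z hz => by
      obtain ⟨y, hy, rfl⟩ := mem_sc.1 hz
      exact ha y hy
    have h2 : cjl I * sc a I ≤ cjl I * J := mul_le_mul_right h1 _
    rw [mul_sc, mul_comm (cjl I) I, h.mul, sc_sc] at h2
    exact h2 (mem_sc.2 ⟨1, one_mem (Oc n 1), by ring⟩)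
  · intro ha z hz
    have h1 := Submodule.mul_mem_mul hz ha
    rw [← mul_assoc I, h.mul, sc_mul, mul_comm (ot (Oc n 1)) J, hJ.1] at h1
    refine (mul_mem_sc h0).1 ?_
    rwa [show (N : ℂ) * (a * z) = z * (N * a) by ring]

theorem cla_trc {X Y : ℤ} (h : 2 * v = X + Y * dl n) : trc v = X := by
  have h1 : 2 * v.re = X := by simpa [dl] using congrArg Complex.re h
  rw [trc, h1, Int.floor_intCast]

theorem cla_el (n : ℕ) (x y : ℤ) : trc (el n x y) = 2 * x + y := by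
  refine cla_trc (n := n) (Y := y) ?_
  rw [el, be]
  push_cast
  ring

theorem cla_nrm (hn : Good n) (x y : ℤ) : normSq (el n x y) = nrm n x y := by
  have h := el_mul_el hn.mod4 x y
  rw [← cma_conj, mul_conj] at h
  exact_mod_cast h

theorem trc_spec (hn : Good n) (hv : v ∈ Oc n 1) :
    ∃ y : ℤ, v = (trc v + y * dl n) / 2 ∧ 4 * normSq v = ((trc v ^ 2 + n * y ^ 2 : ℤ) : ℝ) := by
  obtain ⟨x, y, -, rfl⟩ := (mem_Oc hn.mod4).1 hv
  refine ⟨y, ?_, ?_⟩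
  · rw [cla_el, el, be]
    push_cast
    ring
  · rw [cla_el, cla_nrm hn, ← four_nrm hn.mod4]
    push_cast
    ring

theorem trc_add (hn : Good n) {u : ℂ} (hu : u ∈ Oc n 1) (hv : v ∈ Oc n 1) (x y : ℤ) :
    trc (x * u + y * v) = x * trc u + y * trc v := by
  obtain ⟨a, b, -, rfl⟩ := (mem_Oc hn.mod4).1 hu
  obtain ⟨c, d, -, rfl⟩ := (mem_Oc hn.mod4).1 hv
  have e : x * el n a b + y * el n c d = el n (x * a + y * c) (x * b + y * d) := by
    simp only [el]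
    push_cast
    ring
  rw [e, cla_el, cla_el, cla_el]
  ring

theorem dvd_trc_iff (hn : Good n) (hv : v ∈ Oc n 1) :
    (n : ℤ) ∣ trc v ↔ ∃ z ∈ Oc n 1, v = dl n * z := by
  constructor
  · obtain ⟨x, y, -, rfl⟩ := (mem_Oc hn.mod4).1 hv
    rintro ⟨j, hj⟩
    rw [cla_el] at hj
    obtain ⟨t, ht⟩ : ∃ t : ℤ, (n : ℤ) = 4 * t + 3 := ⟨n / 4, by have := hn.mod4; omega⟩
    refine ⟨el n ((2 * t + 2) * j - x) (-j), (mem_Oc hn.mod4).2 ⟨_, _, by simp, rfl⟩, ?_⟩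
    have hj' : 2 * (x : ℂ) + y = n * j := by exact_mod_cast hj
    have ht' : (n : ℂ) = 4 * t + 3 := by exact_mod_cast ht
    simp only [el, be]
    push_cast
    linear_combination (1 + dl n) / 2 * hj' + j / 2 * dl_sq n + j * dl n / 2 * ht'
  · rintro ⟨z, hz, rfl⟩
    obtain ⟨x, y, -, rfl⟩ := (mem_Oc hn.mod4).1 hz
    refine ⟨-y, cla_trc (n := n) (Y := 2 * x + y) ?_⟩
    simp only [el, be]
    push_cast
    linear_combination y * dl_sq n

theorem dl_mem (hn : Good n) : dl n ∈ Oc n 1 := by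
  refine (mem_Oc hn.mod4).2 ⟨-1, 2, by simp, ?_⟩
  simp only [el, be]
  push_cast
  ring

theorem IsNm.exists_nat (h : IsNm n I N) (hn : Good n) (hv : v ∈ I) :
    ∃ j : ℕ, normSq v = j * N := by
  have h1 : v * conj v ∈ I * cjl I := Submodule.mul_mem_mul hv (mem_cjl.2 (by rwa [conj_conj]))
  rw [h.mul, mul_conj] at h1
  obtain ⟨w, hw, e⟩ := mem_sc.1 h1
  obtain ⟨x, y, -, rfl⟩ := (mem_Oc hn.mod4).1 hw
  have hn0 : 0 < n := by have := hn.mod4; omega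
  have h2 : y = 0 := by
    simpa [el, h.pos.ne', cma_im (b := 1) hn0 one_ne_zero] using congrArg Complex.im e
  subst h2
  have h3 : N * x = normSq v := by
    simp only [el, Int.cast_zero, zero_mul, add_zero] at e
    exact_mod_cast e
  have h4 : (0 : ℝ) ≤ x := nonneg_of_mul_nonneg_right (h3 ▸ normSq_nonneg v) h.pos
  have h5 : 0 ≤ x := by exact_mod_cast h4
  obtain ⟨j, rfl⟩ := Int.eq_ofNat_of_zero_le h5
  exact ⟨j, by rw [← h3, mul_comm, Int.cast_natCast]⟩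

theorem IsNm.finite (h : IsNm n I N) (hn : Good n) (t : ℝ) :
    {v : ℂ | v ∈ I ∧ normSq v = t}.Finite := by
  obtain ⟨L, rfl⟩ := h.iv.isLat (good_ok hn)
  have : DiscreteTopology (L.lattice : Set ℂ) := inferInstanceAs (DiscreteTopology L.lattice)
  refine (Metric.finite_isBounded_inter_isClosed DiscreteTopology.isDiscrete
    (Metric.isBounded_closedBall (x := (0 : ℂ)) (r := √t)) L.isClosed_lattice).subset ?_
  rintro z ⟨h1, h2⟩
  refine ⟨?_, h1⟩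
  rw [mem_closedBall_zero_iff, ← h2, norm_def]

end Pool.Agent.Dih
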