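import Pool.Agent.Lib.MP_60ff09_nt.Dih.CLa
import Pool.Agent.Lib.MP_696deb_nt.B2.CMc

/-! Representation numbers of classes. -/

set_option autoImplicit false

open Complex Finset NumberTheorySymbols
open scoped Real ComplexConjugate Classical
open Pool.Agent.Lib.MP_696deb_nt Pool.Agent.Lib.MP_696deb_nt.B2.CM

namespace Pool.Agent.Dih

variable {n : ℕ} {I J : Lt} {N : ℝ} {Q : Fm} {a : ℂ} {r : ℤ}

theorem clb_disc (hD : fdisc Q = -n) : Q.2.1 ^ 2 + n * ((1 : ℕ) : ℤ) ^ 2 = 4 * Q.1 * Q.2.2 := by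
  rw [fdisc] at hD
  push_cast
  linear_combination hD

theorem clb_conj (n : ℕ) (b : ℤ) : conj (be n 1 b) = b - be n 1 b := by
  simp only [be, map_div₀, map_add, map_mul, map_intCast, map_natCast, map_ofNat, conj_dl]
  ring

theorem clb_gen (h : IsNm n I N) {v : ℂ} (hv : v ∈ I) (e : normSq v = N) :
    sc v (ot (Oc n 1)) = I := by
  refine le_antisymm (fun z hz => ?_) fun z hz => ?_
  · obtain ⟨y, hy, rfl⟩ := mem_sc.1 hz
    rw [mul_comm]
    exact h.iv.mul_mem hy hv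
  · have h1 : z * conj v ∈ I * cjl I := Submodule.mul_mem_mul hz (mem_cjl.2 (by rwa [conj_conj]))
    rw [h.mul] at h1
    obtain ⟨y, hy, h2⟩ := mem_sc.1 h1
    have h3 : conj v ≠ 0 := fun k => h.pos.ne' (by rw [← e, ← normSq_conj, k, map_zero])
    refine mem_sc.2 ⟨y, hy, mul_right_cancel₀ h3 ?_⟩
    rw [← h2, ← e, ← mul_conj]
    ring

theorem clb_surj (hn : Good n) (x : Pc n 1) : ∃ I N, IsNm n I N ∧ cl (Oc n 1) I = x := by
  obtain ⟨I, hI, e⟩ := cl_surj x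
  obtain ⟨N, h⟩ := exists_isNm hn hI
  exact ⟨I, N, h, e⟩

theorem isNm_fid (hn : Good n) (hD : fdisc Q = -n) (hQ : 0 < Q.1) : IsNm n (fid n Q) Q.1 := by
  exact isNm_idl hn (k := Q.2.2) (by simpa using clb_disc hD) hQ

theorem cfm_spec (hn : Good n) (x : Pc n 1) : fdisc (cfm n x) = -n ∧ 0 < (cfm n x).1 ∧
    IsCoprime (cfm n x).1 (30 * n) ∧ fcl n (cfm n x) = x := by
  refine Classical.epsilon_spec (p := fun Q : Fm => fdisc Q = -n ∧ 0 < Q.1 ∧
    IsCoprime Q.1 (30 * n) ∧ fcl n Q = x) ?_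
  have h0 := (good_ok hn).gt
  obtain ⟨m, b, k, hm, e, h1, -, h2⟩ := exists_idl_coprime (good_ok hn) x (M := 30 * n) (by omega)
  refine ⟨(m, b, k), ?_, by simp only; omega, h1, h2.symm⟩
  simp only [fdisc]
  push_cast at e
  linear_combination e

theorem normSq_fid (hn : Good n) (hD : fdisc Q = -n) (x y : ℤ) :
    normSq (Q.1 * x + be n 1 Q.2.1 * y) = fval Q x y * Q.1 := by
  have _ := hn
  refine ofReal_injective ?_
  have h := cmb_sq (clb_disc hD)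
  rw [← mul_conj, fval]
  simp only [map_add, map_mul, map_intCast, clb_conj]
  push_cast
  linear_combination (-(y : ℂ) ^ 2) * h

theorem repL_sc (ha : a ≠ 0) (I : Lt) (t : ℝ) : repL (sc a I) (normSq a * t) = repL I t := by
  rw [repL, repL, ← Set.ncard_image_of_injective {v : ℂ | _ ∧ normSq v = t}
    (mul_right_injective₀ ha)]
  congr 1
  ext v
  constructor
  · rintro ⟨h1, h2⟩
    obtain ⟨y, hy, rfl⟩ := mem_sc.1 h1
    rw [map_mul] at h2
    exact ⟨y, ⟨hy, mul_left_cancel₀ (normSq_pos.2 ha).ne' h2⟩, rfl⟩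
  · rintro ⟨y, ⟨h1, h2⟩, rfl⟩
    exact ⟨mem_sc.2 ⟨y, h1, rfl⟩, by rw [map_mul, h2]⟩

theorem rep_eq_repL (hn : Good n) (hD : fdisc Q = -n) (hQ : 0 < Q.1) (k : ℤ) :
    rep Q k = repL (fid n Q) (k * Q.1) := by
  have h0 : (Q.1 : ℝ) ≠ 0 := by exact_mod_cast hQ.ne'
  have h1 : Function.Injective fun v : ℤ × ℤ => (Q.1 : ℂ) * v.1 + be n 1 Q.2.1 * v.2 := by
    intro v w e
    obtain ⟨h2, h3⟩ := be_indep (b := Q.2.1) (x := Q.1 * (v.1 - w.1)) (y := v.2 - w.2)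
      (lt_trans (by decide) (good_ok hn).gt) one_ne_zero (by
        push_cast
        linear_combination e)
    exact Prod.ext (sub_eq_zero.1 ((mul_eq_zero.1 h2).resolve_left hQ.ne')) (sub_eq_zero.1 h3)
  rw [rep, repL, ← Set.ncard_image_of_injective _ h1]
  congr 1
  ext v
  constructor
  · rintro ⟨w, hw, rfl⟩
    exact ⟨mem_sp2.2 ⟨w.1, w.2, by ring⟩, by rw [normSq_fid hn hD, show fval Q w.1 w.2 = k from hw]⟩
  · rintro ⟨h2, h3⟩
    obtain ⟨x, y, rfl⟩ := mem_sp2.1 h2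
    rw [mul_comm (x : ℂ), mul_comm (y : ℂ), normSq_fid hn hD] at h3
    exact ⟨(x, y), by exact_mod_cast mul_right_cancel₀ h0 h3, by ring⟩

theorem IsNm.rcl_eq (h : IsNm n I N) (hn : Good n) (k : ℤ) :
    rcl n (cl (Oc n 1) I) k = repL I (k * N) := by
  obtain ⟨h1, h2, -, h3⟩ := cfm_spec hn (cl (Oc n 1) I)
  have h4 := isNm_fid hn h1 h2
  obtain ⟨a, ha, e⟩ := (cl_eq_iff h4.iv h.iv).1 h3
  have h5 := h4.sc' ha
  rw [← e] at h5
  rw [rcl, rep_eq_repL hn h1 h2, ← repL_sc ha, ← e, h.unique h5 hn, mul_left_comm]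

theorem rep_eq_rcl (hn : Good n) (hD : fdisc Q = -n) (hQ : 0 < Q.1) (k : ℤ) :
    rep Q k = rcl n (fcl n Q) k := by
  rw [fcl, (isNm_fid hn hD hQ).rcl_eq hn, rep_eq_repL hn hD hQ]

theorem rcl_inv (hn : Good n) (x : Pc n 1) (k : ℤ) : rcl n x⁻¹ k = rcl n x k := by
  obtain ⟨I, N, h, rfl⟩ := clb_surj hn x
  rw [← h.cl_cj hn, (h.cj hn).rcl_eq hn, h.rcl_eq hn, repL, repL,
    ← Set.ncard_image_of_injective _ (starRingEnd ℂ).injective]
  congr 1
  ext v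
  constructor
  · rintro ⟨w, ⟨h1, h2⟩, rfl⟩
    exact ⟨mem_cjl.1 h1, by rwa [normSq_conj]⟩
  · rintro ⟨h1, h2⟩
    exact ⟨conj v, ⟨mem_cjl.2 (by rwa [conj_conj]), by rwa [normSq_conj]⟩, conj_conj v⟩

theorem rcl_one (hn : Good n) (x : Pc n 1) : rcl n x 1 = if x = 1 then 2 else 0 := by
  split_ifs with hx
  · rw [hx, ← cl_one, (isNm_one hn).rcl_eq hn, repL, ← Set.ncard_pair (a := (1 : ℂ)) (b := -1)
      (by norm_num)]
    congr 1
    ext v
    constructor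
    · rintro ⟨h1, h2⟩
      exact unit_Oc (good_ok hn) (clb_gen (isNm_one hn) h1 (by simpa using h2))
    · rintro (rfl | rfl)
      · exact ⟨(Oc n 1).one_mem, by simp⟩
      · exact ⟨neg_mem (Oc n 1).one_mem, by simp⟩
  · obtain ⟨I, N, h, rfl⟩ := clb_surj hn x
    rw [h.rcl_eq hn, repL, Set.ncard_eq_zero (h.finite hn _)]
    refine Set.eq_empty_of_forall_notMem fun v hv => hx ?_
    have h1 : normSq v = N := by simpa using hv.2
    rw [← clb_gen h hv.1 h1, cl_sc (isIv_one _) (normSq_pos.1 (h1 ▸ h.pos)), cl_one]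

theorem rcl_zero (hn : Good n) (x : Pc n 1) : rcl n x 0 = 1 := by
  obtain ⟨I, N, h, rfl⟩ := clb_surj hn x
  rw [h.rcl_eq hn, repL, ← Set.ncard_singleton (0 : ℂ)]
  congr 1
  ext v
  exact ⟨fun k => by simpa using k.2, fun k => by rw [k]; exact ⟨zero_mem _, by simp⟩⟩

theorem rcl_mul_n (hn : Good n) (x : Pc n 1) (k : ℤ) : rcl n x (k * n) = rcl n x k := by
  obtain ⟨h1, h2, h3, -⟩ := cfm_spec hn x
  have h4 := isNm_fid hn h1 h2
  have h5 : (n : ℝ) ≠ 0 := Nat.cast_ne_zero.2 hn.sqf.ne_zero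
  have h6 : normSq (dl n) = n := ofReal_injective (by
    rw [← mul_conj, conj_dl, ofReal_natCast]
    linear_combination -dl_sq n)
  rw [rcl, rcl, rep_eq_repL hn h1 h2, rep_eq_repL hn h1 h2, repL, repL,
    ← Set.ncard_image_of_injective {v : ℂ | _ ∧ normSq v = k * _}
      (mul_right_injective₀ (normSq_pos.1 (h6 ▸ lt_of_le_of_ne n.cast_nonneg h5.symm)))]
  congr 1
  ext v
  constructor
  · rintro ⟨v1, v2⟩
    have v3 : v ∈ Oc n 1 := idl_le hn.mod4 (clb_disc h1) v1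
    obtain ⟨y, -, hy⟩ := trc_spec hn v3
    rw [v2] at hy
    have hy' : 4 * (k * n * (cfm n x).1) = trc v ^ 2 + n * y ^ 2 := by exact_mod_cast hy
    obtain ⟨z, hz, rfl⟩ := (dvd_trc_iff hn v3).1
      (((Int.squarefree_natCast.2 hn.sqf).dvd_pow_iff_dvd two_ne_zero).1
        ⟨4 * k * (cfm n x).1 - y ^ 2, by linear_combination -hy'⟩)
    obtain ⟨s, t, e⟩ := h3.of_mul_right_right
    have e' : (s : ℂ) * (cfm n x).1 + t * n = 1 := by exact_mod_cast e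
    have z1 := sub_mem (int_mul_mem (h4.iv.mul_mem hz (left_mem_sp2 _ _)) s)
      (int_mul_mem (h4.iv.mul_mem (dl_mem hn) v1) t)
    rw [show s * (z * (cfm n x).1) - t * (dl n * (dl n * z)) = z by
      linear_combination z * e' - t * z * dl_sq n] at z1
    rw [map_mul, h6] at v2
    refine ⟨z, ⟨z1, mul_left_cancel₀ h5 ?_⟩, rfl⟩
    rw [v2]
    push_cast
    ring
  · rintro ⟨z, ⟨z1, z2⟩, rfl⟩
    refine ⟨h4.iv.mul_mem (dl_mem hn) z1, ?_⟩
    rw [map_mul, h6, z2]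
    push_cast
    ring

theorem fcl_fmap (hn : Good n) (hD : fdisc Q = -n) (hQ : 0 < Q.1) {a b c d : ℤ}
    (e : a * d - b * c = 1) : fcl n (fmap Q a b c d) = fcl n Q := by
  have h0 : (Q.1 : ℂ) ≠ 0 := by exact_mod_cast hQ.ne'
  have h1 : (Q.1 : ℂ) * a + be n 1 Q.2.1 * c ≠ 0 := fun k => by
    obtain ⟨h2, h3⟩ := be_indep (b := Q.2.1) (x := Q.1 * a) (y := c)
      (lt_trans (by decide) (good_ok hn).gt) one_ne_zero (by
        push_cast
        linear_combination k)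
    rw [(mul_eq_zero.1 h2).resolve_left hQ.ne', h3] at e
    simp at e
  have h := cmb_sq (clb_disc hD)
  have e' : (a : ℂ) * d - b * c = 1 := by exact_mod_cast e
  rw [fcl, fcl, ← cl_sc (isNm_fid hn hD hQ).iv
    (div_ne_zero ((map_ne_zero (starRingEnd ℂ)).2 h1) h0), fid, fid, idl, idl,
    ← cmc_basis (u := a) (v := c) (s := b) (t := d) (by linear_combination e) (Q.1 : ℂ), sc_sp2]
  simp only [map_add, map_mul, map_intCast, clb_conj, fmap, fval]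
  congr 2
  · rw [div_mul_eq_mul_div, eq_div_iff h0]
    push_cast
    linear_combination (c : ℂ) ^ 2 * h
  · have h2 : ∀ B : ℤ, be n 1 B = be n 1 Q.2.1 + (B - Q.2.1) / 2 := fun B => by
      rw [be, be]
      ring
    rw [div_mul_eq_mul_div, eq_div_iff h0, h2 (_ + _)]
    push_cast
    linear_combination (c : ℂ) * d * h + (Q.2.1 / 2 - be n 1 Q.2.1) * Q.1 * e'

theorem nbar_mul_fid (hn : Good n) (hQ : IsHg (-n) r Q) :
    idl n 1 15 (-r) * fid n Q = sp2 Q.1 (15 * be n 1 Q.2.1) := by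
  obtain ⟨A, hA⟩ := hQ.lev
  have hD := clb_disc hQ.disc
  have h := cmb_sq hD
  obtain ⟨u, v, e⟩ : IsCoprime (n : ℤ) 15 := by exact_mod_cast Nat.isCoprime_iff_coprime.2 hn.cop
  have e' : ((-u * Q.2.1 : ℤ) : ℂ) * Q.2.1 + (v + 4 * u * A * Q.2.2 : ℤ) * 15 = 1 := by
    rw [hA] at hD
    exact_mod_cast (by push_cast at hD; linear_combination e - u * hD :
      -u * Q.2.1 * Q.2.1 + (v + 4 * u * A * Q.2.2) * 15 = 1)
  have hA' : (Q.1 : ℂ) = 15 * A := by exact_mod_cast hA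
  rw [idl_congr (b' := -Q.2.1) (by simpa [neg_add_eq_sub] using hQ.res), fid, idl, idl, cmb_neg]
  generalize (-u * Q.2.1 : ℤ) = s at e'
  generalize (v + 4 * u * A * Q.2.2 : ℤ) = t at e'
  generalize be n 1 Q.2.1 = w at h
  refine le_antisymm (sp2_mul_le.2 ⟨mem_sp2.2 ⟨15, 0, by simp⟩, mem_sp2.2 ⟨0, 1, by simp⟩,
    mem_sp2.2 ⟨-Q.2.1, A, by push_cast; linear_combination w * hA'⟩,
    mem_sp2.2 ⟨-Q.2.2, 0, by push_cast; linear_combination h⟩⟩) ?_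
  obtain ⟨m1, m2, m3, -⟩ := (sp2_mul_le (a := ((15 : ℤ) : ℂ)) (b := w - Q.2.1) (c := Q.1)
    (d := w)).1 le_rfl
  refine sp2_le.2 ⟨?_, by simpa using m2⟩
  have m4 := add_mem (int_mul_mem m1 t) (int_mul_mem (sub_mem (int_mul_mem m2 A) m3) s)
  rwa [show t * (((15 : ℤ) : ℂ) * Q.1) + s * (A * (((15 : ℤ) : ℂ) * w) - (w - Q.2.1) * Q.1) = Q.1 by
    push_cast
    linear_combination Q.1 * e' - s * w * hA'] at m4

theorem fcl_of_hg (hn : Good n) (h : Hg n 1 r I Q) :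
    fcl n Q = cl (Oc n 1) (idl n 1 15 r) * (cl (Oc n 1) I)⁻¹ := by
  obtain ⟨h1, a, ha, rfl⟩ := h
  have hD : fdisc Q = -n := by simpa using h1.disc
  have h0 : (Q.1 : ℂ) ≠ 0 := by exact_mod_cast h1.pos.ne'
  have h2 : IsHg (-n) (-r) (Q.1, -Q.2.1, Q.2.2) := ⟨by simpa [fdisc] using hD, h1.pos, h1.lev, by
    have := h1.res.neg_right
    simpa [neg_add_eq_sub] using this⟩
  have h3 := nbar_mul_fid hn h2
  obtain ⟨A, hA⟩ := h1.lev
  have h4 : IsNm n (idl n 1 15 r) (15 : ℤ) := by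
    rw [idl_congr (b' := Q.2.1) (by simpa using h1.res.neg_right)]
    refine isNm_idl hn (k := A * Q.2.2) ?_ (by norm_num)
    rw [fdisc, hA] at hD
    linear_combination hD
  have h5 := isNm_fid hn hD h1.pos
  have h6 : sp2 (15 * froot Q) 1 = sc (Q.1 : ℂ)⁻¹ (idl n 1 15 r * cjl (fid n Q)) := by
    rw [neg_neg] at h3
    rw [cjl_idl, show idl n 1 Q.1 (-Q.2.1) = fid n (Q.1, -Q.2.1, Q.2.2) from rfl, h3, sc_sp2,
      cmb_comm, inv_mul_cancel₀ h0, froot, hD, be, dl]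
    congr 1
    push_cast
    rw [neg_neg]
    field_simp
  rw [h6, sc_sc, cl_sc (h4.iv.mul (h5.cj hn).iv) (mul_ne_zero ha (inv_ne_zero h0)),
    cl_mul h4.iv (h5.cj hn).iv, h5.cl_cj hn, mul_inv, inv_inv, mul_inv_cancel_left, fcl]

/-- The forms that give the Heegner points `yP`. -/
theorem exists_hfam (hn : Good n) (hr : 60 ∣ r ^ 2 + n) : ∃ e : Pc n 1 → Fm, HFam n r e ∧
    ∀ x, yP n 1 r x = pt (froot (e (cl (Oc n 1) (idl n 1 15 r) * x⁻¹))) := by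
  have ok : OkR n 1 r := ⟨good_ok hn, hr, by simpa using hn.cop⟩
  have h : ∀ y : Pc n 1, ∃ Q, ∃ I, IsIv (Oc n 1) I ∧ Hg n 1 r I Q ∧
      cl (Oc n 1) I = cl (Oc n 1) (idl n 1 15 r) * y⁻¹ := fun y => by
    obtain ⟨I, hI, e⟩ := cl_surj (cl (Oc n 1) (idl n 1 15 r) * y⁻¹)
    obtain ⟨Q, hQ⟩ := exists_hg ok hI
    exact ⟨Q, I, hI, hQ, e⟩
  choose e I h1 h2 h3 using h
  refine ⟨e, fun y => ⟨by simpa using (h2 y).1, ?_⟩, fun x => ?_⟩
  · rw [fcl_of_hg hn (h2 y), h3, mul_inv, inv_inv, mul_inv_cancel_left]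
  · rw [← yP_cl ok (h1 _) (h2 _), h3, mul_inv, inv_inv, mul_inv_cancel_left]

theorem rW_TW [Fintype (Pc n 1)] (hn : Good n) (W : Pc n 1 → ℤ) (k : ℤ) :
    rW (TW W) (wW W) k = ∑ x, W x * rcl n x k := by
  have h : ∀ x, fcl n (cfm n x) = x := fun x => (cfm_spec hn x).2.2.2
  rw [rW, TW, sum_image fun x _ y _ e => by rw [← h x, e, h], sum_filter]
  refine sum_congr rfl fun x _ => ?_
  rw [wW, h, rcl]
  split_ifs with k
  · rfl
  · rw [not_not.1 k, zero_mul]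

end Pool.Agent.Dih
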