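import Pool.Agent.Lib.MP_60ff09_nt.Dih.CLb

/-! The Hecke relations for representation numbers. -/

set_option autoImplicit false

open Complex Finset NumberTheorySymbols
open scoped Real ComplexConjugate Classical
open Pool.Agent.Lib.MP_696deb_nt Pool.Agent.Lib.MP_696deb_nt.B2.CM

namespace Pool.Agent.Dih

variable {n l : ℕ} {b k : ℤ}

theorem clc_root (hn : Good n) (hl : l.Prime) :
    (J((l : ℤ) | n) = -1 → ∀ b k : ℤ, b ^ 2 + n ≠ 4 * l * k) ∧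
      (J((l : ℤ) | n) = 1 → ∃ b k : ℤ, b ^ 2 + n = 4 * l * k) := by
  have h4 := hn.mod4
  obtain ⟨d, hd⟩ : ∃ d, 4 * d = n + 1 := ⟨(n + 1) / 4, by omega⟩
  have hr := Tern.rho_prime hd hl
  have hd' : (n : ℤ) = 4 * d - 1 := by omega
  have hl0 : (0 : ℤ) < l := by exact_mod_cast hl.pos
  refine ⟨fun h b k e => ?_, fun h => ?_⟩
  · rw [h, add_neg_cancel, Tern.rho, sum_eq_zero_iff_of_nonneg fun y _ => by positivity] at hr
    obtain ⟨y, rfl⟩ : ∃ y, b = 2 * y + 1 := by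
      rcases Int.even_or_odd' b with ⟨y, rfl | rfl⟩
      · exfalso
        have : 4 * (y ^ 2 + d - l * k) = 1 := by linear_combination e - hd'
        omega
      · exact ⟨y, rfl⟩
    obtain ⟨z, hz⟩ := Int.eq_ofNat_of_zero_le (Int.emod_nonneg y hl0.ne')
    have h1 := hr z (mem_range.2 (by have := Int.emod_lt_of_pos y hl0; omega))
    rw [if_pos] at h1
    · exact one_ne_zero h1
    · have h2 : (z : ℤ) = y - l * (y / l) := by rw [← hz, Int.emod_def]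
      have h3 : y ^ 2 + y + d = l * k := by
        have : 4 * (y ^ 2 + y + d) = 4 * (l * k) := by linear_combination e - hd'
        omega
      refine Int.natCast_dvd_natCast.1 ⟨k - (y / l) * (2 * y + 1 - l * (y / l)), ?_⟩
      push_cast
      rw [h2]
      linear_combination h3
  · rw [h, Tern.rho] at hr
    obtain ⟨y, -, hy⟩ := exists_ne_zero_of_sum_ne_zero (hr.trans_ne (by norm_num))
    obtain ⟨k, hk⟩ : l ∣ y ^ 2 + y + d := by
      by_contra h0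
      exact hy (if_neg h0)
    have hk' : (y : ℤ) ^ 2 + y + d = l * k := by exact_mod_cast hk
    exact ⟨2 * y + 1, k, by linear_combination hd' + 4 * hk'⟩

/-- Coordinates and norm of an integer of the field. -/
theorem clc_coord (hn : Good n) {c : ℤ} (h : b ^ 2 + n = 4 * c) {v : ℂ} (hv : v ∈ ot (Oc n 1))
    {j : ℤ} (hj : normSq v = j) :
    ∃ x y : ℤ, v = x + y * be n 1 b ∧ j = x ^ 2 + b * x * y + c * y ^ 2 := by
  rw [cmb_ot (m := 1) (k := c) hn.mod4 (by simpa using h), mem_sp2] at hv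
  obtain ⟨x, y, rfl⟩ := hv
  refine ⟨x, y, by rw [mul_one], ?_⟩
  have h1 := normSq_fid (Q := (1, b, c)) hn (by simp only [fdisc]; linear_combination h) x y
  simp only [fval, Int.cast_one, one_mul, mul_one] at h1 hj
  rw [mul_comm (be n 1 b), hj] at h1
  exact_mod_cast h1

theorem clc_mem (hn : Good n) {m x y : ℤ} : (x : ℂ) + y * be n 1 b ∈ idl n 1 m b ↔ m ∣ x := by
  refine mem_sp2.trans ⟨fun ⟨s, t, e⟩ => ?_, fun ⟨s, e⟩ => ⟨s, y, by rw [e]; push_cast; ring⟩⟩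
  have := (be_indep (n := n) (c := 1) (b := b) (x := x - s * m) (y := y - t)
    (Nat.pos_of_ne_zero hn.sqf.ne_zero) one_ne_zero (by push_cast; linear_combination e)).1
  exact ⟨s, by linear_combination this⟩

theorem clc_mem' (hn : Good n) {m x y : ℤ} :
    (x : ℂ) + y * be n 1 b ∈ idl n 1 m (-b) ↔ m ∣ x + b * y := by
  rw [← clc_mem (b := -b) (y := y) hn, cmb_neg]
  push_cast
  rw [show (x : ℂ) + b * y + y * (be n 1 b - b) = x + y * be n 1 b by ring]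

theorem clc_mem_sc (hn : Good n) {c : ℤ} (h : b ^ 2 + n = 4 * c) {x y : ℤ} (hx : (l : ℤ) ∣ x)
    (hy : (l : ℤ) ∣ y) : (x : ℂ) + y * be n 1 b ∈ sc l (ot (Oc n 1)) := by
  obtain ⟨x, rfl⟩ := hx
  obtain ⟨y, rfl⟩ := hy
  rw [cmb_ot (m := 1) (k := c) hn.mod4 (by simpa using h)]
  exact mem_sc.2 ⟨_, mem_sp2.2 ⟨x, y, rfl⟩, by push_cast; ring⟩

/-- The product of coprime ideals is their intersection. -/
theorem clc_inf {I L : Lt} {m : ℤ} (hI : IsIv (Oc n 1) I) (hL : IsIv (Oc n 1) L)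
    (hI' : I ≤ ot (Oc n 1)) (hL' : L ≤ ot (Oc n 1)) (hm : (m : ℂ) ∈ I) (hl : (l : ℂ) ∈ L)
    (hc : IsCoprime m l) {v : ℂ} : v ∈ I * L ↔ v ∈ I ∧ v ∈ L := by
  refine ⟨fun h => ⟨hI.1.le (mul_le_mul_right hL' I h), ?_⟩, fun ⟨h1, h2⟩ => ?_⟩
  · exact hL.1.le (mul_comm (ot (Oc n 1)) L ▸ mul_le_mul_left hI' L h)
  · obtain ⟨s, t, e⟩ := hc
    have e' : (s : ℂ) * m + t * l = 1 := by exact_mod_cast e
    rw [show v = s * (m * v) + t * (v * l) by linear_combination (-v) * e']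
    exact add_mem (int_mul_mem (Submodule.mul_mem_mul hm h2) s)
      (int_mul_mem (Submodule.mul_mem_mul h1 hl) t)

/-- A class contains an integral ideal of norm prime to `l`. -/
theorem clc_ex (hn : Good n) (hl : l.Prime) (x : Pc n 1) : ∃ (I : Lt) (m : ℤ), IsNm n I m ∧
    I ≤ ot (Oc n 1) ∧ (m : ℂ) ∈ I ∧ IsCoprime m l ∧ x = cl _ I := by
  obtain ⟨m, b, k, hm, h, hc, -, e⟩ := exists_idl_coprime (good_ok hn) x
    (M := l) (by exact_mod_cast hl.ne_zero)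
  exact ⟨_, m, isNm_idl hn (by simpa using h) (by exact_mod_cast Nat.pos_of_ne_zero hm),
    idl_le hn.mod4 h, left_mem_sp2 _ _, hc, e⟩

theorem clc_sc (hn : Good n) (hl : l.Prime) {I : Lt} {N : ℝ} (h : IsNm n I N) (m : ℤ) :
    repL (sc l I) (((l * m : ℤ) : ℝ) * N) =
      if (l : ℤ) ∣ m then rcl n (cl _ I) (m / l) else 0 := by
  have hl0 : (l : ℂ) ≠ 0 := by exact_mod_cast hl.ne_zero
  have hl1 : (l : ℝ) ≠ 0 := by exact_mod_cast hl.ne_zero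
  split_ifs with hm
  · obtain ⟨t, rfl⟩ := hm
    rw [Int.mul_ediv_cancel_left _ (by exact_mod_cast hl.ne_zero), h.rcl_eq hn,
      ← repL_sc hl0 I (t * N)]
    congr 1
    rw [normSq_natCast]
    push_cast
    ring
  · rw [repL, Set.ncard_eq_zero ((h.sc' hl0).finite hn _), Set.eq_empty_iff_forall_notMem]
    rintro v ⟨hv, e⟩
    obtain ⟨j, hj⟩ := (h.sc' hl0).exists_nat hn hv
    rw [e, normSq_natCast] at hj
    push_cast at hj
    have h1 : (m : ℝ) = l * j :=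
      mul_left_cancel₀ (mul_ne_zero hl1 h.pos.ne') (by linear_combination hj)
    exact hm ⟨j, by exact_mod_cast h1⟩

theorem clc_sc_iff (hl : l.Prime) {I : Lt} {m : ℤ} (hI : IsIv (Oc n 1) I) (hI' : I ≤ ot (Oc n 1))
    (hm : (m : ℂ) ∈ I) (hc : IsCoprime m l) {v : ℂ} :
    v ∈ sc l I ↔ v ∈ I ∧ v ∈ sc l (ot (Oc n 1)) := by
  have hl0 : (l : ℂ) ≠ 0 := by exact_mod_cast hl.ne_zero
  rw [← clc_inf hI ((isIv_one _).sc hl0) hI' (fun z hz => ?_) hm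
    (mem_sc.2 ⟨1, one_mem (Oc n 1), mul_one _⟩) hc, mul_sc, hI.1]
  obtain ⟨y, hy, rfl⟩ := mem_sc.1 hz
  exact (Oc n 1).mul_mem (natCast_mem _ l) hy

theorem clc_or (hn : Good n) (hl : l.Prime) (h : b ^ 2 + n = 4 * l * k) {v : ℂ}
    (hv : v ∈ ot (Oc n 1)) {j : ℤ} (hj : normSq v = ((l * j : ℤ) : ℝ)) :
    v ∈ idl n 1 l b ∨ v ∈ idl n 1 l (-b) := by
  obtain ⟨x, y, rfl, e⟩ := clc_coord hn (c := l * k) (h.trans (mul_assoc _ _ _)) hv hj
  rw [clc_mem hn, clc_mem' hn]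
  exact (Nat.prime_iff_prime_int.1 hl).dvd_or_dvd ⟨j - k * y ^ 2, by linear_combination -e⟩

theorem clc_rcl (hn : Good n) (hl : l.Prime) (h : b ^ 2 + n = 4 * l * k) {I : Lt} {N : ℤ}
    (hI : IsNm n I N) (hI' : I ≤ ot (Oc n 1)) (hN : (N : ℂ) ∈ I) (hc : IsCoprime N l) (m : ℤ) :
    rcl n (cl _ I * cl _ (idl n 1 l b)) m =
      {v : ℂ | (v ∈ I ∧ normSq v = ((l * m : ℤ) : ℝ) * N) ∧ v ∈ idl n 1 l b}.ncard := by
  have hL := isNm_idl hn h (by exact_mod_cast hl.pos)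
  rw [← cl_mul hI.iv hL.iv, (hI.mul' hL).rcl_eq hn, repL]
  congr 1
  ext v
  rw [Set.mem_ofPred_eq, Set.mem_ofPred_eq, clc_inf hI.iv hL.iv hI'
    (idl_le (k := k) hn.mod4 (by simpa using h)) hN (by exact_mod_cast left_mem_sp2 _ _) hc,
    and_right_comm, show (m : ℝ) * (N * ((l : ℤ) : ℝ)) = ((l * m : ℤ) : ℝ) * N by push_cast; ring]

/-- Split, inert and ramified primes. -/
theorem prime_cases (hn : Good n) (hl : l.Prime) :
    (J((l : ℤ) | n) = 1 ∧ ∃ b k : ℤ, b ^ 2 + n = 4 * l * k ∧ ¬ (l : ℤ) ∣ b) ∨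
    (J((l : ℤ) | n) = -1 ∧ ∀ b k : ℤ, b ^ 2 + n ≠ 4 * l * k) ∨
    (l ∣ n ∧ ∃ k : ℤ, (l : ℤ) ^ 2 + n = 4 * l * k) := by
  have h4 := hn.mod4
  by_cases hd : l ∣ n
  · refine .inr (.inr ⟨hd, ?_⟩)
    obtain ⟨c, rfl⟩ := hd
    have : (l + c) % 4 = 0 := by
      rw [Nat.mul_mod] at h4
      have h1 : l % 4 = 0 ∨ l % 4 = 1 ∨ l % 4 = 2 ∨ l % 4 = 3 := by omega
      have h2 : c % 4 = 0 ∨ c % 4 = 1 ∨ c % 4 = 2 ∨ c % 4 = 3 := by omega
      rcases h1 with h1 | h1 | h1 | h1 <;> rcases h2 with h2 | h2 | h2 | h2 <;>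
        rw [h1, h2] at h4 <;> omega
    obtain ⟨k, hk⟩ : ∃ k : ℤ, (l : ℤ) + c = 4 * k := ⟨(l + c) / 4, by omega⟩
    exact ⟨k, by push_cast; linear_combination l * hk⟩
  · rcases jacobiSym.eq_one_or_neg_one (a := l) (b := n)
      (by rw [Int.gcd_natCast_natCast]; exact (hl.coprime_iff_not_dvd).2 hd) with h | h
    · obtain ⟨b, k, e⟩ := (clc_root hn hl).2 h
      refine .inl ⟨h, b, k, e, fun ⟨t, ht⟩ => hd (Int.natCast_dvd_natCast.1
        ⟨4 * k - l * t ^ 2, ?_⟩)⟩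
      rw [ht] at e
      linear_combination e
    · exact .inr (.inl ⟨h, (clc_root hn hl).1 h⟩)

theorem rcl_split (hn : Good n) (hl : l.Prime) (h : b ^ 2 + n = 4 * l * k) (hb : ¬ (l : ℤ) ∣ b)
    (x : Pc n 1) (m : ℤ) :
    rcl n x (l * m) + (if (l : ℤ) ∣ m then rcl n x (m / l) else 0) =
      rcl n (x * cl _ (idl n 1 l b)) m + rcl n (x * (cl _ (idl n 1 l b))⁻¹) m := by
  obtain ⟨I, N, hI, hI', hN, hc, rfl⟩ := clc_ex hn hl x
  have h' : (-b) ^ 2 + n = 4 * l * k := by rw [neg_sq, h]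
  have hL := isNm_idl hn h (by exact_mod_cast hl.pos)
  have hF := hI.finite hn (((l * m : ℤ) : ℝ) * N)
  rw [← hL.cl_cj hn, cjl_idl, clc_rcl hn hl h hI hI' hN hc, clc_rcl hn hl h' hI hI' hN hc,
    ← Set.ncard_union_add_ncard_inter _ _ (hF.subset fun _ h => h.1) (hF.subset fun _ h => h.1),
    hI.rcl_eq hn, ← clc_sc hn hl hI, repL, repL]
  congr 2 <;> ext v <;>
    simp only [Set.mem_ofPred_eq, Set.mem_union, Set.mem_inter_iff, clc_sc_iff hl hI.iv hI' hN hc]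
  · refine ⟨fun hv => (clc_or hn hl h (hI' hv.1) (j := m * N) ?_).imp (⟨hv, ·⟩) (⟨hv, ·⟩),
      fun hv => hv.elim And.left And.left⟩
    rw [hv.2]
    push_cast
    ring
  · refine ⟨fun ⟨⟨h1, h2⟩, h3⟩ => ?_, fun ⟨⟨h1, h2⟩, _, h3⟩ => ⟨⟨h1.1, ?_⟩, h1.2⟩⟩
    · have key : ∀ {c : ℤ}, c ^ 2 + n = 4 * l * k → v ∈ idl n 1 l c := fun e => by
        obtain ⟨y, hy, rfl⟩ := mem_sc.1 h2
        rw [mul_comm]
        exact (isNm_idl hn e (by exact_mod_cast hl.pos)).iv.mul_mem hy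
          (by exact_mod_cast left_mem_sp2 _ _)
      exact ⟨⟨⟨h1, h3⟩, key h⟩, ⟨h1, h3⟩, key h'⟩
    · obtain ⟨x, y, rfl, -⟩ := clc_coord hn (c := l * k) (h.trans (mul_assoc _ _ _)) (hI' h1.1)
        (j := l * m * N) (by rw [h1.2]; push_cast; ring)
      rw [clc_mem hn] at h2
      rw [clc_mem' hn, dvd_add_right h2] at h3
      exact clc_mem_sc hn (h.trans (mul_assoc _ _ _)) h2
        (((Nat.prime_iff_prime_int.1 hl).dvd_or_dvd h3).resolve_left hb)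

theorem rcl_inert (hn : Good n) (hl : l.Prime) (h : ∀ b k : ℤ, b ^ 2 + n ≠ 4 * l * k)
    (x : Pc n 1) (m : ℤ) : rcl n x (l * m) = if (l : ℤ) ∣ m then rcl n x (m / l) else 0 := by
  obtain ⟨I, N, hI, hI', hN, hc, rfl⟩ := clc_ex hn hl x
  rw [hI.rcl_eq hn, ← clc_sc hn hl hI, repL, repL]
  congr 1
  ext v
  simp only [Set.mem_ofPred_eq, clc_sc_iff hl hI.iv hI' hN hc]
  refine ⟨fun hv => ⟨⟨hv.1, ?_⟩, hv.2⟩, fun hv => ⟨hv.1.1, hv.2⟩⟩
  have h4 := hn.mod4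
  obtain ⟨d, hd⟩ : ∃ d : ℤ, 1 ^ 2 + (n : ℤ) = 4 * d := ⟨(n + 1) / 4, by omega⟩
  obtain ⟨x, y, rfl, e⟩ := clc_coord hn hd (hI' hv.1) (j := l * m * N)
    (by rw [hv.2]; push_cast; ring)
  have hp := Nat.prime_iff_prime_int.1 hl
  have hy : (l : ℤ) ∣ y := by
    by_contra hy
    obtain ⟨s, u, e'⟩ := hp.coprime_iff_not_dvd.2 hy
    refine h (2 * x * u + 1) (m * N * u ^ 2 + s * (x * u + d * (1 + u * y))) ?_
    linear_combination hd - 4 * u ^ 2 * e - 4 * (x * u + d * (1 + u * y)) * e'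
  refine clc_mem_sc hn hd (hp.dvd_of_dvd_pow (n := 2) ?_) hy
  obtain ⟨t, rfl⟩ := hy
  exact ⟨m * N - x * t - d * l * t ^ 2, by linear_combination -e⟩

theorem rcl_ram (hn : Good n) (hl : l.Prime) (h : (l : ℤ) ^ 2 + n = 4 * l * k)
    (x : Pc n 1) (m : ℤ) : rcl n x (l * m) = rcl n (x * cl _ (idl n 1 l l)) m := by
  obtain ⟨I, N, hI, hI', hN, hc, rfl⟩ := clc_ex hn hl x
  rw [clc_rcl hn hl h hI hI' hN hc, hI.rcl_eq hn, repL]
  congr 1
  ext v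
  refine ⟨fun hv => ⟨hv, (clc_or hn hl h (hI' hv.1) (j := m * N) ?_).elim id fun h1 => ?_⟩,
    And.left⟩
  · rw [hv.2]
    push_cast
    ring
  · rwa [idl_congr (b := l) (b' := -l) ⟨1, by ring⟩]

theorem ram_sq (hn : Good n) (hl : l.Prime) (h : (l : ℤ) ^ 2 + n = 4 * l * k) :
    idl n 1 l l * idl n 1 l l = sc l (ot (Oc n 1)) ∧ cl (Oc n 1) (idl n 1 l l) ^ 2 = 1 := by
  have hL := isNm_idl hn h (by exact_mod_cast hl.pos)
  have e : idl n 1 l l * idl n 1 l l = sc l (ot (Oc n 1)) := by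
    have h1 := hL.mul
    rw [cjl_idl, ← idl_congr (b := l) (b' := -l) ⟨1, by ring⟩] at h1
    exact_mod_cast h1
  refine ⟨e, ?_⟩
  rw [sq, ← cl_mul hL.iv hL.iv, e, cl_sc (isIv_one _) (by exact_mod_cast hl.ne_zero), cl_one]

/-- No ideal has norm `l m` if `l` is inert and prime to `m`. -/
theorem rcl_eq_zero (hn : Good n) (hl : l.Prime) (h : J((l : ℤ) | n) = -1) {m : ℤ}
    (hm : ¬ (l : ℤ) ∣ m) (x : Pc n 1) : rcl n x (l * m) = 0 := by
  rw [rcl_inert hn hl ((clc_root hn hl).1 h), if_neg hm]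

end Pool.Agent.Dih
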