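import Pool.Agent.Lib.MP_60ff09_nt.Dih.CLc
import Pool.Agent.Lib.MP_696deb_nt.AnForms

/-! The theta series of a character is an eigenform. -/

set_option autoImplicit false

open Complex Finset NumberTheorySymbols
open scoped Real ComplexConjugate Classical
open Pool.Agent.Lib.MP_696deb_nt Pool.Agent.Lib.MP_696deb_nt.B2.CM

namespace Pool.Agent.Dih

variable {n l : ℕ} [Fintype (Pc n 1)] {b k : ℤ} (ψ : Pc n 1 →* ℂ)

theorem cld_shift (y : Pc n 1) (m : ℤ) :
    ∑ x, ψ x * rcl n (x * y) m = ψ y⁻¹ * ∑ x, ψ x * rcl n x m := by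
  rw [mul_sum]
  refine Fintype.sum_equiv (Equiv.mulRight y) _ _ fun x => ?_
  simp only [Equiv.coe_mulRight]
  rw [← mul_assoc, ← map_mul, mul_comm x y, inv_mul_cancel_left]

theorem cld_split (hn : Good n) (hl : l.Prime) (h : b ^ 2 + n = 4 * l * k) (hb : ¬ (l : ℤ) ∣ b)
    (m : ℕ) : bch ψ (l * m) + (if l ∣ m then bch ψ (m / l) else 0) =
      (ψ (cl _ (idl n 1 l b)) + ψ (cl _ (idl n 1 l b))⁻¹) * bch ψ m := by
  have e1 := cld_shift ψ (cl _ (idl n 1 l b)) m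
  have e2 := cld_shift ψ (cl _ (idl n 1 l b))⁻¹ m
  rw [inv_inv] at e2
  have e : ∑ x, ψ x * ((rcl n x (l * m) + if (l : ℤ) ∣ m then rcl n x (m / l) else 0 : ℕ) : ℂ) =
      ∑ x, ψ x * ((rcl n (x * cl _ (idl n 1 l b)) m +
        rcl n (x * (cl _ (idl n 1 l b))⁻¹) m : ℕ) : ℂ) :=
    sum_congr rfl fun x _ => by rw [rcl_split hn hl h hb]
  simp only [Nat.cast_add, mul_add, sum_add_distrib, e1, e2, Int.natCast_dvd_natCast] at e
  unfold bch
  split_ifs at e ⊢
  · push_cast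
    linear_combination e / 2
  · push_cast at e ⊢
    simp only [mul_zero, sum_const_zero] at e
    linear_combination e / 2

theorem cld_inert (hn : Good n) (hl : l.Prime) (h : ∀ b k : ℤ, b ^ 2 + n ≠ 4 * l * k) (m : ℕ) :
    bch ψ (l * m) = if l ∣ m then bch ψ (m / l) else 0 := by
  unfold bch
  simp only [Nat.cast_mul, rcl_inert hn hl h, Int.natCast_dvd_natCast]
  split_ifs
  · push_cast
    rfl
  · simp

theorem cld_ram (hn : Good n) (hl : l.Prime) (h : (l : ℤ) ^ 2 + n = 4 * l * k) (m : ℕ) :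
    bch ψ (l * m) = ψ (cl _ (idl n 1 l l)) * bch ψ m := by
  have e : (cl (Oc n 1) (idl n 1 l l))⁻¹ = cl _ (idl n 1 l l) :=
    inv_eq_of_mul_eq_one_right (by rw [← sq, (ram_sq hn hl h).2])
  unfold bch
  simp only [Nat.cast_mul, rcl_ram hn hl h, cld_shift, e, mul_div_assoc]

omit [Fintype (Pc n 1)] in
theorem cld_zero (hn : Good n) (hl : l.Prime) (h : l ∣ n) : J((l : ℤ) | n) = 0 := by
  have : NeZero n := ⟨by have := hn.mod4; omega⟩
  rw [jacobiSym.eq_zero_iff_not_coprime, Int.gcd_natCast_natCast, Nat.gcd_eq_left h]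
  exact hl.ne_one

theorem bch_one (hn : Good n) : bch ψ 1 = 1 := by
  rw [bch, Nat.cast_one, sum_eq_single 1 (fun x _ e => by simp [rcl_one hn, e]) (by simp)]
  simp [rcl_one hn]

theorem bch_split (hn : Good n) (hl : l.Prime) (h : b ^ 2 + n = 4 * l * k) (hb : ¬ (l : ℤ) ∣ b) :
    bch ψ l = ψ (cl _ (idl n 1 l b)) + ψ (cl _ (idl n 1 l b))⁻¹ := by
  have := cld_split ψ hn hl h hb 1
  rwa [mul_one, if_neg hl.not_dvd_one, add_zero, bch_one ψ hn, mul_one] at this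

theorem bch_inert (hn : Good n) (hl : l.Prime) (h : J((l : ℤ) | n) = -1) : bch ψ l = 0 := by
  have e : ∀ x, rcl n x l = 0 := fun x => by
    simpa using rcl_eq_zero hn hl h (m := 1) (by exact_mod_cast hl.not_dvd_one) x
  simp [bch, e]

theorem bch_ram (hn : Good n) (hl : l.Prime) (h : (l : ℤ) ^ 2 + n = 4 * l * k) :
    bch ψ l = ψ (cl _ (idl n 1 l l)) := by
  have := cld_ram ψ hn hl h 1
  rwa [mul_one, bch_one ψ hn, mul_one] at this

theorem bch_rel (hn : Good n) (hl : l.Prime) (m : ℕ) :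
    bch ψ (l * m) + (if l ∣ m then (J((l : ℤ) | n) : ℂ) * bch ψ (m / l) else 0) =
      bch ψ l * bch ψ m := by
  rcases prime_cases hn hl with ⟨e, b, k, h, hb⟩ | ⟨e, h⟩ | ⟨e, k, h⟩
  · rw [bch_split ψ hn hl h hb, ← cld_split ψ hn hl h hb, e, Int.cast_one, one_mul]
  · rw [bch_inert ψ hn hl e, cld_inert ψ hn hl h, e]
    split_ifs <;> simp
  · rw [bch_ram ψ hn hl h, cld_ram ψ hn hl h, cld_zero hn hl e]
    simp

theorem cld_A {f g : ℕ → ℂ} (hf : ∀ x y, f (x * y) = f x * f y) {l m : ℕ} (hl : l ≠ 0) :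
    ∑ d ∈ (l * m).divisors with l ∣ d, f d * g (l * m / d) =
      f l * ∑ d ∈ m.divisors, f d * g (m / d) := by
  have e : (l * m).divisors.filter (l ∣ ·) = m.divisors.image (l * ·) := by
    ext d
    simp only [mem_filter, Nat.mem_divisors, mem_image]
    constructor
    · rintro ⟨⟨h, h0⟩, c, rfl⟩
      exact ⟨c, ⟨(Nat.mul_dvd_mul_iff_left (Nat.pos_of_ne_zero hl)).1 h,
        right_ne_zero_of_mul h0⟩, rfl⟩
    · rintro ⟨c, ⟨h, h0⟩, rfl⟩
      exact ⟨⟨mul_dvd_mul_left l h, mul_ne_zero hl h0⟩, dvd_mul_right l c⟩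
  rw [e, sum_image fun a _ b _ h => mul_left_cancel₀ hl h, mul_sum]
  refine sum_congr rfl fun d _ => ?_
  rw [hf, Nat.mul_div_mul_left _ _ (Nat.pos_of_ne_zero hl), mul_assoc]

theorem cld_B {f g : ℕ → ℂ} (hg : ∀ x y, g (x * y) = g x * g y) {l m : ℕ} (hl : l.Prime) :
    ∑ d ∈ (l * m).divisors with ¬ l ∣ d, f d * g (l * m / d) =
      g l * ∑ d ∈ m.divisors with ¬ l ∣ d, f d * g (m / d) := by
  have e : (l * m).divisors.filter (¬ l ∣ ·) = m.divisors.filter (¬ l ∣ ·) := by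
    ext d
    simp only [mem_filter, Nat.mem_divisors]
    constructor
    · rintro ⟨⟨h, h0⟩, c⟩
      exact ⟨⟨(hl.coprime_iff_not_dvd.2 c).symm.dvd_of_dvd_mul_left h,
        right_ne_zero_of_mul h0⟩, c⟩
    · rintro ⟨⟨h, h0⟩, c⟩
      exact ⟨⟨h.mul_left l, mul_ne_zero hl.ne_zero h0⟩, c⟩
  rw [e, mul_sum]
  refine sum_congr rfl fun d hd => ?_
  rw [Nat.mul_div_assoc _ (Nat.dvd_of_mem_divisors (mem_filter.1 hd).1), hg]
  ring

/-- A solution of the Hecke relations is a convolution. -/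
theorem eq_conv {c f g : ℕ → ℂ} (c1 : c 1 = 1) (f1 : f 1 = 1) (g1 : g 1 = 1)
    (hf : ∀ x y, f (x * y) = f x * f y) (hg : ∀ x y, g (x * y) = g x * g y)
    (h : ∀ l : ℕ, l.Prime → ∀ m, m ≠ 0 →
      c (l * m) + (if l ∣ m then f l * g l * c (m / l) else 0) = (f l + g l) * c m)
    {m : ℕ} (hm : m ≠ 0) : c m = ∑ d ∈ m.divisors, f d * g (m / d) := by
  induction m using Nat.strong_induction_on with
  | _ m ih =>
  rcases eq_or_ne m 1 with rfl | h1
  · simp [c1, f1, g1]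
  obtain ⟨l, hl, m, rfl⟩ := Nat.exists_prime_and_dvd h1
  have m0 : m ≠ 0 := right_ne_zero_of_mul hm
  have lt : m < l * m := lt_mul_left (Nat.pos_of_ne_zero m0) hl.one_lt
  have e := h l hl m m0
  rw [ih m lt m0] at e
  rw [← sum_filter_add_sum_filter_not _ (l ∣ ·), cld_A hf hl.ne_zero, cld_B hg hl]
  have e' := sum_filter_add_sum_filter_not m.divisors (l ∣ ·) fun d => f d * g (m / d)
  split_ifs at e with k
  · obtain ⟨m, rfl⟩ := k
    have m1 : m ≠ 0 := right_ne_zero_of_mul m0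
    rw [Nat.mul_div_cancel_left _ hl.pos,
      ih m ((lt_mul_left (Nat.pos_of_ne_zero m1) hl.one_lt).trans lt) m1] at e
    rw [cld_A hf hl.ne_zero] at e'
    linear_combination e - g l * e'
  · rw [sum_eq_zero (s := m.divisors.filter (l ∣ ·)) fun d hd => absurd
      ((mem_filter.1 hd).2.trans (Nat.dvd_of_mem_divisors (mem_filter.1 hd).1)) k] at e'
    linear_combination e - g l * e'

theorem sum_rcl (hn : Good n) {m : ℕ} (hm : m ≠ 0) :
    ∑ x, (rcl n x m : ℤ) = 2 * ∑ d ∈ m.divisors, J((d : ℤ) | n) := by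
  have e := eq_conv (c := bch (1 : Pc n 1 →* ℂ)) (f := fun d => (J((d : ℤ) | n) : ℂ))
    (g := fun _ => 1) (bch_one _ hn) (by simp) rfl
    (fun x y => by rw [Nat.cast_mul, jacobiSym.mul_left, Int.cast_mul]) (by simp)
    (fun l hl m _ => by
      have k : bch (1 : Pc n 1 →* ℂ) l = J((l : ℤ) | n) + 1 := by
        rcases prime_cases hn hl with ⟨e, b, k, h, hb⟩ | ⟨e, h⟩ | ⟨e, k, h⟩
        · rw [bch_split _ hn hl h hb, e]
          simp
        · rw [bch_inert _ hn hl e, e]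
          simp
        · rw [bch_ram _ hn hl h, cld_zero hn hl e]
          simp
      rw [← k, ← bch_rel _ hn hl, mul_one]) hm
  simp only [bch, MonoidHom.one_apply, one_mul, mul_one] at e
  have e' : ((∑ x, (rcl n x m : ℤ) : ℤ) : ℂ) = (2 * ∑ d ∈ m.divisors, J((d : ℤ) | n) : ℤ) := by
    push_cast
    linear_combination 2 * e
  exact_mod_cast e'

theorem norm_bch_le (hn : Good n) (W : Pc n 1 → ℂ) {ε : ℝ} (hε : 0 < ε) :
    ∃ C : ℝ, ∀ m : ℕ, m ≠ 0 → ‖bch W m‖ ≤ C * (m : ℝ) ^ ε := by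
  obtain ⟨C, -, H⟩ := fdivisor_bound hε
  refine ⟨(∑ x, ‖W x‖) * C, fun m hm => ?_⟩
  have h1 : ∑ x, (rcl n x m : ℤ) ≤ 2 * m.divisors.card := by
    rw [sum_rcl hn hm]
    have := sum_le_card_nsmul m.divisors (fun d => J((d : ℤ) | n)) 1 fun d _ => by
      rcases jacobiSym.trichotomy d n with e | e | e <;> simp [e]
    rw [nsmul_eq_mul, mul_one] at this
    omega
  have h2 : ∑ x, (rcl n x m : ℝ) ≤ 2 * m.divisors.card := by exact_mod_cast h1
  have h3 : ‖∑ x, W x * rcl n x m‖ ≤ (∑ x, ‖W x‖) * ∑ x, (rcl n x m : ℝ) := by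
    rw [mul_sum]
    refine norm_sum_le_of_le _ fun x _ => ?_
    rw [norm_mul, Complex.norm_natCast]
    exact mul_le_mul_of_nonneg_right
      (single_le_sum (f := fun x => ‖W x‖) (fun _ _ => norm_nonneg _) (mem_univ x)) (by positivity)
  have h4 : 0 ≤ ∑ x, ‖W x‖ := by positivity
  rw [bch, norm_div, Complex.norm_ofNat, mul_assoc]
  nlinarith [mul_le_mul_of_nonneg_left h2 h4, mul_le_mul_of_nonneg_left (H m hm) h4]

end Pool.Agent.Dih
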