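import Pool.Agent.Lib.MP_60ff09_nt.Dih.CLd
import Pool.Agent.Lib.MP_60ff09_nt.Dih.ANa2
import Pool.Agent.Lib.MP_696deb_nt.HForms

/-! The genus character. -/

set_option autoImplicit false

open Complex Finset NumberTheorySymbols
open scoped Real ComplexConjugate Classical
open Pool.Agent.Lib.MP_696deb_nt Pool.Agent.Lib.MP_696deb_nt.B2.CM

namespace Pool.Agent.Dih

variable {n P : ℕ} {I : Lt} {N : ℝ} {A : Par} {r : ℤ}

theorem cle_good {p q : ℕ} (hp : p.Prime) (hq : q.Prime) (p4 : p % 4 = 1) (q4 : q % 4 = 3)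
    (p5 : p ≠ 5) (q3 : q ≠ 3) : Good (p * q) := by
  refine ⟨(Nat.squarefree_mul ((Nat.coprime_primes hp hq).2 (by omega))).2
    ⟨hp.squarefree, hq.squarefree⟩, by rw [Nat.mul_mod, p4, q4], ?_⟩
  have h : ∀ l : ℕ, l.Prime → l ≠ 3 → l ≠ 5 → l.Coprime (3 * 5) := fun l hl h3 h5 =>
    ((Nat.coprime_primes hl Nat.prime_three).2 h3).mul_right
      ((Nat.coprime_primes hl Nat.prime_five).2 h5)
  exact (h p hp (by omega) p5).mul_left (h q hq q3 (by omega))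

theorem Par.Ok.good (h : A.Ok) : Good A.n := by
  exact cle_good h.pp h.qp h.p4 h.q4 h.p5 h.q3

theorem cle_cop (hn : Good n) (hd : P ∣ n) (x : Pc n 1) : IsCoprime (cfm n x).1 P :=
  (cfm_spec hn x).2.2.1.of_isCoprime_of_dvd_right ((Int.natCast_dvd_natCast.2 hd).mul_left _)

theorem cle_ndvd (hn : Good n) (hP : P.Prime) (hd : P ∣ n) (x : Pc n 1) :
    ¬ (P : ℤ) ∣ (cfm n x).1 :=
  (Nat.prime_iff_prime_int.1 hP).coprime_iff_not_dvd.1 (cle_cop hn hd x).symm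

theorem cle_fval (hn : Good n) (hP : P.Prime) (hd : P ∣ n) (c : Pc n 1) {x y : ℤ}
    (h : ¬ (P : ℤ) ∣ fval (cfm n c) x y) : J(fval (cfm n c) x y | P) = gcl P c := by
  obtain ⟨h1, h2, -⟩ := cfm_spec hn c
  have hp := Nat.mem_primeFactors.2 ⟨hP, hd, hn.sqf.ne_zero⟩
  rw [gcl, ← hil_of_not_dvd (n := n) hP h, ← hil_of_not_dvd (n := n) hP (cle_ndvd hn hP hd c),
    Gal.hil_a hn.sqf hp h1 h2]
  exact Gal.hil_fval hn.sqf hp h1 (pos_c (by have := hn.sqf.ne_zero; omega) h2).ne'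
    fun e => h (e ▸ dvd_zero _)

theorem IsNm.gcl_eq (h : IsNm n I N) (hn : Good n) (hP : P.Prime) (hd : P ∣ n) {v : ℂ} (hv : v ∈ I)
    {k : ℤ} (e : normSq v = k * N) (hk : ¬ (P : ℤ) ∣ k) : J(k | P) = gcl P (cl (Oc n 1) I) := by
  obtain ⟨h1, h2, -, h3⟩ := cfm_spec hn (cl (Oc n 1) I)
  have h4 := isNm_fid hn h1 h2
  obtain ⟨a, a0, ha⟩ := (cl_eq_iff h.iv h4.iv).1 h3.symm
  have h5 := h4.unique (ha ▸ h.sc' a0) hn
  have h6 : a * v ∈ fid n (cfm n (cl (Oc n 1) I)) := ha ▸ (mul_mem_sc a0).2 hv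
  obtain ⟨x, y, h7⟩ := mem_sp2.1 h6
  have h8 := normSq_fid hn h1 x y
  rw [mul_comm _ (x : ℂ), mul_comm _ (y : ℂ), ← h7, map_mul, e, mul_left_comm, ← h5] at h8
  have h9 : k = fval (cfm n (cl (Oc n 1) I)) x y := by
    exact_mod_cast mul_right_cancel₀ h4.pos.ne' h8
  rw [h9] at hk ⊢
  exact cle_fval hn hP hd _ hk

theorem gcl_mul (hn : Good n) (hP : P.Prime) (hd : P ∣ n) (x y : Pc n 1) :
    gcl P (x * y) = gcl P x * gcl P y := by
  obtain ⟨h1, h2, -, h3⟩ := cfm_spec hn x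
  obtain ⟨k1, k2, -, k3⟩ := cfm_spec hn y
  have h4 := isNm_fid hn h1 h2
  have k4 := isNm_fid hn k1 k2
  have := (h4.mul' k4).gcl_eq hn hP hd
    (Submodule.mul_mem_mul (left_mem_sp2 _ _) (left_mem_sp2 _ _)) (k := (cfm n x).1 * (cfm n y).1)
    (by rw [map_mul, normSq_intCast, normSq_intCast]; push_cast; ring)
    fun e => ((Nat.prime_iff_prime_int.1 hP).dvd_or_dvd e).elim (cle_ndvd hn hP hd x)
      (cle_ndvd hn hP hd y)
  rw [cl_mul h4.iv k4.iv, jacobiSym.mul_left] at this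
  rw [← h3, ← k3]
  exact this.symm.trans (by rw [h3, k3]; rfl)

theorem gcl_or (hn : Good n) (hP : P.Prime) (hd : P ∣ n) (x : Pc n 1) :
    gcl P x = 1 ∨ gcl P x = -1 := by
  exact jacobiSym.eq_one_or_neg_one (Int.isCoprime_iff_gcd_eq_one.1 (cle_cop hn hd x))

theorem gcl_one (hn : Good n) (hP : P.Prime) (hd : P ∣ n) : gcl P (1 : Pc n 1) = 1 := by
  have := (isNm_one hn).gcl_eq hn hP hd (Oc n 1).one_mem (k := 1) (by simp)
    (by exact_mod_cast hP.not_dvd_one)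
  rw [cl_one, jacobiSym.one_left] at this
  exact this.symm

theorem gcl_inv (hn : Good n) (hP : P.Prime) (hd : P ∣ n) (x : Pc n 1) :
    gcl P x⁻¹ = gcl P x := by
  exact Int.eq_of_mul_eq_one (by rw [← gcl_mul hn hP hd, inv_mul_cancel, gcl_one hn hP hd])

theorem gcl_idl (hn : Good n) (hP : P.Prime) (hd : P ∣ n) {m b k : ℤ} (h : b ^ 2 + n = 4 * m * k)
    (hm : 0 < m) (hc : ¬ (P : ℤ) ∣ m) : gcl P (cl (Oc n 1) (idl n 1 m b)) = J(m | P) := by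
  exact ((isNm_idl hn h hm).gcl_eq hn hP hd (left_mem_sp2 _ _) (normSq_intCast m) hc).symm

theorem cle_pf (h : A.Ok) : A.n.primeFactors = {A.p, A.q} := by
  rw [Par.n, Nat.primeFactors_mul h.pp.ne_zero h.qp.ne_zero, h.pp.primeFactors, h.qp.primeFactors]
  rfl

theorem cle_p (A : Par) : A.p ∣ A.n := dvd_mul_right _ _

theorem cle_q (A : Par) : A.q ∣ A.n := dvd_mul_left _ _

theorem cle_jac (h : A.Ok) (a : ℤ) : J(a | A.n) = J(a | A.p) * J(a | A.q) :=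
  jacobiSym.mul_right' a h.pp.ne_zero h.qp.ne_zero

theorem Par.Ok.gcl_pq (h : A.Ok) (x : Pc A.n 1) : gcl A.q x = gcl A.p x := by
  obtain ⟨h1, h2, -⟩ := cfm_spec h.good x
  obtain ⟨m, hm⟩ := Int.eq_ofNat_of_zero_le h2.le
  have := Gal.prod_hil h.good (b := (cfm A.n x).2.1) m (by omega)
    ⟨(cfm A.n x).2.2, by rw [← hm]; rw [fdisc] at h1; linear_combination h1⟩
  rw [← hm, hilS, cle_pf h, prod_pair h.ne, hil_of_not_dvd h.pp (cle_ndvd h.good h.pp (cle_p A) x),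
    hil_of_not_dvd h.qp (cle_ndvd h.good h.qp (cle_q A) x)] at this
  exact (Int.eq_of_mul_eq_one this).symm

theorem Par.Ok.inGen_cfm (h : A.Ok) {x : Pc A.n 1} (hp : gcl A.p x = A.χp) (hq : gcl A.p x = A.χq) :
    A.InGen (cfm A.n x) := by
  obtain ⟨h1, h2, -⟩ := cfm_spec h.good x
  exact ⟨h1, h2, fun _ _ e => (cle_fval h.good h.pp (cle_p A) x e).trans hp,
    fun _ _ e => (cle_fval h.good h.qp (cle_q A) x e).trans ((h.gcl_pq x).trans hq)⟩

theorem Par.Ok.dat [Fintype (Pc A.n 1)] (h : A.Ok) {W : Pc A.n 1 → ℤ} (h0 : ∑ x, W x = 0)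
    (hW : ∀ x, W x ≠ 0 → gcl A.p x = A.χp ∧ gcl A.p x = A.χq) : A.Dat (TW W) (wW W) := by
  have h1 := fun x => (cfm_spec h.good x).2.2.2
  refine ⟨h, fun Q hQ => ?_, ?_⟩
  · obtain ⟨x, hx, rfl⟩ := mem_image.1 hQ
    exact h.inGen_cfm (hW x (mem_filter.1 hx).2).1 (hW x (mem_filter.1 hx).2).2
  · rw [TW, sum_image fun x _ y _ e => by rw [← h1 x, e, h1 y]]
    simp only [wW, h1]
    rw [sum_filter_ne_zero, h0]

/-- The sign condition follows from the Heegner hypothesis. -/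
theorem ok_of_root {p q : ℕ} (hp : p.Prime) (hq : q.Prime) (p4 : p % 4 = 1) (q4 : q % 4 = 3)
    (p5 : p ≠ 5) (q3 : q ≠ 3) (hr : 60 ∣ r ^ 2 + (p * q : ℕ)) {χ : ℤ} (hχ : χ = 1 ∨ χ = -1) :
    (Par.mk p q χ χ).Ok := by
  refine ⟨hp, hq, p4, q4, p5, q3, ?_⟩
  obtain ⟨h3, h5⟩ := Gal.not_dvd_r (cle_good hp hq p4 q4 p5 q3) hr
  have h1 : IsCoprime (3 * 5) r := (Int.prime_three.coprime_iff_not_dvd.2 h3).mul_left
    (Gal.prime_five.coprime_iff_not_dvd.2 h5)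
  have h2 : ∀ l : ℕ, Odd l → J(-15 | l) = J(l | 15) := fun l hl =>
    Tern.jacobi_neg_swap (n := 15) rfl hl
  have h4 : J((p : ℤ) * q | 15) = J(-1 * r ^ 2 | 15) := by
    push_cast at hr
    exact jacobiSym.mod_left' (by omega)
  rw [jacobiSym.mul_left (-1), jacobiSym.sq_one' (Int.isCoprime_iff_gcd_eq_one.1 h1.symm),
    jacobiSym.mul_left] at h4
  change χ * χ * J(-15 | p) * J(-15 | q) = -1
  rw [h2 p (Nat.odd_iff.2 (by omega)), h2 q (Nat.odd_iff.2 (by omega)), mul_assoc, h4]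
  rcases hχ with rfl | rfl <;> norm_num

theorem Par.Ok.exists_gcl (h : A.Ok) : ∃ x : Pc A.n 1, gcl A.p x = -1 := by
  obtain ⟨l, h1, hl, h2, -⟩ := Gal.exists_prime_sgn h.good (ε := fun _ => -1)
    ⟨fun _ _ => Or.inr rfl, by rw [cle_pf h, prod_pair h.ne]; rfl⟩ A.n
  have hp := h2 A.p (by simp [cle_pf h])
  have hq := h2 A.q (by simp [cle_pf h])
  rcases prime_cases h.good hl with ⟨-, b, k, e, -⟩ | ⟨e, -⟩ | ⟨e, -⟩
  · exact ⟨_, (gcl_idl h.good h.pp (cle_p A) e (by exact_mod_cast hl.pos)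
      (not_dvd_of_prime_ne h.pp hl (by have := Nat.le_of_dvd h.n_pos (cle_p A); omega))).trans hp⟩
  · rw [cle_jac h, hp, hq] at e
    norm_num at e
  · have := Nat.le_of_dvd h.n_pos e
    omega

theorem Par.Ok.sum_gcl_rcl [Fintype (Pc A.n 1)] (h : A.Ok) {m : ℕ} (hm : m ≠ 0) :
    ∑ x, gcl A.p x * rcl A.n x m =
      2 * ∑ d ∈ m.divisors, J((d : ℤ) | A.p) * J(((m / d : ℕ) : ℤ) | A.q) := by
  have hn := h.good
  obtain ⟨ψ, hψ⟩ : ∃ ψ : Pc A.n 1 →* ℂ, ∀ x, ψ x = gcl A.p x :=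
    ⟨⟨⟨fun x => (gcl A.p x : ℂ), by rw [gcl_one hn h.pp (cle_p A), Int.cast_one]⟩,
      fun x y => by simp only [gcl_mul hn h.pp (cle_p A), Int.cast_mul]⟩, fun _ => rfl⟩
  have self : ∀ {l : ℕ}, l.Prime → J((l : ℤ) | l) = 0 := fun hl =>
    jacobiSym.eq_zero_iff.2 ⟨hl.ne_zero, by simpa using hl.ne_one⟩
  have key : ∀ l : ℕ, l.Prime → bch ψ l = J((l : ℤ) | A.p) + J((l : ℤ) | A.q) := fun l hl => by
    have l0 : (0 : ℤ) < l := by exact_mod_cast hl.pos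
    rcases prime_cases hn hl with ⟨e1, b, k, e, hb⟩ | ⟨e, -⟩ | ⟨e1, k, e⟩
    · rw [cle_jac h] at e1
      rw [bch_split ψ hn hl e hb, hψ, hψ, gcl_inv hn h.pp (cle_p A), ← Int.eq_of_mul_eq_one e1,
        gcl_idl hn h.pp (cle_p A) e l0 (not_dvd_of_prime_ne h.pp hl fun e2 => ?_)]
      rw [← e2, self h.pp, zero_mul] at e1
      exact zero_ne_one e1
    · rw [bch_inert ψ hn hl e]
      rw [cle_jac h] at e
      rcases Int.eq_one_or_neg_one_of_mul_eq_neg_one' e with ⟨e1, e2⟩ | ⟨e1, e2⟩ <;> simp [e1, e2]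
    · rw [bch_ram ψ hn hl e, hψ]
      rcases hl.dvd_mul.1 e1 with e2 | e2
      · obtain rfl := (Nat.prime_dvd_prime_iff_eq hl h.pp).1 e2
        rw [← h.gcl_pq, gcl_idl hn h.qp (cle_q A) e l0 (not_dvd_of_prime_ne h.qp hl h.ne.symm),
          self hl, Int.cast_zero, zero_add]
      · obtain rfl := (Nat.prime_dvd_prime_iff_eq hl h.qp).1 e2
        rw [gcl_idl hn h.pp (cle_p A) e l0 (not_dvd_of_prime_ne h.pp hl h.ne), self hl,
          Int.cast_zero, add_zero]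
  have := eq_conv (c := bch ψ) (f := fun d => J((d : ℤ) | A.p)) (g := fun d => J((d : ℤ) | A.q))
    (bch_one ψ hn) (by simp) (by simp) (fun x y => by simp [jacobiSym.mul_left])
    (fun x y => by simp [jacobiSym.mul_left]) (fun l hl m _ => by
      rw [← key l hl, ← bch_rel ψ hn hl m, cle_jac h, Int.cast_mul]) hm
  rw [bch, div_eq_iff two_ne_zero, mul_comm] at this
  simp only [hψ] at this
  exact_mod_cast this

end Pool.Agent.Dih
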