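import Pool.Agent.Lib.MP_60ff09_nt.Dih.CLe

/-! Ambiguous classes and the principal genus. -/

set_option autoImplicit false

open Complex Finset NumberTheorySymbols
open scoped Real ComplexConjugate Classical
open Pool.Agent.Lib.MP_696deb_nt Pool.Agent.Lib.MP_696deb_nt.B2.CM

namespace Pool.Agent.Dih

variable {A : Par}

theorem Par.Ok.ram_root (h : A.Ok) : ∃ k : ℤ, (A.p : ℤ) ^ 2 + A.n = 4 * A.p * k := by
  have h1 := h.p4
  have h2 := h.q4
  obtain ⟨k, hk⟩ : ∃ k : ℤ, (A.p : ℤ) + A.q = 4 * k := ⟨(A.p + A.q) / 4, by omega⟩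
  exact ⟨k, by rw [Par.n]; push_cast; linear_combination A.p * hk⟩

theorem Par.Ok.ram_ne_one (h : A.Ok) : cl (Oc A.n 1) (idl A.n 1 A.p A.p) ≠ 1 := by
  intro e
  have hn := h.good
  obtain ⟨k, hk⟩ := h.ram_root
  have p0 : (0 : ℤ) < A.p := by exact_mod_cast h.pp.pos
  have h1 := (isNm_idl hn hk p0).rcl_eq hn 1
  rw [rcl_one hn, if_pos e, repL] at h1
  obtain ⟨v, hv, h2⟩ := Set.nonempty_of_ncard_ne_zero (h1 ▸ two_ne_zero)
  obtain ⟨y, -, h3⟩ := trc_spec hn (idl_le hn.mod4 (k := k) (by simpa using hk) hv)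
  have h4 : 4 * (A.p : ℤ) = trc v ^ 2 + A.p * A.q * y ^ 2 := by
    rw [h2, Par.n] at h3
    exact_mod_cast (by simpa using h3 : 4 * (A.p : ℝ) = trc v ^ 2 + A.p * A.q * y ^ 2)
  obtain ⟨x, hx⟩ : (A.p : ℤ) ∣ trc v := (Nat.prime_iff_prime_int.1 h.pp).dvd_of_dvd_pow (n := 2)
    ⟨4 - A.q * y ^ 2, by linear_combination -h4⟩
  have h5 : 4 = A.p * x ^ 2 + A.q * y ^ 2 :=
    mul_left_cancel₀ p0.ne' (by rw [hx] at h4; linear_combination h4)
  have p5 : (5 : ℤ) ≤ A.p := by have := h.pp.two_le; have := h.p4; omega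
  have q5 : (5 : ℤ) ≤ A.q := by have := h.q3; have := h.q4; omega
  have x0 : x = 0 := by
    by_contra a
    nlinarith [sq_pos_of_ne_zero a, sq_nonneg y]
  have y0 : y = 0 := by
    by_contra a
    nlinarith [sq_pos_of_ne_zero a, sq_nonneg x]
  simp [x0, y0] at h5

/-- Change of basis along a primitive vector. -/
theorem clf_basis {n : ℕ} {m b k u v : ℤ} (hb : b ^ 2 + n = 4 * m * k) (hm : 0 < m)
    (huv : IsCoprime u v) (z0 : (u : ℂ) * m + v * be n 1 b ≠ 0) : ∃ f b' k' : ℤ, 0 < f ∧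
    b' ^ 2 + n = 4 * f * k' ∧
    sc (conj ((u : ℂ) * m + v * be n 1 b)) (idl n 1 m b) = sc m (idl n 1 f b') := by
  obtain ⟨t, s', hts⟩ := huv
  obtain ⟨s, rfl⟩ : ∃ s, s' = -s := ⟨-s', by ring⟩
  have hd : u * t - v * s = 1 := by linear_combination hts
  have hs := be_sq (n := n) (c := 1) (b := b) (N := m * k) (by push_cast; linear_combination hb)
  have hd' : (u : ℂ) * t - v * s = 1 := by exact_mod_cast hd
  have hc : conj ((u : ℂ) * m + v * be n 1 b) = u * m + v * (b - be n 1 b) := by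
    simp only [be, map_add, map_mul, map_div₀, map_intCast, map_natCast, map_ofNat, conj_dl]
    ring
  push_cast at hs
  have z1 : conj ((u : ℂ) * m + v * be n 1 b) * (u * m + v * be n 1 b) =
      m * (m * u ^ 2 + b * u * v + k * v ^ 2 : ℤ) := by
    rw [hc]; push_cast; linear_combination (-(v : ℂ) ^ 2) * hs
  have z2 : conj ((u : ℂ) * m + v * be n 1 b) * (s * m + t * be n 1 b) =
      m * be n 1 (b + 2 * ((u * m + v * b) * s + v * t * k)) := by
    rw [hc, cmc_be_add]; push_cast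
    linear_combination (-(v : ℂ) * t) * hs + m * be n 1 b * hd'
  refine ⟨m * u ^ 2 + b * u * v + k * v ^ 2, b + 2 * ((u * m + v * b) * s + v * t * k),
    m * s ^ 2 + b * s * t + k * t ^ 2, ?_, ?_, ?_⟩
  · have h1 := normSq_pos.2 z0
    rw [← normSq_eq_conj_mul_self] at z1
    have h2 : normSq ((u : ℂ) * m + v * be n 1 b) =
        ((m * (m * u ^ 2 + b * u * v + k * v ^ 2) : ℤ) : ℝ) := by exact_mod_cast z1
    rw [h2] at h1
    exact (mul_pos_iff_of_pos_left hm).1 (by exact_mod_cast h1)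
  · linear_combination hb - 4 * (m * k * (u * t - v * s + 1) +
      b * ((u * m + v * b) * s + v * t * k)) * hd
  · rw [idl, idl, ← cmc_basis hd, sc_sp2, sc_sp2, z1, z2]

theorem clf_cancel {a : ℂ} (ha : a ≠ 0) {I J : Lt} (h : sc a I = sc a J) : I = J := by
  rw [← sc_inv_sc ha I, h, sc_inv_sc ha]

/-- Classes of order two contain ambiguous ideals. -/
theorem clf_amb {n : ℕ} (hn : Good n) {x : Pc n 1} (h : x ^ 2 = 1) :
    ∃ f : ℕ, f ∣ n ∧ x = cl (Oc n 1) (idl n 1 f f) := by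
  have ok := good_ok hn
  have n0 : 0 < n := by have := ok.gt; omega
  obtain ⟨m', b, k, m0, hb, -, -, rfl⟩ := exists_idl_coprime ok x one_ne_zero
  obtain ⟨m, hm, e⟩ : ∃ m : ℤ, 0 < m ∧ m = m' := ⟨m', by omega, rfl⟩
  rw [← e] at h hb ⊢
  replace hb : b ^ 2 + n = 4 * m * k := by simpa using hb
  have i1 := isNm_idl hn hb hm
  have m1 : (m : ℂ) ≠ 0 := by exact_mod_cast hm.ne'
  obtain ⟨a, a0, ha⟩ := (cl_eq_iff i1.iv (i1.cj hn).iv).1 (by
    rw [i1.cl_cj hn, eq_inv_iff_mul_eq_one, ← sq, h])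
  have a1 : conj a * a = 1 := by
    have h1 := (i1.cj hn).unique (ha ▸ i1.sc' a0) hn
    rw [← normSq_eq_conj_mul_self, (mul_eq_right₀ i1.pos.ne').1 h1.symm, ofReal_one]
  obtain ⟨w, hw, w0, ew⟩ : ∃ w ∈ idl n 1 m b, w ≠ 0 ∧
      sc w (cjl (idl n 1 m b)) = sc (conj w) (idl n 1 m b) := by
    have h1 : (m : ℂ) ∈ idl n 1 m b := left_mem_sp2 _ _
    by_cases a2 : 1 + a = 0
    · refine ⟨m, h1, m1, ?_⟩
      rw [ha, map_intCast, eq_neg_of_add_eq_zero_right a2]
      congr 1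
      ext z
      rw [← neg_mem_iff, ← mul_mem_sc (I := idl n 1 m b) (z := z) (a := -1) (by norm_num),
        neg_one_mul, neg_mem_iff]
    · have h2 : a * m ∈ cjl (idl n 1 m b) := ha ▸ (mul_mem_sc a0).2 h1
      refine ⟨m + conj (a * m), add_mem h1 (mem_cjl.1 h2), fun e => a2 ?_, ?_⟩
      · have h3 := congrArg conj e
        rw [map_add, conj_conj, map_intCast, map_zero] at h3
        exact (mul_eq_zero.1 (by linear_combination h3 : (1 + a) * m = 0)).resolve_right m1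
      · rw [ha, sc_sc, map_add, conj_conj, map_mul, map_intCast]
        congr 1
        linear_combination m * a1
  obtain ⟨x, y, rfl⟩ := mem_sp2.1 hw
  obtain ⟨g, u, v, g0, huv, rfl, rfl⟩ := Int.exists_gcd_one' (m := x) (n := y)
    (Int.gcd_pos_iff.2 (by
      by_contra e
      rw [not_or, not_not, not_not] at e
      simp [e.1, e.2] at w0))
  have e1 : ((u * g : ℤ) : ℂ) * m + (v * g : ℤ) * be n 1 b = g * (u * m + v * be n 1 b) := by
    push_cast; ring
  rw [e1] at w0 ew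
  rw [map_mul, map_natCast, ← sc_sc, ← sc_sc] at ew
  have z0 := right_ne_zero_of_mul w0
  obtain ⟨f, b', k', f0, hb', key⟩ := clf_basis hb hm (Int.isCoprime_iff_gcd_eq_one.2 huv) z0
  have e2 : idl n 1 f (-b') = idl n 1 f b' := by
    have h1 := congrArg cjl key
    rw [cjl, cjl, mp_sc, mp_sc, starRingAut_apply, starRingAut_apply, ← starRingEnd_apply,
      ← starRingEnd_apply, conj_conj, map_intCast] at h1
    refine clf_cancel m1 ?_
    rw [← cjl_idl, ← h1, ← key]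
    exact clf_cancel (left_ne_zero_of_mul w0) ew
  obtain ⟨r, s, e3⟩ := mem_sp2.1 (e2.le (right_mem_sp2 _ _))
  have e4 := (be_indep n0 one_ne_zero (b := b') (x := r * f + b') (y := s - 1) (by
    rw [cmb_neg] at e3
    push_cast
    linear_combination -e3)).1
  have e5 : f ∣ n := ⟨4 * k' - r ^ 2 * f, by
    linear_combination hb' - (b' - r * f) * e4⟩
  have e6 := two_dvd_sub (c := 1) (b := b') (N := f * k') hn.mod4 (by push_cast; linear_combination hb')
  obtain ⟨j, hj⟩ : ∃ j, r = 2 * j - 1 := by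
    obtain ⟨j, rfl | rfl⟩ := Int.even_or_odd' r
    · obtain ⟨c, hc⟩ := e6
      have : 2 * (c + j * f) + 1 = 0 := by push_cast at hc; linear_combination e4 - hc
      omega
    · exact ⟨j + 1, by ring⟩
  lift f to ℕ using f0.le
  refine ⟨f, by exact_mod_cast e5, ?_⟩
  rw [← cl_sc i1.iv ((map_ne_zero conj).2 z0), key, cl_sc (isNm_idl hn hb' f0).iv m1,
    idl_congr (b' := f) ⟨-j, by rw [hj] at e4; linear_combination e4⟩]

theorem clf_n {n : ℕ} (hn : Good n) : cl (Oc n 1) (idl n 1 n n) = 1 := by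
  have n0 : 0 < n := by have := hn.mod4; omega
  have d0 : dl n ≠ 0 := fun e => by simpa [e] using dl_im n0
  have e : idl n 1 n n = sc (dl n) (ot (Oc n 1)) := by
    rw [ot_Oc (b := 1) hn.mod4 (by simp), sc_sp2, idl,
      ← cmc_basis (u := 1) (v := -2) (s := 1) (t := -1) (by norm_num) (dl n * 1)]
    congr 1 <;> simp only [be] <;> push_cast
    · linear_combination dl_sq n
    · linear_combination 1 / 2 * dl_sq n
  rw [e, cl_sc (isIv_one _) d0, cl_one]

theorem Par.Ok.sq_eq_one (h : A.Ok) (x : Pc A.n 1) :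
    x ^ 2 = 1 ↔ x = 1 ∨ x = cl (Oc A.n 1) (idl A.n 1 A.p A.p) := by
  have hn := h.good
  obtain ⟨k, hk⟩ := h.ram_root
  have h2 := (ram_sq hn h.pp hk).2
  refine ⟨fun hx => ?_, by rintro (rfl | rfl); exacts [one_pow 2, h2]⟩
  obtain ⟨f, hf, rfl⟩ := clf_amb hn hx
  obtain ⟨r, s, hr, hs, rfl⟩ := (Nat.dvd_mul (m := A.p) (n := A.q)).1 hf
  rcases (Nat.dvd_prime h.pp).1 hr with rfl | rfl <;>
    rcases (Nat.dvd_prime h.qp).1 hs with rfl | rfl
  · left
    rw [← cl_one, ot_Oc (b := 1) hn.mod4 (by simp)]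
    simp [idl]
  · right
    have p4 := h.p4
    have q4 := h.q4
    have n4 := hn.mod4
    obtain ⟨j, hj⟩ : ∃ j : ℤ, (A.n : ℤ) + 1 = 4 * j := ⟨(A.n + 1) / 4, by omega⟩
    obtain ⟨a, ha⟩ : ∃ a : ℤ, (A.p : ℤ) - 1 = 2 * a := ⟨(A.p - 1) / 2, by omega⟩
    obtain ⟨b, hb⟩ : ∃ b : ℤ, (A.q : ℤ) - 1 = 2 * b := ⟨(A.q - 1) / 2, by omega⟩
    have en : (A.n : ℤ) = A.p * A.q := Nat.cast_mul _ _
    obtain ⟨u, v, e⟩ := Nat.isCoprime_iff_coprime.2
      ((Nat.coprime_primes h.pp h.qp).2 fun e => by omega)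
    have e1 := idl_mul (n := A.n) (c := 1) (m := A.p) (m' := A.q) (b := A.n) (k := j)
      (by push_cast; linear_combination A.n * hj + 4 * j * en) ⟨u, v, 0, by linear_combination e⟩
    rw [← en, idl_congr (m := A.p) (b' := A.p) ⟨b, by linear_combination en + A.p * hb⟩,
      idl_congr (m := A.q) (b' := A.q) ⟨a, by linear_combination en + A.q * ha⟩] at e1
    have p0 : (0 : ℤ) < A.p := by exact_mod_cast h.pp.pos
    have q0 : (0 : ℤ) < A.q := by exact_mod_cast h.qp.pos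
    obtain ⟨i, hi⟩ : ∃ i : ℤ, (A.p : ℤ) + A.q = 4 * i := ⟨(A.p + A.q) / 4, by omega⟩
    have e2 := clf_n hn
    rw [e1, cl_mul (isNm_idl hn hk p0).iv
      (isNm_idl hn (k := i) (by linear_combination en + A.q * hi) q0).iv, ← h2, sq] at e2
    rw [one_mul, mul_left_cancel e2]
  · right
    rw [mul_one]
  · exact Or.inl (clf_n hn)

theorem Par.Ok.isSquare_iff (h : A.Ok) (x : Pc A.n 1) : IsSquare x ↔ gcl A.p x = 1 := by
  have hn := h.good
  have hd : A.p ∣ A.n := dvd_mul_right _ _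
  have h1 : ∀ x : Pc A.n 1, IsSquare x → gcl A.p x = 1 := by
    rintro _ ⟨y, rfl⟩
    rw [gcl_mul hn h.pp hd]
    rcases gcl_or hn h.pp hd y with e | e <;> rw [e] <;> rfl
  refine ⟨h1 x, fun hx => by_contra fun h2 => ?_⟩
  have := finite_Pc hn.mod4 (good_ok hn).gt 1
  have h3 : (powMonoidHom 2 : Pc A.n 1 →* Pc A.n 1).range.index = 2 := by
    rw [Subgroup.index_range, ← SetLike.coe_sort_coe, Nat.card_coe_set_eq]
    refine Eq.trans (congrArg Set.ncard (Set.ext fun y => ?_)) (Set.ncard_pair h.ram_ne_one.symm)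
    exact h.sq_eq_one y
  have h4 : ∀ z : Pc A.n 1, z ∈ (powMonoidHom 2 : Pc A.n 1 →* Pc A.n 1).range ↔ IsSquare z :=
    fun z => by simp [isSquare_iff_exists_sq, eq_comm]
  obtain ⟨y, hy⟩ := h.exists_gcl
  have h5 := h1 _ ((h4 _).1 ((Subgroup.mul_mem_iff_of_index_two h3 (a := x) (b := y)).2 (by
    rw [h4, h4]
    exact iff_of_false h2 fun e => by rw [h1 y e] at hy; omega)))
  rw [gcl_mul hn h.pp hd, hx, hy] at h5
  omega

theorem Par.Ok.sum_sq [Fintype (Pc A.n 1)] (h : A.Ok) (F : Pc A.n 1 → ℤ) (d : Pc A.n 1) :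
    ∑ y, F (d * y ^ 2) = ∑ z, (1 + gcl A.p d * gcl A.p z) * F z := by
  have hn := h.good
  have hd : A.p ∣ A.n := dvd_mul_right _ _
  rw [← sum_fiberwise' univ (fun y => d * y ^ 2) F]
  refine sum_congr rfl fun z _ => ?_
  rw [sum_const, nsmul_eq_mul, ← gcl_inv hn h.pp hd d, ← gcl_mul hn h.pp hd]
  congr 1
  rcases gcl_or hn h.pp hd (d⁻¹ * z) with e | e
  · obtain ⟨w, hw⟩ := isSquare_iff_exists_sq _ |>.1 ((h.isSquare_iff _).2 e)
    have e1 : univ.filter (fun y => d * y ^ 2 = z) =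
        {w, w * cl (Oc A.n 1) (idl A.n 1 A.p A.p)} := by
      ext y
      rw [mem_filter_univ, ← eq_inv_mul_iff_mul_eq, hw, mem_insert, mem_singleton,
        eq_comm, ← inv_mul_eq_one, ← inv_pow, ← mul_pow, h.sq_eq_one, inv_mul_eq_one,
        inv_mul_eq_iff_eq_mul, eq_comm]
    rw [e, e1, card_pair (by simpa using h.ram_ne_one)]
    rfl
  · rw [e, filter_eq_empty_iff.2 fun y _ hy => by
      rw [(h.isSquare_iff _).1 ⟨y, by rw [← hy, inv_mul_cancel_left, sq]⟩] at e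
      omega]
    rfl

end Pool.Agent.Dih
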