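import Pool.Agent.Lib.MP_60ff09_nt.Dih.CLb

/-! Matrices as pairs of numbers. -/

set_option autoImplicit false

open Complex Filter Topology Finset NumberTheorySymbols
open scoped Real ComplexConjugate Classical
open Pool.Agent.Lib.MP_696deb_nt Pool.Agent.Lib.MP_696deb_nt.B2.CM

namespace Pool.Agent.Dih

variable {n : ℕ} {r : ℤ} {Q R : Fm} {I J : Lt}

private theorem ct_hom2 {x : ℂ × ℂ} {p q : ℂ} : hom2 x (sp2 p q) J ↔
    x.1 * p + x.2 * conj p ∈ J ∧ x.1 * q + x.2 * conj q ∈ J := by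
  refine ⟨fun h => ⟨h _ (left_mem_sp2 p q), h _ (right_mem_sp2 p q)⟩, fun h z hz => ?_⟩
  obtain ⟨u, v, rfl⟩ := mem_sp2.1 hz
  have e : x.1 * (u * p + v * q) + x.2 * conj (u * p + v * q) =
      u * (x.1 * p + x.2 * conj p) + v * (x.1 * q + x.2 * conj q) := by
    simp only [map_add, map_mul, map_intCast]
    ring
  rw [e]
  exact J.add_mem (int_mul_mem h.1 u) (int_mul_mem h.2 v)

/-- The pair of numbers attached to a matrix. -/
private noncomputable def ctF (d : ℂ) (Q R : Fm) (γ : ℤ × ℤ × ℤ × ℤ) : ℂ × ℂ :=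
  ((γ.2.1 * R.1 + γ.2.2.2 * ((R.2.1 + d) / 2) -
      (Q.2.1 - d) / 2 * (γ.1 * R.1 + γ.2.2.1 * (15 * ((R.2.1 + d) / 2))) / Q.1) / d,
    ((Q.2.1 + d) / 2 * (γ.1 * R.1 + γ.2.2.1 * (15 * ((R.2.1 + d) / 2))) / Q.1 -
      (γ.2.1 * R.1 + γ.2.2.2 * ((R.2.1 + d) / 2))) / d)

private theorem ctF_iff (hd : dl n ≠ 0) (h1 : (Q.1 : ℂ) ≠ 0) {γ : ℤ × ℤ × ℤ × ℤ} {x : ℂ × ℂ} :
    ctF (dl n) Q R γ = x ↔
      x.1 * Q.1 + x.2 * Q.1 = γ.1 * R.1 + γ.2.2.1 * (15 * be n 1 R.2.1) ∧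
      x.1 * be n 1 Q.2.1 + x.2 * conj (be n 1 Q.2.1) = γ.2.1 * R.1 + γ.2.2.2 * be n 1 R.2.1 := by
  simp only [be, map_div₀, map_add, map_intCast, map_ofNat, conj_dl, Nat.cast_one, one_mul]
  constructor
  · rintro rfl
    simp only [ctF]
    constructor <;> field_simp <;> ring
  · rintro ⟨e1, e2⟩
    simp only [ctF, ← e1, ← e2]
    refine Prod.ext ?_ ?_ <;> field_simp <;> ring

private theorem ctF_norm (hd : dl n ≠ 0) (hQ : fdisc Q = -n) (hR : fdisc R = -n)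
    (h1 : (Q.1 : ℂ) ≠ 0) (h2 : (R.1 : ℂ) ≠ 0) (γ : ℤ × ℤ × ℤ × ℤ) :
    normSq (ctF (dl n) Q R γ).1 - normSq (ctF (dl n) Q R γ).2 =
      (γ.1 * γ.2.2.2 - γ.2.1 * (15 * γ.2.2.1) : ℤ) * (R.1 / Q.1 : ℝ) ∧
    n * (normSq (ctF (dl n) Q R γ).1 + normSq (ctF (dl n) Q R γ).2) =
      -(fbil Q (fmap R γ.1 γ.2.1 (15 * γ.2.2.1) γ.2.2.2) : ℤ) * (R.1 / Q.1 : ℝ) := by
  have e0 : (n : ℂ) = -dl n ^ 2 := by rw [dl_sq, neg_neg]
  have e1 : (Q.2.2 : ℂ) = (Q.2.1 ^ 2 - dl n ^ 2) / (4 * Q.1) := by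
    have h : (Q.2.1 : ℂ) ^ 2 - 4 * Q.1 * Q.2.2 = -n := by exact_mod_cast hQ
    field_simp
    linear_combination dl_sq n - h
  have e2 : (R.2.2 : ℂ) = (R.2.1 ^ 2 - dl n ^ 2) / (4 * R.1) := by
    have h : (R.2.1 : ℂ) ^ 2 - 4 * R.1 * R.2.2 = -n := by exact_mod_cast hR
    field_simp
    linear_combination dl_sq n - h
  constructor <;> apply ofReal_injective
  · push_cast
    rw [← mul_conj, ← mul_conj]
    simp only [ctF, map_div₀, map_add, map_sub, map_mul, map_intCast, map_ofNat, conj_dl]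
    field_simp
    ring
  · simp only [fbil, fmap, fval]
    push_cast
    rw [e0, e1, e2, ← mul_conj, ← mul_conj]
    simp only [ctF, map_div₀, map_add, map_sub, map_mul, map_intCast, map_ofNat, conj_dl]
    field_simp
    ring

theorem cntG_eq_cntH (hn : Good n) (hQ : IsHg (-n) r Q) (hR : IsHg (-n) r R) (M t : ℤ) :
    cntG Q R M t = cntH n r (fid n Q) (fid n R) (R.1 / Q.1) M t := by
  have hn0 : 0 < n := by have := hn.mod4; omega
  have hd : dl n ≠ 0 := fun h => by simpa [h] using dl_im hn0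
  have h1 : (Q.1 : ℂ) ≠ 0 := Int.cast_ne_zero.2 hQ.pos.ne'
  have h2 : (R.1 : ℂ) ≠ 0 := Int.cast_ne_zero.2 hR.pos.ne'
  have hρ : (R.1 / Q.1 : ℝ) ≠ 0 :=
    div_ne_zero (Int.cast_ne_zero.2 hR.pos.ne') (Int.cast_ne_zero.2 hQ.pos.ne')
  have inj : Function.Injective (ctF (dl n) Q R) := by
    rintro ⟨A, B, C, D⟩ ⟨A', B', C', D'⟩ e
    obtain ⟨e1, e2⟩ := (ctF_iff hd h1).1 e
    obtain ⟨e3, e4⟩ := (ctF_iff (R := R) (γ := (A', B', C', D')) hd h1).1 rfl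
    have k1 := be_indep (b := R.2.1) hn0 one_ne_zero (x := (A - A') * R.1) (y := 15 * (C - C'))
      (by push_cast; linear_combination e3 - e1)
    have k2 := be_indep (b := R.2.1) hn0 one_ne_zero (x := (B - B') * R.1) (y := D - D')
      (by push_cast; linear_combination e4 - e2)
    have k3 := (mul_eq_zero.1 k1.1).resolve_right hR.pos.ne'
    have k4 := (mul_eq_zero.1 k2.1).resolve_right hR.pos.ne'
    obtain ⟨rfl, rfl, rfl, rfl⟩ : A = A' ∧ B = B' ∧ C = C' ∧ D = D' := by omega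
    rfl
  rw [cntG, cntH, ← Set.ncard_image_of_injective _ inj, nbar_mul_fid hn hQ, nbar_mul_fid hn hR]
  refine congrArg Set.ncard (Set.ext fun x => ?_)
  simp only [Set.mem_image, Set.mem_ofPred_eq, fid, idl, ct_hom2, map_mul, map_ofNat, map_intCast]
  constructor
  · rintro ⟨γ, ⟨g1, g2⟩, e⟩
    obtain ⟨e1, e2⟩ := (ctF_iff hd h1).1 e
    obtain ⟨k1, k2⟩ := ctF_norm hd hQ.disc hR.disc h1 h2 γ
    rw [e, g1] at k1
    rw [e, g2, Int.cast_neg, neg_neg] at k2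
    exact ⟨⟨mem_sp2.2 ⟨γ.1, 15 * γ.2.2.1, by push_cast; linear_combination e1⟩,
      mem_sp2.2 ⟨_, _, e2⟩⟩, ⟨mem_sp2.2 ⟨_, _, e1⟩, mem_sp2.2 ⟨15 * γ.2.1, γ.2.2.2, by
        push_cast; linear_combination 15 * e2⟩⟩, k1, k2⟩
  · rintro ⟨⟨-, g2⟩, ⟨g1, -⟩, g3, g4⟩
    obtain ⟨A, C, e1⟩ := mem_sp2.1 g1
    obtain ⟨B, D, e2⟩ := mem_sp2.1 g2
    have e : ctF (dl n) Q R (A, B, C, D) = x := (ctF_iff hd h1).2 ⟨e1, e2⟩
    obtain ⟨k1, k2⟩ := ctF_norm hd hQ.disc hR.disc h1 h2 (A, B, C, D)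
    rw [e, g3] at k1
    rw [e, g4] at k2
    refine ⟨_, ⟨?_, ?_⟩, e⟩
    · exact_mod_cast (mul_right_cancel₀ hρ k1).symm
    · exact neg_eq_iff_eq_neg.1 (by exact_mod_cast (mul_right_cancel₀ hρ k2).symm)

theorem cntH_sc {a b : ℂ} (ha : a ≠ 0) (hb : b ≠ 0) (ρ : ℝ) (M t : ℤ) :
    cntH n r (sc a I) (sc b J) (ρ * normSq b / normSq a) M t = cntH n r I J ρ M t := by
  have ha' : conj a ≠ 0 := (map_ne_zero _).2 ha
  have na : normSq a ≠ 0 := (map_ne_zero _).2 ha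
  have nb : normSq b ≠ 0 := (map_ne_zero _).2 hb
  let e : ℂ × ℂ ≃ ℂ × ℂ := (Equiv.mulLeft₀ (b / a) (div_ne_zero hb ha)).prodCongr
    (Equiv.mulLeft₀ (b / conj a) (div_ne_zero hb ha'))
  have e1 : ∀ x, (e x).1 = b / a * x.1 := fun _ => rfl
  have e2 : ∀ x, (e x).2 = b / conj a * x.2 := fun _ => rfl
  have h1 : ∀ (x : ℂ × ℂ) (I J : Lt), hom2 (e x) (sc a I) (sc b J) ↔ hom2 x I J := by
    intro x I J
    have k : ∀ z, (e x).1 * (a * z) + (e x).2 * conj (a * z) = b * (x.1 * z + x.2 * conj z) := by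
      intro z
      rw [e1, e2, map_mul]
      field_simp
    refine ⟨fun h z hz => (mul_mem_sc hb).1 (k z ▸ h _ ((mul_mem_sc ha).2 hz)), fun h z hz => ?_⟩
    obtain ⟨y, hy, rfl⟩ := mem_sc.1 hz
    exact k y ▸ (mul_mem_sc hb).2 (h y hy)
  rw [cntH, cntH, ← Set.ncard_image_of_injective _ e.symm.injective, e.image_symm_eq_preimage]
  refine congrArg Set.ncard (Set.ext fun x => ?_)
  simp only [Set.mem_preimage, Set.mem_ofPred_eq, mul_sc, h1, e1, e2, map_mul, map_div₀,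
    normSq_conj]
  have hc : normSq b / normSq a ≠ 0 := div_ne_zero nb na
  refine and_congr_right' (and_congr_right' (and_congr ?_ ?_))
  · rw [← mul_sub, mul_div_assoc, ← mul_assoc, mul_comm, mul_left_inj' hc]
  · rw [← mul_add, mul_div_assoc, ← mul_assoc (t : ℝ), mul_comm (normSq b / normSq a), ← mul_assoc,
      mul_left_inj' hc]

theorem cntH_congr (hn : Good n) {I' J' : Lt} {a b a' b' : ℝ} (hI : IsNm n I a) (hJ : IsNm n J b)
    (hI' : IsNm n I' a') (hJ' : IsNm n J' b') (e : cl (Oc n 1) I = cl (Oc n 1) I')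
    (e' : cl (Oc n 1) J = cl (Oc n 1) J') (M t : ℤ) :
    cntH n r I J (b / a) M t = cntH n r I' J' (b' / a') M t := by
  obtain ⟨u, hu, rfl⟩ := (cl_eq_iff hI.iv hI'.iv).1 e
  obtain ⟨v, hv, rfl⟩ := (cl_eq_iff hJ.iv hJ'.iv).1 e'
  rw [hI'.unique (hI.sc' hu) hn, hJ'.unique (hJ.sc' hv) hn, ← cntH_sc hu hv]
  congr 1
  have := hI.pos.ne'
  have : normSq u ≠ 0 := (map_ne_zero _).2 hu
  field_simp

end Pool.Agent.Dih
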