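import Pool.Agent.Lib.MP_60ff09_nt.Dih.CTa

/-! Reduction to pairs of integers of the quadratic field. -/

set_option autoImplicit false

open Complex Filter Topology Finset NumberTheorySymbols
open scoped Real ComplexConjugate Classical
open Pool.Agent.Lib.MP_696deb_nt Pool.Agent.Lib.MP_696deb_nt.B2.CM

namespace Pool.Agent.Dih

variable {n : ℕ} {r : ℤ} {Q R : Fm}

private theorem ctb_eq (h : fdisc Q = -n) : Q.2.1 ^ 2 + n = 4 * Q.1 * Q.2.2 := by
  unfold fdisc at h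
  linear_combination h

private theorem ctb_le (hn : Good n) {m b k : ℤ} (h : b ^ 2 + n = 4 * m * k) :
    idl n 1 m b ≤ ot (Oc n 1) := idl_le (k := k) hn.mod4 (by simpa using h)

private theorem ctb_mul_le {A : Subalgebra ℤ ℂ} {I J : Lt} (hI : I ≤ ot A) (hJ : J ≤ ot A) :
    I * J ≤ ot A := Submodule.mul_le.2 fun _ a _ b => A.mul_mem (hI a) (hJ b)

private theorem ctb_absorb {A : Subalgebra ℤ ℂ} {I J : Lt} (hI : I ≤ ot A) (hJ : IsIv A J) :
    I * J ≤ J := Submodule.mul_le.2 fun _ a _ b => hJ.mul_mem (hI a) b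

private theorem ctb_conj (hn : Good n) {z : ℂ} (hz : z ∈ Oc n 1) : conj z ∈ Oc n 1 := by
  rw [← mem_ot, ← mem_cjl, cjl_ot hn]
  exact hz

private theorem ctb_sub (hn : Good n) {z : ℂ} (hz : z ∈ Oc n 1) :
    ∃ y : ℤ, conj z - z = y * dl n := by
  obtain ⟨x, y, -, rfl⟩ := (mem_Oc hn.mod4).1 hz
  refine ⟨-y, ?_⟩
  rw [cma_conj]
  simp only [el, be]
  push_cast
  ring

private theorem ctb_dl (hn : Good n) : dl n ≠ 0 := fun e => by
  have := dl_im (n := n) (by have := hn.mod4; omega)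
  simp [e] at this

private theorem ctb_nsq (n : ℕ) : normSq (dl n) = n := by
  have h : ((normSq (dl n) : ℝ) : ℂ) = n := by
    rw [normSq_eq_conj_mul_self, conj_dl]
    linear_combination -dl_sq n
  exact_mod_cast h

private theorem ctb_cj (n : ℕ) (b : ℤ) : conj (be n 1 b) = -be n 1 (-b) := by
  simp only [be, map_add, map_mul, map_div₀, map_intCast, map_natCast, map_ofNat, conj_dl]
  push_cast
  ring

private theorem ctb_bez (hn : Good n) {J : Lt} (hJ : IsIv (Oc n 1) J) {x : ℂ} {a b : ℤ}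
    (h1 : dl n * x ∈ J) (h2 : a * x ∈ Oc n 1) (h3 : (b : ℂ) ∈ J) (hc : IsCoprime (a * b) n) :
    x ∈ J := by
  obtain ⟨s, t, e⟩ := hc
  have e' : (s : ℂ) * (a * b) + t * n = 1 := by exact_mod_cast e
  have h4 := J.add_mem (int_mul_mem (hJ.mul_mem h2 h3) s)
    (int_mul_mem (hJ.mul_mem (dl_mem hn) h1) (-t))
  convert h4 using 1
  push_cast
  linear_combination -x * e' + t * x * dl_sq n

private theorem ctb_two (hn : Good n) {I J : Lt} (hI : IsIv (Oc n 1) I) (hJ : IsIv (Oc n 1) J)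
    {x : ℂ × ℂ} (h : hom2 x I J) {z : ℂ} (hz : z ∈ I) :
    dl n * x.1 * z ∈ J ∧ dl n * x.2 * conj z ∈ J := by
  have hw : be n 1 1 ∈ Oc n 1 := be_mem hn.mod4 (by simp)
  have h1 := h _ (hI.mul_mem hw hz)
  have h2 := h z hz
  have e : conj (be n 1 1) = be n 1 1 - dl n := by
    rw [ctb_cj]
    simp only [be]
    push_cast
    ring
  constructor
  · convert J.sub_mem h1 (hJ.mul_mem (ctb_conj hn hw) h2) using 1
    rw [map_mul, e]
    ring
  · convert J.sub_mem (hJ.mul_mem hw h2) h1 using 1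
    rw [map_mul, e]
    ring

private theorem ctb_key (hn : Good n) (hr : 60 ∣ r ^ 2 + n) {c b : Lt} {m0 m : ℤ}
    (hc : IsNm n c m0) (hb : IsNm n b m) (lc : c ≤ ot (Oc n 1)) (lb : b ≤ ot (Oc n 1))
    (mc : (m0 : ℂ) ∈ c) (mb : (m : ℂ) ∈ b) (c0 : IsCoprime m0 n) (c1 : IsCoprime m n) (x : ℂ × ℂ) :
    hom2 x (c * b) b ∧ hom2 x (idl n 1 15 (-r) * (c * b)) (idl n 1 15 (-r) * b) ↔
      m0 * dl n * x.1 ∈ cjl c ∧ m0 * m * dl n * x.2 ∈ idl n 1 15 (-r) * c * (b * b) ∧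
        (n : ℤ) ∣ m * trc (m0 * dl n * x.1) + trc (m0 * m * dl n * x.2) := by
  obtain ⟨k, hk⟩ := hr
  have k1 : (-r) ^ 2 + n = 4 * 15 * k := by linear_combination hk
  have hN := isNm_idl hn k1 (by norm_num)
  have lN := ctb_le hn k1
  set N := idl n 1 15 (-r) with eN
  have m15 : ((15 : ℤ) : ℂ) ∈ N := left_mem_sp2 _ _
  have hcb := hc.mul' hb
  have hNb := hN.iv.mul hb.iv
  have hcc := hc.cj hn
  have lcc : cjl c ≤ ot (Oc n 1) := fun z hz => by
    simpa [mem_ot] using ctb_conj hn (lc (mem_cjl.1 hz))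
  have lcb := ctb_mul_le lc lb
  have lv : N * c * (b * b) ≤ ot (Oc n 1) := ctb_mul_le (ctb_mul_le lN lc) (ctb_mul_le lb lb)
  have m00 : (m0 : ℂ) ≠ 0 := by exact_mod_cast hc.pos.ne'
  have m10 : (m : ℂ) ≠ 0 := by exact_mod_cast hb.pos.ne'
  have e1 : cjl (c * b) * b = sc m (cjl c) := by
    rw [cjl, mp_mul, mul_assoc, mul_comm _ b, hb.mul, mul_sc, hcc.iv.1, ofReal_intCast]
  have e2 : cjl (cjl (c * b)) * (N * b) = N * c * (b * b) := by
    rw [cjl_cjl]
    ac_rfl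
  have tr : ∀ u ∈ cjl c, ∀ v ∈ N * c * (b * b),
      ((n : ℤ) ∣ m * trc u + trc v ↔ ∃ z ∈ Oc n 1, m * u + v = dl n * z) := fun u hu v hv => by
    have h := trc_add hn (lcc hu) (lv hv) m 1
    rw [Int.cast_one, one_mul, one_mul] at h
    rw [← h]
    exact dvd_trc_iff hn (add_mem (mul_mem (intCast_mem _ m) (lcc hu)) (lv hv))
  have n15 : IsCoprime (15 : ℤ) n := by
    exact_mod_cast Nat.isCoprime_iff_coprime.2 hn.cop.symm
  constructor
  · rintro ⟨h1, h2⟩
    have hu : m0 * dl n * x.1 ∈ cjl c := by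
      have h := (hcb.mul_mem_iff (a := dl n * x.1) hb.iv).1
        fun z hz => (ctb_two hn hcb.iv hb.iv h1 hz).1
      rw [e1] at h
      refine (mul_mem_sc m10).1 ?_
      convert h using 1
      push_cast
      ring
    have hv : m0 * m * dl n * x.2 ∈ N * c * (b * b) := by
      have h := ((hcb.cj hn).mul_mem_iff (a := dl n * x.2) hNb).1 fun z hz => by
        have hz' := mem_cjl.1 hz
        have a1 := (ctb_two hn hcb.iv hb.iv h1 hz').2
        have a2 := (ctb_two hn (hN.iv.mul hcb.iv) hNb h2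
          (Submodule.mul_mem_mul (right_mem_sp2 _ _) hz')).2
        rw [map_mul, ctb_cj, neg_neg, conj_conj] at a2
        rw [conj_conj] at a1
        obtain ⟨s, t, e⟩ := n15
        have e' : ((15 * s + 60 * k * t : ℤ) : ℂ) - t * r * r = 1 := by
          exact_mod_cast (by linear_combination e - t * hk : 15 * s + 60 * k * t - t * r * r = 1)
        have a3 := Submodule.mul_mem_mul m15 a1
        have a4 := Submodule.mul_mem_mul (right_mem_sp2 ((15 : ℤ) : ℂ) (be n 1 (-r))) a1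
        have a5 := (N * b).add_mem (int_mul_mem a3 (s + 4 * k * t))
          (int_mul_mem ((N * b).add_mem a2 a4) (t * r))
        convert a5 using 1
        push_cast at e' ⊢
        linear_combination (dl n * x.2 * z) * (t * r * be_sub n 1 r - e')
      rw [e2] at h
      convert h using 1
      push_cast
      ring
    refine ⟨hu, hv, (tr _ hu _ hv).2 ⟨_, lb (h1 _ (Submodule.mul_mem_mul mc mb)), ?_⟩⟩
    simp only [map_mul, map_intCast]
    ring
  · rintro ⟨hu, hv, ht⟩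
    obtain ⟨y, hy, ey⟩ := (tr _ hu _ hv).1 ht
    have hO : ∀ z ∈ c * b, (m0 * m : ℤ) * (x.1 * z + x.2 * conj z) ∈ Oc n 1 := fun z hz => by
      obtain ⟨j, hj⟩ := ctb_sub hn (lcb hz)
      have h := add_mem (mul_mem hy (lcb hz)) (mul_mem (intCast_mem _ j) (lv hv))
      convert h using 1
      refine mul_left_cancel₀ (ctb_dl hn) ?_
      push_cast
      linear_combination z * ey + m0 * m * dl n * x.2 * hj
    have hV : ∀ z ∈ c * b, m0 * (dl n * x.2 * conj z) ∈ sc m0 (N * b) := fun z hz => by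
      refine (mul_mem_sc m00).2 (((hcb.cj hn).mul_mem_iff (a := dl n * x.2) hNb).2 ?_ _
        (mem_cjl.2 (by rwa [conj_conj])))
      rw [e2]
      convert hv using 1
      push_cast
      ring
    have hU : ∀ J : Lt, IsIv (Oc n 1) J → ∀ z ∈ c * J, dl n * x.1 * z ∈ J := fun J hJ z hz => by
      have h := Submodule.mul_mem_mul hu hz
      rw [← mul_assoc, mul_comm _ c, hc.mul, sc_mul, mul_comm _ J, hJ.1, ofReal_intCast,
        mul_assoc, mul_assoc, mul_mem_sc m00] at h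
      rwa [mul_assoc]
    constructor
    · intro z hz
      refine ctb_bez hn hb.iv ?_ (hO z hz) mb ((c0.mul_left c1).mul_left c1)
      convert b.add_mem (hU b hb.iv z hz)
        (ctb_absorb lN hb.iv ((mul_mem_sc m00).1 (hV z hz))) using 1
      ring
    · intro z hz
      have hz' := ctb_absorb lN hcb.iv hz
      refine ctb_bez hn hNb (b := 15 * m) ?_ (hO z hz')
        (by simpa using Submodule.mul_mem_mul m15 mb) ((c0.mul_left c1).mul_left (n15.mul_left c1))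
      convert (N * b).add_mem (hU _ hNb z (by rwa [mul_left_comm]))
        ((mul_mem_sc m00).1 (hV z hz')) using 1
      ring

theorem cntH_eq (hn : Good n) (hr : 60 ∣ r ^ 2 + n) (hQ : fdisc Q = -n) (hQ0 : 0 < Q.1)
    (hQ1 : IsCoprime Q.1 n) (hR : fdisc R = -n) (hR0 : 0 < R.1) (hR1 : IsCoprime R.1 n) (M t : ℤ) :
    cntH n r (fid n Q * fid n R) (fid n R) (1 / Q.1) M t =
      {x : ℂ × ℂ | x.1 ∈ cjl (fid n Q) ∧ x.2 ∈ idl n 1 15 (-r) * fid n Q * (fid n R * fid n R) ∧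
        R.1 ^ 2 * normSq x.1 - normSq x.2 = Q.1 * R.1 ^ 2 * (n * M) ∧
        R.1 ^ 2 * normSq x.1 + normSq x.2 = Q.1 * R.1 ^ 2 * t ∧
        (n : ℤ) ∣ R.1 * trc x.1 + trc x.2}.ncard := by
  have key := ctb_key hn hr (isNm_fid hn hQ hQ0) (isNm_fid hn hR hR0) (ctb_le hn (ctb_eq hQ))
    (ctb_le hn (ctb_eq hR)) (left_mem_sp2 _ _) (left_mem_sp2 _ _) hQ1 hR1
  have q0 : (Q.1 : ℝ) ≠ 0 := by exact_mod_cast hQ0.ne'
  have r0 : (R.1 : ℝ) ≠ 0 := by exact_mod_cast hR0.ne'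
  have n0 : (n : ℝ) ≠ 0 := by
    have := hn.mod4
    exact_mod_cast (by omega : n ≠ 0)
  have a0 : Q.1 * dl n ≠ 0 := mul_ne_zero (by exact_mod_cast hQ0.ne') (ctb_dl hn)
  have b0 : Q.1 * R.1 * dl n ≠ 0 :=
    mul_ne_zero (mul_ne_zero (by exact_mod_cast hQ0.ne') (by exact_mod_cast hR0.ne')) (ctb_dl hn)
  have hf : Function.Bijective fun x : ℂ × ℂ => (Q.1 * dl n * x.1, Q.1 * R.1 * dl n * x.2) :=
    (mulLeft_bijective₀ _ a0).prodMap (mulLeft_bijective₀ _ b0)
  refine Eq.trans ?_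
    (Set.ncard_preimage_of_injective_subset_range hf.1 (hf.2.range_eq ▸ Set.subset_univ _))
  rw [cntH]
  congr 1
  ext x
  have k := key x
  have e1 : normSq x.1 - normSq x.2 = M * (1 / Q.1 : ℝ) ↔
      R.1 ^ 2 * normSq (Q.1 * dl n * x.1) - normSq (Q.1 * R.1 * dl n * x.2) =
        Q.1 * R.1 ^ 2 * (n * M) := by
    simp only [map_mul, normSq_intCast, ctb_nsq]
    rw [mul_one_div, eq_div_iff q0,
      ← mul_right_inj' (mul_ne_zero q0 (mul_ne_zero n0 (pow_ne_zero 2 r0)))]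
    constructor <;> intro h <;> linear_combination h
  have e2 : n * (normSq x.1 + normSq x.2) = t * (1 / Q.1 : ℝ) ↔
      R.1 ^ 2 * normSq (Q.1 * dl n * x.1) + normSq (Q.1 * R.1 * dl n * x.2) =
        Q.1 * R.1 ^ 2 * t := by
    simp only [map_mul, normSq_intCast, ctb_nsq]
    rw [mul_one_div, eq_div_iff q0, ← mul_right_inj' (mul_ne_zero q0 (pow_ne_zero 2 r0))]
    constructor <;> intro h <;> linear_combination h
  simp only [Set.mem_ofPred_eq, Set.mem_preimage]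
  rw [e1, e2]
  tauto

private theorem ctb_cntG (hn : Good n) {e : Pc n 1 → Fm} (he : HFam n r e)
    (c y : Pc n 1) (M t : ℤ) : cntG (e (c * y)) (e y) M t =
      cntH n r (fid n (cfm n c) * fid n (cfm n y)) (fid n (cfm n y)) (1 / (cfm n c).1) M t := by
  obtain ⟨c1, c2, -, c4⟩ := cfm_spec hn c
  obtain ⟨y1, y2, -, y4⟩ := cfm_spec hn y
  have hc := isNm_fid hn c1 c2
  have hy := isNm_fid hn y1 y2
  rw [cntG_eq_cntH hn (he _).1 (he _).1, cntH_congr hn (isNm_fid hn (he _).1.disc (he _).1.pos)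
    (isNm_fid hn (he _).1.disc (he _).1.pos) (hc.mul' hy) hy
    ((he _).2.trans (by rw [cl_mul hc.iv hy.iv]; exact congrArg₂ _ c4.symm y4.symm))
    ((he _).2.trans y4.symm), div_mul_cancel_right₀ hy.pos.ne', one_div]

private theorem ctb_N (hn : Good n) (hr : 60 ∣ r ^ 2 + n) (c y : Pc n 1) :
    IsNm n (idl n 1 15 (-r) * fid n (cfm n c) * (fid n (cfm n y) * fid n (cfm n y)))
      (15 * (cfm n c).1 * (cfm n y).1 ^ 2 : ℤ) := by
  obtain ⟨c1, c2, -, -⟩ := cfm_spec hn c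
  obtain ⟨y1, y2, -, -⟩ := cfm_spec hn y
  obtain ⟨k, hk⟩ := hr
  have hy := isNm_fid hn y1 y2
  convert ((isNm_idl hn (m := 15) (b := -r) (k := k) (by linear_combination hk) (by norm_num)).mul'
    (isNm_fid hn c1 c2)).mul' (hy.mul' hy) using 1
  push_cast
  ring

/-- The count as a sum over the first number. -/
theorem cntG_eq_sum (hn : Good n) (hr : 60 ∣ r ^ 2 + n) {e : Pc n 1 → Fm} (he : HFam n r e)
    (c y : Pc n 1) (M k : ℤ) :
    cntG (e (c * y)) (e y) M (M * n + 30 * k) =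
      ∑ᶠ u ∈ {u : ℂ | u ∈ cjl (fid n (cfm n c)) ∧ normSq u = (M * n + 15 * k : ℤ) * (cfm n c).1},
        {v : ℂ | v ∈ idl n 1 15 (-r) * fid n (cfm n c) * (fid n (cfm n y) * fid n (cfm n y)) ∧
          normSq v = k * (15 * (cfm n c).1 * (cfm n y).1 ^ 2 : ℤ) ∧
          (n : ℤ) ∣ (cfm n y).1 * trc u + trc v}.ncard := by
  obtain ⟨c1, c2, c3, -⟩ := cfm_spec hn c
  obtain ⟨y1, y2, y3, -⟩ := cfm_spec hn y
  have r0 : ((cfm n y).1 : ℝ) ^ 2 ≠ 0 := pow_ne_zero 2 (by exact_mod_cast y2.ne')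
  rw [ctb_cntG hn he, cntH_eq hn hr c1 c2 c3.of_mul_right_right y1 y2 y3.of_mul_right_right,
    finsum_mem_congr rfl fun u _ =>
      (Set.ncard_image_of_injective _ (Prod.mk_right_injective u)).symm,
    ← (((isNm_fid hn c1 c2).cj hn).finite hn _).ncard_biUnion
      (fun u _ => (((ctb_N hn hr c y).finite hn _).subset fun v hv => ⟨hv.1, hv.2.1⟩).image _)
      (fun u _ u' _ h => Set.disjoint_left.2 (by
        rintro _ ⟨v, -, rfl⟩ ⟨v', -, e⟩
        exact h (congrArg Prod.fst e).symm))]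
  congr 1
  ext ⟨u, v⟩
  simp only [Set.mem_ofPred_eq, Set.mem_iUnion, Set.mem_image, Prod.mk.injEq, exists_prop]
  simp only [Int.cast_add, Int.cast_mul, Int.cast_pow, Int.cast_ofNat, Int.cast_natCast]
  constructor
  · rintro ⟨h1, h2, h3, h4, h5⟩
    exact ⟨u, ⟨h1, mul_left_cancel₀ r0 (by linear_combination (h3 + h4) / 2)⟩, v,
      ⟨h2, by linear_combination (h4 - h3) / 2, h5⟩, rfl, rfl⟩
  · rintro ⟨_, ⟨h1, h2⟩, _, ⟨h3, h4, h5⟩, rfl, rfl⟩
    exact ⟨h1, h3, by linear_combination ((cfm n y).1 : ℝ) ^ 2 * h2 - h4,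
      by linear_combination ((cfm n y).1 : ℝ) ^ 2 * h2 + h4, h5⟩

/-- Only the values `M n + 30 k` occur. -/
theorem exists_of_cntG (hn : Good n) (hr : 60 ∣ r ^ 2 + n) {e : Pc n 1 → Fm} (he : HFam n r e)
    {c y : Pc n 1} {M t : ℤ} (h : cntG (e (c * y)) (e y) M t ≠ 0) :
    ∃ k : ℕ, t = M * n + 30 * k ∧ rcl n c (M * n + 15 * k) ≠ 0 := by
  obtain ⟨c1, c2, c3, c4⟩ := cfm_spec hn c
  obtain ⟨y1, y2, y3, -⟩ := cfm_spec hn y
  have r0 : ((cfm n y).1 : ℝ) ^ 2 ≠ 0 := pow_ne_zero 2 (by exact_mod_cast y2.ne')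
  have q0 : ((cfm n c).1 : ℝ) ≠ 0 := by exact_mod_cast c2.ne'
  rw [ctb_cntG hn he, cntH_eq hn hr c1 c2 c3.of_mul_right_right y1 y2 y3.of_mul_right_right] at h
  obtain ⟨⟨u, v⟩, h1, h2, h3, h4, -⟩ := Set.nonempty_of_ncard_ne_zero h
  obtain ⟨k, hk⟩ := (ctb_N hn hr c y).exists_nat hn h2
  have hc := isNm_fid hn c1 c2
  have ht : (t : ℝ) = M * n + 30 * k := mul_left_cancel₀ (mul_ne_zero q0 r0) (by
    push_cast at hk
    linear_combination h3 - h4 + 2 * hk)
  refine ⟨k, by exact_mod_cast ht, ?_⟩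
  rw [← rcl_inv hn, ← c4, fcl, ← hc.cl_cj hn, (hc.cj hn).rcl_eq hn]
  refine Set.ncard_ne_zero_of_mem (a := u) ⟨h1, mul_left_cancel₀ r0 ?_⟩ ((hc.cj hn).finite hn _)
  rw [ht] at h4
  push_cast
  linear_combination (h3 + h4) / 2

end Pool.Agent.Dih
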