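import Pool.Agent.Lib.MP_60ff09_nt.Dih.CLf

/-! The symmetries of the congruence condition. -/

set_option autoImplicit false

open Complex Filter Topology Finset NumberTheorySymbols
open scoped Real ComplexConjugate Classical
open Pool.Agent.Lib.MP_696deb_nt Pool.Agent.Lib.MP_696deb_nt.B2.CM

namespace Pool.Agent.Dih

variable {A : Par} [Fintype (Pc A.n 1)] {I : Lt} {D : ℤ}

/-- The number of solutions with given signs. -/
noncomputable def cntS (A : Par) [Fintype (Pc A.n 1)] (I : Lt) (D k U V : ℤ) : ℕ :=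
  ∑ y : Pc A.n 1, {v : ℂ | v ∈ I * (fid A.n (cfm A.n y) * fid A.n (cfm A.n y)) ∧
    normSq v = k * (D * (cfm A.n y).1 ^ 2 : ℤ) ∧ (A.p : ℤ) ∣ (cfm A.n y).1 * U + trc v ∧
    (A.q : ℤ) ∣ (cfm A.n y).1 * V + trc v}.ncard

theorem ctc_fid {n : ℕ} (hn : Good n) (y : Pc n 1) : fid n (cfm n y) ≤ ot (Oc n 1) :=
  idl_le (k := (cfm n y).2.2) hn.mod4 (by
    have := (cfm_spec hn y).1
    rw [fdisc] at this
    push_cast
    linear_combination this)

theorem ctc_mul {n : ℕ} {I J : Lt} (hI : I ≤ ot (Oc n 1)) (hJ : J ≤ ot (Oc n 1)) :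
    I * J ≤ ot (Oc n 1) :=
  Submodule.mul_le.2 fun _ ha _ hb => (Oc n 1).mul_mem (hI ha) (hJ hb)

theorem ctc_le {n : ℕ} (hn : Good n) (hO : I ≤ ot (Oc n 1)) (y : Pc n 1) :
    I * (fid n (cfm n y) * fid n (cfm n y)) ≤ ot (Oc n 1) :=
  ctc_mul hO (ctc_mul (ctc_fid hn y) (ctc_fid hn y))

theorem ctc_nm {n : ℕ} (hn : Good n) (y : Pc n 1) : IsNm n (fid n (cfm n y)) (cfm n y).1 :=
  isNm_fid hn (cfm_spec hn y).1 (cfm_spec hn y).2.1

theorem ctc_ndvd {n : ℕ} (hn : Good n) {l : ℤ} (hl : Prime l) (hd : l ∣ n) (y : Pc n 1) :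
    ¬ l ∣ (cfm n y).1 := fun e =>
  hl.not_isUnit ((cfm_spec hn y).2.2.1.isUnit_of_dvd' e (hd.mul_left _))

omit [Fintype (Pc A.n 1)] in
theorem ctc_two (h : A.Ok) : ¬ (A.p : ℤ) ∣ 2 ∧ ¬ (A.q : ℤ) ∣ 2 ∧ ¬ (A.q : ℤ) ∣ A.p := by
  have p4 := h.p4
  have q4 := h.q4
  refine ⟨fun e => ?_, fun e => ?_, fun e => ?_⟩
  · have := (Nat.prime_dvd_prime_iff_eq h.pp Nat.prime_two).1 (by exact_mod_cast e)
    omega
  · have := (Nat.prime_dvd_prime_iff_eq h.qp Nat.prime_two).1 (by exact_mod_cast e)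
    omega
  · have := (Nat.prime_dvd_prime_iff_eq h.qp h.pp).1 (by exact_mod_cast e)
    omega

theorem ctc_arith {p q m m' X Y V Z V' Z' U W : ℤ} (hp : Prime p) (hq : Prime q) (p2 : ¬ p ∣ 2)
    (q2 : ¬ q ∣ 2) (qp : ¬ q ∣ p) (pm : ¬ p ∣ m) (pm' : ¬ p ∣ m') (qm : ¬ q ∣ m) (qm' : ¬ q ∣ m')
    (e0 : 4 * (p * m * m') = X ^ 2 + p * q * Y ^ 2)
    (e1 : m * (V' * X + p * q * Z' * Y) = m' * (X * V - p * q * Y * Z))
    (e2 : m * (Z' * X - V' * Y) = m' * (X * Z + Y * V)) (h1 : p ∣ m * U + V) (h2 : q ∣ m * W + V) :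
    p ∣ m' * -U + V' ∧ q ∣ m' * W + V' := by
  obtain ⟨x, rfl⟩ : p ∣ X :=
    hp.dvd_of_dvd_pow (n := 2) ⟨4 * m * m' - q * Y ^ 2, by linear_combination -e0⟩
  have e3 : 2 * (2 * (m * m')) = p * x ^ 2 + q * Y ^ 2 :=
    mul_left_cancel₀ hp.ne_zero (by linear_combination e0)
  have a1 : ¬ p ∣ Y := by
    rintro ⟨z, rfl⟩
    have : p ∣ 2 * (2 * (m * m')) := ⟨x ^ 2 + q * p * z ^ 2, by linear_combination e3⟩
    simp only [hp.dvd_mul, p2, pm, pm', or_self] at this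
  have a2 : ¬ q ∣ p * x := by
    rw [hq.dvd_mul]
    rintro (e | ⟨z, rfl⟩)
    · exact qp e
    have : q ∣ 2 * (2 * (m * m')) := ⟨p * q * z ^ 2 + Y ^ 2, by linear_combination e3⟩
    simp only [hq.dvd_mul, q2, qm, qm', or_self] at this
  obtain ⟨s, hs⟩ := (hp.dvd_or_dvd (a := Y) (b := m * V' + m' * V)
    ⟨m * Z' * x - m' * x * Z, by linear_combination -e2⟩).resolve_left a1
  obtain ⟨t, ht⟩ := (hq.dvd_or_dvd (a := p * x) (b := m * V' - m' * V)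
    ⟨-m * p * Z' * Y - m' * p * Y * Z, by linear_combination e1⟩).resolve_left a2
  obtain ⟨s', hs'⟩ := h1
  obtain ⟨t', ht'⟩ := h2
  exact ⟨(hp.dvd_or_dvd (a := m) ⟨s - m' * s', by
      linear_combination hs - m' * hs'⟩).resolve_left pm,
    (hq.dvd_or_dvd (a := m) ⟨t + m' * t', by linear_combination ht + m' * ht'⟩).resolve_left qm⟩

omit [Fintype (Pc A.n 1)] in
theorem ctc_step (h : A.Ok) (y y' : Pc A.n 1) {μ v v' : ℂ} (hμ : μ ∈ Oc A.n 1)
    (hv : v ∈ Oc A.n 1) (hv' : v' ∈ Oc A.n 1)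
    (e0 : normSq μ = A.p * (cfm A.n y).1 * (cfm A.n y').1)
    (e : (cfm A.n y).1 * (v' * conj μ) = (cfm A.n y').1 * (μ * v)) {U W : ℤ}
    (h1 : (A.p : ℤ) ∣ (cfm A.n y).1 * U + trc v) (h2 : (A.q : ℤ) ∣ (cfm A.n y).1 * W + trc v) :
    (A.p : ℤ) ∣ (cfm A.n y').1 * -U + trc v' ∧ (A.q : ℤ) ∣ (cfm A.n y').1 * W + trc v' := by
  have hn := h.good
  have hp := Nat.prime_iff_prime_int.1 h.pp
  have hq := Nat.prime_iff_prime_int.1 h.qp
  have en : (A.n : ℤ) = A.p * A.q := Nat.cast_mul _ _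
  have dp : (A.p : ℤ) ∣ A.n := ⟨_, en⟩
  have dq : (A.q : ℤ) ∣ A.n := ⟨_, en.trans (mul_comm _ _)⟩
  obtain ⟨Y, a1, a2⟩ := trc_spec hn hμ
  obtain ⟨Z, b1, -⟩ := trc_spec hn hv
  obtain ⟨Z', c1, -⟩ := trc_spec hn hv'
  obtain ⟨p2, q2, qp⟩ := ctc_two h
  generalize trc μ = X at a1 a2
  generalize trc v = V at b1 h1 h2
  generalize trc v' = V' at c1
  have a3 : conj μ = (X - Y * dl A.n) / 2 := by
    rw [a1]
    simp only [map_div₀, map_add, map_mul, map_intCast, conj_dl, map_ofNat]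
    ring
  rw [a3, a1, b1, c1] at e
  have a4 := dl_indep (n := A.n) (by have := hn.mod4; omega)
    (x := (((cfm A.n y).1 * (V' * X + A.n * Z' * Y) -
      (cfm A.n y').1 * (X * V - A.n * Y * Z) : ℤ) : ℚ))
    (y := (((cfm A.n y).1 * (Z' * X - V' * Y) - (cfm A.n y').1 * (X * Z + Y * V) : ℤ) : ℚ)) (by
      push_cast
      linear_combination 4 * e +
        ((cfm A.n y).1 * Z' * Y + (cfm A.n y').1 * Y * Z : ℂ) * dl_sq A.n)
  rw [Int.cast_eq_zero, Int.cast_eq_zero, sub_eq_zero, sub_eq_zero, en] at a4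
  rw [e0, en] at a2
  exact ctc_arith hp hq p2 q2 qp (ctc_ndvd hn hp dp y) (ctc_ndvd hn hp dp y')
    (ctc_ndvd hn hq dq y) (ctc_ndvd hn hq dq y') (by exact_mod_cast a2) a4.1 a4.2 h1 h2

theorem cntS_neg (h : A.Ok) (hI : IsNm A.n I D) (hO : I ≤ ot (Oc A.n 1)) (k U V : ℤ) :
    cntS A I D k (-U) (-V) = cntS A I D k U V := by
  refine sum_congr rfl fun y _ => ?_
  rw [← Set.ncard_neg]
  congr 1
  ext v
  simp only [Set.mem_neg, Set.mem_ofPred_eq, neg_mem_iff, normSq_neg]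
  refine and_congr_right fun hv => and_congr_right fun _ => ?_
  have h0 := ctc_le h.good hO y hv
  have h1 := trc_add h.good h0 h0 (-1) 0
  simp only [Int.cast_neg, Int.cast_one, Int.cast_zero, neg_mul, one_mul, zero_mul, add_zero] at h1
  rw [h1, mul_neg, mul_neg, ← neg_add, ← neg_add, dvd_neg, dvd_neg]

theorem cntS_le (h : A.Ok) (hI : IsNm A.n I D) (hO : I ≤ ot (Oc A.n 1)) (k U V : ℤ) :
    cntS A I D k U V ≤ cntS A I D k (-U) V := by
  have hn := h.good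
  obtain ⟨j, hj⟩ := h.ram_root
  have hP := isNm_idl hn hj (Int.natCast_pos.2 h.pp.pos)
  rw [cntS, cntS, ← Equiv.sum_comp (Equiv.mulRight (cl (Oc A.n 1) (idl A.n 1 A.p A.p)))
    fun y => Set.ncard {v : ℂ | v ∈ I * (fid A.n (cfm A.n y) * fid A.n (cfm A.n y)) ∧
      normSq v = k * (D * (cfm A.n y).1 ^ 2 : ℤ) ∧ (A.p : ℤ) ∣ (cfm A.n y).1 * -U + trc v ∧
      (A.q : ℤ) ∣ (cfm A.n y).1 * V + trc v}]
  refine sum_le_sum fun y _ => ?_
  generalize hy : Equiv.mulRight (cl (Oc A.n 1) (idl A.n 1 A.p A.p)) y = y'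
  have hb := ctc_nm hn y
  have hb' := ctc_nm hn y'
  obtain ⟨l, l0, hl⟩ := (cl_eq_iff (hb.mul' hP).iv hb'.iv).1 (by
    rw [cl_mul hb.iv hP.iv]
    exact (congrArg (· * _) (cfm_spec hn y).2.2.2).trans (hy.trans (cfm_spec hn y').2.2.2.symm))
  have e1 : ((cfm A.n y').1 : ℝ) = normSq l * ((cfm A.n y).1 * (A.p : ℤ)) :=
    hb'.unique (by rw [hl]; exact (hb.mul' hP).sc' l0) hn
  have e2 : I * (fid A.n (cfm A.n y') * fid A.n (cfm A.n y')) =
      sc (l * l * A.p) (I * (fid A.n (cfm A.n y) * fid A.n (cfm A.n y))) := by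
    rw [hl, sc_mul, mul_sc l (_ * _), sc_sc, mul_mul_mul_comm, (ram_sq hn h.pp hj).1,
      mul_sc _ (_ * _), sc_sc, (hb.mul' hb).iv.1, mul_sc]
  have e3 : l * ((cfm A.n y).1 * (A.p : ℤ)) ∈ Oc A.n 1 := ctc_fid hn y' (by
    rw [hl]
    exact mem_sc.2 ⟨_, Submodule.mul_mem_mul (left_mem_sp2 _ _) (left_mem_sp2 _ _), rfl⟩)
  have e4 : ((cfm A.n y').1 : ℂ) = l * conj l * ((cfm A.n y).1 * (A.p : ℤ)) := by
    rw [mul_conj]
    exact_mod_cast congrArg (fun x : ℝ => (x : ℂ)) e1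
  have p0 : (A.p : ℂ) ≠ 0 := Nat.cast_ne_zero.2 h.pp.ne_zero
  refine Set.ncard_le_ncard_of_injOn (fun v => l * l * A.p * v) ?_
    (mul_right_injective₀ (by positivity)).injOn
    (((hI.mul' (hb'.mul' hb')).finite hn _).subset fun v hv => ⟨hv.1, hv.2.1⟩)
  rintro v ⟨v1, v2, v3, v4⟩
  have v5 : l * l * A.p * v ∈ I * (fid A.n (cfm A.n y') * fid A.n (cfm A.n y')) := by
    rw [e2]
    exact mem_sc.2 ⟨v, v1, rfl⟩
  refine ⟨v5, ?_, ctc_step h y y' e3 (ctc_le hn hO y v1) (ctc_le hn hO y' v5) ?_ ?_ v3 v4⟩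
  · simp only [map_mul, normSq_natCast, v2, Int.cast_mul, Int.cast_pow, e1, Int.cast_natCast]
    ring
  · simp only [map_mul, normSq_natCast, normSq_intCast, e1, Int.cast_natCast]
    ring
  · simp only [map_mul, map_natCast, map_intCast, e4, Int.cast_natCast]
    ring

theorem ctc_card {r s : ℂ → Prop} (hT : {v | r v ∧ s v}.Finite) (a c : ℂ → Prop)
    [DecidablePred a] [DecidablePred c] :
    {v | r v ∧ s v ∧ a v ∧ c v}.ncard =
      ∑ v ∈ hT.toFinset, (if a v then 1 else 0) * (if c v then 1 else 0) := by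
  have e : {v | r v ∧ s v ∧ a v ∧ c v} = ↑(hT.toFinset.filter fun v => a v ∧ c v) := by
    ext v
    simp [and_assoc]
  rw [e, Set.ncard_coe_finset, card_filter]
  refine sum_congr rfl fun v _ => ?_
  by_cases h : a v <;> simp [h]

theorem ctc_ind {p m D k U V : ℤ} (hp : Prime p) (p2 : ¬ p ∣ 2) (pm : ¬ p ∣ m) (pD : ¬ p ∣ D)
    (hU : p ∣ U ^ 2 - 4 * D * k) (hV : p ∣ V ^ 2 - 4 * D * k * m ^ 2) :
    (if p ∣ m * U + V then 1 else 0) + (if p ∣ m * -U + V then 1 else 0) =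
      if p ∣ k then 2 else 1 := by
  by_cases hk : p ∣ k
  · have a1 : p ∣ U := hp.dvd_of_dvd_pow ((dvd_sub_left (hk.mul_left _)).1 hU)
    have a2 : p ∣ V := hp.dvd_of_dvd_pow ((dvd_sub_left ((hk.mul_left _).mul_right _)).1 hV)
    rw [if_pos hk, if_pos ((a1.mul_left m).add a2), if_pos ((a1.neg_right.mul_left m).add a2)]
  · have a1 : p ∣ (m * U + V) * (m * -U + V) := by
      have := hV.sub (hU.mul_right (m ^ 2))
      rwa [show V ^ 2 - 4 * D * k * m ^ 2 - (U ^ 2 - 4 * D * k) * m ^ 2 =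
        (m * U + V) * (m * -U + V) by ring] at this
    have a2 : p ∣ m * U + V → ¬ p ∣ m * -U + V := fun b1 b2 => by
      have b3 := b1.sub b2
      rw [show m * U + V - (m * -U + V) = 2 * (m * U) by ring] at b3
      simp only [hp.dvd_mul, p2, pm, false_or] at b3
      have b4 := (dvd_pow b3 two_ne_zero).sub hU
      rw [show U ^ 2 - (U ^ 2 - 4 * D * k) = 2 * (2 * (D * k)) by ring] at b4
      simp only [hp.dvd_mul, p2, pD, hk, or_self] at b4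
    rw [if_neg hk]
    by_cases b1 : p ∣ m * U + V
    · rw [if_pos b1, if_neg (a2 b1)]
    · rw [if_neg b1, if_pos ((hp.dvd_or_dvd a1).resolve_left b1)]

theorem four_cntS (h : A.Ok) (hI : IsNm A.n I D) (hO : I ≤ ot (Oc A.n 1))
    (hD : IsCoprime D A.n) {k U : ℤ} (hU : (A.n : ℤ) ∣ U ^ 2 - 4 * D * k) :
    4 * cntS A I D k U U = (if (A.p : ℤ) ∣ k then 2 else 1) * (if (A.q : ℤ) ∣ k then 2 else 1) *
      ∑ y : Pc A.n 1, rcl A.n (cl (Oc A.n 1) I * y ^ 2) k := by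
  have hn := h.good
  have a1 := cntS_neg h hI hO k U U
  have a2 := cntS_neg h hI hO k (-U) U
  have a3 := cntS_le h hI hO k U U
  have a4 := cntS_le h hI hO k (-U) U
  rw [neg_neg] at a2 a4
  have a5 : 4 * cntS A I D k U U = cntS A I D k U U + cntS A I D k (-U) U +
      (cntS A I D k U (-U) + cntS A I D k (-U) (-U)) := by omega
  rw [a5, mul_sum, cntS, cntS, cntS, cntS, ← sum_add_distrib, ← sum_add_distrib, ← sum_add_distrib]
  refine sum_congr rfl fun y _ => ?_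
  have hb := ctc_nm hn y
  have hL := hI.mul' (hb.mul' hb)
  have hF := hL.finite hn (k * (D * (cfm A.n y).1 ^ 2 : ℤ))
  have e1 : cl (Oc A.n 1) I * y ^ 2 =
      cl (Oc A.n 1) (I * (fid A.n (cfm A.n y) * fid A.n (cfm A.n y))) := by
    rw [cl_mul hI.iv (hb.mul' hb).iv, cl_mul hb.iv hb.iv, sq]
    exact congrArg (fun x => _ * (x * x)) (cfm_spec hn y).2.2.2.symm
  have e2 : rcl A.n (cl (Oc A.n 1) I * y ^ 2) k = hF.toFinset.card := by
    rw [e1, hL.rcl_eq hn, repL, ← Set.ncard_eq_toFinset_card _ hF, Int.cast_mul, Int.cast_pow, sq]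
  rw [e2, ctc_card hF, ctc_card hF, ctc_card hF, ctc_card hF, ← sum_add_distrib, ← sum_add_distrib,
    ← sum_add_distrib, mul_comm _ (card _), ← smul_eq_mul (card _), ← sum_const]
  refine sum_congr rfl fun v hv => ?_
  obtain ⟨v1, v2⟩ := hF.mem_toFinset.1 hv
  obtain ⟨Z, -, b2⟩ := trc_spec hn (ctc_le hn hO y v1)
  rw [v2] at b2
  have b3 : (A.n : ℤ) ∣ trc v ^ 2 - 4 * D * k * (cfm A.n y).1 ^ 2 :=
    ⟨-Z ^ 2, by
      have : 4 * (k * (D * (cfm A.n y).1 ^ 2)) = trc v ^ 2 + A.n * Z ^ 2 := by exact_mod_cast b2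
      linear_combination -this⟩
  have hp := Nat.prime_iff_prime_int.1 h.pp
  have hq := Nat.prime_iff_prime_int.1 h.qp
  have en : (A.n : ℤ) = A.p * A.q := Nat.cast_mul _ _
  have dp : (A.p : ℤ) ∣ A.n := ⟨_, en⟩
  have dq : (A.q : ℤ) ∣ A.n := ⟨_, en.trans (mul_comm _ _)⟩
  rw [← ctc_ind hp (ctc_two h).1 (ctc_ndvd hn hp dp y)
      (fun e => hp.not_isUnit (hD.isUnit_of_dvd' e dp)) (dp.trans hU) (dp.trans b3),
    ← ctc_ind hq (ctc_two h).2.1 (ctc_ndvd hn hq dq y)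
      (fun e => hq.not_isUnit (hD.isUnit_of_dvd' e dq)) (dq.trans hU) (dq.trans b3)]
  ring

end Pool.Agent.Dih
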