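import Pool.Agent.Lib.MP_60ff09_nt.Dih.CTb
import Pool.Agent.Lib.MP_60ff09_nt.Dih.CTc

/-! The count of pairs. -/

set_option autoImplicit false

open Complex Filter Topology Finset NumberTheorySymbols
open scoped Real ComplexConjugate Classical
open Pool.Agent.Lib.MP_696deb_nt Pool.Agent.Lib.MP_696deb_nt.B2.CM

namespace Pool.Agent.Dih

variable {A : Par} {r : ℤ}

theorem ctd_zero {P : ℕ} (hP : P.Prime) {c : ℤ} (h : (P : ℤ) ∣ c) : J(c | P) = 0 := by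
  obtain ⟨t, rfl⟩ := h
  have := Fact.mk hP
  rw [jacobiSym.mul_left, ← jacobiSym.legendreSym.to_jacobiSym, (legendreSym.eq_zero_iff P _).2
    (by simp), zero_mul]

theorem ctd_sq {P : ℕ} (hP : P.Prime) {c : ℤ} (h : ¬ (P : ℤ) ∣ c) : J(c | P) ^ 2 = 1 := by
  refine jacobiSym.sq_one ?_
  rw [Int.gcd_comm]
  exact Int.isCoprime_iff_gcd_eq_one.1
    ((Nat.prime_iff_prime_int.1 hP).irreducible.coprime_iff_not_dvd.2 h)

/-- The local weight in symmetric form. -/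
theorem ctd_lam1 {P : ℕ} (hP : P.Prime) (h15 : ¬ (P : ℤ) ∣ 15) {χ c l : ℤ}
    (h : ¬ (P : ℤ) ∣ c * l → J(15 * (c * l) | P) = χ) :
    2 * lam1 P χ c (-l) = J(-1 | P) * (if (P : ℤ) ∣ c * l then 2 else 1) *
      (χ * J(15 | P) * J(c | P) + J(l | P)) := by
  have e1 : J(-l | P) = J(-1 | P) * J(l | P) := by rw [← jacobiSym.mul_left, neg_one_mul]
  have e2 : J(-15 * c | P) = J(-1 | P) * (J(15 | P) * J(c | P)) := by
    rw [← jacobiSym.mul_left, ← jacobiSym.mul_left]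
    congr 1
    ring
  unfold lam1
  by_cases hc : (P : ℤ) ∣ c
  · rw [if_pos hc, if_pos (hc.mul_right l), e1, ctd_zero hP hc]
    ring
  · rw [if_neg hc, e2]
    by_cases hl : (P : ℤ) ∣ l
    · rw [if_pos (hl.mul_left c), ctd_zero hP hl]
      ring
    · have hcl : ¬ (P : ℤ) ∣ c * l := fun h' =>
        ((Nat.prime_iff_prime_int.1 hP).dvd_or_dvd h').elim hc hl
      have e3 := h hcl
      rw [jacobiSym.mul_left, jacobiSym.mul_left] at e3
      rw [if_neg hcl, ← e3]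
      linear_combination (J(-1 | P) * J(l | P) * J(c | P) ^ 2) * ctd_sq hP h15 +
        (J(-1 | P) * J(l | P)) * ctd_sq hP hc

theorem ctd_not15 {P : ℕ} (hP : P.Prime) (h3 : P ≠ 3) (h5 : P ≠ 5) : ¬ (P : ℤ) ∣ 15 := fun h => by
  have h' : P ∣ 3 * 5 := by exact_mod_cast h
  rcases (Nat.Prime.dvd_mul hP).1 h' with h1 | h1
  · exact h3 ((Nat.prime_dvd_prime_iff_eq hP Nat.prime_three).1 h1)
  · exact h5 ((Nat.prime_dvd_prime_iff_eq hP Nat.prime_five).1 h1)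

theorem Par.Ok.ctd_p15 (h : A.Ok) : ¬ (A.p : ℤ) ∣ 15 :=
  ctd_not15 h.pp (fun e => by have := h.p4; omega) h.p5

theorem Par.Ok.ctd_q15 (h : A.Ok) : ¬ (A.q : ℤ) ∣ 15 :=
  ctd_not15 h.qp h.q3 fun e => by have := h.q4; omega

/-- The divisor sum in symmetric form. -/
theorem Par.Ok.four_Sneg (h : A.Ok) {k : ℕ}
    (hp : ¬ (A.p : ℤ) ∣ k → J(15 * k | A.p) = A.χp) (hq : ¬ (A.q : ℤ) ∣ k → J(15 * k | A.q) = A.χq) :
    4 * A.Sneg k = -((if (A.p : ℤ) ∣ k then 2 else 1) * (if (A.q : ℤ) ∣ k then 2 else 1) *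
      (2 * ∑ d ∈ k.divisors, J((d : ℤ) | A.n) + A.χp * J(15 | A.p) *
        (2 * ∑ d ∈ k.divisors, J((d : ℤ) | A.p) * J(((k / d : ℕ) : ℤ) | A.q)))) := by
  have sp : J(-1 | A.p) = 1 := by
    rw [jacobiSym.at_neg_one (Nat.odd_iff.2 (by have := h.p4; omega)),
      ZMod.χ₄_nat_one_mod_four h.p4]
  have sq : J(-1 | A.q) = -1 := by
    rw [jacobiSym.at_neg_one (Nat.odd_iff.2 (by have := h.q4; omega)),
      ZMod.χ₄_nat_three_mod_four h.q4]
  have sg := h.sgn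
  rw [show (-15 : ℤ) = -1 * 15 by norm_num, jacobiSym.mul_left, jacobiSym.mul_left, sp, sq] at sg
  set a := A.χp * J(15 | A.p) with ha
  set b := A.χq * J(15 | A.q) with hb
  have ab : a * b = 1 := by rw [ha, hb]; linear_combination -sg
  have eab : b = a := (Int.eq_of_mul_eq_one ab).symm
  have aa : a * a = 1 := by rw [← ab, eab]
  set ι : ℤ := (if (A.p : ℤ) ∣ k then 2 else 1) * (if (A.q : ℤ) ∣ k then 2 else 1) with hι
  have jn : ∀ d : ℤ, J(d | A.n) = J(d | A.p) * J(d | A.q) := fun d =>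
    jacobiSym.mul_right' d h.pp.ne_zero h.qp.ne_zero
  have key : ∀ c ∈ k.divisors, 4 * A.lam c (-((k / c : ℕ) : ℤ)) =
      -(ι * (J((c : ℤ) | A.n) + J(((k / c : ℕ) : ℤ) | A.n) +
        a * (J((c : ℤ) | A.p) * J(((k / c : ℕ) : ℤ) | A.q) +
          J(((k / c : ℕ) : ℤ) | A.p) * J(((k / (k / c) : ℕ) : ℤ) | A.q)))) := fun c hc => by
    have hc' := Nat.dvd_of_mem_divisors hc
    have e : (c : ℤ) * ((k / c : ℕ) : ℤ) = k := by exact_mod_cast Nat.mul_div_cancel' hc'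
    have l1 := ctd_lam1 h.pp h.ctd_p15 (χ := A.χp) (c := c) (l := ((k / c : ℕ) : ℤ))
      (by rw [e]; exact hp)
    have l2 := ctd_lam1 h.qp h.ctd_q15 (χ := A.χq) (c := c) (l := ((k / c : ℕ) : ℤ))
      (by rw [e]; exact hq)
    rw [e, sp, ← ha] at l1
    rw [e, sq, ← hb, eab] at l2
    rw [Nat.div_div_self hc' (Nat.mem_divisors.1 hc).2, jn, jn, Par.lam,
      show ∀ x y : ℤ, 4 * (x * y) = 2 * x * (2 * y) from fun x y => by ring, l1, l2, hι]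
    linear_combination (-((if (A.p : ℤ) ∣ k then 2 else 1) * (if (A.q : ℤ) ∣ k then 2 else 1) *
      J((c : ℤ) | A.p) * J((c : ℤ) | A.q))) * aa
  have s1 := Nat.sum_div_divisors k fun d => J((d : ℤ) | A.n)
  have s2 := Nat.sum_div_divisors k fun d => J((d : ℤ) | A.p) * J(((k / d : ℕ) : ℤ) | A.q)
  rw [Par.Sneg, mul_sum, sum_congr rfl key, sum_neg_distrib, ← mul_sum, sum_add_distrib,
    sum_add_distrib, ← mul_sum, sum_add_distrib, s1, s2]
  ring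

/-- The count for one vector. -/
theorem Par.Ok.ctd_one [Fintype (Pc A.n 1)] (h : A.Ok) (hr : 60 ∣ r ^ 2 + A.n) {c : Pc A.n 1}
    (hp : gcl A.p c = A.χp) (hq : gcl A.p c = A.χq) (M : ℤ) {k : ℕ} (hk : k ≠ 0) {u : ℂ}
    (hu : u ∈ cjl (fid A.n (cfm A.n c)))
    (hN : normSq u = (M * A.n + 15 * (k : ℤ) : ℤ) * (cfm A.n c).1) :
    (cntS A (idl A.n 1 15 (-r) * fid A.n (cfm A.n c)) (15 * (cfm A.n c).1) k (trc u) (trc u) : ℤ) =
      -A.Sneg k := by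
  have hn := h.good
  obtain ⟨c1, c2, c3, c4⟩ := cfm_spec hn c
  obtain ⟨t, ht⟩ := hr
  have r1 : (-r) ^ 2 + A.n = 4 * 15 * t := by rw [neg_sq, ht]; norm_num
  have r2 : (cfm A.n c).2.1 ^ 2 + A.n = 4 * (cfm A.n c).1 * (cfm A.n c).2.2 := by
    unfold fdisc at c1
    linear_combination c1
  have r3 : (-(cfm A.n c).2.1) ^ 2 + A.n = 4 * (cfm A.n c).1 * (cfm A.n c).2.2 := by
    rw [neg_sq, r2]
  have n1 := isNm_idl hn r1 (by norm_num)
  have n2 := isNm_fid hn c1 c2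
  have hI : IsNm A.n (idl A.n 1 15 (-r) * fid A.n (cfm A.n c)) ((15 * (cfm A.n c).1 : ℤ) : ℝ) := by
    rw [Int.cast_mul]
    exact n1.mul' n2
  have hO : idl A.n 1 15 (-r) * fid A.n (cfm A.n c) ≤ ot (Oc A.n 1) := by
    rw [← ot_mul_ot (le_refl (Oc A.n 1))]
    exact mul_le_mul' (idl_le hn.mod4 (k := t) (by simpa using r1))
      (idl_le hn.mod4 (k := (cfm A.n c).2.2) (by simpa using r2))
  have hD : IsCoprime (15 * (cfm A.n c).1) (A.n : ℤ) :=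
    IsCoprime.mul_left (by exact_mod_cast Nat.isCoprime_iff_coprime.2 hn.cop.symm)
      c3.of_mul_right_right
  have uO : u ∈ Oc A.n 1 := by
    rw [cjl_idl] at hu
    exact mem_ot.1 (idl_le hn.mod4 (k := (cfm A.n c).2.2) (by simpa using r3) hu)
  obtain ⟨y, -, hy⟩ := trc_spec hn uO
  have hy' : trc u ^ 2 + A.n * y ^ 2 = 4 * ((M * A.n + 15 * k) * (cfm A.n c).1) := by
    rw [hN] at hy
    exact_mod_cast hy.symm
  have hU : (A.n : ℤ) ∣ trc u ^ 2 - 4 * (15 * (cfm A.n c).1) * k :=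
    ⟨4 * M * (cfm A.n c).1 - y ^ 2, by linear_combination hy'⟩
  have pn : A.p ∣ A.n := Dvd.intro _ rfl
  have qn : A.q ∣ A.n := Dvd.intro_left _ rfl
  have gen : ∀ P : ℕ, P.Prime → P ∣ A.n → ¬ (P : ℤ) ∣ 15 → ¬ (P : ℤ) ∣ k →
      J(15 * k | P) = gcl P c := fun P hP hd h15 hk' => by
    have hd' : (P : ℤ) ∣ M * A.n := Dvd.dvd.mul_left (by exact_mod_cast hd) M
    have e := (n2.cj hn).gcl_eq hn hP hd hu hN fun h' =>
      ((Nat.prime_iff_prime_int.1 hP).dvd_or_dvd ((dvd_add_right hd').1 h')).elim h15 hk'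
    rw [n2.cl_cj hn, gcl_inv hn hP hd] at e
    rw [← c4, fcl, ← e]
    refine jacobiSym.mod_left' ?_
    obtain ⟨s, hs⟩ := hd'
    rw [hs, add_comm, Int.add_mul_emod_self_left]
  have f1 := h.four_Sneg (k := k) (fun h' => (gen _ h.pp pn h.ctd_p15 h').trans hp)
    fun h' => (gen _ h.qp qn h.ctd_q15 h').trans ((h.gcl_pq c).trans hq)
  have f2 := congrArg (Nat.cast : ℕ → ℤ) (four_cntS h hI hO hD hU)
  have g : gcl A.p (cl (Oc A.n 1) (idl A.n 1 15 (-r) * fid A.n (cfm A.n c))) =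
      A.χp * J(15 | A.p) := by
    rw [cl_mul n1.iv n2.iv, gcl_mul hn h.pp pn, gcl_idl hn h.pp pn r1 (by norm_num) h.ctd_p15,
      mul_comm, ← hp, ← fcl, c4]
  have f3 := h.sum_sq (fun z => (rcl A.n z k : ℤ))
    (cl (Oc A.n 1) (idl A.n 1 15 (-r) * fid A.n (cfm A.n c)))
  simp only [g, add_mul, one_mul, sum_add_distrib, mul_assoc _ (gcl A.p _), ← mul_sum] at f3
  rw [sum_rcl hn hk, h.sum_gcl_rcl hk] at f3
  push_cast at f2
  rw [f3] at f2
  have : 4 * (cntS A (idl A.n 1 15 (-r) * fid A.n (cfm A.n c)) (15 * (cfm A.n c).1) k (trc u)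
    (trc u) : ℤ) = 4 * -A.Sneg k := by rw [f2, mul_neg, f1, neg_neg]
  omega

theorem Par.Ok.count [Fintype (Pc A.n 1)] (h : A.Ok) (hr : 60 ∣ r ^ 2 + A.n) {e : Pc A.n 1 → Fm}
    (he : HFam A.n r e) {c : Pc A.n 1} (hp : gcl A.p c = A.χp) (hq : gcl A.p c = A.χq) (M : ℤ)
    {k : ℕ} (hk : k ≠ 0) :
    ∑ y, (cntG (e (c * y)) (e y) M (M * A.n + 30 * k) : ℤ) =
      -(rcl A.n c (M * A.n + 15 * k) * A.Sneg k) := by
  have hn := h.good
  obtain ⟨c1, c2, c3, c4⟩ := cfm_spec hn c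
  have n2 := isNm_fid hn c1 c2
  have fin := (n2.cj hn).finite hn ((M * A.n + 15 * (k : ℤ) : ℤ) * (cfm A.n c).1)
  have pq : IsCoprime (A.p : ℤ) A.q := Nat.isCoprime_iff_coprime.2
    ((Nat.coprime_primes h.pp h.qp).2 fun e => by have := h.p4; have := h.q4; omega)
  have dv : ∀ x : ℤ, (A.n : ℤ) ∣ x ↔ (A.p : ℤ) ∣ x ∧ (A.q : ℤ) ∣ x := fun x => by
    rw [Par.n, Nat.cast_mul]
    exact ⟨fun h' => ⟨dvd_of_mul_right_dvd h', dvd_of_mul_left_dvd h'⟩,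
      fun h' => pq.mul_dvd h'.1 h'.2⟩
  have e1 : ∑ y, cntG (e (c * y)) (e y) M (M * A.n + 30 * k) = ∑ u ∈ fin.toFinset,
      cntS A (idl A.n 1 15 (-r) * fid A.n (cfm A.n c)) (15 * (cfm A.n c).1) k (trc u) (trc u) := by
    simp only [cntG_eq_sum hn hr he, finsum_mem_eq_finite_toFinset_sum _ fin, cntS, dv]
    exact sum_comm
  have e2 : rcl A.n c (M * A.n + 15 * k) = fin.toFinset.card := by
    have := (n2.cj hn).rcl_eq hn (M * A.n + 15 * k)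
    rw [n2.cl_cj hn, rcl_inv hn, ← fcl, c4] at this
    rw [this, repL, Set.ncard_eq_toFinset_card _ fin]
  rw [← Nat.cast_sum, e1, Nat.cast_sum, sum_congr rfl fun u hu =>
    h.ctd_one hr hp hq M hk (fin.mem_toFinset.1 hu).1 (fin.mem_toFinset.1 hu).2, sum_const, e2,
    nsmul_eq_mul, mul_neg]

end Pool.Agent.Dih
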