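import Pool.Agent.Lib.MP_60ff09_nt.Dih.CL0
import Pool.Agent.Lib.MP_696deb_nt.CntMatch1

/-! Cosets of the Hecke correspondence. -/

set_option autoImplicit false

open Complex Filter Topology Finset NumberTheorySymbols
open scoped Real ComplexConjugate Classical
open Pool.Agent.Lib.MP_696deb_nt Pool.Agent.Lib.MP_696deb_nt.B2.CM

namespace Pool.Agent.Dih

variable {n : ℕ} {Q R : Fm}

theorem fdisc_fmap' (R : Fm) (a b c d : ℤ) :
    fdisc (fmap R a b c d) = (a * d - b * c) ^ 2 * fdisc R := by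
  simp only [fdisc, fmap, fval]
  ring

theorem fmap_hecke (hD : fdisc R < 0) (hR : 0 < R.1) {a d : ℤ} (ha : 0 < a) (hd : 0 < d) (b : ℤ) :
    0 < (fmap R d (-b) 0 a).1 ∧ froot (fmap R d (-b) 0 a) = (a * froot R + b) / d := by
  have h1 : 0 < (fmap R d (-b) 0 a).1 := by
    have e : (fmap R d (-b) 0 a).1 = R.1 * d ^ 2 := by simp [fmap, fval]
    rw [e]
    positivity
  have h2 : fdisc (fmap R d (-b) 0 a) < 0 := by
    rw [fdisc_fmap']
    refine mul_neg_of_pos_of_neg ?_ hD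
    rw [mul_zero, sub_zero]
    positivity
  have hd' : (d : ℂ) ≠ 0 := by exact_mod_cast hd.ne'
  refine ⟨h1, (eq_froot h2 h1 ?_ ?_).symm⟩
  · have h3 := im_froot_pos hD hR
    have e : (((a : ℂ) * froot R + b) / d).im = a * (froot R).im / d := by
      rw [show (d : ℂ) = ((d : ℝ) : ℂ) by norm_cast, div_ofReal_im]
      simp
    rw [e]
    positivity
  · have h3 := froot_root hD hR
    simp only [fmap, fval]
    push_cast
    field_simp
    linear_combination (a : ℂ) ^ 2 * (d : ℂ) ^ 2 * h3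

private theorem cte_sq {k : ℕ} (hk : Squarefree k) {x y : ℤ} (hy : y ≠ 0)
    (h : x ^ 2 = k * y ^ 2) : k = 1 := by
  obtain ⟨z, rfl⟩ : y ∣ x := (Int.pow_dvd_pow_iff two_ne_zero).1 ⟨k, by rw [h, mul_comm]⟩
  have h1 : z * z = k := mul_left_cancel₀ (pow_ne_zero 2 hy) (by linear_combination h)
  have h2 : z.natAbs * z.natAbs = k := by
    rw [← Int.natAbs_mul, h1, Int.natAbs_natCast]
  have h3 := Nat.isUnit_iff.1 (hk z.natAbs h2.dvd)
  rw [← h2, h3]

theorem stab_fmap (hn : Good n) {M : ℤ} (hM : M ≠ 0) (hD : fdisc R = -(n * M ^ 2)) {a b c d : ℤ}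
    (e : a * d - b * c = 1) (h : fmap R a b c d = R) : b = 0 ∧ c = 0 ∧ a = d := by
  obtain ⟨A, B, C⟩ := R
  simp only [fmap, fval, Prod.mk.injEq] at h
  obtain ⟨h1, h2, -⟩ := h
  simp only [fdisc] at hD
  have h4 := hn.mod4
  have hn0 : (0 : ℤ) < n := by omega
  have hp : 0 < (n : ℤ) * M ^ 2 := by positivity
  have hA : A ≠ 0 := by
    rintro rfl
    nlinarith [sq_nonneg B]
  have h2' : A * a * b + B * (b * c) + C * c * d = 0 := by
    have : 2 * (A * a * b + B * (b * c) + C * c * d) = 0 := by linear_combination h2 - B * e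
    omega
  have e1 : A * b = -(C * c) := by linear_combination a * h2' - b * h1 - C * c * e
  have e2 : A * (d - a) = B * c := by
    linear_combination c * h2' - d * h1 + (A * a + B * c) * e
  have hc : c = 0 := by
    by_contra hc
    have e3 : A ^ 2 * (4 - (a + d) ^ 2) = n * (c * M) ^ 2 := by
      linear_combination (-c ^ 2) * hD - (A * (d - a) + B * c) * e2 - 4 * A * c * e1
        - 4 * A ^ 2 * e
    have hcM : c * M ≠ 0 := mul_ne_zero hc hM
    have h5 : 0 < A ^ 2 * (4 - (a + d) ^ 2) := by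
      rw [e3]
      positivity
    have h6 : 0 < 4 - (a + d) ^ 2 := (pos_iff_pos_of_mul_pos h5).1 (by positivity)
    have h7 : a + d = 0 ∨ (a + d) ^ 2 = 1 := by
      have l1 : a + d < 2 := by nlinarith
      have l2 : -2 < a + d := by nlinarith
      rcases (by omega : a + d = 0 ∨ a + d = 1 ∨ a + d = -1) with k | k | k
      · exact Or.inl k
      · exact Or.inr (by rw [k]; norm_num)
      · exact Or.inr (by rw [k]; norm_num)
    rcases h7 with k | k
    · have := cte_sq hn.sqf hcM (x := 2 * A) (by rw [← e3, k]; ring)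
      omega
    · have hs : Squarefree (n * 3) :=
        (Nat.squarefree_mul (hn.cop.coprime_dvd_right (by norm_num))).2
          ⟨hn.sqf, Nat.prime_three.prime.squarefree⟩
      have := cte_sq hs hcM (x := 3 * A) (by
        rw [k] at e3
        push_cast
        linear_combination 3 * e3)
      omega
  subst hc
  refine ⟨(mul_eq_zero.1 (by linear_combination e1 : A * b = 0)).resolve_left hA, rfl, ?_⟩
  have := (mul_eq_zero.1 (by linear_combination e2 : A * (d - a) = 0)).resolve_left hA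
  omega

theorem finite_orb (hD : fdisc Q < 0) (hQ : 0 < Q.1) (R : Fm) (t : ℤ) :
    {S : Fm | FEq R S ∧ fbil Q S = -t}.Finite := by
  refine (M1.finite_def hD hQ (fdisc R) (-t)).subset ?_
  rintro S ⟨⟨a, b, c, d, e, rfl⟩, h⟩
  exact ⟨fdisc_fmap e R, h⟩

private theorem cte_union {α β : Type} (T : Finset β) (S : β → Set α)
    (hf : ∀ i ∈ T, (S i).Finite) (hd : ∀ i ∈ T, ∀ j ∈ T, ∀ x, x ∈ S i → x ∈ S j → i = j) :
    (⋃ i ∈ (T : Set β), S i).ncard = ∑ i ∈ T, (S i).ncard := by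
  rw [T.finite_toSet.ncard_biUnion (s := S) hf fun i hi j hj hij =>
    Set.disjoint_left.2 fun x h1 h2 => hij (hd i hi j hj x h1 h2), finsum_mem_coe_finset]

/-- The matrices which are counted. -/
private def cteG (Q R : Fm) (M t : ℤ) : Set (ℤ × ℤ × ℤ × ℤ) :=
  {γ : ℤ × ℤ × ℤ × ℤ | γ.1 * γ.2.2.2 - γ.2.1 * (15 * γ.2.2.1) = M ∧
    fbil Q (fmap R γ.1 γ.2.1 (15 * γ.2.2.1) γ.2.2.2) = -t}

private theorem cte_two (hn : Good n) (hD : fdisc Q < 0) (hQ : 0 < Q.1) {M : ℤ} (hM : M ≠ 0)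
    (hR : fdisc R = -(n * M ^ 2)) (t : ℤ) :
    (cteG Q R 1 t).Finite ∧ (cteG Q R 1 t).ncard = 2 * cntO Q R t := by
  have hO := finite_orb hD hQ R t
  let F : Fm → Set (ℤ × ℤ × ℤ × ℤ) := fun S => {γ | γ.1 * γ.2.2.2 - γ.2.1 * (15 * γ.2.2.1) = 1 ∧
    fmap R γ.1 γ.2.1 (15 * γ.2.2.1) γ.2.2.2 = S}
  have hF : ∀ S ∈ hO.toFinset, ∃ g : ℤ × ℤ × ℤ × ℤ, g ≠ -g ∧ F S = {g, -g} := by
    intro S hS
    obtain ⟨⟨a, b, c, d, e, rfl⟩, -⟩ := hO.mem_toFinset.1 hS
    refine ⟨(a, b, c, d), fun h => ?_, Set.ext fun ⟨x, y, z, w⟩ => ⟨fun ⟨h1, h2⟩ => ?_, ?_⟩⟩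
    · simp only [Prod.neg_mk, Prod.mk.injEq] at h
      have h1 : a = 0 := by omega
      have h2 : b = 0 := by omega
      simp [h1, h2] at e
    · simp only at h1 h2
      have h3 := fmap_inv e R
      rw [← h2, fmap_fmap] at h3
      obtain ⟨k1, k2, k3⟩ := stab_fmap hn hM hR
        (by linear_combination (a * d - b * (15 * c)) * h1 + e) h3
      have k4 : (x * d + y * -(15 * c)) * (x * d + y * -(15 * c)) = 1 := by
        linear_combination (a * d - b * (15 * c)) * h1 + e + (x * d + y * -(15 * c)) * k3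
          + (15 * z * d + w * -(15 * c)) * k1
      have k2' : z * d - w * c = 0 :=
        mul_left_cancel₀ (by norm_num : (15 : ℤ) ≠ 0) (by linear_combination k2)
      simp only [Set.mem_insert_iff, Set.mem_singleton_iff, Prod.neg_mk, Prod.mk.injEq]
      rcases Int.eq_one_or_neg_one_of_mul_eq_one k4 with k | k
      · refine Or.inl ⟨?_, ?_, ?_, ?_⟩
        · linear_combination a * k + 15 * c * k1 - x * e
        · linear_combination b * k + d * k1 - y * e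
        · linear_combination a * k2' + c * (k - k3) - z * e
        · linear_combination 15 * b * k2' + d * (k - k3) - w * e
      · refine Or.inr ⟨?_, ?_, ?_, ?_⟩
        · linear_combination a * k + 15 * c * k1 - x * e
        · linear_combination b * k + d * k1 - y * e
        · linear_combination a * k2' + c * (k - k3) - z * e
        · linear_combination 15 * b * k2' + d * (k - k3) - w * e
    · rintro (h | h)
      · rw [h]
        exact ⟨e, rfl⟩
      · rw [Set.mem_singleton_iff.1 h]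
        refine ⟨by simpa using e, ?_⟩
        simp only [Prod.neg_mk, fmap, fval, Prod.mk.injEq]
        refine ⟨?_, ?_, ?_⟩ <;> ring
  have hG : cteG Q R 1 t = ⋃ S ∈ (hO.toFinset : Set Fm), F S := by
    ext ⟨x, y, z, w⟩
    simp only [Set.mem_iUnion, Set.Finite.coe_toFinset, exists_prop]
    exact ⟨fun h => ⟨_, ⟨⟨x, y, z, w, h.1, rfl⟩, h.2⟩, h.1, rfl⟩,
      fun ⟨S, h1, h2⟩ => ⟨h2.1, by rw [h2.2]; exact h1.2⟩⟩
  have hf : ∀ S ∈ hO.toFinset, (F S).Finite := fun S hS => by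
    obtain ⟨g, -, h⟩ := hF S hS
    rw [h]
    exact Set.toFinite _
  rw [hG]
  refine ⟨hO.toFinset.finite_toSet.biUnion hf, ?_⟩
  rw [cte_union _ _ hf fun S _ S' _ x h h' => h.2.symm.trans h'.2, sum_congr rfl (g := fun _ => 2)
    fun S hS => ?_, sum_const, smul_eq_mul, mul_comm, cntO, Set.ncard_eq_toFinset_card _ hO]
  obtain ⟨g, h0, h⟩ := hF S hS
  rw [h, Set.ncard_pair h0]

/-- The product with an upper triangular matrix. -/
private def cteM (i : Σ _ : ℕ × ℕ, ℕ) (g : ℤ × ℤ × ℤ × ℤ) : ℤ × ℤ × ℤ × ℤ :=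
  (i.1.2 * g.1 - i.2 * (15 * g.2.2.1), i.1.2 * g.2.1 - i.2 * g.2.2.2, i.1.1 * g.2.2.1,
    i.1.1 * g.2.2.2)

private theorem cte_fmap (R : Fm) (i : Σ _ : ℕ × ℕ, ℕ) (g : ℤ × ℤ × ℤ × ℤ) :
    fmap R (cteM i g).1 (cteM i g).2.1 (15 * (cteM i g).2.2.1) (cteM i g).2.2.2 =
      fmap (fmap R i.1.2 (-i.2) 0 i.1.1) g.1 g.2.1 (15 * g.2.2.1) g.2.2.2 := by
  rw [fmap_fmap]
  simp only [cteM]
  congr 1 <;> ring

private theorem cte_exists {M : ℕ} (hM : M ≠ 0) (h15 : M.Coprime 15) {A B C D : ℤ}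
    (h : A * D - B * (15 * C) = M) : ∃ (a d b : ℕ) (x y z w : ℤ), a * d = M ∧ b < d ∧
      x * w - y * (15 * z) = 1 ∧ cteM ⟨(a, d), b⟩ (x, y, z, w) = (A, B, C, D) := by
  have hg : 0 < Int.gcd C D := by
    rw [Int.gcd_pos_iff]
    by_contra k
    push Not at k
    rw [k.1, k.2] at h
    omega
  obtain ⟨z, w, h1, h2, h3⟩ := Int.exists_gcd_one hg
  generalize Int.gcd C D = a at hg h2 h3
  subst h2 h3
  have h4 : (a : ℤ) * (A * w - B * (15 * z)) = M := by linear_combination h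
  have h5 : 0 < A * w - B * (15 * z) :=
    (pos_iff_pos_of_mul_pos (by rw [h4]; omega)).1 (by exact_mod_cast hg)
  obtain ⟨d, hd⟩ := Int.eq_ofNat_of_zero_le h5.le
  rw [hd] at h4 h5
  have h6 : a * d = M := by exact_mod_cast h4
  obtain ⟨u, v, huv⟩ : IsCoprime (d : ℤ) 15 :=
    Nat.isCoprime_iff_coprime.2 (h15.coprime_dvd_left ⟨a, by rw [← h6, mul_comm]⟩)
  obtain ⟨x, y, hxy⟩ : IsCoprime w (15 * z) :=
    IsCoprime.mul_right ⟨u * A, v - u * B * z, by linear_combination huv + u * hd⟩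
      (Int.isCoprime_iff_gcd_eq_one.2 h1).symm
  have h7 := Int.emod_nonneg (-A * y - B * x) h5.ne'
  have h8 := Int.emod_lt_of_pos (-A * y - B * x) h5
  have h9 := Int.emod_add_mul_ediv (-A * y - B * x) d
  obtain ⟨b, hb⟩ := Int.eq_ofNat_of_zero_le h7
  rw [hb] at h8 h9
  generalize (-A * y - B * x) / d = k at h9
  refine ⟨a, d, b, x - k * (15 * z), -y - k * w, z, w, h6, by exact_mod_cast h8,
    by linear_combination hxy, ?_⟩
  simp only [cteM, Prod.mk.injEq]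
  refine ⟨?_, ?_, mul_comm _ _, mul_comm _ _⟩
  · linear_combination A * hxy - x * hd - 15 * z * h9
  · linear_combination B * hxy + y * hd - w * h9

private theorem cte_unique {M : ℕ} (hM : M ≠ 0) {i j : Σ _ : ℕ × ℕ, ℕ} {g g' : ℤ × ℤ × ℤ × ℤ}
    (hi : i.1.1 * i.1.2 = M) (hj : j.1.1 * j.1.2 = M) (hi' : i.2 < i.1.2) (hj' : j.2 < j.1.2)
    (hg : g.1 * g.2.2.2 - g.2.1 * (15 * g.2.2.1) = 1)
    (hg' : g'.1 * g'.2.2.2 - g'.2.1 * (15 * g'.2.2.1) = 1) (h : cteM i g = cteM j g') :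
    i = j ∧ g = g' := by
  obtain ⟨⟨a, d⟩, b⟩ := i
  obtain ⟨⟨a', d'⟩, b'⟩ := j
  obtain ⟨x, y, z, w⟩ := g
  obtain ⟨x', y', z', w'⟩ := g'
  simp only [cteM, Prod.mk.injEq] at h hi hj hi' hj' hg hg'
  obtain ⟨h1, h2, h3, h4⟩ := h
  obtain rfl : a = a' := Nat.dvd_antisymm
    (Int.natCast_dvd_natCast.1 ⟨x' * w - y' * (15 * z), by
      linear_combination (-a' : ℤ) * hg' - x' * h4 + 15 * y' * h3⟩)
    (Int.natCast_dvd_natCast.1 ⟨x * w' - y * (15 * z'), by
      linear_combination (-a : ℤ) * hg + x * h4 - 15 * y * h3⟩)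
  have ha : a ≠ 0 := by
    rintro rfl
    omega
  obtain rfl : d = d' := Nat.eq_of_mul_eq_mul_left (Nat.pos_of_ne_zero ha) (hi.trans hj.symm)
  have ha' : (a : ℤ) ≠ 0 := by exact_mod_cast ha
  obtain rfl : z = z' := mul_left_cancel₀ ha' h3
  obtain rfl : w = w' := mul_left_cancel₀ ha' h4
  have h5 : (d : ℤ) ∣ (b : ℤ) - b' := ⟨x * (y - y') - y * (x - x'), by
    linear_combination (-(b : ℤ) + b') * hg - x * h2 + y * h1⟩
  obtain rfl : b = b' := by
    have := Int.eq_zero_of_abs_lt_dvd h5 (by rw [abs_lt]; omega)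
    omega
  have hd : (d : ℤ) ≠ 0 := by omega
  obtain rfl : x = x' := mul_left_cancel₀ hd (by linear_combination h1)
  obtain rfl : y = y' := mul_left_cancel₀ hd (by linear_combination h2)
  exact ⟨rfl, rfl⟩

theorem cntG_eq_hecke (hn : Good n) (hD : fdisc Q < 0) (hQ : 0 < Q.1) (hR : fdisc R = -n) {M : ℕ}
    (hM : M ≠ 0) (h15 : M.Coprime 15) (t : ℤ) :
    cntG Q R M t = 2 * ∑ x ∈ M.divisorsAntidiagonal, ∑ b ∈ range x.2,
      cntO Q (fmap R x.2 (-b) 0 x.1) t := by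
  let T : Finset (Σ _ : ℕ × ℕ, ℕ) := M.divisorsAntidiagonal.sigma fun x => range x.2
  have hT : ∀ i, i ∈ T ↔ i.1.1 * i.1.2 = M ∧ i.2 < i.1.2 := fun i => by
    simp [T, mem_sigma, Nat.mem_divisorsAntidiagonal, hM]
  let G : (Σ _ : ℕ × ℕ, ℕ) → Set (ℤ × ℤ × ℤ × ℤ) := fun i =>
    cteG Q (fmap R i.1.2 (-i.2) 0 i.1.1) 1 t
  have h2 : ∀ i ∈ T, (G i).Finite ∧ (G i).ncard = 2 * cntO Q (fmap R i.1.2 (-i.2) 0 i.1.1) t :=
    fun i hi => cte_two hn hD hQ (M := M) (by exact_mod_cast hM) (by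
      rw [fdisc_fmap', hR, ← ((hT i).1 hi).1]
      push_cast
      ring) t
  have hG : cteG Q R M t = ⋃ i ∈ (T : Set (Σ _ : ℕ × ℕ, ℕ)), cteM i '' G i := by
    ext ⟨A, B, C, D⟩
    simp only [Set.mem_iUnion, mem_coe, exists_prop]
    refine ⟨fun h => ?_, fun ⟨i, hi, g, hg, h⟩ => ?_⟩
    · obtain ⟨a, d, b, x, y, z, w, k1, k2, k3, k4⟩ := cte_exists hM h15 h.1
      refine ⟨⟨(a, d), b⟩, (hT _).2 ⟨k1, k2⟩, (x, y, z, w), ⟨k3, ?_⟩, k4⟩
      rw [← cte_fmap, k4]
      exact h.2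
    · rw [← h]
      refine ⟨?_, by rw [cte_fmap]; exact hg.2⟩
      rw [← ((hT i).1 hi).1]
      simp only [cteM]
      push_cast
      linear_combination (i.1.1 * i.1.2 : ℤ) * hg.1
  change (cteG Q R M t).ncard = _
  rw [hG, cte_union T _ (fun i hi => (h2 i hi).1.image _) ?_, sum_sigma', mul_sum]
  · refine sum_congr rfl fun i hi => ?_
    rw [← (h2 i hi).2]
    exact Set.InjOn.ncard_image fun g hg g' hg' h => (cte_unique hM ((hT i).1 hi).1
      ((hT i).1 hi).1 ((hT i).1 hi).2 ((hT i).1 hi).2 hg.1 hg'.1 h).2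
  · rintro i hi j hj _ ⟨g, hg, rfl⟩ ⟨g', hg', h⟩
    exact (cte_unique hM ((hT i).1 hi).1 ((hT j).1 hj).1 ((hT i).1 hi).2 ((hT j).1 hj).2 hg.1
      hg'.1 h.symm).1

end Pool.Agent.Dih
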