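import Pool.Agent.Lib.MP_60ff09_nt.Dih.CTe
import Pool.Agent.Lib.MP_696deb_nt.Gz

/-! A divisor against the difference of two points. -/

set_option autoImplicit false

open Complex Filter Topology Finset NumberTheorySymbols
open scoped Real ComplexConjugate Classical
open Pool.Agent.Lib.MP_696deb_nt Pool.Agent.Lib.MP_696deb_nt.B2.CM

namespace Pool.Agent.Dih

variable {Λ : AddSubgroup ℂ} {σ : ℂ → ℂ} {η : ℂ →L[ℝ] ℂ}

theorem ctf_sq {Q S : Fm} (hD : fdisc Q < 0) (hQ : 0 < Q.1) (hD' : fdisc S < 0) (hS : 0 < S.1)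
    (h : froot Q = froot S) : fbil Q S ^ 2 = fdisc Q * fdisc S := by
  have e1 : (0 : ℝ) < -fdisc Q := by exact_mod_cast neg_pos.mpr hD
  have e2 : (0 : ℝ) < -fdisc S := by exact_mod_cast neg_pos.mpr hD'
  have h0 := fside_froot hD hQ S
  have h2 := cosh_froot hD' hS (im_froot_pos hD hQ)
  have hpos : 0 < √(-fdisc Q : ℝ) * √(-fdisc S : ℝ) :=
    mul_pos (Real.sqrt_pos.mpr e1) (Real.sqrt_pos.mpr e2)
  rw [h0, ← h, sub_self, map_zero, zero_div, add_zero, div_div, eq_div_iff hpos.ne', one_mul] at h2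
  have h3 := congrArg (· ^ 2) h2
  simp only [neg_sq] at h3
  rw [mul_pow, Real.sq_sqrt e1.le, Real.sq_sqrt e2.le, neg_mul_neg] at h3
  exact_mod_cast h3.symm

theorem ctf_disc {R S : Fm} (h : FEq R S) : fdisc S = fdisc R := by
  obtain ⟨a, b, c, d, h1, rfl⟩ := h
  exact fdisc_fmap h1 R

theorem ctf_lam (hN : NerData Λ σ η) {Q R R' : Fm} (hD : fdisc Q < 0) (hQ : 0 < Q.1)
    (hD' : fdisc R < 0) (hR : 0 < R.1) (h : FEq R R')
    (hne : ∀ S, FEq R S → fbil Q S ^ 2 ≠ fdisc Q * fdisc R) :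
    nerLam σ η (Fi (froot Q) - Fi (froot R')) = nerLam σ η (Fi (froot Q) - Fi (froot R)) := by
  have hz : Fi (froot Q) - Fi (froot R) ∉ Λ := fun h0 => by
    obtain ⟨S, h1, h2⟩ := (hN.zero_iff hD' hR (im_froot_pos hD hQ)).1 ((hN.zero _).2 h0)
    refine hne S h1 ?_
    rw [← ctf_disc h1]
    exact ctf_sq hD hQ (by rwa [ctf_disc h1]) (h1.pos hD' hR) h2
  have hp := im_froot_pos (Q := R') (by rwa [ctf_disc h]) (h.pos hD' hR)
  obtain ⟨a, b, c, d, h1, rfl⟩ := h
  have h2 := Fi_level h1 hp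
  rw [mob_froot h1 hD' hR] at h2
  have h3 : Fi (froot Q) - Fi (froot (fmap R a b (15 * c) d)) =
      Fi (froot Q) - Fi (froot R) + ms a (15 * c) := by rw [h2]; ring
  rw [h3]
  exact hN.per _ _ (hN.mem a b c d h1) hz

theorem ctf_cnt {Q : Fm} (hD : fdisc Q < 0) (hQ : 0 < Q.1) (R : Fm) (t : ℤ) :
    (Function.support fun S : Fm =>
      if fbil Q S = -t then (if FEq R S then (1 : ℤ) else 0) else 0).Finite ∧
    (∑ᶠ S : Fm, if fbil Q S = -t then (if FEq R S then (1 : ℤ) else 0) else 0) = cntO Q R t := by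
  have hf := finite_orb hD hQ R t
  have hs : (Function.support fun S : Fm =>
      if fbil Q S = -t then (if FEq R S then (1 : ℤ) else 0) else 0) ⊆ hf.toFinset := by
    intro S hS
    rw [Set.Finite.coe_toFinset]
    by_contra h0
    refine hS ?_
    show (if fbil Q S = -t then (if FEq R S then (1 : ℤ) else 0) else 0) = 0
    split_ifs with h1 h2
    · exact absurd ⟨h2, h1⟩ h0
    · rfl
    · rfl
  refine ⟨hf.toFinset.finite_toSet.subset hs, ?_⟩
  rw [finsum_eq_sum_of_support_subset _ hs, cntO, Set.ncard_eq_toFinset_card _ hf,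
    Finset.card_eq_sum_ones, Nat.cast_sum]
  refine Finset.sum_congr rfl fun S hS => ?_
  have h1 := hf.mem_toFinset.1 hS
  rw [if_pos h1.2, if_pos h1.1, Nat.cast_one]

theorem point_pair (hN : NerData Λ σ η) {ι : Type} [Fintype ι] {Q : ι → Fm} {m : ι → ℤ} {D D' : ℤ}
    (hD : D < 0) (hQ : ∀ i, fdisc (Q i) = D ∧ 0 < (Q i).1) (hi : Function.Injective Q)
    (hm : ∑ i, m i = 0) {R R' : Fm} (hD' : D' < 0) (hR : fdisc R = D' ∧ 0 < R.1)
    (hR' : fdisc R' = D' ∧ 0 < R'.1)
    (hne : ∀ i S, FEq R S ∨ FEq R' S → fbil (Q i) S ^ 2 ≠ D * D') :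
    (∀ ε : ℝ, 0 < ε → Summable fun t : ℕ =>
      ((∑ i, m i * (cntO (Q i) R t - cntO (Q i) R' t) : ℤ) : ℝ) * kerK ε (t / √(D * D' : ℝ))) ∧
    Tendsto (fun ε : ℝ => ∑' t : ℕ,
      ((∑ i, m i * (cntO (Q i) R t - cntO (Q i) R' t) : ℤ) : ℝ) * kerK ε (t / √(D * D' : ℝ)))
      (𝓝[>] 0) (𝓝 (-∑ i, m i * (nerLam σ η (Fi (froot (Q i)) - Fi (froot R)) -
        nerLam σ η (Fi (froot (Q i)) - Fi (froot R'))))) := by
  have hQD : ∀ i, fdisc (Q i) < 0 := fun i => (hQ i).1 ▸ hD
  have hRD : fdisc R < 0 := hR.1 ▸ hD'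
  have hRD' : fdisc R' < 0 := hR'.1 ▸ hD'
  by_cases hRR : FEq R R'
  · have h1 : ∀ i (t : ℤ), cntO (Q i) R' t = cntO (Q i) R t := fun i t => by
      unfold cntO
      congr 1
      ext S
      exact and_congr_left' ⟨fun h => hRR.trans h, fun h => hRR.symm.trans h⟩
    have h2 : ∀ i, nerLam σ η (Fi (froot (Q i)) - Fi (froot R')) =
        nerLam σ η (Fi (froot (Q i)) - Fi (froot R)) := fun i =>
      ctf_lam hN (hQD i) (hQ i).2 hRD hR.2 hRR fun S hS => by
        rw [(hQ i).1, hR.1]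
        exact hne i S (Or.inl hS)
    simp only [h1, h2, sub_self, mul_zero, Finset.sum_const_zero, Int.cast_zero, zero_mul,
      tsum_zero, neg_zero]
    exact ⟨fun _ _ => summable_zero, tendsto_const_nhds⟩
  have hRR' : ¬ FEq R' R := fun h => hRR h.symm
  have hne' : R ≠ R' := fun h => hRR (h ▸ FEq.refl R)
  set w : Fm → ℤ := fun S => (if FEq R S then 1 else 0) - (if FEq R' S then 1 else 0) with hw
  have w1 : w R = 1 := by simp only [hw, if_pos (FEq.refl R), if_neg hRR', sub_zero]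
  have w2 : w R' = -1 := by simp only [hw, if_pos (FEq.refl R'), if_neg hRR, zero_sub]
  have w0 : ∀ S, w S ≠ 0 → FEq R S ∨ FEq R' S := fun S h => by
    by_contra h0
    rw [not_or] at h0
    exact h (by simp only [hw, if_neg h0.1, if_neg h0.2, sub_zero])
  set m' : Fm → ℤ := Function.extend Q m 0 with hm'
  have m1 : ∀ i, m' (Q i) = m i := fun i => hi.extend_apply m 0 i
  have hsum : ∀ {E : Type} [AddCommMonoid E] (g : Fm → E),
      ∑ q ∈ univ.image Q, g q = ∑ i, g (Q i) := fun g =>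
    Finset.sum_image fun a _ b _ h => hi h
  have hS : Pts (univ.image Q) m' D := by
    refine ⟨hD, fun q hq => ?_, fun q hq => ?_, ?_⟩
    · obtain ⟨i, -, rfl⟩ := Finset.mem_image.1 hq
      exact (hQ i).1
    · obtain ⟨i, -, rfl⟩ := Finset.mem_image.1 hq
      exact (hQ i).2
    · rw [hsum]
      simp only [m1, hm]
  have hmem : ∀ q ∈ ({R, R'} : Finset Fm), q = R ∨ q = R' := fun q hq => by
    simpa using hq
  have hT : Pts {R, R'} w D' := by
    refine ⟨hD', fun q hq => ?_, fun q hq => ?_, ?_⟩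
    · rcases hmem q hq with rfl | rfl
      exacts [hR.1, hR'.1]
    · rcases hmem q hq with rfl | rfl
      exacts [hR.2, hR'.2]
    · rw [Finset.sum_pair hne', w1, w2, add_neg_cancel]
  have hW : Wt w D' := by
    refine ⟨fun S h => ?_, fun S S' h => ?_, 1, fun S => ?_⟩
    · rcases w0 S h with h1 | h1
      · rw [ctf_disc h1, hR.1]
      · rw [ctf_disc h1, hR'.1]
    · have e : ∀ P : Fm, FEq P S' ↔ FEq P S := fun P =>
        ⟨fun h1 => h1.trans h.symm, fun h1 => h1.trans h⟩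
      simp only [hw, e]
    · simp only [hw]
      split_ifs <;> norm_num
  have key := point_point hN hS hT hW
    (fun S h => (w0 S h).elim (fun h1 => ⟨R, by simp, h1⟩) fun h1 => ⟨R', by simp, h1⟩)
    (fun q hq q' hq' h => by
      rcases hmem q hq with e | e <;> rcases hmem q' hq' with e' | e' <;> rw [e, e'] at h ⊢
      exacts [absurd h hRR, absurd h hRR'])
    (fun q hq S h => by
      obtain ⟨i, -, rfl⟩ := Finset.mem_image.1 hq
      exact hne i S (w0 S h))
  have hc : ∀ t : ℤ, cntP (univ.image Q) m' w (-t) =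
      ∑ i, m i * (cntO (Q i) R t - cntO (Q i) R' t) := fun t => by
    rw [cntP, hsum]
    refine Finset.sum_congr rfl fun i _ => ?_
    obtain ⟨a1, a2⟩ := ctf_cnt (hQD i) (hQ i).2 R t
    obtain ⟨b1, b2⟩ := ctf_cnt (hQD i) (hQ i).2 R' t
    rw [m1, ← a2, ← b2, ← finsum_sub_distrib a1 b1]
    congr 1
    refine finsum_congr fun S => ?_
    by_cases h : fbil (Q i) S = -t
    · simp only [if_pos h, hw]
    · simp only [if_neg h, sub_zero]
  have hl : ∑ q ∈ univ.image Q, ∑ S ∈ ({R, R'} : Finset Fm),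
      (m' q : ℝ) * w S * nerLam σ η (Fi (froot q) - Fi (froot S)) =
      ∑ i, m i * (nerLam σ η (Fi (froot (Q i)) - Fi (froot R)) -
        nerLam σ η (Fi (froot (Q i)) - Fi (froot R'))) := by
    rw [hsum]
    refine Finset.sum_congr rfl fun i _ => ?_
    rw [Finset.sum_pair hne', w1, w2, m1]
    push_cast
    ring
  simp only [hc, hl] at key
  exact key

end Pool.Agent.Dih
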