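import Pool.Agent.Lib.MP_60ff09_nt.Dih.CTd
import Pool.Agent.Lib.MP_60ff09_nt.Dih.CTf
import Pool.Agent.Lib.MP_60ff09_nt.Dih.ANz

/-! The archimedean part of the height pairing. -/

set_option autoImplicit false

open Complex Filter Topology Finset NumberTheorySymbols
open scoped Real ComplexConjugate Classical
open Pool.Agent.Lib.MP_696deb_nt Pool.Agent.Lib.MP_696deb_nt.B2.CM

namespace Pool.Agent.Dih

variable {Λ : AddSubgroup ℂ} {σ : ℂ → ℂ} {η : ℂ →L[ℝ] ℂ} {A : Par} {r : ℤ}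

theorem ctg_pos {n : ℕ} (hn : Good n) : 0 < n := by
  have := hn.mod4
  omega

theorem ctg_ne {n M : ℕ} (hn : Good n) (h0 : ∀ c, rcl n c M = 0) : M ≠ 0 := by
  rintro rfl
  exact one_ne_zero ((rcl_zero hn 1).symm.trans (h0 1))

theorem ctg_disc {n M : ℕ} {Q : Fm} (hQ : IsHg (-n) r Q) {a d : ℕ} (h : a * d = M) (hM : M ≠ 0)
    (hn : 0 < n) (b : ℤ) : fdisc (fmap Q d (-b) 0 a) = -(n * M ^ 2) ∧
      0 < (fmap Q d (-b) 0 a).1 ∧ froot (fmap Q d (-b) 0 a) = (a * froot Q + b) / d := by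
  subst h
  refine ⟨by rw [fdisc_fmap', hQ.disc]; push_cast; ring, ?_⟩
  exact_mod_cast fmap_hecke (a := a) (d := d) (by rw [hQ.disc]; omega) hQ.pos
    (by exact_mod_cast Nat.pos_of_ne_zero (left_ne_zero_of_mul hM))
    (by exact_mod_cast Nat.pos_of_ne_zero (right_ne_zero_of_mul hM)) b

theorem ctg_hne {n : ℕ} (hn : Good n) (hr : 60 ∣ r ^ 2 + n)
    {e : Pc n 1 → Fm} (he : HFam n r e) {M : ℕ} (h15 : M.Coprime 15) (h0 : ∀ c, rcl n c M = 0)
    (x y : Pc n 1) {a d : ℕ} (h : a * d = M) {b : ℕ} (hb : b < d) {S : Fm}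
    (hS : FEq (fmap (e y) d (-b) 0 a) S) : fbil (e x) S ^ 2 ≠ -n * -(n * M ^ 2) := by
  intro k
  have hM := ctg_ne hn h0
  have n0 := ctg_pos hn
  have hD : fdisc (e x) < 0 := by rw [(he x).1.disc]; omega
  have h1 : cntO (e x) (fmap (e y) d (-b) 0 a) (-fbil (e x) S) ≠ 0 :=
    Set.ncard_ne_zero_of_mem (a := S) ⟨hS, (neg_neg _).symm⟩ (finite_orb hD (he x).1.pos _ _)
  have h2 : cntG (e (x * y⁻¹ * y)) (e y) M (-fbil (e x) S) ≠ 0 := by
    rw [inv_mul_cancel_right, cntG_eq_hecke hn hD (he x).1.pos (he y).1.disc hM h15]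
    refine mul_ne_zero two_ne_zero fun k => h1 ?_
    exact sum_eq_zero_iff.1 (sum_eq_zero_iff.1 k (a, d)
      (Nat.mem_divisorsAntidiagonal.2 ⟨h, hM⟩)) b (mem_range.2 hb)
  obtain ⟨j, h3, h4⟩ := exists_of_cntG hn hr he h2
  have h5 : (0 : ℤ) < M * n := by positivity
  have h6 : (j : ℤ) = 0 := by
    rw [neg_eq_iff_eq_neg.1 h3] at k
    have : (j : ℤ) * (M * n + 15 * j) = 0 := by linarith
    exact (mul_eq_zero.1 this).resolve_right (by positivity)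
  rw [h6, mul_zero, add_zero, rcl_mul_n hn] at h4
  exact h4 (h0 _)

theorem ctg_root {Q R : Fm} (hD : fdisc Q < 0) (hQ : 0 < Q.1) (hD' : fdisc R < 0) (hR : 0 < R.1)
    (h : froot Q = froot R) : fbil Q R ^ 2 = fdisc Q * fdisc R := by
  have h1 := froot_root hD hQ
  have h2 := froot_root hD' hR
  have h3 := im_froot_pos hD hQ
  rw [← h] at h2
  have h4 : ((R.1 * Q.2.1 - Q.1 * R.2.1 : ℤ) : ℂ) * froot Q +
      ((R.1 * Q.2.2 - Q.1 * R.2.2 : ℤ) : ℂ) = 0 := by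
    push_cast
    linear_combination R.1 * h1 - Q.1 * h2
  have h5 := congrArg im h4
  simp only [add_im, mul_im, intCast_re, intCast_im, zero_mul, add_zero, zero_im, mul_eq_zero,
    h3.ne', or_false, Int.cast_eq_zero] at h5
  rw [h5, Int.cast_zero, zero_mul, zero_add, Int.cast_eq_zero] at h4
  simp only [fbil, fdisc]
  linear_combination 4 * (R.1 * Q.2.2 - Q.1 * R.2.2) * h4 +
    4 * (Q.2.1 * R.2.2 - Q.2.2 * R.2.1) * h5

/-- The points of the Hecke correspondence differ from the Heegner points. -/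
theorem sub_notMem (hN : NerData Λ σ η) {n : ℕ} (hn : Good n) (hr : 60 ∣ r ^ 2 + n)
    {e : Pc n 1 → Fm} (he : HFam n r e) {M : ℕ} (h15 : M.Coprime 15) (h0 : ∀ c, rcl n c M = 0)
    (x y : Pc n 1) {a d : ℕ} (h : a * d = M) {b : ℕ} (hb : b < d) :
    Fi (froot (e x)) - Fi ((a * froot (e y) + b) / d) ∉ Λ := by
  intro k
  have hM := ctg_ne hn h0
  have n0 := ctg_pos hn
  obtain ⟨h1, h2, h3⟩ := ctg_disc (he y).1 h hM n0 b
  have hD : fdisc (e x) < 0 := by rw [(he x).1.disc]; omega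
  have hD' : fdisc (fmap (e y) d (-b) 0 a) < 0 := by rw [h1, neg_lt_zero]; positivity
  rw [Int.cast_natCast] at h3
  rw [← h3, ← hN.zero] at k
  obtain ⟨S, h4, h5⟩ := (hN.zero_iff hD' h2 (im_froot_pos hD (he x).1.pos)).1 k
  have h6 : fdisc S = fdisc (fmap (e y) d (-b) 0 a) := by
    obtain ⟨_, _, _, _, h, rfl⟩ := h4
    exact fdisc_fmap h _
  refine ctg_hne hn hr he h15 h0 x y h hb h4 ?_
  rw [ctg_root hD (he x).1.pos (h6 ▸ hD') (h4.pos hD' h2) h5, h6, h1, (he x).1.disc]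

/-- Regularised sums with a limit. -/
def CtgLim (f : ℝ → ℕ → ℝ) (l : ℝ) : Prop :=
  (∀ ε : ℝ, 0 < ε → Summable (f ε)) ∧ Tendsto (fun ε => ∑' t, f ε t) (𝓝[>] 0) (𝓝 l)

theorem ctg_sum {ι : Type} (s : Finset ι) {f : ι → ℝ → ℕ → ℝ} {l : ι → ℝ}
    (h : ∀ i ∈ s, CtgLim (f i) (l i)) : CtgLim (fun ε t => ∑ i ∈ s, f i ε t) (∑ i ∈ s, l i) := by
  refine ⟨fun ε hε => summable_sum fun i hi => (h i hi).1 ε hε,
    (tendsto_finsetSum s fun i hi => (h i hi).2).congr' ?_⟩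
  filter_upwards [self_mem_nhdsWithin] with ε hε
  exact (Summable.tsum_finsetSum fun i hi => (h i hi).1 ε hε).symm

theorem ctg_swap {G R : Type} [Group G] [Fintype G] [CommRing R] {W : G → ℤ} (hW : ∑ x, W x = 0)
    (M : ℕ) (φ : G → G → ℕ × ℕ → ℕ → R) :
    ∑ y, ∑ u ∈ M.divisorsAntidiagonal, ∑ b ∈ range u.2,
      ∑ x, (W (x * y⁻¹) : R) * (φ x y u b - φ x 1 u b) =
    ∑ x, ∑ y, (W (x * y⁻¹) : R) * ∑ u ∈ M.divisorsAntidiagonal, ∑ b ∈ range u.2, φ x y u b := by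
  have h1 : ∀ x, ∑ y, (W (x * y⁻¹) : R) = 0 := fun x => by
    rw [← Int.cast_sum, ← Int.cast_zero, ← hW]
    exact congrArg _ (Equiv.sum_comp ((Equiv.inv G).trans (Equiv.mulLeft x)) W)
  have h2 : ∀ (y : G) (g : G → ℕ × ℕ → ℕ → R), ∑ u ∈ M.divisorsAntidiagonal, ∑ b ∈ range u.2,
      ∑ x, g x u b = ∑ x, ∑ u ∈ M.divisorsAntidiagonal, ∑ b ∈ range u.2, g x u b := fun y g => by
    rw [sum_comm]
    exact sum_congr rfl fun u _ => sum_comm
  rw [sum_congr rfl fun y _ => h2 y _, sum_comm]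
  refine sum_congr rfl fun x _ => ?_
  simp only [← mul_sum, sum_sub_distrib, mul_sub, ← sum_mul, h1, zero_mul, sub_zero]

theorem Par.Ok.arch_link [Fintype (Pc A.n 1)] (h : A.Ok) (hN : NerData Λ σ η)
    (hr : 60 ∣ r ^ 2 + A.n) {e : Pc A.n 1 → Fm} (he : HFam A.n r e) {W : Pc A.n 1 → ℤ}
    (hW0 : ∑ x, W x = 0) (hW : ∀ x, W x ≠ 0 → gcl A.p x = A.χp ∧ gcl A.p x = A.χq) {M : ℕ}
    (h15 : M.Coprime 15) (h0 : ∀ c, rcl A.n c M = 0) :
    Tendsto (fun ε => 2 * A.arch (TW W) (wW W) M ε) (𝓝[>] 0)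
      (𝓝 (4 * ∑ x, ∑ y, W (x * y⁻¹) *
        hsum M (fun τ => nerLam σ η (Fi (froot (e x)) - Fi τ)) (froot (e y)))) := by
  have hn := h.good
  have hM := ctg_ne hn h0
  have n0 := ctg_pos hn
  have hD : ∀ x, fdisc (e x) < 0 := fun x => by rw [(he x).1.disc]; omega
  have hi : Function.Injective e := fun x y k => by rw [← (he x).2, k, (he y).2]
  have hsq : √(((-A.n : ℤ) : ℝ) * (-(A.n * M ^ 2) : ℤ)) = M * A.n := by
    rw [Real.sqrt_eq_iff_mul_self_eq (by push_cast; rw [neg_mul_neg]; positivity) (by positivity)]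
    push_cast
    ring
  obtain ⟨-, key⟩ := ctg_sum univ fun y _ => ctg_sum M.divisorsAntidiagonal fun u hu =>
    ctg_sum (range u.2) fun b hb => by
      have e1 := (Nat.mem_divisorsAntidiagonal.1 hu).1
      have e2 := ctg_disc (he y).1 e1 hM n0 b
      have e3 := ctg_disc (he 1).1 e1 hM n0 b
      exact point_pair hN (Q := e) (m := fun x => W (x * y⁻¹)) (D := -A.n) (D' := -(A.n * M ^ 2))
        (by omega) (fun x => ⟨(he x).1.disc, (he x).1.pos⟩) hi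
        ((Equiv.sum_comp (Equiv.mulRight y⁻¹) W).trans hW0) (by rw [neg_lt_zero]; positivity)
        ⟨e2.1, e2.2.1⟩ ⟨e3.1, e3.2.1⟩ fun x S hS => hS.elim
          (ctg_hne hn hr he h15 h0 x y e1 (mem_range.1 hb))
          (ctg_hne hn hr he h15 h0 x 1 e1 (mem_range.1 hb))
  have e4 := ctg_swap hW0 M fun x y u b =>
    nerLam σ η (Fi (froot (e x)) - Fi (froot (fmap (e y) u.2 (-b) 0 u.1)))
  simp only [sum_neg_distrib, e4, ← sum_mul, ← Int.cast_sum, hsq] at key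
  have e5 : ∀ t : ℤ, ∑ c, W c * ∑ y, (cntG (e (c * y)) (e y) M t : ℤ) =
      2 * ∑ y, ∑ u ∈ M.divisorsAntidiagonal, ∑ b ∈ range u.2, ∑ x, W (x * y⁻¹) *
        ((cntO (e x) (fmap (e y) u.2 (-b) 0 u.1) t : ℤ) -
          cntO (e x) (fmap (e 1) u.2 (-b) 0 u.1) t) := fun t => by
    have e6 := ctg_swap hW0 M fun x y u b => (cntO (e x) (fmap (e y) u.2 (-b) 0 u.1) t : ℤ)
    simp only [Int.cast_id] at e6
    rw [e6, sum_congr rfl fun c _ => mul_sum _ _ (W c), sum_comm,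
      sum_comm (f := fun x y => W (x * y⁻¹) * _), mul_sum]
    refine sum_congr rfl fun y _ => ?_
    rw [mul_sum, ← Equiv.sum_comp (Equiv.mulRight y⁻¹)]
    refine sum_congr rfl fun x _ => ?_
    rw [Equiv.coe_mulRight, inv_mul_cancel_right,
      cntG_eq_hecke hn (hD x) (he x).1.pos (he y).1.disc hM h15]
    push_cast
    ring
  have e7 : ∀ k : ℕ, ∑ c, W c * ∑ y, (cntG (e (c * y)) (e y) M (M * A.n + 30 * k) : ℤ) =
      -(rW (TW W) (wW W) (M * A.n + 15 * k) * A.Sneg k) := fun k => by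
    rw [rW_TW hn, sum_mul, ← sum_neg_distrib]
    refine sum_congr rfl fun c _ => ?_
    by_cases hc : W c = 0
    · simp [hc]
    rcases eq_or_ne k 0 with rfl | hk
    · rw [sum_eq_zero fun y _ => ?_]
      · simp [Par.Sneg]
      · by_contra k
        obtain ⟨j, h3, h4⟩ := exists_of_cntG hn hr he (Int.natCast_ne_zero.1 k)
        rw [show (j : ℤ) = 0 by omega, mul_zero, add_zero, rcl_mul_n hn] at h4
        exact h4 (h0 _)
    · rw [h.count hr he (hW c hc).1 (hW c hc).2 M hk]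
      ring
  obtain ⟨S, hS⟩ : ∃ S : ℤ → ℤ, ∀ t, ∑ y, ∑ u ∈ M.divisorsAntidiagonal, ∑ b ∈ range u.2,
      ∑ x, W (x * y⁻¹) * ((cntO (e x) (fmap (e y) u.2 (-b) 0 u.1) t : ℤ) -
        cntO (e x) (fmap (e 1) u.2 (-b) 0 u.1) t) = S t := ⟨_, fun _ => rfl⟩
  simp only [hS] at key e5
  convert key.const_mul (-4) using 2 with ε
  · rw [Par.arch, ← tsum_mul_left, ← tsum_mul_left]
    refine Eq.trans (tsum_congr fun k => ?_) ((show Function.Injective fun k => M * A.n + 30 * k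
      from fun a b k => by simpa using k).tsum_eq fun t ht => ?_)
    · have e8 := (e5 _).symm.trans (e7 k)
      rw [← neg_eq_iff_eq_neg] at e8
      rw [← e8]
      push_cast
      ring
    · by_contra k
      refine ht ?_
      have e8 := e5 t
      rw [sum_eq_zero fun c _ => by
        rw [sum_eq_zero fun y _ => ?_, mul_zero]
        by_contra k'
        obtain ⟨j, h3, -⟩ := exists_of_cntG hn hr he (Int.natCast_ne_zero.1 k')
        exact k ⟨j, by exact_mod_cast h3.symm⟩] at e8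
      simp only [(mul_eq_zero.1 e8.symm).resolve_left two_ne_zero, Int.cast_zero, zero_mul, mul_zero]
  · rw [neg_mul_neg]
    refine congrArg _ (sum_congr rfl fun x _ => sum_congr rfl fun y _ => congrArg _
      (sum_congr rfl fun u hu => sum_congr rfl fun b _ => ?_))
    rw [(ctg_disc (he y).1 (Nat.mem_divisorsAntidiagonal.1 hu).1 hM n0 b).2.2, Int.cast_natCast]

theorem ctg_cls (hN : NerData Λ σ η) [Fintype (Pc A.n 1)] {e : Pc A.n 1 → Fm} {W : Pc A.n 1 → ℤ}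
    (h : A.Ok) (hr : 60 ∣ r ^ 2 + A.n) (he : HFam A.n r e) (hW0 : ∑ x, W x = 0)
    (hW : ∀ x, W x ≠ 0 → gcl A.p x = A.χp ∧ gcl A.p x = A.χq) {C : ℂ} {L : ℂ → ℂ}
    (h3 : ∀ s : ℂ, 2 < s.re → L s = LSeries (e15 A.n) (2 * s - 1) *
      LSeries (fun m => (rW (TW W) (wW W) m * a15 m : ℤ)) s)
    (h4 : ∀ M : ℕ, 0 < M → rW (TW W) (wW W) (M * A.n) = 0 →
      Tendsto (fun ε => ((2 * A.arch (TW W) (wW W) M ε : ℝ) : ℂ)) (𝓝[>] 0)
        (𝓝 (C * a15 M * deriv L 1 - A.fin (TW W) (wW W) M))) :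
    (∀ s : ℂ, 2 < s.re → L s = LSeries (e15 A.n) (2 * s - 1) *
      LSeries (fun m => 2 * bch (fun x => (W x : ℂ)) m * a15 m) s) ∧
    ∀ M : ℕ, M.Coprime 15 → (∀ c, rcl A.n c M = 0) →
      C * a15 M * deriv L 1 = (A.fin (TW W) (wW W) M + 4 * ∑ x, ∑ y, W (x * y⁻¹) *
        hsum M (fun τ => nerLam σ η (Fi (froot (e x)) - Fi τ)) (froot (e y)) : ℝ) := by
  have hn := h.good
  refine ⟨fun s hs => ?_, fun M h15 h0 => ?_⟩
  · rw [h3 s hs]
    refine congrArg _ (congrArg (LSeries · s) (funext fun m => ?_))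
    rw [rW_TW hn, bch]
    push_cast
    ring
  · have h5 := h4 M (Nat.pos_of_ne_zero (ctg_ne hn h0)) (by
      rw [rW_TW hn]
      exact sum_eq_zero fun x _ => by rw [rcl_mul_n hn, h0, Nat.cast_zero, mul_zero])
    have h6 := tendsto_nhds_unique h5 ((continuous_ofReal.tendsto _).comp
      (h.arch_link hN hr he hW0 hW h15 h0))
    rw [ofReal_add, ← sub_eq_iff_eq_add']
    exact h6

/-- The formula of Gross and Zagier up to the finite places. -/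
theorem gz_cls (hN : NerData Λ σ η) (p q : ℕ) : ∃ C : ℂ, ∀ (χ r : ℤ) [Fintype (Pc (p * q) 1)]
    (e : Pc (p * q) 1 → Fm) (W : Pc (p * q) 1 → ℤ), (Par.mk p q χ χ).Ok →
    60 ∣ r ^ 2 + (p * q : ℕ) → HFam (p * q) r e → ∑ x, W x = 0 → (∀ x, W x ≠ 0 → gcl p x = χ) →
    ∃ L : ℂ → ℂ, Differentiable ℂ L ∧ L 1 = 0 ∧
      (∀ s : ℂ, 2 < s.re → L s = LSeries (e15 (p * q)) (2 * s - 1) *
        LSeries (fun m => 2 * bch (fun x => (W x : ℂ)) m * a15 m) s) ∧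
      ∀ M : ℕ, M.Coprime 15 → (∀ c, rcl (p * q) c M = 0) →
        C * a15 M * deriv L 1 = ((Par.mk p q χ χ).fin (TW W) (wW W) M + 4 * ∑ x, ∑ y, W (x * y⁻¹) *
          hsum M (fun τ => nerLam σ η (Fi (froot (e x)) - Fi τ)) (froot (e y)) : ℝ) := by
  obtain ⟨C, hC⟩ := gzan p q
  refine ⟨C, fun χ r inst e W h hr he hW0 hW => ?_⟩
  have hW' : ∀ x, W x ≠ 0 → gcl p x = χ ∧ gcl p x = χ := fun x hx => ⟨hW x hx, hW x hx⟩
  obtain ⟨L, h1, h2, h3, h4⟩ := hC χ χ _ _ (@Par.Ok.dat ⟨p, q, χ, χ⟩ inst h W hW0 hW')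
  exact ⟨L, h1, h2, @ctg_cls _ _ _ ⟨p, q, χ, χ⟩ r hN inst e W h hr he hW0 hW' C L h3 h4⟩

end Pool.Agent.Dih
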