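import Pool.Agent.Lib.MP_60ff09_nt.Dih.AN0
import Pool.Agent.Lib.MP_696deb_nt.B2.CM1
import Pool.Agent.Lib.MP_696deb_nt.NeronArch

/-! Heegner points for class group characters: definitions. -/

set_option autoImplicit false

open scoped Classical NumberTheorySymbols
open Pool.Agent.Lib.MP_696deb_nt Pool.Agent.Lib.MP_696deb_nt.B2 Pool.Agent.Lib.MP_696deb_nt.B2.CM
open Pool.Agent.Dih (rep rW lam1 e15 Par GZan)

namespace Pool.Agent.DH

/-- The two primes. -/
structure PQ (p q : ℕ) : Prop where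
  pp : p.Prime
  qp : q.Prime
  pm : p % 60 = 17 ∨ p % 60 = 53
  qm : q % 60 = 7 ∨ q % 60 = 43

/-- The class group. -/
abbrev Cl (n : ℕ) : Type := Pc n 1

/-- The ring of integers, as a lattice. -/
noncomputable abbrev OO (n : ℕ) : Lt := ot (Oc n 1)

/-- The class of a lattice. -/
noncomputable abbrev cls (n : ℕ) (I : Lt) : Cl n := cl (Oc n 1) I

/-- Invertible lattices. -/
abbrev Inv (n : ℕ) (I : Lt) : Prop := IsIv (Oc n 1) I

/-- The conjugate lattice. -/
noncomputable abbrev cj (I : Lt) : Lt := mp starRingAut I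

/-- The lattice `I` has norm `ν`. -/
structure Nm (n : ℕ) (I : Lt) (ν : ℝ) : Prop where
  iv : Inv n I
  pos : 0 < ν
  eq : I * cj I = sc ν (OO n)

/-- The form `Q` belongs to the class `x`. -/
structure IsFm (n : ℕ) (x : Cl n) (Q : Fm) : Prop where
  disc : fdisc Q = -n
  pos : 0 < Q.1
  iv : Inv n (idl n 1 Q.1 Q.2.1)
  eq : cls n (idl n 1 Q.1 Q.2.1) = x

/-- A form in the class `x`. -/
noncomputable def fm (n : ℕ) (x : Cl n) : Fm := if h : ∃ Q, IsFm n x Q then h.choose else 0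

/-- The number of representations by the class `x`: twice the number of ideals of norm `N`. -/
noncomputable def rc (n : ℕ) (x : Cl n) (N : ℤ) : ℕ := rep (fm n x) N

/-- `g` is the genus character. -/
def IsGen (p q : ℕ) (g : Cl (p * q) →* ℤˣ) : Prop := ∀ x Q, IsFm (p * q) x Q → ∀ u v : ℤ,
  (¬ (p : ℤ) ∣ fval Q u v → J(fval Q u v | p) = g x) ∧
    (¬ (q : ℤ) ∣ fval Q u v → J(fval Q u v | q) = g x)

/-- The class of a prime ideal of degree one above `l`. -/
def Prm (n l : ℕ) (x : Cl n) : Prop :=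
  ∃ b k : ℤ, b ^ 2 + n = 4 * l * k ∧ Inv n (idl n 1 l b) ∧ x = cls n (idl n 1 l b)

/-- The Heegner form `Q` belongs to the class `x`. -/
structure IsHf (n : ℕ) (r : ℤ) (x : Cl n) (Q : Fm) : Prop where
  hg : IsHg (-n) r Q
  cop : IsCoprime Q.1 n
  eq : cls n (sp2 (15 * froot Q) 1) = x

/-- A Heegner form in the class `x`. -/
noncomputable def hf (n : ℕ) (r : ℤ) (x : Cl n) : Fm :=
  if h : ∃ Q, IsHf n r x Q then h.choose else 0

/-- Its root. -/
noncomputable def tau (n : ℕ) (r : ℤ) (x : Cl n) : ℂ := froot (hf n r x)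

/-- The character of the field of discriminant `-n`. -/
noncomputable def kr (n l : ℕ) : ℂ := (J((l : ℤ) | n) : ℂ)

/-- Odd inert primes. -/
structure Inert (n l : ℕ) : Prop where
  prime : l.Prime
  odd : l ≠ 2
  jac : J(-n | l) = -1

/-- The inert prime `l` divides `M` exactly once. -/
structure Once (n l M : ℕ) : Prop extends Inert n l where
  dvd : l ∣ M
  ndvd : ¬ l ^ 2 ∣ M

/-- The Hecke relations in weight one. -/
structure HeckeC (b t : ℕ → ℂ) : Prop where
  one : b 1 = 1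
  rel : ∀ l : ℕ, l.Prime → ∀ N : ℕ, 0 < N →
    b (l * N) + (if l ∣ N then t l * b (N / l) else 0) = b l * b N

/-- The inverse Euler factor of a product of two Hecke eigenforms. -/
def loc2 (a c s t X : ℂ) : ℂ :=
  1 - a * s * X + (c * (s ^ 2 - 2 * t) + a ^ 2 * t) * X ^ 2 - a * c * s * t * X ^ 3 +
    c ^ 2 * t ^ 2 * X ^ 4

/-- The inverse Euler factor for the newform of level fifteen. -/
noncomputable def loc15 (b t : ℕ → ℂ) (l : ℕ) (s : ℂ) : ℂ :=
  loc2 (a15 l) (if l ∣ 15 then 0 else l) (b l) (t l) ((l : ℂ) ^ (-s))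

/-- The Euler product continues to an entire function with a simple zero at the centre. -/
def Simple (b t : ℕ → ℂ) : Prop := ∃ F : ℂ → ℂ, Differentiable ℂ F ∧ analyticOrderAt F 1 = 1 ∧
  ∀ s : ℂ, (3 : ℝ) / 2 < s.re →
    HasProd (fun l : ℕ => if l.Prime then (loc15 b t l s)⁻¹ else 1) (F s)

/-- The upper triangular matrices of determinant `M`. -/
def RS (M : ℕ) : Finset (ℕ × ℕ × ℕ) :=
  (Finset.range (M + 1) ×ˢ Finset.range (M + 1) ×ˢ Finset.range (M + 1)).filter
    fun x => x.1 * x.2.2 = M ∧ x.2.1 < x.2.2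

/-- The matrix of a triple. -/
def um (x : ℕ × ℕ × ℕ) : MZ := ut x.1 x.2.1 x.2.2

/-- The Hecke correspondence. -/
noncomputable def TT {A : Type} [AddCommMonoid A] (M : ℕ) (G : ℂ → A) (τ : ℂ) : A :=
  ∑ x ∈ RS M, G (act (um x) τ)

/-- The number of matrices of determinant `M` and level fifteen with given bilinear form. -/
noncomputable def NN (Q R : Fm) (M t : ℤ) : ℕ :=
  {v : ℤ × ℤ × ℤ × ℤ | v.1 * v.2.2.2 - v.2.1 * (15 * v.2.2.1) = M ∧
    fbil Q (fmap R v.1 v.2.1 (15 * v.2.2.1) v.2.2.2) = -t}.ncard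

section

variable (n : ℕ) [Fintype (Cl n)]

/-- The coefficients of the theta series of a character. -/
noncomputable def rth (θ : Cl n →* ℂ) (N : ℕ) : ℂ := (∑ x, θ x * rc n x N) / 2

/-- The coefficients of a weighted sum of theta series. -/
noncomputable def rcW (W : Cl n → ℤ) (N : ℤ) : ℤ := ∑ x, W x * rc n x N

/-- The weighted sum of height pairings. -/
noncomputable def hW (r : ℤ) (W : Cl n → ℤ) : ℝ :=
  ∑ x, ∑ y, W (x / y) * hpair (pt (tau n r x)) (pt (tau n r y))

/-- The weighted sum of archimedean local heights. -/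
noncomputable def AS (r : ℤ) (W : Cl n → ℤ) (M : ℕ) : ℝ :=
  ∑ x, ∑ y, W (x / y) * TT M (fun z => lam15 (Fi (tau n r x) - Fi z)) (tau n r y)

/-- The height pairing for a character. -/
noncomputable def hth (r : ℤ) (θ : Cl n →* ℂ) : ℂ :=
  ∑ x, ∑ y, θ (x / y) * hpair (pt (tau n r x)) (pt (tau n r y))

/-- The function `Λ` continues the Rankin series with coefficients `b`. -/
def IsRk (b : ℕ → ℂ) (Λ : ℂ → ℂ) : Prop := Differentiable ℂ Λ ∧ ∀ s : ℂ, 2 < s.re →
  Λ s = LSeries (e15 n) (2 * s - 1) * LSeries (fun m => b m * a15 m) s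

/-- The finite part: no `log P` for split `P`, and a small multiple of it otherwise. -/
structure FinOk (F : ℕ → ℝ) : Prop where
  split : ∀ P : ℕ, P.Prime → J((P : ℤ) | n) = 1 → ∀ l, Inert n l → F l ∈ LogS P
  non : ∀ P : ℕ, P.Prime → J((P : ℤ) | n) ≠ 1 → ∀ l, Inert n l → l ≠ P → ∃ C : ℝ, ∀ j : ℕ,
    ∃ ρ : ℚ, |(ρ : ℝ)| ≤ C * (j + 1) ^ 4 ∧ F (l * P ^ j) - ρ * Real.log P ∈ LogS P

end

/-- The discriminant of every matrix that fixes `τ` is divisible by `l ^ 2`. -/
def NF (l : ℕ) (τ : ℂ) : Prop := ∀ m t : ℤ, m ≠ 0 → Fix m t τ → (l : ℤ) ^ 2 ∣ t ^ 2 - 4 * m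

/-- `τ` is a special point of level `P ^ s`. -/
def Lev (P s : ℕ) (τ : ℂ) : Prop := 0 < τ.im ∧ ∃ a b c : ℤ, ¬ (P : ℤ) ∣ a ∧
  a * τ ^ 2 + P ^ s * b * τ + P ^ (2 * s) * c = 0

/-- The form is anisotropic at `P`. -/
def An (P : ℕ) (Q : Fm) : Prop :=
  ∀ x y : ℤ, (P : ℤ) ^ 2 ∣ fval Q x y → (P : ℤ) ∣ x ∧ (P : ℤ) ∣ y

/-- The values of `a` are squares of values of the maximal unramified extensions. -/
def Ev (D : Subgroup Gam) (a : Qbar) : Prop :=
  ∀ w : Plc, ∃ y, Fx (D ⊓ Ine w) y ∧ w.V a = w.V y ^ 2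

/-- `β` is trivial on all inertia groups in `D`. -/
def Unr {A : Type} [Zero A] (D : Subgroup Gam) (β : Gam → A) : Prop :=
  ∀ w : Plc, ∀ σ ∈ D ⊓ Ine w, β σ = 0

/-- Smooth characters of `D`. -/
structure Ch {A : Type} [Add A] (D : Subgroup Gam) (β : Gam → A) : Prop where
  sm : Sm D β
  hom : IsHom D β

/-- `β` is the Kummer character of a number with even valuations. -/
def Vir (D : Subgroup Gam) (β : Gam → ZMod (2 ^ 1)) : Prop :=
  ∃ b, Fx D b ∧ Ev D b ∧ Kum 1 D b β

/-- An unramified character of order `2 ^ (j + 1)`, at least four. -/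
structure UC (n j : ℕ) (χ : Gam → ZMod (2 ^ (j + 1))) : Prop extends Ch (GK n) χ where
  pos : 1 ≤ j
  unr : Unr (GK n) χ
  onto : ∃ φ ∈ GK n, χ φ = 1

/-- The group of the subfield of degree `2 ^ j`. -/
noncomputable def DF (n : ℕ) {j : ℕ} (χ : Gam → ZMod (2 ^ (j + 1))) : Subgroup Gam :=
  Subgroup.closure {g | g ∈ GK n ∧ 2 * χ g = 0}

/-- The quadratic character of that group. -/
noncomputable def sg {j : ℕ} (χ : Gam → ZMod (2 ^ (j + 1))) (g : Gam) : ℤ :=
  if χ g = 0 then 1 else -1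

/-- The points of the twist by that character. -/
noncomputable def AA (n : ℕ) {j : ℕ} (χ : Gam → ZMod (2 ^ (j + 1))) : AddSubgroup EE where
  carrier := {P | ∀ g ∈ DF n χ, g • P = sg χ g • P}
  zero_mem' := fun g _ => by simp
  add_mem' := fun h k g hg => by rw [smul_add, smul_add, h g hg, k g hg]
  neg_mem' := fun h g hg => by rw [smul_neg, smul_neg, h g hg]

/-- The Galois character of a class group character. -/
noncomputable def ch {n m : ℕ} (l : Cl n →* Multiplicative (ZMod m)) (g : Gam) : ZMod m :=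
  (l (rho n 1 g)).toAdd

/-- The sum of the Heegner points on which the character takes a given value. -/
noncomputable def yS {n m : ℕ} [Fintype (Cl n)] (r : ℤ) (l : Cl n →* Multiplicative (ZMod m))
    (k : ZMod m) : EE :=
  ∑ x with (l x).toAdd = k, yQ n 1 r x

/-- The Heegner point of the twist. -/
noncomputable def wP {n j : ℕ} [Fintype (Cl n)] (r : ℤ)
    (l : Cl n →* Multiplicative (ZMod (2 ^ (j + 1)))) : EE :=
  yS r l 0 - yS r l (2 ^ j)

/-- Any `k` elements are dependent. -/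
def Dep {A : Type} [AddCommGroup A] (S : AddSubgroup A) (k : ℕ) : Prop :=
  ∀ v : Fin k → A, (∀ i, v i ∈ S) → ¬ LinearIndependent ℤ v

end Pool.Agent.DH
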