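import Pool.Agent.Lib.MP_60ff09_nt.Dih.D0
import Pool.Agent.Lib.MP_696deb_nt.Hecke
import Pool.Agent.Lib.MP_696deb_nt.Bound
import Pool.Agent.Lib.MP_696deb_nt.AnForms

/-! The Euler product of the Rankin series. -/

set_option autoImplicit false

open scoped Classical NumberTheorySymbols
open Pool.Agent.Lib.MP_696deb_nt Pool.Agent.Lib.MP_696deb_nt.B2 Pool.Agent.Lib.MP_696deb_nt.B2.CM
open Pool.Agent.Dih (rep rW lam1 e15 Par GZan)

namespace Pool.Agent.DH

variable {n : ℕ} {b t : ℕ → ℂ} {s : ℂ}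

theorem eu_rec (h : HeckeC b t) {p : ℕ} (hp : p.Prime) (k N : ℕ) (hN : 0 < N) :
    b (p ^ (k + 2) * N) = b p * b (p ^ (k + 1) * N) - t p * b (p ^ k * N) := by
  have := h.rel p hp (p ^ (k + 1) * N) (Nat.mul_pos (pow_pos hp.pos _) hN)
  rw [if_pos (Dvd.dvd.mul_right (dvd_pow_self p (by omega)) N),
    show p ^ (k + 1) * N / p = p ^ k * N by
      rw [pow_succ', mul_assoc, Nat.mul_div_cancel_left _ hp.pos],
    show p * (p ^ (k + 1) * N) = p ^ (k + 2) * N by ring] at this
  linear_combination this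

theorem eu_rec' (h : HeckeC b t) {p : ℕ} (hp : p.Prime) (k : ℕ) :
    b (p ^ (k + 2)) = b p * b (p ^ (k + 1)) - t p * b (p ^ k) := by
  simpa using eu_rec h hp k 1 one_pos

theorem eu_pow_mul (h : HeckeC b t) {p : ℕ} (hp : p.Prime) {N : ℕ} (hN : 0 < N)
    (hpn : ¬ p ∣ N) (k : ℕ) : b (p ^ k * N) = b (p ^ k) * b N := by
  induction k using Nat.strong_induction_on with
  | _ k ih =>
    rcases k with _ | _ | k
    · simp [h.one]
    · simpa [hpn] using h.rel p hp N hN
    · rw [eu_rec h hp k N hN, eu_rec' h hp k, ih k (by omega), ih (k + 1) (by omega)]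
      ring

theorem HeckeC.mul_coprime (h : HeckeC b t) {M N : ℕ} (hM : 0 < M) (hN : 0 < N)
    (hc : M.Coprime N) : b (M * N) = b M * b N := by
  induction M using Nat.strong_induction_on with
  | _ m ih =>
    by_cases h1 : m = 1
    · simp [h1, h.one]
    obtain ⟨p, hp, hpm⟩ := Nat.exists_prime_and_dvd h1
    obtain ⟨k, m', hm', rfl⟩ := Nat.exists_eq_pow_mul_and_not_dvd hM.ne' p hp.ne_one
    have hm0 : 0 < m' := Nat.pos_of_mul_pos_left hM
    have hk : k ≠ 0 := by
      rintro rfl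
      exact hm' (by simpa using hpm)
    have hpn : ¬ p ∣ N := fun hd => hp.ne_one (Nat.eq_one_of_dvd_coprimes hc hpm hd)
    have hlt : m' < p ^ k * m' := by
      have := Nat.one_lt_pow hk hp.one_lt
      nlinarith
    rw [mul_assoc, eu_pow_mul h hp (Nat.mul_pos hm0 hN) (by
        rw [hp.dvd_mul]; tauto), eu_pow_mul h hp hm0 hm',
      ih m' hlt hm0 (Nat.Coprime.coprime_mul_left hc), mul_assoc]

theorem tsum_rec2 {u v : ℕ → ℂ} {a c s t X : ℂ} (u0 : u 0 = 1) (u1 : u 1 = a)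
    (hu : ∀ e, u (e + 2) = a * u (e + 1) - c * u e) (v0 : v 0 = 1) (v1 : v 1 = s)
    (hv : ∀ e, v (e + 2) = s * v (e + 1) - t * v e)
    (hs : Summable fun e => u e * v e * X ^ e) :
    loc2 a c s t X * ∑' e, u e * v e * X ^ e = 1 - c * t * X ^ 2 := by
  set w : ℕ → ℂ := fun e => u e * v e * X ^ e with hw
  have s1 : Summable fun e => w (e + 1) := (summable_nat_add_iff 1).mpr hs
  have s2 : Summable fun e => w (e + 2) := (summable_nat_add_iff 2).mpr hs
  have s3 : Summable fun e => w (e + 3) := (summable_nat_add_iff 3).mpr hs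
  have e1 : ∑' e, w e = w 0 + ∑' e, w (e + 1) := hs.tsum_eq_zero_add
  have e2 : ∑' e, w (e + 1) = w 1 + ∑' e, w (e + 2) := s1.tsum_eq_zero_add
  have e3 : ∑' e, w (e + 2) = w 2 + ∑' e, w (e + 3) := s2.tsum_eq_zero_add
  have e4 : ∑' e, w (e + 3) = w 3 + ∑' e, w (e + 4) := s3.tsum_eq_zero_add
  have r : ∀ e, w (e + 4) = a * s * X * w (e + 3) -
      (c * (s ^ 2 - 2 * t) + a ^ 2 * t) * X ^ 2 * w (e + 2) + a * c * s * t * X ^ 3 * w (e + 1) -
      c ^ 2 * t ^ 2 * X ^ 4 * w e := fun e => by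
    simp only [hw]
    rw [hu (e + 2), hv (e + 2), hu (e + 1), hv (e + 1), hu e, hv e]
    ring
  have e5 := ((((s3.hasSum.mul_left (a * s * X)).sub
    (s2.hasSum.mul_left ((c * (s ^ 2 - 2 * t) + a ^ 2 * t) * X ^ 2))).add
    (s1.hasSum.mul_left (a * c * s * t * X ^ 3))).sub
    (hs.hasSum.mul_left (c ^ 2 * t ^ 2 * X ^ 4))).tsum_eq
  simp only [← r] at e5
  have w0 : w 0 = 1 := by simp [hw, u0, v0]
  have w1 : w 1 = a * s * X := by simp [hw, u1, v1]
  have w2 : w 2 = (a * a - c) * (s * s - t) * X ^ 2 := by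
    simp only [hw]
    rw [hu 0, hv 0, zero_add, u0, v0, u1, v1, mul_one, mul_one]
  have w3 : w 3 = (a * (a * a - c) - c * a) * (s * (s * s - t) - t * s) * X ^ 3 := by
    simp only [hw]
    rw [hu 1, hv 1, hu 0, hv 0, zero_add, u0, v0, u1, v1, mul_one, mul_one]
  rw [w0] at e1
  rw [w1] at e2
  rw [w2] at e3
  rw [w3] at e4
  rw [e4] at e3
  rw [e3] at e2
  rw [e2] at e1
  rw [e2, e3, e4] at e5
  rw [loc2]
  generalize ∑' e, w (e + 4) = T at *
  rw [e1] at e5 ⊢
  linear_combination e5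

theorem summable_rk (hb : ∀ N, 0 < N → ‖b N‖ ≤ N.divisors.card) (hs : (3 : ℝ) / 2 < s.re) :
    LSeriesSummable (fun m => b m * a15 m) s := by
  set ε : ℝ := (s.re - 3 / 2) / 2 with hε
  obtain ⟨C, -, H⟩ := fdivisor_bound (ε := ε) (by linarith)
  have h1 : (3 : ℝ) / 2 < (s - ε).re := by
    rw [Complex.sub_re, Complex.ofReal_re]
    linarith
  refine Summable.of_norm_bounded ((summable_norm_iff.mpr (a15_summable h1)).mul_left C)
    fun m => ?_
  rcases Nat.eq_zero_or_pos m with rfl | hm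
  · simp
  have m0 : (0 : ℝ) < m := by exact_mod_cast hm
  rw [LSeries.norm_term_eq, LSeries.norm_term_eq, if_neg hm.ne', if_neg hm.ne', norm_mul,
    Complex.sub_re, Complex.ofReal_re, Real.rpow_sub m0, div_div_eq_mul_div, ← mul_div_assoc]
  refine div_le_div_of_nonneg_right ?_ (by positivity)
  have := mul_le_mul_of_nonneg_right ((hb m hm).trans (H m hm.ne')) (norm_nonneg (a15 m : ℂ))
  linarith

theorem eu_kr_le (n m : ℕ) : ‖kr n m‖ ≤ 1 := by
  rcases jacobiSym.trichotomy (m : ℤ) n with h | h | h <;> simp [kr, h]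

theorem eu_kr_one (n : ℕ) : kr n 1 = 1 := by simp [kr]

theorem eu_kr_mul (n l m : ℕ) : kr n (l * m) = kr n l * kr n m := by
  simp [kr, jacobiSym.mul_left]

theorem eu_e15_mul (n l m : ℕ) : e15 n (l * m) = e15 n l * e15 n m := by
  simp only [e15, Nat.coprime_mul_iff_left, Nat.cast_mul, jacobiSym.mul_left, Int.cast_mul]
  rw [ite_and]
  split_ifs <;> simp only [mul_zero, zero_mul]

theorem eu_e15_sum (n : ℕ) (hs : 1 < s.re) : LSeriesSummable (e15 n) s :=
  LSeriesSummable_of_bounded_of_one_lt_re (m := 1) (fun m _ => by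
    rw [e15]
    split_ifs
    · exact eu_kr_le n m
    · simp) hs

theorem eu_re (hs : (3 : ℝ) / 2 < s.re) : 1 < (2 * s - 1).re := by
  simp only [Complex.sub_re, Complex.mul_re, Complex.re_ofNat, Complex.im_ofNat, Complex.one_re]
  linarith

theorem eu_loc (h : HeckeC b t) (hs : LSeriesSummable (fun m => b m * a15 m) s) {p : ℕ}
    (hp : p.Prime) : loc15 b t p s * ∑' e, LSeries.term (fun m => b m * a15 m) s (p ^ e) =
      1 - (if p ∣ 15 then 0 else (p : ℂ)) * t p * ((p : ℂ) ^ (-s)) ^ 2 := by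
  have ht : ∀ e, LSeries.term (fun m => b m * a15 m) s (p ^ e)
      = a15 (p ^ e) * b (p ^ e) * ((p : ℂ) ^ (-s)) ^ e := by
    intro e
    rw [LSeries.term_of_ne_zero (pow_ne_zero _ hp.ne_zero), Nat.cast_pow,
      ← Complex.natCast_cpow_natCast_mul, div_eq_mul_inv, ← Complex.cpow_neg,
      ← Complex.cpow_nat_mul, mul_neg, mul_comm (b _)]
  have hs' : Summable fun e => LSeries.term (fun m => b m * a15 m) s (p ^ e) :=
    hs.comp_injective (Nat.pow_right_injective hp.one_lt)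
  simp only [ht] at hs' ⊢
  refine tsum_rec2 (u := fun e => a15 (p ^ e)) (v := fun e => b (p ^ e)) (by simp [hecke15.one])
    (by rw [pow_one]) (fun e => ?_) (by simp [h.one]) (by simp) (eu_rec' h hp) hs'
  simp only [hecke15.pow_rec' hp e]
  split_ifs <;> simp

theorem hasProd_loc15 (h : HeckeC b (kr n)) (hb : ∀ N, 0 < N → ‖b N‖ ≤ N.divisors.card)
    (hs : (3 : ℝ) / 2 < s.re) :
    HasProd (fun l : ℕ => if l.Prime then (loc15 b (kr n) l s)⁻¹ else 1)
      (LSeries (e15 n) (2 * s - 1) * LSeries (fun m => b m * a15 m) s) := by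
  have S := summable_rk hb hs
  have P1 := EulerProduct.eulerProduct_hasProd_mulIndicator
    (f := LSeries.term (fun m => b m * a15 m) s) (by simp [hecke15.one, h.one]) (by
      intro m k hmn
      rcases Nat.eq_zero_or_pos m with rfl | hm
      · simp
      rcases Nat.eq_zero_or_pos k with rfl | hk
      · simp
      rw [LSeries.term_of_ne_zero (Nat.mul_pos hm hk).ne', LSeries.term_of_ne_zero hm.ne',
        LSeries.term_of_ne_zero hk.ne', h.mul_coprime hm hk hmn, hecke15.mul_coprime hm hk hmn,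
        Nat.cast_mul, Complex.natCast_mul_natCast_cpow]
      push_cast
      ring) (summable_norm_iff.mpr S) (LSeries.term_zero _ _)
  have H : Hecke (fun _ => 1) fun _ => 0 := ⟨rfl, fun _ _ _ _ => by simp⟩
  have S2 : LSeriesSummable (fun m => e15 n m * ((1 : ℤ) : ℂ)) (2 * s - 1) := by
    simpa using eu_e15_sum n (eu_re hs)
  have o : e15 n 1 = 1 := by simp [e15]
  have P2 := hasProd_loc H o (eu_e15_mul n) S2
  simp only [Int.cast_one, mul_one] at P2
  refine (congrArg (fun g => HasProd g _) (funext fun p => ?_)).mpr (P2.mul P1)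
  by_cases hp : p.Prime
  · rw [if_pos hp, if_pos hp, Set.mulIndicator_of_mem (by exact hp)]
    have p0 : (p : ℂ) ≠ 0 := by exact_mod_cast hp.ne_zero
    have e : loc (e15 n) (fun _ => 1) (fun _ => 0) p (2 * s - 1) =
        1 - (if p ∣ 15 then 0 else (p : ℂ)) * kr n p * ((p : ℂ) ^ (-s)) ^ 2 := by
      rw [loc, e15, kr, neg_sub, sub_eq_add_neg 1 (2 * s), Complex.cpow_add _ _ p0,
        Complex.cpow_one, ← mul_neg, Complex.cpow_ofNat_mul]
      by_cases d : p ∣ 15
      · simp [d, (hp.dvd_iff_not_coprime).1 d]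
      · rw [if_neg d, if_pos ((hp.coprime_iff_not_dvd).2 d)]
        push_cast
        ring
    refine (eq_inv_of_mul_eq_one_right ?_).symm
    rw [mul_left_comm, eu_loc h S hp, ← e, inv_mul_cancel₀ (loc_ne_zero H o (eu_e15_mul n) S2 hp)]
  · rw [if_neg hp, if_neg hp, Set.mulIndicator_of_notMem (by exact hp), mul_one]

theorem eu_diff {f : ℕ → ℂ} {x : ℝ} (h : ∀ s : ℂ, x < s.re → LSeriesSummable f s)
    (hs : x < s.re) : DifferentiableAt ℂ (LSeries f) s :=
  (LSeries_hasDerivAt ((LSeries.abscissaOfAbsConv_le_of_forall_lt_LSeriesSummable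
    fun y hy => h y (by simpa using hy)).trans_lt (by exact_mod_cast hs))).differentiableAt

theorem simple_of_isRk (h : HeckeC b (kr n)) (hb : ∀ N, 0 < N → ‖b N‖ ≤ N.divisors.card)
    {Λ : ℂ → ℂ} (hΛ : IsRk n b Λ) (h1 : analyticOrderAt Λ 1 = 1) : Simple b (kr n) := by
  refine ⟨Λ, hΛ.1, h1, fun s hs => ?_⟩
  have o : ∀ x : ℝ, IsOpen {s : ℂ | x < s.re} := fun x =>
    isOpen_lt continuous_const Complex.continuous_re
  have A : AnalyticOnNhd ℂ (fun s => LSeries (e15 n) (2 * s - 1) *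
      LSeries (fun m => b m * a15 m) s) {s : ℂ | (3 : ℝ) / 2 < s.re} :=
    DifferentiableOn.analyticOnNhd (fun s hs =>
      (((eu_diff (fun _ => eu_e15_sum n) (eu_re hs)).comp s (f := fun s => 2 * s - 1)
        (by fun_prop)).mul (eu_diff (fun _ => summable_rk hb) hs)).differentiableWithinAt) (o _)
  have E := AnalyticOnNhd.eqOn_of_preconnected_of_eventuallyEq
    (fun z _ => hΛ.1.analyticAt z) A (convex_halfSpace_re_gt _).isPreconnected (z₀ := 3)
    (by norm_num) (Filter.eventuallyEq_of_mem ((o 2).mem_nhds (by norm_num)) hΛ.2)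
  rw [E hs]
  exact hasProd_loc15 h hb hs

theorem simple_of_two {u v : ℕ} {F G : ℂ → ℂ} (hF : Differentiable ℂ F) (hG : Differentiable ℂ G)
    (eF : ∀ s : ℂ, (3 : ℝ) / 2 < s.re → F s = LSeries (fun m => kr u m * a15 m) s)
    (eG : ∀ s : ℂ, (3 : ℝ) / 2 < s.re → G s = LSeries (fun m => kr v m * a15 m) s)
    (oF : analyticOrderAt F 1 = 0) (oG : analyticOrderAt G 1 = 1)
    (hb : ∀ l : ℕ, l.Prime → b l = kr u l + kr v l)
    (ht : ∀ l : ℕ, l.Prime → t l = kr u l * kr v l) : Simple b t := by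
  refine ⟨F * G, hF.mul hG, ?_, fun s hs => ?_⟩
  · rw [analyticOrderAt_mul (hF.analyticAt 1) (hG.analyticAt 1), oF, oG, zero_add]
  have P := fun w => hasProd_loc hecke15 (eu_kr_one w) (eu_kr_mul w)
    (summable_twist (eu_kr_le w) (a15_summable hs))
  rw [Pi.mul_apply, eF s hs, eG s hs]
  convert (P u).mul (P v) using 1
  funext l
  by_cases hl : l.Prime
  · rw [if_pos hl, if_pos hl, if_pos hl, ← mul_inv, loc15, loc2, loc, loc, hb l hl, ht l hl]
    push_cast
    ring
  · rw [if_neg hl, if_neg hl, if_neg hl, mul_one]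

end Pool.Agent.DH
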