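import Pool.Agent.Lib.MP_60ff09_nt.Dih.AN0
import Pool.Agent.Lib.MP_696deb_nt.Bound
import Pool.Agent.Lib.MP_696deb_nt.Hecke

/-! The Euler product of the Rankin-Selberg series. -/

set_option autoImplicit false

open Complex Filter Topology Finset NumberTheorySymbols
open scoped Real ComplexConjugate Classical
open Pool.Agent.Lib.MP_696deb_nt

namespace Pool.Agent.Dih

/-- One half of the local factor. -/
noncomputable def lf (β : ℂ) (l : ℕ) (s : ℂ) : ℂ :=
  1 - a15 l * (l : ℂ) ^ (-s) * β + (if l ∣ 15 then 0 else (l : ℂ) ^ (1 - 2 * s)) * β ^ 2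

theorem summable_rankin {c : ℕ → ℂ}
    (bd : ∀ ε : ℝ, 0 < ε → ∃ C : ℝ, ∀ m : ℕ, m ≠ 0 → ‖c m‖ ≤ C * (m : ℝ) ^ ε) {s : ℂ}
    (hs : (3 : ℝ) / 2 < s.re) : LSeriesSummable (fun m => c m * a15 m) s := by
  obtain ⟨C, hC⟩ := bd ((s.re - 3 / 2) / 2) (by linarith)
  refine Summable.of_norm_bounded ((a15_summable (s := s - ((s.re - 3 / 2) / 2 : ℝ))
    (by rw [sub_re, ofReal_re]; linarith)).norm.mul_left C) fun m => ?_
  rw [LSeries.norm_term_eq, LSeries.norm_term_eq]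
  split_ifs with h
  · rw [mul_zero]
  · have h0 : (0 : ℝ) < m := Nat.cast_pos.2 (Nat.pos_of_ne_zero h)
    rw [norm_mul, sub_re, ofReal_re, Real.rpow_sub h0, div_div_eq_mul_div, ← mul_div_assoc,
      mul_comm _ (_ ^ _), ← mul_assoc]
    gcongr
    exact hC m h

theorem eu_loc {u v : ℕ → ℂ} {a P β γ X : ℂ} (u0 : u 0 = 1) (u1 : u 1 = a)
    (ur : ∀ k, u (k + 2) = a * u (k + 1) - P * u k) (v0 : v 0 = 1) (v1 : v 1 = β + γ)
    (vr : ∀ k, v (k + 2) = (β + γ) * v (k + 1) - β * γ * v k)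
    (hs : Summable fun k => v k * u k * X ^ k) :
    (1 - a * X * β + P * X ^ 2 * β ^ 2) * (1 - a * X * γ + P * X ^ 2 * γ ^ 2) *
      ∑' k, v k * u k * X ^ k = 1 - β * γ * P * X ^ 2 := by
  have h := fun j => (hasSum_nat_add_iff' j).2 hs.hasSum
  have e := (h 4).unique (((((h 3).mul_left (a * (β + γ) * X)).sub
    ((h 2).mul_left ((P * (β ^ 2 + γ ^ 2) + a ^ 2 * β * γ) * X ^ 2))).add
    ((h 1).mul_left (a * P * β * γ * (β + γ) * X ^ 3))).sub
    (hs.hasSum.mul_left (P ^ 2 * β ^ 2 * γ ^ 2 * X ^ 4)) |>.congr_fun fun k => by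
      rw [ur (k + 2), vr (k + 2), ur (k + 1), vr (k + 1), ur k, vr k]
      ring)
  simp only [sum_range_succ, range_zero, sum_empty, ur 1, vr 1, ur 0, vr 0, zero_add, u0, u1, v0,
    v1, Nat.reduceAdd] at e
  linear_combination e

theorem eu_term (f : ℕ → ℂ) (s : ℂ) {p : ℕ} (hp : p.Prime) (e : ℕ) :
    LSeries.term f s (p ^ e) = f (p ^ e) * ((p : ℂ) ^ (-s)) ^ e := by
  rw [LSeries.term_of_ne_zero (pow_ne_zero _ hp.ne_zero), Nat.cast_pow,
    ← Complex.natCast_cpow_natCast_mul, div_eq_mul_inv, ← cpow_neg, ← cpow_nat_mul, mul_neg]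

theorem eu_sum {f : ℕ → ℂ} {s : ℂ} (hs : LSeriesSummable f s) {p : ℕ} (hp : p.Prime) :
    Summable fun e => f (p ^ e) * ((p : ℂ) ^ (-s)) ^ e :=
  (hs.comp_injective (Nat.pow_right_injective hp.one_lt)).congr (eu_term f s hp)

theorem eu_prod {f : ℕ → ℂ} (f1 : f 1 = 1)
    (hf : ∀ m n, m ≠ 0 → n ≠ 0 → m.Coprime n → f (m * n) = f m * f n) {s : ℂ}
    (hs : LSeriesSummable f s) : HasProd (fun p : ℕ =>
      if p.Prime then ∑' e, f (p ^ e) * ((p : ℂ) ^ (-s)) ^ e else 1) (LSeries f s) := by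
  refine (EulerProduct.eulerProduct_hasProd_mulIndicator (f := LSeries.term f s) (by simp [f1])
    (fun {m n} hmn => ?_) hs.norm (LSeries.term_zero _ _)).congr_fun fun p => ?_
  · rcases eq_or_ne m 0 with rfl | hm
    · simp
    rcases eq_or_ne n 0 with rfl | hn
    · simp
    rw [LSeries.term_of_ne_zero (mul_ne_zero hm hn), LSeries.term_of_ne_zero hm,
      LSeries.term_of_ne_zero hn, hf m n hm hn hmn, Nat.cast_mul, Complex.natCast_mul_natCast_cpow]
    ring
  · split_ifs with hp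
    · rw [Set.mulIndicator_of_mem (by exact hp)]
      exact (tsum_congr (eu_term f s hp)).symm
    · rw [Set.mulIndicator_of_notMem (by exact hp)]

section

variable {c A P : ℕ → ℂ} (c1 : c 1 = 1) (rel : ∀ l : ℕ, l.Prime → ∀ m, m ≠ 0 →
  c (l * m) + (if l ∣ m then P l * c (m / l) else 0) = A l * c m)
include rel

theorem eu_rec {p : ℕ} (hp : p.Prime) (k : ℕ) {n : ℕ} (hn : n ≠ 0) :
    c (p ^ (k + 2) * n) = A p * c (p ^ (k + 1) * n) - P p * c (p ^ k * n) := by
  have := rel p hp (p ^ (k + 1) * n) (mul_ne_zero (pow_ne_zero _ hp.ne_zero) hn)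
  rw [if_pos (Dvd.dvd.mul_right (dvd_pow_self p (by omega)) n),
    show p ^ (k + 1) * n / p = p ^ k * n by
      rw [pow_succ', mul_assoc, Nat.mul_div_cancel_left _ hp.pos],
    show p * (p ^ (k + 1) * n) = p ^ (k + 2) * n by ring] at this
  exact eq_sub_of_add_eq this

include c1

theorem eu_one {p : ℕ} (hp : p.Prime) : c p = A p := by
  simpa [c1, hp.ne_one] using rel p hp 1 one_ne_zero

theorem eu_pow {p : ℕ} (hp : p.Prime) {n : ℕ} (hn : n ≠ 0) (hpn : ¬ p ∣ n) (k : ℕ) :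
    c (p ^ k * n) = c (p ^ k) * c n := by
  induction k using Nat.twoStepInduction with
  | zero => simp [c1]
  | one => simpa [hpn, eu_one c1 rel hp] using rel p hp n hn
  | more k h1 h2 =>
    have := eu_rec rel hp k one_ne_zero
    simp only [mul_one] at this
    rw [eu_rec rel hp k hn, this, h1, h2]
    ring

theorem eu_mul (m n : ℕ) (hm : m ≠ 0) (hn : n ≠ 0) (h : m.Coprime n) : c (m * n) = c m * c n := by
  induction m using Nat.recOnPrimePow with
  | zero => exact absurd rfl hm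
  | one => simp [c1]
  | prime_pow_mul a p k hp h1 hk ih =>
    have a0 : a ≠ 0 := right_ne_zero_of_mul hm
    have h2 : ¬ p ∣ n := fun e => hp.ne_one
      (Nat.eq_one_of_dvd_coprimes h ((dvd_pow_self p hk.ne').mul_right a) e)
    rw [mul_assoc, eu_pow c1 rel hp (mul_ne_zero a0 hn) (by rw [hp.dvd_mul]; tauto),
      eu_pow c1 rel hp a0 h1, ih a0 h.coprime_mul_left, mul_assoc]

end

theorem eu_e15 (n a b : ℕ) : e15 n (a * b) = e15 n a * e15 n b := by
  simp only [e15, Nat.coprime_mul_iff_left, Nat.cast_mul, jacobiSym.mul_left, Int.cast_mul]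
  rw [ite_zero_mul_ite_zero]

theorem eu_summable (n : ℕ) {s : ℂ} (hs : 1 < s.re) : LSeriesSummable (e15 n) s := by
  refine LSeriesSummable_of_bounded_of_one_lt_re (m := 1) (fun k _ => ?_) hs
  rw [e15]
  split_ifs
  · rcases jacobiSym.trichotomy k n with e | e | e <;> simp [e]
  · simp

theorem hasProd_rankin {n : ℕ} {c β γ : ℕ → ℂ} (c1 : c 1 = 1)
    (rel : ∀ l : ℕ, l.Prime → ∀ m, m ≠ 0 →
      c (l * m) + (if l ∣ m then β l * γ l * c (m / l) else 0) = (β l + γ l) * c m)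
    (he : ∀ l : ℕ, l.Prime → β l * γ l = J((l : ℤ) | n))
    (bd : ∀ ε : ℝ, 0 < ε → ∃ C : ℝ, ∀ m : ℕ, m ≠ 0 → ‖c m‖ ≤ C * (m : ℝ) ^ ε) {s : ℂ}
    (hs : (3 : ℝ) / 2 < s.re) :
    HasProd (fun l : ℕ => if l.Prime then (lf (β l) l s * lf (γ l) l s)⁻¹ else 1)
      (LSeries (e15 n) (2 * s - 1) * LSeries (fun m => c m * a15 m) s) := by
  have s1 := eu_summable n (s := 2 * s - 1) (by simp; linarith)
  have s2 := summable_rankin bd hs
  have e1 : e15 n 1 = 1 := by simp [e15]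
  refine ((eu_prod e1 (fun a b _ _ _ => eu_e15 n a b) s1).mul (eu_prod (by simp [c1, a15_one])
    (fun a b ha hb h => ?_) s2)).congr_fun fun l => ?_
  · rw [eu_mul c1 rel a b ha hb h, hecke15.mul_coprime (Nat.pos_of_ne_zero ha)
      (Nat.pos_of_ne_zero hb) h, Int.cast_mul, mul_mul_mul_comm]
  split_ifs with hl
  swap
  · exact (mul_one _).symm
  have h1 := tsum_rec (eu_sum s1 hl) (e15 n l * (l : ℂ) ^ (-(2 * s - 1))) 0 (by simp [e1]) (by simp)
    fun e => by rw [pow_succ l (e + 1), eu_e15]; ring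
  have h2 := eu_loc (u := fun k => a15 (l ^ k)) (v := fun k => c (l ^ k)) (a := a15 l)
    (P := ((if l ∣ 15 then 0 else l : ℤ) : ℂ)) (by simp [a15_one]) (by simp)
    (fun k => by exact_mod_cast hecke15.pow_rec' hl k) (by simp [c1])
    (by simpa using eu_one c1 rel hl) (fun k => by simpa using eu_rec rel hl k one_ne_zero)
    (eu_sum s2 hl)
  have h3 : ((if l ∣ 15 then 0 else l : ℤ) : ℂ) * ((l : ℂ) ^ (-s)) ^ 2 =
      if l ∣ 15 then 0 else (l : ℂ) ^ (1 - 2 * s) := by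
    split_ifs
    · simp
    · rw [← cpow_nat_mul, sub_eq_add_neg, cpow_add _ _ (Nat.cast_ne_zero.2 hl.ne_zero), cpow_one]
      simp
  have h4 : e15 n l * (l : ℂ) ^ (-(2 * s - 1)) =
      β l * γ l * if l ∣ 15 then 0 else (l : ℂ) ^ (1 - 2 * s) := by
    simp [e15, he l hl, hl.coprime_iff_not_dvd]
  rw [mul_assoc (β l * γ l), h3, ← h4] at h2
  refine (eq_inv_of_mul_eq_one_right ?_).symm
  rw [lf, lf, mul_left_comm, h2, mul_comm]
  exact add_zero (1 - _ : ℂ) ▸ h1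

theorem eu_diff {f : ℕ → ℂ} {x : ℝ} (h : ∀ s : ℂ, x < s.re → LSeriesSummable f s) {s : ℂ}
    (hs : x < s.re) : DifferentiableAt ℂ (LSeries f) s :=
  (LSeries_hasDerivAt ((LSeries.abscissaOfAbsConv_le_of_forall_lt_LSeriesSummable
    fun y hy => h y hy).trans_lt (by exact_mod_cast hs))).differentiableAt

/-- The identity extends to the half plane of absolute convergence. -/
theorem eq_rankin {n : ℕ} {c : ℕ → ℂ}
    (bd : ∀ ε : ℝ, 0 < ε → ∃ C : ℝ, ∀ m : ℕ, m ≠ 0 → ‖c m‖ ≤ C * (m : ℝ) ^ ε) {L : ℂ → ℂ}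
    (hL : Differentiable ℂ L) (h : ∀ s : ℂ, 2 < s.re →
      L s = LSeries (e15 n) (2 * s - 1) * LSeries (fun m => c m * a15 m) s) {s : ℂ}
    (hs : (3 : ℝ) / 2 < s.re) :
    L s = LSeries (e15 n) (2 * s - 1) * LSeries (fun m => c m * a15 m) s := by
  have ho : ∀ x : ℝ, IsOpen {s : ℂ | x < s.re} := fun x => isOpen_lt continuous_const continuous_re
  refine (hL.differentiableOn.analyticOnNhd (ho _)).eqOn_of_preconnected_of_eventuallyEq
    (DifferentiableOn.analyticOnNhd (fun z hz => DifferentiableAt.differentiableWithinAt ?_) (ho _))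
    (convex_halfSpace_re_gt _).isPreconnected (z₀ := 3) (by norm_num)
    (eventually_of_mem ((ho 2).mem_nhds (by norm_num)) h) hs
  have hz' : (3 : ℝ) / 2 < z.re := hz
  exact ((eu_diff (fun _ => eu_summable n) (s := 2 * z - 1) (by simp; linarith)).comp z
    (f := fun z => 2 * z - 1) (by fun_prop)).mul (eu_diff (fun _ => summable_rankin bd) hz)

end Pool.Agent.Dih
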