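import Pool.Agent.Lib.MP_60ff09_nt.Dih.RKb
import Pool.Agent.Lib.MP_60ff09_nt.Dih.EU

/-! The Euler factors of a sum of induced representations. -/

set_option autoImplicit false

open scoped Classical NumberTheorySymbols TensorProduct
open NumberField CategoryTheory
open Pool.Agent.Lib.MP_696deb_nt Pool.Agent.Lib.MP_696deb_nt.B2 Pool.Agent.Lib.MP_696deb_nt.B2.CM
open Pool.Agent.Lib.MP_60ff09_nt Pool.Agent.Lib.MP_60ff09_nt.V4

namespace Pool.Agent.DH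

theorem det_block {W ι : Type} [AddCommGroup W] [Module ℂ W] [Fintype ι]
    (w : Module.Basis (ι × Fin 2) ℂ W) (T : Module.End ℂ W) (A B C D : ι → ℂ)
    (h0 : ∀ i, T (w (i, 0)) = A i • w (i, 0) + C i • w (i, 1))
    (h1 : ∀ i, T (w (i, 1)) = B i • w (i, 0) + D i • w (i, 1)) (a c X : ℂ) :
    LinearMap.det (1 - (a * X) • T + (c * X ^ 2) • T ^ 2) =
      ∏ i, loc2 a c (A i + D i) (A i * D i - B i * C i) X := by
  let N : ι → Matrix (Fin 2) (Fin 2) ℂ := fun i => !![A i, B i; C i, D i]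
  let v := w.reindex (Equiv.prodComm ι (Fin 2))
  have h : LinearMap.toMatrix v v T = Matrix.blockDiagonal N := by
    ext ⟨j, i⟩ ⟨k, i'⟩
    rw [LinearMap.toMatrix_apply, Matrix.blockDiagonal_apply', w.repr_reindex_apply]
    by_cases e : i = i'
    · subst e
      fin_cases k <;> fin_cases j <;> simp [v, N, h0, h1]
    · fin_cases k <;> simp [v, h0, h1, e]
  rw [← LinearMap.det_toMatrix v, map_add, map_sub, map_smul, map_smul, LinearMap.toMatrix_one,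
    sq T, LinearMap.toMatrix_mul, h, ← Matrix.blockDiagonal_mul, ← Matrix.blockDiagonal_one,
    ← Matrix.blockDiagonal_smul, ← Matrix.blockDiagonal_smul, ← Matrix.blockDiagonal_sub,
    ← Matrix.blockDiagonal_add, Matrix.det_blockDiagonal]
  refine Finset.prod_congr rfl fun i _ => ?_
  simp [N, Matrix.det_fin_two, loc2]
  ring

theorem onInv_mul {G : Type} [Group G] [Finite G] (V : Rep ℂ G) (I : Subgroup G) (φ : G) {τ : G}
    (hτ : τ ∈ I) : onInv V I (φ * τ) = onInv V I φ := by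
  have := Fintype.ofFinite I
  rw [onInv, onInv, finsum_eq_sum_of_fintype, finsum_eq_sum_of_fintype,
    ← Equiv.sum_comp (Equiv.mulLeft (⟨τ, hτ⟩ : I)) fun σ : I => V.ρ (φ * σ)]
  simp [mul_assoc]

theorem fna_ram {G : Type} [Group G] [Finite G] (V : Rep ℂ G) (I : Subgroup G) (φ : G) {τ : G}
    (hτ : τ ∈ I) {x y : V} {a b c : ℂ} (h : a * b = 1) (h1 : V.ρ τ x = a • y)
    (h2 : V.ρ τ y = b • x) (h3 : ∀ σ ∈ I, (V.ρ σ x = x ∧ V.ρ σ y = y) ∨
      (V.ρ (τ⁻¹ * σ) x = x ∧ V.ρ (τ⁻¹ * σ) y = y)) (h4 : V.ρ φ x = c • x) (h5 : V.ρ φ y = c • y) :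
    onInv V I φ x = (c / 2) • x + (c * a / 2) • y ∧
      onInv V I φ y = (c * b / 2) • x + (c / 2) • y := by
  have e1 : onInv V I φ (x + a • y) = c • x + a • c • y := by
    rw [onInv_fix V I φ fun σ hσ => ?_, map_add, map_smul, h4, h5]
    rcases h3 σ hσ with ⟨e, e'⟩ | ⟨e, e'⟩
    · rw [map_add, map_smul, e, e']
    · rw [← mul_inv_cancel_left τ σ, map_mul, Module.End.mul_apply, map_add, map_smul, e, e',
        map_add, map_smul, h1, h2, smul_smul, h, one_smul, add_comm]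
  have e2 : onInv V I φ (x - a • y) = 0 := onInv_zero V I φ hτ (by
    rw [map_sub, map_smul, h1, h2, smul_smul, h, one_smul, neg_sub])
  rw [map_add, map_smul] at e1
  rw [map_sub, map_smul] at e2
  refine ⟨by linear_combination (norm := module) (1 / 2 : ℂ) • e1 + (1 / 2 : ℂ) • e2, ?_⟩
  linear_combination (norm := module) (b / 2) • e1 - (b / 2) • e2 -
    h • (onInv V I φ y) + h • ((c / 2) • y)

variable {M : Type} [Field M] [NumberField M] [IsGalois ℚ M] {F : Lf M} {p q l : ℕ} {δ : M}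
  {V : Rep ℂ (M ≃ₐ[ℚ] M)} [Fintype (Cl (p * q))] {Q : Ideal (𝓞 M)} {φ : M ≃ₐ[ℚ] M}

theorem theta_ram (h : PQ p q) (I : Inp p q) {θ : Cl (p * q) →* ℂ} {k : ℕ}
    (hθ : ∀ x, θ x ^ 2 ^ k = 1) {w : Plc} {g : Gam} {a : Cl (p * q)} (hw : w.p ∣ p * q)
    (hg : g ∈ GK (p * q)) (hf : IsFrob w w.p g) (ha : Prm (p * q) w.p a) :
    θ (rho (p * q) 1 g) = θ a := by
  have h1 : tq _ (rho (p * q) 1 g / a) = 1 := by
    by_contra e
    obtain ⟨m, χ, -, h2⟩ := exists_char tw_two ⊥ (a := tq _ (rho (p * q) 1 g / a)) e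
    refine h2 ?_
    change (χ.comp (tq _)) _ = 1
    rw [map_div, I.ram m _ w g a hw hg hf ha, div_self']
  have _ := h
  obtain ⟨j, hj, e⟩ := tq_eq_one.1 h1
  have h3 := pow_gcd_eq_one.2 ⟨show θ (rho (p * q) 1 g / a) ^ j = 1 by
    rw [← map_pow, e, map_one], hθ _⟩
  rw [Nat.Coprime.gcd_eq_one ((Nat.coprime_two_right.2 hj).pow_right k), pow_one] at h3
  rw [← div_mul_cancel (rho (p * q) 1 g) a, map_mul, h3, one_mul]

theorem rho_split {n : ℕ} (ok : Ok n 1) (hs : Squarefree n) {w : Plc} {g : Gam}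
    (hJ : J((w.p : ℤ) | n) = 1) (hf : IsFrob w w.p g) : Prm n w.p (rho n 1 g) := by
  obtain ⟨a, ha⟩ := exists_prm ok hs w.prime (by rw [hJ]; decide)
  obtain ⟨b, k, e, hi, rfl⟩ := id ha
  have hb : ¬ (w.p : ℤ) ∣ b := fun d => by
    rw [rc_jac_zero w.prime (ra_pos ok).ne' ((rb_dvd w.prime e).1 d)] at hJ
    exact zero_ne_one hJ
  rcases V_beQ_or ok.m4 (ra_e e) with h | h
  · rw [rho_frob_split ok (ra_e e) hb h hf]
    exact ha.inv ok
  · rw [rho_frob_split ok (k := k) (by rw [neg_sq]; exact ra_e e) (by rwa [dvd_neg]) h hf,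
      show cl _ (idl n 1 w.p (-b)) = _ from (rb_neg ok hi).2, inv_inv]
    exact ha

theorem onInv_ind (h : PQ p q) (I : Inp p q) {θ : Cl (p * q) →* ℂ} {k : ℕ}
    (hθ : ∀ x, θ x ^ 2 ^ k = 1) {x y : V} (hb : IndB F (p * q) δ V θ x y) (hl : l.Prime)
    [Q.IsPrime] (hQ : (l : 𝓞 M) ∈ Q) (hφ : IsArithFrobAt ℤ φ Q) : ∃ A B C D : ℂ,
      onInv V (Q.inertia (M ≃ₐ[ℚ] M)) φ x = A • x + C • y ∧
      onInv V (Q.inertia (M ≃ₐ[ℚ] M)) φ y = B • x + D • y ∧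
      A + D = rth (p * q) θ l ∧ A * D - B * C = kr (p * q) l := by
  have ok := h.ok
  have hn := ra_pos ok
  have h4 := ok.m4
  obtain ⟨w, rfl, hw⟩ := F.exists_plc hl hQ
  obtain ⟨t, ht, rfl⟩ := hb.swap
  have hδ : δ ^ 2 = ((-(p * q : ℕ) : ℤ) : M) := by rw [hb.sq, Int.cast_neg, Int.cast_natCast]
  have hu : ∀ a, θ a * θ a⁻¹ = 1 := fun a => by rw [← map_mul, mul_inv_cancel, map_one]
  by_cases hd : w.p ∣ p * q
  · obtain ⟨s, hs⟩ := B2.exists_gen (cmh_gen ok h.sqf hd).1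
    have hs' := (cmh_gen ok h.sqf hd).2 s hs
    obtain ⟨g, hg, hf⟩ : ∃ g ∈ GK (p * q), IsFrob w w.p g := by
      obtain ⟨g, hf⟩ := exists_frob w
      by_cases e : g ∈ GK (p * q)
      exacts [⟨g, e, hf⟩, ⟨_, mul_mem_GK e hs', hf.mul_ine hs.1⟩]
    obtain ⟨τ, hτ, rfl⟩ := hw.exists_frob hφ hf
    have hj := rc_jac_zero hl hn.ne' hd
    obtain ⟨a, ha⟩ := exists_prm ok h.sqf hl (by rw [hj]; decide)
    have h1 := theta_ram h I hθ hd hg hf ha
    have h2 : θ (rho (p * q) 1 g)⁻¹ = θ a := by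
      have h5 := hu (rho (p * q) 1 g)
      have h6 := hu a
      rw [ha.sq ok hl hd] at h6
      rw [h1] at h5
      linear_combination θ a * h5 - θ (rho (p * q) 1 g)⁻¹ * h6
    have hM : Q.IsMaximal := Ideal.IsPrime.isMaximal ‹_› fun e =>
      hl.ne_zero (by simpa [e] using hQ)
    have h7 := (ind_act ok hb.fst ht).2 hs'
    have h8 := fna_ram V (Q.inertia (M ≃ₐ[ℚ] M)) (F.π g) (hw.ine hs.1) (hu _) h7.1 h7.2
      (fun σ hσ => (pm_of_sq hδ σ).imp (fun e => ⟨hb.unr Q hM σ hσ e, hb.unr' ok hM hσ e⟩)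
        fun e => by
          have h9 := mul_mem (inv_mem (hw.ine hs.1)) hσ
          have e' : ((F.π s)⁻¹ * σ) δ = δ := by
            rw [AlgEquiv.mul_apply, e, ← (F.notMem_GK hn hb.sq).1 hs']
            exact (F.π s).symm_apply_apply δ
          exact ⟨hb.unr Q hM _ h9 e', hb.unr' ok hM h9 e'⟩)
      ((hb.fst g hg).trans (by rw [h1])) (((ind_act ok hb.fst ht).1 hg).trans (by rw [h2]))
    rw [onInv_mul _ _ _ hτ]
    refine ⟨_, _, _, _, h8.1, h8.2, ?_, ?_⟩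
    · rw [rth_ram θ ok h.sqf hl ha hd, add_halves]
    · rw [kr, hj, Int.cast_zero]
      linear_combination -(θ a ^ 2 / 4) * hu (rho (p * q) 1 (t⁻¹ * s))
  · obtain ⟨g, hf⟩ := exists_frob w
    obtain ⟨τ, hτ, rfl⟩ := hw.exists_frob hφ hf
    have hd' : ¬ (w.p : ℤ) ∣ -(p * q : ℕ) := by rwa [dvd_neg, Int.natCast_dvd_natCast]
    have hM : Q.IsMaximal := Ideal.IsPrime.isMaximal ‹_› fun e =>
      hl.ne_zero (by simpa [e] using hQ)
    have h5 := fun σ hσ => ine_fix hδ (by omega) hl hQ hd' (τ := σ) hσ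
    rw [onInv_mul _ _ _ hτ, onInv_fix _ _ _ fun σ hσ => hb.unr Q hM σ hσ (h5 σ hσ),
      onInv_fix _ _ _ fun σ hσ => hb.unr' ok hM hσ (h5 σ hσ), kr]
    have h6 := frob_rt hδ (by omega) hl hQ hd' (hw.frob hf)
    rw [Int.natAbs_neg, Int.natAbs_natCast] at h6
    rcases h6 with ⟨e, j⟩ | ⟨e, j⟩
    · have hg := (F.mem_GK hn hb.sq).2 e
      refine ⟨θ (rho (p * q) 1 g), 0, 0, θ (rho (p * q) 1 g)⁻¹, ?_, ?_,
        (rth_split θ ok hl (rho_split ok h.sqf j hf) hd).symm, ?_⟩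
      · rw [zero_smul, add_zero, hb.fst g hg]
      · rw [zero_smul, zero_add, (ind_act ok hb.fst ht).1 hg]
      · rw [hu, j, mul_zero, sub_zero, Int.cast_one]
    · have h7 := (ind_act ok hb.fst ht).2 ((F.notMem_GK hn hb.sq).2 e)
      refine ⟨0, _, _, 0, h7.1.trans (by rw [zero_smul, zero_add]),
        h7.2.trans (by rw [zero_smul ℂ (V.ρ _ x), add_zero]),
        by rw [rth_inert θ ok hl j, add_zero], ?_⟩
      rw [mul_comm (θ _), hu, j, mul_zero, zero_sub, Int.cast_neg, Int.cast_one]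

theorem eul_ind (h : PQ p q) (I : Inp p q) {ι : Type} [Fintype ι]
    (v : Module.Basis (ι × Fin 2) ℂ V) {θ : ι → Cl (p * q) →* ℂ}
    (hθ : ∀ i, ∃ k : ℕ, ∀ x, θ i x ^ 2 ^ k = 1)
    (hb : ∀ i, IndB F (p * q) δ V (θ i) (v (i, 0)) (v (i, 1))) (hl : l.Prime) [Q.IsPrime]
    (hQ : (l : 𝓞 M) ∈ Q) (hφ : IsArithFrobAt ℤ φ Q) (s : ℂ) :
    eul (onInv V (Q.inertia (M ≃ₐ[ℚ] M)) φ) (a15 l) l s =
      ∏ i, loc15 (rth (p * q) (θ i)) (kr (p * q)) l s := by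
  choose k hk using hθ
  choose A B C D h0 h1 h2 h3 using fun i => onInv_ind h I (hk i) (hb i) hl hQ hφ
  have hp0 : (l : ℂ) ≠ 0 := Nat.cast_ne_zero.2 hl.ne_zero
  have e : (l : ℂ) ^ (1 - 2 * s) = l * ((l : ℂ) ^ (-s)) ^ 2 := by
    rw [sub_eq_add_neg, Complex.cpow_add _ _ hp0, Complex.cpow_one, sq, ← Complex.cpow_add _ _ hp0]
    congr 2
    ring
  have h4 := det_block v _ A B C D h0 h1 (a15 l) (if l ∣ 15 then 0 else l) ((l : ℂ) ^ (-s))
  simp only [h2, h3] at h4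
  rw [V4.eul, e, show (if l ∣ 15 then 0 else l * ((l : ℂ) ^ (-s)) ^ 2) =
    (if l ∣ 15 then 0 else (l : ℂ)) * ((l : ℂ) ^ (-s)) ^ 2 by split_ifs <;> simp, h4]
  rfl

end Pool.Agent.DH
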