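import Pool.Agent.Lib.MP_60ff09_nt.Dih.D0

/-! The height pairing is positive definite, and orbits of points of infinite order are
independent. -/

set_option autoImplicit false

open scoped Classical NumberTheorySymbols
open Pool.Agent.Lib.MP_696deb_nt Pool.Agent.Lib.MP_696deb_nt.B2 Pool.Agent.Lib.MP_696deb_nt.B2.CM
open Pool.Agent.Dih (rep rW lam1 e15 Par GZan)

namespace Pool.Agent.DH

theorem hhat_nonneg {X : Pt W15 ℂ} (hX : X ∈ Alg W15) : 0 ≤ hhat X := by
  obtain ⟨H, _, P, -, -, rfl, -, -⟩ := exists_field₃ hX hX hX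
  obtain ⟨C, h1, h2⟩ := hrel_spec W15 H
  rw [hhat_pmap]
  exact div_nonneg (ge_of_tendsto' (tendsto_of_dup h1 h2 P) fun n =>
    div_nonneg (Height.zero_le_logHeight₁ _) (by positivity)) (Nat.cast_nonneg _)

theorem pd_nonneg {k : ℕ} {G : Fin k → Fin k → ℝ}
    (h : ∀ a : Fin k → ℤ, 0 ≤ ∑ i, ∑ j, (a i : ℝ) * a j * G i j) (t : Fin k → ℝ) :
    0 ≤ ∑ i, ∑ j, t i * t j * G i j := by
  refine (DenseRange.piMap fun _ : Fin k => Rat.denseRange_cast (𝕜 := ℝ)).induction_on t
    (isClosed_le continuous_const (by fun_prop)) fun q => ?_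
  obtain ⟨b, hb⟩ := IsLocalization.exist_integer_multiples_of_finite (nonZeroDivisors ℤ) q
  choose a ha using hb
  have h0 : ((b : ℤ) : ℝ) ≠ 0 := Int.cast_ne_zero.2 (nonZeroDivisors.coe_ne_zero b)
  have h1 : ∀ i, (a i : ℝ) = (b : ℤ) * q i := fun i => by
    have := congrArg (Rat.cast : ℚ → ℝ) (ha i)
    simpa using this
  refine (mul_nonneg_iff_of_pos_left (sq_pos_of_ne_zero h0)).1 ((h a).trans_eq ?_)
  simp only [Finset.mul_sum, h1, Pi.map_apply]
  exact Finset.sum_congr rfl fun i _ => Finset.sum_congr rfl fun j _ => by ring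

theorem pd_pos {k : ℕ} {G : Fin k → Fin k → ℝ}
    (h : ∀ t : Fin k → ℝ, 0 ≤ ∑ i, ∑ j, t i * t j * G i j)
    (hf : ∀ B : ℝ, {a : Fin k → ℤ | ∑ i, ∑ j, (a i : ℝ) * a j * G i j ≤ B}.Finite)
    {t : Fin k → ℝ} (ht : t ≠ 0) : 0 < ∑ i, ∑ j, t i * t j * G i j := by
  refine (h t).lt_of_ne fun h0 => ?_
  have e1 : ∀ (u : Fin k → ℝ) (s : ℝ), ∑ i, ∑ j, (u i + s * t i) * (u j + s * t j) * G i j =
      ∑ i, ∑ j, u i * u j * G i j + s * ∑ i, ∑ j, (u i * t j + t i * u j) * G i j +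
        s ^ 2 * ∑ i, ∑ j, t i * t j * G i j := fun u s => by
    simp only [Finset.mul_sum, ← Finset.sum_add_distrib]
    exact Finset.sum_congr rfl fun i _ => Finset.sum_congr rfl fun j _ => by ring
  have e2 : ∀ u : Fin k → ℝ, ∑ i, ∑ j, (u i * t j + t i * u j) * G i j = 0 := fun u => by
    by_contra hc
    have e3 := h fun i => u i + (-(∑ i, ∑ j, u i * u j * G i j + 1) /
      ∑ i, ∑ j, (u i * t j + t i * u j) * G i j) * t i
    rw [e1, ← h0, div_mul_cancel₀ _ hc] at e3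
    linarith
  have e3 : ∀ N : ℕ, (fun i => round (N * t i)) ∈
      {a : Fin k → ℤ | ∑ i, ∑ j, (a i : ℝ) * a j * G i j ≤ ∑ i, ∑ j, |G i j|} := fun N => by
    have e4 := e1 (fun i => round (N * t i) - N * t i) N
    simp only [sub_add_cancel, e2, ← h0, mul_zero, add_zero] at e4
    refine e4.trans_le (Finset.sum_le_sum fun i _ => Finset.sum_le_sum fun j _ => ?_)
    have b : ∀ i, |(round (N * t i) : ℝ) - N * t i| ≤ 1 := fun i => by
      rw [abs_sub_comm]
      linarith [abs_sub_round (N * t i)]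
    refine (le_abs_self _).trans ?_
    rw [abs_mul, abs_mul]
    exact mul_le_of_le_one_left (abs_nonneg _) (mul_le_one₀ (b i) (abs_nonneg _) (b j))
  obtain ⟨i, hi⟩ := Function.ne_iff.1 ht
  obtain ⟨C, hC⟩ := ((hf (∑ i, ∑ j, |G i j|)).image fun a => |(a i : ℝ)|).bddAbove
  obtain ⟨N, hN⟩ := exists_nat_gt ((C + 1) / |t i|)
  have e5 : |(round (N * t i) : ℝ)| ≤ C := hC ⟨_, e3 N, rfl⟩
  have e6 := abs_sub_round (N * t i)
  have e7 := abs_sub_abs_le_abs_sub (N * t i) (round (N * t i) : ℝ)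
  rw [div_lt_iff₀ (abs_pos.2 hi)] at hN
  rw [abs_mul, Nat.abs_cast] at e7
  linarith

theorem pd_int {k : ℕ} {v : Fin k → Pt W15 ℂ} (hv : ∀ i, v i ∈ Alg W15) (a : Fin k → ℤ) :
    ∑ i, ∑ j, (a i : ℝ) * a j * hpair (v i) (v j) = 2 * hhat (∑ i, a i • v i) := by
  let w : Fin k → Alg W15 := fun i => ⟨v i, hv i⟩
  have e : ∑ i, a i • v i = (∑ i, a i • w i : Alg W15) := by simp [w]
  rw [e, ← hpair_self (Subtype.property _), ← hbil_apply]
  simp only [map_sum, map_zsmul, AddMonoidHom.finsetSum_apply, AddMonoidHom.zsmul_apply,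
    zsmul_eq_mul, Finset.mul_sum, hbil_apply]
  rw [Finset.sum_comm]
  exact Finset.sum_congr rfl fun i _ => Finset.sum_congr rfl fun j _ => by ring

theorem gram_nonneg {k : ℕ} {v : Fin k → Pt W15 ℂ} (hv : ∀ i, v i ∈ Alg W15) (t : Fin k → ℝ) :
    0 ≤ ∑ i, ∑ j, t i * t j * hpair (v i) (v j) := by
  refine pd_nonneg (fun a => ?_) t
  rw [pd_int hv]
  exact mul_nonneg zero_le_two
    (hhat_nonneg (AddSubgroup.sum_mem _ fun i _ => AddSubgroup.zsmul_mem _ (hv i) _))

theorem finite_comb {k : ℕ} {v : Fin k → Pt W15 ℂ} (hv : ∀ i, v i ∈ Alg W15)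
    (hi : LinearIndependent ℤ v) (B : ℝ) : {a : Fin k → ℤ | hhat (∑ i, a i • v i) ≤ B}.Finite := by
  obtain ⟨H, hH, -, h⟩ := exists_field (W := W15) (S := Set.range v) (Set.finite_range v)
    (by rintro _ ⟨i, rfl⟩; exact hv i) Set.finite_empty (by simp)
  have : NumberField H := {}
  choose u hu using fun i => h (v i) ⟨i, rfl⟩
  obtain ⟨C, h1, -⟩ := hrel_spec W15 H
  have h0 : (0 : ℝ) < Module.finrank ℚ H := by exact_mod_cast Module.finrank_pos
  have e : ∀ a : Fin k → ℤ, pmap H.val.toRingHom (∑ i, a i • u i) = ∑ i, a i • v i := fun a => by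
    simp only [map_sum, map_zsmul, hu]
  refine ((finite_height_le (W := W15) (K := H) (B * Module.finrank ℚ H + C)).preimage
    (f := fun a : Fin k → ℤ => ∑ i, a i • u i) fun a _ b _ hab => ?_).subset fun a ha => ?_
  · exact linearIndependent_iff_injective_fintypeLinearCombination.1 hi (by
      simp only [Fintype.linearCombination_apply, ← e]
      exact congrArg _ hab)
  · have h2 := (abs_le.1 (h1 (∑ i, a i • u i))).1
    have h3 : hhat (∑ i, a i • v i) ≤ B := ha
    rw [← e, hhat_pmap, div_le_iff₀ h0] at h3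
    show Height.logHeight₁ (xco (∑ i, a i • u i)) ≤ _
    linarith

theorem gram_pos {k : ℕ} {v : Fin k → Pt W15 ℂ} (hv : ∀ i, v i ∈ Alg W15)
    (hi : LinearIndependent ℤ v) {t : Fin k → ℝ} (ht : t ≠ 0) :
    0 < ∑ i, ∑ j, t i * t j * hpair (v i) (v j) := by
  refine pd_pos (gram_nonneg hv) (fun B => (finite_comb hv hi (B / 2)).subset fun a ha => ?_) ht
  have h : ∑ i, ∑ j, (a i : ℝ) * a j * hpair (v i) (v j) ≤ B := ha
  rw [pd_int hv] at h
  show hhat _ ≤ _
  linarith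

theorem gram_ne {k : ℕ} {v : Fin k → Pt W15 ℂ} (hv : ∀ i, v i ∈ Alg W15)
    (hi : LinearIndependent ℤ v) {z : Fin k → ℂ} (hz : z ≠ 0) :
    ∑ i, ∑ j, z i * starRingEnd ℂ (z j) * hpair (v i) (v j) ≠ 0 := by
  intro h
  have e : ∑ i, ∑ j, (z i).re * (z j).re * hpair (v i) (v j) +
      ∑ i, ∑ j, (z i).im * (z j).im * hpair (v i) (v j) = 0 := by
    refine Eq.trans ?_ ((congrArg Complex.re h).trans Complex.zero_re)
    simp only [Complex.re_sum, ← Finset.sum_add_distrib]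
    refine Finset.sum_congr rfl fun i _ => Finset.sum_congr rfl fun j _ => ?_
    simp only [Complex.mul_re, Complex.ofReal_re, Complex.ofReal_im, Complex.conj_re,
      Complex.conj_im]
    ring
  have h1 := gram_nonneg hv fun i => (z i).re
  have h2 := gram_nonneg hv fun i => (z i).im
  refine hz (funext fun i => Complex.ext ?_ ?_)
  · by_contra hn
    have := gram_pos hv hi (t := fun i => (z i).re) fun e => hn (congrFun e i)
    linarith
  · by_contra hn
    have := gram_pos hv hi (t := fun i => (z i).im) fun e => hn (congrFun e i)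
    linarith

theorem indep_orbit {A : Type} [AddCommGroup A] (T : Module.End ℤ A) {j : ℕ} {w : A}
    (h : (T ^ 2 ^ j) w = -w) (hw : ¬ IsOfFinAddOrder w) :
    LinearIndependent ℤ fun k : Fin (2 ^ j) => (T ^ (k : ℕ)) w := by
  rw [Fintype.linearIndependent_iff]
  by_contra hn
  push Not at hn
  obtain ⟨a, ha, i, hi⟩ := hn
  have hΦ : Polynomial.cyclotomic (2 ^ (j + 1)) ℤ = Polynomial.X ^ 2 ^ j + 1 := by
    rw [Polynomial.cyclotomic_prime_pow_eq_geom_sum Nat.prime_two, Finset.sum_range_succ,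
      Finset.sum_range_one, pow_zero, pow_one, add_comm]
  have hirr := Polynomial.cyclotomic.irreducible (n := 2 ^ (j + 1)) (by positivity)
  have hm := Polynomial.cyclotomic.monic (2 ^ (j + 1)) ℤ
  have hd : (Polynomial.cyclotomic (2 ^ (j + 1)) ℤ).degree = (2 ^ j : ℕ) := by
    rw [hΦ, ← Polynomial.C_1, Polynomial.degree_X_pow_add_C (by positivity)]
  have hΦ' : Polynomial.aeval T (Polynomial.cyclotomic (2 ^ (j + 1)) ℤ) w = 0 := by
    rw [hΦ, map_add, map_pow, Polynomial.aeval_X, map_one, LinearMap.add_apply, h,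
      Module.End.one_apply, neg_add_cancel]
  generalize Polynomial.cyclotomic (2 ^ (j + 1)) ℤ = Φ at hirr hm hd hΦ'
  obtain ⟨f, hf⟩ : ∃ f, f = ∑ k : Fin (2 ^ j), Polynomial.C (a k) * Polynomial.X ^ (k : ℕ) :=
    ⟨_, rfl⟩
  have f1 : f.degree < Φ.degree := by
    rw [hd, hf]
    exact Polynomial.degree_sum_fin_lt _
  have f0 : f ≠ 0 := fun e => hi (by
    have := congrArg (Polynomial.coeff · i) (hf.symm.trans e)
    simpa [Polynomial.coeff_X_pow, Fin.val_inj] using this)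
  have f2 : Polynomial.aeval T f w = 0 := by
    rw [← ha, hf]
    simp
  have := AdjoinRoot.isDomain_of_prime hirr.prime
  have := (AdjoinRoot.powerBasis' hm).finite
  obtain ⟨r, r0, g, hg⟩ := (Algebra.IsAlgebraic.isAlgebraic (R := ℤ)
    (AdjoinRoot.mk Φ f)).exists_nonzero_dvd
      (mem_nonZeroDivisors_of_ne_zero (AdjoinRoot.mk_ne_zero_of_degree_lt hm f0 f1))
  obtain ⟨g, rfl⟩ := AdjoinRoot.mk_surjective g
  obtain ⟨c, hc⟩ := AdjoinRoot.mk_eq_mk.1
    (((AdjoinRoot.mk_C (f := Φ) r).trans hg).trans (map_mul _ _ _).symm)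
  have e : Polynomial.C r = g * f + c * Φ := by linear_combination hc
  have e1 := congrArg (fun P => Polynomial.aeval T P w) e
  simp only [map_add, map_mul, LinearMap.add_apply, Module.End.mul_apply, f2, hΦ', map_zero,
    add_zero, Polynomial.aeval_C, Module.algebraMap_end_apply] at e1
  exact hw (isOfFinAddOrder_iff_zsmul_eq_zero.2 ⟨r, r0, e1⟩)

end Pool.Agent.DH
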