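import Pool.Agent.Lib.MP_60ff09_nt.Dih.RK0
import Pool.Agent.Lib.MP_60ff09_nt.Dih.PD

/-! The dimension of an eigenspace after extension of scalars. -/

set_option autoImplicit false

open scoped Classical NumberTheorySymbols TensorProduct
open NumberField CategoryTheory
open Pool.Agent.Lib.MP_696deb_nt Pool.Agent.Lib.MP_696deb_nt.B2 Pool.Agent.Lib.MP_696deb_nt.B2.CM
open Pool.Agent.Lib.MP_60ff09_nt Pool.Agent.Lib.MP_60ff09_nt.V4

namespace Pool.Agent.DH

/-- An element of infinite order generates a subgroup of finite index in a weak sense. -/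
theorem exists_mul_mem_orbit {A : Type} [AddCommGroup A] (T : Module.End ℤ A) {j : ℕ}
    (B : AddSubgroup A) (hT : ∀ b ∈ B, T b ∈ B) (hB : ∀ b ∈ B, (T ^ 2 ^ j) b = -b) {w : A}
    (hw : w ∈ B) (h0 : ¬ IsOfFinAddOrder w) (hd : Dep B (2 * 2 ^ j)) {b : A} (hb : b ∈ B) :
    ∃ N : ℤ, N ≠ 0 ∧ N • b ∈ AddSubgroup.closure (Set.range fun k : ℕ => (T ^ k) w) := by
  by_contra hn
  push Not at hn
  have hp : ∀ k : ℕ, ∀ x ∈ B, (T ^ k) x ∈ B := fun k x hx => by
    induction k with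
    | zero => exact hx
    | succ k ih => rw [pow_succ']; exact hT _ ih
  let S : Submodule ℤ A := Submodule.span ℤ (Set.range fun k : ℕ => (T ^ k) w)
  have hS : S ≤ S.comap T := Submodule.span_le.2 (by
    rintro _ ⟨k, rfl⟩
    exact Submodule.subset_span ⟨k + 1, congrArg (· w) (pow_succ' T k)⟩)
  have e : ∀ (k : ℕ) (x : A), ((S.mapQ S T hS) ^ k) (S.mkQ x) = S.mkQ ((T ^ k) x) := fun k x => by
    induction k with
    | zero => rfl
    | succ k ih => rw [pow_succ', pow_succ', Module.End.mul_apply, ih]; rfl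
  have h1 := indep_orbit (S.mapQ S T hS) (j := j) (w := S.mkQ b) (by rw [e, hB b hb, map_neg])
    fun k => by
      obtain ⟨N, N0, hN⟩ := isOfFinAddOrder_iff_zsmul_eq_zero.1 k
      refine hn N N0 ?_
      rw [← map_zsmul, Submodule.mkQ_apply, Submodule.Quotient.mk_eq_zero] at hN
      rw [← Submodule.span_int_eq_addSubgroupClosure]
      exact hN
  simp only [e] at h1
  have h2 : LinearIndependent ℤ fun k : Fin (2 ^ j) =>
      (⟨(T ^ (k : ℕ)) w, Submodule.subset_span ⟨k, rfl⟩⟩ : S) :=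
    LinearIndependent.of_comp S.subtype (indep_orbit T (hB w hw) h0)
  let u := finSumFinEquiv.trans (finCongr (two_mul (2 ^ j)).symm)
  refine hd _ (fun i => ?_) ((h2.sumElim_of_quotient (fun k : Fin (2 ^ j) => (T ^ (k : ℕ)) b)
    h1).comp _ u.symm.injective)
  rw [Function.comp_apply]
  cases u.symm i with
  | inl k => exact hp _ _ hw
  | inr k => exact hp _ _ hb

theorem rkc_bc {R G : Type} [CommRing R] [Group G] (L : Type) [Field L] [Algebra R L]
    [Module.Flat R L] (A : Rep.{0} R G) : ∃ t : A →+ bc L A,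
      (∀ σ x, (bc L A).ρ σ (t x) = t (A.ρ σ x)) ∧
      (∀ S : Submodule L (bc L A), (∀ x, t x ∈ S) → ∀ y, y ∈ S) ∧
      ∀ (k : ℕ) (v : Fin k → A), LinearIndependent R v → LinearIndependent L fun i => t (v i) := by
  refine ⟨(TensorProduct.mk R L A 1).toAddMonoidHom, fun _ _ => rfl, fun S h y => ?_,
    fun k v h => Module.Flat.linearIndependent_one_tmul h⟩
  refine TensorProduct.induction_on (motive := fun w => w ∈ S) y S.zero_mem (fun l x => ?_)
    fun _ _ => S.add_mem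
  exact (congrArg (· ∈ S) ((TensorProduct.smul_tmul' l (1 : L) x).trans
    (congrArg (· ⊗ₜ[R] x) (mul_one l)))).mp (S.smul_mem l (h x))

theorem rkc_half (j : ℕ) : (2 ^ j : ZMod (2 ^ (j + 1))).val = 2 ^ j ∧
    (2 ^ j : ZMod (2 ^ (j + 1))) ≠ 0 ∧ (2 ^ j + 2 ^ j : ZMod (2 ^ (j + 1))) = 0 := by
  have h : (2 ^ j : ZMod (2 ^ (j + 1))).val = 2 ^ j := by
    simpa using ZMod.val_natCast_of_lt (Nat.pow_lt_pow_right one_lt_two j.lt_succ_self)
  refine ⟨h, fun e => ?_, ?_⟩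
  · rw [e, ZMod.val_zero] at h
    exact absurd h (by positivity)
  · simpa [pow_succ, mul_two] using ZMod.natCast_self (2 ^ (j + 1))

theorem finrank_eigL {G : Type} [Group G] [Finite G] (L : Type) [Field L] [CharZero L]
    (A : Rep.{0} ℤ G) (N : Subgroup G) {j : ℕ} {χ : G → ZMod (2 ^ (j + 1))} (hχ : IsHom N χ)
    {φ : G} (hφ : φ ∈ N) (h1 : χ φ = 1) {ζ : L} (hζ : IsPrimitiveRoot ζ (2 ^ (j + 1)))
    (B : AddSubgroup A) (hB : ∀ P, P ∈ B ↔ ∀ σ ∈ N,
      (χ σ = 0 → A.ρ σ P = P) ∧ (χ σ = 2 ^ j → A.ρ σ P = -P)) {w : A} (hw : w ∈ B)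
    (h0 : ¬ IsOfFinAddOrder w) (hd : Dep B (2 * 2 ^ j)) :
    Module.finrank L (eigL (bc L A) N fun σ => ζ ^ (χ σ).val) = 1 := by
  have := Fintype.ofFinite G
  obtain ⟨t, ht, ind, li⟩ := rkc_bc L A
  have am : ∀ σ τ x, A.ρ (σ * τ) x = A.ρ σ (A.ρ τ x) := fun σ τ x => by rw [map_mul]; rfl
  have bm : ∀ σ τ x, (bc L A).ρ (σ * τ) x = (bc L A).ρ σ ((bc L A).ρ τ x) := fun σ τ x => by
    rw [map_mul]; rfl
  have c0 : χ 1 = 0 := by simpa using hχ 1 N.one_mem 1 N.one_mem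
  have cp : ∀ k : ℕ, χ (φ ^ k) = k := fun k => by
    induction k with
    | zero => simpa using c0
    | succ k ih => rw [pow_succ φ, hχ _ (N.pow_mem hφ k) _ hφ, ih, h1, Nat.cast_succ]
  have zm : ζ ^ 2 ^ j = -1 := (hζ.pow (by positivity) (pow_succ 2 j)).eq_neg_one_of_two_right
  have z0 : ζ ≠ 0 := hζ.ne_zero (by positivity)
  obtain ⟨vm, m0, mm⟩ := rkc_half j
  have hs : ∀ τ ∈ N, ∀ b ∈ B, A.ρ τ b ∈ B := fun τ hτ b hb => (hB _).2 fun σ hσ => by
    have k := N.mul_mem (N.mul_mem (N.inv_mem hτ) hσ) hτ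
    have e : τ * (τ⁻¹ * σ * τ) = σ * τ := by group
    have e1 := hχ _ hτ _ k
    rw [e, hχ _ hσ _ hτ, add_comm (χ σ), add_right_inj] at e1
    have e2 := (hB b).1 hb _ k
    rw [← am, ← e, am, e1]
    exact ⟨fun h => by rw [e2.1 h], fun h => by rw [e2.2 h, map_neg]⟩
  let T := (A.ρ φ).toAddMonoidHom.toIntLinearMap
  have hT : ∀ (k : ℕ) x, (T ^ k) x = A.ρ (φ ^ k) x := fun k x => by
    induction k with
    | zero => simp
    | succ k ih => rw [pow_succ', pow_succ', am, ← ih]; rfl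
  have hm : ∀ b ∈ B, (T ^ 2 ^ j) b = -b := fun b hb => by
    rw [hT]
    exact ((hB b).1 hb _ (N.pow_mem hφ _)).2 (by rw [cp, Nat.cast_pow, Nat.cast_ofNat])
  let Q : bc L A →ₗ[L] bc L A := ∑ k ∈ Finset.range (2 ^ j), ζ⁻¹ ^ k • (bc L A).ρ (φ ^ k)
  have hQ : ∀ x, Q x = ∑ k ∈ Finset.range (2 ^ j), ζ⁻¹ ^ k • (bc L A).ρ (φ ^ k) x := fun x => by
    simp only [Q, LinearMap.sum_apply, LinearMap.smul_apply]
  have q1 : (bc L A).ρ φ (Q (t w)) = ζ • Q (t w) := by
    have e := (Finset.sum_range_succ' (fun k => ζ⁻¹ ^ k • (bc L A).ρ (φ ^ k) (t w)) (2 ^ j)).symm.trans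
      (Finset.sum_range_succ _ _)
    rw [ht, ht, ← hT, ← hT, hm w hw, inv_pow, inv_pow, zm, pow_zero, pow_zero, map_neg, inv_neg,
      neg_smul_neg, Module.End.one_apply, add_left_inj, ← hQ] at e
    refine Eq.trans ?_ (congrArg (ζ • ·) e)
    rw [hQ, map_sum, Finset.smul_sum]
    refine Finset.sum_congr rfl fun k _ => ?_
    rw [map_smul, pow_succ' φ, bm, smul_smul, pow_succ', mul_inv_cancel_left₀ z0]
  have q2 : ∀ k : ℕ, (bc L A).ρ (φ ^ k) (Q (t w)) = ζ ^ k • Q (t w) := fun k => by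
    induction k with
    | zero => simp
    | succ k ih => rw [pow_succ', bm, ih, map_smul, q1, smul_smul, pow_succ]
  have q3 : Q (t w) ∈ eigL (bc L A) N fun σ => ζ ^ (χ σ).val := fun σ hσ => by
    have k := N.mul_mem (N.inv_mem (N.pow_mem hφ (χ σ).val)) hσ
    have e := hχ _ (N.pow_mem hφ (χ σ).val) _ k
    rw [mul_inv_cancel_left, cp, ZMod.natCast_zmod_val, left_eq_add] at e
    rw [← q2, ← congrArg (fun g => (bc L A).ρ g (Q (t w))) (mul_inv_cancel_left (φ ^ (χ σ).val) σ),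
      bm, hQ, map_sum ((bc L A).ρ _)]
    refine congrArg _ (Finset.sum_congr rfl fun i _ => ?_)
    rw [map_smul, ht, ht, ((hB _).1 (hs _ (N.pow_mem hφ i) w hw) _ k).1 e]
  have q4 : Q (t w) ≠ 0 := fun e => by
    have ei : A.hV2 = AddCommGroup.toIntModule A := Subsingleton.elim _ _
    have k : ∀ v : Fin (2 ^ j) → A, @LinearIndependent _ ℤ A v _ _ (AddCommGroup.toIntModule A) →
        @LinearIndependent _ ℤ A v _ _ A.hV2 := fun v h => by rw [ei]; exact h
    rw [hQ, Finset.sum_range] at e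
    simp only [ht, ← hT] at e
    exact pow_ne_zero _ (inv_ne_zero z0) (Fintype.linearIndependent_iff.1
      (li _ _ (k _ (indep_orbit T (hm w hw) h0))) _ e ⟨0, by positivity⟩)
  have q5 : ∀ b ∈ B, Q (t b) ∈ Submodule.span L {Q (t w)} := fun b hb => by
    obtain ⟨n, n0, hn⟩ := exists_mul_mem_orbit T B (hs φ hφ) hm hw h0 hd hb
    have k := (AddSubgroup.closure_le (((Submodule.span L {Q (t w)}).comap
      Q).toAddSubgroup.comap t)).2 (by
        rintro _ ⟨k, rfl⟩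
        refine Submodule.mem_span_singleton.2 ⟨ζ ^ k, ?_⟩
        rw [← q2, hQ, hQ, map_sum]
        refine Finset.sum_congr rfl fun i _ => ?_
        beta_reduce
        rw [map_smul, hT, ← ht, ← bm, ← bm, ← pow_add, ← pow_add, add_comm k]) hn
    change Q (t (n • b)) ∈ Submodule.span L {Q (t w)} at k
    rwa [map_zsmul, map_zsmul, ← Int.cast_smul_eq_zsmul L,
      Submodule.smul_mem_iff _ (Int.cast_ne_zero.2 n0)] at k
  let s : ZMod (2 ^ (j + 1)) → ℤ := fun x => if x = 0 then 1 else if x = 2 ^ j then -1 else 0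
  have s1 : ∀ x, s (2 ^ j + x) = -s x := fun x => by
    have a : 2 ^ j + x = 0 ↔ x = 2 ^ j := by rw [← mm, add_right_inj]
    simp only [s, a, add_eq_left]
    split_ifs with k1 k2 k3 <;> first | rfl | exact absurd (k1.symm.trans k2) m0
  have r1 : ∀ a : A, ∑ σ : N, s (χ σ) • A.ρ σ a ∈ B := fun a => (hB _).2 fun τ hτ => by
    rw [map_sum, ← Equiv.sum_comp (Equiv.mulLeft (⟨τ, hτ⟩ : N)) fun σ : N => s (χ σ) • A.ρ σ a,
      ← Finset.sum_neg_distrib]
    refine ⟨fun e => Finset.sum_congr rfl fun σ _ => ?_,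
      fun e => Finset.sum_congr rfl fun σ _ => ?_⟩
    all_goals rw [map_zsmul, Equiv.coe_mulLeft, Subgroup.coe_mul, hχ _ hτ _ σ.2, e, am]
    · rw [zero_add]
    · rw [s1, neg_smul, neg_neg]
  refine (finrank_eq_one_iff_of_nonzero' ⟨_, q3⟩ fun e => q4 (congrArg Subtype.val e)).2 ?_
  rintro ⟨x, hx⟩
  replace hx : ∀ σ ∈ N, (bc L A).ρ σ x = ζ ^ (χ σ).val • x := hx
  let R : bc L A →ₗ[L] bc L A := ∑ σ : N, s (χ σ) • (bc L A).ρ σ
  have hR : ∀ x, R x = ∑ σ : N, s (χ σ) • (bc L A).ρ σ x := fun x => by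
    simp only [R, LinearMap.sum_apply, LinearMap.smul_apply]
  have k : Q (R x) ∈ Submodule.span L {Q (t w)} :=
    ind (((Submodule.span L {Q (t w)}).comap Q).comap R) (fun a => by
      have k := q5 _ (r1 a)
      simp only [map_sum t, map_zsmul, ← ht, ← hR] at k
      exact k) x
  have r2 : R x = ((Finset.univ.filter fun σ : N => χ σ = 0 ∨ χ σ = 2 ^ j).card : L) • x := by
    rw [hR, Finset.natCast_card_filter, Finset.sum_smul]
    refine Finset.sum_congr rfl fun σ _ => ?_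
    rw [hx _ σ.2]
    by_cases k1 : χ σ = 0
    · simp [s, k1]
    · by_cases k2 : χ σ = 2 ^ j
      · simp [s, k2, m0, vm, zm]
      · simp [s, k1, k2]
  have r3 : Q x = ((2 ^ j : ℕ) : L) • x := by
    have e : ∀ k : ℕ, (bc L A).ρ (φ ^ k) x = ζ ^ k • x := fun k => by
      rw [hx _ (N.pow_mem hφ k), cp, ZMod.val_natCast, ← pow_eq_pow_mod _ hζ.pow_eq_one]
    rw [hQ, Finset.sum_congr rfl fun k _ => by rw [e, inv_pow, inv_smul_smul₀ (pow_ne_zero _ z0)],
      Finset.sum_const, Finset.card_range, Nat.cast_smul_eq_nsmul]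
  rw [r2, map_smul, r3, Submodule.smul_mem_iff _ (Nat.cast_ne_zero.2 (Finset.card_ne_zero.2
    ⟨1, by simp [c0]⟩)), Submodule.smul_mem_iff _ (Nat.cast_ne_zero.2 (by positivity))] at k
  obtain ⟨c, hc⟩ := Submodule.mem_span_singleton.1 k
  exact ⟨c, Subtype.ext hc⟩

/-- The eigenspace of a subgroup of index two splits into two eigenspaces of the whole group. -/
theorem rank_eigL_split {G L : Type} [Group G] [Field L] [CharZero L] (W : Rep.{0} L G)
    (N : Subgroup G) (hN : ∀ σ τ, σ ∉ N → τ ∉ N → σ * τ ∈ N) {t : G} (ht : t ∉ N) (χ ψ : G → ℤ)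
    (hχ : ∀ σ τ, χ (σ * τ) = χ σ * χ τ) (h2 : ∀ σ, χ σ * χ σ = 1) (h3 : ∀ σ ∈ N, ψ σ = χ σ)
    (h4 : ∀ σ, σ ∉ N → ψ σ = -χ σ) :
    Module.rank L (eigL W N fun σ => (χ σ : L)) =
      Module.rank L (eig W χ) + Module.rank L (eig W ψ) := by
  have t2 : (χ t : L) * χ t = 1 := by exact_mod_cast congrArg (Int.cast : ℤ → L) (h2 t)
  have wm : ∀ σ τ x, W.ρ (σ * τ) x = W.ρ σ (W.ρ τ x) := fun σ τ x => by rw [map_mul]; rfl
  have e1 : eig W χ ⊓ eig W ψ = ⊥ := by
    refine eq_bot_iff.2 fun x hx => ?_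
    have k := (hx.1 t).symm.trans (hx.2 t)
    rw [h4 t ht, ← Int.cast_smul_eq_zsmul L, ← Int.cast_smul_eq_zsmul L, Int.cast_neg] at k
    have k2 : (2 : L) • x = 0 := by
      linear_combination (norm := module) (χ t : L) • k - (2 : L) • t2 • x
    exact (smul_eq_zero.1 k2).resolve_left two_ne_zero
  have e2 : eig W χ ⊔ eig W ψ = eigL W N fun σ => (χ σ : L) := by
    refine le_antisymm (sup_le (fun x hx σ _ => ?_) fun x hx σ k => ?_) fun x hx => ?_
    · rw [hx σ, Int.cast_smul_eq_zsmul]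
    · rw [hx σ, Int.cast_smul_eq_zsmul, h3 σ k]
    · replace hx : ∀ σ ∈ N, W.ρ σ x = (χ σ : L) • x := hx
      have a1 : ∀ σ, σ ∉ N → W.ρ σ (W.ρ t x) = ((χ σ : L) * χ t) • x := fun σ k => by
        rw [← wm, hx _ (hN σ t k ht), hχ, Int.cast_mul]
      have ti : t⁻¹ ∉ N := fun k => ht (N.inv_mem_iff.1 k)
      have ci : ∀ σ, χ (t⁻¹ * σ) = χ σ * χ t := fun σ => by
        have k := hχ t (t⁻¹ * σ)
        rw [mul_inv_cancel_left] at k
        linear_combination (-χ t) * k - χ (t⁻¹ * σ) * h2 t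
      have a2 : ∀ σ, σ ∉ N → W.ρ σ x = ((χ σ : L) * χ t) • W.ρ t x := fun σ k => by
        rw [← map_smul, ← Int.cast_mul, ← ci, ← hx _ (hN _ σ ti k), ← wm, mul_inv_cancel_left]
      have a3 : ∀ σ ∈ N, W.ρ σ (W.ρ t x) = (χ σ : L) • W.ρ t x := fun σ k => by
        have k1 : σ * t ∉ N := fun k2 => ht ((N.mul_mem_cancel_left k).1 k2)
        rw [← wm, a2 _ k1, hχ, Int.cast_mul, mul_assoc, t2, mul_one]
      refine Submodule.mem_sup.2 ⟨(2 : L)⁻¹ • (x + (χ t : L) • W.ρ t x),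
        Submodule.smul_mem _ _ fun σ => ?_, (2 : L)⁻¹ • (x - (χ t : L) • W.ρ t x),
        Submodule.smul_mem _ _ fun σ => ?_, by module⟩
      · rw [map_add, map_smul, ← Int.cast_smul_eq_zsmul L]
        by_cases k : σ ∈ N
        · rw [hx σ k, a3 σ k]
          module
        · rw [a1 σ k, a2 σ k]
          linear_combination (norm := module) (χ σ : L) • t2 • x
      · rw [map_sub, map_smul, ← Int.cast_smul_eq_zsmul L]
        by_cases k : σ ∈ N
        · rw [hx σ k, a3 σ k, h3 σ k]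
          module
        · rw [a1 σ k, a2 σ k, h4 σ k, Int.cast_neg]
          linear_combination (norm := module) -(χ σ : L) • t2 • x
  rw [← Submodule.rank_sup_add_rank_inf_eq, e1, e2, rank_bot, add_zero]

end Pool.Agent.DH
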