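import Pool.Agent.Lib.MP_60ff09_nt.Dih.RKb
import Pool.Agent.Lib.MP_60ff09_nt.Dih.RKc

/-! The eigenspace of a character of order at most two. -/

set_option autoImplicit false
set_option linter.unusedSectionVars false

open scoped Classical NumberTheorySymbols TensorProduct
open NumberField CategoryTheory
open Pool.Agent.Lib.MP_696deb_nt Pool.Agent.Lib.MP_696deb_nt.B2 Pool.Agent.Lib.MP_696deb_nt.B2.CM
open Pool.Agent.Lib.MP_60ff09_nt Pool.Agent.Lib.MP_60ff09_nt.V4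

namespace Pool.Agent.DH

variable {H L : Type} [Field H] [NumberField H] [Normal ℚ H] [Field L] [CharZero L] {p q n : ℕ}

theorem rke_mul {e : ℤ} (he : e ≠ 0) {δ : H} (hδ : δ ^ 2 = e) (σ τ : H ≃ₐ[ℚ] H) :
    (if (σ * τ) δ = δ then 1 else -1 : ℤ) =
      (if σ δ = δ then 1 else -1) * if τ δ = δ then 1 else -1 := by
  have ne : δ ≠ -δ := fun k => he (by
    have : δ = 0 := by linear_combination k / 2
    exact_mod_cast (hδ.symm.trans (by rw [this]; ring) : (e : H) = 0))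
  rcases pm_of_sq hδ σ with k | k <;> rcases pm_of_sq hδ τ with l | l <;> simp [k, l, ne.symm]

theorem rank_eig_tw {e : ℤ} (he : e ≠ 0) {δ : H} (hδ : δ ^ 2 = e) :
    Module.rank L (eig (bc L (pts X115 H)) fun σ => if σ δ = δ then 1 else -1) =
      Module.rank ℤ (twist15 e).toAffine.Point := by
  have ne : δ ≠ -δ := fun k => he (by
    have : δ = 0 := by linear_combination k / 2
    exact_mod_cast (hδ.symm.trans (by rw [this]; ring) : (e : H) = 0))
  have k1 := rank_eig L (pts X115 H) (fun σ : H ≃ₐ[ℚ] H => if σ δ = δ then 1 else -1)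
    (rke_mul he hδ) fun σ => by split_ifs <;> rfl
  have k2 := rank_res he hδ (MonoidHom.id _) Function.surjective_id
    (fun σ : H ≃ₐ[ℚ] H => if σ δ = δ then 1 else -1) (fun σ k => if_pos k)
    fun σ k => if_neg fun l => ne (l.symm.trans k)
  exact k1.trans k2

theorem rke_root (F : Lf H) {a : ℤ} (h : ∀ g, F.π g = 1 → chi a g = 1) :
    ∃ δ : H, δ ^ 2 = a ∧ ∀ g, (if F.π g δ = δ then 1 else -1 : ℤ) = chi a g := by
  obtain ⟨y, e⟩ := F.mem_range (x := rt a) fun g k => chi_eq_one.1 (h g k)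
  refine ⟨y, F.e.injective (by rw [map_pow, e, rt_sq, map_intCast]), fun g => ?_⟩
  have k : F.π g y = y ↔ chi a g = 1 := by
    rw [chi_eq_one, ← e, ← F.comm, F.e.injective.eq_iff]
  split_ifs with k1
  · rw [k.1 k1, Units.val_one]
  · rw [(Int.units_eq_one_or _).resolve_left (mt k.2 k1), Units.val_neg, Units.val_one]

theorem rank_two (hn : 0 < n) (F : Lf H) {θ : Cl n →* L} {a b : ℤ} (ha : a ≠ 0) (hb : b ≠ 0)
    (hab : ∃ c : ℤ, c ≠ 0 ∧ a * b * -n = c ^ 2) (hH : ∀ g, F.π g = 1 → chi a g = 1 ∧ chi b g = 1)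
    (hθ : ∀ g ∈ GK n, θ (rho n 1 g) = ((chi a g : ℤ) : L)) :
    Module.rank L (eigT F n (bc L (pts X115 H)) θ) =
      Module.rank ℤ (twist15 a).toAffine.Point + Module.rank ℤ (twist15 b).toAffine.Point := by
  obtain ⟨c, -, hc⟩ := hab
  obtain ⟨da, a1, a2⟩ := rke_root F fun g k => (hH g k).1
  obtain ⟨db, b1, b2⟩ := rke_root F fun g k => (hH g k).2
  have k0 : ∀ g, chi a g * chi b g * chi (-n) g = 1 := fun g => by
    rw [← chi_mul ha hb, ← chi_mul (mul_ne_zero ha hb) (by omega), hc, chi_sq]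
  have k1 : ∀ g, F.π g ∈ (GK n).map F.π ↔ g ∈ GK n := fun g => by
    rw [← Subgroup.mem_comap, Subgroup.comap_map_eq_self fun g k => ?_]
    have := k0 g
    rwa [(hH g k).1, (hH g k).2, one_mul, one_mul] at this
  have k2 : eigT F n (bc L (pts X115 H)) θ = eigL (bc L (pts X115 H)) ((GK n).map F.π)
      fun σ => ((if σ da = da then 1 else -1 : ℤ) : L) := by
    refine Submodule.ext fun x => ⟨?_, fun h g hg => ?_⟩
    · rintro h _ ⟨g, hg, rfl⟩
      rw [h g hg, hθ g hg, ← a2]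
    · rw [h _ ((k1 g).2 hg), hθ g hg, ← a2]
  rw [k2, ← rank_eig_tw (L := L) ha a1, ← rank_eig_tw (L := L) hb b1]
  refine rank_eigL_split _ _ (fun σ τ h1 h2 => ?_) (mt (k1 cc).1 (cc_notMem hn)) _ _
    (rke_mul ha a1) (fun σ => by split_ifs <;> rfl) (fun σ h1 => ?_) fun σ h1 => ?_
  · obtain ⟨g, rfl⟩ := F.surj σ
    obtain ⟨g', rfl⟩ := F.surj τ
    rw [← map_mul, k1]
    exact mul_mem_GK (mt (k1 g).2 h1) (mt (k1 g').2 h2)
  · obtain ⟨g, rfl⟩ := F.surj σ
    have := k0 g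
    rw [B4c_mem.1 ((k1 g).1 h1), mul_one] at this
    rw [a2, b2, eq_inv_of_mul_eq_one_right this, Int.units_inv_eq_self]
  · obtain ⟨g, rfl⟩ := F.surj σ
    have := k0 g
    rw [B4c_notMem.1 (mt (k1 g).2 h1), mul_neg, mul_one, ← neg_mul] at this
    rw [a2, b2, eq_inv_of_mul_eq_one_right this, Int.units_inv_eq_self, Units.val_neg]

theorem finrank_small [Fintype (Cl (p * q))] (h : PQ p q) (I : Inp p q) (F : Lf H)
    {θ : Cl (p * q) →* L} (h2 : ∀ x, θ x ^ 2 = 1)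
    (hH : ∀ g, F.π g = 1 → g ∈ GK (p * q) ∧ θ (rho (p * q) 1 g) = 1) :
    Module.finrank L (eigT F (p * q) (bc L (pts X115 H)) θ) = 1 := by
  obtain ⟨g, hg⟩ := DH.exists_gen h
  have p0 : (p : ℤ) ≠ 0 := by exact_mod_cast h.pp.ne_zero
  have q0 : (q : ℤ) ≠ 0 := by exact_mod_cast h.qp.ne_zero
  have hn : 0 < p * q := Nat.mul_pos h.pp.pos h.qp.pos
  have n0 : ((p * q : ℕ) : ℤ) ≠ 0 := by exact_mod_cast hn.ne'
  refine Module.finrank_eq_of_rank_eq ?_
  rcases hg.quad h θ h2 with e | e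
  · have c1 : ∀ γ, chi 1 γ = 1 := fun γ => by simpa using chi_sq 1 γ
    rw [rank_two hn F one_ne_zero (neg_ne_zero.2 n0) ⟨_, n0, by ring⟩
      (fun γ k => ⟨c1 γ, B4c_mem.1 (hH γ k).1⟩) fun γ _ => by simp [e, c1], I.rk1, I.rkn,
      zero_add, Nat.cast_one]
  · have c1 : ∀ γ ∈ GK (p * q), θ (rho (p * q) 1 γ) = ((chi p γ : ℤ) : L) := fun γ k => by
      rw [e, hg.rho h k]
    rw [rank_two hn F p0 (neg_ne_zero.2 q0) ⟨_, n0, by push_cast; ring⟩ (fun γ k => ?_) c1,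
      I.rkp, I.rkq, zero_add, Nat.cast_one]
    obtain ⟨k1, k2⟩ := hH γ k
    rw [c1 γ k1] at k2
    have k3 : chi p γ = 1 := Units.ext (Int.cast_eq_one.1 k2)
    have k4 := B4c_mem.1 k1
    rw [Nat.cast_mul, ← mul_neg, chi_mul p0 (neg_ne_zero.2 q0), k3, one_mul] at k4
    exact ⟨k3, k4⟩

end Pool.Agent.DH
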