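import Pool.Agent.Lib.MP_60ff09_nt.Dih.RKd
import Pool.Agent.Lib.MP_60ff09_nt.Dih.RKe
import Pool.Agent.Lib.MP_60ff09_nt.Dih.FNa

/-! The conjecture for a sum of two induced representations, from the arithmetic inputs. -/

set_option autoImplicit false

open scoped Classical NumberTheorySymbols TensorProduct
open NumberField CategoryTheory
open Pool.Agent.Lib.MP_696deb_nt Pool.Agent.Lib.MP_696deb_nt.B2 Pool.Agent.Lib.MP_696deb_nt.B2.CM
open Pool.Agent.Lib.MP_60ff09_nt Pool.Agent.Lib.MP_60ff09_nt.V4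

namespace Pool.Agent.DH

variable {M L : Type} [Field M] [NumberField M] [IsGalois ℚ M] [Field L] {p q : ℕ} {δ : M}
  {V : Rep L (M ≃ₐ[ℚ] M)} [Fintype (Cl (p * q))]

theorem finrank_eigT {H : Type} [Field H] [NumberField H] [Normal ℚ H] [CharZero L] (h : PQ p q)
    (I : Inp p q) (F : Lf H) {θ : Cl (p * q) →* L} {m : ℕ} {ζ : L}
    {l : Cl (p * q) →* Multiplicative (ZMod (2 ^ m))} (hc : Cyc θ m ζ l)
    (hH : ∀ g, F.π g = 1 → g ∈ GK (p * q) ∧ θ (rho (p * q) 1 g) = 1) :
    Module.finrank L (eigT F (p * q) (bc L (pts X115 H)) θ) = 1 := by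
  rcases m with _ | _ | j
  · exact finrank_small h I F (fun x => by
      rw [show θ x = 1 by simpa using hc.pow x, one_pow]) hH
  · exact finrank_small h I F (fun x => by simpa using hc.pow x) hH
  · exact finrank_big h I F hc (Nat.le_add_left 1 j) hH

theorem hom_dim_ind [CharZero L] (h : PQ p q) (I : Inp p q) (F : Lf M)
    (v : Module.Basis (Fin 2 × Fin 2) L V) {θ : Fin 2 → Cl (p * q) →* L}
    (hc : ∀ i, ∃ m ζ l, Cyc (θ i) m ζ l)
    (hb : ∀ i, IndB F (p * q) δ V (θ i) (v (i, 0)) (v (i, 1))) :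
    Module.Finite L (HomG V) ∧ Module.finrank L (HomG V) = 2 := by
  obtain ⟨e⟩ := hom_ind h.ok v hb (mw L X115 (IntermediateField.fixedField V.ρ.ker))
  have k : ∀ i, Module.finrank L
      (eigT F (p * q) (mw L X115 (IntermediateField.fixedField V.ρ.ker)) (θ i)) = 1 := fun i => by
    obtain ⟨m, ζ, l, hl⟩ := hc i
    refine finrank_eigT h I (F.sub (IntermediateField.fixedField V.ρ.ker)) hl fun g hg => ?_
    have h1 : F.π g ∈ V.ρ.ker := by
      rw [← IntermediateField.fixingSubgroup_fixedField V.ρ.ker]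
      intro x
      have e := (F.π g).restrictNormal_commutes (IntermediateField.fixedField V.ρ.ker) x
      rw [show (F.π g).restrictNormal _ = 1 from hg] at e
      exact e.symm
    have h2 : V.ρ (F.π g) (v (i, 0)) = v (i, 0) := by rw [h1]; rfl
    have h3 : g ∈ GK (p * q) := by
      by_contra h3
      obtain ⟨t, ht, e⟩ := (hb i).swap
      have h4 := ((ind_act h.ok (hb i).fst ht).2 h3).1
      rw [h2, e] at h4
      simpa using congrArg (fun x => v.repr x (i, 0)) h4
    have h4 := (hb i).fst g h3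
    rw [h2] at h4
    exact ⟨h3, by simpa using (congrArg (fun x => v.repr x (i, 0)) h4).symm⟩
  have f := fun i => Module.finite_of_finrank_pos ((k i).symm ▸ one_pos)
  refine ⟨Module.Finite.equiv e.symm, e.finrank_eq.trans ?_⟩
  rw [Module.finrank_pi_fintype, Fin.sum_univ_two, k, k]

theorem beil_ind [Algebra L ℂ] (h : PQ p q) (I : Inp p q) (hδ : δ ^ 2 = -(p * q : ℕ))
    (hV : IndSum V δ) : Beil a15 V 2 := by
  have : CharZero L := (algebraMap L ℂ).charZero
  obtain ⟨F⟩ := exists_lf (M := M)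
  obtain ⟨v, hv⟩ := hV
  choose θ m ζ l hc hb using fun i =>
    exists_indB h I F hδ (v.ne_zero (i, 0)) (hv i).1 (hv i).2.1 (hv i).2.2
  obtain ⟨k1, k2⟩ := hom_dim_ind h I F v (fun i => ⟨_, _, _, hc i⟩) hb
  have hθ : ∀ i, ∃ k : ℕ, ∀ x, ((algebraMap L ℂ : L →* ℂ).comp (θ i)) x ^ 2 ^ k = 1 := fun i =>
    ⟨m i, fun x => by rw [MonoidHom.comp_apply, ← map_pow, (hc i).pow, map_one]⟩
  choose G h1 h2 h3 using fun i => I.simple _ (hθ i)
  refine ⟨∏ i, G i, Differentiable.finsetProd fun i _ => h1 i, fun Q φ hQ s hs => ?_, k1, ?_, k2⟩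
  · rw [Finset.prod_apply]
    convert hasProd_prod (s := Finset.univ) fun i _ => h3 i s hs using 2 with l
    split_ifs with hl
    · obtain ⟨q1, q2, q3⟩ := hQ l hl
      let w : Module.Basis (Fin 2 × Fin 2) ℂ (bc ℂ V) := v.baseChange ℂ
      have hw : ∀ i, w i = (1 : ℂ) ⊗ₜ[L] v i := fun i => v.baseChange_apply ℂ i
      rw [eul_ind h I w hθ (fun i => by rw [hw, hw]; exact (hb i).bc) hl q2 q3,
        Finset.prod_inv_distrib]
    · simp
  · rw [k2, Fin.prod_univ_two, analyticOrderAt_mul ((h1 0).analyticAt 1) ((h1 1).analyticAt 1),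
      h2, h2]
    rfl

end Pool.Agent.DH
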