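import Pool.Agent.Lib.MP_60ff09_nt.Dih.RKb
import Pool.Agent.Lib.MP_60ff09_nt.Dih.RKc

/-! The eigenspace of a character of order at least four. -/

set_option autoImplicit false

open scoped Classical NumberTheorySymbols TensorProduct
open NumberField CategoryTheory
open Pool.Agent.Lib.MP_696deb_nt Pool.Agent.Lib.MP_696deb_nt.B2 Pool.Agent.Lib.MP_696deb_nt.B2.CM
open Pool.Agent.Lib.MP_60ff09_nt Pool.Agent.Lib.MP_60ff09_nt.V4

namespace Pool.Agent.DH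

variable {H L : Type} [Field H] [NumberField H] [Field L] [CharZero L] {p q n j : ℕ}

theorem rkd_desc {W W' : WeierstrassCurve ℚ} (Φ : Pt W ℂ →+ Pt W' ℂ)
    (k1 : ∀ P, Φ P = 0 → IsOfFinAddOrder P)
    (k2 : ∀ (σ : ℂ ≃+* ℂ) P, pmap (σ : ℂ →+* ℂ) (Φ P) = Φ (pmap (σ : ℂ →+* ℂ) P)) :
    ∃ Ψ : Pt W Qbar →+ Pt W' Qbar, (∀ P, Ψ P = 0 → IsOfFinAddOrder P) ∧
      ∀ (g : Gam) P, Ψ (pmap (g : Qbar →+* Qbar) P) = pmap (g : Qbar →+* Qbar) (Ψ P) := by
  let _ := jC.toAlgebra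
  have : Countable Qbar := by
    have h := Algebraic.countable ℚ Qbar
    rw [Set.eq_univ_of_forall (s := {x : Qbar | IsAlgebraic ℚ x})
      fun x => Algebra.IsAlgebraic.isAlgebraic x] at h
    exact Set.countable_univ_iff.1 h
  have fx : ∀ σ : ℂ ≃+* ℂ, (∀ x, σ (jC x) = jC x) → ∀ P,
      pmap (σ : ℂ →+* ℂ) (Φ (pmap jC P)) = Φ (pmap jC P) := fun σ hσ P => by
    rw [k2, pmap_pmap, show (σ : ℂ →+* ℂ).comp jC = jC from RingHom.ext hσ]
  have ex : ∀ P, ∃ R, pmap jC R = Φ (pmap jC P) := fun P => mem_range_pmap jC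
    (Gal.mem_range_of_fixed (K := Qbar) fun σ hσ => by
      rw [← RingHom.coe_coe, ← xco_pmap, fx σ hσ])
    (Gal.mem_range_of_fixed (K := Qbar) fun σ hσ => by
      rw [← RingHom.coe_coe, ← yco_pmap, fx σ hσ])
  choose f hf using ex
  refine ⟨AddMonoidHom.mk' f fun P Q => pmap_injective jC (by
    rw [map_add, hf, hf, hf, map_add, map_add]), fun P h => ?_, fun g P => pmap_injective jC ?_⟩
  · refine (pmap_injective jC).isOfFinAddOrder_iff.mp (k1 _ ?_)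
    rw [← hf, show f P = 0 from h, map_zero]
  · obtain ⟨σ, e⟩ := exists_ex g
    have e' : (σ : ℂ →+* ℂ).comp jC = jC.comp (g : Qbar →+* Qbar) := RingHom.ext e
    change pmap jC (f _) = pmap jC (pmap _ (f P))
    rw [hf, pmap_pmap, pmap_pmap, ← e', ← pmap_pmap, ← pmap_pmap, hf, k2]

theorem exists_isogQ : ∃ (Φ : Pt W1 Qbar →+ EE) (Ψ : EE →+ Pt W1 Qbar),
    (∀ P, Φ P = 0 → IsOfFinAddOrder P) ∧ (∀ P, Ψ P = 0 → IsOfFinAddOrder P) ∧
    (∀ (g : Gam) P, Φ (pmap (g : Qbar →+* Qbar) P) = g • Φ P) ∧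
    ∀ (g : Gam) P, Ψ (g • P) = pmap (g : Qbar →+* Qbar) (Ψ P) := by
  have h4 : ∀ z ∈ Unif.L15.lattice, ((4 : ℕ) : ℂ) * z ∈ L1.lattice := fun z hz =>
    isPer1.unif_eq_zero_iff.mp (by rw [← nsmul_eq_mul, map_nsmul]; exact (Gal.u1_L15 hz).1)
  have h1 : ∀ z ∈ L1.lattice, ((1 : ℕ) : ℂ) * z ∈ Unif.L15.lattice := fun z hz => by
    simpa using kl.le hz
  obtain ⟨Φ, k1, k2⟩ := exists_isog isPer1 Unif.isPer15 one_pos four_pos h1 h4
  obtain ⟨Ψ, k3, k4⟩ := exists_isog Unif.isPer15 isPer1 four_pos one_pos h4 h1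
  obtain ⟨Φ', l1, l2⟩ := rkd_desc Φ k1 k2
  obtain ⟨Ψ', l3, l4⟩ := rkd_desc Ψ k3 k4
  exact ⟨Φ', Ψ', l1, l3, l2, l4⟩

theorem rkd_ne (j : ℕ) : (2 : ZMod (2 ^ (j + 1))) ^ j ≠ 0 := fun e => by
  have h : ((2 ^ j : ℕ) : ZMod (2 ^ (j + 1))) = 0 := by exact_mod_cast e
  have := (Nat.pow_dvd_pow_iff_le_right one_lt_two).1 ((ZMod.natCast_eq_zero_iff _ _).1 h)
  omega

theorem rkd_two {x : ZMod (2 ^ (j + 1))} : 2 * x = 0 ↔ x = 0 ∨ x = 2 ^ j := by
  constructor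
  · intro h
    refine ((ZMod.neg_eq_self_iff x).1 (by linear_combination -h)).imp_right fun e => ?_
    rw [← ZMod.natCast_zmod_val x, show x.val = 2 ^ j by have := pow_succ 2 j; omega]
    push_cast
    rfl
  · rintro (rfl | rfl)
    · exact mul_zero _
    · rw [← pow_succ']
      exact_mod_cast ZMod.natCast_self (2 ^ (j + 1))

theorem rkd_mul {m : ℕ} (ok : Ok n 1) (l : Cl n →* Multiplicative (ZMod m)) {g : Gam}
    (hg : g ∈ GK n) (h : Gam) : ch l (g * h) = ch l g + ch l h := by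
  rw [ch, rho_mul ok hg, map_mul]
  rfl

theorem rkd_DF (ok : Ok n 1) (l : Cl n →* Multiplicative (ZMod (2 ^ (j + 1)))) {g : Gam} :
    g ∈ DF n (ch l) ↔ g ∈ GK n ∧ 2 * ch l g = 0 := by
  refine ⟨fun h => ?_, fun h => Subgroup.subset_closure h⟩
  induction h using Subgroup.closure_induction with
  | mem x hx => exact hx
  | one => exact ⟨one_mem _, by rw [ch, rho_one ok, map_one, toAdd_one, mul_zero]⟩
  | mul x y _ _ hx hy =>
    exact ⟨mul_mem hx.1 hy.1, by rw [rkd_mul ok l hx.1, mul_add, hx.2, hy.2, add_zero]⟩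
  | inv x _ hx =>
    refine ⟨inv_mem hx.1, ?_⟩
    rw [ch, rho_inv ok hx.1, map_inv, toAdd_inv, mul_neg, neg_eq_zero]
    exact hx.2

theorem mem_AA (ok : Ok n 1) (l : Cl n →* Multiplicative (ZMod (2 ^ (j + 1)))) {P : EE} :
    P ∈ AA n (ch l) ↔ ∀ g ∈ GK n, (ch l g = 0 → g • P = P) ∧ (ch l g = 2 ^ j → g • P = -P) := by
  refine ⟨fun h g hg => ⟨fun e => ?_, fun e => ?_⟩, fun h g hg => ?_⟩
  · rw [h g ((rkd_DF ok l).2 ⟨hg, rkd_two.2 (.inl e)⟩), sg, if_pos e, one_zsmul]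
  · rw [h g ((rkd_DF ok l).2 ⟨hg, rkd_two.2 (.inr e)⟩), sg, e, if_neg (rkd_ne j), neg_one_zsmul]
  · obtain ⟨k1, k2⟩ := (rkd_DF ok l).1 hg
    rcases rkd_two.1 k2 with e | e
    · rw [sg, if_pos e, one_zsmul, (h g k1).1 e]
    · rw [sg, e, if_neg (rkd_ne j), neg_one_zsmul, (h g k1).2 e]

theorem Dep.of_map {A C : Type} [AddCommGroup A] [AddCommGroup C] {S : AddSubgroup A}
    {T : AddSubgroup C} {k : ℕ} (h : Dep T k) (f : A →+ C) (hf : ∀ x, f x = 0 → IsOfFinAddOrder x)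
    (hS : ∀ x ∈ S, f x ∈ T) : Dep S k := by
  intro v hv li
  refine h (fun i => f (v i)) (fun i => hS _ (hv i)) ?_
  rw [Fintype.linearIndependent_iff] at li ⊢
  intro c hc i
  obtain ⟨N, N0, hN⟩ := isOfFinAddOrder_iff_zsmul_eq_zero.mp
    (hf (∑ i, c i • v i) (by simpa only [map_sum, map_zsmul] using hc))
  exact (mul_eq_zero.1 (li (fun i => N * c i)
    (by simpa only [mul_smul, ← Finset.smul_sum] using hN) i)).resolve_left N0

theorem finrank_big [Fintype (Cl (p * q))] (h : PQ p q) (I : Inp p q) (F : Lf H)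
    {θ : Cl (p * q) →* L} {ζ : L} {l : Cl (p * q) →* Multiplicative (ZMod (2 ^ (j + 1)))}
    (hc : Cyc θ (j + 1) ζ l) (hj : 1 ≤ j)
    (hH : ∀ g, F.π g = 1 → g ∈ GK (p * q) ∧ θ (rho (p * q) 1 g) = 1) :
    Module.finrank L (eigT F (p * q) (bc L (pts X115 H)) θ) = 1 := by
  have ok := h.ok
  obtain ⟨Φ, Ψ, k1, k2, k3, k4⟩ := exists_isogQ
  obtain ⟨⟨w, hw, h0⟩, hd⟩ := I.dep j l hj hc.surj
  rw [mem_AA ok] at hw
  choose s hs using F.surj
  have ker : ∀ g, F.π g = 1 → ch l g = 0 := fun g e => by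
    rw [ch, (hc.eq_one_iff _).1 (hH g e).2, toAdd_one]
  have key : ∀ g ∈ GK (p * q), ch l (s (F.π g)) = ch l g := fun g hg => by
    rw [← mul_inv_cancel_left g (s _), rkd_mul ok l hg,
      ker (g⁻¹ * _) (by rw [map_mul, hs, map_inv, inv_mul_cancel]), add_zero]
  have cm : ∀ (g : Gam) (P : Pt W1 H), pmap F.e ((pts X115 H).ρ (F.π g) P) =
      pmap (g : Qbar →+* Qbar) (pmap F.e P) := fun g P => by
    change pmap F.e (pmap (F.π g : H →+* H) P) = _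
    rw [pmap_pmap, pmap_pmap]
    exact congrArg (pmap · P) (RingHom.ext (F.comm g))
  let N := (GK (p * q)).map F.π
  let B : AddSubgroup (pts X115 H) :=
    { carrier := {P | ∀ σ ∈ N, (ch l (s σ) = 0 → (pts X115 H).ρ σ P = P) ∧
        (ch l (s σ) = 2 ^ j → (pts X115 H).ρ σ P = -P)}
      zero_mem' := fun σ _ => ⟨fun _ => map_zero _, fun _ => by rw [map_zero, neg_zero]⟩
      add_mem' := fun a b σ k => ⟨fun e => by rw [map_add, (a σ k).1 e, (b σ k).1 e],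
        fun e => by rw [map_add, (a σ k).2 e, (b σ k).2 e, neg_add]⟩
      neg_mem' := fun a σ k => ⟨fun e => by rw [map_neg, (a σ k).1 e],
        fun e => by rw [map_neg, (a σ k).2 e]⟩ }
  obtain ⟨x, hx⟩ := hc.surj (Multiplicative.ofAdd 1)
  obtain ⟨φ, hφ, rfl⟩ := rho_surj ok x
  obtain ⟨R, hR⟩ := F.mem_range_pt (P := Ψ w) fun g e => by
    rw [← k4, (hw g (hH g e).1).1 (ker g e)]
  have e : eigT F (p * q) (bc L (pts X115 H)) θ =
      eigL (bc L (pts X115 H)) N fun σ => ζ ^ (ch l (s σ)).val := by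
    refine Submodule.ext fun x => ⟨fun k => ?_, fun k g hg => ?_⟩
    · rintro _ ⟨g, hg, rfl⟩
      rw [k g hg, hc.eq]
      beta_reduce
      rw [key g hg, ch]
    · rw [k _ ⟨g, hg, rfl⟩, hc.eq]
      beta_reduce
      rw [key g hg, ch]
  rw [e]
  refine finrank_eigL L (pts X115 H) N (χ := fun σ => ch l (s σ)) ?_ ⟨φ, hφ, rfl⟩
    ((key φ hφ).trans (congrArg Multiplicative.toAdd hx)) hc.prim B (fun P => Iff.rfl) (w := R) ?_
    (fun k => h0 ?_) (hd.of_map (Φ.comp (pmap F.e)) (fun P k => ?_) fun P k => ?_)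
  · rintro _ ⟨g, hg, rfl⟩ _ ⟨g', hg', rfl⟩
    beta_reduce
    rw [← map_mul, key _ (mul_mem hg hg'), key g hg, key g' hg', rkd_mul ok l hg]
  · rintro _ ⟨g, hg, rfl⟩
    rw [key g hg]
    refine ⟨fun k => pmap_injective F.e ?_, fun k => pmap_injective F.e ?_⟩
    · refine (cm g R).trans (Eq.trans ?_ hR.symm)
      rw [hR, ← k4, (hw g hg).1 k]
    · refine (cm g R).trans (Eq.trans ?_ (map_neg (pmap F.e) R).symm)
      rw [hR, ← k4, (hw g hg).2 k, map_neg]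
  · obtain ⟨m, m0, hm⟩ := isOfFinAddOrder_iff_nsmul_eq_zero.mp
      (hR ▸ (pmap (W := W1) F.e).isOfFinAddOrder k)
    exact (k2 (m • w) (by rw [map_nsmul, hm])).of_nsmul m0.ne'
  · exact (pmap_injective F.e).isOfFinAddOrder_iff.mp (k1 _ k)
  · refine (mem_AA ok l).2 fun g hg => ?_
    have k' := k _ ⟨g, hg, rfl⟩
    rw [key g hg] at k'
    refine ⟨fun e => ?_, fun e => ?_⟩
    · exact (k3 g _).symm.trans (congrArg Φ ((cm g P).symm.trans (congrArg _ (k'.1 e))))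
    · exact (k3 g _).symm.trans ((congrArg Φ ((cm g P).symm.trans (congrArg _ (k'.2 e)))).trans
        (map_neg (Φ.comp (pmap F.e)) P))

end Pool.Agent.DH
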