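import Pool.Agent.Lib.MP_60ff09_nt.Dih.PIc
import Pool.Agent.Lib.MP_60ff09_nt.Dih.RKd

/-! Unramified characters of two-power order come from the class group. -/

set_option autoImplicit false

open scoped NNReal Classical NumberTheorySymbols
open Pool.Agent.Lib.MP_696deb_nt Pool.Agent.Lib.MP_696deb_nt.B2 Pool.Agent.Lib.MP_696deb_nt.B2.CM

namespace Pool.Agent.DH

variable {p q n m : ℕ} {w u : Plc} {I J : Lt} {c d : ℝ≥0} {χ : Gam → ZMod (2 ^ m)}

/-- The largest value on the lattice `I` is `c`. -/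
def Vl (n : ℕ) (u : Plc) (I : Lt) (c : ℝ≥0) : Prop :=
  (∀ z ∈ I, ∃ x, Fx (GK n) x ∧ jC x = z ∧ u.V x ≤ c) ∧ ∃ x, jC x ∈ I ∧ u.V x = c

theorem Vl.mul (h : Vl n u I c) (k : Vl n u J d) : Vl n u (I * J) (c * d) := by
  obtain ⟨x, h1, h2⟩ := h.2
  obtain ⟨y, k1, k2⟩ := k.2
  refine ⟨fun z hz => Submodule.mul_induction_on hz (fun a ha b hb => ?_) ?_, x * y,
    by rw [map_mul]; exact Submodule.mul_mem_mul h1 k1, by rw [map_mul, h2, k2]⟩
  · obtain ⟨a, a1, rfl, a2⟩ := h.1 a ha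
    obtain ⟨b, b1, rfl, b2⟩ := k.1 b hb
    exact ⟨a * b, a1.xmul b1, map_mul _ _ _, by rw [map_mul]; exact mul_le_mul' a2 b2⟩
  · rintro _ _ ⟨a, a1, rfl, a2⟩ ⟨b, b1, rfl, b2⟩
    exact ⟨a + b, fun g hg => by rw [map_add, a1 g hg, b1 g hg], map_add _ _ _,
      u.V.map_add_le a2 b2⟩

theorem lna_fx (b : ℤ) : Fx (GK n) (beQ n 1 b) := fun g hg => by
  simp only [beQ, map_add, map_mul, map_div₀, map_intCast, map_natCast, map_ofNat, smul_dq hg]

theorem vl_idl (a b : ℤ) : Vl n u (idl n 1 a b) (max (u.V a) (u.V (beQ n 1 b))) := by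
  refine ⟨fun z hz => ?_, ?_⟩
  · obtain ⟨s, t, rfl⟩ := mem_sp2.1 hz
    refine ⟨s * a + t * beQ n 1 b, fun g hg => ?_, by simp [jC_beQ], u.V.map_add_le ?_ ?_⟩
    · simp only [map_add, map_mul, map_intCast, lna_fx b g hg]
    · rw [map_mul]
      exact (mul_le_of_le_one_left' (u.V_int_le s)).trans (le_max_left _ _)
    · rw [map_mul]
      exact (mul_le_of_le_one_left' (u.V_int_le t)).trans (le_max_right _ _)
  · rcases max_choice (u.V a) (u.V (beQ n 1 b)) with e | e <;> rw [e]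
    · exact ⟨a, by rw [map_intCast]; exact left_mem_sp2 _ _, rfl⟩
    · exact ⟨_, by rw [jC_beQ]; exact right_mem_sp2 _ _, rfl⟩

theorem lna_le (hn : n % 4 = 3) {b N : ℤ} (e : b ^ 2 + n = 4 * N) : u.V (beQ n 1 b) ≤ 1 := by
  obtain ⟨t, ht⟩ := two_dvd_sub (c := 1) hn (b := b) (N := N) (by simpa using e)
  have := V_elQ_le hn u t 1
  rwa [show elQ n t 1 = beQ n 1 b by
    rw [elQ, beQ, beQ, eq_add_of_sub_eq ht]; push_cast; ring] at this

theorem vl_gen (ok : Ok n 1) (hI : Inv n I) (e : cls n I = 1) {v : Plc → ℝ≥0}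
    (h : ∀ u, Vl n u I (v u)) : ∃ a, a ≠ 0 ∧ Fx (GK n) a ∧ ∀ u : Plc, u.V a = v u := by
  obtain ⟨z, z0, rfl⟩ := (cl_eq_iff (isIv_one _) hI).1 (cl_one.trans e.symm)
  have hz : z ∈ sc z (OO n) := mem_sc.2 ⟨1, (Oc n 1).one_mem, mul_one z⟩
  obtain ⟨a, a1, rfl, -⟩ := (h w2).1 z hz
  refine ⟨a, fun k => z0 (by rw [k, map_zero]), a1, fun u => le_antisymm ?_ ?_⟩
  · obtain ⟨b, -, b1, b2⟩ := (h u).1 _ hz
    rwa [jC.injective b1] at b2
  · obtain ⟨x, h1, h2⟩ := (h u).2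
    obtain ⟨y, hy, k⟩ := mem_sc.1 h1
    obtain ⟨s, t, -, rfl⟩ := (mem_Oc ok.m4).1 hy
    rw [← jC_elQ, ← map_mul] at k
    rw [← h2, ← jC.injective k, map_mul]
    exact mul_le_of_le_one_right' (V_elQ_le ok.m4 u s t)

/-- The reciprocity law at a place above three. -/
theorem exists_three (h : PQ p q) : ∃ φ ∈ GK (p * q), xi p φ = 1 ∧ ∀ (k : ℕ) (a b c : ℤ),
    ¬ 3 ∣ a → b ^ 2 + (p * q : ℕ) = 4 * a * c → cls _ (idl (p * q) 1 a b) = rho (p * q) 1 φ ^ k →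
    ∀ (m : ℕ) (χ : Gam → ZMod (2 ^ m)), Ch (GK (p * q)) χ → Unr (GK (p * q)) χ →
      (∀ u : Plc, (u.p : ℤ) ∣ a → ∀ g ∈ GK (p * q) ⊓ Dec u, χ g = 0) → χ φ * k = 0 := by
  have ok := h.ok
  have n0 := ra_pos ok
  obtain ⟨w, hw⟩ := exists_plc Nat.prime_three
  obtain ⟨φ, hφ⟩ := exists_frob w
  have hJ : J((w.p : ℤ) | p * q) = 1 := by rw [hw]; exact h.jac15.2.2.2.2.2.1
  have h2 : w.p ≠ 2 := by omega
  have hD : Dec w ≤ GK (p * q) := dec_le_split h2
    ((jac_swap ok.m4 (w.prime.odd_of_ne_two h2)).trans hJ)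
  obtain ⟨b, c, e, hb⟩ : ∃ b c : ℤ, b ^ 2 + (p * q : ℕ) = 4 * w.p * c ∧
      w.V (beQ (p * q) 1 b) < 1 := by
    obtain ⟨_, b, c, e, -⟩ := exists_prm ok h.sqf w.prime (by rw [hJ]; decide)
    rcases V_beQ_or ok.m4 (ra_e e) with k | k
    exacts [⟨b, c, e, k⟩, ⟨-b, c, by rwa [neg_sq], k⟩]
  have b3 : ¬ (w.p : ℤ) ∣ b := fun d => by
    rw [rc_jac_zero w.prime n0.ne' ((rb_dvd w.prime e).1 d)] at hJ
    exact zero_ne_one hJ
  have p0 : (w.p : ℤ) ≠ 0 := by exact_mod_cast w.prime.ne_zero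
  have hi := inv_idl ok h.sqf p0 e
  refine ⟨φ, hD hφ.1, ?_, fun k a b' c' a3 e' hc m χ h1 h3 h4 => ?_⟩
  · have := h.pm
    rw [xi_eq_one, ← Units.val_inj, chi_frob (by rw [hw]; omega) hφ, hw, h.jac.2.2.2.2.2.2.1]
    rfl
  have a0 : a ≠ 0 := fun k => a3 (by simp [k])
  have key : ∀ i : ℕ, ∃ I, Inv (p * q) I ∧
      cls _ I = cls _ (idl (p * q) 1 a b') * cls _ (idl (p * q) 1 w.p b) ^ i ∧ ∀ u : Plc,
        Vl (p * q) u I (max (u.V a) (u.V (beQ (p * q) 1 b')) *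
          max (u.V (w.p : ℤ)) (u.V (beQ (p * q) 1 b)) ^ i) := fun i => by
    induction i with
    | zero => exact ⟨_, inv_idl ok h.sqf a0 e', by simp, fun u => by simpa using vl_idl a b'⟩
    | succ i ih =>
      obtain ⟨I, k1, k2, k3⟩ := ih
      exact ⟨_, k1.mul hi, by rw [cls, cl_mul k1 hi, pow_succ, ← mul_assoc, ← k2], fun u => by
        rw [pow_succ, ← mul_assoc]; exact (k3 u).mul (vl_idl _ _)⟩
  obtain ⟨I, k1, k2, k3⟩ := key k
  rw [hc, rho_frob_split ok (ra_e e) b3 hb hφ, ← mul_pow, inv_mul_cancel, one_pow] at k2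
  obtain ⟨α, α0, fα, vα⟩ := vl_gen ok k1 k2 k3
  obtain ⟨κ, hκ⟩ := exists_kum m α0 fα
  obtain ⟨F⟩ := exists_cft
  have one : ∀ u : Plc, ¬ (u.p : ℤ) ∣ a → max (u.V a) (u.V (beQ (p * q) 1 b')) = 1 := fun u k => by
    rw [u.V_int_eq_one.2 k, max_eq_left (lna_le ok.m4 (e'.trans (mul_assoc _ _ _)))]
  have res := F.recip {w} (op_GK _) (c2_cup h1.sm h1.hom hκ.sm hκ.coc)
    (.inl (tc_of_le n0 le_rfl)) (fun v hv v' hv' _ _ _ =>
      (Finset.mem_singleton.1 hv).trans (Finset.mem_singleton.1 hv').symm) fun u hu => by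
      by_cases k : (u.p : ℤ) ∣ a
      · exact (F.congr fun g hg _ _ => by rw [cup, h4 u k g hg, zero_mul, zero_mul]).trans
          (B3c_inv_zero F (op_GK _))
      refine F.unit (op_GK _) (h1.sm.mono inf_le_left) (fun g hg k hk => h1.hom g hg.1 k hk.1)
        (h3 u) (hκ.mono inf_le_left) ?_
      have le := lna_le (u := u) ok.m4 (e.trans (mul_assoc _ _ _))
      rw [vα, one u k, one_mul]
      suffices max (u.V (w.p : ℤ)) (u.V (beQ (p * q) 1 b)) = 1 by rw [this, one_pow]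
      by_cases k5 : u.p = w.p
      · obtain ⟨g, hg, k6 | k6⟩ := conj_or n0 k5
        · exact absurd k6 (hu w (Finset.mem_singleton_self w) g hg)
        have k7 : u.V (beQ (p * q) 1 b) = 1 := le.eq_or_lt.resolve_right fun k7 => by
          rw [← k6, smul_V, lna_fx b _ (inv_mem hg), smul_V] at k7
          have k8 := w.V.map_add_lt hb k7
          rw [show beQ (p * q) 1 b + cc⁻¹ (beQ (p * q) 1 b) = b by
            simp only [beQ, map_add, map_mul, map_div₀, map_intCast, map_natCast, map_ofNat,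
              smul_dq' fun k => cc_notMem n0 (inv_mem_iff.1 k)]
            ring] at k8
          exact b3 (b2c_lt.1 k8)
        rw [k7, max_eq_right (u.V_int_le _)]
      · rw [u.V_int_eq_one.2 (not_dvd_of_prime_ne u.prime w.prime k5), max_eq_left le]
  rwa [Finset.sum_singleton, F.kum k (op_GK _) ((Ine_le w).trans hD) (hD hφ.1)
    (by rwa [Subgroup.relIndex_eq_one.2 (le_inf hD le_rfl), pow_one]) (h1.sm.mono inf_le_left)
    (fun g hg k hk => h1.hom g hg.1 k hk.1) (fun σ hσ => h3 w σ ⟨hD (Ine_le w hσ), hσ⟩)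
    (hκ.mono inf_le_left) (by
      obtain ⟨i, hi⟩ := V_of_fx_ine (fun g hg => lna_fx b g (hD (Ine_le w hg))) fun k => by
        have k1 := congrArg Complex.im ((jC_beQ _ _ _).symm.trans ((congrArg jC k).trans
          (map_zero _)))
        have k2 := dl_im n0
        simp only [be, Complex.div_ofNat_im, Complex.add_im, Complex.intCast_im, Nat.cast_one,
          one_mul, Complex.zero_im] at k1
        linarith
      have q1 : (1 : ℝ≥0) < w.p := by exact_mod_cast w.prime.one_lt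
      rw [vα, one w (by rwa [hw]), one_mul, Int.cast_natCast, w.hV, max_eq_left, inv_pow,
        zpow_natCast]
      rw [hi, inv_lt_one₀ (zpow_pos (one_pos.trans q1) _), one_lt_zpow_iff_right₀ q1] at hb
      rw [hi]
      exact inv_anti₀ (one_pos.trans q1) ((zpow_one _).ge.trans
        (zpow_le_zpow_right₀ q1.le hb))), Int.cast_natCast] at res

theorem unr_zero (h : PQ p q) {φ : Gam} (hφ : φ ∈ GK (p * q)) (e : xi p φ = 1)
    (h1 : Ch (GK (p * q)) χ) (h2 : Unr (GK (p * q)) χ) (h3 : χ φ = 0) :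
    ∀ g ∈ GK (p * q), χ g = 0 := by
  rcases m with _ | j
  · exact fun g _ => (inferInstance : Subsingleton (ZMod 1)).elim _ _
  have step : ∀ i : ℕ, (∀ g ∈ GK (p * q), 2 ^ (i + 1) * χ g = 0) →
      ∀ g ∈ GK (p * q), 2 ^ i * χ g = 0 := fun i hi => by
    have k : ∀ g ∈ GK (p * q), 2 ^ i * χ g = 0 ∨ 2 ^ i * χ g = 2 ^ j := fun g hg =>
      rkd_two.1 (by rw [← mul_assoc, ← pow_succ', hi g hg])
    obtain ⟨v, hv⟩ := uq_K h (β := fun g => if 2 ^ i * χ g = 0 then 0 else 1)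
      ⟨h1.sm.comp fun x => if 2 ^ i * x = 0 then 0 else 1, fun g hg g' hg' => by
        have k0 := rkd_ne j
        have k1 : (2 : ZMod (2 ^ (j + 1))) ^ j + 2 ^ j = 0 := by
          rw [← two_mul, rkd_two.2 (.inr rfl)]
        simp only [h1.hom g hg g' hg', mul_add]
        rcases k g hg with a | a <;> rcases k g' hg' with b | b <;> simp [a, b, k0, k1]
        rfl⟩ fun w σ hσ => by simp [h2 w σ hσ]
    obtain rfl : v = 0 := by simpa [h3, e] using (hv φ hφ).symm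
    exact fun g hg => by simpa using hv g hg
  have all : ∀ i k : ℕ, i + k = j + 1 → ∀ g ∈ GK (p * q), 2 ^ k * χ g = 0 := fun i => by
    induction i with
    | zero =>
      intro k hk g _
      rw [show k = j + 1 by omega, show (2 : ZMod (2 ^ (j + 1))) ^ (j + 1) = 0 by
        exact_mod_cast ZMod.natCast_self (2 ^ (j + 1)), zero_mul]
    | succ i ih => exact fun k hk => step k (ih _ (by omega))
  simpa using all (j + 1) 0 rfl

theorem ch_ch (ok : Ok n 1) (l : Cl n →* Multiplicative (ZMod (2 ^ m))) : Ch (GK n) (ch l) :=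
  ⟨(sm_rho _ n 1).comp fun x => (l x).toAdd, fun _ hg k _ => rkd_mul ok l hg k⟩

theorem link_K (h : PQ p q) (h1 : Ch (GK (p * q)) χ) (h2 : Unr (GK (p * q)) χ) :
    ∃ l : Cl (p * q) →* Multiplicative (ZMod (2 ^ m)), ∀ g ∈ GK (p * q), χ g = ch l g := by
  have ok := h.ok
  have := h.fin
  obtain ⟨φ, hφ, e, k⟩ := exists_three h
  obtain ⟨G, hG⟩ := exists_gen h
  set a := rho (p * q) 1 φ with ha
  obtain ⟨t, ht⟩ : ∃ t : ℤ, 1 ^ 2 + ((p * q : ℕ) : ℤ) = 4 * 1 * t :=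
    ⟨((p * q : ℕ) + 1) / 4, by have := ok.m4; omega⟩
  have k1 := k (orderOf a) 1 1 t (by decide) ht (by
    rw [pow_orderOf_eq_one, ← cl_one, cmb_ot ok.m4 (ra_e ht), idl, Int.cast_one]) m χ h1 h2
    fun u hu => absurd hu (Nat.prime_iff_prime_int.1 u.prime).not_dvd_one
  have ho := hG.odd_index h (a := a) (by rw [ha, hG.rho h hφ, xi_eq_one.1 e])
  obtain ⟨o, h3⟩ := (ZMod.isUnit_iff_coprime _ (2 ^ m)).2 ((Nat.coprime_two_right.2 ho).pow_right _)
  have hz : ∀ x : Subgroup.zpowers a, x ∈ Subgroup.zpowers (⟨a, Subgroup.mem_zpowers a⟩ :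
      Subgroup.zpowers a) := by
    rintro ⟨_, i, rfl⟩
    exact ⟨i, rfl⟩
  have hd : orderOf (Multiplicative.ofAdd ((o⁻¹ : (ZMod (2 ^ m))ˣ) * χ φ)) ∣
      orderOf (⟨a, Subgroup.mem_zpowers a⟩ : Subgroup.zpowers a) := by
    rw [Subgroup.orderOf_mk, orderOf_dvd_iff_pow_eq_one, ← ofAdd_nsmul, nsmul_eq_mul, mul_comm,
      mul_assoc, k1, mul_zero, ofAdd_zero]
  let l := (monoidHomOfForallMemZpowers hz hd).comp
    ((powMonoidHom (Subgroup.zpowers a).index).codRestrict _ (Subgroup.zpowers a).pow_index_mem)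
  have hl : ch l φ = χ φ := by
    change (monoidHomOfForallMemZpowers hz hd
      (⟨a, Subgroup.mem_zpowers a⟩ ^ (Subgroup.zpowers a).index)).toAdd = _
    rw [map_pow, monoidHomOfForallMemZpowers_apply_gen, toAdd_pow, toAdd_ofAdd, nsmul_eq_mul,
      ← h3, ← mul_assoc, o.mul_inv, one_mul]
  have k2 := ch_ch ok l
  refine ⟨l, fun g hg => sub_eq_zero.1 (unr_zero h (χ := fun g => χ g - ch l g) hφ e
    ⟨h1.sm.comp₂ k2.sm (· - ·), fun g hg g' hg' => ?_⟩ (fun w σ hσ => ?_) (sub_eq_zero.2 hl.symm)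
    g hg)⟩
  · simp only [h1.hom g hg g' hg', k2.hom g hg g' hg']
    ring
  · simp only [h2 w σ hσ, ch_unr ok h.sqf l w σ hσ, sub_self]

theorem frob_K (h : PQ p q) (l : Cl (p * q) →* Multiplicative (ZMod (2 ^ m))) {ψ : Gam}
    {a : Cl (p * q)} (hw : w.p ∣ p * q) (hψ : ψ ∈ GK (p * q)) (hf : IsFrob w w.p ψ)
    (ha : Prm (p * q) w.p a) : l (rho (p * q) 1 ψ) = l a := by
  have ok := h.ok
  have := h.fin
  have n0 := ra_pos ok
  obtain ⟨G, hG⟩ := exists_gen h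
  have hp : Prm (p * q) p a := by
    rcases (Nat.Prime.dvd_mul w.prime).1 hw with k | k
    · rwa [(Nat.prime_dvd_prime_iff_eq w.prime h.pp).1 k] at ha
    · rw [(Nat.prime_dvd_prime_iff_eq w.prime h.qp).1 k] at ha
      have k1 := (re_pp h).1
      have k2 := ha.sq ok h.qp (dvd_mul_left q p)
      rcases ha.or ok h.qp (prm_pq h k1) with e | e <;> rw [e] at k1
      exacts [k1, k2 ▸ k1]
  have a2 : a * a = 1 := by rw [mul_eq_one_iff_inv_eq, ha.sq ok w.prime hw]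
  obtain ⟨o, ho, e⟩ := tq_eq_one.1 ((map_pow _ _ _).trans (tq_rho_ram_sq ok h.sqf hw ⟨hψ, hf.1⟩))
  have sq : ∀ {m : ℕ} (l : Cl (p * q) →* Multiplicative (ZMod (2 ^ m))),
      l (rho (p * q) 1 ψ ^ o) = l (rho (p * q) 1 ψ) := fun l => by
    obtain ⟨i, rfl⟩ := ho
    rw [pow_succ, pow_mul, map_mul, map_pow, char_tq l ((map_pow _ _ _).trans
      (tq_rho_ram_sq ok h.sqf hw ⟨hψ, hf.1⟩)), one_pow, one_mul]
  rcases two_tors h hp (x := rho (p * q) 1 ψ ^ o) (by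
    rw [inv_eq_iff_mul_eq_one, ← pow_two, ← pow_mul, mul_comm o 2, pow_mul, e]) with k | k
  swap
  · rw [← sq, k]
  exfalso
  obtain ⟨φ, hφ, e1, k1⟩ := exists_three h
  obtain ⟨o', t, ho', e2⟩ := hG.exists_pow h (a := (rho (p * q) 1 φ)⁻¹) (by
    rw [map_inv, hG.rho h hφ, xi_eq_one.1 e1]; rfl) a
  obtain ⟨i, rfl⟩ := ho'
  rw [pow_succ, pow_mul, pow_two, a2, one_pow, one_mul, inv_pow, mul_inv_eq_one] at e2
  have a1 : tq _ a ≠ 1 := fun k => by
    obtain ⟨_, ⟨i, rfl⟩, k⟩ := tq_eq_one.1 k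
    rw [pow_succ, pow_mul, pow_two, a2, one_pow, one_mul] at k
    obtain ⟨x, x1, hx⟩ := re_ker h hG
    rcases two_tors h hp (x := x) (by
      rw [inv_eq_iff_mul_eq_one, ← pow_two]; exact (hx x).2 (.inr rfl)) with e | e
    exacts [x1 e, x1 (e.trans k)]
  obtain ⟨m, θ, -, h2⟩ := exists_char tw_two ⊥ (a := tq _ a) a1
  obtain ⟨b, c, e3, -, e4⟩ := ha
  have k2 := ch_ch ok (θ.comp (tq _))
  have k3 := ch_unr ok h.sqf (θ.comp (tq _))
  have := k1 t w.p b c (fun k => ?_) e3 (e4.symm.trans e2) m _ k2 k3 fun u hu g hg => ?_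
  · refine h2 (toAdd_eq_zero.1 ?_)
    rw [e2, map_pow, map_pow, toAdd_pow, nsmul_eq_mul, mul_comm]
    exact this
  · exact Nat.prime_three.ne_one (Nat.eq_one_of_dvd_coprimes h.cop
      ((show 3 ∣ w.p by exact_mod_cast k).trans hw) (by norm_num))
  · obtain ⟨s, s1, s2⟩ := (exists_ine_notMem h.sqf ok.m4 (w := w) (by exact_mod_cast hw)).2
    obtain ⟨x, hx, rfl⟩ := conj_of_inert ((Nat.prime_dvd_prime_iff_eq u.prime w.prime).1
      (by exact_mod_cast hu)) (Ine_le w s1) s2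
    obtain ⟨L⟩ := exists_LD (op_GK (p * q)) w
    have k4 : x⁻¹ * g * x ∈ GK (p * q) := mul_mem (mul_mem (inv_mem hx) hg.1) hx
    have k5 := L.unr_eq (k2.sm.mono inf_le_left) (fun g hg k hk => k2.hom g hg.1 k hk.1) (k3 w) _
      ⟨k4, mem_Dec_smul.1 hg.2⟩
    have k6 := L.frob
    rw [Nat.dvd_one.1 (L.dvd 1 ψ hψ (by rwa [pow_one])), pow_one] at k6
    have k9 : ψ⁻¹ * L.φ ∈ GK (p * q) := mul_mem (inv_mem hψ) L.φ_mem
    have k7 := k3 w _ ⟨k9, hf.inv_mul_mem k6⟩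
    have k8 : ch (θ.comp (tq _)) ψ = 0 := by
      rw [ch, ← sq (θ.comp (tq _)), k, map_one, toAdd_one]
    rw [k2.hom _ (inv_mem hψ) _ L.φ_mem, k2.hom.inv hψ, k8, neg_zero, zero_add] at k7
    rw [k7, zero_mul, k2.hom _ (mul_mem (inv_mem hx) hg.1) _ hx, k2.hom _ (inv_mem hx) _ hg.1,
      k2.hom.inv hx] at k5
    linear_combination k5

end Pool.Agent.DH
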