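import Pool.Agent.Lib.MP_60ff09_nt.Dih.PIa
import Pool.Agent.Lib.MP_696deb_nt.B2.GWg

/-! Quadratic characters of the imaginary quadratic field that come from units. -/

set_option autoImplicit false

open scoped NNReal Classical
open Pool.Agent.Lib.MP_696deb_nt Pool.Agent.Lib.MP_696deb_nt.B2 Pool.Agent.Lib.MP_696deb_nt.B2.CM

namespace Pool.Agent.DH

variable {p q n : ℕ} {w : Plc} {β : Gam → ZMod 2}

theorem pic_rat {r : ℚ} (r0 : r ≠ 0) : ∃ (e : ℤ) (s : ℚ), Squarefree e ∧ s ≠ 0 ∧ r = e * s ^ 2 := by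
  have h0 : r.num * r.den ≠ 0 := mul_ne_zero (Rat.num_ne_zero.2 r0) (by exact_mod_cast r.den_nz)
  obtain ⟨s, k, e, hs⟩ := Nat.sq_mul_squarefree (r.num * r.den).natAbs
  have k0 : (k : ℚ) ≠ 0 := by
    rintro e0
    rw [show k = 0 by exact_mod_cast e0] at e
    exact h0 (Int.natAbs_eq_zero.1 (by simpa using e.symm))
  have d0 : (r.den : ℚ) ≠ 0 := by exact_mod_cast r.den_nz
  have h1 : r = (r.num * r.den : ℤ) / r.den ^ 2 := by
    push_cast
    rw [← r.mul_den_eq_num]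
    field_simp
  rcases Int.natAbs_eq (r.num * r.den) with h | h <;> rw [h, ← e] at h1
  · exact ⟨s, k / r.den, Int.squarefree_natCast.2 hs, div_ne_zero k0 d0, by
      refine h1.trans ?_; push_cast; ring⟩
  · exact ⟨-s, k / r.den, Int.squarefree_natAbs.1 (by simpa using hs), div_ne_zero k0 d0, by
      refine h1.trans ?_; push_cast; ring⟩

theorem pic_odd {e : ℤ} (he : Squarefree e) (h : (w.p : ℤ) ∣ e) {y : Qbar} (hy : Fx (Ine w) y) :
    w.V e ≠ w.V y ^ 2 := fun k => by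
  obtain ⟨d, rfl⟩ := h
  have hd : ¬ (w.p : ℤ) ∣ d := fun k =>
    (Nat.prime_iff_prime_int.1 w.prime).not_isUnit (he _ (mul_dvd_mul_left _ k))
  rw [Int.cast_mul, map_mul, w.V_int_eq_one.2 hd, mul_one, Int.cast_natCast, w.hV] at k
  have q1 : (1 : ℝ≥0) < w.p := by exact_mod_cast w.prime.one_lt
  obtain ⟨j, hj⟩ := V_of_fx_ine hy fun e0 => by
    rw [e0, map_zero, zero_pow two_ne_zero] at k
    exact (inv_pos.2 (one_pos.trans q1)).ne' k
  rw [hj, inv_pow, inv_inj, ← zpow_natCast, ← zpow_mul] at k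
  have := zpow_right_injective₀ (one_pos.trans q1) q1.ne' ((zpow_one _).trans k)
  omega

theorem pic_norm (ok : Ok n 1) {b : Qbar} (hb : Fx (GK n) b) (he : Ev (GK n) b) (w : Plc) :
    ∃ y, Fx (Ine w) y ∧ w.V (b * cc b) = w.V y ^ 2 := by
  have n0 : 0 < n := by have := ok.gt; omega
  have hc := cc_notMem (q := n) n0
  obtain ⟨y, hy, e⟩ := he w
  by_cases h : Ine w ≤ GK n
  · obtain ⟨z, hz, e'⟩ := he (cc⁻¹ • w)
    refine ⟨y * cc z, Fx.xmul (fun g hg => hy g ⟨h hg, hg⟩) fun g hg => ?_, ?_⟩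
    · have := hz (cc⁻¹ * g * cc) ⟨by simpa using (normal_GK n).conj_mem g (h hg) cc⁻¹,
        mem_Ine_smul.2 (by simpa [mul_assoc] using hg)⟩
      rw [← this]
      exact (congrArg g (congrArg cc this)).trans (cc.apply_symm_apply _).symm
    · rw [smul_V, smul_V, inv_inv] at e'
      rw [map_mul, map_mul, mul_pow, e, e']
  · obtain ⟨t, h1, h2⟩ := SetLike.not_le_iff_exists.1 h
    have k : cc b = t b := by
      rw [← hb _ (mul_mem_GK (g := cc⁻¹) (fun k => hc (inv_mem_iff.1 k)) h2)]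
      exact (cc.apply_symm_apply _).trans (congrArg t (hb _
        (mul_mem_GK (g := cc⁻¹) (fun k => hc (inv_mem_iff.1 k)) h2)).symm)
    refine ⟨y * t y, fun g hg => ?_, ?_⟩
    · have m : ∀ {a c : Gam}, a ∈ Ine w → c ∈ Ine w → a ∉ GK n → c ∉ GK n → a (c y) = y :=
        fun ha hc ha' hc' => hy _ ⟨mul_mem_GK ha' hc', mul_mem ha hc⟩
      have t' : t⁻¹ ∉ GK n := fun k => h2 (inv_mem_iff.1 k)
      rw [map_mul]
      by_cases k : g ∈ GK n
      · have := m (inv_mem h1) (mul_mem hg h1) t' fun e => h2 ((mul_mem_cancel_left k).1 e)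
        rw [hy g ⟨k, hg⟩]
        exact congrArg _ ((t.apply_symm_apply _).symm.trans (congrArg t this))
      · rw [m hg h1 k h2, mul_comm, ← congrArg t (m (inv_mem h1) hg t' k)]
        exact congrArg _ (t.apply_symm_apply _).symm
    · rw [k, map_mul, map_mul, mem_Dec.1 h1.1, mem_Dec.1 h1.1, e, mul_pow]

theorem pic_desc (ok : Ok n 1) {b : Qbar} (b0 : b ≠ 0) (hb : Fx (GK n) b) (he : Ev (GK n) b) :
    ∃ (e : ℤ) (y : Qbar), Squarefree e ∧ Fx (GK n) y ∧ b = e * y ^ 2 := by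
  have n0 : 0 < n := by have := ok.gt; omega
  have hc := cc_notMem (q := n) n0
  have sw : ∀ g : Gam, (g b = b ∧ g (cc b) = cc b) ∨ (g b = cc b ∧ g (cc b) = b) := fun g => by
    have c' : cc⁻¹ ∉ GK n := fun k => hc (inv_mem_iff.1 k)
    by_cases k : g ∈ GK n
    · refine .inl ⟨hb g k, ?_⟩
      have := hb _ (mul_mem_GK c' (h := g * cc) fun e => hc ((mul_mem_cancel_left k).1 e))
      exact (cc.apply_symm_apply _).symm.trans (congrArg cc this)
    · exact .inr ⟨(cc.apply_symm_apply _).symm.trans (congrArg cc (hb _ (mul_mem_GK c' k))),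
        hb _ (mul_mem_GK k hc)⟩
  obtain ⟨N, hN⟩ := fx_top (x := b * cc b) fun g _ => by
    rcases sw g with k | k <;> rw [map_mul, k.1, k.2]
    exact mul_comm _ _
  obtain ⟨t, ht⟩ := fx_top (x := b + cc b) fun g _ => by
    rcases sw g with k | k <;> rw [map_add, k.1, k.2]
    exact add_comm _ _
  have fx : ∀ (G : Subgroup Gam) (r : ℚ), Fx G r := fun G r g _ => map_ratCast g r
  have Np : 0 < N := by
    have := congrArg jC hN
    rw [map_mul, jC_cc, Complex.mul_conj, map_ratCast] at this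
    have k : (0 : ℝ) < N := by
      rw [show (N : ℝ) = Complex.normSq (jC b) by exact_mod_cast this.symm]
      exact Complex.normSq_pos.2 ((map_ne_zero jC).2 b0)
    exact_mod_cast k
  obtain ⟨e, s, h1, s0, h2⟩ := pic_rat Np.ne'
  have s1 : (s : Qbar) ≠ 0 := by exact_mod_cast s0
  obtain rfl : e = 1 := by
    have ep : 0 < e := by
      have : (0 : ℚ) < e := (pos_iff_pos_of_mul_pos (h2 ▸ Np)).2 (by positivity)
      exact_mod_cast this
    by_contra k
    obtain ⟨l, hl, hd⟩ := Nat.exists_prime_and_dvd (n := e.natAbs) (by omega)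
    obtain ⟨w, rfl⟩ := exists_plc hl
    obtain ⟨y, hy, k1⟩ := pic_norm ok hb he w
    refine pic_odd h1 (Int.natCast_dvd.2 hd) (hy.xdiv (fx _ s)) ?_
    rw [map_div₀, div_pow, ← k1, hN, h2]
    push_cast
    rw [map_mul, map_pow, mul_div_cancel_right₀ _ (pow_ne_zero _ (w.V.ne_zero_iff.2 s1))]
  have k : b * (t + 2 * s : ℚ) = (b + s) ^ 2 := by
    rw [h2] at hN
    push_cast at hN ⊢
    linear_combination hN - b * ht
  by_cases r0 : t + 2 * s = 0
  · obtain ⟨e, u, k1, -, k2⟩ := pic_rat (neg_ne_zero.2 s0)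
    refine ⟨e, u, k1, fx _ u, ?_⟩
    rw [r0, Rat.cast_zero, mul_zero, eq_comm, sq_eq_zero_iff, add_eq_zero_iff_eq_neg] at k
    rw [k]
    exact_mod_cast k2
  · obtain ⟨e, u, k1, u0, k2⟩ := pic_rat r0
    have u1 : (u : Qbar) ≠ 0 := by exact_mod_cast u0
    have e1 : (e : Qbar) ≠ 0 := by exact_mod_cast k1.ne_zero
    refine ⟨e, (b + s) / (e * u), k1, fun g hg => by
      simp only [map_div₀, map_add, map_mul, hb g hg, map_ratCast, map_intCast], ?_⟩
    rw [div_pow, ← k, k2]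
    push_cast
    field_simp

theorem vir_K (h : PQ p q) (hβ : Ch (GK (p * q)) β)
    (hu : ∀ w : Plc, ∃ u, w.V u = 1 ∧ Kum 1 (GK (p * q) ⊓ Ine w) u β) :
    ∃ u v : ZMod 2, ∀ g ∈ GK (p * q), β g = u * xi (-1) g + v * xi p g := by
  obtain ⟨b, hb⟩ := exists_kum_tr (op_GK _).closed (coc_tr.2 ⟨hβ.sm, hβ.hom⟩)
  have he : Ev (GK (p * q)) b := fun w => by
    obtain ⟨u, h1, s, s0, h2, h3⟩ := hu w
    obtain ⟨r, -, k2, k3⟩ := hb
    refine ⟨r / s, fun g hg => ?_, ?_⟩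
    · rw [map_div₀, k3 g hg.1, h3 g hg, mul_div_mul_right _ _ (b3b_ne _ _)]
    · rw [pow_one] at h2 k2
      rw [← map_pow, div_pow, h2, k2, map_div₀, h1, div_one]
  obtain ⟨e, y, h1, hy, h2⟩ := pic_desc h.ok hb.fx.1 hb.fx.2 he
  have y0 : y ≠ 0 := fun k => hb.fx.1 (by simp [h2, k])
  have h3 : e.natAbs ∣ p * q := by
    rw [← Nat.prod_primeFactors_of_squarefree (Int.squarefree_natAbs.2 h1),
      Nat.prod_primeFactors_dvd_iff h.sqf.ne_zero]
    intro l hl
    obtain ⟨hl, hd, -⟩ := Nat.mem_primeFactors.1 hl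
    refine Nat.mem_primeFactors.2 ⟨hl, by_contra fun k => ?_, h.sqf.ne_zero⟩
    obtain ⟨w, rfl⟩ := exists_plc hl
    have k1 := ine_le_GK' h.ok.m4 (w := w) (by exact_mod_cast k)
    obtain ⟨z, hz, k2⟩ := he w
    refine pic_odd h1 (Int.natCast_dvd.2 hd) (y := z / y)
      (fun g hg => by rw [map_div₀, hz g ⟨k1 hg, hg⟩, hy g (k1 hg)]) ?_
    rw [map_div₀, div_pow, ← k2, h2, map_mul, map_pow,
      mul_div_cancel_right₀ _ (pow_ne_zero _ (w.V.ne_zero_iff.2 y0))]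
  have h4 := b4b_kum hb hy h2
  have p0 : (p : ℤ) ≠ 0 := by exact_mod_cast h.pp.ne_zero
  have q0 : (q : ℤ) ≠ 0 := by exact_mod_cast h.qp.ne_zero
  have h5 : ∃ u v : ZMod 2, ∀ g ∈ GK (p * q), xi e.natAbs g = u * xi (-1) g + v * xi p g := by
    have k : ∀ g ∈ GK (p * q), xi (-1) g + (xi p g + xi q g) = 0 := fun g hg => by
      rw [← xi_mul p0 q0, ← xi_mul (by norm_num) (mul_ne_zero p0 q0), neg_one_mul]
      exact_mod_cast mem_GK.1 hg
    obtain ⟨a, c, ha, hc, k1⟩ := exists_dvd_and_dvd_of_dvd_mul h3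
    rw [k1]
    rcases (Nat.dvd_prime h.pp).1 ha with rfl | rfl <;>
      rcases (Nat.dvd_prime h.qp).1 hc with rfl | rfl
    · exact ⟨0, 0, fun g _ => by simp [B2.xi_one]⟩
    · refine ⟨1, 1, fun g hg => ?_⟩
      rw [one_mul]
      linear_combination k g hg - mu1_two (xi (-1) g) - mu1_two (xi p g)
    · exact ⟨0, 1, fun g _ => by simp⟩
    · refine ⟨1, 0, fun g hg => ?_⟩
      rw [Nat.cast_mul, xi_mul p0 q0]
      linear_combination k g hg - mu1_two (xi (-1) g)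
  obtain ⟨u, v, h5⟩ := h5
  rcases Int.natAbs_eq e with k | k
  · exact ⟨u, v, fun g hg => by rw [h4 g hg, k, h5 g hg]⟩
  · refine ⟨1 + u, v, fun g hg => ?_⟩
    rw [h4 g hg, k, neg_eq_neg_one_mul, xi_mul (by norm_num)
      (by exact_mod_cast Int.natAbs_ne_zero.2 h1.ne_zero), h5 g hg]
    ring

theorem uq_K (h : PQ p q) (hβ : Ch (GK (p * q)) β) (hu : Unr (GK (p * q)) β) :
    ∃ v : ZMod 2, ∀ g ∈ GK (p * q), β g = v * xi p g := by
  obtain ⟨u, v, k⟩ := vir_K h hβ fun w => ⟨(1 : ℤ), by simp,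
    axa_congr (kum_xi one_ne_zero) fun g hg => by rw [hu w g hg, B2.xi_one]⟩
  obtain ⟨σ, h1, h2, -⟩ := exists_ine_two w2_p (-1) 1
  have m4 := h.ok.m4
  have p4 := h.p4
  have h3 : σ ∈ GK (p * q) := ine_le_GK' m4 (by rw [w2_p]; omega) h1
  have h4 := k σ h3
  rw [hu _ σ ⟨h3, h1⟩, xi_eq_one.2 h2, xi_ine (c := p) (by omega) (by rw [w2_p]; omega) h1] at h4
  obtain rfl : u = 0 := by simpa using h4.symm
  exact ⟨v, fun g hg => by rw [k g hg, zero_mul, zero_add]⟩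

end Pool.Agent.DH
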