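import Pool.Agent.Lib.MP_60ff09_nt.Dih.PIb
import Pool.Agent.Lib.MP_60ff09_nt.Dih.PIc
import Pool.Agent.Lib.MP_60ff09_nt.Dih.RKd
import Pool.Agent.Lib.MP_60ff09_nt.Dih.FNa
import Pool.Agent.Lib.MP_60ff09_nt.Dih.PD

/-! The rank of the twist by an unramified character of two-power order. -/

set_option autoImplicit false

open scoped NNReal Classical NumberTheorySymbols
open Finset
open Pool.Agent.Lib.MP_696deb_nt Pool.Agent.Lib.MP_696deb_nt.B2 Pool.Agent.Lib.MP_696deb_nt.B2.CM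

namespace Pool.Agent.DH

variable {p q n j : ℕ} {w : Plc}

theorem finite_fixed {U : Subgroup Gam} (hU : Op U) (B : ℝ) :
    {P : EE | (∀ g ∈ U, g • P = P) ∧ hhat (pmap jC P) ≤ B}.Finite := by
  have : FiniteDimensional ℚ (Kf U) := (InfiniteGalois.isOpen_iff_finite (Kf U)).1 (by
    rw [InfiniteGalois.fixingSubgroup_fixedField (k := ℚ) (K := Qbar) ⟨U, hU.closed⟩]
    exact hU)
  have : NumberField (Kf U) := {}
  obtain ⟨C, h1, -⟩ := hrel_spec W15 (Kf U)
  have h0 : (0 : ℝ) < Module.finrank ℚ (Kf U) := by exact_mod_cast Module.finrank_pos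
  refine ((finite_height_le (W := W15) (K := Kf U) (B * Module.finrank ℚ (Kf U) + C)).image
    (pmap (Kf U).val.toRingHom)).subset ?_
  rintro P ⟨h2, h3⟩
  obtain ⟨R, rfl⟩ : ∃ R : Pt W15 (Kf U), pmap (Kf U).val.toRingHom R = P := by
    have hx : xco P ∈ Kf U := b3a_fx.1 fun g k => by rw [← xco_smul, h2 g k]
    have hy : yco P ∈ Kf U := b3a_fx.1 fun g k => by rw [← yco_smul, h2 g k]
    rcases P with _ | ⟨x, y, hQ⟩
    · exact ⟨0, rfl⟩
    exact ⟨.some ⟨x, hx⟩ ⟨y, hy⟩ ((W15.toAffine.baseChange_nonsingular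
      (Kf U).val.injective ⟨x, hx⟩ ⟨y, hy⟩).mp hQ), rfl⟩
  refine ⟨R, ?_, rfl⟩
  have h4 := (abs_le.1 (h1 R)).1
  rw [pmap_pmap, hhat_pmap, div_le_iff₀ h0] at h3
  change Height.logHeight₁ (xco R) ≤ _
  linarith

theorem onto_dec (h : PQ p q) (l : Cl (p * q) →* Multiplicative (ZMod (2 ^ (j + 1))))
    (hl : Function.Surjective l) (hw : w.p = 3 ∨ w.p = 5) (k : ZMod (2 ^ (j + 1))) :
    ∃ g ∈ GK (p * q) ⊓ Dec w, ch l g = k := by
  obtain ⟨ψ, hψ⟩ := exists_frob w
  have h2 : w.p ≠ 2 := by omega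
  have hJ : J((w.p : ℤ) | p * q) = 1 := by
    rcases hw with e | e <;> rw [e]
    exacts [h.jac15.2.2.2.2.2.1, h.jac15.2.2.2.2.2.2]
  have h3 : ψ ∈ GK (p * q) := dec_le_split h2
    ((jac_swap h.ok.m4 (w.prime.odd_of_ne_two h2)).trans hJ) hψ.1
  obtain ⟨G, hG⟩ := exists_gen h
  obtain ⟨x, hx⟩ := hl (Multiplicative.ofAdd k)
  obtain ⟨o, t, ho, e⟩ := hG.exists_pow h (hG.three h hw (rho_split h.ok h.sqf hJ hψ)) x
  have e1 := congrArg (fun y => (l y).toAdd) e
  simp only [map_mul, map_pow, hx, toAdd_mul, toAdd_pow, toAdd_ofAdd, map_one, toAdd_one,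
    nsmul_eq_mul] at e1
  obtain ⟨u, hu⟩ := (ZMod.isUnit_iff_coprime o (2 ^ (j + 1))).2
    ((Nat.coprime_two_right.2 ho).pow_right _)
  refine ⟨ψ ^ (-(u⁻¹ : (ZMod (2 ^ (j + 1)))ˣ) * t : ZMod (2 ^ (j + 1))).val,
    pow_mem (Subgroup.mem_inf.2 ⟨h3, hψ.1⟩) _, ?_⟩
  rw [ch, rho_pow h.ok h3, map_pow, toAdd_pow, nsmul_eq_mul, ZMod.natCast_zmod_val]
  rw [← hu] at e1
  linear_combination -(u⁻¹ : (ZMod (2 ^ (j + 1)))ˣ) * e1 + k * u.inv_mul

theorem dep_ch (h : PQ p q) (hj : 1 ≤ j) (l : Cl (p * q) →* Multiplicative (ZMod (2 ^ (j + 1))))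
    (hl : Function.Surjective l) : Dep (AA (p * q) (ch l)) (2 * 2 ^ j) := by
  have ok := h.ok
  set A := AA (p * q) (ch l) with hA
  have hm : ∀ g ∈ GK (p * q), ∀ k, ch l (g * k) = ch l g + ch l k := fun g hg => rkd_mul ok l hg
  have hh : IsHom (GK (p * q)) (ch l) := fun g hg k _ => hm g hg k
  have st : ∀ g ∈ GK (p * q), ∀ P ∈ A, g • P ∈ A := fun g hg P hP => by
    rw [hA, mem_AA ok] at hP ⊢
    intro k hk
    have e : ch l (g⁻¹ * (k * g)) = ch l k := by
      rw [hm _ (inv_mem hg), hm _ hk, hh.inv hg]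
      ring
    have e2 : k • g • P = g • (g⁻¹ * (k * g)) • P := by rw [← mul_smul, ← mul_smul, mul_inv_cancel_left]
    have k1 := hP _ (mul_mem (inv_mem hg) (mul_mem hk hg))
    rw [e] at k1
    exact ⟨fun a => by rw [e2, k1.1 a], fun a => by rw [e2, k1.2 a, smul_neg]⟩
  obtain ⟨x, hx⟩ := hl (Multiplicative.ofAdd 1)
  obtain ⟨φ, hφ, rfl⟩ := rho_surj ok x
  have e0 : ch l φ = 1 := congrArg Multiplicative.toAdd hx
  let T : Module.End ℤ A :=
    (((DistribSMul.toAddMonoidHom EE φ).comp A.subtype).codRestrict A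
      fun P => st φ hφ P P.2).toIntLinearMap
  have hT : ∀ (k : ℕ) (P : A), ((T ^ k) P : EE) = φ ^ k • (P : EE) := fun k P => by
    induction k with
    | zero => simp
    | succ k ih => rw [pow_succ', Module.End.mul_apply, pow_succ', mul_smul, ← ih]; rfl
  have hp : ∀ k : ℕ, ch l (φ ^ k) = k := fun k => by
    rw [ch, rho_pow ok hφ, map_pow, hx, toAdd_pow, toAdd_ofAdd, nsmul_eq_mul, mul_one]
  have act : ∀ g ∈ GK (p * q), ∀ k : ℕ, ch l g = k → ∀ P : A, g • (P : EE) = (T ^ k) P :=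
    fun g hg k e P => by
      have k1 := pow_mem hφ k
      have k2 := ((mem_AA ok l).1 P.2 ((φ ^ k)⁻¹ * g) (mul_mem (inv_mem k1) hg)).1 (by
        rw [hm _ (inv_mem k1), hh.inv k1, hp, e, neg_add_cancel])
      rw [hT, ← inv_smul_eq_iff, ← mul_smul, k2]
  have hT' : T ^ 2 ^ j = -1 := LinearMap.ext fun P => Subtype.ext (by
    rw [hT, ((mem_AA ok l).1 P.2 _ (pow_mem hφ _)).2 (by rw [hp]; push_cast; rfl)]
    rfl)
  let S : ℕ → Module.End ℤ A := fun k => ∑ i ∈ range k, T ^ i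
  have key : ∀ P : A, ∃ (t : ZMod 2 × ZMod 2 × ZMod 2) (Q : EE), 2 • Q = S (2 ^ j) P ∧
      ∀ g ∈ GK (p * q), g • Q - Q + S (ch l g).val P = (t.1 * xi p g).val • T2 +
        (t.2.1 * xi (-1) g + t.2.2 * xi p g).val • B2.T1 := fun P => by
    obtain ⟨Q, hQ⟩ := exists_half (S (2 ^ j) P)
    let c : Gam → EE := fun g => g • Q - Q + S (ch l g).val P
    have c2 : ∀ g ∈ GK (p * q), 2 • c g = 0 := fun g hg => by
      have e1 := geo_add T (ch l g).val (2 ^ j)
      rw [add_comm, geo_add, hT'] at e1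
      have e2 := congrArg (fun f : Module.End ℤ A => (f P : EE)) e1
      simp only [LinearMap.add_apply, Module.End.mul_apply, LinearMap.neg_apply,
        Module.End.one_apply, AddSubgroup.coe_add, AddSubgroup.coe_neg] at e2
      rw [smul_add, smul_sub, smul_comm, hQ, act g hg _ (ZMod.natCast_zmod_val _).symm, two_nsmul]
      exact sub_eq_zero.1 (Eq.trans (by abel) (sub_eq_zero.2 e2.symm))
    have cm : ∀ g ∈ GK (p * q), ∀ k ∈ GK (p * q), c (g * k) = c g + c k := fun g hg k hk => by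
      have e1 : S (ch l (g * k)).val = S (ch l g).val + T ^ (ch l g).val * S (ch l k).val := by
        rw [hm g hg, ZMod.val_add, ← geo_add, ← geo_mod hT' (_ + _), ← mul_two, ← pow_succ]
      rw [← nza_fix (c2 k hk) g]
      simp only [c, e1, LinearMap.add_apply, Module.End.mul_apply, AddSubgroup.coe_add, mul_smul,
        smul_add, smul_sub, act g hg _ (ZMod.natCast_zmod_val _).symm]
      abel
    have cs : Sm (GK (p * q)) c := (sm_pt _ Q).comp₂ (sm_rho _ (p * q) 1)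
      fun R x => R - Q + S (l x).toAdd.val P
    choose! pa pb hq using fun (R : EE) (k : 2 • R = 0) => axa_surj k
    have hab : ∀ g ∈ GK (p * q), ∀ k ∈ GK (p * q), pa (c (g * k)) = pa (c g) + pa (c k) ∧
        pb (c (g * k)) = pb (c g) + pb (c k) := fun g hg k hk => axa_inj (by
      rw [axa_val two_T2, axa_val B2.two_T1, add_add_add_comm, ← hq _ (c2 g hg), ← hq _ (c2 k hk),
        ← hq _ (c2 _ (mul_mem hg hk)), cm g hg k hk])
    have ci : ∀ w : Plc, ∀ σ ∈ GK (p * q) ⊓ Ine w, c σ = σ • Q - Q := fun w σ hσ => by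
      simp [c, S, ch_unr ok h.sqf l w σ hσ]
    have loc : ∀ w : Plc, LocK (GK (p * q) ⊓ Ine w) 1 (fun g => pa (c g)) fun g => pb (c g) :=
      fun w => axa_loc m_desc one_ne_zero (S := Q) fun g hg => by
        rw [← hq _ (c2 g hg.1), nza_tw, ci w g hg]
    have le : ∀ w : Plc, w.p ∣ 30 → Ine w ≤ GK (p * q) := fun w k => ine_le_GK' ok.m4 fun e =>
      w.prime.ne_one (Nat.eq_one_of_dvd_coprimes h.cop (by exact_mod_cast e) k)
    have odd : ∀ w : Plc, w.p ≠ 2 → ∀ σ ∈ GK (p * q) ⊓ Ine w, pa (c σ) = 0 ∧ pb (c σ) = 0 := by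
      intro w h2 σ hσ
      by_cases k : w.p ∣ 30
      swap
      · exact pi_odd k inf_le_right (loc w) σ hσ
      have hw : w.p = 3 ∨ w.p = 5 := by
        rw [show 30 = 2 * 3 * 5 from rfl, w.prime.dvd_mul, w.prime.dvd_mul,
          Nat.prime_dvd_prime_iff_eq w.prime Nat.prime_two,
          Nat.prime_dvd_prime_iff_eq w.prime Nat.prime_three,
          Nat.prime_dvd_prime_iff_eq w.prime Nat.prime_five] at k
        tauto
      obtain ⟨R, hR⟩ := exists_half (P : EE)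
      obtain ⟨t, t2, ht⟩ := pi_tame h2 (R := R) fun τ hτ => by
        rw [hR, ((mem_AA ok l).1 P.2 τ (le w k hτ)).1 (ch_unr ok h.sqf l w τ ⟨le w k hτ, hτ⟩)]
      choose g hg eg using fun i : ℕ => onto_dec h l hl hw i
      have e1 : 2 • (Q - ∑ i ∈ range (2 ^ j), g i • R) = 0 := by
        rw [smul_sub, hQ, Finset.smul_sum, sub_eq_zero]
        simp only [S, LinearMap.sum_apply, AddSubgroup.val_finsetSum]
        exact sum_congr rfl fun i _ => by rw [smul_comm, hR, act _ (hg i).1 i (eg i)]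
      have e2 : ∀ i, σ • g i • R - g i • R = (xi w.p σ).val • t := fun i => by
        have := congrArg (g i • ·) (ht ((g i)⁻¹ * σ * (g i)⁻¹⁻¹)
          (conj_mem_Ine (inv_mem (hg i).2) hσ.2))
        simp only [inv_inv, smul_sub, mul_smul, smul_inv_smul] at this
        rw [this, smul_comm, nza_fix t2, xi_hom, xi_hom, add_right_comm, ← xi_hom, inv_mul_cancel,
          xi_at_one, zero_add]
      have e3 := nza_fix e1 σ
      rw [smul_sub, sub_eq_sub_iff_sub_eq_sub, Finset.smul_sum, ← sum_sub_distrib,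
        sum_congr rfl fun i _ => e2 i, sum_const, card_range, ← ci w σ hσ, smul_comm] at e3
      obtain ⟨i, rfl⟩ : ∃ i, j = i + 1 := ⟨j - 1, by omega⟩
      rw [pow_succ 2 i, mul_smul, t2, smul_zero, smul_zero] at e3
      exact axa_inj (a' := 0) (b' := 0) (by rw [← hq _ (c2 σ hσ.1), e3]; simp)
    obtain ⟨a, ha⟩ := uq_K h (β := fun g => pa (c g)) ⟨cs.comp pa, fun g hg k hk =>
      (hab g hg k hk).1⟩ fun w σ hσ => by
        by_cases h2 : w.p = 2
        · have := loc w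
          rw [inf_eq_right.2 (le w (by rw [h2]; norm_num))] at this
          exact pi_two_a h2 this σ hσ.2
        · exact (odd w h2 σ hσ).1
    obtain ⟨u, v, hb⟩ := vir_K h (β := fun g => pb (c g)) ⟨cs.comp pb, fun g hg k hk =>
      (hab g hg k hk).2⟩ fun w => by
        by_cases h2 : w.p = 2
        · have := loc w
          rw [inf_eq_right.2 (le w (by rw [h2]; norm_num))] at this ⊢
          exact pi_two_b h2 this
        · exact ⟨(1 : ℤ), by simp, axa_congr (kum_xi one_ne_zero) fun g hg => by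
            rw [(odd w h2 g hg).2, B2.xi_one]⟩
    exact ⟨(a, u, v), Q, hQ, fun g hg => by rw [← ha g hg, ← hb g hg]; exact hq _ (c2 g hg)⟩
  choose f Q hQ hf using key
  have al : ∀ P : EE, pmap jC P ∈ Alg W15 := fun P =>
    ⟨by rw [xco_pmap]; exact (Algebra.IsAlgebraic.isAlgebraic _).algHom jC.toRatAlgHom,
      by rw [yco_pmap]; exact (Algebra.IsAlgebraic.isAlgebraic _).algHom jC.toRatAlgHom⟩
  have tA : ∀ t : EE, 2 • t = 0 → t ∈ A := fun t k => (mem_AA ok l).2 fun g _ =>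
    ⟨fun _ => nza_fix k g, fun _ => by
      rw [nza_fix k g, eq_neg_iff_add_eq_zero, ← two_nsmul, k]⟩
  obtain ⟨n1, n2, n3, n4, n5, n6⟩ := T_ne
  intro v hv li
  refine pi_abs T hj hT' (fun t k => Subtype.ext (nza_fix (congrArg Subtype.val k) φ))
    (({0, B2.T1, T2, B2.T3} : Finset EE).preimage Subtype.val Subtype.val_injective.injOn)
    (fun t => by
      rw [mem_preimage, Subtype.ext_iff]
      simpa using (two_eq_zero (P := t)).symm) ?_ (by simp) f (fun x y e => ?_)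
    (h := fun P => hhat (pmap jC P)) (fun P => hhat_nonneg (al _))
    (fun x y => by simpa using hhat_parallelogram (al x) (al y)) (fun B => ?_)
    (fun i => ⟨v i, hv i⟩) (LinearIndependent.of_comp A.subtype.toIntLinearMap li)
  · rw [card_preimage, filter_true_of_mem fun t k => ⟨⟨t, tA t (two_eq_zero.2 (by simpa using k))⟩,
      rfl⟩, card_insert_of_notMem (by simp [n1.symm, n2.symm, n3.symm]),
      card_insert_of_notMem (by simp [n4, n5]), card_pair n6]
  · have k : ∀ g ∈ GK (p * q), g • (Q x - Q y) = Q x - Q y - S (ch l g).val (x - y) :=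
      fun g hg => by
        have := (hf x g hg).trans (e ▸ (hf y g hg).symm)
        rw [smul_sub, map_sub, AddSubgroup.coe_sub]
        exact sub_eq_zero.1 (Eq.trans (by abel) (sub_eq_zero.2 this))
    refine ⟨⟨Q x - Q y, (mem_AA ok l).2 fun g hg => ⟨fun a => ?_, fun a => ?_⟩⟩, Subtype.ext ?_⟩
    · simp [k g hg, a, S]
    · rw [k g hg, a, show ((2 : ZMod (2 ^ (j + 1))) ^ j).val = 2 ^ j by
        rw [← ZMod.val_cast_of_lt (Nat.pow_lt_pow_right one_lt_two j.lt_succ_self)]; simp,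
        map_sub, AddSubgroup.coe_sub, ← hQ, ← hQ, two_nsmul, two_nsmul]
      abel
    · change _ = Q x - Q y - φ • (Q x - Q y)
      have : Fact (1 < 2 ^ (j + 1)) := ⟨Nat.one_lt_two_pow j.succ_ne_zero⟩
      rw [k φ hφ, e0, ZMod.val_one]
      simp [S]
  · obtain ⟨U, u1, -, u2⟩ := sm_rho (GK (p * q)) (p * q) 1
    refine ((finite_fixed ((op_GK (p * q)).inf u1) B).preimage
      Subtype.val_injective.injOn).subset fun P k => ⟨fun g hg => ?_, k⟩
    refine ((mem_AA ok l).1 P.2 g hg.1).1 ?_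
    rw [ch, ← u2 1 (one_mem _) g hg.1 (by simpa using hg.2), rho_one ok, map_one, toAdd_one]

end Pool.Agent.DH
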