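import Pool.Agent.Lib.MP_60ff09_nt.Dih.Ra
import Pool.Agent.Lib.MP_696deb_nt.B2.CMl

/-! Heegner forms of classes, and the genus character. -/

set_option autoImplicit false

open scoped Classical NumberTheorySymbols
open Pool.Agent.Lib.MP_696deb_nt Pool.Agent.Lib.MP_696deb_nt.B2 Pool.Agent.Lib.MP_696deb_nt.B2.CM
open Pool.Agent.Dih (rep rW lam1 e15 Par GZan)

namespace Pool.Agent.DH

variable {p q n l : ℕ} {r : ℤ} {x y : Cl n} {Q : Fm} {γ : Gam}

theorem rh_hg (h : IsHg (-n) r Q) : IsHg (-(n * (1 : ℕ) ^ 2)) (r * (1 : ℕ)) Q := by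
  simpa using h

theorem rh_neg (ok : Ok n 1) : -(n : ℤ) < 0 := by
  have := ok.gt
  omega

theorem rh_own (h : IsHg (-n) r Q) : Hg n 1 r (sp2 (15 * froot Q) 1) Q :=
  ⟨rh_hg h, 1, one_ne_zero, (CM.sc_one _).symm⟩

theorem rh_crt {m m' b b' k k' : ℤ} (cop : IsCoprime m m')
    (e : b ^ 2 + n = 4 * m * k) (e' : b' ^ 2 + n = 4 * m' * k') :
    ∃ B K : ℤ, B ^ 2 + n = 4 * (m * m') * K ∧ 2 * m ∣ B - b ∧ 2 * m' ∣ B - b' := by
  have h1 : Even (b ^ 2 - b' ^ 2) := ⟨2 * (m * k - m' * k'), by linear_combination e - e'⟩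
  simp only [Int.even_sub, Int.even_pow, ne_eq, OfNat.ofNat_ne_zero, not_false_eq_true,
    and_true] at h1
  obtain ⟨s, hs⟩ := Int.even_sub.2 h1
  obtain ⟨u, v, h⟩ := id cop
  have h2 : m' ∣ m * (k - b * u * s + m * u ^ 2 * s ^ 2) :=
    ⟨k' + b' * s * v + m' * s ^ 2 * v ^ 2, by
      have hb : b = b' + 2 * s := by linear_combination hs
      have h3 : 4 * (m * (k - b * u * s + m * u ^ 2 * s ^ 2)) =
          4 * (m' * (k' + b' * s * v + m' * s ^ 2 * v ^ 2)) := by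
        rw [hb] at e ⊢
        linear_combination e' - e + (4 * s ^ 2 * (m * u - 1 - v * m') - 4 * b' * s) * h
      omega⟩
  obtain ⟨K, hK⟩ := cop.symm.dvd_of_dvd_mul_left h2
  refine ⟨b - 2 * m * u * s, K, ?_, ⟨-(u * s), by ring⟩, s * v, ?_⟩
  · linear_combination e + 4 * m * hK
  · linear_combination hs - 2 * s * h

theorem IsHg.inv (ok : OkR n 1 r) (hs : Squarefree n) (h : IsHg (-n) r Q) :
    Inv n (sp2 (15 * froot Q) 1) := by
  exact cml_isIv ok hs (rh_hg h)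

theorem IsHg.cls_eq (ok : OkR n 1 r) (hs : Squarefree n) (h : IsHg (-n) r Q) :
    cls n (sp2 (15 * froot Q) 1) = cls n (idl n 1 (Q.1 / 15) (-Q.2.1)) := by
  obtain ⟨a, ha⟩ := h.lev
  have a0 : a ≠ 0 := fun e => h.pos.ne' (by rw [ha, e, mul_zero])
  have a1 : (a : ℂ) ≠ 0 := Int.cast_ne_zero.2 a0
  have hd := h.disc
  have e : sp2 (15 * froot Q) 1 = sc (a : ℂ)⁻¹ (idl n 1 a (-Q.2.1)) := by
    rw [idl, sc_sp2, inv_mul_cancel₀ a1, cmb_comm, froot, hd, ha, be, dl]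
    congr 1
    push_cast
    rw [neg_neg]
    field_simp
  rw [e, ha, Int.mul_ediv_cancel_left _ (by norm_num)]
  refine cl_sc (inv_idl (k := 15 * Q.2.2) ok.toOk hs a0 ?_) (inv_ne_zero a1)
  rw [fdisc, ha] at hd
  linear_combination hd

theorem IsHg.yP_eq (ok : OkR n 1 r) (hs : Squarefree n) (h : IsHg (-n) r Q) :
    yP n 1 r (cls n (sp2 (15 * froot Q) 1)) = pt (froot Q) := by
  exact yP_cl ok (IsHg.inv ok hs h) (rh_own h)

/-- Heegner forms with first coefficient prime to `n` and to a given number. -/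
theorem exists_isHf (ok : OkR n 1 r) (hs : Squarefree n) (x : Cl n) {M : ℤ} (hM : M ≠ 0) :
    ∃ Q, IsHf n r x Q ∧ IsCoprime (Q.1 / 15) M := by
  have n0 : (n : ℤ) ≠ 0 := by have := ok.gt; omega
  obtain ⟨m, b, k, m0, e, c1, -, rfl⟩ := exists_idl_coprime ok.toOk x
    (mul_ne_zero (mul_ne_zero (by norm_num : (15 : ℤ) ≠ 0) n0) hM)
  obtain ⟨N, hN⟩ := ok.root
  obtain ⟨B, K, h1, h2, h3⟩ := rh_crt (n := n) (b := -b) (b' := r) (k := k) (k' := N)
    c1.of_mul_right_left.of_mul_right_left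
    (by push_cast at e; linear_combination e) (by linear_combination hN)
  have e1 : (15 * m : ℤ) / 15 = m := Int.mul_ediv_cancel_left _ (by norm_num)
  have hg : IsHg (-n) r (15 * m, B, K) :=
    ⟨by simp only [fdisc]; linear_combination h1, by positivity, dvd_mul_right _ _, h3⟩
  refine ⟨(15 * m, B, K), ⟨hg, IsCoprime.mul_left ?_ c1.of_mul_right_left.of_mul_right_right, ?_⟩,
    e1.symm ▸ c1.of_mul_right_right⟩
  · exact_mod_cast (Nat.isCoprime_iff_coprime.2 (mul_one n ▸ ok.cop)).symm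
  · rw [IsHg.cls_eq ok hs hg, e1, idl_congr (b' := b)]
    rwa [← dvd_neg, neg_sub, sub_neg_eq_add, add_comm, ← sub_neg_eq_add]

theorem hf_spec (ok : OkR n 1 r) (hs : Squarefree n) (x : Cl n) : IsHf n r x (hf n r x) := by
  have h : ∃ Q, IsHf n r x Q := (exists_isHf ok hs x one_ne_zero).imp fun _ h => h.1
  rw [hf, dif_pos h]
  exact h.choose_spec

theorem tau_pos (ok : OkR n 1 r) (hs : Squarefree n) (x : Cl n) : 0 < (tau n r x).im := by
  have h := (hf_spec ok hs x).hg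
  exact im_froot_pos (h.disc ▸ rh_neg ok.toOk) h.pos

theorem yP_tau (ok : OkR n 1 r) (hs : Squarefree n) (x : Cl n) :
    yP n 1 r x = pt (tau n r x) := by
  have h := IsHg.yP_eq ok hs (hf_spec ok hs x).hg
  rwa [(hf_spec ok hs x).eq] at h

theorem jC_tau (ok : OkR n 1 r) (hs : Squarefree n) (x : Cl n) :
    pmap jC (yQ n 1 r x) = pt (tau n r x) := by
  rw [jC_yQ ok, yP_tau ok hs]

theorem alg_tau (ok : OkR n 1 r) (hs : Squarefree n) (x : Cl n) : pt (tau n r x) ∈ Alg W15 := by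
  exact Gal.alg_pt (rh_neg ok.toOk) (hf_spec ok hs x).hg

theorem isCM_tau' (ok : OkR n 1 r) (hs : Squarefree n) (x : Cl n) : IsCM (-n) (tau n r x) := by
  have h := (hf_spec ok hs x).hg
  have h0 : fdisc (hf n r x) < 0 := h.disc ▸ rh_neg ok.toOk
  rw [← h.disc]
  exact isCM_of_form (tau_pos ok hs x) h0 (froot_root h0 h.pos)

theorem pt_tau_inj (ok : OkR n 1 r) (hs : Squarefree n) :
    Function.Injective fun x => pt (tau n r x) := by
  intro x y e
  have hx := hf_spec ok hs x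
  have hy := hf_spec ok hs y
  obtain ⟨-, a, ha, h⟩ := cml_feq ok (rh_own hx.hg)
    ((Gal.feq_iff_pt (rh_neg ok.toOk) hx.hg hy.hg).2 e)
  rw [← hx.eq, h, ← hy.eq]
  conv_lhs => rw [hy.eq]
  exact cl_sc (IsHg.inv ok hs hy.hg) ha

/-- Every automorphism of the complex numbers extends an element of the Galois group. -/
theorem exists_ex' (σ : ℂ ≃+* ℂ) : ∃ γ, Ex γ σ := by
  let j : Qbar →ₐ[ℚ] ℂ := IsAlgClosed.lift
  let _ : Algebra Qbar ℂ := j.toRingHom.toAlgebra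
  have : IsScalarTower ℚ Qbar ℂ := IsScalarTower.of_algebraMap_eq fun q => (j.commutes q).symm
  exact ⟨σ.toRatAlgEquiv.restrictNormal Qbar, fun x =>
    (AlgEquiv.restrictNormal_commutes σ.toRatAlgEquiv Qbar x).symm⟩

/-- Automorphisms that fix the quadratic field translate the Heegner points. -/
theorem pmap_tau (ok : OkR n 1 r) (hs : Squarefree n) {σ : ℂ ≃+* ℂ} (hσ : σ (dl n) = dl n) :
    ∃ a : Cl n, ∀ x, pmap (σ : ℂ →+* ℂ) (pt (tau n r x)) = pt (tau n r (a * x)) := by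
  obtain ⟨γ, e⟩ := exists_ex' σ
  have hγ : γ ∈ GK n := by
    by_contra h
    have h1 := congrArg Complex.im (hσ.symm.trans (e.dl' h))
    have h2 := dl_im (n := n) (by have := ok.gt; omega)
    rw [Complex.neg_im] at h1
    linarith
  exact ⟨rho n 1 γ, fun x => by
    rw [← jC_tau ok hs x, ← jC_tau ok hs, ← e.pmap, smul_yQ ok hγ]⟩

theorem rh_fin (ok : Ok n 1) (h : IsFm n x Q) (N : ℤ) :
    {v : ℤ × ℤ | fval Q v.1 v.2 = N}.Finite := by
  have h0 := h.pos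
  have h1 := ok.gt
  refine Set.Finite.of_finite_image (f := fun v => (2 * Q.1 * v.1 + Q.2.1 * v.2, v.2))
    (((Set.finite_Icc (-(4 * Q.1 * N)) (4 * Q.1 * N)).prod
      (Set.finite_Icc (-(4 * Q.1 * N)) (4 * Q.1 * N))).subset ?_) fun v _ w _ e => ?_
  · rintro _ ⟨v, hv, rfl⟩
    have h2 := four_mul_fval Q v.1 v.2
    rw [show fval Q v.1 v.2 = N from hv, h.disc] at h2
    have h3 : (0 : ℤ) ≤ v.2 ^ 2 * (n - 1) := mul_nonneg (sq_nonneg _) (by omega)
    have h4 := Int.le_self_sq v.2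
    have h5 := Int.le_self_sq (-v.2)
    have h6 := Int.le_self_sq (2 * Q.1 * v.1 + Q.2.1 * v.2)
    have h7 := Int.le_self_sq (-(2 * Q.1 * v.1 + Q.2.1 * v.2))
    have h8 := sq_nonneg v.2
    have h9 := sq_nonneg (2 * Q.1 * v.1 + Q.2.1 * v.2)
    rw [neg_sq] at h5 h7
    exact ⟨⟨by linarith, by linarith⟩, by linarith, by linarith⟩
  · obtain ⟨e1, e2⟩ := Prod.mk.inj e
    rw [e2, add_left_inj] at e1
    exact Prod.ext (mul_left_cancel₀ (by positivity) e1) e2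

theorem rh_val (ok : Ok n 1) (hl : l.Prime) (h2 : l ≠ 2) (hd : l ∣ n) {Q : Fm} (h : IsFm n x Q)
    {u v : ℤ} (hv : ¬ (l : ℤ) ∣ fval Q u v) : Gal.gp l (fm n x) = J(fval Q u v | l) := by
  have h1 : rep Q (fval Q u v) ≠ 0 :=
    Set.ncard_ne_zero_of_mem (a := (u, v)) rfl (rh_fin ok h _)
  rw [h.rep_eq ok] at h1
  obtain ⟨w, hw⟩ := Set.nonempty_of_ncard_ne_zero h1
  rw [← show fval (fm n x) w.1 w.2 = fval Q u v from hw] at hv ⊢
  exact Gal.gp_eq hl h2 ((fm_spec ok x).disc ▸ (Int.natCast_dvd_natCast.2 hd).neg_right) hv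

theorem exists_gen (h : PQ p q) : ∃ g, IsGen p q g := by
  have ok := h.ok
  have p2 : p ≠ 2 := by have := h.p4; omega
  have q2 : q ≠ 2 := by have := h.q4; omega
  have n0 : ((p * q : ℕ) : ℤ) ≠ 0 := by have := ok.gt; omega
  have nd : ∀ {m : ℤ}, IsCoprime m (p * q : ℕ) → ¬ (p : ℤ) ∣ m ∧ ¬ (q : ℤ) ∣ m := fun c => by
    rw [Nat.cast_mul] at c
    exact ⟨(Nat.prime_iff_prime_int.1 h.pp).coprime_iff_not_dvd.1 c.of_mul_right_left.symm,
      (Nat.prime_iff_prime_int.1 h.qp).coprime_iff_not_dvd.1 c.of_mul_right_right.symm⟩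
  have hp := fun x => @rh_val _ _ x ok h.pp p2 (dvd_mul_right p q)
  have hq := fun x => @rh_val _ _ x ok h.qp q2 (dvd_mul_left q p)
  have h1 : ∀ {m b k : ℤ}, 0 < m → b ^ 2 + (p * q : ℕ) = 4 * m * k → IsCoprime m (p * q : ℕ) →
      Gal.gp p (fm _ (cls (p * q) (idl (p * q) 1 m b))) = J(m | p) ∧
      Gal.gp q (fm _ (cls (p * q) (idl (p * q) 1 m b))) = J(m | q) := fun hm e c => by
    have h2 := isFm_idl ok h.sqf hm e
    exact ⟨by simpa [fval] using hp _ h2 (u := 1) (v := 0) (by simpa [fval] using (nd c).1),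
      by simpa [fval] using hq _ h2 (u := 1) (v := 0) (by simpa [fval] using (nd c).2)⟩
  have h2 : ∀ x : Cl (p * q), Gal.gp p (fm _ x) * Gal.gp p (fm _ x) = 1 ∧
      Gal.gp q (fm _ x) = Gal.gp p (fm _ x) := fun x => by
    obtain ⟨m, b, k, m0, e, c1, c2, rfl⟩ := exists_idl_coprime ok x (mul_ne_zero two_ne_zero n0)
    replace e : b ^ 2 + (p * q : ℕ) = 4 * m * k := by simpa using e
    obtain ⟨a1, a2⟩ := h1 (by positivity) e c1.of_mul_right_right
    have a3 := jac_sq h.pp (nd c1.of_mul_right_right).1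
    have a4 : J((m : ℤ) | p) * J((m : ℤ) | q) = 1 := by
      rw [← jacobiSym.mul_right' _ h.pp.ne_zero h.qp.ne_zero, ← jac_swap ok.m4
        (Nat.coprime_two_right.1 (Nat.isCoprime_iff_coprime.1 c1.of_mul_right_left)),
        ← jacobiSym.sq_one' (Int.isCoprime_iff_gcd_eq_one.1 c2.symm)]
      exact jacobiSym.mod_left' (Int.modEq_iff_dvd.2 ⟨4 * k, by linear_combination e⟩)
    rw [a1, a2]
    exact ⟨by rw [← sq, a3], by linear_combination J((m : ℤ) | p) * a4 - J((m : ℤ) | q) * a3⟩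
  refine ⟨MonoidHom.mk' (fun x => Units.mkOfMulEqOne _ _ (h2 x).1) fun x y => Units.ext ?_,
    fun x Q hQ u v => ⟨fun c => (hp x hQ c).symm, fun c => (hq x hQ c).symm.trans (h2 x).2⟩⟩
  change Gal.gp p (fm _ (x * y)) = Gal.gp p (fm _ x) * Gal.gp p (fm _ y)
  obtain ⟨m, b, k, m0, e, c1, -, rfl⟩ := exists_idl_coprime ok x n0
  have m1 : (m : ℤ) ≠ 0 := Int.natCast_ne_zero.2 m0
  obtain ⟨m', b', k', m0', e', c1', -, rfl⟩ := exists_idl_coprime ok y (mul_ne_zero n0 m1)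
  have m1' : (m' : ℤ) ≠ 0 := Int.natCast_ne_zero.2 m0'
  replace e : b ^ 2 + (p * q : ℕ) = 4 * m * k := by simpa using e
  replace e' : b' ^ 2 + (p * q : ℕ) = 4 * m' * k' := by simpa using e'
  obtain ⟨B, K, a1, a2, a3⟩ := rh_crt c1'.of_mul_right_right.symm e e'
  obtain ⟨u, v, a4⟩ := c1'.of_mul_right_right.symm
  rw [(h1 (by positivity) e c1).1, (h1 (by positivity) e' c1'.of_mul_right_left).1,
    ← cl_mul (inv_idl ok h.sqf m1 e) (inv_idl ok h.sqf m1' e'), ← idl_congr a2, ← idl_congr a3,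
    ← idl_mul (k := K) (by simpa using a1) ⟨u, v, 0, by simpa using a4⟩,
    (h1 (by positivity) a1 (c1.mul_left c1'.of_mul_right_left)).1, jacobiSym.mul_left]

variable {g : Cl (p * q) →* ℤˣ}

theorem IsGen.idl (h : PQ p q) (hg : IsGen p q g) {m b k : ℤ} (hm : 0 < m)
    (e : b ^ 2 + (p * q : ℕ) = 4 * m * k) :
    (¬ (p : ℤ) ∣ m → J(m | p) = g (cls (p * q) (idl (p * q) 1 m b))) ∧
      (¬ (q : ℤ) ∣ m → J(m | q) = g (cls (p * q) (idl (p * q) 1 m b))) := by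
  simpa [fval] using hg _ _ (isFm_idl h.ok h.sqf hm e) 1 0

theorem IsGen.prm (h : PQ p q) (hg : IsGen p q g) (hl : l.Prime) {a : Cl (p * q)}
    (ha : Prm (p * q) l a) :
    (l ≠ p → J((l : ℤ) | p) = g a) ∧ (l ≠ q → J((l : ℤ) | q) = g a) := by
  obtain ⟨b, k, e, -, rfl⟩ := ha
  have h1 := hg.idl h (Int.natCast_pos.2 hl.pos) e
  simp only [Int.natCast_dvd_natCast] at h1
  exact ⟨fun c => h1.1 fun d => c ((Nat.prime_dvd_prime_iff_eq h.pp hl).1 d).symm,
    fun c => h1.2 fun d => c ((Nat.prime_dvd_prime_iff_eq h.qp hl).1 d).symm⟩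

theorem IsGen.hf (h : PQ p q) (hg : IsGen p q g) (ok : OkR (p * q) 1 r) {a : Cl (p * q)}
    (ha : IsHf (p * q) r a Q) : J(Q.1 | p) = g a ∧ J(Q.1 | q) = g a := by
  obtain ⟨m, hm⟩ := ha.hg.lev
  have h0 := ha.hg.pos
  have hd := ha.hg.disc
  have c := ha.cop
  rw [fdisc, hm] at hd
  rw [hm, Nat.cast_mul] at c
  have h1 := hg.idl h (m := m) (b := -Q.2.1) (k := 15 * Q.2.2) (by omega)
    (by linear_combination hd)
  rw [← ha.eq, IsHg.cls_eq ok h.sqf ha.hg, hm, Int.mul_ediv_cancel_left _ (by norm_num),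
    jacobiSym.mul_left, jacobiSym.mul_left, h.jac15.1, h.jac15.2.1, one_mul, one_mul]
  exact ⟨h1.1 ((Nat.prime_iff_prime_int.1 h.pp).coprime_iff_not_dvd.1
      c.of_mul_left_right.of_mul_right_left.symm),
    h1.2 ((Nat.prime_iff_prime_int.1 h.qp).coprime_iff_not_dvd.1
      c.of_mul_left_right.of_mul_right_right.symm)⟩

theorem IsGen.rho (h : PQ p q) (hg : IsGen p q g) (hγ : γ ∈ GK (p * q)) :
    g (rho (p * q) 1 γ) = chi p γ := by
  obtain ⟨r, ok⟩ := h.exists_okR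
  have h1 : ∀ a : Cl (p * q), Gal.gp p (DH.hf (p * q) r a) = g a := fun a => by
    have ha := hf_spec ok h.sqf a
    have c := ha.cop
    rw [Nat.cast_mul] at c
    rw [Gal.gp, if_neg ((Nat.prime_iff_prime_int.1 h.pp).coprime_iff_not_dvd.1
      c.of_mul_right_left.symm), (hg.hf h ok ha).1]
  have h2 := gp_gal ok hγ (x := 1) h.pp
    (fun c => h.pp.not_dvd_one (h.cop ▸ Nat.dvd_gcd (dvd_mul_right p q) c))
    ((dvd_mul_right p q).mul_right _) (rh_hg (hf_spec ok h.sqf _).hg)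
    (rh_hg (hf_spec ok h.sqf _).hg) (yP_tau ok h.sqf _) (yP_tau ok h.sqf _)
  rw [h1, h1, mul_one, map_one, Units.val_one, mul_one, pst, if_pos h.p4] at h2
  exact Units.ext h2

end Pool.Agent.DH
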