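import Pool.Agent.Lib.MP_60ff09_nt.Dih.FPz
import Pool.Agent.Lib.MP_60ff09_nt.Dih.Rh

/-! A non-zero height gives a simple zero. -/

set_option autoImplicit false

open scoped Classical NumberTheorySymbols
open Pool.Agent.Lib.MP_696deb_nt Pool.Agent.Lib.MP_696deb_nt.B2 Pool.Agent.Lib.MP_696deb_nt.B2.CM
open Pool.Agent.Dih (rcl bch gz_char rep_eq_rcl good_ok)

namespace Pool.Agent.DH

variable {p q n : ℕ} {r : ℤ}

theorem rc_eq_rcl (hn : Good n) (x : Cl n) (N : ℤ) : rc n x N = rcl n x N := by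
  have h := fm_spec (good_ok hn) x
  rw [rc, rep_eq_rcl hn h.disc h.pos]
  exact congrArg (rcl n · N) h.eq

theorem rth_eq_bch [Fintype (Cl n)] (hn : Good n) (θ : Cl n →* ℂ) : rth n θ = bch θ := by
  funext N
  simp only [rth, bch, rc_eq_rcl hn]

theorem PQ.good (h : PQ p q) : Good (p * q) :=
  ⟨h.sqf, h.ok.m4, h.cop.coprime_dvd_right (by norm_num)⟩

/-- The formula of Gross and Zagier, up to a constant. -/
theorem gz_rk [Fintype (Cl (p * q))] (h : PQ p q) (ok : OkR (p * q) 1 r) (θ : Cl (p * q) →* ℂ)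
    (hθ : ∃ x, θ (x ^ 2) ≠ 1) : ∃ (C : ℂ) (Λ : ℂ → ℂ), IsRk (p * q) (rth (p * q) θ) Λ ∧ Λ 1 = 0 ∧
      C * deriv Λ 1 = hth (p * q) r θ := by
  obtain ⟨C, L, h1, h2, h3, h4⟩ := gz_char h.pp h.qp h.p4 h.q4 (by have := h.pm; omega)
    (by have := h.qm; omega) ok.root θ hθ
  refine ⟨C, L, ⟨h1, by rwa [rth_eq_bch h.good]⟩, h2, ?_⟩
  simp only [h4, hth, yP_tau ok h.sqf, div_eq_mul_inv]

theorem gz [Fintype (Cl (p * q))] (h : PQ p q) (ok : OkR (p * q) 1 r) (θ : Cl (p * q) →* ℂ)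
    (hθ : ∃ x, θ (x ^ 2) ≠ 1) (h0 : hth (p * q) r θ ≠ 0) :
    ∃ Λ, IsRk (p * q) (rth (p * q) θ) Λ ∧ analyticOrderAt Λ 1 = 1 := by
  obtain ⟨C, L, h1, h2, h3⟩ := gz_rk h ok θ hθ
  exact ⟨L, h1, (h1.1.analyticAt 1).analyticOrderAt_eq_one_of_zero_deriv_ne_zero h2
    fun e => h0 (by rw [← h3, e, mul_zero])⟩

end Pool.Agent.DH
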