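import Pool.Agent.Lib.MP_60ff09_nt.Dih.RKa

/-! Induced representations come from class group characters. -/

set_option autoImplicit false

open scoped Classical NumberTheorySymbols TensorProduct
open NumberField CategoryTheory
open Pool.Agent.Lib.MP_696deb_nt Pool.Agent.Lib.MP_696deb_nt.B2 Pool.Agent.Lib.MP_696deb_nt.B2.CM
open Pool.Agent.Lib.MP_60ff09_nt Pool.Agent.Lib.MP_60ff09_nt.V4

namespace Pool.Agent.DH

variable {M L : Type} [Field M] [NumberField M] [Field L] {F : Lf M} {n p q : ℕ} {δ : M}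
  {V : Rep L (M ≃ₐ[ℚ] M)} {x y : V} {g t : Gam}

theorem rkb_mul (g h : Gam) (x : V) :
    V.ρ (F.π (g * h)) x = V.ρ (F.π g) (V.ρ (F.π h) x) := by
  rw [map_mul, map_mul, Module.End.mul_apply]

theorem rkb_inj {m : ℕ} {ζ : L} (h : IsPrimitiveRoot ζ (2 ^ m)) :
    Function.Injective fun a : ZMod (2 ^ m) => ζ ^ a.val := fun a b e =>
  ZMod.val_injective _ (h.pow_inj (ZMod.val_lt a) (ZMod.val_lt b) e)

theorem rkb_add {m : ℕ} {ζ : L} (h : IsPrimitiveRoot ζ (2 ^ m)) (a b : ZMod (2 ^ m)) :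
    ζ ^ (a + b).val = ζ ^ a.val * ζ ^ b.val := by
  rw [ZMod.val_add, ← pow_add, ← pow_eq_pow_mod _ h.pow_eq_one]

theorem ind_act (ok : Ok n 1) {θ : Cl n →* L} (hx : x ∈ eigT F n V θ) (ht : t ∉ GK n) :
    (g ∈ GK n → V.ρ (F.π g) (V.ρ (F.π t) x) = θ (rho n 1 g)⁻¹ • V.ρ (F.π t) x) ∧
    (g ∉ GK n → V.ρ (F.π g) x = θ (rho n 1 (t⁻¹ * g)) • V.ρ (F.π t) x ∧
      V.ρ (F.π g) (V.ρ (F.π t) x) = θ (rho n 1 (t⁻¹ * g))⁻¹ • x) := by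
  have ht' : t⁻¹ ∉ GK n := fun k => ht (inv_mem_iff.1 k)
  refine ⟨fun hg => ?_, fun hg => ⟨?_, ?_⟩⟩
  · have k := rho_conj ok ht' hg
    rw [inv_inv] at k
    rw [← rkb_mul, show g * t = t * (t⁻¹ * g * t) by group, rkb_mul,
      hx _ ((normal_GK n).conj_mem' g hg t), map_smul, k]
  · rw [← map_smul, ← hx _ (mul_mem_GK ht' hg), ← rkb_mul, mul_inv_cancel_left]
  · have k := mul_mem_GK ht' hg
    rw [← rkb_mul, hx _ (mul_mem_GK hg ht), show g * t = t * (t⁻¹ * g) * t⁻¹ * (t * t) by group,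
      rho_mul ok ((normal_GK n).conj_mem _ k t), rho_conj ok ht k, rho_sq ok ht, mul_one]

theorem IndB.unr' (ok : Ok n 1) {θ : Cl n →* L} (h : IndB F n δ V θ x y) {Q : Ideal (𝓞 M)}
    (hQ : Q.IsMaximal) {σ : M ≃ₐ[ℚ] M} (hσ : σ ∈ Q.inertia (M ≃ₐ[ℚ] M)) (e : σ δ = δ) :
    V.ρ σ y = y := by
  obtain ⟨t, ht, rfl⟩ := h.swap
  obtain ⟨Q', k1, k2⟩ := conj_inertia hQ (F.π t)
  have k3 := (F.notMem_GK (by have := ok.gt; omega) h.sq).1 ht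
  have k4 := h.unr Q' k1 _ (k2 σ hσ) (by
    rw [AlgEquiv.mul_apply, AlgEquiv.mul_apply, k3, map_neg, e, ← k3, ← AlgEquiv.mul_apply,
      inv_mul_cancel, AlgEquiv.one_apply])
  conv_rhs => rw [← k4]
  rw [← Module.End.mul_apply, ← Module.End.mul_apply, ← map_mul, ← map_mul]
  congr 2
  group

theorem IndB.bc [Algebra L ℂ] {θ : Cl n →* L} (h : IndB F n δ V θ x y) :
    IndB F n δ (bc ℂ V) ((algebraMap L ℂ : L →* ℂ).comp θ) ((1 : ℂ) ⊗ₜ[L] x) ((1 : ℂ) ⊗ₜ[L] y) := by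
  obtain ⟨t, ht, e⟩ := h.swap
  refine ⟨h.sq, fun g hg => ?_, ⟨t, ht, ?_⟩, fun Q hQ σ hσ k => ?_⟩
  · rw [bc_tmul, h.fst g hg, TensorProduct.tmul_smul]
    exact (algebraMap_smul ℂ (θ (rho n 1 g)) ((1 : ℂ) ⊗ₜ[L] (x : V))).symm
  · rw [bc_tmul, e]
  · rw [bc_tmul, h.unr Q hQ σ hσ k]

theorem Cyc.pow {θ : Cl n →* L} {m : ℕ} {ζ : L} {l : Cl n →* Multiplicative (ZMod (2 ^ m))}
    (h : Cyc θ m ζ l) (a : Cl n) : θ a ^ 2 ^ m = 1 := by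
  rw [h.eq, ← pow_mul, mul_comm, pow_mul, h.prim.pow_eq_one, one_pow]

theorem Cyc.eq_one_iff {θ : Cl n →* L} {m : ℕ} {ζ : L} {l : Cl n →* Multiplicative (ZMod (2 ^ m))}
    (h : Cyc θ m ζ l) (a : Cl n) : θ a = 1 ↔ l a = 1 := by
  rw [h.eq, ← toAdd_eq_zero, ← (rkb_inj h.prim).eq_iff, ZMod.val_zero, pow_zero]

/-- Characters of two-power order of a subgroup of a finite group. -/
theorem exists_log {G : Type} [Group G] [Finite G] (N : Subgroup G) (c : G → L)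
    (h1 : ∀ σ ∈ N, ∀ τ ∈ N, c (σ * τ) = c σ * c τ) (h2 : ∀ σ ∈ N, ∃ k : ℕ, c σ ^ 2 ^ k = 1) :
    ∃ (m : ℕ) (ζ : L) (χ : G → ZMod (2 ^ m)), IsPrimitiveRoot ζ (2 ^ m) ∧ IsHom N χ ∧
      (∀ a, ∃ σ ∈ N, χ σ = a) ∧ ∀ σ ∈ N, c σ = ζ ^ (χ σ).val := by
  have e : ∀ σ : N, ∃ k : ℕ, orderOf (c σ) = 2 ^ k := fun σ => by
    obtain ⟨k, hk⟩ := h2 σ σ.2
    obtain ⟨j, -, hj⟩ := (Nat.dvd_prime_pow Nat.prime_two).1 (orderOf_dvd_of_pow_eq_one hk)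
    exact ⟨j, hj⟩
  choose e he using e
  obtain ⟨s, hs⟩ := Finite.exists_max e
  have hζ : IsPrimitiveRoot (c s) (2 ^ e s) := he s ▸ IsPrimitiveRoot.orderOf (c s)
  have k : ∀ σ, ∃ a : ZMod (2 ^ e s), σ ∈ N → c σ = c s ^ a.val := fun σ => by
    by_cases hσ : σ ∈ N
    · obtain ⟨i, hi, k⟩ := hζ.eq_pow_of_pow_eq_one (ξ := c σ) (orderOf_dvd_iff_pow_eq_one.1
        (he ⟨σ, hσ⟩ ▸ pow_dvd_pow 2 (hs ⟨σ, hσ⟩)))
      exact ⟨i, fun _ => by rw [ZMod.val_cast_of_lt hi, k]⟩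
    · exact ⟨0, fun k => absurd k hσ⟩
  choose χ hχ using k
  have c1 : c 1 = 1 := by
    obtain ⟨k, hk⟩ := h2 1 N.one_mem
    have := h1 1 N.one_mem 1 N.one_mem
    rw [mul_one] at this
    exact mul_left_cancel₀ (a := c 1) (fun j => by simp [j] at hk) (by rw [← this, mul_one])
  have cp : ∀ k : ℕ, c (s ^ k) = c s ^ k := fun k => by
    induction k with
    | zero => rw [pow_zero, pow_zero, c1]
    | succ k ih => rw [pow_succ, h1 _ (pow_mem s.2 k) _ s.2, ih, pow_succ]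
  refine ⟨e s, c s, χ, hζ, fun σ hσ τ hτ => rkb_inj hζ ?_,
    fun a => ⟨s ^ a.val, pow_mem s.2 _, rkb_inj hζ ?_⟩, hχ⟩
  · simp only [rkb_add hζ]
    rw [← hχ _ (mul_mem hσ hτ), ← hχ _ hσ, ← hχ _ hτ, h1 σ hσ τ hτ]
  · exact (hχ _ (pow_mem s.2 _)).symm.trans (cp _)

theorem exists_indB [Fintype (Cl (p * q))] (h : PQ p q) (I : Inp p q) (F : Lf M)
    (hδ : δ ^ 2 = -(p * q : ℕ)) (x0 : x ≠ 0)
    (h1 : ∀ σ : M ≃ₐ[ℚ] M, σ δ = δ → ∃ (c : L) (k : ℕ), c ^ 2 ^ k = 1 ∧ V.ρ σ x = c • x)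
    (h2 : ∀ Q : Ideal (𝓞 M), Q.IsMaximal → ∀ σ ∈ Q.inertia (M ≃ₐ[ℚ] M), σ δ = δ → V.ρ σ x = x)
    (h3 : ∃ τ : M ≃ₐ[ℚ] M, τ δ = -δ ∧ V.ρ τ x = y) :
    ∃ (θ : Cl (p * q) →* L) (m : ℕ) (ζ : L) (l : Cl (p * q) →* Multiplicative (ZMod (2 ^ m))),
      Cyc θ m ζ l ∧ IndB F (p * q) δ V θ x y := by
  have hn : 0 < p * q := by have := h.ok.gt; omega
  have k : ∀ σ : M ≃ₐ[ℚ] M, ∃ c : L, σ δ = δ → (∃ k : ℕ, c ^ 2 ^ k = 1) ∧ V.ρ σ x = c • x :=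
    fun σ => by
      by_cases e : σ δ = δ
      · obtain ⟨c, k, a, b⟩ := h1 σ e
        exact ⟨c, fun _ => ⟨⟨k, a⟩, b⟩⟩
      · exact ⟨1, fun k => absurd k e⟩
  choose c hc using k
  obtain ⟨m, ζ, χ, hζ, k1, k2, k3⟩ := exists_log (MulAction.stabilizer (M ≃ₐ[ℚ] M) δ) c
    (fun σ hσ τ hτ => smul_left_injective L x0 (by
      beta_reduce
      rw [← (hc _ (mul_mem hσ hτ)).2, map_mul, Module.End.mul_apply, (hc τ hτ).2, map_smul,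
        (hc σ hσ).2, smul_smul, mul_comm])) fun σ hσ => (hc σ hσ).1
  obtain ⟨l, hl⟩ := I.link m (fun g => χ (F.π g)) ⟨(F.sm _).comp χ, fun a ha b hb => by
    rw [map_mul, k1 _ ((F.mem_GK hn hδ).1 ha) _ ((F.mem_GK hn hδ).1 hb)]⟩ fun w σ hσ => by
      obtain ⟨Q, a, b⟩ := F.exists_ideal w
      have e := (F.mem_GK hn hδ).1 hσ.1
      refine rkb_inj hζ (smul_left_injective L x0 ?_)
      beta_reduce
      rw [← k3 _ e, ← (hc _ e).2, h2 Q a _ (b.ine hσ.2) e, ZMod.val_zero, pow_zero, one_smul]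
  obtain ⟨τ, e1, e2⟩ := h3
  obtain ⟨t, rfl⟩ := F.surj τ
  refine ⟨⟨⟨fun a => ζ ^ (l a).toAdd.val, by simp⟩, fun a b => ?_⟩, m, ζ, l,
    ⟨hζ, fun a => ?_, fun _ => rfl⟩, hδ, fun g hg => ?_, ⟨t, (F.notMem_GK hn hδ).2 e1, e2⟩, h2⟩
  · simp only [map_mul, toAdd_mul, rkb_add hζ]
  · obtain ⟨σ, hσ, e⟩ := k2 a.toAdd
    obtain ⟨g, rfl⟩ := F.surj σ
    exact ⟨rho (p * q) 1 g, Multiplicative.toAdd.injective
      ((hl g ((F.mem_GK hn hδ).2 hσ)).symm.trans e)⟩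
  · have e := (F.mem_GK hn hδ).1 hg
    rw [(hc _ e).2, k3 _ e]
    exact congrArg (fun a : ZMod (2 ^ m) => ζ ^ a.val • x) (hl g hg)

/-- Frobenius reciprocity. -/
theorem hom_ind (ok : Ok n 1) {ι : Type} (v : Module.Basis (ι × Fin 2) L V) {θ : ι → Cl n →* L}
    (h : ∀ i, IndB F n δ V (θ i) (v (i, 0)) (v (i, 1))) (W : Rep L (M ≃ₐ[ℚ] M)) :
    Nonempty ((V ⟶ W) ≃ₗ[L] ∀ i, eigT F n W (θ i)) := by
  choose t ht hy using fun i => (h i).swap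
  let f : (V ⟶ W) →ₗ[L] ∀ i, eigT F n W (θ i) :=
    { toFun := fun φ i => ⟨φ.hom (v (i, 0)), fun g hg => by
        rw [← Rep.hom_comm_apply, (h i).fst g hg, map_smul]⟩
      map_add' := fun _ _ => rfl
      map_smul' := fun _ _ => rfl }
  refine ⟨.ofBijective f ⟨fun φ ψ e => ?_, fun w => ?_⟩⟩
  · have k : ∀ i, φ.hom (v (i, 0)) = ψ.hom (v (i, 0)) :=
      fun i => congrArg Subtype.val (congrFun e i)
    refine Rep.hom_ext (Representation.IntertwiningMap.ext (v.ext fun ⟨i, j⟩ => ?_))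
    fin_cases j
    · exact k i
    · change φ.hom (v (i, 1)) = ψ.hom (v (i, 1))
      rw [← hy, Rep.hom_comm_apply, Rep.hom_comm_apply, k]
  · let T := v.constr ℕ fun j => ![(w j.1).1, W.ρ (F.π (t j.1)) (w j.1).1] j.2
    have T0 : ∀ i, T (v (i, 0)) = (w i).1 := fun i => v.constr_basis ℕ _ _
    have T1 : ∀ i, T (V.ρ (F.π (t i)) (v (i, 0))) = W.ρ (F.π (t i)) (w i).1 := fun i =>
      hy i ▸ v.constr_basis ℕ _ _
    refine ⟨Rep.ofHom ⟨T, fun σ => v.ext fun ⟨i, j⟩ => ?_⟩,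
      funext fun i => Subtype.ext (T0 i)⟩
    obtain ⟨g, rfl⟩ := F.surj σ
    have a := ind_act (g := g) ok (h i).fst (ht i)
    have b := ind_act (g := g) ok (w i).2 (ht i)
    rw [LinearMap.comp_apply, LinearMap.comp_apply]
    fin_cases j
    · change T (V.ρ (F.π g) (v (i, 0))) = W.ρ (F.π g) (T (v (i, 0)))
      by_cases hg : g ∈ GK n
      · rw [(h i).fst g hg, map_smul, T0, (w i).2 g hg]
      · rw [(a.2 hg).1, map_smul, T1, T0, (b.2 hg).1]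
    · change T (V.ρ (F.π g) (v (i, 1))) = W.ρ (F.π g) (T (v (i, 1)))
      rw [← hy]
      by_cases hg : g ∈ GK n
      · rw [a.1 hg, map_smul, T1, b.1 hg]
      · rw [(a.2 hg).2, map_smul, T1, T0, (b.2 hg).2]

end Pool.Agent.DH
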