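import Pool.Agent.Lib.MP_60ff09_nt.Dih.NZz
import Pool.Agent.Lib.MP_60ff09_nt.Dih.PD
import Pool.Agent.Lib.MP_60ff09_nt.Dih.RKb

/-! The height of the Heegner point of a character of two-power order does not vanish. -/

set_option autoImplicit false

open scoped Classical NumberTheorySymbols
open Pool.Agent.Lib.MP_696deb_nt Pool.Agent.Lib.MP_696deb_nt.B2 Pool.Agent.Lib.MP_696deb_nt.B2.CM

namespace Pool.Agent.DH

variable {p q n j : ℕ} {r : ℤ}

theorem sib_sum [Fintype (Cl n)] {θ : Cl n →* ℂ} {ζ : ℂ}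
    {l : Cl n →* Multiplicative (ZMod (2 ^ (j + 1)))} (hc : Cyc θ (j + 1) ζ l) (f : EE →+ ℂ) :
    ∑ x, θ x * f (yQ n 1 r x) =
      ∑ i : Fin (2 ^ j), ζ ^ (i : ℕ) * f (yS r l (i : ℕ) - yS r l ((i : ℕ) + 2 ^ j)) := by
  have h1 : ζ ^ 2 ^ j = -1 := (hc.prim.pow (by positivity) (pow_succ 2 j)).eq_neg_one_of_two_right
  have h2 : ∀ k : ℕ, ζ ^ (k : ZMod (2 ^ (j + 1))).val = ζ ^ k := fun k => by
    rw [ZMod.val_natCast, ← pow_eq_pow_mod _ hc.prim.pow_eq_one]
  rw [← Finset.sum_fiberwise Finset.univ (fun x => (l x).toAdd),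
    Finset.sum_congr rfl (g := fun k => ζ ^ k.val * f (yS r l k)) fun k _ => ?_, nzz_sum,
    show Finset.range (2 ^ (j + 1)) = Finset.range (2 ^ j + 2 ^ j) by rw [pow_succ, mul_two],
    Finset.sum_range_add, ← Finset.sum_add_distrib, Finset.sum_range]
  · refine Finset.sum_congr rfl fun i _ => ?_
    rw [h2, h2, pow_add ζ, h1, map_sub, add_comm (2 ^ j)]
    push_cast
    ring
  · rw [yS, map_sum, Finset.mul_sum]
    exact Finset.sum_congr rfl fun x hx => by rw [hc.eq, (Finset.mem_filter.1 hx).2]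

theorem hth_ne [Fintype (Cl (p * q))] (h : PQ p q) (ok : OkR (p * q) 1 r) (hj : 1 ≤ j)
    {θ : Cl (p * q) →* ℂ} {ζ : ℂ} {l : Cl (p * q) →* Multiplicative (ZMod (2 ^ (j + 1)))}
    (hc : Cyc θ (j + 1) ζ l) : hth (p * q) r θ ≠ 0 := by
  have al : ∀ P : EE, pmap jC P ∈ Alg W15 := fun P =>
    ⟨by rw [xco_pmap]; exact (Algebra.IsAlgebraic.isAlgebraic _).algHom jC.toRatAlgHom,
      by rw [yco_pmap]; exact (Algebra.IsAlgebraic.isAlgebraic _).algHom jC.toRatAlgHom⟩
  let a : EE →+ Alg W15 := (pmap jC).codRestrict _ al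
  let b : EE → EE →+ ℂ := fun P =>
    (Complex.ofRealHom.toAddMonoidHom.comp (hbil (a P))).comp a
  have hb : ∀ P Q, b P Q = hpair (pmap jC P) (pmap jC Q) := fun _ _ => rfl
  obtain ⟨x, hx⟩ := hc.surj (Multiplicative.ofAdd 1)
  obtain ⟨φ, hφ, rfl⟩ := rho_surj h.ok x
  have e0 : ch l φ = 1 := by rw [ch, hx]; rfl
  let T : Module.End ℤ EE := (DistribSMul.toAddMonoidHom EE φ).toIntLinearMap
  have hT : ∀ i : ℕ, (T ^ i) (wP r l) = yS r l i - yS r l (i + 2 ^ j) := fun i => by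
    induction i with
    | zero => simp [wP]
    | succ i ih =>
      rw [pow_succ', Module.End.mul_apply, ih]
      change φ • (yS r l i - yS r l (i + 2 ^ j)) = _
      rw [smul_sub, smul_yS ok l hφ, smul_yS ok l hφ, e0, Nat.cast_succ, add_comm 1, ← add_assoc,
        add_comm 1]
  have h4 : (2 : ZMod (2 ^ (j + 1))) ^ j + 2 ^ j = 0 := by
    have := ZMod.natCast_self (2 ^ (j + 1))
    push_cast at this
    rw [← this]
    ring
  have li := (indep_orbit T (j := j) (w := wP r l) (by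
    rw [hT, Nat.cast_pow, Nat.cast_ofNat, h4, wP, neg_sub]) (wP_nontors h ok hj l hc.surj)).map'
      (pmap jC).toIntLinearMap (LinearMap.ker_eq_bot.2 (pmap_injective jC))
  have u : ∀ x, (θ x)⁻¹ = starRingEnd ℂ (θ x) := fun x =>
    Complex.inv_eq_conj (Complex.norm_eq_one_of_pow_eq_one (hc.pow x) (by positivity))
  refine fun e => gram_ne (fun i => al _) li (z := fun i => ζ ^ (i : ℕ))
    (fun k => by simpa using congrFun k ⟨0, by positivity⟩) (Eq.trans ?_ e)
  have k1 : ∀ P, ∑ y, starRingEnd ℂ (θ y) * b P (yQ _ 1 r y) =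
      ∑ i : Fin (2 ^ j), starRingEnd ℂ (ζ ^ (i : ℕ)) * b P ((T ^ (i : ℕ)) (wP r l)) := fun P => by
    have := congrArg (starRingEnd ℂ) (sib_sum (r := r) hc (b P))
    simpa only [map_sum, map_mul, hb, Complex.conj_ofReal, hT] using this
  calc _ = ∑ k : Fin (2 ^ j), starRingEnd ℂ (ζ ^ (k : ℕ)) *
        ∑ i : Fin (2 ^ j), ζ ^ (i : ℕ) * b ((T ^ (k : ℕ)) (wP r l)) ((T ^ (i : ℕ)) (wP r l)) := by
        rw [Finset.sum_comm]
        refine Finset.sum_congr rfl fun k _ => ?_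
        rw [Finset.mul_sum]
        refine Finset.sum_congr rfl fun i _ => ?_
        rw [hb, hpair_comm, mul_comm (ζ ^ _), mul_assoc]
    _ = ∑ x, θ x * ∑ k : Fin (2 ^ j), starRingEnd ℂ (ζ ^ (k : ℕ)) *
        b (yQ _ 1 r x) ((T ^ (k : ℕ)) (wP r l)) := by
        simp only [hT, ← sib_sum hc, Finset.mul_sum]
        rw [Finset.sum_comm]
        refine Finset.sum_congr rfl fun x _ => Finset.sum_congr rfl fun k _ => ?_
        rw [hb, hb, hpair_comm, mul_left_comm]
    _ = _ := by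
        simp only [← k1, hth, Finset.mul_sum]
        refine Finset.sum_congr rfl fun x _ => Finset.sum_congr rfl fun y _ => ?_
        rw [hb, jC_tau ok h.sqf, jC_tau ok h.sqf, div_eq_mul_inv, map_mul, map_inv, u, mul_assoc]

end Pool.Agent.DH
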