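import Pool.Agent.Lib.MP_60ff09_nt.Dih.SIa
import Pool.Agent.Lib.MP_60ff09_nt.Dih.SIb
import Pool.Agent.Lib.MP_60ff09_nt.Dih.GZ
import Pool.Agent.Lib.MP_60ff09_nt.Dih.EU

/-! The Rankin series of a character of two-power order has a simple zero. -/

set_option autoImplicit false

open scoped Classical NumberTheorySymbols
open Pool.Agent.Lib.MP_696deb_nt Pool.Agent.Lib.MP_696deb_nt.B2 Pool.Agent.Lib.MP_696deb_nt.B2.CM
open Pool.Agent.Lib.MP_60ff09_nt.V4

namespace Pool.Agent.DH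

variable {p q : ℕ}

theorem exists_cyc {L : Type} [Field L] {n : ℕ} [Finite (Cl n)] (θ : Cl n →* L)
    (hθ : ∀ x, ∃ k : ℕ, θ x ^ 2 ^ k = 1) : ∃ m ζ l, Cyc θ m ζ l := by
  obtain ⟨m, ζ, χ, h1, h2, h3, h4⟩ := exists_log ⊤ θ (fun _ _ _ _ => map_mul _ _ _) fun x _ => hθ x
  exact ⟨m, ζ, MonoidHom.mk' (fun x => Multiplicative.ofAdd (χ x)) fun x y =>
    congrArg Multiplicative.ofAdd (h2 x trivial y trivial), h1,
    fun a => (h3 a.toAdd).imp fun _ k => congrArg Multiplicative.ofAdd k.2, fun x => h4 x trivial⟩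

theorem simple_quad [Fintype (Cl (p * q))] (h : PQ p q) (θ : Cl (p * q) →* ℂ)
    (hθ : ∀ x, θ x ^ 2 = 1) : Simple (rth (p * q) θ) (kr (p * q)) := by
  obtain ⟨g, hg⟩ := exists_gen h
  have h1 := h.p4
  have h2 := h.q4
  have h3 := h.ok.m4
  rcases hg.quad h θ hθ with rfl | e
  · obtain ⟨F, f1, f2, f3⟩ := entire_of_bsd (d := 1) squarefree_one rfl bsd_unit
    obtain ⟨G, g1, g2, g3⟩ := entire_of_bsd (Int.squarefree_natAbs.1 (by
      rw [Int.natAbs_neg, Int.natAbs_natCast]; exact h.sqf)) (by omega) h.bsd_n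
    rw [Int.natAbs_neg, Int.natAbs_natCast] at g2
    refine simple_of_two (u := 1) f1 g1 f2 g2 f3 g3 (fun l hl => ?_) fun l _ => ?_
    · rw [rth_one_prime h.ok h.sqf hl]
      simp [kr]
    · simp [kr]
  · obtain ⟨F, f1, f2, f3⟩ := entire_of_bsd (Int.squarefree_natCast.2 h.pp.squarefree) (by omega)
      h.bsd_p
    obtain ⟨G, g1, g2, g3⟩ := entire_of_bsd (Int.squarefree_natAbs.1 (by
      simpa using h.qp.squarefree)) (by omega) h.bsd_q
    rw [Int.natAbs_neg, Int.natAbs_natCast] at g2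
    refine simple_of_two (u := p) f1 g1 f2 g2 f3 g3 (fun l hl => rth_gen_prime h hg e hl)
      fun l _ => ?_
    rw [kr, kr, kr, jacobiSym.mul_right' _ h.pp.ne_zero h.qp.ne_zero, Int.cast_mul]

theorem simple_theta [Fintype (Cl (p * q))] (h : PQ p q) (θ : Cl (p * q) →* ℂ)
    (hθ : ∃ k : ℕ, ∀ x, θ x ^ 2 ^ k = 1) : Simple (rth (p * q) θ) (kr (p * q)) := by
  by_cases h2 : ∀ x, θ x ^ 2 = 1
  · exact simple_quad h θ h2
  obtain ⟨m, ζ, l, hc⟩ := exists_cyc θ fun x => hθ.imp fun _ k => k x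
  obtain ⟨r, ok⟩ := h.exists_okR
  obtain ⟨x, hx⟩ := not_forall.1 h2
  rcases m with _ | _ | j
  · exact absurd (by rw [show θ x = 1 by simpa using hc.pow x, one_pow]) hx
  · exact absurd (by simpa using hc.pow x) hx
  obtain ⟨Λ, k1, k2⟩ := gz h ok θ ⟨x, by rwa [map_pow]⟩ (hth_ne h ok (by omega) hc)
  exact simple_of_isRk (rth_hecke θ h.ok h.sqf) (fun _ k => norm_rth_le θ h.ok h.sqf k) k1 k2

theorem PQ.ranks (h : PQ p q) : Module.rank ℤ (twist15 1).toAffine.Point = 0 ∧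
    Module.rank ℤ (twist15 (-(p * q : ℕ))).toAffine.Point = 1 ∧
    Module.rank ℤ (twist15 p).toAffine.Point = 0 ∧
    Module.rank ℤ (twist15 (-q)).toAffine.Point = 1 :=
  ⟨by simpa using rank_of_bsd (r := 0) bsd_unit, by simpa using rank_of_bsd (r := 1) h.bsd_n,
    by simpa using rank_of_bsd (r := 0) h.bsd_p, by simpa using rank_of_bsd (r := 1) h.bsd_q⟩

end Pool.Agent.DH
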