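import Pool.Agent.Lib.MP_60ff09_nt.Dih.FNb
import Pool.Agent.Lib.MP_60ff09_nt.Dih.SIz
import Pool.Agent.Lib.MP_60ff09_nt.Dih.LNa
import Pool.Agent.Lib.MP_60ff09_nt.Dih.PId

/-! The conjecture for a sum of two induced representations. -/

set_option autoImplicit false

open scoped Classical NumberTheorySymbols TensorProduct
open NumberField CategoryTheory
open Pool.Agent.Lib.MP_696deb_nt Pool.Agent.Lib.MP_696deb_nt.B2 Pool.Agent.Lib.MP_696deb_nt.B2.CM
open Pool.Agent.Lib.MP_60ff09_nt Pool.Agent.Lib.MP_60ff09_nt.V4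

namespace Pool.Agent.DH

variable {p q : ℕ}

theorem wP_mem_AA {n j : ℕ} {r : ℤ} [Fintype (Cl n)] (ok : OkR n 1 r)
    (l : Cl n →* Multiplicative (ZMod (2 ^ (j + 1)))) : wP r l ∈ AA n (ch l) := by
  refine (mem_AA ok.toOk l).2 fun g hg => ⟨fun e => ?_, fun e => ?_⟩ <;>
    rw [wP, smul_sub, smul_yS ok l hg, smul_yS ok l hg, e]
  · rw [zero_add, zero_add]
  · rw [add_zero, ← two_mul, rkd_two.2 (.inr rfl), neg_sub]

theorem PQ.inp [Fintype (Cl (p * q))] (h : PQ p q) : Inp p q := by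
  obtain ⟨r, ok⟩ := h.exists_okR
  obtain ⟨k1, k2, k3, k4⟩ := h.ranks
  exact ⟨fun _ _ => link_K h, fun _ l _ _ _ => frob_K h l, fun j l hj hl =>
    ⟨⟨_, wP_mem_AA ok l, wP_nontors h ok hj l hl⟩, dep_ch h hj l hl⟩, simple_theta h, k1, k2, k3, k4⟩

theorem beil_dih {M L : Type} [Field M] [NumberField M] [IsGalois ℚ M] [Field L] [Algebra L ℂ]
    {δ : M} {V : Rep L (M ≃ₐ[ℚ] M)} (h : PQ p q) (hδ : δ ^ 2 = -(p * q : ℕ)) (hV : IndSum V δ) :
    Beil a15 V 2 := by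
  have := h.fin
  have := Fintype.ofFinite (Cl (p * q))
  exact beil_ind h h.inp hδ hV

end Pool.Agent.DH
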