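import Pool.Agent.Lib.MP_60ff09_nt.Dih.CL0
import Pool.Agent.Lib.MP_696deb_nt.HeightMain

/-! The finite places of the height pairing: definitions. -/

set_option autoImplicit false

open Complex Finset NumberTheorySymbols
open scoped Real ComplexConjugate Classical
open Pool.Agent.Lib.MP_696deb_nt Pool.Agent.Lib.MP_696deb_nt.B2.CM Pool.Agent.Lib.MP_696deb_nt.Unif

namespace Pool.Agent.Dih

/-- The number is a root of the form. -/
def Rt (Q : Fm) (τ : ℂ) : Prop := Q.1 * τ ^ 2 + Q.2.1 * τ + Q.2.2 = 0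

/-- The form is not divisible by `P`. -/
def Prm (P : ℕ) (Q : Fm) : Prop := ¬ ((P : ℤ) ∣ Q.1 ∧ (P : ℤ) ∣ Q.2.1 ∧ (P : ℤ) ∣ Q.2.2)

/-- Roots of forms of discriminant `D` that are not divisible by `P`. -/
def Dp (P : ℕ) (D : ℤ) (τ : ℂ) : Prop := 0 < τ.im ∧ ∃ Q, Rt Q τ ∧ fdisc Q = D ∧ Prm P Q

/-- The value of a form at the kernel of an isogeny of degree `P`. -/
def ev (P : ℕ) (Q : Fm) : Option (Fin P) → ℤ
  | none => Q.1
  | some k => fval Q (-(k : ℕ)) 1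

/-- The prime `P` is inert or ramified and does not divide the conductor. -/
def NS (P : ℕ) (D : ℤ) : Prop := D < 0 ∧ D % 4 = 1 ∧
  ((∀ b k : ℤ, b ^ 2 - D ≠ 4 * P * k) ∨ ((P : ℤ) ∣ D ∧ ¬ (P : ℤ) ^ 2 ∣ D))

/-- Points whose conductor is prime to `l`. -/
def Yv (l : ℕ) (D : ℤ) (τ : ℂ) : Prop :=
  0 < τ.im ∧ ∃ (Q : Fm) (k : ℤ), Rt Q τ ∧ fdisc Q = D * k ^ 2 ∧ ¬ (l : ℤ) ∣ k

/-- Points whose conductor is divisible by `l`. -/
def Zv (l : ℕ) (D : ℤ) (τ : ℂ) : Prop := ∃ k : ℤ, k ≠ 0 ∧ Dp l (D * (l * k) ^ 2) τ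

/-- A place above `p` and a valuation ring of the complex numbers above it. -/
structure Pl (p : ℕ) {K : Type} [Field K] (v : AbsoluteValue K ℝ) (f : K →+* ℂ)
    (A : ValuationSubring ℂ) : Prop where
  na : IsNonarchimedean v
  cmp : ∀ x, (A.valuation (f x) ≤ 1 ↔ v x ≤ 1) ∧ (A.valuation (f x) < 1 ↔ v x < 1)
  lt : v p < 1

/-- A bound for the local heights at all places above `p`. -/
def LocB (p : ℕ) {ι κ : Type} [Fintype ι] [Fintype κ] (τ : ι → ℂ) (τ' : κ → ℂ) (c : ι → κ → ℤ)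
    (B : ℝ) : Prop :=
  ∀ (K : Type) [Field K] [CharZero K] [DecidableEq K] (v : AbsoluteValue K ℝ) (f : K →+* ℂ)
    (A : ValuationSubring ℂ) (X : ι → Pt W15 K) (Y : κ → Pt W15 K), Pl p v f A →
    (∀ i, pmap f (X i) = pt (τ i)) → (∀ j, pmap f (Y j) = pt (τ' j)) →
    |∑ i, ∑ j, (c i j : ℝ) * lamF v (X i - Y j)| ≤ B * -Real.log (v p)

/-- The index set of the Hecke correspondence. -/
def HI (M : ℕ) : Finset ((_ : ℕ × ℕ) × ℕ) := M.divisorsAntidiagonal.sigma fun x => range x.2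

/-- The points of the Hecke correspondence. -/
noncomputable def hpt (t : (_ : ℕ × ℕ) × ℕ) (τ : ℂ) : ℂ := (t.1.1 * τ + t.2) / t.1.2

/-- The content of the matrix. -/
def hgc (t : (_ : ℕ × ℕ) × ℕ) : ℕ := t.1.1.gcd (t.1.2.gcd t.2)

/-- The height pairing with weights. -/
noncomputable def hW {n : ℕ} [Fintype (Pc n 1)] (e : Pc n 1 → Fm) (W : Pc n 1 → ℤ) : ℝ :=
  ∑ x, ∑ y, W (x * y⁻¹) * hpair (pt (froot (e x))) (pt (froot (e y)))

/-- Its archimedean part, after a Hecke correspondence. -/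
noncomputable def aW {n : ℕ} [Fintype (Pc n 1)] (e : Pc n 1 → Fm) (W : Pc n 1 → ℤ) (M : ℕ) : ℝ :=
  ∑ x, ∑ y, W (x * y⁻¹) * hsum M (fun τ => lam15 (Fi (froot (e x)) - Fi τ)) (froot (e y))

theorem hsum_eq {E : Type*} [AddCommMonoid E] (M : ℕ) (g : ℂ → E) (τ : ℂ) :
    hsum M g τ = ∑ t ∈ HI M, g (hpt t τ) := sum_sigma' _ _ _

theorem mem_HI {M : ℕ} {t : (_ : ℕ × ℕ) × ℕ} :
    t ∈ HI M ↔ t.1.1 * t.1.2 = M ∧ M ≠ 0 ∧ t.2 < t.1.2 := by
  simp [HI, and_assoc]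

theorem Pl.val {p : ℕ} {K : Type} [Field K] {v : AbsoluteValue K ℝ} {f : K →+* ℂ}
    {A : ValuationSubring ℂ} (h : Pl p v f A) : A.valuation p < 1 := by
  simpa using (h.cmp p).2.2 h.lt

end Pool.Agent.Dih
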