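import Pool.Agent.Lib.MP_60ff09_nt.Dih.FP0
import Pool.Agent.Lib.MP_696deb_nt.Param

/-! The Hecke relation for sums over points, and auxiliary primes. -/

set_option autoImplicit false

open Complex Finset NumberTheorySymbols
open scoped Real ComplexConjugate Classical
open Pool.Agent.Lib.MP_696deb_nt Pool.Agent.Lib.MP_696deb_nt.B2.CM Pool.Agent.Lib.MP_696deb_nt.Unif

namespace Pool.Agent.Dih

variable {l m M n : ℕ} {τ : ℂ}

theorem fpa_im {a d : ℕ} (ha : a ≠ 0) (hd : d ≠ 0) (b : ℕ) (hτ : 0 < τ.im) :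
    0 < ((a * τ + b) / d : ℂ).im := by
  rw [Complex.div_natCast_im]
  have h1 : (0 : ℝ) < a := Nat.cast_pos.2 (Nat.pos_of_ne_zero ha)
  have h2 : (0 : ℝ) < d := Nat.cast_pos.2 (Nat.pos_of_ne_zero hd)
  simp only [add_im, mul_im, natCast_re, natCast_im, zero_mul, add_zero]
  positivity

theorem hk_im (hl : l ≠ 0) (hτ : 0 < τ.im) (i : Option (Fin l)) : 0 < (hk l τ i).im := by
  cases i with
  | none => simpa [hk] using fpa_im hl one_ne_zero 0 hτ
  | some k => simpa [hk] using fpa_im one_ne_zero hl k hτ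

theorem hpt_im {t : (_ : ℕ × ℕ) × ℕ} (ht : t ∈ HI M) (hτ : 0 < τ.im) : 0 < (hpt t τ).im := by
  obtain ⟨h1, h2, -⟩ := mem_HI.1 ht
  rw [← h1] at h2
  exact fpa_im (left_ne_zero_of_mul h2) (right_ne_zero_of_mul h2) _ hτ

theorem hsum_one {E : Type*} [AddCommMonoid E] (g : ℂ → E) (τ : ℂ) : hsum 1 g τ = g τ := by
  simp [hsum]

theorem fpa_per {E ι : Type*} [AddCommMonoid E] {h : ℕ → E} {d : ℕ} (hd : d ≠ 0)
    (hh : Function.Periodic h d) (S : Finset ι) (φ : ι → ℕ) (hc : S.card = d)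
    (hi : ∀ s ∈ S, ∀ t ∈ S, φ s ≡ φ t [MOD d] → s = t) :
    ∑ s ∈ S, h (φ s) = ∑ b ∈ range d, h b := by
  have h1 : ∀ s ∈ S, φ s % d ∈ range d := fun s _ =>
    mem_range.2 (Nat.mod_lt _ (Nat.pos_of_ne_zero hd))
  refine sum_bij (fun s _ => φ s % d) h1 (fun s hs t ht e => hi s hs t ht e) (fun b hb => ?_)
    fun s _ => (hh.map_mod_nat _).symm
  obtain ⟨s, hs, e⟩ := surj_on_of_inj_on_of_card_le (fun s _ => φ s % d) h1
    (fun s t hs ht e => hi s hs t ht e) (by rw [card_range, hc]) b hb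
  exact ⟨s, hs, e.symm⟩

/-- The sum over the matrices with given diagonal. -/
noncomputable def fpaG {E : Type*} [AddCommMonoid E] (g : ℂ → E) (τ : ℂ) (a d : ℕ) : E :=
  ∑ b ∈ range d, g ((a * τ + b) / d)

theorem fpa_periodic {E : Type*} {g : ℂ → E} (hg : ∀ z : ℂ, 0 < z.im → g (z + 1) = g z)
    {a d : ℕ} (ha : a ≠ 0) (hd : d ≠ 0) (hτ : 0 < τ.im) :
    Function.Periodic (fun b : ℕ => g ((a * τ + b) / d)) d := by
  intro b
  have h1 : (d : ℂ) ≠ 0 := Nat.cast_ne_zero.2 hd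
  have h2 : ((a : ℂ) * τ + ((b + d : ℕ) : ℂ)) / d = (a * τ + b) / d + 1 := by
    push_cast
    field_simp
    ring
  beta_reduce
  rw [h2, hg _ (fpa_im ha hd b hτ)]

theorem fpa_some {E : Type*} [AddCommMonoid E] {g : ℂ → E}
    (hg : ∀ z : ℂ, 0 < z.im → g (z + 1) = g z) (hl : l.Prime) {a d : ℕ} (ha : a ≠ 0) (hd : d ≠ 0)
    (hτ : 0 < τ.im) : ∑ k : Fin l, fpaG g (hk l τ (some k)) a d =
      if l ∣ a then l • fpaG g τ (a / l) d else fpaG g τ a (d * l) := by
  have hl0 : (l : ℂ) ≠ 0 := Nat.cast_ne_zero.2 hl.ne_zero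
  have hd0 : (d : ℂ) ≠ 0 := Nat.cast_ne_zero.2 hd
  split_ifs with h
  · obtain ⟨a, rfl⟩ := h
    rw [Nat.mul_div_cancel_left _ hl.pos]
    have h1 : ∀ k : Fin l, fpaG g (hk l τ (some k)) (l * a) d = fpaG g τ a d := by
      intro k
      refine Eq.trans (sum_congr rfl fun b _ => ?_) (fpa_per hd
        (fpa_periodic hg (right_ne_zero_of_mul ha) hd hτ) (range d) (fun b => b + a * k)
        (card_range d) fun s hs t ht e => ?_)
      · congr 1
        simp only [hk]
        push_cast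
        field_simp
        ring
      · exact (Nat.ModEq.add_right_cancel' _ e).eq_of_lt_of_lt (mem_range.1 hs) (mem_range.1 ht)
    rw [sum_congr rfl fun k _ => h1 k, sum_const, card_univ, Fintype.card_fin]
  · have hdl : d * l ≠ 0 := mul_ne_zero hd hl.ne_zero
    refine Eq.trans ?_ (fpa_per hdl (fpa_periodic hg ha hdl hτ)
      ((univ : Finset (Fin l)) ×ˢ range d) (fun s => a * s.1 + l * s.2) ?_ fun s hs t ht e => ?_)
    · rw [sum_product]
      refine sum_congr rfl fun k _ => sum_congr rfl fun b _ => ?_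
      congr 1
      simp only [hk]
      push_cast
      field_simp
      ring
    · rw [card_product, card_univ, Fintype.card_fin, card_range, mul_comm]
    · have e1 : a * s.1 ≡ a * t.1 [MOD l] := by
        have e2 := e.of_mul_left d
        simpa [Nat.ModEq] using e2
      have e2 : s.1 = t.1 := Fin.ext ((Nat.ModEq.cancel_left_of_coprime
        ((Nat.Prime.coprime_iff_not_dvd hl).2 h) e1).eq_of_lt_of_lt s.1.2 t.1.2)
      rw [e2, mul_comm d l] at e
      have e3 := Nat.ModEq.mul_left_cancel' hl.ne_zero (Nat.ModEq.add_left_cancel' _ e)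
      exact Prod.ext e2 (e3.eq_of_lt_of_lt (mem_range.1 (mem_product.1 hs).2)
        (mem_range.1 (mem_product.1 ht).2))

theorem fpa_dvd {E : Type*} [AddCommMonoid E] (F : ℕ → ℕ → E) (hl : l ≠ 0) (m : ℕ) :
    ∑ x ∈ (l * m).divisorsAntidiagonal.filter (fun x => l ∣ x.1), F x.1 x.2 =
      ∑ x ∈ m.divisorsAntidiagonal, F (l * x.1) x.2 := by
  symm
  refine sum_bij (fun x _ => (l * x.1, x.2)) (fun x hx => ?_) (fun x _ y _ e => ?_)
    (fun y hy => ?_) fun _ _ => rfl
  · obtain ⟨h1, h2⟩ := Nat.mem_divisorsAntidiagonal.1 hx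
    exact mem_filter.2 ⟨Nat.mem_divisorsAntidiagonal.2 ⟨by rw [mul_assoc, h1], mul_ne_zero hl h2⟩,
      dvd_mul_right _ _⟩
  · exact Prod.ext (mul_left_cancel₀ hl (Prod.ext_iff.1 e).1) (Prod.ext_iff.1 e).2
  · obtain ⟨h1, a, ha⟩ := mem_filter.1 hy
    obtain ⟨h1, h2⟩ := Nat.mem_divisorsAntidiagonal.1 h1
    rw [ha, mul_assoc] at h1
    exact ⟨(a, y.2), Nat.mem_divisorsAntidiagonal.2 ⟨mul_left_cancel₀ hl h1,
      right_ne_zero_of_mul h2⟩, Prod.ext ha.symm rfl⟩

theorem fpa_not {E : Type*} [AddCommMonoid E] (F : ℕ → ℕ → E) (hl : l.Prime) (m : ℕ) :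
    ∑ x ∈ (l * m).divisorsAntidiagonal.filter (fun x => ¬ l ∣ x.1), F x.1 x.2 =
      ∑ x ∈ m.divisorsAntidiagonal.filter (fun x => ¬ l ∣ x.1), F x.1 (x.2 * l) := by
  symm
  refine sum_bij (fun x _ => (x.1, x.2 * l)) (fun x hx => ?_) (fun x _ y _ e => ?_)
    (fun y hy => ?_) fun _ _ => rfl
  · obtain ⟨h0, h3⟩ := mem_filter.1 hx
    obtain ⟨h1, h2⟩ := Nat.mem_divisorsAntidiagonal.1 h0
    exact mem_filter.2 ⟨Nat.mem_divisorsAntidiagonal.2
      ⟨by rw [← mul_assoc, h1, mul_comm], mul_ne_zero hl.ne_zero h2⟩, h3⟩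
  · exact Prod.ext (Prod.ext_iff.1 e).1 (mul_right_cancel₀ hl.ne_zero (Prod.ext_iff.1 e).2)
  · obtain ⟨h0, h3⟩ := mem_filter.1 hy
    obtain ⟨h1, h2⟩ := Nat.mem_divisorsAntidiagonal.1 h0
    obtain ⟨d, hd⟩ := (hl.dvd_mul.1 (h1 ▸ dvd_mul_right l m)).resolve_left h3
    rw [hd, mul_left_comm] at h1
    exact ⟨(y.1, d), mem_filter.2 ⟨Nat.mem_divisorsAntidiagonal.2
      ⟨mul_left_cancel₀ hl.ne_zero h1, right_ne_zero_of_mul h2⟩, h3⟩,
      Prod.ext rfl (by rw [hd, mul_comm])⟩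

theorem hsum_rel {E : Type*} [AddCommMonoid E] {g : ℂ → E}
    (hg : ∀ z : ℂ, 0 < z.im → g (z + 1) = g z) (hl : l.Prime) (hm : m ≠ 0) (hτ : 0 < τ.im) :
    hsum (l * m) g τ + (if l ∣ m then l • hsum (m / l) g τ else 0) =
      ∑ i, hsum m g (hk l τ i) := by
  have e : ∀ (M : ℕ) (z : ℂ), hsum M g z = ∑ x ∈ M.divisorsAntidiagonal, fpaG g z x.1 x.2 :=
    fun _ _ => rfl
  have h1 : ∀ a d, fpaG g (hk l τ none) a d = fpaG g τ (l * a) d := by
    intro a d
    refine sum_congr rfl fun b _ => ?_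
    congr 2
    simp only [hk]
    push_cast
    ring
  have h2 : ∑ x ∈ m.divisorsAntidiagonal.filter (fun x => l ∣ x.1), l • fpaG g τ (x.1 / l) x.2 =
      if l ∣ m then l • hsum (m / l) g τ else 0 := by
    split_ifs with h
    · obtain ⟨m', rfl⟩ := h
      rw [fpa_dvd (fun a d => l • fpaG g τ (a / l) d) hl.ne_zero, Nat.mul_div_cancel_left _ hl.pos,
        e, smul_sum]
      exact sum_congr rfl fun x _ => by rw [Nat.mul_div_cancel_left _ hl.pos]
    · refine sum_eq_zero fun x hx => absurd ?_ h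
      obtain ⟨h0, h3⟩ := mem_filter.1 hx
      exact h3.trans (Dvd.intro _ (Nat.mem_divisorsAntidiagonal.1 h0).1)
  have h3 : ∑ k : Fin l, hsum m g (hk l τ (some k)) = ∑ x ∈ m.divisorsAntidiagonal,
      if l ∣ x.1 then l • fpaG g τ (x.1 / l) x.2 else fpaG g τ x.1 (x.2 * l) := by
    simp only [e]
    rw [sum_comm]
    refine sum_congr rfl fun x hx => ?_
    have h4 := Nat.ne_zero_of_mem_divisorsAntidiagonal hx
    exact fpa_some hg hl h4.1 h4.2 hτ
  rw [Fintype.sum_option, h3, sum_ite, h2, e (l * m), e m,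
    ← sum_filter_add_sum_filter_not _ (fun x : ℕ × ℕ => l ∣ x.1), fpa_dvd _ hl.ne_zero,
    fpa_not _ hl, add_assoc, add_comm (ite _ _ _)]
  simp only [h1]

theorem sum_hgc_le (M : ℕ) : ∑ t ∈ HI M, hgc t ^ 2 ≤ M.divisors.card ^ 2 * M := by
  have h1 : ∀ x ∈ M.divisorsAntidiagonal,
      ∑ b ∈ range x.2, x.1.gcd (x.2.gcd b) ^ 2 ≤ M.divisors.card * M := by
    intro x hx
    obtain ⟨e, hM⟩ := Nat.mem_divisorsAntidiagonal.1 hx
    have h2 : ∀ b ∈ range x.2, x.1.gcd (x.2.gcd b) ^ 2 ≤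
        ∑ c ∈ M.divisors, if c ∣ x.1 ∧ c ∣ x.2 ∧ c ∣ b then c ^ 2 else 0 := by
      intro b _
      refine le_trans (le_of_eq ?_) (single_le_sum (f := fun c =>
        if c ∣ x.1 ∧ c ∣ x.2 ∧ c ∣ b then c ^ 2 else 0) (fun _ _ => Nat.zero_le _)
        (Nat.mem_divisors.2 ⟨(Nat.gcd_dvd_left x.1 (x.2.gcd b)).trans (Dvd.intro _ e), hM⟩))
      rw [if_pos ⟨Nat.gcd_dvd_left _ _, (Nat.gcd_dvd_right _ _).trans (Nat.gcd_dvd_left _ _),
        (Nat.gcd_dvd_right _ _).trans (Nat.gcd_dvd_right _ _)⟩]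
    refine (sum_le_sum h2).trans ?_
    rw [sum_comm, ← smul_eq_mul]
    refine sum_le_card_nsmul _ _ _ fun c hc => ?_
    by_cases h3 : c ∣ x.1 ∧ c ∣ x.2
    · obtain ⟨h3, d, hd⟩ := h3
      have ha : c ≤ x.1 := Nat.le_of_dvd (Nat.pos_of_ne_zero
        (Nat.ne_zero_of_mem_divisorsAntidiagonal hx).1) h3
      have h4 : ((range x.2).filter fun b => c ∣ x.1 ∧ c ∣ x.2 ∧ c ∣ b).card ≤ d := by
        refine (card_le_card (t := (range d).image fun j => c * j) fun b hb => ?_).trans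
          (card_image_le.trans (card_range d).le)
        obtain ⟨k1, -, -, j, rfl⟩ := mem_filter.1 hb
        rw [mem_range, hd] at k1
        exact mem_image.2 ⟨j, mem_range.2 (Nat.lt_of_mul_lt_mul_left k1), rfl⟩
      rw [← sum_filter, sum_const, smul_eq_mul, ← e, hd]
      calc _ ≤ d * c ^ 2 := Nat.mul_le_mul_right _ (hd ▸ h4)
        _ = c * (c * d) := by ring
        _ ≤ _ := Nat.mul_le_mul_right _ ha
    · rw [sum_eq_zero fun b _ => if_neg fun h => h3 ⟨h.1, h.2.1⟩]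
      exact Nat.zero_le _
  have h5 : M.divisorsAntidiagonal.card = M.divisors.card := by
    rw [← Nat.map_div_right_divisors, card_map]
  rw [HI, sum_sigma]
  refine (sum_le_card_nsmul _ _ _ h1).trans (le_of_eq ?_)
  rw [h5, smul_eq_mul]
  ring

theorem four_dvd_a15 (hl : l.Prime) (h : ¬ l ∣ 30) : 4 ∣ (l : ℤ) + 1 - a15 l := by
  have := Fact.mk hl
  have k : ∀ n : ℕ, n ∣ 30 ^ 4 → (n : ZMod l) ≠ 0 := fun n hn h' =>
    h (hl.dvd_of_dvd_pow (((ZMod.natCast_eq_zero_iff n l).mp h').trans hn))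
  have k2 : (2 : ZMod l) ≠ 0 := by exact_mod_cast k 2 (by norm_num)
  have k9 : (9 : ZMod l) ≠ 0 := by exact_mod_cast k 9 (by norm_num)
  have k16 : (16 : ZMod l) ≠ 0 := by exact_mod_cast k 16 (by norm_num)
  have k25 : (25 : ZMod l) ≠ 0 := by exact_mod_cast k 25 (by norm_num)
  have k144 : (144 : ZMod l) ≠ 0 := by exact_mod_cast k 144 (by norm_num)
  have k3600 : (3600 : ZMod l) ≠ 0 := by exact_mod_cast k 3600 (by norm_num)
  set f : ZMod l → ZMod l := fun x => x * (x + 9) * (x - 16) with hf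
  set S : Finset (ZMod l) := univ.filter fun x => quadraticChar (ZMod l) (f x) = 1 with hS
  have hx0 : ∀ x ∈ S, x ≠ 0 := by
    rintro x hx rfl
    have := (mem_filter.1 hx).2
    simp [hf] at this
  have h1 : ∑ _x ∈ S, (1 : ZMod 2) = 0 := by
    refine sum_involution (fun x _ => if x ^ 2 = -144 then -x else -144 / x) (fun _ _ => rfl)
      (fun x hx _ => ?_) (fun x hx => ?_) fun x hx => ?_
    · have h0 := hx0 x hx
      split_ifs with e
      · exact fun e' => mul_ne_zero k2 h0 (by linear_combination -e')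
      · intro e'
        rw [div_eq_iff h0] at e'
        exact e (by linear_combination -e')
    · have h0 := hx0 x hx
      have h2 := (mem_filter.1 hx).2
      refine mem_filter.2 ⟨mem_univ _, ?_⟩
      split_ifs with e
      · have h3 : f x * f (-x) = 3600 ^ 2 := by
          simp only [hf]
          linear_combination (-x ^ 4 + 481 * x ^ 2 - 90000) * e
        have h4 := congrArg (quadraticChar (ZMod l)) h3
        rwa [map_mul, h2, one_mul, quadraticChar_sq_one' k3600] at h4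
      · have h3 : f (-144 / x) = (144 / x ^ 2) ^ 2 * f x := by
          simp only [hf]
          field_simp
          ring
        rw [h3, map_mul, h2, mul_one,
          quadraticChar_sq_one' (div_ne_zero k144 (pow_ne_zero 2 h0))]
    · have h0 := hx0 x hx
      by_cases e : x ^ 2 = -144
      · simp only [e, if_true, neg_sq, neg_neg]
      · have e' : ¬ (-144 / x) ^ 2 = -144 := fun e' => e (by
          rw [div_pow, div_eq_iff (pow_ne_zero 2 h0)] at e'
          exact mul_left_cancel₀ k144 (by linear_combination e'))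
        simp only [e, e', if_false]
        field_simp
  have h2 : 2 ∣ S.card := by
    rw [sum_const, nsmul_eq_mul, mul_one] at h1
    exact (ZMod.natCast_eq_zero_iff _ _).1 h1
  have h3 : ∀ x, 1 + quadraticChar (ZMod l) (f x) = (if x ∈ S then 2 else 0) +
      (if x = 0 then 1 else 0) + (if x = -9 then 1 else 0) + (if x = 16 then 1 else 0) := by
    intro x
    have hm : x ∈ S ↔ quadraticChar (ZMod l) (f x) = 1 := by simp [hS]
    by_cases e0 : x = 0
    · have e1 : ¬ (0 : ZMod l) = -9 := fun e => k9 (by linear_combination e)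
      have e2 : ¬ (0 : ZMod l) = 16 := fun e => k16 e.symm
      subst e0
      simp [hm, hf, e1, e2]
    by_cases e1 : x = -9
    · have e2 : ¬ (-9 : ZMod l) = 16 := fun e => k25 (by linear_combination -e)
      subst e1
      simp only [hm, hf, e0, e2]
      simp
    by_cases e2 : x = 16
    · subst e2
      simp only [hm, hf, e0, e1]
      simp
    have h4 : f x ≠ 0 := mul_ne_zero (mul_ne_zero e0 fun e => e1 (by linear_combination e))
      (sub_ne_zero.2 e2)
    rcases quadraticChar_dichotomy h4 with h5 | h5 <;> simp [hm, h5, e0, e1, e2]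
  have h4 := sum_congr (rfl : (univ : Finset (ZMod l)) = univ) fun x _ => h3 x
  simp only [sum_add_distrib, sum_const, card_univ, ZMod.card, nsmul_eq_mul, mul_one, sum_ite_eq',
    mem_univ, if_true, sum_ite_mem, univ_inter] at h4
  obtain ⟨c, hc⟩ := h2
  rw [a15_eq_tr l h, tr]
  refine ⟨c + 1, ?_⟩
  rw [hc] at h4
  push_cast at h4
  linear_combination h4

/-- Inert primes with non-zero coefficient. -/
theorem Par.Ok.exists_inert {A : Par} (h : A.Ok) (B : ℕ) :
    ∃ l > B, l.Prime ∧ l % 4 = 1 ∧ J((l : ℤ) | A.n) = -1 ∧ a15 l ≠ 0 := by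
  have := Fact.mk h.pp
  have p4 := h.p4
  have q4 := h.q4
  obtain ⟨a, ha⟩ := FiniteField.exists_nonsquare (F := ZMod A.p) (by
    rw [ZMod.ringChar_zmod_n]
    omega)
  have ha' : J((a.val : ℤ) | A.p) = -1 :=
    ZMod.nonsquare_iff_jacobiSym_eq_neg_one.mpr (by simpa using ha)
  have hc : A.p.Coprime (4 * A.q) := by
    refine Nat.Coprime.mul_right ?_ ((Nat.coprime_primes h.pp h.qp).2 (by omega))
    exact Nat.Coprime.pow_right 2 ((Nat.coprime_primes h.pp Nat.prime_two).2 (by omega))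
  obtain ⟨k, k1, k2⟩ := Nat.chineseRemainder hc a.val 1
  have hkp : J((k : ℤ) | A.p) = -1 :=
    (jacobiSym.mod_left' (Int.natCast_modEq_iff.mpr k1)).trans ha'
  have hk : k.Coprime (A.p * (4 * A.q)) := by
    refine Nat.Coprime.mul_right ?_ ?_
    · by_contra e
      have := (jacobiSym.eq_zero_iff (a := k) (b := A.p)).mpr ⟨h.pp.ne_zero, e⟩
      omega
    · rw [Nat.Coprime, k2.gcd_eq, Nat.gcd_one_left]
  obtain ⟨l, h5, h6, h7⟩ := Nat.forall_exists_prime_gt_and_modEq (B + 30)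
    (mul_ne_zero h.pp.ne_zero (mul_ne_zero four_ne_zero h.qp.ne_zero)) hk
  have h8 : l ≡ 1 [MOD 4 * A.q] := (h7.of_mul_left _).trans k2
  have h9 : l % 4 = 1 := h8.of_mul_right _
  refine ⟨l, by omega, h6, h9, ?_, fun e => ?_⟩
  · have e1 : J((l : ℤ) | A.p) = -1 :=
      (jacobiSym.mod_left' (Int.natCast_modEq_iff.mpr (h7.of_mul_right _))).trans hkp
    have e2 : J((l : ℤ) | A.q) = 1 :=
      (jacobiSym.mod_left' (Int.natCast_modEq_iff.mpr (h8.of_mul_left _))).trans
        (jacobiSym.one_left _)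
    rw [Par.n, jacobiSym.mul_right' _ h.pp.ne_zero h.qp.ne_zero, e1, e2, mul_one]
  · have e1 := four_dvd_a15 h6 fun k => absurd (Nat.le_of_dvd (by norm_num) k) (by omega)
    rw [e] at e1
    omega

theorem eq_zero_of_log {P : ℕ} (hP : P.Prime) {x : ℚ} (h : x * Real.log P ∈ LogS P) : x = 0 := by
  by_contra hx
  have h1 := LogS.rat_mul x⁻¹ h
  rw [← mul_assoc, ← Rat.cast_mul, inv_mul_cancel₀ hx, Rat.cast_one, one_mul] at h1
  exact linInd_log.notMem_span_image (s := {q | q.1 ≠ P}) (x := ⟨P, hP⟩) (fun e => e rfl) h1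

end Pool.Agent.Dih
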