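import Pool.Agent.Lib.MP_60ff09_nt.Dih.FPa
import Pool.Agent.Lib.MP_696deb_nt.B2.CMd

/-! The Hecke correspondence commutes with automorphisms. -/

set_option autoImplicit false

open Complex Finset NumberTheorySymbols
open scoped Real ComplexConjugate Classical
open Pool.Agent.Lib.MP_696deb_nt Pool.Agent.Lib.MP_696deb_nt.B2.CM Pool.Agent.Lib.MP_696deb_nt.Unif

namespace Pool.Agent.Dih

variable {l M : ℕ} {τ τ' : ℂ} {s : ℂ ≃+* ℂ}

theorem fpb_hk (hl : l ≠ 0) (hτ : 0 < τ.im) (i : Option (Fin l)) : ∃ d e : ℕ, d * e = l ∧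
    sc d (lat15 (hk l τ i)).lattice = nb l 15 (15 * τ) i ∧
    e * τ - d * hk l τ i ∈ (lat15 (hk l τ i)).lattice := by
  have h0 : (l : ℂ) ≠ 0 := Nat.cast_ne_zero.2 hl
  rw [lat15_eq (hk_im hl hτ i)]
  cases i with
  | none =>
    refine ⟨1, l, one_mul _, ?_, by simp [hk]⟩
    rw [Nat.cast_one, sc_one, hk, nb, mul_left_comm]
  | some k =>
    refine ⟨l, 1, mul_one _, ?_, mem_sp2.2 ⟨0, -(k : ℕ), ?_⟩⟩
    · rw [sc_sp2, hk, nb, mul_one, mul_left_comm, mul_div_cancel₀ _ h0, mul_add, Int.cast_ofNat]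
    · rw [hk, mul_div_cancel₀ _ h0]
      push_cast
      ring

theorem fpb_lt {I I' J J' : Lt} (h : CjS s I I') (h' : CjS s J J') (k : I < J) : I' < J' :=
  lt_of_le_not_ge (fun z hz => by
    simpa using h.mul_mem h' (a := 1) (fun w hw => by simpa using k.le hw) hz)
    fun e => k.not_ge fun z hz => by
      simpa using h'.symm.mul_mem h.symm (a := 1) (fun w hw => by simpa using e hw) hz

theorem fpb_one (hl : l.Prime) (h15 : ¬ l ∣ 15) (hτ : 0 < τ.im) (hτ' : 0 < τ'.im) {a : ℤ}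
    (ha : IsCoprime a 15) {c : ℂ} {N : PeriodPair} (k1 : Gal.Sc c (lat15 τ') N)
    (k2 : Gal.Cj s (lat15 τ) N) (k3 : Gal.Rel s (lat15 τ) N (a * τ) (c * τ'))
    (i : Option (Fin l)) : ∃ j, CjS s (nb l 15 (15 * τ) i) (sc c (nb l 15 (15 * τ') j)) ∧
      pmap (s : ℂ →+* ℂ) (pt (hk l τ i)) = pt (hk l τ' j) := by
  have h0 : (l : ℂ) ≠ 0 := Nat.cast_ne_zero.2 hl.ne_zero
  have i1 : (15 * τ).im ≠ 0 := by simpa using hτ.ne'
  have i2 : (15 * τ').im ≠ 0 := by simpa using hτ'.ne'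
  have hc : ∀ x y : ℕ, x * y = l → (x : ℂ) ≠ 0 ∧ IsCoprime (x : ℤ) 15 := fun x y e =>
    ⟨Nat.cast_ne_zero.2 (left_ne_zero_of_mul (e ▸ hl.ne_zero)), by
      exact_mod_cast Nat.isCoprime_iff_coprime.2
        (((Nat.Prime.coprime_iff_not_dvd hl).2 h15).coprime_dvd_left ⟨y, e.symm⟩)⟩
  have hL : CjS s (sp2 (15 * τ) 1) (sc c (sp2 (15 * τ') 1)) :=
    ⟨_, _, lat15_eq hτ, by rw [cmg_sc k1, lat15_eq hτ'], k2⟩
  obtain ⟨d, e, hd, h1, h2⟩ := fpb_hk hl.ne_zero hτ i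
  obtain ⟨d0, dc⟩ := hc d e hd
  obtain ⟨I, hI⟩ := exists_cjS s (h1 ▸ IsLat.sc ⟨_, rfl⟩ d0)
  obtain ⟨I, rfl⟩ := cmd_sc_surj k1.ne I
  have m1 := fpb_lt (hL.sc h0) hI (nb_mid hl i1 i).1
  rw [map_natCast, cmd_sc_comm, cmd_sc_lt k1.ne] at m1
  obtain ⟨j, rfl⟩ := cmd_mid (s := 15) hl (by exact_mod_cast h15) i2 m1
    ((cmd_sc_lt k1.ne).1 (fpb_lt hI hL (nb_mid hl i1 i).2))
  refine ⟨j, hI, ?_⟩
  obtain ⟨d', e', hd', h1', h2'⟩ := fpb_hk hl.ne_zero hτ' j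
  obtain ⟨d0', f, g, hf⟩ := hc d' e' hd'
  have k4 := Gal.sc_scale (lat15 (hk l τ' j))
    (mul_ne_zero (inv_ne_zero d0) (mul_ne_zero k1.ne d0'))
  have k5 := (hI.sc (inv_ne_zero d0)).cj (L := lat15 (hk l τ i)) (by rw [← h1, sc_inv_sc d0])
    (by rw [cmg_sc k4, ← h1', sc_sc, sc_sc, map_inv₀, map_natCast, mul_assoc])
  have hl1 : (d : ℂ) * e = l := by exact_mod_cast hd
  have hl2 : (d' : ℂ) * e' = l := by exact_mod_cast hd'
  have hf' : (f : ℂ) * d' + g * 15 = 1 := by exact_mod_cast hf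
  have k6 := k5.int_mul (k3.isog k2 k5 (hc e d (by rw [mul_comm, hd])).1 fun z hz => by
    rw [← mul_mem_sc d0, h1, ← mul_assoc, hl1]
    exact (nb_mid hl i1 i).1.le ((mul_mem_sc h0).2 (lat15_eq hτ ▸ hz))) f
  refine Gal.Pr.pt_eq (hk_im hl.ne_zero hτ i) (hk_im hl.ne_zero hτ' j) (a := f * a * d)
    ((IsCoprime.mul_left ⟨(d' : ℤ), g, by rw [mul_comm]; exact hf⟩ ha).mul_left dc)
    ⟨_, _, k4, k5, k6.congr ?_ ?_⟩
  · have := int_mul_mem h2 (-(f * a))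
    rwa [show ((-(f * a) : ℤ) : ℂ) * (e * τ - d * hk l τ i) =
      ((f * a * d : ℤ) : ℂ) * hk l τ i - f * (e * (a * τ)) by push_cast; ring] at this
  · have := (k4.mem _).2 (sub_mem ((mem_lat15 (hk_im hl.ne_zero hτ' j)).2 ⟨g, 0, rfl⟩)
      (int_mul_mem h2' f))
    rwa [show (d : ℂ)⁻¹ * (c * d') * (g * (15 * hk l τ' j) + (0 : ℤ) -
        f * (e' * τ' - d' * hk l τ' j)) = (d : ℂ)⁻¹ * (c * d') * hk l τ' j - f * (s e * (c * τ')) by
      rw [map_natCast]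
      field_simp
      push_cast
      linear_combination c * d' * hk l τ' j * hf' + c * f * τ' * (hl1 - hl2)] at this

theorem gal_hk (hl : l.Prime) (h15 : ¬ l ∣ 15) (hτ : 0 < τ.im) (hτ' : 0 < τ'.im)
    (h : pmap (s : ℂ →+* ℂ) (pt τ) = pt τ') : ∃ u : Equiv.Perm (Option (Fin l)),
      ∀ i, pmap (s : ℂ →+* ℂ) (pt (hk l τ i)) = pt (hk l τ' (u i)) := by
  obtain ⟨a, ha, c, N, k1, k2, k3⟩ := Gal.exists_pr_of_pt hτ hτ' h
  choose u hu hp using fpb_one hl h15 hτ hτ' ha k1 k2 k3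
  refine ⟨Equiv.ofBijective u (Finite.injective_iff_bijective.1 fun i j e => ?_), hp⟩
  exact nb_inj hl (by exact_mod_cast h15) (by simpa using hτ.ne')
    ((hu i).symm.unique (e ▸ (hu j).symm))

theorem hsum_gal (hM : M.Coprime 15) (g : Pt W15 ℂ → ℝ) (hτ : 0 < τ.im) (hτ' : 0 < τ'.im)
    (h : pmap (s : ℂ →+* ℂ) (pt τ) = pt τ') :
    hsum M (fun z => g (pmap (s : ℂ →+* ℂ) (pt z))) τ = hsum M (fun z => g (pt z)) τ' := by
  induction M using Nat.strong_induction_on generalizing τ τ' with | _ M ih =>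
  rcases eq_or_ne M 1 with rfl | h1
  · rw [hsum_one, hsum_one, h]
  obtain ⟨l, hl, m, rfl⟩ := Nat.exists_prime_and_dvd h1
  have hm : m ≠ 0 := by
    rintro rfl
    simp at hM
  have hp : ∀ z : ℂ, 0 < z.im → pt (z + 1) = pt z := fun z hz => by
    simpa [mob] using pt_mob 1 1 0 1 (by norm_num) hz
  have lt : m < l * m := lt_mul_of_one_lt_left (Nat.pos_of_ne_zero hm) hl.one_lt
  obtain ⟨u, hu⟩ := gal_hk hl ((Nat.Prime.coprime_iff_not_dvd hl).1 hM.coprime_mul_right) hτ hτ' h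
  have e1 := hsum_rel (g := fun z => g (pmap (s : ℂ →+* ℂ) (pt z)))
    (fun z hz => by rw [hp z hz]) hl hm hτ
  have e2 := hsum_rel (g := fun z => g (pt z)) (fun z hz => by rw [hp z hz]) hl hm hτ'
  rw [Finset.sum_congr rfl fun i _ => ih m lt hM.coprime_mul_left (hk_im hl.ne_zero hτ i)
    (hk_im hl.ne_zero hτ' (u i)) (hu i),
    Equiv.sum_comp u fun i => hsum m (fun z => g (pt z)) (hk l τ' i), ← e2] at e1
  split_ifs at e1 with hd
  · rwa [ih (m / l) ((Nat.div_le_self _ _).trans_lt lt)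
      (hM.coprime_mul_left.coprime_dvd_left (Nat.div_dvd_of_dvd hd)) hτ hτ' h, add_left_inj] at e1
  · exact add_right_cancel e1

end Pool.Agent.Dih
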