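import Pool.Agent.Lib.MP_60ff09_nt.Dih.FPb
import Pool.Agent.Lib.MP_60ff09_nt.Dih.CLb
import Pool.Agent.Lib.MP_696deb_nt.B2.CMl

/-! Invariance of the archimedean part under automorphisms. -/

set_option autoImplicit false

open Complex Finset NumberTheorySymbols
open scoped Real ComplexConjugate Classical
open Pool.Agent.Lib.MP_696deb_nt Pool.Agent.Lib.MP_696deb_nt.B2.CM Pool.Agent.Lib.MP_696deb_nt.Unif

namespace Pool.Agent.Dih

variable {n M : ℕ} {r : ℤ} {e : Pc n 1 → Fm}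

theorem HFam.yP (he : HFam n r e) (hn : Good n) (hr : 60 ∣ r ^ 2 + n) (y : Pc n 1) :
    pt (froot (e y)) = yP n 1 r (cl (Oc n 1) (idl n 1 15 r) * y⁻¹) := by
  have ok : OkR n 1 r := ⟨good_ok hn, hr, by simpa using hn.cop⟩
  have h1 : IsHg (-(n * (1 : ℕ) ^ 2)) (r * (1 : ℕ)) (e y) := by simpa using (he y).1
  have h2 : Hg n 1 r (sp2 (15 * froot (e y)) 1) (e y) := ⟨h1, 1, one_ne_zero, (sc_one _).symm⟩
  have h3 := fcl_of_hg hn h2
  rw [(he y).2] at h3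
  rw [← yP_cl ok (cml_isIv ok hn.sqf h1) h2]
  congr 1
  generalize cl (Oc n 1) (sp2 (15 * froot (e y)) 1) = c at h3
  rw [h3, mul_inv, inv_inv, mul_inv_cancel_left]

theorem exists_restr (s : ℂ ≃+* ℂ) : ∃ g, Ex g s := by
  let j : B2.Qbar →ₐ[ℚ] ℂ := IsAlgClosed.lift
  let _ : Algebra B2.Qbar ℂ := j.toRingHom.toAlgebra
  have : IsScalarTower ℚ B2.Qbar ℂ := IsScalarTower.of_algebraMap_eq fun q => (j.commutes q).symm
  let t : ℂ ≃ₐ[ℚ] ℂ := AlgEquiv.ofRingEquiv (f := s) fun q => by simp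
  exact ⟨t.restrictNormal B2.Qbar, fun x => (AlgEquiv.restrictNormal_commutes t B2.Qbar x).symm⟩

theorem HFam.gal (he : HFam n r e) (hn : Good n) (hr : 60 ∣ r ^ 2 + n) {s : ℂ ≃+* ℂ}
    (hs : s (dl n) = dl n) :
    ∃ c : Pc n 1, ∀ y, pmap (s : ℂ →+* ℂ) (pt (froot (e y))) = pt (froot (e (y * c))) := by
  have ok : OkR n 1 r := ⟨good_ok hn, hr, by simpa using hn.cop⟩
  obtain ⟨g, hg⟩ := exists_restr s
  have h1 : g ∈ B2.GK n := by
    by_contra h
    have h2 := congrArg Complex.im (hs.symm.trans (hg.dl' h))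
    have h3 := dl_im (n := n) (by have := hn.mod4; omega)
    rw [neg_im] at h2
    linarith
  refine ⟨(rho n 1 g)⁻¹, fun y => ?_⟩
  rw [he.yP hn hr, he.yP hn hr, ← jC_yQ ok, ← jC_yQ ok, ← hg.pmap, smul_yQ ok h1, mul_inv, inv_inv,
    mul_comm (rho n 1 g), mul_assoc]

theorem lamArch_conj (P : Pt W15 ℂ) : lamArch (pmap (starRingEnd ℂ) P) = lamArch P := by
  obtain ⟨C, hC⟩ := neronLocal_lamArch.bdd
  have h : NeronLocal (fun z : ℂ => ‖z‖) fun P : Pt W15 ℂ => lamArch (pmap (starRingEnd ℂ) P) :=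
    ⟨⟨C, fun P => by simpa only [xco_pmap, RCLike.norm_conj] using hC (pmap (starRingEnd ℂ) P)⟩,
      fun P => by simp only [map_nsmul, neronLocal_lamArch.dup, dupc_pmap, RCLike.norm_conj]⟩
  exact congrFun (h.unique neronLocal_lamArch) P

theorem fpc_plus [Fintype (Pc n 1)] (he : HFam n r e) (hn : Good n) (hr : 60 ∣ r ^ 2 + n)
    (W : Pc n 1 → ℤ) (hM : M.Coprime 15) {s : ℂ ≃+* ℂ} (hs : s (dl n) = dl n) :
    ∑ x, ∑ y, (W (x * y⁻¹) : ℝ) * hsum M
      (fun z => lamArch (pmap (s : ℂ →+* ℂ) (pt (froot (e x)) - pt z))) (froot (e y)) =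
    ∑ x, ∑ y, (W (x * y⁻¹) : ℝ) * hsum M
      (fun z => lamArch (pt (froot (e x)) - pt z)) (froot (e y)) := by
  obtain ⟨c, hc⟩ := he.gal hn hr hs
  refine Fintype.sum_equiv (Equiv.mulRight c) _ _ fun x =>
    Fintype.sum_equiv (Equiv.mulRight c) _ _ fun y => ?_
  have h1 := hsum_gal hM (fun P => lamArch (pt (froot (e (x * c))) - P))
    ((he y).1.im_pos hn.neg) ((he (y * c)).1.im_pos hn.neg) (hc y)
  simp only [map_sub, hc, Equiv.coe_mulRight, mul_inv_rev, mul_assoc, mul_inv_cancel_left, h1]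

theorem HFam.gal_inv [Fintype (Pc n 1)] (he : HFam n r e) (hn : Good n) (hr : 60 ∣ r ^ 2 + n)
    (W : Pc n 1 → ℤ) (hM : M.Coprime 15) (s : ℂ ≃+* ℂ) :
    ∑ x, ∑ y, (W (x * y⁻¹) : ℝ) * hsum M
      (fun z => lamArch (pmap (s : ℂ →+* ℂ) (pt (froot (e x)) - pt z))) (froot (e y)) =
    ∑ x, ∑ y, (W (x * y⁻¹) : ℝ) * hsum M
      (fun z => lamArch (pt (froot (e x)) - pt z)) (froot (e y)) := by
  have h1 : (s (dl n) - dl n) * (s (dl n) + dl n) = 0 := by
    have h2 := congrArg s (dl_sq n)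
    rw [map_pow, map_neg, map_natCast] at h2
    linear_combination h2 - dl_sq n
  rcases mul_eq_zero.1 h1 with h | h
  · exact fpc_plus he hn hr W hM (sub_eq_zero.1 h)
  · rw [← fpc_plus he hn hr W hM (s := s.trans starRingAut) (by
      rw [RingEquiv.trans_apply, eq_neg_of_add_eq_zero_left h, map_neg, cla_dl, neg_neg])]
    have h2 : ∀ P : Pt W15 ℂ, lamArch (pmap (s.trans starRingAut : ℂ ≃+* ℂ) P) =
        lamArch (pmap (s : ℂ →+* ℂ) P) := fun P => by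
      rw [← lamArch_conj (pmap (s : ℂ →+* ℂ) P), pmap_pmap]
      rfl
    simp only [h2]

end Pool.Agent.Dih
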