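import Pool.Agent.Lib.MP_60ff09_nt.Dih.FP0

/-! Decomposition of the height pairing into local terms. -/

set_option autoImplicit false

open Complex Finset NumberTheorySymbols
open scoped Real ComplexConjugate Classical
open Pool.Agent.Lib.MP_696deb_nt Pool.Agent.Lib.MP_696deb_nt.B2.CM Pool.Agent.Lib.MP_696deb_nt.Unif

open WeierstrassCurve WeierstrassCurve.Affine NumberField Pool.Agent.Shared.Weier

namespace Pool.Agent.Dih

theorem fpd_sum {K : Type} [Field K] [NumberField K] {p : ℕ} (hp : p.Prime)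
    (s : Finset (FinitePlace K)) :
    ∑ w ∈ s, -Real.log (w p) ≤ Module.finrank ℚ K * Real.log p := by
  have p0 : (p : K) ≠ 0 := Nat.cast_ne_zero.2 hp.ne_zero
  have hm : (Function.mulSupport fun w : FinitePlace K => w p).Finite :=
    FinitePlace.hasFiniteMulSupport p0
  have e := FinitePlace.prod_eq_inv_abs_norm p0
  rw [finprod_eq_prod_of_mulSupport_subset _ (s := s ∪ hm.toFinset) (by simp),
    show Algebra.norm ℚ (p : K) = p ^ Module.finrank ℚ K by
      rw [← map_natCast (algebraMap ℚ K), Algebra.norm_algebraMap]] at e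
  have e' := congrArg Real.log e
  rw [Real.log_prod fun w _ => (FinitePlace.pos_iff.2 p0).ne'] at e'
  have le : ∀ w : FinitePlace K, w p ≤ 1 := fun w =>
    IsNonarchimedean.apply_natCast_le_one (f := w.1) w.add_le
  refine (sum_le_sum_of_subset_of_nonneg (subset_union_left (s₂ := hm.toFinset)) fun w _ _ =>
    neg_nonneg.2 (Real.log_nonpos (apply_nonneg _ _) (le w))).trans_eq ?_
  rw [sum_neg_distrib, e']
  simp

theorem height_dec {ι κ : Type} [Fintype ι] [Fintype κ] {τ : ι → ℂ} {τ' : κ → ℂ} {c : ι → κ → ℤ}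
    (h : ∀ i, 0 < (τ i).im) (h' : ∀ j, 0 < (τ' j).im)
    (hne : ∀ i j, Fi (τ i) - Fi (τ' j) ∉ L15.lattice)
    (hc : ∀ i, ∑ j, c i j = 0) (hc' : ∀ j, ∑ i, c i j = 0)
    (ha : ∀ i, pt (τ i) ∈ Alg W15) (ha' : ∀ j, pt (τ' j) ∈ Alg W15)
    (hG : ∀ s : ℂ ≃+* ℂ,
      ∑ i, ∑ j, (c i j : ℝ) * lamArch (pmap (s : ℂ →+* ℂ) (pt (τ i) - pt (τ' j))) =
      ∑ i, ∑ j, (c i j : ℝ) * lamArch (pt (τ i) - pt (τ' j)))
    {p : ℕ} (hp : p.Prime) {B : ℝ} (hB0 : 0 ≤ B) (hB : LocB p τ τ' c B) :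
    ∃ ρ : ℚ, |(ρ : ℝ)| ≤ B ∧ ∑ i, ∑ j, (c i j : ℝ) * hpair (pt (τ i)) (pt (τ' j)) -
      2 * ∑ i, ∑ j, (c i j : ℝ) * lam15 (Fi (τ i) - Fi (τ' j)) - ρ * Real.log p ∈ LogS p := by
  obtain ⟨H, hH, -, h1⟩ := exists_field (S := Set.range (fun i => pt (τ i)) ∪
    Set.range fun j => pt (τ' j)) (Set.toFinite _)
    (by rintro _ (⟨i, rfl⟩ | ⟨j, rfl⟩); exacts [ha i, ha' j]) Set.finite_empty (by simp)
  have : NumberField H := {}
  have : Countable H := (Module.finBasis ℚ H).equivFun.toEquiv.countable_iff.mpr inferInstance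
  choose P hP using fun i => h1 (pt (τ i)) (.inl ⟨i, rfl⟩)
  choose Q hQ using fun j => h1 (pt (τ' j)) (.inr ⟨j, rfl⟩)
  have na : ∀ w : FinitePlace H, IsNonarchimedean w.1 := fun w => w.add_le
  have h15 : (Function.mulSupport fun w : FinitePlace H => w 15).Finite :=
    FinitePlace.hasFiniteMulSupport (by norm_num)
  have hS : ∀ w ∉ h15.toFinset, ∀ R, lamF w.1 R = Real.log (max 1 (w (xco R))) := fun w hw R => by
    have h2 : w.1 3 * w.1 5 = 1 := by
      rw [← map_mul, show (3 * 5 : H) = 15 by norm_num]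
      exact not_not.mp (mt h15.mem_toFinset.mpr hw)
    have h3 := na_nat (na w) 3
    have h5 := na_nat (na w) 5
    rw [lamF, if_neg fun h => by nlinarith [w.1.nonneg 3, w.1.nonneg 5],
      if_neg fun h => by nlinarith [w.1.nonneg 3, w.1.nonneg 5]]
    rfl
  have hF : (⋃ i, ⋃ j, Function.support fun w : FinitePlace H => lamF w.1 (P i - Q j)).Finite :=
    Set.finite_iUnion fun i => Set.finite_iUnion fun j =>
      (h15.union (finite_log_max (xco (P i - Q j)))).subset fun w hw => by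
        by_cases hw' : w ∈ h15.toFinset
        · exact .inl (by simpa using hw')
        · exact .inr (by rwa [Function.mem_support, ← hS w hw'])
  choose pr p1 p2 p3 using exists_prime_below (K := H)
  have hd : (0 : ℝ) < Module.finrank ℚ H := by exact_mod_cast Module.finrank_pos
  have h2 : ∑ i, ∑ j, (c i j : ℝ) * hhat (pt (τ i) - pt (τ' j)) =
      -∑ i, ∑ j, (c i j : ℝ) * hpair (pt (τ i)) (pt (τ' j)) := by
    have k1 : ∑ i, ∑ j, (c i j : ℝ) * hhat (pt (τ i)) = 0 := sum_eq_zero fun i _ => by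
      rw [← sum_mul, ← Int.cast_sum, hc, Int.cast_zero, zero_mul]
    have k2 : ∑ i, ∑ j, (c i j : ℝ) * hhat (pt (τ' j)) = 0 := by
      rw [sum_comm]
      exact sum_eq_zero fun j _ => by rw [← sum_mul, ← Int.cast_sum, hc', Int.cast_zero, zero_mul]
    simp only [hhat_sub (ha _) (ha' _), mul_sub, mul_add, sum_sub_distrib, sum_add_distrib, k1, k2,
      add_zero, zero_sub]
  have h3 : ∀ φ : H →+* ℂ, ∑ i, ∑ j, (c i j : ℝ) * lamArch (pmap φ (P i - Q j)) =
      -2 * ∑ i, ∑ j, (c i j : ℝ) * lam15 (Fi (τ i) - Fi (τ' j)) := fun φ => by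
    obtain ⟨s, hs⟩ := Gal.exists_aut H.val.toRingHom φ (RingHom.injective _) φ.injective
    rw [show φ = (s : ℂ →+* ℂ).comp H.val.toRingHom from RingHom.ext fun x => (hs x).symm]
    simp only [← pmap_pmap, map_sub (pmap H.val.toRingHom), hP, hQ, hG, mul_sum]
    refine sum_congr rfl fun i _ => sum_congr rfl fun j _ => ?_
    rw [pt_eq_u15 (h i), pt_eq_u15 (h' j), ← map_sub, lamArch_u15 (hne i j)]
    ring
  have h4 : ∀ i j, hhat (pt (τ i) - pt (τ' j)) = (∑ φ : H →+* ℂ, lamArch (pmap φ (P i - Q j)) +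
      ∑ w ∈ hF.toFinset, lamF w.1 (P i - Q j)) / Module.finrank ℚ H := fun i j => by
    rw [← hP, ← hQ, ← map_sub, hhat_pmap, hrel_eq_sum neronLocal_lamArch
      (fun w => neronLocal_lamF (na w)) hS, finsum_eq_sum_of_support_subset _ (s := hF.toFinset)
        fun w hw => by simpa using ⟨i, j, hw⟩]
  have h5 : ∀ {α : Type} (s : Finset α) (F : α → ι → κ → ℝ), ∑ i, ∑ j, (c i j : ℝ) *
      ∑ a ∈ s, F a i j = ∑ a ∈ s, ∑ i, ∑ j, (c i j : ℝ) * F a i j := fun s F => by
    simp only [mul_sum]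
    rw [sum_congr rfl fun i _ => sum_comm, sum_comm]
  simp only [h4, ← mul_div_assoc, ← sum_div, mul_add, sum_add_distrib, h5, h3] at h2
  rw [sum_const, card_univ, Embeddings.card H ℂ, nsmul_eq_mul, div_eq_iff hd.ne'] at h2
  have h6 : ∀ w : FinitePlace H, ∃ q : ℚ,
      ∑ i, ∑ j, (c i j : ℝ) * lamF w.1 (P i - Q j) = q * Real.log (pr w) := fun w => by
    choose q hq using fun i j => logQ_lamF (na w) (p1 w) (p3 w) (P i - Q j)
    refine ⟨∑ i, ∑ j, c i j * q i j, ?_⟩
    simp only [hq, Rat.cast_sum, Rat.cast_mul, Rat.cast_intCast, sum_mul, mul_assoc]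
  choose q hq using h6
  have lp : 0 < Real.log p := Real.log_pos (by exact_mod_cast hp.one_lt)
  have h7 : ∀ w, pr w = p → |(q w : ℝ)| * Real.log p ≤ B * -Real.log (w p) := fun w e => by
    obtain ⟨A, hA⟩ := exists_valuation (na w) H.val.toRingHom
    have k := hB H w.1 H.val.toRingHom A P Q ⟨na w, hA, e ▸ p2 w⟩ hP hQ
    rwa [hq, e, abs_mul, abs_of_pos lp] at k
  refine ⟨-(∑ w ∈ hF.toFinset with pr w = p, q w) / Module.finrank ℚ H, ?_, ?_⟩
  · push_cast
    rw [abs_div, abs_neg, abs_of_pos hd, div_le_iff₀ hd, ← mul_le_mul_iff_left₀ lp]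
    refine (mul_le_mul_of_nonneg_right (abs_sum_le_sum_abs _ _) lp.le).trans ?_
    rw [sum_mul, mul_assoc]
    refine (sum_le_sum fun w hw => h7 w (mem_filter.1 hw).2).trans ?_
    rw [← mul_sum]
    exact mul_le_mul_of_nonneg_left (fpd_sum hp _) hB0
  · refine neg_mem_iff.mp (LogS.of_mul (r := Module.finrank ℚ H) (by exact_mod_cast hd.ne') ?_)
    simp only [hq] at h2
    have e : ∑ w ∈ hF.toFinset with pr w = p, (q w : ℝ) * Real.log (pr w) =
        (∑ w ∈ hF.toFinset with pr w = p, (q w : ℝ)) * Real.log p := by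
      rw [sum_mul]
      exact sum_congr rfl fun w hw => by rw [(mem_filter.1 hw).2]
    rw [← sum_filter_add_sum_filter_not _ (pr · = p), e] at h2
    have k := (LogS p).sum_mem (t := hF.toFinset.filter (¬ pr · = p)) fun w hw =>
      LogS.rat_mul (q w) (log_prime_mem (p1 w) (mem_filter.1 hw).2)
    refine (congrArg (· ∈ LogS p) ?_).mp k
    push_cast
    field_simp
    linear_combination h2

end Pool.Agent.Dih
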