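import Pool.Agent.Lib.MP_60ff09_nt.Dih.FP0

/-! Ordinary points with different conductors are not congruent. -/

set_option autoImplicit false

open Complex Finset NumberTheorySymbols
open scoped Real ComplexConjugate Classical
open Pool.Agent.Lib.MP_696deb_nt Pool.Agent.Lib.MP_696deb_nt.B2.CM Pool.Agent.Lib.MP_696deb_nt.Unif

namespace Pool.Agent.Dih

variable {l p : ℕ} {D : ℤ} {Q R : Fm} {τ τ' : ℂ} {g : MZ}

theorem rt_froot (hD : fdisc Q < 0) (hQ : 0 < Q.1) : Rt Q (froot Q) := by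
  exact froot_root hD hQ

theorem Rt.isCM (h : Rt Q τ) (hτ : 0 < τ.im) (hD : fdisc Q < 0) : IsCM (fdisc Q) τ := by
  exact isCM_of_form hτ hD h

theorem Rt.act (h : Rt Q τ) (hτ : 0 < τ.im) (hg : g.det ≠ 0) :
    Rt (fmap Q (g 1 1) (-g 0 1) (-g 1 0) (g 0 0)) (act g τ) := by
  have h0 := den_ne' hg hτ
  rw [den] at h0
  rw [Rt] at h
  simp only [Rt, fmap, fval, Lib.MP_696deb_nt.act, mob]
  push_cast
  field_simp
  linear_combination (g 0 0 * g 1 1 - g 0 1 * g 1 0) ^ 2 * h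

theorem Prm.fmap (h : Prm p Q) (hp : p.Prime) {a b c d : ℤ} (hg : ¬ (p : ℤ) ∣ a * d - b * c) :
    Prm p (fmap Q a b c d) := by
  rintro ⟨⟨x, hx⟩, ⟨y, hy⟩, z, hz⟩
  simp only [Lib.MP_696deb_nt.fmap, fval] at hx hy hz
  have k : ∀ t : ℤ, (p : ℤ) ∣ (a * d - b * c) ^ 2 * t → (p : ℤ) ∣ t := fun t ht =>
    ((Nat.prime_iff_prime_int.1 hp).dvd_or_dvd ht).resolve_left fun e =>
      hg ((Nat.prime_iff_prime_int.1 hp).dvd_of_dvd_pow e)
  exact h ⟨k _ ⟨x * d ^ 2 - y * d * c + z * c ^ 2, by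
      linear_combination d ^ 2 * hx - d * c * hy + c ^ 2 * hz⟩,
    k _ ⟨-2 * x * d * b + y * (d * a + b * c) - 2 * z * c * a, by
      linear_combination -2 * d * b * hx + (d * a + b * c) * hy - 2 * c * a * hz⟩,
    k _ ⟨x * b ^ 2 - y * b * a + z * a ^ 2, by
      linear_combination b ^ 2 * hx - b * a * hy + a ^ 2 * hz⟩⟩

theorem exists_SL_of_jf (hτ : 0 < τ.im) (hτ' : 0 < τ'.im) (h : jf τ = jf τ') :
    ∃ g : MZ, g.det = 1 ∧ act g τ = τ' := by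
  obtain ⟨a, ha, e⟩ := jL_inj (isLat_sp2 hτ.ne') (isLat_sp2 hτ'.ne')
    (by rw [jL_tau hτ, jL_tau hτ', h])
  rw [sc_sp2] at e
  obtain ⟨p, q, e1⟩ := mem_sp2.1 (e.le (left_mem_sp2 _ _))
  obtain ⟨r, s, e2⟩ := mem_sp2.1 (e.le (right_mem_sp2 _ _))
  obtain ⟨p', q', e3⟩ := mem_sp2.1 (e.ge (left_mem_sp2 _ _))
  obtain ⟨r', s', e4⟩ := mem_sp2.1 (e.ge (right_mem_sp2 _ _))
  obtain ⟨a1, a2⟩ := tau_indep hτ'.ne' (x := p * p' + q * r' - 1) (y := p * q' + q * s')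
    (by push_cast; linear_combination -e1 - p * e3 - q * e4)
  obtain ⟨a3, a4⟩ := tau_indep hτ'.ne' (x := r * p' + s * r') (y := r * q' + s * s' - 1)
    (by push_cast; linear_combination -e2 - r * e3 - s * e4)
  have e5 : mob p q r s τ = τ' := by
    rw [mob, div_eq_iff fun e0 => one_ne_zero (α := ℂ) (by linear_combination e2 + a * e0)]
    refine mul_left_cancel₀ ha ?_
    linear_combination τ' * e2 - e1
  have e6 : (p * s - q * r) * (p' * s' - q' * r') = 1 := by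
    linear_combination (r * q' + s * s') * a1 + a4 - (r * p' + s * r') * a2
  refine ⟨!![p, q; r, s], ?_, e5⟩
  rw [Matrix.det_fin_two_of]
  refine (Int.eq_one_or_neg_one_of_mul_eq_one e6).resolve_right fun e7 => ?_
  rw [← e5, im_mob, e7] at hτ'
  refine hτ'.not_ge (div_nonpos_of_nonpos_of_nonneg ?_ (sq_nonneg _))
  simpa using hτ.le

theorem fpe_disc (Q : Fm) (g : MZ) :
    fdisc (fmap Q (g 1 1) (-g 0 1) (-g 1 0) (g 0 0)) = fdisc Q * g.det ^ 2 := by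
  simp only [fdisc, fmap, fval, Matrix.det_fin_two]
  ring

theorem Yv.act (h : Yv l D τ) (hl : l.Prime) (hg : 0 < g.det) (hc : ¬ (l : ℤ) ∣ g.det) :
    Yv l D (act g τ) := by
  obtain ⟨hτ, Q, k, h1, h2, h3⟩ := h
  refine ⟨act_pos hg hτ, _, k * g.det, h1.act hτ hg.ne', by rw [fpe_disc, h2]; ring, fun e => ?_⟩
  exact ((Nat.prime_iff_prime_int.1 hl).dvd_or_dvd e).elim h3 hc

theorem Zv.act (h : Zv l D τ) (hl : l.Prime) (hg : 0 < g.det) (hc : ¬ (l : ℤ) ∣ g.det) :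
    Zv l D (act g τ) := by
  obtain ⟨k, hk, hτ, Q, h1, h2, h3⟩ := h
  refine ⟨k * g.det, mul_ne_zero hk hg.ne', act_pos hg hτ, _, h1.act hτ hg.ne',
    by rw [fpe_disc, h2]; ring, h3.fmap hl ?_⟩
  rwa [Matrix.det_fin_two, mul_comm (g 0 0), ← neg_mul_neg (g 0 1)] at hc

theorem Yv.isCM (h : Yv l D τ) (hD : D < 0) : ∃ D', IsCM D' τ := by
  obtain ⟨hτ, Q, k, h1, h2, h3⟩ := h
  have k0 : k ≠ 0 := fun e => h3 (e ▸ dvd_zero _)
  exact ⟨_, h1.isCM hτ (h2 ▸ mul_neg_of_neg_of_pos hD (by positivity))⟩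

theorem Zv.isCM (h : Zv l D τ) (hl : l.Prime) (hD : D < 0) : ∃ D', IsCM D' τ := by
  obtain ⟨k, hk, hτ, Q, h1, h2, -⟩ := h
  have := hl.ne_zero
  exact ⟨_, h1.isCM hτ (h2 ▸ mul_neg_of_neg_of_pos hD (by positivity))⟩

theorem Yv.jf_ne (h : Yv l D τ) (h' : Zv l D τ') (hl : l.Prime) (hD : D < 0) : jf τ ≠ jf τ' := by
  intro e
  obtain ⟨k', k0, hτ, R, b1, b2, b3⟩ := h'
  obtain ⟨g, hg, rfl⟩ := exists_SL_of_jf h.1 hτ e
  have hp := Nat.prime_iff_prime_int.1 hl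
  obtain ⟨-, Q, k, a1, a2, a3⟩ := h.act (g := g) hl (by omega) (hg ▸ hp.not_dvd_one)
  generalize Lib.MP_696deb_nt.act g τ = σ at hτ a1 b1
  obtain ⟨a, b, c⟩ := Q
  obtain ⟨x, y, z⟩ := R
  simp only [Rt, fdisc, Prm] at a1 a2 b1 b2 b3
  obtain ⟨c1, c2⟩ := tau_indep hτ.ne' (x := a * y - x * b) (y := a * z - x * c)
    (by push_cast; linear_combination a * b1 - x * a1)
  have a0 : a ≠ 0 := by
    rintro rfl
    have k1 : k ≠ 0 := fun e => a3 (e ▸ dvd_zero _)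
    nlinarith [sq_nonneg b, mul_neg_of_neg_of_pos hD (sq_pos_of_ne_zero k1)]
  have c3 : (x * k) ^ 2 = (a * (l * k')) ^ 2 := mul_left_cancel₀ hD.ne (by
    linear_combination a ^ 2 * b2 - x ^ 2 * a2 - (a * y + x * b) * c1 + 4 * a * x * c2)
  obtain ⟨u, hu⟩ : ∃ u : ℤ, x * k = a * (l * u) := by
    rcases sq_eq_sq_iff_eq_or_eq_neg.1 c3 with e1 | e1
    exacts [⟨k', e1⟩, ⟨-k', by rw [e1]; ring⟩]
  have d : ∀ t : ℤ, (l : ℤ) ∣ t * k → (l : ℤ) ∣ t := fun t ht =>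
    (hp.dvd_or_dvd ht).resolve_right a3
  exact b3 ⟨d _ ⟨a * u, by rw [hu]; ring⟩,
    d _ ⟨b * u, mul_left_cancel₀ a0 (by linear_combination k * c1 + b * hu)⟩,
    d _ ⟨c * u, mul_left_cancel₀ a0 (by linear_combination k * c2 + c * hu)⟩⟩

theorem Yv.val_sub {Γ : Type*} [LinearOrderedCommGroupWithZero Γ] {V : Valuation ℂ Γ}
    (h : Yv l D τ) (h' : Zv l D τ') (hl : l.Prime) (hD : D < 0) (hp : p.Prime) (hV : V p < 1)
    (hne : p ≠ l) (ho : Ord V p τ) : V (jf τ - jf τ') = 1 := by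
  obtain ⟨D1, h1⟩ := h.isCM hD
  obtain ⟨D2, h2⟩ := h'.isCM hl hD
  refine (V.map_sub_le (h1.val_jf V) (h2.val_jf V)).eq_of_not_lt fun hlt => ?_
  obtain ⟨m, t, a1, a2, -, a4⟩ := h1.exists_fix hp
  obtain ⟨m', t', b1, b2, -, b4⟩ := h2.exists_fix hp
  have hm : (0 : ℤ) < m := by
    exact_mod_cast Nat.pos_of_ne_zero (by rintro rfl; exact a1 ⟨0, rfl⟩)
  have hm' : (0 : ℤ) < m' := by
    exact_mod_cast Nat.pos_of_ne_zero (by rintro rfl; exact b1 ⟨0, rfl⟩)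
  obtain ⟨_, ⟨σ, σ', ⟨i, hi⟩, ⟨i', hi'⟩, c1, c2, c3, c4, c5, rfl⟩, hmin⟩ := Set.exists_min_image
    {q : ℂ × ℂ | ∃ σ σ', Ord V p σ ∧ Ord V p σ' ∧ Fix m t σ ∧ Fix m' t' σ' ∧
      V (jf σ - jf σ') < 1 ∧ Yv l D σ ∧ Zv l D σ' ∧ q = (jf σ, jf σ')} (fun q => V (q.1 - q.2))
    (((finite_jf_fixed a1).prod (finite_jf_fixed b1)).subset (by
      rintro _ ⟨σ, σ', c1, c2, ⟨M, c3, -, c4⟩, ⟨M', c5, -, c6⟩, -, -, -, rfl⟩
      exact ⟨⟨σ, c1.pos, rfl, M, c3, c4⟩, σ', c2.pos, rfl, M', c5, c6⟩))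
    ⟨_, τ, τ', ho, ho.of_congr hp hV h2.1 (h2.val_jf V) hlt, a4, b4, hlt, h, h', rfl⟩
  have := hi.contract hp hV hi' c3 (c4.jf_ne c5 hl hD)
  have hd := (isReps_rP hp).det
  have hc : ∀ j, ¬ (l : ℤ) ∣ (rP p j).det := fun j e => by
    rw [hd j, Int.natCast_dvd_natCast, Nat.prime_dvd_prime_iff_eq hl hp] at e
    exact hne e.symm
  exact absurd this (hmin _ ⟨_, _, Ord.act_prime hp hV ⟨i, hi⟩ (hd i),
    Ord.act_prime hp hV ⟨i', hi'⟩ (hd i'), hi.fix hp hV hm a2 c1, hi'.fix hp hV hm' b2 c2,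
    this.trans c3, c4.act hl (rP_pos hp i) (hc i), c5.act hl (rP_pos hp i') (hc i'), rfl⟩).not_gt

end Pool.Agent.Dih
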