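import Pool.Agent.Lib.MP_60ff09_nt.Dih.FPe

/-! The valuations of the quotients of discriminants along the tree of isogenies. -/

set_option autoImplicit false

open Complex Finset NumberTheorySymbols
open scoped Real ComplexConjugate Classical
open Pool.Agent.Lib.MP_696deb_nt Pool.Agent.Lib.MP_696deb_nt.B2.CM Pool.Agent.Lib.MP_696deb_nt.Unif

namespace Pool.Agent.Dih

variable {Γ : Type*} [LinearOrderedCommGroupWithZero Γ] {V : Valuation ℂ Γ} {P : ℕ} {D : ℤ}
  {Q : Fm} {τ : ℂ}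

private theorem fpf_key (hP : P.Prime) (hV : V P < 1) (hτ : 0 < τ.im) (hj : V (jf τ) ≤ 1)
    {g N : MZ} {i k : Option (Fin P)} (hg : act g τ = τ) (h0 : 0 < g.det)
    (hc : ¬ (P : ℤ) ∣ g.det) (h1 : rP P i * g = N * rP P k) :
    V (ph P i τ) = V (ph P k τ) := by
  have hd := (isReps_rP hP).det
  have hp0 : (P : ℤ) ≠ 0 := by exact_mod_cast hP.ne_zero
  have h2 : N.det = g.det := by
    have := congr_arg Matrix.det h1
    rw [Matrix.det_mul, Matrix.det_mul, hd, hd, mul_comm] at this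
    exact (mul_right_cancel₀ hp0 this).symm
  have h5 := val_int_eq_one hP hV hc
  have h3 := phi_mul (rP P i) h0 hτ
  rw [h1, phi_mul _ (rP_pos hP k) hτ, hg] at h3
  replace h3 := congr_arg V h3
  rw [map_mul, map_mul, val_phi_eq_one (h2 ▸ h0) (act_pos (rP_pos hP k) hτ)
    (val_isog (rP_pos hP k) hτ hj).2 (h2 ▸ h5), one_mul,
    val_phi_eq_one h0 hτ hj h5, mul_one] at h3
  exact h3.symm

private theorem fpf_pos (hD : fdisc Q < 0) (i : Option (Fin P)) : 0 < Q.1 * ev P Q i := by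
  obtain ⟨a, b, c⟩ := Q
  simp only [fdisc] at hD
  have ha : a ≠ 0 := by
    rintro rfl
    nlinarith [sq_nonneg b]
  rcases i with _ | k
  · exact mul_self_pos.mpr ha
  · simp only [ev, fval]
    nlinarith [sq_nonneg (b - 2 * a * (k : ℕ))]

private theorem fpf_pos2 (hD : fdisc Q < 0) (i k : Option (Fin P)) :
    0 < ev P Q i * ev P Q k := by
  have h1 := fpf_pos hD i
  have h2 := fpf_pos hD k
  have h3 := mul_pos h1 h2
  rw [show Q.1 * ev P Q i * (Q.1 * ev P Q k) = Q.1 ^ 2 * (ev P Q i * ev P Q k) by ring] at h3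
  exact pos_of_mul_pos_left (by rwa [mul_comm] at h3) (sq_nonneg Q.1)

private theorem fpf_ns (hP : P.Prime) (hV : V P < 1) (hτ : 0 < τ.im) (h : Rt Q τ)
    (hD : fdisc Q < 0) {k : Fin P} (hi : ¬ (P : ℤ) ∣ ev P Q none)
    (hk : ¬ (P : ℤ) ∣ ev P Q (some k)) : V (ph P none τ) = V (ph P (some k) τ) := by
  have hj := (h.isCM hτ hD).val_jf V
  have h0 := fpf_pos2 hD none (some k)
  have hc : ¬ (P : ℤ) ∣ ev P Q none * ev P Q (some k) := fun e =>
    ((Nat.prime_iff_prime_int.mp hP).dvd_or_dvd e).elim hi hk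
  obtain ⟨a, b, c⟩ := Q
  have e : (!![b - a * (k : ℕ), c; -a, -a * (k : ℕ)] : MZ).det =
      ev P (a, b, c) none * ev P (a, b, c) (some k) := by
    simp only [Matrix.det_fin_two_of, ev, fval]; ring
  refine fpf_key hP hV hτ hj (g := !![b - a * (k : ℕ), c; -a, -a * (k : ℕ)])
    (N := !![P * (b - a * (k : ℕ)), c - (k : ℕ) * (b - a * (k : ℕ)); -a, 0]) ?_ (e ▸ h0) (e ▸ hc) ?_
  · rw [act_eq_iff (e ▸ h0.ne') hτ]
    simp only [Rt] at h
    simp
    linear_combination -h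
  · ext x y
    fin_cases x <;> fin_cases y <;> simp [rP, ut, Matrix.mul_apply, Fin.sum_univ_two]
    ring

private theorem fpf_ss (hP : P.Prime) (hV : V P < 1) (hτ : 0 < τ.im) (h : Rt Q τ)
    (hD : fdisc Q < 0) {i k : Fin P} (hi : ¬ (P : ℤ) ∣ ev P Q (some i))
    (hk : ¬ (P : ℤ) ∣ ev P Q (some k)) : V (ph P (some i) τ) = V (ph P (some k) τ) := by
  have hj := (h.isCM hτ hD).val_jf V
  have h0 := fpf_pos2 hD (some i) (some k)
  have hc : ¬ (P : ℤ) ∣ ev P Q (some i) * ev P Q (some k) := fun e =>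
    ((Nat.prime_iff_prime_int.mp hP).dvd_or_dvd e).elim hi hk
  obtain ⟨a, b, c⟩ := Q
  obtain ⟨s, hs⟩ : ∃ s : ℤ, s = c - (i : ℕ) * (b - a * (k : ℕ)) := ⟨_, rfl⟩
  obtain ⟨t, ht⟩ : ∃ t : ℤ, t = (i : ℕ) - (k : ℕ) := ⟨_, rfl⟩
  have e : (!![s, -t * c; t * a, s + t * b] : MZ).det =
      ev P (a, b, c) (some i) * ev P (a, b, c) (some k) := by
    simp only [Matrix.det_fin_two_of, ev, fval, hs, ht]; ring
  refine fpf_key hP hV hτ hj (g := !![s, -t * c; t * a, s + t * b])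
    (N := !![s + (i : ℕ) * t * a, 0; P * t * a, s + t * b - (k : ℕ) * t * a]) ?_ (e ▸ h0)
    (e ▸ hc) ?_
  · rw [act_eq_iff (e ▸ h0.ne') hτ]
    simp only [Rt] at h
    simp
    linear_combination t * h
  · ext x y
    fin_cases x <;> fin_cases y <;> simp [rP, ut, Matrix.mul_apply, Fin.sum_univ_two]
    · ring
    · rw [hs, ht]; ring
    · ring
    · ring

private theorem fpf_root (hP : P.Prime) (a b c : ZMod P) (ha : a ≠ 0)
    (h : b ^ 2 - 4 * a * c = 0) : ∃ r, b = 2 * a * r ∧ c = a * r ^ 2 := by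
  have := Fact.mk hP
  by_cases h2 : P = 2
  · subst h2
    revert a b c
    decide
  · have h3 : (2 : ZMod P) ≠ 0 := by
      intro e
      have : ((2 : ℕ) : ZMod P) = 0 := by exact_mod_cast e
      rw [ZMod.natCast_eq_zero_iff] at this
      exact h2 ((Nat.prime_dvd_prime_iff_eq hP Nat.prime_two).mp this)
    refine ⟨b / (2 * a), by field_simp, ?_⟩
    field_simp
    linear_combination -h

private theorem fpf_four (hP : P.Prime) (h4 : D % 4 = 0 ∨ D % 4 = 1) {b u : ℤ}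
    (h : 4 * u = P * (b ^ 2 - D)) : (P : ℤ) ∣ u := by
  by_cases h2 : P = 2
  · subst h2
    push_cast at h ⊢
    obtain ⟨t, rfl | rfl⟩ := Int.even_or_odd' b
    · have : (2 * t) ^ 2 = 4 * t ^ 2 := by ring
      rw [this] at h
      generalize t ^ 2 = w at h
      omega
    · have : (2 * t + 1) ^ 2 = 4 * (t ^ 2 + t) + 1 := by ring
      rw [this] at h
      generalize t ^ 2 + t = w at h
      omega
  · have hp := Nat.prime_iff_prime_int.mp hP
    refine (hp.dvd_or_dvd (⟨_, h⟩ : (P : ℤ) ∣ 4 * u)).resolve_left fun e => h2 ?_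
    have e2 : (P : ℤ) ∣ 2 := hp.dvd_of_dvd_pow (n := 2) (by simpa using e)
    have e3 : P ∣ 2 := by exact_mod_cast e2
    exact (Nat.prime_dvd_prime_iff_eq hP Nat.prime_two).mp e3

/-- Two isogenies whose kernels are not zeros of the form have the same valuation. -/
theorem val_ph_eq (hP : P.Prime) (hV : V P < 1) (hτ : 0 < τ.im) (h : Rt Q τ) (hD : fdisc Q < 0)
    {i k : Option (Fin P)} (hi : ¬ (P : ℤ) ∣ ev P Q i) (hk : ¬ (P : ℤ) ∣ ev P Q k) :
    V (ph P i τ) = V (ph P k τ) := by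
  rcases i with _ | i <;> rcases k with _ | k
  · rfl
  · exact fpf_ns hP hV hτ h hD hi hk
  · exact (fpf_ns hP hV hτ h hD hk hi).symm
  · exact fpf_ss hP hV hτ h hD hi hk

theorem exists_back (hP : P.Prime) (h : Prm P Q) (hD : (P : ℤ) ∣ fdisc Q) :
    ∃ i, ∀ k, (P : ℤ) ∣ ev P Q k ↔ k = i := by
  obtain ⟨a, b, c⟩ := Q
  have hp := Nat.prime_iff_prime_int.mp hP
  simp only [Prm, fdisc] at h hD
  by_cases ha : (P : ℤ) ∣ a
  · have hb : (P : ℤ) ∣ b := hp.dvd_of_dvd_pow (n := 2) (by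
      simpa using dvd_add hD ((ha.mul_left 4).mul_right c))
    refine ⟨none, ?_⟩
    rintro (_ | k)
    · simpa [ev] using ha
    · refine iff_of_false (fun e => h ⟨ha, hb, ?_⟩) (by simp)
      simp only [ev, fval] at e
      have := dvd_sub e (dvd_add (ha.mul_right ((-((k : ℕ) : ℤ)) ^ 2))
        ((hb.mul_right (-((k : ℕ) : ℤ))).mul_right 1))
      simpa using this
  · have := Fact.mk hP
    have ha' : (a : ZMod P) ≠ 0 := by rwa [Ne, ZMod.intCast_zmod_eq_zero_iff_dvd]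
    rw [← ZMod.intCast_zmod_eq_zero_iff_dvd] at hD
    push_cast at hD
    obtain ⟨r, r1, r2⟩ := fpf_root hP _ _ _ ha' hD
    refine ⟨some ⟨r.val, r.val_lt⟩, ?_⟩
    rintro (_ | k)
    · exact iff_of_false ha (by simp)
    · have e : ((ev P (a, b, c) (some k) : ℤ) : ZMod P) = a * (((k : ℕ) : ZMod P) - r) ^ 2 := by
        simp only [ev, fval]
        push_cast
        rw [r1, r2]
        ring
      rw [← ZMod.intCast_zmod_eq_zero_iff_dvd, e, mul_eq_zero, or_iff_right ha',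
        pow_eq_zero_iff two_ne_zero, sub_eq_zero, Option.some_inj, Fin.ext_iff]
      constructor
      · rintro rfl
        exact (ZMod.val_cast_of_lt k.2).symm
      · intro e
        rw [e]
        exact ZMod.natCast_zmod_val r

theorem not_dvd_ev (h : ∀ b k : ℤ, b ^ 2 - fdisc Q ≠ 4 * P * k) (i : Option (Fin P)) :
    ¬ (P : ℤ) ∣ ev P Q i := by
  obtain ⟨a, b, c⟩ := Q
  rcases i with _ | k
  · rintro ⟨u, hu⟩
    simp only [ev] at hu
    refine h b (u * c) ?_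
    simp only [fdisc]
    linear_combination 4 * c * hu
  · rintro ⟨u, hu⟩
    simp only [ev, fval] at hu
    refine h (b - 2 * a * (k : ℕ)) (a * u) ?_
    simp only [fdisc]
    linear_combination 4 * a * hu

theorem val_ph_ram (hP : P.Prime) (hV : V P < 1) (hτ : 0 < τ.im) (h : Rt Q τ) (hD : fdisc Q < 0)
    (h4 : fdisc Q % 4 = 1) (h1 : (P : ℤ) ∣ fdisc Q) (h2 : ¬ (P : ℤ) ^ 2 ∣ fdisc Q)
    {i : Option (Fin P)} (hi : (P : ℤ) ∣ ev P Q i) : V (ph P i τ) ^ 2 = V P ^ 12 := by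
  have hj := (h.isCM hτ hD).val_jf V
  have hp := Nat.prime_iff_prime_int.mp hP
  have hp0 : (P : ℤ) ≠ 0 := by exact_mod_cast hP.ne_zero
  obtain ⟨a, b, c⟩ := Q
  simp only [fdisc, Rt] at h hD h1 h2
  have hS : (!![-b, -(2 * c); 2 * a, b] : MZ).det = -(b ^ 2 - 4 * a * c) := by
    rw [Matrix.det_fin_two_of]; ring
  have hS0 : 0 < (!![-b, -(2 * c); 2 * a, b] : MZ).det := by rw [hS]; omega
  obtain ⟨N, hN⟩ : ∃ N : MZ, !![-b, -(2 * c); 2 * a, b] = N * rP P i := by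
    rcases i with _ | k
    · simp only [ev] at hi
      obtain ⟨v, hv⟩ : (P : ℤ) ∣ b := hp.dvd_of_dvd_pow (n := 2) (by
        simpa using dvd_add h1 ((hi.mul_left 4).mul_right c))
      obtain ⟨u, hu⟩ := hi
      refine ⟨!![-v, -(2 * c); 2 * u, b], ?_⟩
      ext x y
      fin_cases x <;> fin_cases y <;> simp [rP, ut, Matrix.mul_apply, Fin.sum_univ_two]
      · linear_combination hv
      · linear_combination 2 * hu
    · simp only [ev, fval] at hi
      obtain ⟨v, hv⟩ : (P : ℤ) ∣ b - 2 * a * (k : ℕ) := hp.dvd_of_dvd_pow (n := 2) (by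
        convert dvd_add h1 (hi.mul_left (4 * a)) using 1
        ring)
      obtain ⟨u, hu⟩ := hi
      refine ⟨!![-b, -(2 * u) - (k : ℕ) * v; 2 * a, v], ?_⟩
      ext x y
      fin_cases x <;> fin_cases y <;> simp [rP, ut, Matrix.mul_apply, Fin.sum_univ_two]
      · linear_combination -2 * hu - ((k : ℕ) : ℤ) * hv
      · linear_combination hv
  obtain ⟨e, he⟩ := h1
  have hN1 : N.det = -e := by
    have := congr_arg Matrix.det hN
    rw [hS, Matrix.det_mul, (isReps_rP hP).det, he] at this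
    exact mul_right_cancel₀ hp0 (by linear_combination -this)
  have he1 : ¬ (P : ℤ) ∣ e := fun ⟨f, hf⟩ => h2 ⟨f, by rw [he, hf]; ring⟩
  have hN0 : 0 < N.det := by
    rw [hN, Matrix.det_mul] at hS0
    exact pos_of_mul_pos_left hS0 (rP_pos hP i).le
  have hF : act !![-b, -(2 * c); 2 * a, b] τ = τ := by
    rw [act_eq_iff hS0.ne' hτ]
    simp
    linear_combination 2 * h
  have h5 : phiJ !![-b, -(2 * c); 2 * a, b] τ = ((P : ℂ) * e) ^ 6 := by
    have hd := den_ne' hS0.ne' hτ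
    have he' : (b : ℂ) ^ 2 - 4 * a * c = P * e := by exact_mod_cast he
    have hd2 : den !![-b, -(2 * c); 2 * a, b] τ ^ 2 = P * e := by
      simp [den]
      linear_combination 4 * a * h + he'
    rw [phi_of_fixed hτ hF, hS, he, ← hd2]
    have : ((-((P : ℤ) * e) : ℤ) : ℂ) = -den !![-b, -(2 * c); 2 * a, b] τ ^ 2 := by
      rw [hd2]; push_cast; ring
    rw [this]
    field_simp
  rw [hN, phi_mul _ (rP_pos hP i) hτ] at h5
  replace h5 := congr_arg V h5
  rw [map_mul, val_phi_eq_one hN0 (act_pos (rP_pos hP i) hτ) (val_isog (rP_pos hP i) hτ hj).2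
    (val_int_eq_one hP hV (by rwa [hN1, dvd_neg])), one_mul, map_pow, map_mul,
    val_int_eq_one hP hV he1, mul_one] at h5
  rw [ph, h5, ← pow_mul]

/-- One step towards the root of the tree. -/
theorem exists_down (hP : P.Prime) (hτ : 0 < τ.im) (h : Rt Q τ) (h1 : Prm P Q)
    (hD : fdisc Q = D * P ^ 2) (h4 : D % 4 = 0 ∨ D % 4 = 1) {i : Option (Fin P)}
    (hi : (P : ℤ) ∣ ev P Q i) : ∃ (R : Fm) (k : Option (Fin P)), Rt R (act (rP P i) τ) ∧
      fdisc R = D ∧ Prm P R ∧ ¬ (P : ℤ) ∣ ev P R k ∧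
      ph P k (act (rP P i) τ) * ph P i τ = P ^ 12 := by
  have hp := Nat.prime_iff_prime_int.mp hP
  have hp0 : (P : ℤ) ≠ 0 := by exact_mod_cast hP.ne_zero
  have hp1 : (P : ℂ) ≠ 0 := by exact_mod_cast hP.ne_zero
  obtain ⟨a, b, c⟩ := Q
  simp only [fdisc, Rt, Prm] at h h1 hD
  have hD1 : (P : ℤ) ∣ b ^ 2 - 4 * a * c := ⟨D * P, by rw [hD]; ring⟩
  rcases i with _ | k
  · simp only [ev] at hi
    have hb : (P : ℤ) ∣ b := hp.dvd_of_dvd_pow (n := 2) (by
      simpa using dvd_add hD1 ((hi.mul_left 4).mul_right c))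
    have hc : ¬ (P : ℤ) ∣ c := fun e => h1 ⟨hi, hb, e⟩
    obtain ⟨u, rfl⟩ := hi
    obtain ⟨v, rfl⟩ := hb
    obtain ⟨w, rfl⟩ : (P : ℤ) ∣ u := (hp.dvd_or_dvd (fpf_four hP h4 (b := v) (u := u * c)
      (mul_left_cancel₀ hp0 (by linear_combination -hD)))).resolve_right hc
    refine ⟨(w, v, c), some ⟨0, hP.pos⟩, ?_, ?_, fun e => hc e.2.2, by simpa [ev, fval] using hc,
      ?_⟩
    · rw [act_none]
      simp only [Rt]
      push_cast at h
      linear_combination h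
    · simp only [fdisc]
      exact mul_left_cancel₀ (pow_ne_zero 2 hp0) (by linear_combination hD)
    · rw [ph, ph, ← phi_mul _ (rP_pos hP _) hτ]
      have : rP P (some ⟨0, hP.pos⟩) * rP P none = (P : ℤ) • (1 : MZ) := by
        ext x y
        fin_cases x <;> fin_cases y <;>
          simp [rP, ut, Matrix.mul_apply, Fin.sum_univ_two, -zsmul_eq_mul]
      rw [this, phi_scalar hp0 hτ, Int.cast_natCast]
  · simp only [ev, fval] at hi
    have hb : (P : ℤ) ∣ b - 2 * a * (k : ℕ) := hp.dvd_of_dvd_pow (n := 2) (by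
      convert dvd_add hD1 (hi.mul_left (4 * a)) using 1
      ring)
    have ha : ¬ (P : ℤ) ∣ a := fun e => by
      have e1 : (P : ℤ) ∣ b := by simpa using dvd_add hb ((e.mul_left 2).mul_right (k : ℕ))
      refine h1 ⟨e, e1, ?_⟩
      have e2 := dvd_sub hi (dvd_add (e.mul_right ((-((k : ℕ) : ℤ)) ^ 2))
        ((e1.mul_right (-((k : ℕ) : ℤ))).mul_right 1))
      rwa [add_sub_cancel_left, one_pow, mul_one] at e2
    obtain ⟨u, hu⟩ := hi
    obtain ⟨v, hv⟩ := hb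
    obtain ⟨w, rfl⟩ : (P : ℤ) ∣ u := (hp.dvd_or_dvd (fpf_four hP h4 (b := v) (u := a * u)
      (mul_left_cancel₀ hp0 (by
        linear_combination -hD - 4 * a * hu + (b - 2 * a * (k : ℕ) + P * v) * hv)))).resolve_left ha
    refine ⟨(a, v, w), none, ?_, ?_, fun e => ha e.1, ha, ?_⟩
    · have hu' := congr_arg (Int.cast : ℤ → ℂ) hu
      have hv' := congr_arg (Int.cast : ℤ → ℂ) hv
      push_cast at hu' hv'
      have e : act (rP P (some k)) τ = (τ + (k : ℕ)) / P := by simp [rP, ut, act_of, mob]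
      rw [e]
      simp only [Rt]
      field_simp
      linear_combination h - hu' - (τ + (k : ℕ)) * hv'
    · simp only [fdisc]
      exact mul_left_cancel₀ (pow_ne_zero 2 hp0) (by
        linear_combination hD + 4 * a * hu - (b - 2 * a * (k : ℕ) + P * v) * hv)
    · rw [ph, ph, ← phi_mul _ (rP_pos hP _) hτ]
      have : rP P none * rP P (some k) = !![1, ((k : ℕ) : ℤ); 0, 1] * ((P : ℤ) • (1 : MZ)) := by
        rw [mul_smul_comm, mul_one]
        ext x y
        fin_cases x <;> fin_cases y <;> simp [rP, ut, Matrix.mul_apply, Fin.sum_univ_two]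
      have h0 : 0 < ((P : ℤ) • (1 : MZ)).det := by
        have := hP.pos
        rw [Matrix.det_smul, Matrix.det_one]
        positivity
      rw [this, phi_mul _ h0 hτ, phi_det_one (by simp) (act_pos h0 hτ), one_mul,
        phi_scalar hp0 hτ, Int.cast_natCast]

private theorem fpf_fwd (hP : P.Prime) (hV : V P < 1) (hτ : 0 < τ.im) (h : Rt Q τ)
    (hD : fdisc Q < 0) {i k : Option (Fin P)} (hi : ∀ l, (P : ℤ) ∣ ev P Q l ↔ l = i)
    (hk : ¬ (P : ℤ) ∣ ev P Q k) : V (ph P i τ) * V (ph P k τ) ^ P = V P ^ 12 := by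
  rw [← val_ph_mul hP hτ ((h.isCM hτ hD).val_jf V) i, map_prod,
    Finset.prod_congr rfl (g := fun _ => V (ph P k τ)) fun l hl => val_ph_eq hP hV hτ h hD
      (fun e => Finset.ne_of_mem_erase hl ((hi l).mp e)) hk, Finset.prod_const,
    Finset.card_erase_of_mem (Finset.mem_univ i)]
  simp

theorem NS.edge (h : NS P D) (hP : P.Prime) (hV : V P < 1) : ∃ N : ℕ, 3 ≤ N ∧
    ∀ (i : ℕ) (Q : Fm) (τ : ℂ), 0 < τ.im → Rt Q τ → fdisc Q = D * P ^ (2 * i) → Prm P Q →
      ∀ k, ¬ (P : ℤ) ∣ ev P Q k → V (ph P k τ) ^ (N * P ^ i) = V P ^ 12 := by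
  have hp0 : (0 : ℤ) < P := by exact_mod_cast hP.pos
  have hV0 : V P ^ 12 ≠ 0 := pow_ne_zero _ (V.ne_zero_iff.mpr (by exact_mod_cast hP.ne_zero))
  obtain ⟨N, hN, h0⟩ : ∃ N : ℕ, 3 ≤ N ∧ ∀ (Q : Fm) (τ : ℂ), 0 < τ.im → Rt Q τ → fdisc Q = D →
      Prm P Q → ∀ k, ¬ (P : ℤ) ∣ ev P Q k → V (ph P k τ) ^ N = V P ^ 12 := by
    have h2 := hP.two_le
    obtain ⟨d0, d4, h | ⟨d1, d2⟩⟩ := h
    · refine ⟨P + 1, by omega, ?_⟩
      rintro Q τ hτ hQ rfl - k hk
      rw [← val_prod_ph hP hτ ((hQ.isCM hτ d0).val_jf V), map_prod,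
        Finset.prod_congr rfl (g := fun _ => V (ph P k τ)) fun l _ =>
          val_ph_eq hP hV hτ hQ d0 (not_dvd_ev h l) hk, Finset.prod_const]
      simp
    · refine ⟨P * 2, by omega, ?_⟩
      rintro Q τ hτ hQ rfl hq k hk
      obtain ⟨i, hi⟩ := exists_back hP hq d1
      have e1 := fpf_fwd hP hV hτ hQ d0 hi hk
      have e2 := val_ph_ram hP hV hτ hQ d0 d4 d1 d2 ((hi i).mpr rfl)
      refine mul_left_cancel₀ hV0 ?_
      rw [pow_mul]
      nth_rewrite 1 [← e2]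
      rw [← mul_pow, e1, sq]
  refine ⟨N, hN, fun i => ?_⟩
  induction i with
  | zero =>
    intro Q τ hτ hQ hD hq k hk
    simpa using h0 Q τ hτ hQ (by simpa using hD) hq k hk
  | succ i ih =>
    intro Q τ hτ hQ hD hq k hk
    have hD0 : fdisc Q < 0 := hD ▸ mul_neg_of_neg_of_pos h.1 (pow_pos hp0 _)
    have hD2 : fdisc Q = D * P ^ (2 * i) * P ^ 2 := by rw [hD]; ring
    obtain ⟨j, hj⟩ := exists_back hP hq ⟨D * P ^ (2 * i) * P, by rw [hD2]; ring⟩
    have h4 : D * P ^ (2 * i) % 4 = 0 ∨ D * P ^ (2 * i) % 4 = 1 := by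
      have d4 := h.2.1
      rw [pow_mul']
      obtain ⟨t, ht | ht⟩ := Int.even_or_odd' ((P : ℤ) ^ i)
      · rw [ht, show D * (2 * t) ^ 2 = 4 * (D * t ^ 2) by ring]
        omega
      · rw [ht, show D * (2 * t + 1) ^ 2 = 4 * (D * (t ^ 2 + t)) + D by ring]
        omega
    obtain ⟨R, l, r1, r2, r3, r4, r5⟩ := exists_down hP hτ hQ hq hD2 h4 ((hj j).mpr rfl)
    have e1 := fpf_fwd hP hV hτ hQ hD0 hj hk
    have e2 := congr_arg V r5
    rw [map_mul, map_pow, ← e1, mul_comm] at e2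
    have e3 := mul_left_cancel₀ (V.ne_zero_iff.mpr (phi_ne (rP_pos hP j) hτ)) e2
    rw [← ih R _ (act_pos (rP_pos hP j) hτ) r1 r2 r3 l r4, e3, ← pow_mul]
    congr 1
    ring

theorem NS.edge_zero (h : NS P D) (hP : P.Prime) (hV : V P < 1) (hτ : Dp P D τ)
    (k : Option (Fin P)) : V P ^ 12 ≤ V (ph P k τ) ^ 2 := by
  obtain ⟨N, hN, h0⟩ := h.edge hP hV
  obtain ⟨hτ, Q, hQ, rfl, hq⟩ := hτ
  by_cases hk : (P : ℤ) ∣ ev P Q k
  · obtain ⟨d0, d4, h | ⟨d1, d2⟩⟩ := h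
    · exact absurd hk (not_dvd_ev h k)
    · exact (val_ph_ram hP hV hτ hQ d0 d4 d1 d2 hk).ge
  · rw [← h0 0 Q τ hτ hQ (by simp) hq k hk]
    exact pow_le_pow_right_of_le_one' (val_ph_le hP hτ ((hQ.isCM hτ h.1).val_jf V) k)
      (by simp; omega)

end Pool.Agent.Dih
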