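import Pool.Agent.Lib.MP_60ff09_nt.Dih.FPf

/-! Bounds for congruences between supersingular points. -/

set_option autoImplicit false

open Complex Finset NumberTheorySymbols
open scoped Real ComplexConjugate Classical
open Pool.Agent.Lib.MP_696deb_nt Pool.Agent.Lib.MP_696deb_nt.B2.CM Pool.Agent.Lib.MP_696deb_nt.Unif

namespace Pool.Agent.Dih

variable {P : ℕ} {D D' : ℤ} {τ τ' : ℂ}

theorem Dp.fpg_isCM (h : Dp P D τ) (hD : D < 0) : IsCM D τ := by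
  obtain ⟨h1, Q, h2, rfl, -⟩ := h
  exact h2.isCM h1 hD

theorem NS.fpg_neg (h : NS P D) (hP : P.Prime) (i : ℕ) : D * P ^ (2 * i) < 0 :=
  mul_neg_of_neg_of_pos h.1 (pow_pos (Int.natCast_pos.2 hP.pos) _)

section
variable {Γ : Type*} [LinearOrderedCommGroupWithZero Γ] {V : Valuation ℂ Γ}

theorem fpg_pos (hP : P.Prime) : 0 < V P :=
  zero_lt_iff.2 (V.ne_zero_iff.2 (Nat.cast_ne_zero.2 hP.ne_zero))

theorem NS.fpg_zero (h : NS P D) (hP : P.Prime) (hV : V P < 1) (hτ : Dp P D τ) :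
    V (hasse P τ) ≤ V P ^ 6 := by
  rw [hasse, sp]
  refine V.map_sum_le fun i _ => ?_
  have h1 := val_ph_mul hP hτ.1 ((hτ.fpg_isCM h.1).val_jf V) i
  have h2 : V P ^ 6 ≤ V (ph P i τ) := by
    rw [← pow_le_pow_iff_left₀ zero_le zero_le two_ne_zero, ← pow_mul]
    exact h.edge_zero hP hV hτ i
  rw [one_mul, ← mul_le_mul_iff_right₀ (pow_pos (fpg_pos (V := V) hP) 6), ← pow_add, ← h1]
  exact mul_le_mul_left h2 _

theorem NS.hasse_zero (h : NS P D) (hP : P.Prime) (hV : V P < 1) (hτ : Dp P D τ) :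
    V (hasse P τ) ^ 2 ≤ V P ^ 12 :=
  (pow_le_pow_left₀ zero_le (h.fpg_zero hP hV hτ) 2).trans_eq (by rw [← pow_mul])

theorem NS.hasse_succ (h : NS P D) (hP : P.Prime) (hV : V P < 1) {i : ℕ}
    (hτ : Dp P (D * P ^ (2 * (i + 1))) τ) : V P ^ 4 ≤ V (hasse P τ) ^ P ^ i := by
  have hj := (hτ.fpg_isCM (h.fpg_neg hP _)).val_jf V
  obtain ⟨h0, Q, h1, h2, h3⟩ := hτ
  obtain ⟨N, hN, he⟩ := h.edge hP hV
  obtain ⟨i₀, hi⟩ := exists_back hP h3 (h2 ▸ (dvd_pow_self _ (by omega)).mul_left _)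
  have : Nonempty (Fin P) := ⟨⟨0, hP.pos⟩⟩
  obtain ⟨k₀, hk⟩ := exists_ne i₀
  have hx := he (i + 1) Q τ h0 h1 h2 h3 k₀ fun e => hk ((hi _).1 e)
  have hall : ∀ k, k ≠ i₀ → V (ph P k τ) = V (ph P k₀ τ) := fun k e =>
    val_ph_eq hP hV h0 h1 (h2 ▸ h.fpg_neg hP _) (fun e' => e ((hi _).1 e')) fun e => hk ((hi _).1 e)
  generalize V (ph P k₀ τ) = x at hx hall
  have hπ := fpg_pos (V := V) hP
  have hle : P ≤ P ^ (i + 1) := Nat.le_self_pow (by omega) P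
  have hlt : P + 1 < N * P ^ (i + 1) := by
    have := hP.two_le
    have := Nat.mul_le_mul hN hle
    omega
  have x0 : 0 < x := zero_lt_iff.2 fun e => by
    rw [e, zero_pow (by omega)] at hx
    exact (pow_pos hπ 12).ne hx
  have x1 : x < 1 := not_le.1 fun e =>
    ((one_le_pow₀ e).trans_eq hx).not_gt (pow_lt_one₀ zero_le hV (by norm_num))
  have t0 : V (1 * ∏ k ∈ univ.erase i₀, ph P k τ) = x ^ P := by
    rw [one_mul, map_prod, prod_congr rfl fun k hk => hall k (ne_of_mem_erase hk), prod_const,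
      card_erase_of_mem (mem_univ _), card_univ, Fintype.card_option, Fintype.card_fin,
      Nat.add_sub_cancel]
  have hh : V (hasse P τ) = x ^ P := by
    rw [hasse, sp, ← add_sum_erase _ _ (mem_univ i₀), ← t0]
    refine V.map_add_eq_of_lt_left (V.map_sum_lt (t0 ▸ (pow_pos x0 P).ne') fun k hk => ?_)
    have h4 := val_ph_mul hP h0 hj k
    rw [hall k (ne_of_mem_erase hk), ← hx] at h4
    rw [t0, one_mul, ← mul_lt_mul_iff_right₀ x0, h4, ← pow_succ']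
    exact pow_lt_pow_right_of_lt_one₀ x0 x1 hlt
  rw [hh, ← pow_mul, ← pow_succ', ← pow_le_pow_iff_left₀ zero_le zero_le three_ne_zero, ← pow_mul,
    ← hx, mul_comm N, pow_mul]
  exact pow_le_pow_of_le_one zero_le (pow_le_one₀ zero_le x1.le) hN

theorem NS.near_succ (h : NS P D) (h' : NS P D') (hP : P.Prime) (hV : V P < 1) {i : ℕ}
    (hτ : Dp P D τ) (hτ' : Dp P (D' * P ^ (2 * (i + 1))) τ') :
    V P ^ 4 ≤ V (jf τ - jf τ') ^ P ^ i := by
  have h0 := h.fpg_zero hP hV hτ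
  have h1 := h'.hasse_succ hP hV hτ'
  have h2 : V (hasse P τ - hasse P τ') ≤ V (jf τ - jf τ') :=
    LE.val_sub_le hP.ne_zero (LE.congr (sp (fun _ => 1) (Ph V hP)).2 fun z _ => by
      rw [← evz_apply, map_sp]; rfl) (inv1_hasse hP) hτ.1 hτ'.1 ((hτ.fpg_isCM h.1).val_jf V)
      ((hτ'.fpg_isCM (h'.fpg_neg hP _)).val_jf V)
  have h3 : V (hasse P τ) < V (hasse P τ') := not_le.1 fun e => by
    have h4 := pow_le_pow_left₀ zero_le (e.trans h0) (P ^ i)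
    have h5 : (V P ^ 6) ^ P ^ i ≤ V P ^ 6 :=
      pow_le_of_le_one zero_le (pow_le_one₀ zero_le hV.le) (pow_ne_zero _ hP.ne_zero)
    exact ((h1.trans h4).trans h5).not_gt
      (pow_lt_pow_right_of_lt_one₀ (fpg_pos hP) hV (by norm_num))
  rw [V.map_sub_eq_of_lt_right h3] at h2
  exact h1.trans (pow_le_pow_left₀ zero_le h2 _)

end

theorem fpg_fix (h : IsCM D τ) : ¬ IsSquare ((D ^ 2 - D) / 4).toNat ∧
    ∃ M : MZ, M.det = ((D ^ 2 - D) / 4).toNat ∧ act M τ = τ := by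
  obtain ⟨h1, h2, m, t, e, h⟩ := h
  obtain ⟨x, hx⟩ : ∃ x : ℤ, 2 * x + t = -D := by
    obtain ⟨y, hy⟩ := Int.even_mul_succ_self t
    exact ⟨2 * m - y, by linear_combination -e + hy⟩
  have h4 : 4 * (x ^ 2 + x * 1 * t + 1 ^ 2 * m) = D ^ 2 - D := by
    linear_combination (2 * x + t - D) * hx - e
  have h5 : 0 < D ^ 2 - D := by nlinarith
  have h6 : (((D ^ 2 - D) / 4).toNat : ℤ) = x ^ 2 + x * 1 * t + 1 ^ 2 * m := by omega
  obtain ⟨M, h7, -, h8⟩ := h.add h1 (by rintro rfl; nlinarith) x 1 (by omega)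
  refine ⟨?_, M, h7.trans h6.symm, h8⟩
  rintro ⟨r, hr⟩
  rw [← h6, hr] at h4
  push_cast at h4
  have h9 : -D < 2 * r := by nlinarith
  nlinarith

theorem finite_jf_cm (D : ℤ) : {x | ∃ τ, IsCM D τ ∧ x = jf τ}.Finite := by
  by_cases h : IsSquare ((D ^ 2 - D) / 4).toNat
  · refine Set.finite_empty.subset ?_
    rintro _ ⟨τ, hτ, -⟩
    exact (fpg_fix hτ).1 h
  · refine (finite_jf_fixed h).subset ?_
    rintro _ ⟨τ, hτ, rfl⟩
    exact ⟨τ, hτ.1, rfl, (fpg_fix hτ).2⟩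

theorem exists_pow_le (hP : P.Prime) {x : ℂ} (hx : IsAlgebraic ℚ x) (h0 : x ≠ 0) :
    ∃ a : ℕ, ∀ A : ValuationSubring ℂ, A.valuation P < 1 → A.valuation P ^ a ≤ A.valuation x := by
  obtain ⟨y, y0, hy⟩ := ((IsFractionRing.isAlgebraic_iff ℤ ℚ ℂ).2 hx.inv).exists_integral_multiple
  obtain ⟨a, z, hz, rfl⟩ := WfDvdMonoid.max_power_factor y0
    (Nat.prime_iff_prime_int.1 hP).irreducible
  refine ⟨a, fun A hA => ?_⟩
  have h1 : A.valuation _ ≤ 1 := (Valuation.integer.integers A.valuation).mem_of_integral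
    (hy.tower_top (A := A.valuation.integer))
  rw [zsmul_eq_mul, Int.cast_mul, Int.cast_pow, Int.cast_natCast, map_mul, map_mul, map_pow,
    val_int_eq_one hP hA hz, mul_one, map_inv₀,
    mul_inv_le_iff₀ (zero_lt_iff.2 (A.valuation.ne_zero_iff.2 h0)), one_mul] at h1
  exact h1

theorem fpg_alg (h : IsCM D τ) : IsAlgebraic ℚ (jf τ) :=
  ((Pool.Agent.Lib.MP_f8d36e_nt.cmlat_int fun A => h.val_jf A.valuation).tower_top
    (A := ℚ)).isAlgebraic

theorem NS.near (h : NS P D) (h' : NS P D') (hP : P.Prime) : ∃ a : ℕ, ∀ A : ValuationSubring ℂ,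
    A.valuation P < 1 → ∀ (i : ℕ) (τ τ' : ℂ), Dp P D τ → Dp P (D' * P ^ (2 * i)) τ' →
      jf τ ≠ jf τ' → A.valuation P ^ a ≤ A.valuation (jf τ - jf τ') ^ P ^ i := by
  have H : ∀ x : ℂ, ∃ a : ℕ, IsAlgebraic ℚ x → x ≠ 0 → ∀ A : ValuationSubring ℂ,
      A.valuation P < 1 → A.valuation P ^ a ≤ A.valuation x := fun x => by
    by_cases hx : IsAlgebraic ℚ x ∧ x ≠ 0
    · obtain ⟨a, ha⟩ := exists_pow_le hP hx.1 hx.2
      exact ⟨a, fun _ _ => ha⟩
    · exact ⟨0, fun h1 h2 => absurd ⟨h1, h2⟩ hx⟩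
  choose f hf using H
  obtain ⟨b, hb⟩ := ((finite_jf_cm D).image2 (fun x y => f (x - y)) (finite_jf_cm D')).bddAbove
  refine ⟨b + 4 * P, fun A hA i τ τ' hτ hτ' hne => ?_⟩
  rcases i with _ | i
  · rw [mul_zero, pow_zero, mul_one] at hτ'
    have c1 := hτ.fpg_isCM h.1
    have c2 := hτ'.fpg_isCM h'.1
    have h1 : f (jf τ - jf τ') ≤ b := hb (Set.mem_image2_of_mem ⟨τ, c1, rfl⟩ ⟨τ', c2, rfl⟩)
    rw [pow_zero, pow_one]
    exact (pow_le_pow_of_le_one zero_le hA.le (by omega)).trans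
      (hf _ ((fpg_alg c1).sub (fpg_alg c2)) (sub_ne_zero.2 hne) A hA)
  · have h1 := pow_le_pow_left₀ zero_le (h.near_succ h' hP hA hτ hτ') P
    rw [← pow_mul, ← pow_mul, ← pow_succ] at h1
    exact (pow_le_pow_of_le_one zero_le hA.le (by omega)).trans h1

end Pool.Agent.Dih
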