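import Pool.Agent.Lib.MP_60ff09_nt.Dih.FPe

/-! Local heights of differences of special points. -/

set_option autoImplicit false

open Complex Finset NumberTheorySymbols
open scoped Real ComplexConjugate Classical
open Pool.Agent.Lib.MP_696deb_nt Pool.Agent.Lib.MP_696deb_nt.B2.CM Pool.Agent.Lib.MP_696deb_nt.Unif

namespace Pool.Agent.Dih

variable {K : Type} [Field K] [CharZero K] [DecidableEq K] {v : AbsoluteValue K ℝ} {f : K →+* ℂ}
  {A : ValuationSubring ℂ} {p : ℕ} {τ τ' : ℂ} {X Y : Pt W15 K}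

open WeierstrassCurve WeierstrassCurve.Affine in
theorem fph_congr (hv : IsNonarchimedean v) {x₁ y₁ x₂ y₂ : K}
    (h₁ : (W15.baseChange K).toAffine.Nonsingular x₁ y₁)
    (h₂ : (W15.baseChange K).toAffine.Nonsingular x₂ y₂) (a₁ : v x₁ ≤ 1) (b₁ : v y₁ ≤ 1)
    (a₂ : v x₂ ≤ 1) (b₂ : v y₂ ≤ 1) {R : ℝ} (e : v (xco (Point.some _ _ h₁ - Point.some _ _ h₂)) = R)
    (h : 1 < R) : v (x₁ - x₂) ^ 2 * R ≤ 1 ∧ v (y₁ - y₂) ^ 2 * R ≤ 1 := by
  have e₁ := (W15_nonsingular _ _).mp h₁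
  have e₂ := (W15_nonsingular _ _).mp h₂
  by_cases hx : x₁ = x₂
  · subst hx
    refine ⟨by simp, ?_⟩
    rcases Y_eq_of_X_eq h₁.1 h₂.1 rfl with rfl | hy
    · simp
    · subst hy
      rw [sub_eq_add_neg, Point.neg_some, ← two_nsmul, xco_two_nsmul] at e
      have h1 : v (x₁ ^ 2 + 9) ≤ 1 :=
        na_add hv (by rw [map_pow]; exact pow_le_one₀ (v.nonneg _) a₁) (na_nat hv 9)
      have h2 : v (dup1 (W15.baseChange K) x₁) ≤ 1 := by
        rw [show dup1 (W15.baseChange K) x₁ = (x₁ ^ 2 + 9) ^ 2 by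
          simp only [dup1, W15_b₄, W15_b₆, W15_b₈]; ring, map_pow]
        exact pow_le_one₀ (v.nonneg _) h1
      have h3 : ((W15.baseChange K).toAffine.negY x₁ y₂ - y₂) ^ 2 = dup2 (W15.baseChange K) x₁ := by
        rw [dup2_eq h₂, negY]
        ring
      rw [← map_pow, h3, ← e, ← map_mul]
      by_cases h0 : dup2 (W15.baseChange K) x₁ = 0
      · simp [h0]
      · rwa [mul_div_cancel₀ _ h0]
  rw [sub_eq_add_neg, Point.neg_some, Point.add_of_X_ne hx, xco_some, slope_of_X_ne hx] at e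
  simp only [addX, negY, toAffine, W15_a₁, W15_a₂, W15_a₃] at e
  have h1 := div_mul_cancel₀ (y₁ - (-y₂ - 1 * x₂ - 0)) (sub_ne_zero.mpr hx)
  generalize (y₁ - (-y₂ - 1 * x₂ - 0)) / (x₁ - x₂) = l at e h1
  have h4 : v (-2 : K) ≤ 1 := by rw [v.map_neg]; exact na_nat hv 2
  have h2 : 1 < v l := by
    by_contra! hl
    exact (e ▸ h).not_ge (na_sub hv (na_sub hv (na_sub hv (na_add hv
      (by rw [map_pow]; exact pow_le_one₀ (v.nonneg _) hl) (by rwa [one_mul])) h4) a₁) a₂)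
  have h5 : v l < v (l ^ 2) := by rw [map_pow]; exact lt_self_pow₀ h2 one_lt_two
  have h6 : R = v l ^ 2 := by
    rw [← e, ← map_pow, show l ^ 2 + 1 * l - -2 - x₁ - x₂ = l ^ 2 + (l - -2 - x₁ - x₂) by ring]
    exact na_add_eq hv (na_sub_lt hv (na_sub_lt hv (na_sub_lt hv h5 ((h4.trans_lt h2).trans h5))
      ((a₁.trans_lt h2).trans h5)) ((a₂.trans_lt h2).trans h5))
  have key : ∀ {c d : K}, l * c = d → v d ≤ 1 → v c ^ 2 * R ≤ 1 := fun {c d} e hd => by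
    rw [h6, ← mul_pow, ← map_mul, mul_comm, e]
    exact pow_le_one₀ (v.nonneg _) hd
  have h3 : ∀ {a b : K}, v a ≤ 1 → v b ≤ 1 → v (a * b) ≤ 1 := fun ha hb => by
    simpa using na_mul ha hb
  refine ⟨key (d := y₁ + y₂ + x₂) (by linear_combination h1) (na_add hv (na_add hv b₁ b₂) a₂),
    key (d := x₁ * x₁ + x₁ * x₂ + x₂ * x₂ - 2 * (x₁ + x₂) - 9 - y₁)
      (mul_left_cancel₀ (sub_ne_zero.mpr hx) ?_) ?_⟩
  · linear_combination (y₁ - y₂) * h1 + e₁ - e₂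
  · exact na_sub hv (na_sub hv (na_sub hv (na_add hv (na_add hv (h3 a₁ a₁) (h3 a₁ a₂)) (h3 a₂ a₂))
      (h3 (na_nat hv 2) (na_add hv a₁ a₂))) (na_nat hv 9)) b₁

theorem fph_poly {Γ : Type*} [LinearOrderedCommGroupWithZero Γ] {V : Valuation ℂ Γ}
    {P Q : Polynomial ℂ} (hP : ∀ k, V (P.coeff k) ≤ 1) (hQ : ∀ k, V (Q.coeff k) ≤ 1)
    {x y x' y' : ℂ} (hx : V x ≤ 1) (hy : V y ≤ 1) (hx' : V x' ≤ 1) {c : Γ} (h1 : V (x - x') ≤ c)
    (h2 : V (y - y') ≤ c) : V (P.eval x + Q.eval x * y - (P.eval x' + Q.eval x' * y')) ≤ c := by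
  rw [show P.eval x + Q.eval x * y - (P.eval x' + Q.eval x' * y') = P.eval x - P.eval x' +
    ((Q.eval x - Q.eval x') * y + Q.eval x' * (y - y')) by ring]
  refine V.map_add_le ((val_eval_sub_le V hP hx hx').trans h1) (V.map_add_le ?_ ?_) <;>
    rw [map_mul]
  · exact (mul_le_of_le_one_right' hy).trans ((val_eval_sub_le V hQ hx hx').trans h1)
  · exact (mul_le_of_le_one_left' (val_eval_le V hQ hx')).trans h2

theorem fph_jf {Γ : Type*} [LinearOrderedCommGroupWithZero Γ] {V : Valuation ℂ Γ} (hτ : 0 < τ.im)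
    (hτ' : 0 < τ'.im) (hj : V (jf τ) ≤ 1) (hj' : V (jf τ') ≤ 1) (hu : V (uu τ) = 1) {c : Γ}
    (h1 : V (t15 τ - t15 τ') ≤ c) (h2 : V (Y15 τ - Y15 τ') ≤ c) : V (jf τ - jf τ') ≤ c := by
  obtain ⟨P, Q, p1, p2, -, -, -, -, p7⟩ := exists_uu_poly V
  obtain ⟨P', Q', q1, q2, q7⟩ := exists_jf_uu_poly V
  have h3 := fph_poly p1 p2 (val_t15_le hτ hj).1 (val_t15_le hτ hj).2 (val_t15_le hτ' hj').1 h1 h2
  have h4 := fph_poly q1 q2 (val_t15_le hτ hj).1 (val_t15_le hτ hj).2 (val_t15_le hτ' hj').1 h1 h2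
  rw [← p7 τ hτ, ← p7 τ' hτ'] at h3
  rw [← q7 τ hτ, ← q7 τ' hτ'] at h4
  rw [← mul_one (V _), ← hu, ← map_mul, show (jf τ - jf τ') * uu τ = jf τ * uu τ - jf τ' * uu τ' -
    jf τ' * (uu τ - uu τ') by ring]
  refine V.map_sub_le h4 ?_
  rw [map_mul]
  exact (mul_le_of_le_one_left' hj').trans h3

omit [DecidableEq K] in
theorem Pl.fph_log (h : Pl p v f A) (hp : p.Prime) {d : K} {a N : ℕ} (hN : N ≠ 0) {R : ℝ}
    (hR : 1 < R) (h1 : v d ^ 2 * R ≤ 1) (h2 : A.valuation p ^ a ≤ A.valuation (f d) ^ N) :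
    Real.log R ≤ 2 * a / N * -Real.log (v p) := by
  have hp0 : (p : K) ≠ 0 := Nat.cast_ne_zero.2 hp.ne_zero
  have h3 : A.valuation p ≠ 0 := by simpa using hp.ne_zero
  have hd : d ≠ 0 := by
    rintro rfl
    rw [map_zero, map_zero, zero_pow hN] at h2
    exact pow_ne_zero _ h3 (le_antisymm h2 zero_le)
  have hd' : A.valuation (f d) ≠ 0 := by simpa using hd
  have h4 := (h.cmp (p ^ a / d ^ N)).1.1 (by
    simp only [map_div₀, map_pow, map_natCast]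
    exact (div_le_one₀ (pow_pos (zero_lt_iff.2 hd') _)).2 h2)
  have h5 := v.pos hd
  have h6 := v.pos hp0
  rw [map_div₀, map_pow, map_pow, div_le_one (by positivity)] at h4
  have h7 := Real.log_le_log (by positivity) h4
  have h8 := Real.log_nonpos (by positivity) h1
  rw [Real.log_pow, Real.log_pow] at h7
  rw [Real.log_mul (by positivity) (by positivity), Real.log_pow] at h8
  have h9 : (0 : ℝ) < N := Nat.cast_pos.2 (Nat.pos_of_ne_zero hN)
  rw [div_mul_eq_mul_div, le_div_iff₀ h9]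
  push_cast at h8
  nlinarith

theorem Pl.lamF_le (h : Pl p v f A) (hp : p.Prime) (h15 : ¬ p ∣ 15) (hτ : 0 < τ.im)
    (hτ' : 0 < τ'.im) (hj : A.valuation (jf τ) ≤ 1) (hj' : A.valuation (jf τ') ≤ 1)
    (hX : pmap f X = pt τ) (hY : pmap f Y = pt τ') {a N : ℕ} (hN : N ≠ 0)
    (hn : A.valuation p ^ a ≤ A.valuation (jf τ - jf τ') ^ N) :
    0 ≤ lamF v (X - Y) ∧ lamF v (X - Y) ≤ 2 * a / N * -Real.log (v p) := by
  have h1 : A.valuation (15 : ℕ) = 1 := by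
    simpa using val_int_eq_one hp h.val (n := (15 : ℕ)) (mt Int.natCast_dvd_natCast.mp h15)
  have h2 := val_eq_one_of_mul (val_nat A.valuation 3) (val_nat A.valuation 5)
    (by rw [← h1]; norm_num)
  have hu := (val_uu hτ hj).2 (by simpa using (val_Dl_div (d := 15) (by norm_num) hτ hj).2.2 h1)
  rw [lamF, if_neg fun e => h2.1.not_lt (by simpa [map_ofNat] using (h.cmp _).2.mpr e),
    if_neg fun e => h2.2.not_lt (by simpa [map_ofNat] using (h.cmp _).2.mpr e)]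
  refine ⟨Real.log_nonneg (le_max_left _ _), ?_⟩
  rcases le_or_gt (v (xco (X - Y))) 1 with h0 | h0
  · rw [max_eq_left h0, Real.log_one]
    exact mul_nonneg (by positivity) (neg_nonneg.2 (Real.log_nonpos (v.nonneg _) h.lt.le))
  rw [max_eq_right h0.le]
  obtain ⟨x, y, h', rfl, e1, e2, b1, b2⟩ := exists_some_of_pmap h.cmp hτ hj hX
  obtain ⟨x', y', h'', rfl, e3, e4, b3, b4⟩ := exists_some_of_pmap h.cmp hτ' hj' hY
  obtain ⟨c1, c2⟩ := fph_congr h.na h' h'' b1 b2 b3 b4 rfl h0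
  rcases le_total (A.valuation (t15 τ - t15 τ')) (A.valuation (Y15 τ - Y15 τ')) with c | c
  · refine h.fph_log hp hN h0 c2 (hn.trans (pow_le_pow_left₀ zero_le ?_ N))
    rw [map_sub f, e2, e4]
    exact fph_jf hτ hτ' hj hj' hu c le_rfl
  · refine h.fph_log hp hN h0 c1 (hn.trans (pow_le_pow_left₀ zero_le ?_ N))
    rw [map_sub f, e1, e3]
    exact fph_jf hτ hτ' hj hj' hu le_rfl c

theorem Pl.fph_inf (h : Pl p v f A) (hp : p.Prime) (h15 : p ∣ 15) {D : ℤ} {l : ℕ} (hD : D < 0)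
    (hl : l.Prime) (hl15 : ¬ l ∣ 15) {ι : Type} [Fintype ι] {σ : ι → ℂ} (hσ : ∀ i, Yv l D (σ i))
    (hs : ∀ i, A.valuation (Dl (σ i) / Dl (15 * σ i)) = 1) {m : ι → ℤ} (hm : ∑ i, m i = 0)
    (h' : Zv l D τ') {X : ι → Pt W15 K} (hX : ∀ i, pmap f (X i) = pt (σ i))
    (hY : pmap f Y = pt τ') : ∑ i, (m i : ℝ) * lamF v (X i - Y) = 0 := by
  obtain ⟨D', hc⟩ := h'.isCM hl hD
  obtain ⟨c, -, c2⟩ := exists_lamF_const h.na h.cmp hc.1 (hc.val_jf _) hY
  have h1 : ∀ i, lamF v (X i - Y) = c := fun i => by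
    obtain ⟨E, hE⟩ := (hσ i).isCM hD
    exact c2 _ _ hE.1 (hE.val_jf _) ((val_uu hE.1 (hE.val_jf _)).2 (hs i)) (hX i)
      ((hσ i).val_sub h' hl hD hp h.val (fun e => hl15 (e ▸ h15))
        (ord_of_Dl hp h.val h15 hE.1 (hE.val_jf _) (hs i)))
  simp only [h1]
  rw [← Finset.sum_mul, ← Int.cast_sum, hm, Int.cast_zero, zero_mul]

theorem Pl.sum_lamF (h : Pl p v f A) (hp : p.Prime) (h15 : p ∣ 15) {n l : ℕ} (hn : Good n)
    (hl : l.Prime) (hl15 : ¬ l ∣ 15) {ι : Type} [Fintype ι] {r : ℤ} {e : ι → Fm}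
    (he : ∀ i, IsHg (-n) r (e i)) {m : ι → ℤ} (hm : ∑ i, m i = 0) (h' : Zv l (-n) τ')
    {X : ι → Pt W15 K} (hX : ∀ i, pmap f (X i) = pt (froot (e i))) (hY : pmap f Y = pt τ') :
    ∑ i, (m i : ℝ) * lamF v (X i - Y) = 0 := by
  have hn0 : (-n : ℤ) < 0 := by have := hn.mod4; omega
  have hd : ∀ i, fdisc (e i) < 0 := fun i => (he i).disc ▸ hn0
  have hy : ∀ i, Yv l (-n) (froot (e i)) := fun i => ⟨im_froot_pos (hd i) (he i).pos, e i, 1,
    rt_froot (hd i) (he i).pos, by rw [(he i).disc]; ring, fun e => hl.one_lt.ne'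
      (by exact_mod_cast Int.eq_one_of_dvd_one (Int.natCast_nonneg l) e)⟩
  have hv := fun i => val_froot hp h.val h15 (hd i) (he i).pos (he i).lev (by
    rw [(he i).disc, Int.dvd_neg, Int.natCast_dvd_natCast]
    exact fun e => hp.one_lt.ne' (Nat.eq_one_of_dvd_coprimes hn.cop e h15))
  simp only [fun i => (he i).disc] at hv
  have h1 : ∀ {b r : ℤ} {u : ℂ}, (30 : ℤ) ∣ b - r → A.valuation (r + u) = 1 →
      A.valuation (b + u) = 1 := fun {b r u} hb e => by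
    obtain ⟨k, hk⟩ := ((Int.natCast_dvd_natCast.2 h15).trans (by norm_num)).trans hb
    rw [← e, show (b : ℂ) = p * k + r by exact_mod_cast eq_add_of_sub_eq hk, add_assoc]
    refine A.valuation.map_add_eq_of_lt_right ?_
    rw [e, map_mul]
    exact mul_lt_one_of_nonneg_of_lt_one_left zero_le h.val (val_int _ k)
  by_cases hr : A.valuation (r + √(-((-n : ℤ) : ℝ)) * Complex.I) = 1
  · exact h.fph_inf hp h15 hn0 hl hl15 hy (fun i => (hv i).1 (h1 (he i).res hr)) hm h' hX hY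
  let T : Pt W15 K := .some 9 (-27) ((W15_nonsingular _ _).mpr (by norm_num))
  have hT : ∀ {R : Pt W15 K} {z : ℂ}, 0 < z.im → pmap f R = pt z → pmap f (T - R) = pt (al 3 z) :=
    fun {R z} hz e => by
      rw [pt_al 3 hz, u15_alC_three, map_sub, e, show alS 3 = -1 from rfl, neg_one_zsmul,
        neg_add_eq_sub]
      congr 1
      exact Shared.Weier.IsPer.some_congr (map_ofNat f 9) (by simp [map_ofNat])
  have g1 : (!![0, -1; 15, 0] : MZ).det = 15 := by simp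
  have g2 : 0 < (!![0, -1; 15, 0] : MZ).det := by rw [g1]; norm_num
  have g3 : ¬ (l : ℤ) ∣ (!![0, -1; 15, 0] : MZ).det := by
    rw [g1]
    exact_mod_cast hl15
  obtain ⟨D', hc⟩ := h'.isCM hl hn0
  have g4 : act !![0, -1; 15, 0] = al 3 := act_of _ _ _ _
  have g5 := fun i => (hy i).act hl g2 g3
  have g6 := h'.act hl g2 g3
  rw [g4] at g5 g6
  have h2 := h.fph_inf hp h15 hn0 hl hl15 g5
    (fun i => (hv i).2 fun e => hr (h1 (dvd_sub_comm.1 (he i).res) e)) hm g6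
    (fun i => hT (hy i).1 (hX i)) (hT hc.1 hY)
  have e : ∀ i, T - X i - (T - Y) = -(X i - Y) := fun i => by abel
  simpa only [e, lamF_neg] using h2

end Pool.Agent.Dih
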