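import Pool.Agent.Lib.MP_60ff09_nt.Dih.FPa
import Pool.Agent.Lib.MP_60ff09_nt.Dih.FPg
import Pool.Agent.Lib.MP_60ff09_nt.Dih.FPh
import Pool.Agent.Lib.MP_60ff09_nt.Dih.CTe
import Pool.Agent.Lib.MP_60ff09_nt.Dih.CLd

/-! The points of the Hecke correspondence. -/

set_option autoImplicit false

open Complex Finset NumberTheorySymbols
open scoped Real ComplexConjugate Classical
open Pool.Agent.Lib.MP_696deb_nt Pool.Agent.Lib.MP_696deb_nt.B2.CM Pool.Agent.Lib.MP_696deb_nt.Unif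

namespace Pool.Agent.Dih

variable {n l m M P : ℕ} {r D : ℤ} {Q : Fm} {t : (_ : ℕ × ℕ) × ℕ}

theorem fpi_neg (hn : Good n) : -(n : ℤ) < 0 := by
  have := hn.mod4
  omega

theorem fpi_form (hD : fdisc Q < 0) (hQ : 0 < Q.1) (ht : t ∈ HI M) :
    0 < (fmap Q t.1.2 (-t.2) 0 t.1.1).1 ∧ froot (fmap Q t.1.2 (-t.2) 0 t.1.1) = hpt t (froot Q) ∧
      fdisc (fmap Q t.1.2 (-t.2) 0 t.1.1) = fdisc Q * M ^ 2 ∧
      Rt (fmap Q t.1.2 (-t.2) 0 t.1.1) (hpt t (froot Q)) := by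
  obtain ⟨h1, h2, -⟩ := mem_HI.1 ht
  obtain ⟨h3, h4⟩ := mul_ne_zero_iff.1 (h1 ▸ h2)
  obtain ⟨h5, h6⟩ := fmap_hecke hD hQ (a := t.1.1) (d := t.1.2) (by positivity) (by positivity) t.2
  have h7 : fdisc (fmap Q t.1.2 (-t.2) 0 t.1.1) = fdisc Q * M ^ 2 := by
    rw [fdisc_fmap', ← h1]
    push_cast
    ring
  have h8 : froot (fmap Q t.1.2 (-t.2) 0 t.1.1) = hpt t (froot Q) := by simpa [hpt] using h6
  exact ⟨h5, h8, h7, h8 ▸ rt_froot (h7 ▸ mul_neg_of_neg_of_pos hD (by positivity)) h5⟩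

theorem hpt_alg (hn : Good n) (hQ : IsHg (-n) r Q) (ht : t ∈ HI M) :
    pt (hpt t (froot Q)) ∈ Alg W15 := by
  have hD : fdisc Q < 0 := hQ.disc ▸ fpi_neg hn
  obtain ⟨h1, h2, h3, -⟩ := fpi_form hD hQ.pos ht
  have M0 := (mem_HI.1 ht).2.1
  exact h2 ▸ Gal.alg_pt (mul_neg_of_neg_of_pos hD (by positivity))
    ⟨h3, h1, by simpa [fmap, fval] using hQ.lev.mul_right _, by rw [sub_self]; exact dvd_zero _⟩

theorem fpi_swap {x y : ℤ} {k : ℕ}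
    (h : ∀ (Q : Fm) (x y : ℤ), fdisc Q = D → (P : ℤ) ^ k ∣ fval Q x y → (P : ℤ) ∣ y)
    (hQ : fdisc Q = D) (hv : (P : ℤ) ^ k ∣ fval Q x y) : (P : ℤ) ∣ x ∧ (P : ℤ) ∣ y :=
  ⟨h (Q.2.2, Q.2.1, Q.1) y x (by rw [← hQ, fdisc, fdisc]; ring)
    (by convert hv using 1; simp only [fval]; ring), h Q x y hQ hv⟩

theorem fpi_inert (h : ∀ b k : ℤ, b ^ 2 - D ≠ 4 * P * k) (hP : P.Prime) (hQ : fdisc Q = D)
    {x y : ℤ} (hv : (P : ℤ) ∣ fval Q x y) : (P : ℤ) ∣ x ∧ (P : ℤ) ∣ y := by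
  refine fpi_swap (k := 1) (fun Q x y hQ ⟨f, hf⟩ => ?_) hQ (by simpa using hv)
  by_contra k
  obtain ⟨s, z, e⟩ := (Nat.prime_iff_prime_int.1 hP).irreducible.coprime_iff_not_dvd.2 k
  refine h (2 * Q.1 * x * z + Q.2.1) (Q.1 * (z ^ 2 * f + s * (Q.2.1 * x * z + Q.2.2 * (1 + z * y)))) ?_
  rw [← hQ, fdisc]
  rw [fval] at hf
  linear_combination 4 * Q.1 * z ^ 2 * hf - 4 * Q.1 * (Q.2.1 * x * z + Q.2.2 * (1 + z * y)) * e

theorem NS.not_sq (h : NS P D) : ¬ (P : ℤ) ^ 2 ∣ D := by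
  obtain ⟨-, h4, h | h⟩ := h
  · rintro ⟨c, rfl⟩
    have h2 : (P : ℤ) % 2 = 1 := by
      by_contra k
      obtain ⟨a, e⟩ : 2 ∣ (P : ℤ) := by omega
      rw [e, mul_pow, mul_assoc] at h4
      omega
    obtain ⟨a, e⟩ : 2 ∣ (P : ℤ) - 1 := by omega
    obtain ⟨s, e2⟩ : 4 ∣ 1 - c := by
      rw [show (P : ℤ) ^ 2 * c = c + 4 * ((a ^ 2 + a) * c) by
        linear_combination (P + 1 + 2 * a) * c * e] at h4
      omega
    exact h P (P * s) (by linear_combination (P : ℤ) ^ 2 * e2)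
  · exact h.2

theorem NS.dvd (h : NS P D) (hP : P.Prime) (hQ : fdisc Q = D) {x y : ℤ} (u : ℕ)
    (hv : (P : ℤ) ^ (2 * u) ∣ fval Q x y) : (P : ℤ) ^ u ∣ x ∧ (P : ℤ) ^ u ∣ y := by
  have hp := Nat.prime_iff_prime_int.1 hP
  induction u generalizing x y with
  | zero => simp
  | succ u ih =>
  have h2 : (P : ℤ) ^ 2 ∣ fval Q x y := (pow_dvd_pow _ (by omega)).trans hv
  obtain ⟨⟨x, rfl⟩, y, rfl⟩ : (P : ℤ) ∣ x ∧ (P : ℤ) ∣ y := by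
    rcases h.2.2 with k | ⟨⟨c, rfl⟩, k⟩
    · exact fpi_inert k hP hQ ((dvd_pow_self _ two_ne_zero).trans h2)
    refine fpi_swap (fun Q x y hQ ⟨f, hf⟩ => ?_) hQ h2
    rw [fval] at hf
    rw [fdisc] at hQ
    obtain ⟨s, e⟩ := hp.dvd_of_dvd_pow (a := 2 * Q.1 * x + Q.2.1 * y) (n := 2)
      ⟨4 * Q.1 * P * f + c * y ^ 2, by linear_combination 4 * Q.1 * hf + y ^ 2 * hQ⟩
    refine hp.dvd_of_dvd_pow (n := 2) ((hp.dvd_or_dvd (a := c) ⟨s ^ 2 - 4 * Q.1 * f,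
      mul_left_cancel₀ hp.ne_zero ?_⟩).resolve_left fun e => k (sq (P : ℤ) ▸ mul_dvd_mul_left _ e))
    linear_combination (2 * Q.1 * x + Q.2.1 * y + P * s) * e - 4 * Q.1 * hf - y ^ 2 * hQ
  rw [show fval Q (P * x) (P * y) = P ^ 2 * fval Q x y by simp only [fval]; ring, mul_add, pow_add,
    mul_one, mul_comm, mul_dvd_mul_iff_left (pow_ne_zero _ hp.ne_zero)] at hv
  rw [pow_succ']
  exact ⟨mul_dvd_mul_left _ (ih hv).1, mul_dvd_mul_left _ (ih hv).2⟩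

theorem yv_froot (hn : Good n) (hQ : IsHg (-n) r Q) (hl : l.Prime) : Yv l (-n) (froot Q) :=
  have hD : fdisc Q < 0 := hQ.disc ▸ fpi_neg hn
  ⟨im_froot_pos hD hQ.pos, Q, 1, rt_froot hD hQ.pos, by rw [hQ.disc, one_pow, mul_one],
    (Nat.prime_iff_prime_int.1 hl).not_dvd_one⟩

theorem zv_hpt (hn : Good n) (hQ : IsHg (-n) r Q) (hl : l.Prime) (hJ : J((l : ℤ) | n) = -1)
    (hm : ¬ l ∣ m) (ht : t ∈ HI (l * m)) : Zv l (-n) (hpt t (froot Q)) := by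
  have hD : fdisc Q < 0 := hQ.disc ▸ fpi_neg hn
  obtain ⟨-, -, h3, h4⟩ := fpi_form hD hQ.pos ht
  have k := fun x y => fpi_inert (fun b k => by simpa using (clc_root hn hl).1 hJ b k) hl hQ.disc
    (x := x) (y := y)
  refine ⟨m, by rintro e; simp_all, hpt_im ht (im_froot_pos hD hQ.pos), _, h4,
    by rw [h3, hQ.disc, Nat.cast_mul], fun ⟨a1, _, a2⟩ => hm ?_⟩
  have := mul_dvd_mul (Int.natCast_dvd_natCast.1 (k _ _ a2).2) (Int.natCast_dvd_natCast.1 (k _ _ a1).1)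
  rwa [(mem_HI.1 ht).1, Nat.mul_dvd_mul_iff_left hl.pos] at this

theorem fpi_prim (hP : P.Prime) (hQ : Q.1 ≠ 0) : ∃ (e : ℕ) (R : Fm), Prm P R ∧
    Q.1 = P ^ e * R.1 ∧ Q.2.1 = P ^ e * R.2.1 ∧ Q.2.2 = P ^ e * R.2.2 := by
  obtain ⟨e, g, h1, h2⟩ := Nat.exists_eq_pow_mul_and_not_dvd
    (n := Int.gcd Q.1 (Int.gcd Q.2.1 Q.2.2)) (by simp [hQ]) P hP.ne_one
  have h3 : ∀ k : ℕ, k ∣ Int.gcd Q.1 (Int.gcd Q.2.1 Q.2.2) ↔
      (k : ℤ) ∣ Q.1 ∧ (k : ℤ) ∣ Q.2.1 ∧ (k : ℤ) ∣ Q.2.2 := fun k => by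
    rw [Int.dvd_gcd_iff, Int.natCast_dvd_natCast, Int.dvd_gcd_iff]
  obtain ⟨⟨a, ha⟩, ⟨b, hb⟩, c, hc⟩ := (h3 (P ^ e)).1 ⟨g, h2⟩
  push_cast at ha hb hc
  refine ⟨e, (a, b, c), fun ⟨a1, a2, a3⟩ => h1 ?_, ha, hb, hc⟩
  rw [← Nat.mul_dvd_mul_iff_left (pow_pos hP.pos e), ← h2, h3, ha, hb, hc]
  push_cast
  exact ⟨mul_dvd_mul_left _ a1, mul_dvd_mul_left _ a2, mul_dvd_mul_left _ a3⟩

theorem NS.dp_hpt (h : NS P D) (hP : P.Prime) (hD : fdisc Q = D) (hQ : 0 < Q.1) (hm : ¬ P ∣ m)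
    {j : ℕ} (ht : t ∈ HI (m * P ^ j)) :
    ∃ i, Dp P (D * m ^ 2 * P ^ (2 * i)) (hpt t (froot Q)) ∧ P ^ j ≤ P * hgc t ^ 2 * P ^ i := by
  have hp := Nat.prime_iff_prime_int.1 hP
  have D0 : fdisc Q < 0 := hD ▸ h.1
  obtain ⟨h1, -, h3, h4⟩ := fpi_form D0 hQ ht
  obtain ⟨e, R, r1, r2, r3, r4⟩ := fpi_prim hP h1.ne'
  have p0 : (P : ℤ) ^ e ≠ 0 := pow_ne_zero _ hp.ne_zero
  have h5 : (P ^ e) ^ 2 * fdisc R = D * m ^ 2 * (P ^ j) ^ 2 := by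
    rw [fdisc, r2, r3, r4, hD] at h3
    rw [fdisc]
    push_cast at h3
    linear_combination h3
  obtain ⟨i, rfl⟩ : ∃ i, j = e + i := Nat.exists_eq_add_of_le (not_lt.1 fun k => by
    obtain ⟨i, rfl⟩ := Nat.exists_eq_add_of_lt k
    refine h.not_sq (hp.pow_dvd_of_dvd_mul_right 2 (b := (m : ℤ) ^ 2)
      (fun k => hm (Int.natCast_dvd_natCast.1 (hp.dvd_of_dvd_pow k))) ⟨(P ^ i) ^ 2 * fdisc R,
        mul_left_cancel₀ (pow_ne_zero 2 (pow_ne_zero j hp.ne_zero)) ?_⟩)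
    linear_combination -h5)
  have d : (P : ℤ) ^ (2 * (e / 2)) ∣ P ^ e := pow_dvd_pow _ (by omega)
  have d1 := (h.dvd hP hD _ (d.trans ⟨_, r2⟩)).1
  obtain ⟨d2, d3⟩ := h.dvd hP hD _ (d.trans ⟨_, r4⟩)
  have d4 : P ^ (e / 2) ≤ hgc t := Nat.le_of_dvd (Nat.gcd_pos_of_pos_left _
    (Nat.pos_of_mul_pos_right ((mem_HI.1 ht).1 ▸ (mem_HI.1 ht).2.1.bot_lt)))
    (Nat.dvd_gcd (by exact_mod_cast d3) (Nat.dvd_gcd (by exact_mod_cast d1)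
      (by exact_mod_cast dvd_neg.1 d2)))
  refine ⟨i, ⟨hpt_im ht (im_froot_pos D0 hQ), R, ?_,
    mul_left_cancel₀ (pow_ne_zero 2 p0) (by linear_combination h5), r1⟩, ?_⟩
  · rw [Rt, r2, r3, r4] at h4
    push_cast at h4
    exact mul_left_cancel₀ (a := (P : ℂ) ^ e) (by exact_mod_cast p0) (by linear_combination h4)
  · rw [pow_add]
    refine Nat.mul_le_mul_right _ (le_trans ?_ (Nat.mul_le_mul_left _ (Nat.pow_le_pow_left d4 2)))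
    rw [← pow_mul, ← pow_succ']
    exact Nat.pow_le_pow_right hP.pos (by omega)

theorem ns_of_jac (hn : Good n) (hP : P.Prime) (hJ : J((P : ℤ) | n) ≠ 1) (hm : ¬ P ∣ m)
    (ho : Odd m) : NS P (-n * m ^ 2) := by
  have hp := Nat.prime_iff_prime_int.1 hP
  have h4 := hn.mod4
  refine ⟨mul_neg_of_neg_of_pos (fpi_neg hn) (by have := ho.pos; positivity), ?_, ?_⟩
  · obtain ⟨c, rfl⟩ := ho
    rw [show -(n : ℤ) * ((2 * c + 1 : ℕ) : ℤ) ^ 2 = -n + 4 * (-n * (c ^ 2 + c)) by push_cast; ring]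
    omega
  rcases prime_cases hn hP with h | ⟨-, h⟩ | ⟨h, -⟩
  · exact absurd h.1 hJ
  · obtain ⟨z, s, e⟩ := Nat.isCoprime_iff_coprime.2 (((Nat.coprime_two_right.2 ho).pow_right 2).mul_right
      (hP.coprime_iff_not_dvd.2 hm).symm)
    push_cast at e
    exact .inl fun b k e2 => h (b * z) (z ^ 2 * k + n * s * (1 + z * m)) (by
      linear_combination z ^ 2 * e2 - n * (1 + z * m) * e)
  · refine .inr ⟨((Int.natCast_dvd_natCast.2 h).neg_right).mul_right _, fun k => ?_⟩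
    have := hp.pow_dvd_of_dvd_mul_right 2 (b := (m : ℤ) ^ 2)
      (fun k => hm (Int.natCast_dvd_natCast.1 (hp.dvd_of_dvd_pow k))) k
    exact hP.prime.not_isUnit (hn.sqf P (by rw [← sq]; exact_mod_cast dvd_neg.1 this))

theorem loc_nonsplit (hn : Good n) (hP : P.Prime) (h15 : ¬ P ∣ 15) (hJ : J((P : ℤ) | n) ≠ 1)
    (hl : l.Prime) (h2 : l ≠ 2) (hlJ : J((l : ℤ) | n) = -1) (hne : P ≠ l) : ∃ C : ℝ, 0 ≤ C ∧
    ∀ (j : ℕ) (r : ℤ) (Q R : Fm) (t : (_ : ℕ × ℕ) × ℕ), IsHg (-n) r Q → IsHg (-n) r R →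
      t ∈ HI (l * P ^ j) → ∀ (K : Type) [Field K] [CharZero K] [DecidableEq K]
      (v : AbsoluteValue K ℝ) (f : K →+* ℂ) (A : ValuationSubring ℂ) (X Y : Pt W15 K),
      Pl P v f A → pmap f X = pt (froot Q) → pmap f Y = pt (hpt t (froot R)) →
      |lamF v (X - Y)| ≤ C * (hgc t : ℝ) ^ 2 / P ^ j * -Real.log (v P) := by
  have n0 := fpi_neg hn
  have a1 : NS P (-n) := by simpa using ns_of_jac hn hP hJ hP.not_dvd_one odd_one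
  have a2 : ¬ P ∣ l := mt (Nat.prime_dvd_prime_iff_eq hP hl).1 hne
  obtain ⟨a, ha⟩ := a1.near (ns_of_jac hn hP hJ a2 (hl.odd_of_ne_two h2)) hP
  refine ⟨2 * a * P, by positivity, fun j r Q R t hQ hR ht K _ _ _ v f A X Y h hX hY => ?_⟩
  obtain ⟨i, b1, b2⟩ := a1.dp_hpt hP hR.disc hR.pos a2 ht
  have y := yv_froot hn hQ hl
  have z := zv_hpt hn hR hl hlJ (fun k => hne ((Nat.prime_dvd_prime_iff_eq hl hP).1
    (hl.dvd_of_dvd_pow k)).symm) ht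
  obtain ⟨_, c1⟩ := y.isCM n0
  obtain ⟨_, c2⟩ := z.isCM hl n0
  have p0 := hP.pos
  obtain ⟨k1, k2⟩ := h.lamF_le hP h15 c1.1 c2.1 (c1.val_jf _) (c2.val_jf _) hX hY (pow_ne_zero i p0.ne')
    (ha A h.val i _ _ ⟨c1.1, Q, rt_froot (hQ.disc ▸ n0) hQ.pos, hQ.disc, fun ⟨e1, e2, _⟩ =>
      a1.not_sq (hQ.disc ▸ dvd_sub (pow_dvd_pow_of_dvd e2 2) (sq (P : ℤ) ▸ mul_dvd_mul
        (e1.mul_left 4) ‹_›))⟩ b1 (y.jf_ne z hl n0))
  rw [abs_of_nonneg k1]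
  refine k2.trans (mul_le_mul_of_nonneg_right ?_
    (neg_nonneg.2 (Real.log_nonpos (v.nonneg _) h.lt.le)))
  rw [div_le_div_iff₀ (by positivity) (by positivity), mul_assoc _ (P : ℝ), mul_assoc (2 * a : ℝ)]
  gcongr
  exact_mod_cast b2

theorem loc_split (hn : Good n) (hP : P.Prime) (h15 : ¬ P ∣ 15) (hJ : J((P : ℤ) | n) = 1)
    (hl : l.Prime) (hne : P ≠ l) (hQ : IsHg (-n) r Q) {τ : ℂ} (hτ : Zv l (-n) τ) {K : Type}
    [Field K] [CharZero K] [DecidableEq K] {v : AbsoluteValue K ℝ} {f : K →+* ℂ}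
    {A : ValuationSubring ℂ} {X Y : Pt W15 K} (h : Pl P v f A) (hX : pmap f X = pt (froot Q))
    (hY : pmap f Y = pt τ) : lamF v (X - Y) = 0 := by
  have n0 := fpi_neg hn
  have y := yv_froot hn hQ hl
  have c1 := hQ.disc ▸ (rt_froot (hQ.disc ▸ n0) hQ.pos).isCM y.1 (hQ.disc ▸ n0)
  obtain ⟨_, c2⟩ := hτ.isCM hl n0
  obtain ⟨b, k, e, hb⟩ : ∃ b k : ℤ, b ^ 2 + n = 4 * P * k ∧ ¬ (P : ℤ) ∣ b := by
    rcases prime_cases hn hP with k | k | k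
    · exact k.2
    · exact absurd (hJ.symm.trans k.1) (by decide)
    · exact absurd (hJ.symm.trans (cld_zero hn hP k.1)) (by decide)
  have o := c1.ord hP h.val ⟨1, -n, b, by ring, fun ⟨c, k1⟩ =>
    hb ((Nat.prime_iff_prime_int.1 hP).dvd_of_dvd_pow (n := 2)
      ⟨4 * k + c, by linear_combination e + k1⟩), k, by linear_combination e⟩
  obtain ⟨k1, k2⟩ := h.lamF_le hP h15 c1.1 c2.1 (c1.val_jf _) (c2.val_jf _) hX hY (a := 0) one_ne_zero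
    (by rw [y.val_sub hτ hl n0 hP h.val hne o, pow_zero, one_pow])
  exact le_antisymm (by simpa using k2) k1

end Pool.Agent.Dih
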