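import Pool.Agent.Lib.MP_60ff09_nt.Dih.CL0
import Pool.Agent.Lib.MP_696deb_nt.Hecke

/-! The Hecke operators on the modular parametrization. -/

set_option autoImplicit false

open Complex Filter Topology Finset NumberTheorySymbols
open scoped Real ComplexConjugate Classical
open Pool.Agent.Lib.MP_696deb_nt Pool.Agent.Lib.MP_696deb_nt.B2.CM

namespace Pool.Agent.Dih

theorem hk_div {l : ℕ} (hl : l ≠ 0) (x y : ℕ) :
    (if l ∣ x then (l : ℤ) * ∑ d ∈ ((x / l).gcd y).divisors, d * a15 (x / l * y / d ^ 2) else 0) =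
      ∑ e ∈ (x.gcd (l * y)).divisors with l ∣ e, e * a15 (l * x * y / e ^ 2) := by
  split_ifs with h
  · obtain ⟨x, rfl⟩ := h
    rw [Nat.mul_div_cancel_left _ hl.bot_lt, Nat.gcd_mul_left, mul_sum]
    refine sum_bij (fun d _ => l * d) (fun d hd => ?_) (fun _ _ _ _ => mul_left_cancel₀ hl)
      (fun e he => ?_) fun d _ => ?_
    · simpa [hl, Nat.mul_dvd_mul_iff_left hl.bot_lt] using hd
    · obtain ⟨h1, d, rfl⟩ := mem_filter.1 he
      exact ⟨d, by simpa [hl, Nat.mul_dvd_mul_iff_left hl.bot_lt] using h1, rfl⟩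
    · rw [show l * (l * x) * y = l ^ 2 * (x * y) by ring, mul_pow,
        Nat.mul_div_mul_left _ _ (pow_pos hl.bot_lt 2), Nat.cast_mul, mul_assoc]
  · refine (sum_eq_zero fun e he => absurd ?_ h).symm
    obtain ⟨h1, h2⟩ := mem_filter.1 he
    exact h2.trans ((Nat.dvd_of_mem_divisors h1).trans (Nat.gcd_dvd_left _ _))

theorem hecke_conv {m k : ℕ} (hm : m.Coprime 15) (hk : k ≠ 0) :
    a15 m * a15 k = ∑ d ∈ (m.gcd k).divisors, d * a15 (m * k / d ^ 2) := by
  induction m using Nat.strong_induction_on generalizing k with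
  | _ m ih =>
  by_cases h1 : m = 1
  · simp [h1, a15_one]
  obtain ⟨l, hl, m, rfl⟩ := Nat.exists_prime_and_dvd h1
  have l0 := hl.ne_zero
  have h15 : ¬ l ∣ 15 := hl.coprime_iff_not_dvd.1 hm.coprime_mul_right
  have m0 : m ≠ 0 := by
    rintro rfl
    simp at hm
  have lt : m < l * m := lt_mul_left m0.bot_lt hl.one_lt
  have r1 := hecke15.rel l hl m m0.bot_lt
  have r2 := hecke15.rel l hl k hk.bot_lt
  have e1 := hk_div l0 m k
  have e2 := hk_div l0 k m
  have e3 := ih m lt hm.coprime_mul_left (mul_ne_zero l0 hk)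
  have e4 : ∑ e ∈ (k.gcd (l * m)).divisors with ¬ l ∣ e, (e : ℤ) * a15 (l * m * k / e ^ 2) =
      ∑ e ∈ (m.gcd (l * k)).divisors with ¬ l ∣ e, e * a15 (l * m * k / e ^ 2) :=
    sum_congr (ext fun e => by
      simp only [mem_filter, Nat.mem_divisors, Nat.dvd_gcd_iff, Ne, Nat.gcd_eq_zero_iff, hk, m0,
        false_and, not_false_iff, and_true]
      refine and_congr_left fun h => ?_
      have c := (hl.coprime_iff_not_dvd.2 h).symm
      rw [c.dvd_mul_left, c.dvd_mul_left, and_comm]) fun _ _ => rfl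
  simp only [h15, if_false] at r1 r2
  rw [show m * (l * k) = l * m * k by ring, ← sum_filter_add_sum_filter_not _ (l ∣ ·), ← e1,
    ← e4] at e3
  rw [mul_right_comm] at e2
  rw [Nat.gcd_comm, ← sum_filter_add_sum_filter_not _ (l ∣ ·), ← e2]
  have e5 : (if l ∣ m then (l : ℤ) * ∑ d ∈ ((m / l).gcd k).divisors,
      d * a15 (m / l * k / d ^ 2) else 0) = (if l ∣ m then l * a15 (m / l) else 0) * a15 k := by
    split_ifs with h
    · rw [← ih _ ((Nat.div_le_self _ _).trans_lt lt)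
        (hm.coprime_mul_left.coprime_dvd_left (Nat.div_dvd_of_dvd h)) hk, mul_assoc]
    · rw [zero_mul]
  have e6 : (if l ∣ k then (l : ℤ) * ∑ d ∈ ((k / l).gcd m).divisors,
      d * a15 (k / l * m / d ^ 2) else 0) = (if l ∣ k then l * a15 (k / l) else 0) * a15 m := by
    split_ifs with h
    · rw [Nat.gcd_comm, mul_comm (k / l), ← ih m lt hm.coprime_mul_left
        (Nat.div_pos (Nat.le_of_dvd hk.bot_lt h) hl.pos).ne']
      ring
    · rw [zero_mul]
  rw [e5] at e3
  rw [e6]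
  linear_combination e3 + a15 k * r1 - a15 m * r2

theorem hk_roots {d : ℕ} (hd : d ≠ 0) (n : ℕ) :
    ∑ b ∈ range d, q1 (b / d) ^ n = if d ∣ n then (d : ℂ) else 0 := by
  have h := isPrimitiveRoot_exp d hd
  have e : ∀ b : ℕ, q1 (b / d) ^ n = (cexp (2 * π * I / d) ^ n) ^ b := fun b => by
    rw [← pow_mul, mul_comm n, pow_mul, ← exp_nat_mul, q1]
    congr 2
    ring
  simp only [e]
  split_ifs with k
  · simp [(h.pow_eq_one_iff_dvd n).2 k]
  · rw [geom_sum_eq (mt (h.pow_eq_one_iff_dvd n).1 k), ← pow_mul, mul_comm n, pow_mul,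
      h.pow_eq_one, one_pow, sub_self, zero_div]

theorem hk_has {a d : ℕ} (ha : a ≠ 0) (hd : d ≠ 0) {τ : ℂ} (hτ : 0 < τ.im) :
    HasSum (fun N => (if a ∣ N then (a : ℂ) * a15 (a * d * N / a ^ 2) else 0) / N * q1 τ ^ N)
      (∑ b ∈ range d, Fi ((a * τ + b) / d)) := by
  have a0 : (a : ℂ) ≠ 0 := by exact_mod_cast ha
  have d0 : (d : ℂ) ≠ 0 := by exact_mod_cast hd
  have h1 := hasSum_sum (s := range d) fun b _ => qe_Fi.hasSum (z := (a * τ + b) / d) (by
    rw [div_natCast_im]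
    simp only [add_im, natCast_im, add_zero, mul_im, natCast_re, zero_mul]
    positivity)
  simp only [add_div, q1_add, mul_pow, PowerSeries.coeff_mk, ← mul_sum, hk_roots hd] at h1
  rw [← (mul_right_injective₀ hd).hasSum_iff fun n hn => by
    rw [if_neg fun ⟨k, e⟩ => hn ⟨k, e.symm⟩, mul_zero, mul_zero]] at h1
  rw [← (mul_right_injective₀ ha).hasSum_iff fun n hn => by
    rw [if_neg fun ⟨k, e⟩ => hn ⟨k, e.symm⟩, zero_div, zero_mul]]
  simp only [add_div]
  convert! h1 using 1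
  ext n
  simp only [Function.comp, dvd_mul_right, if_true]
  rw [show a * d * (a * n) = a ^ 2 * (d * n) by ring, Nat.mul_div_cancel_left _ (by positivity),
    pow_mul, pow_mul, ← q1_nat_mul, ← q1_nat_mul d, mul_div_cancel₀ _ d0]
  push_cast
  by_cases n0 : (n : ℂ) = 0
  · simp [n0]
  · field_simp

theorem hsum_Fi {M : ℕ} (hM : M.Coprime 15) {τ : ℂ} (hτ : 0 < τ.im) :
    hsum M Fi τ = a15 M * Fi τ := by
  have M0 : M ≠ 0 := by
    rintro rfl
    simp at hM
  refine (hasSum_sum fun x hx => hk_has (Nat.left_ne_zero_of_mem_divisorsAntidiagonal hx)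
    (Nat.right_ne_zero_of_mem_divisorsAntidiagonal hx) hτ).unique ?_
  convert! (qe_Fi.hasSum hτ).mul_left (a15 M : ℂ) using 2 with N
  rw [← sum_mul, ← sum_div, PowerSeries.coeff_mk, ← mul_assoc, mul_div_assoc']
  rcases eq_or_ne N 0 with rfl | N0
  · simp
  rw [← Int.cast_mul, hecke_conv hM N0, sum_congr rfl fun x hx => by
    rw [(Nat.mem_divisorsAntidiagonal.1 hx).1], Nat.sum_divisorsAntidiagonal
      fun a _ => if a ∣ N then (a : ℂ) * a15 (M * N / a ^ 2) else 0, ← sum_filter]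
  push_cast
  congr 3
  ext e
  simp [Nat.dvd_gcd_iff, M0]

theorem cassini {l : ℕ} (hl : l.Prime) (h15 : ¬ l ∣ 15) (j : ℕ) :
    a15 (l ^ (j + 1)) ^ 2 - a15 (l ^ (j + 2)) * a15 (l ^ j) = (l : ℤ) ^ (j + 1) := by
  have r := hecke15.pow_rec' hl
  simp only [h15, if_false] at r
  induction j with
  | zero => rw [r]; simp [a15_one, sq]
  | succ j ih => linear_combination l * ih - a15 (l ^ (j + 1)) * r (j + 1) + a15 (l ^ (j + 2)) * r j

/-- The coefficients at the powers of a good prime are not polynomially bounded. -/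
theorem eq_zero_of_poly {l : ℕ} (hl : l.Prime) (h15 : ¬ l ∣ 15) {x C : ℝ} {k : ℕ}
    (h : ∀ j : ℕ, |a15 (l ^ j) * x| ≤ C * (j + 1) ^ k) : x = 0 := by
  have C0 : 0 ≤ C := by simpa using (abs_nonneg _).trans (h 0)
  have b : ∀ i j : ℕ, i ≤ j + 2 → |a15 (l ^ i) * x| ≤ C * ((j + 3 : ℕ) : ℝ) ^ k := fun i j e =>
    (h i).trans (by
      gcongr
      exact_mod_cast Nat.succ_le_succ e)
  have t := ((tendsto_pow_const_div_const_pow_of_one_lt (k + k) (one_lt_two (α := ℝ))).comp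
    (tendsto_add_atTop_nat 3)).const_mul (8 * C ^ 2)
  rw [mul_zero] at t
  refine pow_eq_zero_iff two_ne_zero |>.1 (le_antisymm (ge_of_tendsto' t fun j => ?_) (sq_nonneg x))
  have e : (a15 (l ^ (j + 1)) : ℝ) ^ 2 - a15 (l ^ (j + 2)) * a15 (l ^ j) = (l : ℝ) ^ (j + 1) := by
    exact_mod_cast cassini hl h15 j
  have h1 := mul_self_le_mul_self (abs_nonneg _) (b (j + 1) j (by omega))
  have h2 := mul_le_mul (b (j + 2) j le_rfl) (b j j (by omega)) (abs_nonneg _) (by positivity)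
  have h3 : (2 : ℝ) ^ (j + 1) ≤ (l : ℝ) ^ (j + 1) := by
    gcongr
    exact_mod_cast hl.two_le
  rw [abs_mul_abs_self] at h1
  rw [← abs_mul] at h2
  rw [Function.comp, mul_div_assoc', le_div_iff₀ (by positivity), pow_add _ k, pow_add _ (j + 1) 2]
  nlinarith [neg_abs_le (a15 (l ^ (j + 2)) * x * (a15 (l ^ j) * x)), sq_nonneg x]

end Pool.Agent.Dih
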