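import Pool.Agent.Lib.MP_60ff09_nt.Dih.FPc
import Pool.Agent.Lib.MP_60ff09_nt.Dih.FPd
import Pool.Agent.Lib.MP_60ff09_nt.Dih.FPi
import Pool.Agent.Lib.MP_60ff09_nt.Dih.CTg
import Pool.Agent.Lib.MP_60ff09_nt.Dih.HK

/-! The height pairing after a Hecke correspondence. -/

set_option autoImplicit false

open Complex Finset NumberTheorySymbols
open scoped Real ComplexConjugate Classical
open Pool.Agent.Lib.MP_696deb_nt Pool.Agent.Lib.MP_696deb_nt.B2.CM Pool.Agent.Lib.MP_696deb_nt.Unif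

namespace Pool.Agent.Dih

variable {n l M P : ℕ} [Fintype (Pc n 1)] {r : ℤ} {e : Pc n 1 → Fm} {W : Pc n 1 → ℤ}

omit [Fintype (Pc n 1)] in
theorem fpj_pos (he : HFam n r e) (hn : Good n) (x : Pc n 1) : 0 < (froot (e x)).im :=
  im_froot_pos ((he x).1.disc ▸ fpi_neg hn) (he x).1.pos

theorem fpj_sum (W : Pc n 1 → ℤ) (g : Pc n 1 → ℂ → ℝ) :
    ∑ x, ∑ y : Pc n 1 × HI M, (W (x * y.1⁻¹) : ℝ) * g x (hpt y.2 (froot (e y.1))) =
      ∑ x, ∑ y, (W (x * y⁻¹) : ℝ) * hsum M (g x) (froot (e y)) := by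
  refine sum_congr rfl fun x _ => ?_
  rw [Fintype.sum_prod_type]
  refine sum_congr rfl fun y _ => ?_
  rw [hsum_eq, mul_sum]
  exact sum_coe_sort (HI M) fun t => (W (x * y⁻¹) : ℝ) * g x (hpt t (froot (e y)))

omit [Fintype (Pc n 1)] in
theorem fpj_pair {Q : Fm} (hn : Good n) (hQ : IsHg (-n) r Q) (h15 : M.Coprime 15) {X : Pt W15 ℂ}
    (hX : X ∈ Alg W15) :
    hsum M (fun z => hpair X (pt z)) (froot Q) = a15 M * hpair X (pt (froot Q)) := by
  have h0 : 0 < (froot Q).im := im_froot_pos (hQ.disc ▸ fpi_neg hn) hQ.pos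
  have h1 : ∑ t : HI M, (⟨_, hpt_alg hn hQ t.2⟩ : Alg W15) =
      a15 M • ⟨_, Gal.alg_pt (fpi_neg hn) hQ⟩ := Subtype.ext (by
    rw [AddSubmonoidClass.coe_finsetSum, AddSubgroupClass.coe_zsmul]
    change ∑ t : HI M, pt (hpt t (froot Q)) = a15 M • pt (froot Q)
    rw [pt_eq_u15 h0, ← map_zsmul, zsmul_eq_mul, ← hsum_Fi h15 h0, hsum_eq, map_sum,
      ← sum_coe_sort (HI M)]
    exact sum_congr rfl fun t _ => pt_eq_u15 (hpt_im t.2 h0))
  have h2 := congrArg (hbil ⟨X, hX⟩) h1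
  rw [map_sum, map_zsmul, zsmul_eq_mul] at h2
  rw [hsum_eq, ← sum_coe_sort (HI M)]
  exact h2

theorem fpj_row (hW0 : ∑ x, W x = 0) (y : Pc n 1) : ∑ x, W (x * y⁻¹) = 0 :=
  (Equiv.sum_comp (Equiv.mulRight y⁻¹) W).trans hW0

theorem HFam.height (he : HFam n r e) (hn : Good n) (hr : 60 ∣ r ^ 2 + n) (hW0 : ∑ x, W x = 0)
    (h15 : M.Coprime 15) (h0 : ∀ c, rcl n c M = 0) (hP : P.Prime) {B : ℝ} (hB0 : 0 ≤ B)
    (hB : LocB P (fun x => froot (e x)) (fun y : Pc n 1 × HI M => hpt y.2 (froot (e y.1)))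
      (fun x y => W (x * y.1⁻¹)) B) :
    ∃ ρ : ℚ, |(ρ : ℝ)| ≤ B ∧ a15 M * hW e W - 2 * aW e W M - ρ * Real.log P ∈ LogS P := by
  have a1 : ∀ y : Pc n 1 × HI M, pt (hpt y.2 (froot (e y.1))) ∈ Alg W15 := fun y =>
    hpt_alg hn (he y.1).1 y.2.2
  obtain ⟨ρ, h1, h2⟩ := height_dec (τ := fun x => froot (e x))
    (τ' := fun y : Pc n 1 × HI M => hpt y.2 (froot (e y.1))) (c := fun x y => W (x * y.1⁻¹))
    (fpj_pos he hn) (fun y => hpt_im y.2.2 (fpj_pos he hn y.1))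
    (fun x y => sub_notMem nerData15 hn hr he h15 h0 x y.1 (mem_HI.1 y.2.2).1 (mem_HI.1 y.2.2).2.2)
    (fun x => by
      rw [Fintype.sum_prod_type, sum_comm]
      refine sum_eq_zero fun t _ => ?_
      exact (Equiv.sum_comp ((Equiv.inv _).trans (Equiv.mulLeft x)) W).trans hW0)
    (fun y => fpj_row hW0 y.1) (fun x => Gal.alg_pt (fpi_neg hn) (he x).1)
    a1 (fun s => by
      rw [fpj_sum W fun x z => lamArch (pmap (s : ℂ →+* ℂ) (pt (froot (e x)) - pt z)),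
        fpj_sum W fun x z => lamArch (pt (froot (e x)) - pt z)]
      exact he.gal_inv hn hr W h15 s) hP hB0 hB
  refine ⟨ρ, h1, ?_⟩
  rw [fpj_sum W fun x z => hpair (pt (froot (e x))) (pt z),
    fpj_sum W fun x z => lam15 (Fi (froot (e x)) - Fi z)] at h2
  rw [aW]
  convert h2 using 3
  rw [hW, mul_sum]
  refine sum_congr rfl fun x _ => ?_
  rw [mul_sum]
  refine sum_congr rfl fun y _ => ?_
  rw [fpj_pair hn (he y).1 h15 (Gal.alg_pt (fpi_neg hn) (he x).1), mul_left_comm]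

theorem HFam.height_split (he : HFam n r e) (hn : Good n) (hr : 60 ∣ r ^ 2 + n)
    (hW0 : ∑ x, W x = 0) (hl : l.Prime) (hl15 : ¬ l ∣ 15) (hlJ : J((l : ℤ) | n) = -1)
    (hP : P.Prime) (hJ : J((P : ℤ) | n) = 1) : a15 l * hW e W - 2 * aW e W l ∈ LogS P := by
  have hz : ∀ y : Pc n 1 × HI l, Zv l (-n) (hpt y.2 (froot (e y.1))) := fun y =>
    zv_hpt (m := 1) hn (he _).1 hl hlJ hl.not_dvd_one (by simp)
  obtain ⟨ρ, h1, h2⟩ := he.height hn hr hW0 (hl.coprime_iff_not_dvd.2 hl15) (fun c => by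
    simpa using rcl_eq_zero hn hl hlJ (m := 1) (Nat.prime_iff_prime_int.1 hl).not_dvd_one c) hP
    le_rfl fun K _ _ _ v f A X Y hv hX hY => by
      rw [zero_mul, abs_nonpos_iff]
      by_cases h15 : P ∣ 15
      · rw [sum_comm]
        exact sum_eq_zero fun y _ => hv.sum_lamF hP h15 hn hl hl15 (fun x => (he x).1)
          (fpj_row hW0 y.1) (hz y) hX (hY y)
      · refine sum_eq_zero fun x _ => sum_eq_zero fun y _ => ?_
        rw [loc_split hn hP h15 hJ hl (fun k => by rw [k, hlJ] at hJ; omega) (he x).1 (hz y) hv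
          (hX x) (hY y), mul_zero]
  rwa [abs_nonpos_iff.1 h1, zero_mul, sub_zero] at h2

theorem HFam.height_nonsplit (he : HFam n r e) (hn : Good n) (hr : 60 ∣ r ^ 2 + n)
    (hW0 : ∑ x, W x = 0) (hl : l.Prime) (hl30 : ¬ l ∣ 30) (hlJ : J((l : ℤ) | n) = -1)
    (hP : P.Prime) (h15 : ¬ P ∣ 15) (hJ : J((P : ℤ) | n) ≠ 1) (hne : P ≠ l) :
    ∃ C : ℝ, ∀ j : ℕ, ∃ ρ : ℚ, |(ρ : ℝ)| ≤ C * (j + 1) ^ 2 ∧
      a15 (l * P ^ j) * hW e W - 2 * aW e W (l * P ^ j) - ρ * Real.log P ∈ LogS P := by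
  obtain ⟨C, C0, hC⟩ := loc_nonsplit hn hP h15 hJ hl (fun k => hl30 (by rw [k]; norm_num)) hlJ hne
  have cop := (Nat.coprime_primes hl hP).2 hne.symm
  refine ⟨(∑ x, ∑ y, |(W (x * y⁻¹) : ℝ)|) * (C * (4 * l)), fun j => he.height hn hr hW0
    ((hl.coprime_iff_not_dvd.2 fun k => hl30 (k.trans (by norm_num))).mul_left
      ((hP.coprime_iff_not_dvd.2 h15).pow_left j)) (fun c => ?_) hP (by positivity)
    fun K _ _ _ v f A X Y hv hX hY => ?_⟩
  · rw [Nat.cast_mul]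
    exact rcl_eq_zero hn hl hlJ (fun k => hl.coprime_iff_not_dvd.1 (cop.pow_right j)
      (by exact_mod_cast k)) c
  have hL : 0 ≤ -Real.log (v P) := neg_nonneg.2 (Real.log_nonpos (v.nonneg _) hv.lt.le)
  have hS : ∑ t : HI (l * P ^ j), (hgc t : ℝ) ^ 2 ≤ 4 * l * (j + 1) ^ 2 * P ^ j := by
    have k := sum_hgc_le (l * P ^ j)
    rw [(cop.pow_right j).card_divisors_mul, hl.divisors, Nat.divisors_prime_pow hP,
      card_pair hl.one_lt.ne, card_map, card_range, ← sum_coe_sort] at k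
    exact_mod_cast k.trans_eq (by ring)
  have p0 : (0 : ℝ) < P ^ j := by have := hP.pos; positivity
  refine (abs_sum_le_sum_abs _ _).trans ?_
  rw [sum_mul, sum_mul, sum_mul]
  refine sum_le_sum fun x _ => (abs_sum_le_sum_abs _ _).trans ?_
  rw [Fintype.sum_prod_type, sum_mul, sum_mul, sum_mul]
  refine sum_le_sum fun y _ => ?_
  calc _ ≤ ∑ t : HI (l * P ^ j), |(W (x * y⁻¹) : ℝ)| *
        (C * (hgc t : ℝ) ^ 2 / P ^ j * -Real.log (v P)) := sum_le_sum fun t _ => by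
        rw [abs_mul]
        exact mul_le_mul_of_nonneg_left
          (hC j r _ _ t (he x).1 (he y).1 t.2 K v f A _ _ hv (hX x) (hY (y, t))) (abs_nonneg _)
    _ = |(W (x * y⁻¹) : ℝ)| * (C * (∑ t : HI (l * P ^ j), (hgc t : ℝ) ^ 2) / P ^ j *
        -Real.log (v P)) := by rw [← mul_sum, ← sum_mul, ← sum_div, ← mul_sum]
    _ ≤ |(W (x * y⁻¹) : ℝ)| * (C * (4 * l * (j + 1) ^ 2 * P ^ j) / P ^ j * -Real.log (v P)) := by
        gcongr
    _ = _ := by field_simp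

end Pool.Agent.Dih
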