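import Pool.Agent.Lib.MP_60ff09_nt.Dih.FPj
import Pool.Agent.Lib.MP_60ff09_nt.Dih.ANs2
import Pool.Agent.Lib.MP_60ff09_nt.Dih.EV

/-! The formula of Gross and Zagier for characters of the class group. -/

set_option autoImplicit false

open Complex Finset NumberTheorySymbols
open scoped Real ComplexConjugate Classical
open Pool.Agent.Lib.MP_696deb_nt Pool.Agent.Lib.MP_696deb_nt.B2.CM Pool.Agent.Lib.MP_696deb_nt.Unif

namespace Pool.Agent.Dih

theorem fpz_key {δ C : ℝ} {P l : ℕ} (hP : P.Prime) (h15 : ¬ P ∣ 15) (hl : l.Prime) (hne : l ≠ P)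
    (ha : a15 l ≠ 0) (h : ∀ j : ℕ, ∃ σ : ℚ, |(σ : ℝ)| ≤ C * (j + 1) ^ 4 ∧
      a15 (l * P ^ j) * δ - σ * Real.log P ∈ LogS P) : δ ∈ LogS P := by
  obtain ⟨σ0, -, h0⟩ := h 0
  rw [pow_zero, mul_one] at h0
  have ha' : (a15 l : ℝ) ≠ 0 := by exact_mod_cast ha
  obtain ⟨c, hc⟩ : ∃ c : ℚ, c = σ0 / a15 l := ⟨_, rfl⟩
  have h1 : δ - c * Real.log P ∈ LogS P := by
    refine LogS.of_mul (r := a15 l) (by exact_mod_cast ha) ?_
    have e : ((a15 l : ℚ) : ℝ) * (δ - c * Real.log P) = a15 l * δ - σ0 * Real.log P := by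
      rw [hc]
      push_cast
      field_simp
    rwa [e]
  have h2 : (a15 l : ℝ) * c = 0 := by
    refine eq_zero_of_poly hP h15 (C := C) (k := 4) fun j => ?_
    obtain ⟨σ, k1, k2⟩ := h j
    have k3 : (a15 (l * P ^ j) : ℚ) * c - σ = 0 := by
      refine eq_zero_of_log hP ?_
      have e : (((a15 (l * P ^ j) : ℚ) * c - σ : ℚ) : ℝ) * Real.log P =
          a15 (l * P ^ j) * δ - σ * Real.log P - a15 (l * P ^ j) * (δ - c * Real.log P) := by
        push_cast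
        ring
      rw [e]
      exact sub_mem k2 (LogS.int_mul _ h1)
    rw [hecke15.mul_coprime hl.pos (pow_pos hP.pos j)
      (((Nat.coprime_primes hl hP).2 hne).pow_right j), sub_eq_zero] at k3
    have e : (a15 (P ^ j) : ℝ) * (a15 l * c) = σ := by
      rw [← k3]
      push_cast
      ring
    rwa [e]
  rwa [(mul_eq_zero.1 h2).resolve_left ha', zero_mul, sub_zero] at h1

theorem fpz_cop {l : ℕ} (hl : l.Prime) (h : ¬ l ∣ 15) : l.Coprime 15 :=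
  (Nat.Prime.coprime_iff_not_dvd hl).2 h

theorem fpz_not {l : ℕ} (hl : l.Prime) (h : 5 < l) : ¬ l ∣ 30 := fun e => by
  have := Nat.le_of_dvd (by norm_num) e
  interval_cases l <;> first | omega | norm_num at hl

theorem fpz_zero {G : Type} [CommGroup G] [Fintype G] (ψ : G →* ℂ) {u : G} (hu : ψ u ≠ 1)
    (F : G → ℂ) (hF : ∀ z, F (u * z) = F z) : ∑ z, ψ z * F z = 0 := by
  have h := Equiv.sum_comp (Equiv.mulLeft u) fun z => ψ z * F z
  simp only [Equiv.coe_mulLeft, map_mul, hF, mul_assoc, ← mul_sum] at h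
  have : (ψ u - 1) * ∑ z, ψ z * F z = 0 := by rw [sub_mul, h, one_mul, sub_self]
  exact (mul_eq_zero.1 this).resolve_left (sub_ne_zero.2 hu)

theorem fpz_swap {G : Type} [CommGroup G] [Fintype G] (ψ : G → ℂ) (N : G) (H : G → G → ℂ)
    (hH : ∀ x y, H x y = H y x) :
    ∑ x, ∑ y, ψ (x * y⁻¹) * H x y = ∑ x, ∑ y, ψ (x * y⁻¹) * H (N * x⁻¹) (N * y⁻¹) := by
  let τ : G ≃ G := (Equiv.inv G).trans (Equiv.mulLeft N)
  have hτ : ∀ x, τ x = N * x⁻¹ := fun _ => rfl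
  rw [← Equiv.sum_comp τ, sum_comm, ← Equiv.sum_comp τ]
  refine sum_congr rfl fun x _ => sum_congr rfl fun y _ => ?_
  rw [hτ, hτ, hH, mul_inv, inv_inv, mul_mul_mul_comm, mul_inv_cancel, one_mul, mul_comm y⁻¹]

theorem fpz_series {n : ℕ} (hn : Good n) [Fintype (Pc n 1)] (ψ : Pc n 1 → ℂ)
    (W : Pc n 1 → Pc n 1 → ℂ) (h : ∀ w, ψ w = ∑ z, ψ z * W z w) {s : ℂ} (hs : 2 < s.re) :
    LSeries (fun m => bch ψ m * a15 m) s =
      ∑ z, ψ z / 2 * LSeries (fun m => 2 * bch (W z) m * a15 m) s := by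
  have h1 : ∀ z, LSeriesSummable (fun m => 2 * bch (W z) m * a15 m) s := fun z => by
    refine summable_rankin (c := fun m => 2 * bch (W z) m) (fun ε hε => ?_) (by linarith)
    obtain ⟨C, hC⟩ := norm_bch_le hn (W z) hε
    refine ⟨2 * C, fun m hm => ?_⟩
    rw [norm_mul, Complex.norm_ofNat, mul_assoc]
    exact mul_le_mul_of_nonneg_left (hC m hm) zero_le_two
  have h2 : ∀ m, bch ψ m = ∑ z, ψ z * bch (W z) m := fun m => by
    simp only [bch, ← mul_div_assoc, ← sum_div, mul_sum, ← mul_assoc]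
    rw [sum_comm]
    simp only [← sum_mul, ← h]
  have h3 := hasSum_sum (s := univ) fun z _ => (h1 z).hasSum.mul_left (ψ z / 2)
  refine HasSum.tsum_eq (h3.congr_fun fun m => ?_)
  rcases eq_or_ne m 0 with rfl | hm
  · simp
  simp only [LSeries.term_of_ne_zero hm]
  rw [h2, sum_mul, sum_div]
  exact sum_congr rfl fun z _ => by ring

theorem gz_ht (p q : ℕ) : ∃ C : ℂ, ∀ (χ r : ℤ) [Fintype (Pc (p * q) 1)]
    (e : Pc (p * q) 1 → Fm) (W : Pc (p * q) 1 → ℤ), (Par.mk p q χ χ).Ok →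
    60 ∣ r ^ 2 + (p * q : ℕ) → HFam (p * q) r e → ∑ x, W x = 0 → (∀ x, W x ≠ 0 → gcl p x = χ) →
    ∃ L : ℂ → ℂ, Differentiable ℂ L ∧ L 1 = 0 ∧
      (∀ s : ℂ, 2 < s.re → L s = LSeries (e15 (p * q)) (2 * s - 1) *
        LSeries (fun m => 2 * bch (fun x => (W x : ℂ)) m * a15 m) s) ∧
      C * deriv L 1 = (2 * hW e W : ℝ) := by
  obtain ⟨C, hC⟩ := gz_cls nerData15 p q
  refine ⟨C, fun χ r inst e W h hr he hW0 hg => ?_⟩
  obtain ⟨L, h1, h2, h3, h4⟩ := hC χ r e W h hr he hW0 hg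
  refine ⟨L, h1, h2, h3, ?_⟩
  have hn : Good (p * q) := h.good
  have hD : (Par.mk p q χ χ).Dat (TW W) (wW W) :=
    @Par.Ok.dat ⟨p, q, χ, χ⟩ inst h W hW0 fun x hx => ⟨hg x hx, hg x hx⟩
  have hJ : ∀ a : ℤ, J(a | p * q) = J(a | p) * J(a | q) := cle_jac h
  have hI : ∀ B : ℕ, ∃ l > B, l.Prime ∧ l % 4 = 1 ∧ J((l : ℤ) | p * q) = -1 ∧ a15 l ≠ 0 :=
    h.exists_inert
  obtain ⟨φ, hφ⟩ : ∃ φ : ℕ → ℝ, φ = (Par.mk p q χ χ).fin (TW W) (wW W) := ⟨_, rfl⟩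
  have h5 : ∀ l m : ℕ, l.Prime → ¬ l ∣ 15 → J((l : ℤ) | p * q) = -1 → m.Coprime 15 → ¬ l ∣ m →
      C * a15 (l * m) * deriv L 1 = (φ (l * m) + 4 * aW e W (l * m) : ℝ) :=
    fun l m k1 k2 k3 k4 k5 => by
      rw [hφ]
      refine h4 (l * m) ((fpz_cop k1 k2).mul_left k4) fun c => ?_
      rw [Nat.cast_mul]
      exact rcl_eq_zero hn k1 k3 (by exact_mod_cast k5) c
  obtain ⟨z, hz⟩ : ∃ z : ℝ, C * deriv L 1 = z := by
    obtain ⟨l, k0, k1, -, k3, k4⟩ := hI 5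
    have k5 := h5 l 1 k1 (fun e => fpz_not k1 k0 (e.trans (by norm_num))) k3 (by norm_num)
      k1.not_dvd_one
    rw [mul_one] at k5
    have k6 : (a15 l : ℂ) ≠ 0 := by exact_mod_cast k4
    refine ⟨(φ l + 4 * aW e W l) / a15 l, ?_⟩
    rw [ofReal_div, ← k5, ofReal_intCast]
    field_simp
  have h6 : ∀ l m : ℕ, l.Prime → ¬ l ∣ 15 → J((l : ℤ) | p * q) = -1 → m.Coprime 15 → ¬ l ∣ m →
      a15 (l * m) * (2 * hW e W - z) =
        2 * (a15 (l * m) * hW e W - 2 * aW e W (l * m)) - φ (l * m) :=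
    fun l m k1 k2 k3 k4 k5 => by
      have k6 := h5 l m k1 k2 k3 k4 k5
      rw [mul_right_comm, hz, ← ofReal_intCast, ← ofReal_mul, ofReal_inj] at k6
      linear_combination -k6
  rw [hz, ofReal_inj, eq_comm, ← sub_eq_zero]
  refine eq_zero_of_mem_LogS fun P hP => ?_
  obtain ⟨l, k0, k1, -, k3, k4⟩ := hI (max P 5)
  have k30 := fpz_not k1 ((le_max_right _ _).trans_lt k0)
  have k15 : ¬ l ∣ 15 := fun e => k30 (e.trans (by norm_num))
  have kP : P ≠ l := ((le_max_left _ _).trans_lt k0).ne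
  by_cases hs : J((P : ℤ) | p * q) = 1
  · have k6 := h6 l 1 k1 k15 k3 (by norm_num) k1.not_dvd_one
    rw [mul_one] at k6
    refine LogS.of_mul (r := a15 l) (by exact_mod_cast k4) ?_
    rw [Rat.cast_intCast, k6]
    refine sub_mem ?_ ?_
    · simpa using LogS.int_mul 2 (he.height_split hn hr hW0 k1 k15 k3 hP hs)
    · rw [hφ]
      exact hD.fin_split hP (hJ _ ▸ hs) l
  have h15 : ¬ P ∣ 15 := fun hd => by
    refine hs (jac_of_split hn hP (fun e => hP.ne_one (Nat.eq_one_of_dvd_coprimes hn.cop e hd))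
      (x := r) (Dvd.dvd.trans ?_ hr))
    exact_mod_cast Nat.mul_dvd_mul_left 4 hd
  obtain ⟨C1, hC1⟩ := he.height_nonsplit hn hr hW0 k1 k30 k3 hP h15 hs kP
  obtain ⟨C2, hC2⟩ := hD.fin_nonsplit hP h15 (hJ _ ▸ hs) l
  rw [← hφ] at hC2
  refine fpz_key (C := 2 * |C1| + C2) hP h15 k1 kP.symm k4 fun j => ?_
  obtain ⟨ρ1, u1, v1⟩ := hC1 j
  obtain ⟨ρ2, u2, v2⟩ := hC2 j
  refine ⟨2 * ρ1 - ρ2, ?_, ?_⟩
  · have j1 : (1 : ℝ) ≤ j + 1 := by linarith [Nat.cast_nonneg (α := ℝ) j]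
    have j2 : C1 * ((j : ℝ) + 1) ^ 2 ≤ |C1| * (j + 1) ^ 4 :=
      mul_le_mul (le_abs_self _) (pow_le_pow_right₀ j1 (by norm_num)) (by positivity)
        (abs_nonneg _)
    push_cast
    refine (abs_sub _ _).trans ?_
    rw [abs_mul, abs_two]
    linarith
  · rw [h6 l (P ^ j) k1 k15 k3 ((fpz_cop hP h15).pow_left j)
      fun e => kP ((Nat.prime_dvd_prime_iff_eq k1 hP).1 (k1.dvd_of_dvd_pow e)).symm]
    have := sub_mem (LogS.int_mul 2 v1) v2
    refine (congrArg (· ∈ LogS P) ?_).mp this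
    push_cast
    ring

theorem gz_char {p q : ℕ} (hp : p.Prime) (hq : q.Prime) (p4 : p % 4 = 1) (q4 : q % 4 = 3)
    (p5 : p ≠ 5) (q3 : q ≠ 3) {r : ℤ} (hr : 60 ∣ r ^ 2 + (p * q : ℕ)) [Fintype (Pc (p * q) 1)]
    (ψ : Pc (p * q) 1 →* ℂ) (hψ : ∃ x, ψ (x ^ 2) ≠ 1) :
    ∃ (C : ℂ) (L : ℂ → ℂ), Differentiable ℂ L ∧ L 1 = 0 ∧
      (∀ s : ℂ, 2 < s.re → L s = LSeries (e15 (p * q)) (2 * s - 1) *
        LSeries (fun m => bch ψ m * a15 m) s) ∧
      C * deriv L 1 = ∑ x, ∑ y, ψ (x * y⁻¹) * hpair (yP (p * q) 1 r x) (yP (p * q) 1 r y) := by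
  have hn := cle_good hp hq p4 q4 p5 q3
  have hd : p ∣ p * q := dvd_mul_right p q
  obtain ⟨e, he, hy⟩ := exists_hfam hn hr
  obtain ⟨x0, hx0⟩ : ∃ x : Pc (p * q) 1, gcl p x = -1 :=
    (ok_of_root hp hq p4 q4 p5 q3 hr (Or.inl rfl)).exists_gcl
  obtain ⟨u, hu⟩ := hψ
  obtain ⟨b, hb⟩ : ∃ b : Pc (p * q) 1 → Pc (p * q) 1,
      b = fun z => if gcl p z = 1 then 1 else x0 := ⟨_, rfl⟩
  have b1 : ∀ z, gcl p (b z) = gcl p z := fun z => by
    rcases gcl_or hn hp hd z with k | k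
    · simp only [hb, k, if_true, gcl_one hn hp hd]
    · simp only [hb, k]
      rw [if_neg (by norm_num), hx0]
  have b2 : ∀ z, b (u ^ 2 * z) = b z := fun z => by
    have : gcl p (u ^ 2 * z) = gcl p z := by
      rw [gcl_mul hn hp hd, sq, gcl_mul hn hp hd]
      rcases gcl_or hn hp hd u with k | k <;> rw [k] <;> ring
    simp only [hb, this]
  obtain ⟨W, hWd⟩ : ∃ W : Pc (p * q) 1 → Pc (p * q) 1 → ℤ,
      W = fun z x => (if x = z then 1 else 0) - if x = b z then 1 else 0 := ⟨_, rfl⟩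
  have w0 : ∀ z, ∑ x, W z x = 0 := fun z => by simp [hWd]
  have w1 : ∀ z x, W z x ≠ 0 → gcl p x = gcl p z := fun z x hx => by
    by_cases k1 : x = z
    · rw [k1]
    by_cases k2 : x = b z
    · rw [k2, b1]
    simp [hWd, k1, k2] at hx
  have w2 : ∀ w, ψ w = ∑ z, ψ z * (W z w : ℂ) := fun w => by
    have := fpz_zero ψ hu (fun z => if w = b z then 1 else 0) fun z => by rw [b2]
    simp only [hWd, Int.cast_sub, Int.cast_ite, Int.cast_one, Int.cast_zero, mul_sub,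
      sum_sub_distrib, this]
    simp
  obtain ⟨C, hC⟩ := gz_ht p q
  choose L l1 l2 l3 l4 using fun z => hC (gcl p z) r e (W z)
    (ok_of_root hp hq p4 q4 p5 q3 hr (gcl_or hn hp hd z)) hr he (w0 z) (w1 z)
  refine ⟨C, fun s => ∑ z, ψ z / 2 * L z s, Differentiable.fun_sum fun z _ => (l1 z).const_mul _,
    by simp [l2], fun s hs => ?_, ?_⟩
  · rw [fpz_series hn ψ (fun z x => (W z x : ℂ)) w2 hs, mul_sum]
    exact sum_congr rfl fun z _ => by rw [l3 z s hs, mul_left_comm]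
  rw [deriv_fun_sum fun z _ => ((l1 z).const_mul _).differentiableAt, mul_sum]
  simp only [hy]
  rw [← fpz_swap ψ _ (fun x y => (hpair (pt (froot (e x))) (pt (froot (e y))) : ℝ))
    fun x y => by rw [hpair_comm]]
  have k : ∀ z, C * deriv (fun s => ψ z / 2 * L z s) 1 =
      ∑ x, ∑ y, ψ z * (W z (x * y⁻¹) : ℂ) * (hpair (pt (froot (e x))) (pt (froot (e y))) : ℝ) :=
    fun z => by
      rw [deriv_const_mul _ (l1 z).differentiableAt, mul_left_comm, l4, hW]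
      simp only [mul_assoc, ← mul_sum]
      push_cast
      ring
  simp only [k]
  rw [sum_comm]
  refine sum_congr rfl fun x _ => ?_
  rw [sum_comm]
  refine sum_congr rfl fun y _ => ?_
  rw [← sum_mul, ← w2]

end Pool.Agent.Dih
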