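import Pool.Agent.Lib.MP_60ff09_nt.Dih.Re

/-! The product of the first coordinates of Heegner points: definitions. -/

set_option autoImplicit false

open scoped Classical NumberTheorySymbols
open Pool.Agent.Lib.MP_696deb_nt Pool.Agent.Lib.MP_696deb_nt.B2 Pool.Agent.Lib.MP_696deb_nt.B2.CM

namespace Pool.Agent.DH

/-- An eta quotient of level three. -/
noncomputable def g3 (z : ℂ) : ℂ := eta13 z / eta2 z

/-- Heegner forms that are normalised modulo four and three. -/
structure Nf (n : ℕ) (r : ℤ) (x : Cl n) (Q : Fm) : Prop where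
  hg : IsHg (-n) r Q
  eq : cls n (sp2 (15 * froot Q) 1) = x
  m1 : Q.1 % 180 = 105
  m2 : Q.2.1 % 8 = 7

/-- The signs of an integer of the quadratic field modulo four and modulo a prime above three. -/
structure Sg2 (n : ℕ) (r : ℤ) (z : ℂ) (e e' : ℤˣ) : Prop where
  mem : z ∈ OO n
  four : z ^ 3 - (e : ℤ) ∈ sc 4 (OO n)
  three : z - (e' : ℤ) ∈ idl n 1 3 (-r)

/-- Nonzero numbers of the quadratic field. -/
structure InK (n : ℕ) (a : ℂ) : Prop where
  ne : a ≠ 0
  fix : ∀ σ : ℂ ≃+* ℂ, σ (dl n) = dl n → σ a = a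

end Pool.Agent.DH
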