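import Pool.Agent.Lib.MP_60ff09_nt.Dih.KE0

/-! Multipliers of eta quotients on matrices that come from the quadratic field. -/

set_option autoImplicit false

open scoped Classical NumberTheorySymbols
open Pool.Agent.Lib.MP_696deb_nt Pool.Agent.Lib.MP_696deb_nt.B2 Pool.Agent.Lib.MP_696deb_nt.B2.CM

namespace Pool.Agent.DH

variable {a b c d N : ℤ} {z : ℂ}

theorem g3_ne (hz : 0 < z.im) : g3 z ≠ 0 := by
  exact div_ne_zero (mul_ne_zero (eta_ne hz) (eta_ne (im_mul_pos hz))) (eta2_ne hz)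

theorem t15_g3 (hz : 0 < z.im) : t15 z = g3 z / g3 (5 * z) ^ 5 := by
  have h1 := eta_ne hz
  have h5 := eta_ne (z := 5 * z) (im_mul_pos hz)
  have h15 := eta_ne (z := 15 * z) (im_mul_pos hz)
  simp only [t15, etaq, g3, eta13, eta2, zpow_neg, zpow_ofNat]
  rw [show 3 * (5 * z) = 15 * z by ring]
  field_simp

theorem g3_twelve (hz : 0 < z.im) : g3 z ^ 12 = eta2 (3 * z) ^ 6 / eta2 z ^ 6 := by
  have h1 := eta_ne hz
  simp only [g3, eta13, eta2]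
  field_simp

theorem kea_three (k : ZMod 12) : e12 (3 * k) = e12 k ^ 3 := by
  rw [show 3 * k = k + k + k by ring, e12_add, e12_add]
  ring

theorem kea_six (k : ZMod 12) : e12 (6 * k) = e12 k ^ 6 := by
  rw [show 6 * k = 3 * k + 3 * k by ring, e12_add, kea_three]
  ring

theorem kea_four {x : ℤ} (h : 4 ∣ x) : ((3 * x : ℤ) : ZMod 12) = 0 :=
  (ZMod.intCast_zmod_eq_zero_iff_dvd _ 12).2 (by omega)

theorem kea_two {x : ℤ} (h : 2 ∣ x) : ((6 * x : ℤ) : ZMod 12) = 0 :=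
  (ZMod.intCast_zmod_eq_zero_iff_dvd _ 12).2 (by omega)

theorem kea_four' {x : ℤ} (h : ((3 * x : ℤ) : ZMod 12) = 0) : 4 ∣ x := by
  have := (ZMod.intCast_zmod_eq_zero_iff_dvd _ 12).1 h
  omega

theorem kea_thr {x : ℤ} (h : ((4 * x : ℤ) : ZMod 12) = 0) : 3 ∣ x := by
  have := (ZMod.intCast_zmod_eq_zero_iff_dvd _ 12).1 h
  omega

theorem kea_fin : ∀ a b c d : ZMod 12, a * d - b * (3 * c) = 1 → 3 * (a - d - 3 * c) = 0 →
    ∀ N : ZMod 12, 3 * (b + 3 * c * N) = 0 →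
      3 * (3 * d ^ 2 * c - 3 * d * c ^ 2 + c ^ 3 - N * c ^ 3) = 0 ∧
      ((3 * (-d ^ 3 + 3 * N * d * c ^ 2 - N * c ^ 3 - 1) = 0 ∧ 4 * (-d - 1) = 0 ∧
          3 * PhiE a b c d = 3 * PsiE a b (3 * c) d + 0) ∨
        (3 * (-d ^ 3 + 3 * N * d * c ^ 2 - N * c ^ 3 - 1) = 0 ∧ 4 * (-d - -1) = 0 ∧
          3 * PhiE a b c d = 3 * PsiE a b (3 * c) d + 6) ∨
        (3 * (-d ^ 3 + 3 * N * d * c ^ 2 - N * c ^ 3 - -1) = 0 ∧ 4 * (-d - 1) = 0 ∧
          3 * PhiE a b c d = 3 * PsiE a b (3 * c) d + 6) ∨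
        (3 * (-d ^ 3 + 3 * N * d * c ^ 2 - N * c ^ 3 - -1) = 0 ∧ 4 * (-d - -1) = 0 ∧
          3 * PhiE a b c d = 3 * PsiE a b (3 * c) d + 0)) := by
  decide +kernel

theorem g3_mob (h : a * d - b * (3 * c) = 1) (h1 : 4 ∣ a - d - 3 * c) (h2 : 4 ∣ b + 3 * c * N) :
    ∃ e e' : ℤˣ, 4 ∣ -d ^ 3 + 3 * N * d * c ^ 2 - N * c ^ 3 - e ∧
      4 ∣ 3 * d ^ 2 * c - 3 * d * c ^ 2 + c ^ 3 - N * c ^ 3 ∧ 3 ∣ -d - e' ∧
      ∀ z : ℂ, 0 < z.im → g3 (mob a b (3 * c) d z) ^ 3 = ((e * e' : ℤˣ) : ℤ) * g3 z ^ 3 := by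
  have hd := fun (w : ℂ) (hw : 0 < w.im) =>
    den_ne (a := a) (b := b) (by omega : a * d - b * (3 * c) ≠ 0) hw
  have key : ∀ (k : ZMod 12), 3 * PhiE a b c d = 3 * PsiE a b (3 * c) d + k →
      ∀ w : ℂ, 0 < w.im → g3 (mob a b (3 * c) d w) ^ 3 = e12 k * g3 w ^ 3 := by
    intro k hk w hw
    have t1 := eta13_tr a b c d (by linear_combination h) w hw
    have t2 := eta2_tr a b (3 * c) d h w hw
    have h6 := congr_arg e12 hk
    rw [kea_three, e12_add, kea_three] at h6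
    have k1 := e12_ne (PsiE a b (3 * c) d)
    have l1 := eta2_ne hw
    have l2 := hd w hw
    push_cast at t1 t2 l2
    rw [g3, g3, t1, t2]
    generalize (3 : ℂ) * c * w + d = u at l2 ⊢
    field_simp
    linear_combination (eta13 w ^ 3) * h6
  have f := kea_fin a b c d (by exact_mod_cast congr_arg (Int.cast : ℤ → ZMod 12) h)
    (by exact_mod_cast kea_four h1) N (by exact_mod_cast kea_four h2)
  obtain ⟨f2, f⟩ := f
  have g2 : 4 ∣ 3 * d ^ 2 * c - 3 * d * c ^ 2 + c ^ 3 - N * c ^ 3 :=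
    kea_four' (by exact_mod_cast f2)
  rcases f with ⟨p, q, r⟩ | ⟨p, q, r⟩ | ⟨p, q, r⟩ | ⟨p, q, r⟩
  · refine ⟨1, 1, kea_four' (by exact_mod_cast p), g2, kea_thr (by exact_mod_cast q),
      fun w hw => ?_⟩
    rw [key 0 r w hw, e12_zero]
    simp
  · refine ⟨1, -1, kea_four' (by exact_mod_cast p), g2, kea_thr (by exact_mod_cast q),
      fun w hw => ?_⟩
    rw [key 6 r w hw, e12_six]
    simp
  · refine ⟨-1, 1, kea_four' (by exact_mod_cast p), g2, kea_thr (by exact_mod_cast q),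
      fun w hw => ?_⟩
    rw [key 6 r w hw, e12_six]
    simp
  · refine ⟨-1, -1, kea_four' (by exact_mod_cast p), g2, kea_thr (by exact_mod_cast q),
      fun w hw => ?_⟩
    rw [key 0 r w hw, e12_zero]
    simp

theorem kea_fin2 : ∀ a b c d : ZMod 12, a * d - b * c = 1 → 6 * (a - d - c) = 0 →
    ∀ N : ZMod 12, 6 * (b + c * N) = 0 → 6 * PsiE a b c d = 0 := by
  decide +kernel

theorem eta12_mob (h : a * d - b * c = 1) (h1 : 2 ∣ a - d - c) (h2 : 2 ∣ b + c * N)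
    (hz : 0 < z.im) : eta2 (mob a b c d z) ^ 6 = (c * z + d) ^ 6 * eta2 z ^ 6 := by
  have t := eta2_tr a b c d h z hz
  have f := kea_fin2 a b c d (by exact_mod_cast congr_arg (Int.cast : ℤ → ZMod 12) h)
    (by exact_mod_cast kea_two h1) N (by exact_mod_cast kea_two h2)
  have h6 := congr_arg e12 f
  rw [kea_six, e12_zero] at h6
  rw [t, mul_pow, mul_pow, h6, one_mul]

end Pool.Agent.DH
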