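import Pool.Agent.Lib.MP_60ff09_nt.Dih.KE0

/-! Normalised forms, and matrices between forms of the same class. -/

set_option autoImplicit false

open scoped Classical NumberTheorySymbols
open Pool.Agent.Lib.MP_696deb_nt Pool.Agent.Lib.MP_696deb_nt.B2 Pool.Agent.Lib.MP_696deb_nt.B2.CM

namespace Pool.Agent.DH

variable {n : ℕ} {r A B C A' B' C' a b c d : ℤ} {x : Cl n} {Q : Fm}

theorem keb_feq (ok : OkR n 1 r) (hs : Squarefree n) (h : IsHg (-n) r Q) {R : Fm}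
    (e : FEq Q R) : IsHg (-n) r R ∧
      cls n (sp2 (15 * froot R) 1) = cls n (sp2 (15 * froot Q) 1) := by
  obtain ⟨h1, u, hu, h2⟩ := cml_feq ok (rh_own h) e
  have h3 : IsHg (-n) r R := by simpa using h1
  exact ⟨h3, by rw [h2]; exact (cl_sc (IsHg.inv ok hs h3) hu).symm⟩

theorem keb_cop (ok : OkR n 1 r) (h : IsHg (-n) r Q) : IsCoprime Q.2.1 15 := by
  obtain ⟨u, v, e⟩ := ok.cop_r
  obtain ⟨k, hk⟩ := h.res
  refine ⟨u, v - 2 * u * k, ?_⟩
  push_cast at e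
  linear_combination e + u * hk

theorem keb_disc (h : IsHg (-n) r Q) : Q.2.1 ^ 2 + n = 4 * Q.1 * Q.2.2 := by
  have := h.disc
  rw [fdisc] at this
  linear_combination this

theorem exists_nf (ok : OkR n 1 r) (hs : Squarefree n) (x : Cl n) : ∃ Q, Nf n r x Q := by
  obtain ⟨⟨A, B, C⟩, hQ, hc⟩ := exists_isHf ok hs x (by norm_num : (6 : ℤ) ≠ 0)
  obtain ⟨m, hm⟩ := hQ.hg.lev
  have e := keb_disc hQ.hg
  have cB := keb_cop ok hQ.hg
  dsimp only at hm e cB hc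
  subst hm
  rw [Int.mul_ediv_cancel_left _ (by norm_num)] at hc
  obtain ⟨s, t, hB, -⟩ := rb_odd (b := B) (N := 15 * m * C) ok.toOk (by linear_combination e)
  have h3 : ¬ (3 : ℤ) ∣ B := fun h =>
    absurd (cB.isUnit_of_dvd' h (by norm_num)) (by decide)
  have h2 : ¬ (2 : ℤ) ∣ m := fun h =>
    absurd (hc.isUnit_of_dvd' h (by norm_num)) (by decide)
  obtain ⟨w, hw⟩ : (12 : ℤ) ∣ B ^ 2 - 1 := by
    obtain ⟨j, hj | hj⟩ : ∃ j : ℤ, B = 6 * j + 1 ∨ B = 6 * j - 1 := by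
      by_cases h : B % 6 = 1
      · exact ⟨B / 6, Or.inl (by omega)⟩
      · exact ⟨B / 6 + 1, Or.inr (by omega)⟩
    · exact ⟨3 * j ^ 2 + j, by rw [hj]; ring⟩
    · exact ⟨3 * j ^ 2 - j, by rw [hj]; ring⟩
  obtain ⟨g, hg⟩ : (2 : ℤ) ∣ 7 - m := by omega
  obtain ⟨h4, h5⟩ := keb_feq ok hs hQ.hg (R := fmap (15 * m, B, C) 1 0 (15 * (2 * g * B)) 1)
    ⟨1, 0, 2 * g * B, 1, by ring, rfl⟩
  generalize hR : fmap (15 * m, B, C) 1 0 (15 * (2 * g * B)) 1 = R at h4 h5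
  have a1 : R.1 = 180 * (2 * g * w + 5 * g ^ 2 * B ^ 2 * C) + 105 := by
    rw [← hR]
    simp only [fmap, fval]
    linear_combination 30 * g * hw - 15 * hg
  have a2 : R.2.1 = 2 * (s + 30 * g * B * C) + 1 := by
    rw [← hR]
    simp only [fmap]
    linear_combination hB
  generalize 2 * g * w + 5 * g ^ 2 * B ^ 2 * C = y at a1
  generalize s + 30 * g * B * C = z at a2
  obtain ⟨h6, h7⟩ := keb_feq ok hs h4 (R := fmap R 1 (3 - z) (15 * 0) 1)
    ⟨1, 3 - z, 0, 1, by ring, rfl⟩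
  refine ⟨_, h6, h7.trans (h5.trans hQ.eq), ?_, ?_⟩
  · have : (fmap R 1 (3 - z) (15 * 0) 1).1 = 180 * y + 105 := by
      simp only [fmap, fval]
      linear_combination a1
    omega
  · have : (fmap R 1 (3 - z) (15 * 0) 1).2.1 = 8 * ((45 * y + 26) * (3 - z)) + 7 := by
      simp only [fmap]
      linear_combination a2 + 2 * (3 - z) * a1
    omega

theorem Nf.t15_eq (ok : OkR n 1 r) (hs : Squarefree n) (h : Nf n r x Q) :
    t15 (froot Q) = t15 (tau n r x) := by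
  rw [← xco_pt (im_froot_pos (h.hg.disc ▸ rh_neg ok.toOk) h.hg.pos), ← IsHg.yP_eq ok hs h.hg,
    h.eq, yP_tau ok hs, xco_pt (tau_pos ok hs x)]

theorem froot_be (e : B ^ 2 + n = 4 * A * C) : froot (A, B, C) = be n 1 (-B) / A := by
  have hd : fdisc (A, B, C) = -n := by simp only [fdisc]; linear_combination e
  rw [froot, hd, be, dl, div_div]
  push_cast
  rw [neg_neg, one_mul]

theorem keb_pos (ok : Ok n 1) (e : B ^ 2 + n = 4 * A * C) (hA : 0 < A) :
    0 < (froot (A, B, C)).im := by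
  have hd : fdisc (A, B, C) = -n := by simp only [fdisc]; linear_combination e
  exact im_froot_pos (hd ▸ rh_neg ok) hA

theorem exists_mob (ok : Ok n 1) (hs : Squarefree n) (e : B ^ 2 + n = 4 * A * C) (hA : 0 < A)
    (e' : B' ^ 2 + n = 4 * A' * C') (hA' : 0 < A')
    (h : cls n (idl n 1 A (-B)) = cls n (idl n 1 A' (-B'))) :
    ∃ a b c d : ℤ, a * d - b * c = 1 ∧ froot (A, B, C) = mob a b c d (froot (A', B', C')) := by
  obtain ⟨u, hu, k⟩ := (cl_eq_iff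
    (inv_idl (k := C) ok hs hA.ne' (by linear_combination e))
    (inv_idl (k := C') ok hs hA'.ne' (by linear_combination e'))).1 h
  rw [idl, idl, sc_sp2] at k
  obtain ⟨d, c, h1⟩ := mem_sp2.1 (k ▸ left_mem_sp2 _ _ : u * A ∈ sp2 A' (be n 1 (-B')))
  obtain ⟨b, a, h2⟩ :=
    mem_sp2.1 (k ▸ right_mem_sp2 _ _ : u * be n 1 (-B) ∈ sp2 A' (be n 1 (-B')))
  obtain ⟨x, y, h3⟩ :=
    mem_sp2.1 (k ▸ left_mem_sp2 _ _ : (A' : ℂ) ∈ sp2 (u * A) (u * be n 1 (-B)))
  obtain ⟨z, t, h4⟩ :=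
    mem_sp2.1 (k ▸ right_mem_sp2 _ _ : be n 1 (-B') ∈ sp2 (u * A) (u * be n 1 (-B)))
  obtain ⟨h5, h6⟩ := be_indep (b := -B') (x := (x * d + y * b - 1) * A') (y := x * c + y * a)
    (ra_pos ok) one_ne_zero (by push_cast; linear_combination -h3 - x * h1 - y * h2)
  obtain ⟨h7, h8⟩ := be_indep (b := -B') (x := (z * d + t * b) * A') (y := z * c + t * a - 1)
    (ra_pos ok) one_ne_zero (by push_cast; linear_combination -h4 - z * h1 - t * h2)
  replace h5 := (mul_eq_zero.1 h5).resolve_right hA'.ne'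
  replace h7 := (mul_eq_zero.1 h7).resolve_right hA'.ne'
  have h9 : (a * d - b * c) * (x * t - y * z) = 1 := by
    linear_combination (z * c + t * a) * h5 + h8 - (z * d + t * b) * h6
  have a0 : (A : ℂ) ≠ 0 := Int.cast_ne_zero.2 hA.ne'
  have a1 : (A' : ℂ) ≠ 0 := Int.cast_ne_zero.2 hA'.ne'
  have k1 : froot (A, B, C) = mob a b c d (froot (A', B', C')) := by
    rw [froot_be e, froot_be e', mob, ← mul_div_mul_left _ _ hu, h1, h2,
      ← mul_div_mul_left (_ * (_ / _) + _) _ a1]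
    congr 1 <;> field_simp <;> ring
  refine ⟨a, b, c, d, ?_, k1⟩
  have p1 := keb_pos ok e hA
  have p2 := keb_pos ok e' hA'
  rw [k1, im_mob] at p1
  rcases Int.eq_one_or_neg_one_of_mul_eq_one h9 with k2 | k2
  · exact k2
  · rw [k2] at p1
    refine absurd p1 (not_lt.2 (div_nonpos_of_nonpos_of_nonneg ?_ (by positivity)))
    push_cast
    linarith

theorem mob_rel (ok : Ok n 1) (e : B ^ 2 + n = 4 * A * C) (hA : 0 < A)
    (e' : B' ^ 2 + n = 4 * A' * C') (hA' : 0 < A') (h : a * d - b * c = 1)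
    (k : froot (A, B, C) = mob a b c d (froot (A', B', C'))) :
    2 * A * a = 2 * d * A' - c * (B + B') ∧ 2 * A * b = d * (B' - B) - 2 * c * C' ∧
      sc (c * be n 1 (-B') + d * A') (idl n 1 A (-B)) = sc A (idl n 1 A' (-B')) := by
  have a0 : (A : ℂ) ≠ 0 := Int.cast_ne_zero.2 hA.ne'
  have a1 : (A' : ℂ) ≠ 0 := Int.cast_ne_zero.2 hA'.ne'
  have a2 := den_ne (h.symm ▸ one_ne_zero : a * d - b * c ≠ 0) (keb_pos ok e' hA')
  rw [mob, eq_div_iff a2, froot_be e, froot_be e'] at k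
  have k1 : (c * be n 1 (-B') + d * A') * be n 1 (-B) = A * (b * A' + a * be n 1 (-B')) := by
    field_simp at k
    linear_combination k
  have k2 := dl_indep (ra_pos ok)
    (x := ((c * B * B' - c * n - 2 * d * A' * B + 2 * A * a * B' - 4 * A * b * A' : ℤ) : ℚ))
    (y := ((2 * d * A' - c * (B + B') - 2 * A * a : ℤ) : ℚ)) (by
      simp only [be] at k1
      push_cast at k1 ⊢
      linear_combination 4 * k1 - c * dl_sq n)
  have k3 := Int.cast_eq_zero.1 k2.1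
  have k4 := Int.cast_eq_zero.1 k2.2
  refine ⟨by linear_combination -k4, mul_left_cancel₀ (mul_ne_zero two_ne_zero hA'.ne') ?_, ?_⟩
  · linear_combination -k3 - B' * k4 - c * e'
  · rw [idl, idl, sc_sp2, k1, ← cmc_basis (u := d) (v := c) (s := b) (t := a)
      (by linear_combination h) (A' : ℂ), sc_sp2]
    congr 1
    ring

/-- The ideals of a Heegner form. -/
theorem IsHg.idl_eq (ok : OkR n 1 r) (h : IsHg (-n) r Q) :
    idl n 1 Q.1 (-Q.2.1) = idl n 1 (Q.1 / 5) (-Q.2.1) * idl n 1 5 (-r) ∧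
      idl n 1 Q.1 (-Q.2.1) = idl n 1 (Q.1 / 3) (-Q.2.1) * idl n 1 3 (-r) ∧
      idl n 1 (Q.1 / 5) (-Q.2.1) = idl n 1 (Q.1 / 15) (-Q.2.1) * idl n 1 3 (-r) ∧
      idl n 1 (Q.1 / 3) (-Q.2.1) = idl n 1 (Q.1 / 15) (-Q.2.1) * idl n 1 5 (-r) := by
  obtain ⟨m, hm⟩ := h.lev
  obtain ⟨u, v, c1⟩ := keb_cop ok h
  obtain ⟨j, hj⟩ := h.res
  have e := keb_disc h
  have e5 : Q.1 / 5 = 3 * m := by omega
  have e3 : Q.1 / 3 = 5 * m := by omega
  have e15 : Q.1 / 15 = m := by omega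
  have c5 : idl n 1 5 (-r) = idl n 1 5 (-Q.2.1) := idl_congr ⟨3 * j, by linear_combination hj⟩
  have c3 : idl n 1 3 (-r) = idl n 1 3 (-Q.2.1) := idl_congr ⟨5 * j, by linear_combination hj⟩
  rw [e5, e3, e15, c5, c3, hm] at *
  refine ⟨?_, ?_, ?_, ?_⟩
  · rw [← idl_mul (k := Q.2.2) (ra_e (by linear_combination e))
      ⟨0, 3 * v, -u, by linear_combination c1⟩]
    congr 1
    ring
  · rw [← idl_mul (k := Q.2.2) (ra_e (by linear_combination e))
      ⟨0, 5 * v, -u, by linear_combination c1⟩]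
    congr 1
    ring
  · rw [← idl_mul (k := 5 * Q.2.2) (ra_e (by linear_combination e))
      ⟨0, 5 * v, -u, by linear_combination c1⟩, mul_comm]
  · rw [← idl_mul (k := 3 * Q.2.2) (ra_e (by linear_combination e))
      ⟨0, 3 * v, -u, by linear_combination c1⟩, mul_comm]

theorem IsHg.inv_idl (ok : OkR n 1 r) (hs : Squarefree n) (h : IsHg (-n) r Q) :
    Inv n (idl n 1 Q.1 (-Q.2.1)) ∧ Inv n (idl n 1 (Q.1 / 5) (-Q.2.1)) ∧
      Inv n (idl n 1 (Q.1 / 3) (-Q.2.1)) ∧ Inv n (idl n 1 (Q.1 / 15) (-Q.2.1)) ∧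
      Inv n (idl n 1 3 (-r)) ∧ Inv n (idl n 1 5 (-r)) := by
  obtain ⟨m, hm⟩ := h.lev
  obtain ⟨j, hj⟩ := ok.root
  have e := keb_disc h
  have p := h.pos
  have e5 : Q.1 / 5 = 3 * m := by omega
  have e3 : Q.1 / 3 = 5 * m := by omega
  have e15 : Q.1 / 15 = m := by omega
  have k : ∀ m b k : ℤ, m ≠ 0 → b ^ 2 + n = 4 * m * k → Inv n (idl n 1 m (-b)) :=
    fun m b k hm e => DH.inv_idl (k := k) ok.toOk hs hm (by linear_combination e)
  rw [e5, e3, e15]
  rw [hm] at e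
  exact ⟨k _ _ Q.2.2 p.ne' (by rw [hm]; exact e),
    k _ _ (5 * Q.2.2) (by omega) (by linear_combination e),
    k _ _ (3 * Q.2.2) (by omega) (by linear_combination e),
    k _ _ (15 * Q.2.2) (by omega) (by linear_combination e),
    k _ _ (5 * j) (by norm_num) (by linear_combination hj),
    k _ _ (3 * j) (by norm_num) (by linear_combination hj)⟩

end Pool.Agent.DH
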