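import Pool.Agent.Lib.MP_60ff09_nt.Dih.KEa
import Pool.Agent.Lib.MP_60ff09_nt.Dih.KEb

/-! One step of the telescoping products. -/

set_option autoImplicit false

open scoped Classical NumberTheorySymbols
open Pool.Agent.Lib.MP_696deb_nt Pool.Agent.Lib.MP_696deb_nt.B2 Pool.Agent.Lib.MP_696deb_nt.B2.CM

namespace Pool.Agent.DH

variable {n : ℕ} {r : ℤ} {x y : Cl n} {Q R : Fm}

theorem kec_form (ok : OkR n 1 r) (h : Nf n r x Q) : ∃ m i u C v : ℤ, Q = (15 * m, 8 * u + 7, C) ∧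
    m = 7 + 12 * i ∧ 0 < m ∧ (8 * u + 7) ^ 2 + n = 4 * (15 * m) * C ∧ C = (n + 1) / 4 + 4 * v ∧
    30 ∣ 8 * u + 7 - r := by
  obtain ⟨A, B, C⟩ := Q
  obtain ⟨⟨h1, h2, -, h3⟩, -, h4, h5⟩ := h
  simp only [fdisc] at h1 h2 h3 h4 h5
  obtain ⟨i, rfl⟩ : ∃ i, A = 15 * (7 + 12 * i) := ⟨(A - 105) / 180, by omega⟩
  obtain ⟨u, rfl⟩ : ∃ u, B = 8 * u + 7 := ⟨B / 8, by omega⟩
  refine ⟨_, i, u, C, 4 * u ^ 2 + 7 * u + 3 - (26 + 45 * i) * C, rfl, rfl, by omega,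
    by linear_combination h1, mul_left_cancel₀ four_ne_zero ?_, h3⟩
  linear_combination -h1 - cma_four ok.m4

theorem kec_pos (ok : OkR n 1 r) (h : Nf n r x Q) : 0 < (froot Q).im :=
  im_froot_pos (h.hg.disc ▸ rh_neg ok.toOk) h.hg.pos

theorem kec_cls (ok : OkR n 1 r) (hs : Squarefree n) (h : Nf n r x Q) (h' : Nf n r y R) :
    (x = y * cls n (idl n 1 5 (-r)) →
      cls n (idl n 1 (Q.1 / 5) (-Q.2.1)) = cls n (idl n 1 R.1 (-R.2.1))) ∧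
    (x = y * cls n (idl n 1 3 (-r)) →
      cls n (idl n 1 (Q.1 / 3) (-Q.2.1)) = cls n (idl n 1 R.1 (-R.2.1))) := by
  obtain ⟨-, -, a3, a4⟩ := IsHg.idl_eq ok h.hg
  obtain ⟨b1, -, b3, -⟩ := IsHg.idl_eq ok h'.hg
  obtain ⟨-, -, -, i4, i5, i6⟩ := IsHg.inv_idl ok hs h.hg
  obtain ⟨-, j2, -, j4, -, -⟩ := IsHg.inv_idl ok hs h'.hg
  have e1 := (IsHg.cls_eq ok hs h.hg).symm.trans h.eq
  have e2 := (IsHg.cls_eq ok hs h'.hg).symm.trans h'.eq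
  simp only [cls] at e1 e2 ⊢
  rw [a3, a4, b1, cl_mul j2 i6, b3, cl_mul i4 i5, cl_mul i4 i6, cl_mul j4 i5, e1, e2]
  exact ⟨fun e => by rw [e, mul_right_comm], fun e => by rw [e]⟩

theorem kec_four (hn : n % 4 = 3) {N c d e : ℤ} (hN : N = (n + 1) / 4) (k : ℤ)
    (h1 : 4 ∣ -d ^ 3 + 3 * N * d * c ^ 2 - N * c ^ 3 - e)
    (h2 : 4 ∣ 3 * d ^ 2 * c - 3 * d * c ^ 2 + c ^ 3 - N * c ^ 3) :
    el n (-d + 4 * k) c ^ 3 - e ∈ sc 4 (OO n) := by
  obtain ⟨s, h1⟩ := h1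
  obtain ⟨t, h2⟩ := h2
  have h3 := be_sq (n := n) (c := 1) (b := 1) (N := N) (by rw [hN, cma_four hn]; push_cast; ring)
  have h4 : -(d : ℂ) ^ 3 + 3 * N * d * c ^ 2 - N * c ^ 3 - e = 4 * s := by exact_mod_cast h1
  have h5 : 3 * (d : ℂ) ^ 2 * c - 3 * d * c ^ 2 + c ^ 3 - N * c ^ 3 = 4 * t := by exact_mod_cast h2
  refine mem_sc.2 ⟨el n (s + (3 * d ^ 2 * k - 12 * d * k ^ 2 + 16 * k ^ 3 - 3 * N * k * c ^ 2))
    (t + (12 * k ^ 2 * c - 6 * d * k * c + 3 * k * c ^ 2)),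
    (mem_Oc hn).2 ⟨_, _, one_dvd _, rfl⟩, ?_⟩
  simp only [el]
  push_cast at h3 ⊢
  linear_combination -h4 - be n 1 1 * h5 -
    (3 * (-d + 4 * k) * c ^ 2 + c ^ 3 * (be n 1 1 + 1)) * h3

theorem step5 (ok : OkR n 1 r) (hs : Squarefree n) (h : Nf n r x Q) (h' : Nf n r y R)
    (e : x = y * cls n (idl n 1 5 (-r))) : ∃ (z : ℂ) (s t : ℤˣ), Sg2 n r z s t ∧
      g3 (5 * froot Q) ^ 3 = ((s * t : ℤˣ) : ℤ) * g3 (froot R) ^ 3 ∧
      sc z (idl n 1 (Q.1 / 5) (-Q.2.1)) = sc ((Q.1 / 15 : ℤ) : ℂ) (idl n 1 R.1 (-R.2.1)) := by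
  have hc := (kec_cls ok hs h h').1 e
  have hz := kec_pos ok h'
  obtain ⟨m, i, u, C, v, rfl, hm, m0, E, -, hr⟩ := kec_form ok h
  obtain ⟨m', i', u', C', v', rfl, hm', m0', E', hC, hr'⟩ := kec_form ok h'
  have d5 : 15 * m / 5 = 3 * m := by omega
  have d15 : 15 * m / 15 = m := by omega
  simp only [d5, d15] at hc ⊢
  have E5 : (8 * u + 7) ^ 2 + n = 4 * (3 * m) * (5 * C) := by linear_combination E
  obtain ⟨a, b, c', d, hd, k⟩ := exists_mob ok.toOk hs E5 (by omega) E' (by omega) hc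
  obtain ⟨r1, r2, r3⟩ := mob_rel ok.toOk E5 (by omega) E' (by omega) hd k
  obtain ⟨c, rfl⟩ : 3 ∣ c' := by
    have h1 : IsCoprime r 3 := (ok.cop_r.of_mul_left_left).of_isCoprime_of_dvd_right (by norm_num)
    have h2 : (3 : ℤ) ∣ c' * (8 * u + 7 + (8 * u' + 7)) :=
      ⟨10 * d * m' - 2 * m * a, by linear_combination r1⟩
    refine (Int.prime_three.dvd_or_dvd h2).resolve_right fun j => ?_
    exact Int.prime_three.not_isUnit (h1.isUnit_of_dvd' (by omega) dvd_rfl)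
  obtain ⟨N, hN⟩ : ∃ N : ℤ, N = (n + 1) / 4 := ⟨_, rfl⟩
  rw [← hN] at hC
  obtain ⟨s, t, g1, g2, g3', g4⟩ := g3_mob (N := N) hd
    ⟨(26 + 45 * i') * d - 3 * c * (u + u' + 2) - (5 + 9 * i) * a,
      mul_left_cancel₀ two_ne_zero (by subst hm hm'; linear_combination r1)⟩
    ⟨d * (u' - u) - (5 + 9 * i) * b - 3 * c * v',
      mul_left_cancel₀ two_ne_zero (by subst hm hC; linear_combination r2)⟩
  have hb : be n 1 (-(8 * u' + 7)) = be n 1 1 - (4 * u' + 4) := by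
    simp only [be]
    push_cast
    ring
  refine ⟨c * be n 1 (-(8 * u' + 7)) + (d * (5 * m') : ℤ), s, t, ?_, ?_, ?_⟩
  · have e1 : c * be n 1 (-(8 * u' + 7)) + (d * (5 * m') : ℤ) =
        el n (-d + 4 * (d * (9 + 15 * i') - c * (u' + 1))) c := by
      rw [hb, el, hm']
      push_cast
      ring
    refine ⟨e1 ▸ (mem_Oc ok.m4).2 ⟨_, _, one_dvd _, rfl⟩, e1 ▸ kec_four ok.m4 hN _ g1 g2, ?_⟩
    obtain ⟨w, hw⟩ := g3'
    rw [← idl_congr (b := -(8 * u' + 7)) (by omega)]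
    refine mem_sp2.2 ⟨w + d * (12 + 20 * i'), c, ?_⟩
    have hw' : -(d : ℂ) - (t : ℤ) = 3 * w := by exact_mod_cast hw
    rw [hm']
    push_cast
    linear_combination hw'
  · rw [← g4 _ hz, ← k, froot_be E5, froot_be E]
    have : (m : ℂ) ≠ 0 := Int.cast_ne_zero.2 m0.ne'
    congr 2
    push_cast
    field_simp
    ring
  · refine re_cancel (a := 3) (by norm_num) ?_
    rw [sc_sc, sc_sc]
    push_cast at r3 ⊢
    rw [← r3]
    congr 1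
    ring

theorem step3 (ok : OkR n 1 r) (hs : Squarefree n) (h : Nf n r x Q) (h' : Nf n r y R)
    (e : x = y * cls n (idl n 1 3 (-r))) :
    ∃ j : ℂ, InK n j ∧ eta2 (3 * froot Q) ^ 6 = j ^ 6 * eta2 (froot R) ^ 6 := by
  have hc := (kec_cls ok hs h h').2 e
  have hz := kec_pos ok h'
  obtain ⟨m, i, u, C, v, rfl, hm, m0, E, -, hr⟩ := kec_form ok h
  obtain ⟨m', i', u', C', v', rfl, hm', m0', E', hC, hr'⟩ := kec_form ok h'
  have d3 : 15 * m / 3 = 5 * m := by omega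
  simp only [d3] at hc
  have E3 : (8 * u + 7) ^ 2 + n = 4 * (5 * m) * (3 * C) := by linear_combination E
  obtain ⟨a, b, c, d, hd, k⟩ := exists_mob ok.toOk hs E3 (by omega) E' (by omega) hc
  obtain ⟨r1, r2, -⟩ := mob_rel ok.toOk E3 (by omega) E' (by omega) hd k
  obtain ⟨N, hN⟩ : ∃ N : ℤ, N = (n + 1) / 4 := ⟨_, rfl⟩
  rw [← hN] at hC
  have g := eta12_mob (N := N) hd
    ⟨(52 + 90 * i') * d - c * (2 * u + 2 * u' + 4) - (17 + 30 * i) * a,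
      mul_left_cancel₀ two_ne_zero (by subst hm hm'; linear_combination r1)⟩
    ⟨2 * d * (u' - u) - (17 + 30 * i) * b - 2 * c * v',
      mul_left_cancel₀ two_ne_zero (by subst hm hC; linear_combination r2)⟩ hz
  refine ⟨_, ⟨den_ne (a := a) (b := b) (c := c) (d := d) (by omega) hz, fun σ hσ => ?_⟩, ?_⟩
  · rw [froot_be E', map_add, map_mul, map_div₀, cmb_be_pos hσ, map_intCast, map_intCast,
      map_intCast]
  · rw [← g, ← k, froot_be E3, froot_be E]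
    have : (m : ℂ) ≠ 0 := Int.cast_ne_zero.2 m0.ne'
    congr 2
    push_cast
    field_simp
    ring

end Pool.Agent.DH
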