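import Pool.Agent.Lib.MP_60ff09_nt.Dih.KEb

/-! The signs of a generator of a power of a prime above five. -/

set_option autoImplicit false

open scoped Classical NumberTheorySymbols
open Pool.Agent.Lib.MP_696deb_nt Pool.Agent.Lib.MP_696deb_nt.B2 Pool.Agent.Lib.MP_696deb_nt.B2.CM

namespace Pool.Agent.DH

variable {p q n : ℕ} {r : ℤ} {z w : ℂ} {s t s' t' : ℤˣ}

theorem ked_three (ok : OkR n 1 r) (hs : Squarefree n) : Inv n (idl n 1 3 (-r)) := by
  obtain ⟨j, hj⟩ := ok.root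
  exact inv_idl (k := 5 * j) ok.toOk hs (by norm_num) (by linear_combination hj)

theorem ked_four (n : ℕ) : Inv n (sc 4 (OO n)) := (isIv_one _).sc (by norm_num)

theorem Sg2.mul (ok : OkR n 1 r) (hs : Squarefree n) (h : Sg2 n r z s t) (k : Sg2 n r w s' t') :
    Sg2 n r (z * w) (s * s') (t * t') := by
  refine ⟨(Oc n 1).mul_mem h.mem k.mem, ?_, ?_⟩
  · have e : (z * w) ^ 3 - ((s * s' : ℤˣ) : ℤ) =
        z ^ 3 * (w ^ 3 - (s' : ℤ)) + (s' : ℤ) * (z ^ 3 - (s : ℤ)) := by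
      push_cast
      ring
    rw [e]
    exact add_mem ((ked_four n).mul_mem ((Oc n 1).pow_mem h.mem 3) k.four) (int_mul_mem h.four _)
  · have e : z * w - ((t * t' : ℤˣ) : ℤ) = z * (w - (t' : ℤ)) + (t' : ℤ) * (z - (t : ℤ)) := by
      push_cast
      ring
    rw [e]
    exact add_mem ((ked_three ok hs).mul_mem h.mem k.three) (int_mul_mem h.three _)

theorem Sg2.prod (ok : OkR n 1 r) (hs : Squarefree n) {ι : Type} (S : Finset ι) {z : ι → ℂ}
    {s t : ι → ℤˣ} (h : ∀ i, Sg2 n r (z i) (s i) (t i)) :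
    Sg2 n r (∏ i ∈ S, z i) (∏ i ∈ S, s i) (∏ i ∈ S, t i) := by
  induction S using Finset.induction_on with
  | empty =>
    simp only [Finset.prod_empty]
    exact ⟨(Oc n 1).one_mem, by simp, by simp⟩
  | insert i S hi ih =>
    rw [Finset.prod_insert hi, Finset.prod_insert hi, Finset.prod_insert hi]
    exact (h i).mul ok hs ih

theorem Sg2.unique (ok : OkR n 1 r) (h : Sg2 n r z s t) (k : Sg2 n r z s' t') :
    s = s' ∧ t = t' := by
  have n0 := ra_pos ok.toOk
  constructor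
  · obtain ⟨y, hy, e⟩ := mem_sc.1 (sub_mem h.four k.four)
    obtain ⟨a, b, -, rfl⟩ := (mem_Oc ok.m4).1 hy
    have e1 : el n (4 * a) (4 * b) = el n (s' - s) 0 := by
      simp only [el] at e ⊢
      push_cast
      linear_combination e
    have e2 := (el_inj n0 e1).1
    rcases Int.units_eq_one_or s with rfl | rfl <;> rcases Int.units_eq_one_or s' with rfl | rfl <;>
      first | rfl | (exfalso; simp at e2; omega)
  · obtain ⟨a, b, e⟩ := mem_sp2.1 (sub_mem h.three k.three)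
    have e2 := (be_indep (b := -r) (x := 3 * a - (t' - t)) (y := b) n0 one_ne_zero (by
      push_cast at e ⊢
      linear_combination -e)).1
    rcases Int.units_eq_one_or t with rfl | rfl <;> rcases Int.units_eq_one_or t' with rfl | rfl <;>
      first | rfl | (exfalso; simp at e2; omega)

theorem sg2_int (ok : OkR n 1 r) (hs : Squarefree n) {m : ℤ} (h4 : 4 ∣ m - s) (h3 : 3 ∣ m - t) :
    Sg2 n r m s t := by
  have _ := ok
  have _ := hs
  obtain ⟨a, ha⟩ := h4
  obtain ⟨b, hb⟩ := h3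
  refine ⟨intCast_mem (Oc n 1) m, ?_, ?_⟩
  · have e0 : (s : ℤ) ^ 3 = s := by rcases Int.units_eq_one_or s with rfl | rfl <;> simp
    have e : m ^ 3 - s = 4 * (a * (m ^ 2 + m * s + s ^ 2)) := by
      linear_combination (m ^ 2 + m * s + s ^ 2) * ha + e0
    refine mem_sc.2 ⟨(a * (m ^ 2 + m * s + s ^ 2) : ℤ), intCast_mem (Oc n 1) _, ?_⟩
    exact_mod_cast e.symm
  · refine mem_sp2.2 ⟨b, 0, ?_⟩
    have e : m - t = b * 3 := by linear_combination hb
    rw [Int.cast_zero, zero_mul, add_zero]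
    exact_mod_cast e

theorem ked_nrm (hn : n % 4 = 3) (x y : ℤ) : Complex.normSq (el n x y) = nrm n x y := by
  apply Complex.ofReal_injective
  rw [← Complex.mul_conj, cma_conj, el_mul_el hn, Complex.ofReal_intCast]

/-- Squares of numbers of norm prime to six. -/
theorem sg2_sq (ok : OkR n 1 r) (hs : Squarefree n) (hw : w ∈ OO n) {N : ℕ} (hN : N.Coprime 6)
    (e : Complex.normSq w = N) : Sg2 n r (w ^ 2) 1 1 := by
  have hw' : w ∈ Oc n 1 := hw
  have m4 := ok.m4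
  obtain ⟨x, y, -, e0⟩ := (mem_Oc ok.m4).1 hw
  have e1 : nrm n x y = N := by
    rw [e0, ked_nrm ok.m4] at e
    exact_mod_cast e
  have h2 : N % 2 = 1 := by
    have := (Nat.Coprime.coprime_dvd_right (show 2 ∣ 6 by norm_num) hN).symm
    rw [Nat.prime_two.coprime_iff_not_dvd] at this
    omega
  have h3 : ¬ 3 ∣ N := by
    have := (Nat.Coprime.coprime_dvd_right (show 3 ∣ 6 by norm_num) hN).symm
    rwa [Nat.prime_three.coprime_iff_not_dvd] at this
  have q1 : w ^ 2 = (2 * x + y : ℤ) * w - (N : ℤ) := by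
    have := el_mul_el ok.m4 x y
    rw [e1, ← e0] at this
    have e2 : el n (x + y) (-y) = (2 * x + y : ℤ) - w := by
      simp only [e0, el]
      push_cast
      ring
    rw [e2] at this
    linear_combination -this
  refine ⟨(Oc n 1).pow_mem hw' 2, ?_, ?_⟩
  · obtain ⟨u, hu, eu⟩ : ∃ u ∈ Oc n 1, w ^ 3 = 1 + 2 * u := by
      obtain ⟨c, hc⟩ : ∃ c : ℤ, (N : ℤ) = 2 * c + 1 := ⟨N / 2, by omega⟩
      rcases Int.even_or_odd' y with ⟨d, hd | hd⟩
      · obtain ⟨f, hf⟩ : ∃ f : ℤ, x = 2 * f + 1 := by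
          rcases Int.even_or_odd' x with ⟨f, hf | hf⟩
          · exfalso
            have : 2 * (2 * f ^ 2 + 2 * f * d + 2 * d ^ 2 * ((n + 1) / 4)) = 2 * c + 1 := by
              rw [← hc, ← e1, nrm, hf, hd]
              ring
            omega
          · exact ⟨f, hf⟩
        have hv : el n f d ∈ Oc n 1 := (mem_Oc ok.m4).2 ⟨f, d, by simp, rfl⟩
        have e3 : w = 1 + 2 * el n f d := by
          simp only [e0, el, hf, hd]
          push_cast
          ring
        refine ⟨el n f d * (3 + 6 * el n f d + 4 * el n f d ^ 2), mul_mem hv (add_mem (add_mem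
          (ofNat_mem _ 3) (mul_mem (ofNat_mem _ 6) hv)) (mul_mem (ofNat_mem _ 4) (pow_mem hv 2))), ?_⟩
        rw [e3]
        ring
      · refine ⟨(2 * (x + d) ^ 2 + 2 * (x + d) - c : ℤ) * w - (2 * (x + d) * c + (x + d) + c + 1 : ℤ),
          sub_mem (mul_mem (intCast_mem _ _) hw') (intCast_mem _ _), ?_⟩
        rw [hc, hd] at q1
        push_cast at q1 ⊢
        linear_combination (w + 2 * x + (2 * d + 1)) * q1
    refine mem_sc.2 ⟨u + u ^ 2, add_mem hu (pow_mem hu 2), ?_⟩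
    rw [← pow_mul, mul_comm 2 3, pow_mul, eu]
    push_cast
    ring
  · obtain ⟨j, hj⟩ := ok.root
    obtain ⟨ρ, hρ⟩ : ∃ ρ : ℤ, r = 2 * ρ - 1 := by
      rcases Int.even_or_odd' r with ⟨f, hf | hf⟩
      · exfalso
        have : 4 * f ^ 2 + n = 60 * j := by
          rw [← hj, hf]
          ring
        omega
      · exact ⟨f + 1, by omega⟩
    have e4 := cma_four ok.m4
    have e5 : (N : ℤ) = (x + y * ρ) * (x + y * (1 - ρ)) + 3 * (5 * j * y ^ 2) := by
      have : 4 * (N : ℤ) = 4 * ((x + y * ρ) * (x + y * (1 - ρ)) + 3 * (5 * j * y ^ 2)) := by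
        rw [← e1, nrm]
        rw [hρ] at hj
        linear_combination y ^ 2 * e4 + y ^ 2 * hj
      omega
    obtain ⟨k, hk⟩ : ∃ k : ℤ, (x + y * ρ) ^ 2 - 1 = k * 3 := by
      generalize x + y * ρ = a at e5
      obtain ⟨b, hb⟩ : ∃ b : ℤ, a = 3 * b ∨ a = 3 * b + 1 ∨ a = 3 * b + 2 := ⟨a / 3, by omega⟩
      rcases hb with rfl | rfl | rfl
      · exfalso
        apply h3
        have : (3 : ℤ) ∣ N := ⟨b * (x + y * (1 - ρ)) + 5 * j * y ^ 2, by linear_combination e5⟩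
        exact_mod_cast this
      · exact ⟨3 * b ^ 2 + 2 * b, by ring⟩
      · exact ⟨3 * b ^ 2 + 4 * b + 1, by ring⟩
    have e6 : w ^ 2 - ((1 : ℤˣ) : ℤ) =
        (w + (x + y * ρ : ℤ)) * (y * be n 1 (-r)) + k * ((3 : ℤ) : ℂ) := by
      have hk' := congrArg (Int.cast : ℤ → ℂ) hk
      have e7 : w = (x + y * ρ : ℤ) + y * be n 1 (-r) := by
        simp only [e0, el, be, hρ]
        push_cast
        ring
      push_cast at hk' e7 ⊢
      linear_combination (w + (x + y * ρ)) * e7 + hk'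
    rw [e6]
    exact add_mem ((ked_three ok hs).mul_mem (add_mem hw' (intCast_mem _ _))
      (int_mul_mem (right_mem_sp2 _ _) _)) (int_mul_mem (left_mem_sp2 _ _) _)

theorem card_even [Fintype (Cl (p * q))] (h : PQ p q) : Even (Fintype.card (Cl (p * q))) := by
  obtain ⟨g, hg⟩ := exists_gen h
  obtain ⟨y, hy⟩ := re_neg h hg
  exact (hg.even_order h hy).trans_dvd orderOf_dvd_card

theorem ked_pow (ok : Ok n 1) {I : Lt} {ν : ℝ} (h : Nm n I ν) (k : I ≤ OO n) (i : ℕ) :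
    Nm n (I ^ (i + 1)) (ν ^ (i + 1)) ∧ I ^ (i + 1) ≤ OO n ∧
      cls n (I ^ (i + 1)) = cls n I ^ (i + 1) := by
  induction i with
  | zero => simpa using ⟨h, k⟩
  | succ i ih =>
    rw [pow_succ I, pow_succ ν, pow_succ (cls n I)]
    refine ⟨ih.1.mul ok h, ?_, by rw [← ih.2.2, cls, cl_mul ih.1.iv h.iv]⟩
    exact (mul_le_mul' ih.2.1 k).trans (ot_mul_ot le_rfl).le

theorem pow_five [Fintype (Cl (p * q))] (h : PQ p q) (ok : OkR (p * q) 1 r) :
    ∃ (w : ℂ) (k : ℕ), w ∈ OO (p * q) ∧ Complex.normSq w = (p * 5 ^ k : ℕ) ∧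
      sc p (idl (p * q) 1 5 (-r) ^ Fintype.card (Cl (p * q))) = sc (w ^ 2) (OO (p * q)) := by
  obtain ⟨k, hk⟩ := card_even h
  obtain ⟨g, hg⟩ := exists_gen h
  obtain ⟨j, hj⟩ := ok.root
  have e5 : (-r) ^ 2 + (p * q : ℕ) = 4 * 5 * (3 * j) := by linear_combination hj
  have i5 : Inv (p * q) (idl (p * q) 1 5 (-r)) := inv_idl h.ok h.sqf (by norm_num) e5
  have ha := hg.three h (l := 5) (.inr rfl) ⟨-r, 3 * j, e5, i5, rfl⟩
  have ho := hg.odd_index h ha
  obtain ⟨i, rfl⟩ : ∃ i, k = i + 1 := ⟨k - 1, by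
    have := Fintype.card_pos (α := Cl (p * q))
    omega⟩
  obtain ⟨n1, l1, c1⟩ := ked_pow h.ok (nm_idl h.ok (by norm_num) e5 i5)
    (idl_le h.ok.m4 (ra_e e5)) i
  have hc := (Subgroup.zpowers (cls (p * q) (idl (p * q) 1 5 (-r)))).card_mul_index
  rw [Nat.card_zpowers, Nat.card_eq_fintype_card, hk] at hc
  have h1 : cls (p * q) (idl (p * q) 1 5 (-r)) ^ (i + 1) ≠ 1 := fun e => by
    obtain ⟨f, hf⟩ := orderOf_dvd_of_pow_eq_one e
    rw [hf, ← mul_add] at hc
    have := Nat.eq_of_mul_eq_mul_left (Nat.pos_of_ne_zero fun e => by simp [e] at hf) hc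
    exact Nat.not_even_iff_odd.2 ho ⟨f, this⟩
  have h2 := (two_tors h (re_pp h).1 (x := cls (p * q) (idl (p * q) 1 5 (-r)) ^ (i + 1))
    (inv_eq_of_mul_eq_one_right (by rw [← pow_add, ← hk, pow_card_eq_one]))).resolve_left h1
  obtain ⟨u, hu, e⟩ := (cl_eq_iff (re_pp h).2.2.1 n1.iv).1 (c1.trans h2).symm
  have p0 : (0 : ℤ) < p := by exact_mod_cast h.pp.pos
  have p4 := h.p4
  have q4 := h.q4
  obtain ⟨c, hc'⟩ : ∃ c : ℤ, (p : ℤ) + q = 4 * c := ⟨(p + q) / 4, by omega⟩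
  have np := nm_idl h.ok (b := p) (k := c) p0 (by push_cast; linear_combination p * hc')
    (re_pp h).2.2.1
  have e1 := np.eq
  rw [cj_idl, idl_congr (b := -p) (b' := p) ⟨-1, by ring⟩] at e1
  have e2 := n1.unique h.ok (e ▸ np.sc hu)
  refine ⟨u * p, i + 1, l1 (e ▸ mem_sc.2 ⟨_, left_mem_sp2 _ _, by simp⟩), ?_, ?_⟩
  · rw [map_mul, Complex.normSq_natCast]
    push_cast at e2 ⊢
    linear_combination -p * e2
  · rw [hk, pow_add, e, sc_mul, mul_sc, e1, sc_sc, sc_sc, sc_sc]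
    congr 1
    push_cast
    ring

theorem gen_sign [Fintype (Cl (p * q))] (h : PQ p q) (ok : OkR (p * q) 1 r)
    (hz : Sg2 (p * q) r z s t) {M : ℤ} (hM : M % 12 = 1)
    (e : sc z (OO (p * q)) = sc M (idl (p * q) 1 5 (-r) ^ Fintype.card (Cl (p * q)))) :
    s * t = -1 := by
  obtain ⟨w, k, hw, e1, e2⟩ := pow_five h ok
  have pm := h.pm
  have hc : (p * 5 ^ k).Coprime 6 :=
    Nat.Coprime.mul_left ((Nat.coprime_comm.1 ((Nat.coprime_mul_iff_left (m := 2) (n := 3)).2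
      ⟨Nat.prime_two.coprime_iff_not_dvd.2 (by omega),
        Nat.prime_three.coprime_iff_not_dvd.2 (by omega)⟩))) (Nat.Coprime.pow_left k (by norm_num))
  have w0 : w ≠ 0 := Complex.normSq_pos.1 (by
    rw [e1]
    exact_mod_cast mul_pos h.pp.pos (by positivity))
  have M0 : (M : ℂ) * w ^ 2 ≠ 0 := mul_ne_zero (Int.cast_ne_zero.2 (by omega)) (pow_ne_zero 2 w0)
  have e3 : sc ((M * w ^ 2)⁻¹ * ((p : ℤ) * z)) (OO (p * q)) = OO (p * q) := by
    rw [← sc_sc, ← sc_sc, e, sc_sc (p : ℤ), mul_comm _ (M : ℂ), ← sc_sc, Int.cast_natCast, e2,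
      sc_sc M, sc_inv_sc M0]
  have s1 := (sg2_int ok h.sqf (m := p) (s := 1) (t := -1) (by simp; omega) (by simp; omega)).mul
    ok h.sqf hz
  have s2 := sg2_sq ok h.sqf hw hc e1
  rcases unit_Oc h.ok e3 with e4 | e4 <;> rw [inv_mul_eq_iff_eq_mul₀ M0] at e4
  · have s3 := (sg2_int ok h.sqf (m := M) (s := 1) (t := 1) (by simp; omega) (by simp; omega)).mul
      ok h.sqf s2
    rw [e4, mul_one] at s1
    obtain ⟨a, b⟩ := s1.unique ok s3
    rw [one_mul, one_mul] at a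
    rw [one_mul, neg_one_mul, neg_eq_iff_eq_neg] at b
    rw [a, b, one_mul]
  · have s3 := (sg2_int ok h.sqf (m := -M) (s := -1) (t := -1) (by simp; omega)
      (by simp; omega)).mul ok h.sqf s2
    rw [e4, mul_neg_one, ← neg_mul, ← Int.cast_neg] at s1
    obtain ⟨a, b⟩ := s1.unique ok s3
    rw [one_mul, mul_one] at a
    rw [mul_one, neg_one_mul, neg_inj] at b
    rw [a, b, mul_one]

end Pool.Agent.DH
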