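import Pool.Agent.Lib.MP_60ff09_nt.Dih.KEc
import Pool.Agent.Lib.MP_60ff09_nt.Dih.KEd

/-! The product of the first coordinates of the Heegner points. -/

set_option autoImplicit false

open scoped Classical NumberTheorySymbols
open Pool.Agent.Lib.MP_696deb_nt Pool.Agent.Lib.MP_696deb_nt.B2 Pool.Agent.Lib.MP_696deb_nt.B2.CM

namespace Pool.Agent.DH

variable {p q : ℕ} {r : ℤ} [Fintype (Cl (p * q))] {Q : Cl (p * q) → Fm}

theorem kez_pos {n : ℕ} {x : Cl n} {R : Fm} (ok : OkR n 1 r) (h : Nf n r x R) :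
    0 < (froot R).im := h.hg.im_pos (rh_neg ok.toOk)

theorem kez_sc {ι : Type} (S : Finset ι) (a : ι → ℂ) (I : ι → Lt) :
    ∏ i ∈ S, sc (a i) (I i) = sc (∏ i ∈ S, a i) (∏ i ∈ S, I i) := by
  simp only [sc, Finset.prod_mul_distrib, Submodule.prod_span_singleton]

theorem kez_re {M : Type} [CommMonoid M] (c : Cl (p * q)) (f : Fm → M) :
    ∏ x, f (Q (x * c)) = ∏ x, f (Q x) :=
  Equiv.prod_comp (Equiv.mulRight c) fun x => f (Q x)

theorem kez_mod {ι : Type} [Fintype ι] (he : Even (Fintype.card ι)) {m : ι → ℤ}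
    (h : ∀ i, m i % 12 = 7) : (∏ i, m i) % 12 = 1 := by
  obtain ⟨k, hk⟩ := he
  have h1 : ∀ i, (m i : ZMod 12) = 7 := fun i =>
    (ZMod.intCast_eq_intCast_iff' (m i) 7 12).2 (h i)
  have h2 : ((∏ i, m i : ℤ) : ZMod 12) = ((1 : ℤ) : ZMod 12) := by
    have h3 : (7 : ZMod 12) * 7 = 1 := by decide
    rw [Int.cast_prod, Finset.prod_congr rfl fun i _ => h1 i, Finset.prod_const, Finset.card_univ,
      hk, pow_add, ← mul_pow, h3, one_pow, Int.cast_one]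
  exact (ZMod.intCast_eq_intCast_iff' _ 1 12).1 h2

theorem kez_inK {n : ℕ} {ι : Type} (S : Finset ι) {j : ι → ℂ} (h : ∀ i, InK n (j i)) :
    InK n (∏ i ∈ S, j i) :=
  ⟨Finset.prod_ne_zero_iff.2 fun i _ => (h i).ne, fun σ e => by
    rw [map_prod]; exact Finset.prod_congr rfl fun i _ => (h i).fix σ e⟩

theorem prod_five (h : PQ p q) (ok : OkR (p * q) 1 r) (hQ : ∀ x, Nf (p * q) r x (Q x)) :
    ∏ x, g3 (5 * froot (Q x)) ^ 3 = -∏ x, g3 (froot (Q x)) ^ 3 := by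
  choose z s t h1 h2 h3 using fun x : Cl (p * q) => step5 ok h.sqf (hQ x)
    (hQ (x * (cls (p * q) (idl (p * q) 1 5 (-r)))⁻¹)) (inv_mul_cancel_right _ _).symm
  have e1 := Finset.prod_congr (s₁ := Finset.univ) rfl fun x _ => h2 x
  have e2 := Finset.prod_congr (s₁ := Finset.univ) rfl fun x _ => h3 x
  rw [Finset.prod_mul_distrib, kez_re _ fun R => g3 (froot R) ^ 3, ← Int.cast_prod,
    ← Units.coe_prod, Finset.prod_mul_distrib] at e1
  rw [kez_sc, kez_sc, kez_re _ fun R => idl (p * q) 1 R.1 (-R.2.1), ← Int.cast_prod,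
    Finset.prod_congr rfl fun x _ => (IsHg.idl_eq ok (hQ x).hg).1, Finset.prod_mul_distrib,
    Finset.prod_const, Finset.card_univ] at e2
  obtain ⟨-, J, hJ⟩ : Inv (p * q) (∏ x, idl (p * q) 1 ((Q x).1 / 5) (-(Q x).2.1)) :=
    Finset.prod_induction_nonempty _ (Inv (p * q)) (fun _ _ => IsIv.mul) Finset.univ_nonempty
      fun x _ => (IsHg.inv_idl ok h.sqf (hQ x).hg).2.1
  have h5 := (IsHg.inv_idl ok h.sqf (hQ 1).hg).2.2.2.2.2.1
  have e3 := congrArg (· * J) e2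
  obtain ⟨k, hk⟩ := Nat.exists_eq_succ_of_ne_zero (Fintype.card_ne_zero (α := Cl (p * q)))
  have e4 : ot (Oc (p * q) 1) * idl (p * q) 1 5 (-r) ^ Fintype.card (Cl (p * q)) =
      idl (p * q) 1 5 (-r) ^ Fintype.card (Cl (p * q)) := by
    rw [hk, pow_succ, mul_comm, mul_assoc, h5]
  simp only [sc_mul] at e3
  rw [mul_right_comm, hJ, e4] at e3
  have e5 := gen_sign h ok (Sg2.prod ok h.sqf Finset.univ h1)
    (kez_mod (card_even h) fun x => by have := (hQ x).m1; omega) e3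
  rw [e1, e5]
  simp

theorem prod_three (h : PQ p q) (ok : OkR (p * q) 1 r) (hQ : ∀ x, Nf (p * q) r x (Q x)) :
    ∃ j : ℂ, InK (p * q) j ∧ ∏ x, g3 (froot (Q x)) ^ 12 = j ^ 6 := by
  choose j h1 h2 using fun x : Cl (p * q) => step3 ok h.sqf (hQ x)
    (hQ (x * (cls (p * q) (idl (p * q) 1 3 (-r)))⁻¹)) (inv_mul_cancel_right _ _).symm
  refine ⟨∏ x, j x, kez_inK _ h1, ?_⟩
  have e1 := Finset.prod_congr (s₁ := Finset.univ) rfl fun x _ => h2 x
  rw [Finset.prod_mul_distrib, kez_re _ fun R => eta2 (froot R) ^ 6, Finset.prod_pow _ 6 j] at e1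
  rw [Finset.prod_congr rfl fun x _ => g3_twelve (kez_pos ok (hQ x)), Finset.prod_div_distrib, e1,
    mul_div_cancel_right₀]
  exact Finset.prod_ne_zero_iff.2 fun x _ => pow_ne_zero _ (eta2_ne (kez_pos ok (hQ x)))

theorem prod_t15 (h : PQ p q) (ok : OkR (p * q) 1 r) :
    ∃ a : ℂ, InK (p * q) a ∧ (∏ x, t15 (tau (p * q) r x)) ^ 3 = -a ^ 2 := by
  choose Q hQ using exists_nf ok h.sqf
  obtain ⟨j, hj, e⟩ := prod_three h ok hQ
  have e5 := prod_five h ok hQ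
  have g0 : ∏ x, g3 (froot (Q x)) ≠ 0 :=
    Finset.prod_ne_zero_iff.2 fun x _ => g3_ne (kez_pos ok (hQ x))
  refine ⟨(j ^ 3)⁻¹, ⟨inv_ne_zero (pow_ne_zero _ hj.ne), fun σ k => by
    rw [map_inv₀, map_pow, hj.fix σ k]⟩, ?_⟩
  rw [← Finset.prod_congr rfl fun x _ => (hQ x).t15_eq ok h.sqf,
    Finset.prod_congr rfl fun x _ => t15_g3 (kez_pos ok (hQ x)), Finset.prod_div_distrib,
    Finset.prod_pow]
  rw [Finset.prod_pow] at e e5
  rw [Finset.prod_pow] at e5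
  rw [div_pow, ← pow_mul, mul_comm 5 3, pow_mul, e5, inv_pow, ← pow_mul, ← e]
  field_simp

end Pool.Agent.DH
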