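import Pool.Agent.Lib.MP_60ff09_nt.Dih.Re
import Pool.Agent.Lib.MP_696deb_nt.B2.CMz
import Pool.Agent.Lib.MP_696deb_nt.B2.CF
import Pool.Agent.Lib.MP_696deb_nt.B2.XLd
import Pool.Agent.Lib.MP_696deb_nt.B2.MTA
import Pool.Agent.Lib.MP_696deb_nt.B2.MKR
import Pool.Agent.Lib.MP_696deb_nt.B2.MDE

/-! The Hilbert class field is unramified, and its torsion points are rational. -/

set_option autoImplicit false

open scoped Classical NumberTheorySymbols
open Pool.Agent.Lib.MP_696deb_nt Pool.Agent.Lib.MP_696deb_nt.B2 Pool.Agent.Lib.MP_696deb_nt.B2.CM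

namespace Pool.Agent.DH

variable {n : ℕ} {g : Gam} {w : Plc}

theorem rho_unr (ok : Ok n 1) (hs : Squarefree n) (hg : g ∈ GK n ⊓ Ine w) :
    tq _ (rho n 1 g) = 1 := by
  obtain ⟨F⟩ := exists_cft
  have := finite_Pc ok.m4 ok.gt 1
  have hw : ¬ w.p ∣ 1 := fun h => w.prime.ne_one (Nat.dvd_one.1 h)
  have h0 := ok.gt
  have m4 := ok.m4
  by_cases h : w.p ∣ n
  · exact tq_rho_ram ok hs h hg
  by_cases k : ∃ s ∈ Dec w, s ∉ GK n
  · obtain ⟨s, hs, hs'⟩ := k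
    by_contra k
    obtain ⟨m, θ, -, h2⟩ := exists_char tw_two ⊥ (a := tq _ (rho n 1 g)) k
    exact h2 (unr_inert F ok (θ.comp (tq _)) h hw hs hs' hg)
  obtain ⟨φ, hφ⟩ := exists_frob w
  have h3 : φ ∈ GK n := by_contra fun e => k ⟨φ, hφ.1, e⟩
  by_cases h2 : w.p = 2
  · by_cases h8 : n % 8 = 3
    · have h1 := chi_dec_two (a := -n * 5) h2 (by omega) hφ.1
      rw [chi_mul (by omega) (by norm_num), B4c_mem.1 h3, chi_frob_two h2 (h2 ▸ hφ)] at h1
      exact absurd h1 (by decide)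
    · rw [rho_ine_split ok (b := 1) (k := (n + 1) / 8) (by rw [h2]; push_cast; omega)
        (by rw [h2]; decide) hg.2, map_one]
  · have h4 : ¬ (w.p : ℤ) ∣ 2 * -n := fun e => by
      rcases (Nat.prime_iff_prime_int.1 w.prime).dvd_mul.1 e with e | e
      · exact h2 ((Nat.prime_dvd_prime_iff_eq w.prime Nat.prime_two).1 (by exact_mod_cast e))
      · exact h (by exact_mod_cast (dvd_neg.1 e))
    have h5 := chi_frob h4 hφ
    rw [B4c_mem.1 h3] at h5
    obtain ⟨b, k, e, hb⟩ := exists_root_split ok.m4 w.prime h2 h5.symm hw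
    rw [rho_ine_split ok e hb hg.2, map_one]

theorem ch_unr (ok : Ok n 1) (hs : Squarefree n) {m : ℕ}
    (l : Cl n →* Multiplicative (ZMod (2 ^ m))) : Unr (GK n) (ch l) := by
  intro w σ hσ
  rw [ch, char_tq l (rho_unr ok hs hσ), toAdd_one]

theorem exists_move_i (ok : Ok n 1) (hs : Squarefree n) :
    ∃ g ∈ GK n, rho n 1 g = 1 ∧ chi (-1) g = -1 := by
  obtain ⟨σ, h1, h2, -⟩ := exists_ine_two w2_p (-1) 1
  have m4 := ok.m4
  have h3 : σ ∈ GK n := ine_le_GK' ok.m4 (by rw [w2_p]; omega) h1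
  obtain ⟨k, hk, e⟩ := tq_eq_one.1 (rho_unr ok hs ⟨h3, h1⟩)
  exact ⟨σ ^ k, pow_mem h3 k, by rw [rho_pow ok h3, e], by rw [map_pow, h2, hk.neg_one_pow]⟩

theorem tors_fix (ok : Ok n 1) (hs : Squarefree n) (cop : n.Coprime 30) {m k : ℕ}
    (l : Cl n →* Multiplicative (ZMod (2 ^ m))) {P : EE} (hP : ∀ g ∈ GK n, ch l g = 0 → g • P = P)
    (h2 : 2 ^ k • P = 0) (g : Gam) : g • P = P := by
  obtain ⟨T⟩ := m_tate m_kron m_desc
  refine (T.fix_I30 h2 fun g hg => ?_).2 g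
  have key : I30 ≤ (MulAction.stabilizer Gam P) := iSup_le fun v σ hσ => by
    have h1 : σ ∈ GK n := ine_le_GK' ok.m4 (fun e => v.1.prime.ne_one
      (Nat.eq_one_of_dvd_coprimes cop (by exact_mod_cast e) v.2)) hσ
    exact hP σ h1 (ch_unr ok hs l v.1 σ ⟨h1, hσ⟩)
  exact key hg

theorem nza_tw (g : Gam) (P : EE) : tw 1 g P = g • P := by
  have h := chi_sq 1 g
  rw [one_pow] at h
  rw [tw, h, Units.val_one, one_smul]

theorem nza_fix {P : EE} (h : 2 • P = 0) (g : Gam) : g • P = P := by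
  rcases two_eq_zero.1 h with rfl | rfl | rfl | rfl
  · exact smul_zero g
  · exact smul_T1 g
  · exact smul_T2 g
  · exact smul_T3 g

theorem nza_even {A B : ℕ} (h : A • T2 + B • B2.T1 = 0) : Even B := by
  have e : ∀ (P : EE) (k : ℕ), 2 • P = 0 → (2 * k) • P = 0 := fun P k hP => by
    rw [mul_comm, mul_smul, hP, smul_zero]
  by_contra hB
  obtain ⟨b, rfl⟩ := Nat.not_even_iff_odd.1 hB
  rw [add_smul, e _ _ B2.two_T1, zero_add, one_smul] at h
  obtain ⟨a, rfl | rfl⟩ := Nat.even_or_odd' A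
  · rw [e _ _ two_T2, zero_add] at h
    exact T_ne.1 h
  · rw [add_smul, e _ _ two_T2, zero_add, one_smul, add_comm, T1_add_T2] at h
    exact T_ne.2.2.1 h

theorem nza_one {y : EE} (hy : g • y = y) (h0 : y ≠ 0 ∧ xco y ≠ 0) :
    ∃ (Q : EE) (r : Qbar) (a b : ℕ), 2 • Q = y ∧ r ^ 2 = xco y ∧ g r = r * (-1) ^ b ∧
      g • Q - Q = a • T2 + b • B2.T1 := by
  obtain ⟨Q, rfl⟩ := exists_half y
  obtain ⟨α, β, -, ⟨r, -, h1, h2⟩, h3⟩ := m_desc 1 (MulAction.stabilizer Gam (2 • Q)) Q one_ne_zero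
    fun k hk => by rw [nza_tw]; exact hk
  refine ⟨Q, r, (α g).val, (β g).val, rfl, ?_, h2 g hy, by rw [← h3 g hy, nza_tw]⟩
  have h4 : 2 • Q ≠ T2 := fun e => h0.2 (by rw [e]; rfl)
  rw [kB, if_neg h0.1, if_neg h4, Int.cast_one, one_mul, pow_one] at h1
  exact h1

theorem kum_sum {ι : Type} [Fintype ι] {y : ι → EE} (hy : ∀ i, g • y i = y i)
    (h0 : ∀ i, y i ≠ 0 ∧ xco (y i) ≠ 0) {o : ℕ} (ho : Odd o) {R : EE} (hR : g • R = R)
    (e : o • ∑ i, y i = 2 • R) {s : Qbar} (hs : s ^ 2 = ∏ i, xco (y i)) : g s = s := by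
  choose Q r a b h1 h2 h3 h4 using fun i => nza_one (hy i) (h0 i)
  have h5 : 2 • (o • ∑ i, Q i - R) = 0 := by
    rw [smul_sub, smul_comm, Finset.smul_sum, Finset.sum_congr rfl fun i _ => h1 i, e, sub_self]
  have h6 := nza_fix h5 g
  rw [smul_sub, hR, sub_left_inj, smul_comm, ← sub_eq_zero, ← smul_sub, Finset.smul_sum,
    ← Finset.sum_sub_distrib, Finset.sum_congr rfl fun i _ => h4 i, Finset.sum_add_distrib,
    ← Finset.sum_smul, ← Finset.sum_smul, smul_add, smul_smul, smul_smul] at h6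
  have h7 : Even (∑ i, b i) :=
    (Nat.even_mul.1 (nza_even h6)).resolve_left (Nat.not_even_iff_odd.2 ho)
  have h8 : g (∏ i, r i) = ∏ i, r i := by
    rw [map_prod, Finset.prod_congr rfl fun i _ => h3 i, Finset.prod_mul_distrib,
      Finset.prod_pow_eq_pow_sum, h7.neg_one_pow, mul_one]
  rw [← Finset.prod_congr rfl fun i _ => h2 i, Finset.prod_pow] at hs
  rcases sq_eq_sq_iff_eq_or_eq_neg.1 hs with rfl | rfl
  · exact h8
  · rw [map_neg, h8]

end Pool.Agent.DH
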