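import Pool.Agent.Lib.MP_60ff09_nt.Dih.KEz
import Pool.Agent.Lib.MP_60ff09_nt.Dih.NZa

/-! The Heegner point of the twist has infinite order. -/

set_option autoImplicit false

open scoped Classical NumberTheorySymbols
open Pool.Agent.Lib.MP_696deb_nt Pool.Agent.Lib.MP_696deb_nt.B2 Pool.Agent.Lib.MP_696deb_nt.B2.CM

namespace Pool.Agent.DH

variable {p q j : ℕ} {r : ℤ} [Fintype (Cl (p * q))]

theorem nzz_sum {A : Type*} [AddCommMonoid A] (m : ℕ) [NeZero m] (f : ZMod m → A) :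
    ∑ x : ZMod m, f x = ∑ i ∈ Finset.range m, f (i : ZMod m) := by
  symm
  refine Finset.sum_bij (fun (i : ℕ) _ => (i : ZMod m)) (fun _ _ => Finset.mem_univ _) ?_ ?_
    fun _ _ => rfl
  · intro a ha b hb e
    have := congr_arg ZMod.val e
    rwa [ZMod.val_cast_of_lt (Finset.mem_range.1 ha),
      ZMod.val_cast_of_lt (Finset.mem_range.1 hb)] at this
  · intro b _
    exact ⟨b.val, Finset.mem_range.2 b.val_lt, ZMod.natCast_zmod_val b⟩

theorem smul_yS {n m : ℕ} [Fintype (Cl n)] (ok : OkR n 1 r) (l : Cl n →* Multiplicative (ZMod m))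
    {g : Gam} (hg : g ∈ GK n) (k : ZMod m) : g • yS r l k = yS r l (ch l g + k) := by
  rw [yS, yS, Finset.smul_sum]
  refine Finset.sum_equiv (Equiv.mulLeft (rho n 1 g)) (fun x => ?_) fun x _ => smul_yQ ok hg x
  refine Iff.trans Finset.mem_filter (Iff.trans ?_ Finset.mem_filter.symm)
  refine and_congr (iff_of_true (Finset.mem_univ _) (Finset.mem_univ _)) ?_
  change _ ↔ (l (rho n 1 g * x)).toAdd = (l (rho n 1 g)).toAdd + k
  rw [map_mul, toAdd_mul, add_right_inj]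

/-- No odd multiple of the trace is twice a point of the Hilbert class field. -/
theorem trace_ne_two (h : PQ p q) (ok : OkR (p * q) 1 r) {o : ℕ} (ho : Odd o) {R : EE}
    (hR : ∀ g ∈ GK (p * q), rho (p * q) 1 g = 1 → g • R = R) :
    o • ∑ x, yQ (p * q) 1 r x ≠ 2 • R := by
  intro e
  obtain ⟨g, hg, g1, g2⟩ := exists_move_i h.ok h.sqf
  have hx : ∀ x, jC (xco (yQ (p * q) 1 r x)) = t15 (tau (p * q) r x) := fun x => by
    rw [← xco_pmap, jC_tau ok h.sqf, xco_pt (tau_pos ok h.sqf x)]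
  have h0 : ∀ x, xco (yQ (p * q) 1 r x) ≠ 0 := fun x e0 =>
    t15_ne (tau_pos ok h.sqf x) (by rw [← hx, e0, map_zero])
  obtain ⟨s, hs⟩ := IsAlgClosed.exists_pow_nat_eq (∏ x, xco (yQ (p * q) 1 r x)) two_pos
  have h1 : g s = s := kum_sum (y := fun x => yQ (p * q) 1 r x)
    (fun x => by rw [smul_yQ ok hg, g1, one_mul])
    (fun x => ⟨fun e0 => h0 x (by rw [e0]; rfl), h0 x⟩) ho (hR g hg g1) e hs
  obtain ⟨a, ha, h2⟩ := prod_t15 h ok
  obtain ⟨σ, hσ⟩ := exists_ex g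
  have h3 : jC s ^ 2 = ∏ x, t15 (tau (p * q) r x) := by
    rw [← map_pow, hs, map_prod]
    exact Finset.prod_congr rfl fun x _ => hx x
  have h4 : σ (jC s ^ 3 / a) = jC s ^ 3 / a := by
    rw [map_div₀, map_pow, hσ, h1, ha.fix σ (hσ.dl hg)]
  have h5 : jC (rt (-1)) ^ 2 = -1 := by
    rw [← map_pow, rt_sq]
    simp
  have h6 : σ (jC (rt (-1))) = -jC (rt (-1)) := by
    rw [hσ, chi_spec (rt_sq (-1)) g, g2]
    simp
  have h7 : jC (rt (-1)) ^ 2 = (jC s ^ 3 / a) ^ 2 := by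
    have := ha.ne
    rw [h5, div_pow, ← pow_mul, mul_comm, pow_mul, h3, h2]
    field_simp
  have h8 : σ (jC (rt (-1))) = jC (rt (-1)) := by
    rcases sq_eq_sq_iff_eq_or_eq_neg.1 h7 with e1 | e1
    · rw [e1, h4]
    · rw [e1, map_neg, h4]
  have h9 : jC (rt (-1)) = 0 := by linear_combination (h6 - h8) / 2
  rw [h9] at h5
  norm_num at h5

theorem wP_nontors (h : PQ p q) (ok : OkR (p * q) 1 r) (hj : 1 ≤ j)
    (l : Cl (p * q) →* Multiplicative (ZMod (2 ^ (j + 1)))) (hl : Function.Surjective l) :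
    ¬ IsOfFinAddOrder (wP r l) := by
  intro hf
  obtain ⟨a, o, ho, e⟩ := Nat.exists_eq_two_pow_mul_odd hf.addOrderOf_pos.ne'
  have h1 : 2 ^ a • o • wP r l = 0 := by rw [← mul_smul, ← e, addOrderOf_nsmul_eq_zero]
  have hs : ∀ g ∈ GK (p * q), g • o • wP r l =
      o • (yS r l (ch l g) - yS r l (ch l g + 2 ^ j)) := fun g hg => by
    rw [smul_comm, wP, smul_sub, smul_yS ok l hg, smul_yS ok l hg, add_zero]
  have h2 := tors_fix h.ok h.sqf h.cop l (P := o • wP r l)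
    (fun g hg e0 => by rw [hs g hg, e0, zero_add, wP]) h1
  have h3 : ∀ k, o • (yS r l k - yS r l (k + 2 ^ j)) = o • wP r l := fun k => by
    obtain ⟨x, hx⟩ := hl (Multiplicative.ofAdd k)
    obtain ⟨g, hg, rfl⟩ := rho_surj h.ok x
    have e0 : ch l g = k := by rw [ch, hx]; rfl
    rw [← e0, ← hs g hg, h2]
  have h4 : (2 : ZMod (2 ^ (j + 1))) ^ j + 2 ^ j = 0 := by
    have := ZMod.natCast_self (2 ^ (j + 1))
    push_cast at this
    rw [← this]
    ring
  have h5 : 2 ^ j • o • wP r l = 0 := by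
    have h6 := h3 (2 ^ j)
    rw [h4, ← neg_sub, smul_neg, ← wP, neg_eq_iff_add_eq_zero, ← two_nsmul] at h6
    obtain ⟨i, rfl⟩ : ∃ i, j = i + 1 := ⟨j - 1, by omega⟩
    rw [pow_succ, mul_smul, h6, smul_zero]
  refine trace_ne_two h ok ho (R := o • ∑ i ∈ Finset.range (2 ^ j), yS r l i) (fun g hg g1 => ?_) ?_
  · have e0 : ch l g = 0 := by rw [ch, g1, map_one]; rfl
    rw [smul_comm, Finset.smul_sum (r := g)]
    simp only [smul_yS ok l hg, e0, zero_add]
  · have e1 : ∑ x, yQ (p * q) 1 r x = ∑ k, yS r l k :=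
      (Finset.sum_fiberwise Finset.univ (fun x => (l x).toAdd) (yQ (p * q) 1 r)).symm
    have e2 : ∑ i ∈ Finset.range (2 ^ (j + 1)), yS r l i =
        ∑ i ∈ Finset.range (2 ^ j), yS r l i +
          ∑ i ∈ Finset.range (2 ^ j), yS r l (i + 2 ^ j) := by
      rw [show Finset.range (2 ^ (j + 1)) = Finset.range (2 ^ j + 2 ^ j) by
        rw [pow_succ, mul_two], Finset.sum_range_add]
      congr 1
      refine Finset.sum_congr rfl fun i _ => ?_
      push_cast
      exact congr_arg _ (add_comm _ _)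
    have e3 : o • (∑ i ∈ Finset.range (2 ^ j), yS r l i -
        ∑ i ∈ Finset.range (2 ^ j), yS r l (i + 2 ^ j)) = 0 := by
      rw [← Finset.sum_sub_distrib, Finset.smul_sum, Finset.sum_congr rfl fun i _ => h3 _,
        Finset.sum_const, Finset.card_range, h5]
    rw [smul_sub, sub_eq_zero] at e3
    rw [e1, nzz_sum, e2, smul_add, ← e3, two_nsmul]

end Pool.Agent.DH
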