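import Pool.Agent.Lib.MP_60ff09_nt.Dih.NZa
import Pool.Agent.Lib.MP_696deb_nt.B2.AXa
import Pool.Agent.Lib.MP_696deb_nt.B2.AXc

/-! The descent characters on inertia groups. -/

set_option autoImplicit false

open scoped NNReal Classical
open Pool.Agent.Lib.MP_696deb_nt Pool.Agent.Lib.MP_696deb_nt.B2

namespace Pool.Agent.DH

variable {w : Plc} {G : Subgroup Gam} {α β κ : Gam → ZMod 2}

theorem pia_unit (hw : w.p ≠ 2) (hG : G ≤ Ine w) {a u y : Qbar} (h : Kum 1 G a κ) (hy : Fx G y)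
    (hu : w.V u = 1) (e : a = u * y ^ 2) : ∀ σ ∈ G, κ σ = 0 := fun σ hσ =>
  (kum_sq (e ▸ h) hy).unr hw hu σ ⟨hσ, hG hσ⟩

theorem pia_neg (hw : w.p ≠ 2) {σ : Gam} (hσ : σ ∈ Ine w) : xi (-1) σ = 0 :=
  xi_eq_zero.2 (chi_ine (fun k => hw ((Nat.prime_dvd_prime_iff_eq w.prime Nat.prime_two).1
    (by simpa [← Int.natCast_dvd_natCast] using k))) hσ)

theorem pi_odd (hw : ¬ w.p ∣ 30) (hG : G ≤ Ine w) (k : LocK G 1 α β) :
    ∀ σ ∈ G, α σ = 0 ∧ β σ = 0 := by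
  have h2 : w.p ≠ 2 := fun e => hw (by rw [e]; norm_num)
  rcases k with ⟨u, v, k⟩ | ⟨X, z, hX, hz, z0, e, hA, hB⟩
  · exact fun σ hσ => by simp [(k σ hσ).1, (k σ hσ).2, B2.xi_one, pia_neg h2 (hG hσ)]
  obtain ⟨-, X0, A0, Y0⟩ := axb_ne' z0 e
  simp only [Int.cast_one, one_mul] at e hA hB
  have h3 : ¬ (w.p : ℤ) ∣ 900 := fun k => hw (by
    exact_mod_cast (Nat.prime_iff_prime_int.1 w.prime).dvd_of_dvd_pow (n := 2) (a := 30) k)
  have v4 : w.V 4 = 1 := by simpa using axb_int h3 (m := 4) (by norm_num)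
  have v9 : w.V 9 = 1 := by simpa using axb_int h3 (m := 9) (by norm_num)
  have v25 : w.V 25 = 1 := by simpa using axb_int h3 (m := 25) (by norm_num)
  have m4 : ∀ x, w.V (4 * x) = w.V x := fun x => by rw [map_mul, v4, one_mul]
  have A1 : 4 * X + 9 ≠ 0 := by rwa [mul_comm]
  have big : 1 < w.V X → w.V (4 * X + 9) = w.V X ∧ w.V (X - 4) = w.V X := fun h1 =>
    ⟨by rw [w.V.map_add_eq_of_lt_left (by rwa [m4, v9]), m4],
      w.V.map_sub_eq_of_lt_left (by rwa [v4])⟩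
  have vX : w.V X ≠ 0 := w.V.ne_zero_iff.2 X0
  have ha : ∀ σ ∈ G, α σ = 0 := by
    rcases lt_or_ge 1 (w.V X) with h1 | h1
    · refine pia_unit h2 hG hA (hz.xdiv hX) (u := X / (X - 4)) ?_ (by rw [div_pow, e]; field_simp)
      rw [map_div₀, (big h1).2, div_self vX]
    rcases (w.V.map_add_le ((m4 X).le.trans h1) v9.le).eq_or_lt with h4 | h4
    · exact pia_unit h2 hG hA axb_fx1 h4 (by ring)
    · refine pia_unit h2 hG hA hz (u := (X * (X - 4))⁻¹) ?_ (by rw [e]; field_simp)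
      have k1 := w.V.map_sub_eq_of_lt_right (v9 ▸ h4)
      have k2 := w.V.map_sub_eq_of_lt_right (v25 ▸ h4)
      rw [add_sub_cancel_right, m4, v9] at k1
      rw [show 4 * X + 9 - 25 = 4 * (X - 4) by ring, m4, v25] at k2
      rw [map_inv₀, map_mul, k1, k2]
      simp
  refine fun σ hσ => ⟨ha σ hσ, ?_⟩
  revert σ
  rcases lt_trichotomy (w.V X) 1 with h1 | h1 | h1
  · refine pia_unit h2 hG hB hz (u := ((4 * X + 9) * (X - 4))⁻¹) ?_ (by rw [e]; field_simp)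
    rw [map_inv₀, map_mul, w.V.map_add_eq_of_lt_right (by rwa [m4, v9]),
      w.V.map_sub_eq_of_lt_right (by rwa [v4]), v4, v9]
    simp
  · exact pia_unit h2 hG hB axb_fx1 h1 (by ring)
  · refine pia_unit h2 hG hB (hz.xdiv hX) (u := X ^ 2 / ((4 * X + 9) * (X - 4))) ?_
      (by rw [div_pow, e]; field_simp)
    rw [map_div₀, map_mul, (big h1).1, (big h1).2, map_pow, pow_two, div_self (mul_ne_zero vX vX)]

theorem pia_tame (hw : w.p ≠ 2) {x : Qbar} (h : Kum 1 (Ine w) x κ) :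
    ∃ e : ZMod 2, ∀ σ ∈ Ine w, κ σ = e * xi w.p σ := by
  obtain ⟨k, hk⟩ := V_of_fx_ine h.fx.2 h.fx.1
  have p0 : (w.p : Qbar) ≠ 0 := Nat.cast_ne_zero.2 w.prime.ne_zero
  have q0 : (w.p : ℝ≥0) ≠ 0 := Nat.cast_ne_zero.2 w.prime.ne_zero
  have fx : ∀ i : ℤ, Fx (Ine w) ((w.p : Qbar) ^ i) := fun i g _ => by rw [map_zpow₀, map_natCast]
  obtain ⟨i, rfl | rfl⟩ := Int.even_or_odd' k
  · refine ⟨0, fun σ hσ => ?_⟩
    rw [pia_unit hw le_rfl h (fx i) (u := x / ((w.p : Qbar) ^ i) ^ 2) ?_ (by field_simp) σ hσ,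
      zero_mul]
    rw [map_div₀, hk, map_pow, map_zpow₀, w.hV, inv_zpow, inv_pow, ← zpow_natCast, ← zpow_mul,
      mul_comm i, Nat.cast_ofNat, div_self (inv_ne_zero (zpow_ne_zero _ q0))]
  · refine ⟨1, fun σ hσ => ?_⟩
    have k1 := pia_unit hw le_rfl (h.mul (kum_xi (a := w.p) (by exact_mod_cast w.prime.ne_zero)))
      (fx (i + 1)) (u := x * w.p / ((w.p : Qbar) ^ (i + 1)) ^ 2) (by
        rw [map_div₀, map_mul, hk, map_pow, map_zpow₀, w.hV, inv_zpow, inv_pow, ← zpow_natCast,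
          ← zpow_mul, ← mul_inv, ← zpow_add_one₀ q0, Nat.cast_ofNat,
          show (i + 1) * 2 = 2 * i + 1 + 1 by ring, div_self (inv_ne_zero (zpow_ne_zero _ q0))])
      (by push_cast; field_simp) σ hσ
    rw [one_mul]
    exact CharTwo.add_eq_zero.1 k1

theorem pi_tame (hw : w.p ≠ 2) {R : EE} (hR : ∀ σ ∈ Ine w, σ • 2 • R = 2 • R) :
    ∃ t : EE, 2 • t = 0 ∧ ∀ σ ∈ Ine w, σ • R - R = (xi w.p σ).val • t := by
  obtain ⟨a, b, h1, h2, h3⟩ := m_desc 1 (Ine w) R one_ne_zero fun g hg => by rw [nza_tw, hR g hg]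
  obtain ⟨e, he⟩ := pia_tame hw h1
  obtain ⟨f, hf⟩ := pia_tame hw h2
  refine ⟨e.val • T2 + f.val • B2.T1, by
    rw [smul_add, smul_comm, two_T2, smul_comm 2, B2.two_T1]; simp, fun σ hσ => ?_⟩
  rw [← nza_tw, h3 σ hσ, he σ hσ, hf σ hσ]
  have v1 : (1 : ZMod 2).val = 1 := rfl
  rcases b4b_cases (xi w.p σ) with k | k <;> simp [k, v1]

theorem pia_root {X : Qbar} (hX : Fx (Ine w) X) (h : 1 < w.V X) :
    ∃ r, Fx (Ine w) r ∧ r ≠ 0 ∧ (X * r) ^ 2 = X * (X - 4) := by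
  have X0 := axb_ne (w := w) (c := 1) (by simpa using h)
  have v4 : 0 < w.V 4 := b3a_pos w (by norm_num)
  obtain ⟨r, h1, h2, -⟩ := exists_sqrt (w := w) (Ine_le w) (a := 1 - 4 / X)
    (axb_fx1.xsub ((axb_ofNat 4).xdiv hX)) (by
      rw [sub_sub_cancel_left, Valuation.map_neg, map_div₀]
      exact div_lt_self v4 h)
  refine ⟨r, h1, fun e => ?_, by rw [mul_pow, h2]; field_simp⟩
  rw [e, zero_pow two_ne_zero, eq_comm, sub_eq_zero, eq_div_iff X0, one_mul] at h2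
  exact h.not_ge (by simpa [h2] using w.V_int_le 4)

theorem pi_two_a (hw : w.p = 2) (k : LocK (Ine w) 1 α β) : ∀ σ ∈ Ine w, α σ = 0 := by
  rcases k with ⟨u, v, k⟩ | ⟨X, z, hX, hz, z0, e, hA, hB⟩
  · exact fun σ hσ => by rw [(k σ hσ).1, B2.xi_one, mul_zero]
  obtain ⟨-, X0, A0, Y0⟩ := axb_ne' z0 e
  intro σ hσ
  rcases le_or_gt (w.V X) 1 with h1 | h1
  · obtain ⟨r, -, hr, k⟩ := hA
    refine (b3b_two (α σ)).resolve_right fun k1 => rf0_four hw hσ (x := r) ?_ ?_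
    · rw [pow_one] at hr
      rw [hr, show ((1 : ℤ) : Qbar) * (4 * X + 9) - 1 = 4 * (X + (2 : ℤ)) by push_cast; ring,
        map_mul]
      exact mul_le_of_le_one_right' (w.V.map_add_le h1 (w.V_int_le _))
    · rw [k σ hσ, k1, b3b_neg, mul_neg_one]
  · obtain ⟨r, h2, r0, h3⟩ := pia_root hX h1
    rw [b4b_kum (n := 1) hA (hz.xdiv (hX.xmul h2)) (by
      rw [div_pow, e, h3]
      push_cast
      field_simp) σ hσ, B2.xi_one]

theorem pia_sq (hw : w.p = 2) {y : Qbar} (hy : Fx (Ine w) y) : w.V (y ^ 2 - 1) ≠ 2⁻¹ := fun h => by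
  have v2 := axc_two hw
  rw [show y ^ 2 - 1 = (y - 1) * (y - 1 + 2) by ring, map_mul] at h
  rcases le_or_gt (w.V (y - 1)) 2⁻¹ with h1 | h1
  · have h2 := mul_le_mul' h1 (w.V.map_add_le h1 v2.le)
    rw [h] at h2
    norm_num [← NNReal.coe_le_coe] at h2
  · obtain ⟨j, hj⟩ := V_of_fx_ine (hy.xsub axb_fx1) (axb_ne (v2 ▸ h1))
    rw [w.V.map_add_eq_of_lt_left (v2 ▸ h1), hj, hw, Nat.cast_ofNat, ← mul_inv, inv_inj,
      ← zpow_add₀ two_ne_zero] at h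
    have := zpow_right_injective₀ two_pos one_lt_two.ne' (h.trans (zpow_one _).symm)
    omega

theorem pi_two_b (hw : w.p = 2) (k : LocK (Ine w) 1 α β) :
    ∃ u, w.V u = 1 ∧ Kum 1 (Ine w) u β := by
  rcases k with ⟨u, v, k⟩ | ⟨X, z, hX, hz, z0, e, hA, hB⟩
  · rcases b4b_cases (u + v) with h | h
    · exact ⟨(1 : ℤ), by simp, axa_congr (kum_xi one_ne_zero) fun g hg => by
        rw [(k g hg).2, ← add_mul, h, zero_mul, B2.xi_one]⟩
    · exact ⟨(-1 : ℤ), by simp, axa_congr (kum_xi (by norm_num)) fun g hg => by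
        rw [(k g hg).2, ← add_mul, h, one_mul]⟩
  obtain ⟨-, X0, A0, Y0⟩ := axb_ne' z0 e
  simp only [Int.cast_one, one_mul] at e hB
  have key : ∀ u y, Fx (Ine w) y → w.V u = 1 → X = u * y ^ 2 →
      ∃ u, w.V u = 1 ∧ Kum 1 (Ine w) u β := fun u y hy hu e' => ⟨u, hu, kum_sq (e' ▸ hB) hy⟩
  have v9 : w.V 9 = 1 := by simpa using (w.V_int_eq_one (a := 9)).2 (by rw [hw]; decide)
  have v2 := axc_two hw
  have v4 : w.V 4 = 4⁻¹ := by
    rw [show (4 : Qbar) = 2 * 2 by norm_num, map_mul, v2, ← mul_inv]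
    norm_num
  have f2 : Fx (Ine w) 2 := axb_ofNat 2
  have m8 : w.V 8 < 2⁻¹ := by
    rw [show (8 : Qbar) = 2 * 4 by norm_num, map_mul, v2, v4]
    norm_num [← NNReal.coe_lt_coe]
  obtain ⟨j, hj⟩ := V_of_fx_ine hX X0
  rw [hw, Nat.cast_ofNat, ← zpow_neg] at hj
  have lt : ∀ {a b : ℤ}, a < b → (2 : ℝ≥0) ^ a < 2 ^ b := fun h => zpow_lt_zpow_right₀ one_lt_two h
  have p4 : (4 : ℝ≥0) = 2 ^ (2 : ℤ) := by norm_num
  have p4' : (4 : ℝ≥0)⁻¹ = 2 ^ (-2 : ℤ) := by rw [p4, zpow_neg]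
  have hc : j < -2 ∨ j = -2 ∨ j = -1 ∨ j = 0 ∨ j = 1 ∨ j = 2 ∨ 2 < j := by omega
  rcases hc with h1 | rfl | rfl | rfl | rfl | rfl | h1
  · have h2 : (2 : ℝ≥0) ^ (2 : ℤ) < w.V X := hj ▸ lt (by omega)
    refine key (4 * X * X / ((4 * X + 9) * (X - 4))) _ (hz.xdiv (f2.xmul hX)) ?_
      (by rw [div_pow, e]; field_simp; norm_num)
    rw [map_div₀, map_mul _ (4 * X + 9), w.V.map_add_eq_of_lt_left (by
        rwa [map_mul, v9, v4, lt_inv_mul_iff₀ (by norm_num), mul_one, p4]),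
      w.V.map_sub_eq_of_lt_left (by rw [v4, p4']; exact (lt (by norm_num)).trans h2), map_mul,
      div_self (mul_ne_zero (w.V.ne_zero_iff.2 (by simpa using X0)) (w.V.ne_zero_iff.2 X0))]
  · refine key (4 * X) _ (axb_fx1.xdiv f2) ?_ (by ring)
    rw [map_mul, v4, hj]
    norm_num
  · exfalso
    obtain ⟨r, h2, r0, h3⟩ := pia_root hX (hj ▸ by norm_num)
    refine pia_sq hw (hz.xdiv (hX.xmul h2)) ?_
    have e1 : w.V (4 * X) = 2⁻¹ := by
      rw [map_mul, v4, hj]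
      norm_num
    rw [show (z / (X * r)) ^ 2 - 1 = 4 * X + 8 by rw [div_pow, e, h3]; field_simp; ring,
      w.V.map_add_eq_of_lt_left (e1 ▸ m8), e1]
  · exact key X 1 axb_fx1 (by rw [hj]; norm_num) (by ring)
  · exfalso
    refine pia_sq hw (hz.xdiv hX) ?_
    have e1 : w.V (9 * 4 / X) = 2⁻¹ := by
      rw [map_div₀, map_mul, v9, v4, hj]
      norm_num
    have e2 : w.V (4 * X) < 2⁻¹ := by
      rw [map_mul, v4, hj]
      norm_num [← NNReal.coe_lt_coe]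
    rw [show (z / X) ^ 2 - 1 = 4 * X - 8 - 9 * 4 / X by rw [div_pow, e]; field_simp; ring,
      w.V.map_sub_eq_of_lt_right (e1 ▸ w.V.map_sub_lt e2 m8), e1]
  · refine key (X / 4) _ f2 ?_ (by ring)
    rw [map_div₀, v4, hj]
    norm_num
  · have h2 : w.V X < w.V 4 := by rw [hj, v4, p4']; exact lt (by omega)
    refine key (4 / ((4 * X + 9) * (X - 4))) _ (hz.xdiv f2) ?_
      (by rw [div_pow, e]; field_simp; norm_num)
    rw [map_div₀, map_mul _ (4 * X + 9), w.V.map_sub_eq_of_lt_right h2,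
      w.V.map_add_eq_of_lt_right (by
        rw [v9]
        exact b2a_mul_lt w (by simpa using w.V_int_le 4)
          (h2.trans_le (by simpa using w.V_int_le 4))), v9, one_mul,
      div_self (by rw [v4]; norm_num)]

end Pool.Agent.DH
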