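import Pool.Agent.Lib.MP_60ff09_nt.Dih.D0

/-! Descent along the prime above two of a cyclotomic ring. -/

set_option autoImplicit false

open scoped Classical
open Finset

namespace Pool.Agent.DH

variable {R : Type} [Ring R] {T : R} {j : ℕ}

theorem geo_add (T : R) (a b : ℕ) : ∑ i ∈ range (a + b), T ^ i =
    ∑ i ∈ range a, T ^ i + T ^ a * ∑ i ∈ range b, T ^ i := by
  rw [sum_range_add, mul_sum]
  simp only [pow_add]

theorem geo_mod {m : ℕ} (h : T ^ m = -1) (a : ℕ) :
    ∑ i ∈ range (a % (m + m)), T ^ i = ∑ i ∈ range a, T ^ i := by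
  have h1 : ∀ q r : ℕ, ∑ i ∈ range ((m + m) * q + r), T ^ i = ∑ i ∈ range r, T ^ i := fun q r => by
    induction q with
    | zero => simp
    | succ q ih =>
      rw [mul_add, mul_one, add_comm _ (m + m), add_assoc, geo_add, ih, geo_add, pow_add, h]
      simp
  conv_rhs => rw [← Nat.div_add_mod a (m + m), h1]

theorem pow_two_pow (T : R) (j : ℕ) : ∃ U : R, Commute T U ∧
    (1 - T) ^ 2 ^ j = 1 + T ^ 2 ^ j + 2 • U := by
  induction j with
  | zero => exact ⟨-T, (Commute.refl T).neg_right, by rw [pow_zero, pow_one, pow_one, two_nsmul]; abel⟩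
  | succ j ih =>
    obtain ⟨U, h1, h2⟩ := ih
    have h3 : U * T ^ 2 ^ j = T ^ 2 ^ j * U := (h1.pow_left _).eq.symm
    refine ⟨T ^ 2 ^ j + 2 • (U + T ^ 2 ^ j * U + U * U), ((Commute.refl T).pow_right _).add_right
      (((h1.add_right (((Commute.refl T).pow_right _).mul_right h1)).add_right
        (h1.mul_right h1)).smul_right _), ?_⟩
    rw [pow_succ, pow_mul, pow_mul, h2]
    simp only [pow_two, two_nsmul, add_mul, mul_add, h3, one_mul, mul_one]
    abel

theorem pi_abs {A : Type} [AddCommGroup A] (T : Module.End ℤ A) (hj : 1 ≤ j)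
    (hT : T ^ 2 ^ j = -1) (h2 : ∀ t, 2 • t = 0 → T t = t) (E : Finset A)
    (hE : ∀ t, t ∈ E ↔ 2 • t = 0) (c4 : E.card = 4) {ι : Type} [Fintype ι]
    (hι : Fintype.card ι < 12) (f : A → ι) (hf : ∀ x y, f x = f y → ∃ z, x - y = z - T z)
    {h : A → ℝ} (h0 : ∀ x, 0 ≤ h x) (par : ∀ x y, h (x + y) + h (x - y) = 2 * (h x + h y))
    (nc : ∀ B, {x | h x ≤ B}.Finite) (v : Fin (2 * 2 ^ j) → A) : ¬ LinearIndependent ℤ v := by
  have e0 : ∀ t z, 2 • t = 0 → t = z - T z → t = 0 := fun t z ht e => by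
    have h3 : ∀ i : ℕ, (T ^ i) t = t := fun i => by
      induction i with
      | zero => rfl
      | succ i ih => rw [pow_succ', Module.End.mul_apply, ih, h2 t ht]
    have h4 := congrArg (· z) (geom_sum_mul_neg T (2 ^ j))
    simp only [Module.End.mul_apply, hT, LinearMap.sub_apply, Module.End.one_apply, ← e,
      LinearMap.sum_apply, h3, sum_const, card_range, sub_neg_eq_add] at h4
    obtain ⟨i, rfl⟩ : ∃ i, j = i + 1 := ⟨j - 1, by omega⟩
    rw [pow_succ, mul_smul, ht, smul_zero, ← two_nsmul] at h4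
    rw [e, h2 z h4.symm, sub_self]
  let B : A → Prop := fun x => ∃ z t, 2 • t = 0 ∧ x = z - T z + t
  have Bn : ∀ x, B (-x) → B x := by
    rintro x ⟨z, t, ht, e⟩
    exact ⟨-z, -t, by rw [smul_neg, ht, neg_zero], by rw [map_neg, ← neg_neg x, e]; abel⟩
  have h5 : ∀ x y, B x ∨ B y ∨ B (x - y) := fun x y => by
    obtain ⟨⟨a, s⟩, ⟨b, t⟩, hne, e⟩ := Fintype.exists_ne_map_eq_of_card_lt
      (fun u : Fin 3 × E => f (![0, x, y] u.1 + u.2)) (by simpa [c4] using hι)
    obtain ⟨z, hz⟩ := hf _ _ e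
    have ht : 2 • ((t : A) - s) = 0 := by rw [smul_sub, (hE _).1 s.2, (hE _).1 t.2, sub_self]
    have k : B (![0, x, y] a - ![0, x, y] b) := ⟨z, _, ht, by rw [← hz]; abel⟩
    have k0 : a ≠ b := by
      rintro rfl
      refine hne (Prod.ext rfl (Subtype.ext (sub_eq_zero.1 (e0 _ z ?_ ?_))))
      · rw [← neg_sub, smul_neg, ht, neg_zero]
      · rw [← hz, add_sub_add_left_eq_sub]
    fin_cases a <;> fin_cases b <;> simp at k k0
    exacts [.inl (Bn _ k), .inr (.inl (Bn _ k)), .inl k, .inr (.inr k), .inr (.inl k),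
      .inr (.inr (Bn _ (by rwa [neg_sub])))]
  obtain ⟨P, hP⟩ : ∃ P, ∀ x, B x ∨ B (x - P) := by
    by_cases k : ∃ P, ¬ B P
    · obtain ⟨P, k⟩ := k
      exact ⟨P, fun x => (h5 x P).imp_right fun k1 => k1.resolve_left k⟩
    · exact ⟨0, fun x => .inl (by_contra fun k1 => k ⟨x, k1⟩)⟩
  let u : Fin (2 ^ j) → A := fun i => ((1 - T) ^ (i : ℕ)) P
  let L := Submodule.span ℤ (Set.range u)
  have h6 : ∀ k ≤ 2 ^ j, ∀ x, ∃ y ∈ L, ∃ z t, 2 • t = 0 ∧ x = y + ((1 - T) ^ k) z + t := by
    intro k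
    induction k with
    | zero => exact fun _ x => ⟨0, L.zero_mem, x, 0, by simp, by simp⟩
    | succ k ih =>
      intro hk x
      obtain ⟨y, hy, z, t, ht, rfl⟩ := ih (by omega) x
      have k2 : ∀ s, 2 • s = 0 → 2 • (((1 - T) ^ k) s + t) = 0 := fun s hs => by
        rw [smul_add, ← map_nsmul, hs, map_zero, ht, add_zero]
      rcases hP z with ⟨z', s, hs, e⟩ | ⟨z', s, hs, e⟩
      · refine ⟨y, hy, z', _, k2 s hs, ?_⟩
        rw [e, pow_succ, Module.End.mul_apply, map_add]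
        exact (add_assoc _ _ _).trans ((congrArg _ (add_assoc _ _ _)).trans (add_assoc _ _ _).symm)
      · refine ⟨y + u ⟨k, hk⟩, L.add_mem hy (Submodule.subset_span ⟨_, rfl⟩), z', _, k2 s hs, ?_⟩
        rw [sub_eq_iff_eq_add.1 e, pow_succ, Module.End.mul_apply, map_add, map_add]
        change _ = y + ((1 - T) ^ k) P + ((1 - T) ^ k) (z' - T z') + _
        abel
  let N := L ⊔ Submodule.span ℤ (E : Set A)
  have h7 : ∀ x, ∃ y ∈ N, ∃ z, x = y + 2 • z := fun x => by
    obtain ⟨U, -, hU⟩ := pow_two_pow T j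
    obtain ⟨y, hy, z, t, ht, rfl⟩ := h6 _ le_rfl x
    refine ⟨y + t, N.add_mem (Submodule.mem_sup_left hy)
      (Submodule.mem_sup_right (Submodule.subset_span ((hE t).2 ht))), U z, ?_⟩
    rw [hU, hT, add_neg_cancel, zero_add, LinearMap.smul_apply]
    abel
  have fN : N.FG := (Submodule.fg_span (Set.finite_range u)).sup (Submodule.fg_span E.finite_toSet)
  have : Northcott h := ⟨nc⟩
  have fg : AddGroup.FG A := by
    refine AddCommGroup.fg_of_descent' (h := h) (C := 0) ?_ h0 fun x y => by simp [par]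
    let D := (nsmulAddMonoidHom (α := A) 2).range
    have : Module.Finite ℤ N := Module.Finite.iff_fg.2 fN
    have : Module.Finite ℤ (A ⧸ D) := Module.Finite.of_surjective
      ((QuotientAddGroup.mk' D).toIntLinearMap ∘ₗ N.subtype) fun x => by
        obtain ⟨x, rfl⟩ := QuotientAddGroup.mk_surjective x
        obtain ⟨y, hy, z, rfl⟩ := h7 x
        exact ⟨⟨y, hy⟩, QuotientAddGroup.eq.2 ⟨z, by simp⟩⟩
    have : Finite (A ⧸ D) := Module.finite_of_fg_torsion _ fun x => ⟨⟨2, by simp⟩, by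
      obtain ⟨x, rfl⟩ := QuotientAddGroup.mk_surjective x
      exact (QuotientAddGroup.eq_zero_iff ((2 : ℤ) • x)).2 ⟨x, by simp [two_nsmul, two_zsmul]⟩⟩
    exact AddSubgroup.finiteIndex_of_finite_quotient
  have : Module.Finite ℤ A := Module.Finite.iff_addGroup_fg.2 fg
  obtain ⟨r, hr, h8⟩ := Submodule.exists_sub_one_mem_and_smul_le_of_fg_of_le_sup
    (I := Ideal.span {(2 : ℤ)}) (N := N) (N' := ⊤) (P := ⊤) Module.Finite.fg_top le_top
    fun x _ => by
      obtain ⟨y, hy, z, rfl⟩ := h7 x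
      refine Submodule.add_mem_sup hy ?_
      rw [← natCast_zsmul]
      exact Submodule.smul_mem_smul (Ideal.mem_span_singleton_self _) trivial
  have r0 : 2 * r ≠ 0 := by
    have := Ideal.mem_span_singleton.1 hr
    omega
  intro li
  have h9 : ∀ x, (2 * r) • x ∈ L := fun x => by
    obtain ⟨y, hy, t, ht, e⟩ := Submodule.mem_sup.1
      (h8 (Submodule.smul_mem_pointwise_smul x r ⊤ trivial))
    have k : (2 : ℤ) • t = 0 := (Submodule.span_le (p := Submodule.torsionBy ℤ A 2)).2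
      (fun t k => (Submodule.mem_torsionBy_iff _ _).2
        (by simpa [two_zsmul, two_nsmul] using (hE t).1 k)) ht
    rw [mul_smul, ← e, smul_add, k, add_zero]
    exact L.smul_mem _ hy
  have k1 := linearIndependent_le_span_aux' (R := ℤ) (fun i => (2 * r) • v i) (by
    rw [Fintype.linearIndependent_iff] at li ⊢
    intro c hc i
    exact (mul_eq_zero.1 (li (fun i => c i * (2 * r)) (by simpa only [mul_smul] using hc) i)
      ).resolve_right r0) (Set.range u) (by rintro _ ⟨i, rfl⟩; exact h9 _)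
  have k2 := k1.trans (Fintype.card_range_le u)
  simp only [Fintype.card_fin] at k2
  have : 0 < 2 ^ j := by positivity
  omega

end Pool.Agent.DH
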