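import Pool.Agent.Lib.MP_60ff09_nt.Dih.Rb
import Pool.Agent.Lib.MP_60ff09_nt.Dih.Rh

/-! The coefficients of theta series of characters. -/

set_option autoImplicit false

open scoped Classical NumberTheorySymbols
open Pool.Agent.Lib.MP_696deb_nt Pool.Agent.Lib.MP_696deb_nt.B2 Pool.Agent.Lib.MP_696deb_nt.B2.CM
open Pool.Agent.Dih (rep rW lam1 e15 Par GZan)

namespace Pool.Agent.DH

variable {p q n l : ℕ} {b b' t : ℕ → ℂ}

theorem HeckeC.ext (h : HeckeC b t) (h' : HeckeC b' t) (e : ∀ l : ℕ, l.Prime → b l = b' l)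
    {N : ℕ} (hN : 0 < N) : b N = b' N := by
  induction N using Nat.strong_induction_on with
  | _ N ih =>
  by_cases h1 : N = 1
  · rw [h1, h.one, h'.one]
  obtain ⟨l, hl, M, rfl⟩ := Nat.exists_prime_and_dvd h1
  have hM : 0 < M := Nat.pos_of_mul_pos_left hN
  have hlt : M < l * M := (Nat.lt_mul_iff_one_lt_left hM).2 hl.one_lt
  have h2 := h.rel l hl M hM
  have h3 := h'.rel l hl M hM
  rw [e l hl, ih M hlt hM, ← h3] at h2
  by_cases hd : l ∣ M
  · rw [if_pos hd, if_pos hd, ih (M / l) ((Nat.div_le_self _ _).trans_lt hlt)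
      (Nat.div_pos (Nat.le_of_dvd hM hd) hl.pos)] at h2
    exact add_right_cancel h2
  · rw [if_neg hd, if_neg hd] at h2
    exact add_right_cancel h2

theorem rc_conv_dvd {u v : ℕ → ℂ} (hu : ∀ a b, u (a * b) = u a * u b) (hl : 0 < l) {M : ℕ}
    (hM : 0 < M) : ∑ c ∈ (l * M).divisors with l ∣ c, u c * v (l * M / c) =
      u l * ∑ c ∈ M.divisors, u c * v (M / c) := by
  rw [Finset.mul_sum]
  symm
  refine Finset.sum_bij (fun c _ => l * c) (fun c hc => ?_) (fun c _ c' _ e => ?_) (fun c hc => ?_)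
    fun c _ => ?_
  · exact Finset.mem_filter.2 ⟨Nat.mem_divisors.2 ⟨Nat.mul_dvd_mul_left l
      (Nat.dvd_of_mem_divisors hc), (Nat.mul_pos hl hM).ne'⟩, dvd_mul_right _ _⟩
  · exact Nat.eq_of_mul_eq_mul_left hl e
  · obtain ⟨h1, k, rfl⟩ := Finset.mem_filter.1 hc
    exact ⟨k, Nat.mem_divisors.2 ⟨Nat.dvd_of_mul_dvd_mul_left hl (Nat.dvd_of_mem_divisors h1),
      hM.ne'⟩, rfl⟩
  · rw [hu, Nat.mul_div_mul_left _ _ hl, mul_assoc]

theorem rc_conv_ndvd {u v : ℕ → ℂ} (hv : ∀ a b, v (a * b) = v a * v b) (hl : l.Prime) {M : ℕ}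
    (hM : 0 < M) : ∑ c ∈ (l * M).divisors with ¬ l ∣ c, u c * v (l * M / c) =
      v l * ∑ c ∈ M.divisors with ¬ l ∣ c, u c * v (M / c) := by
  rw [Finset.mul_sum]
  refine Finset.sum_congr ?_ fun c hc => ?_
  · ext c
    simp only [Finset.mem_filter, Nat.mem_divisors]
    refine and_congr_left fun h => ⟨fun k => ⟨?_, hM.ne'⟩,
      fun k => ⟨k.1.mul_left l, (Nat.mul_pos hl.pos hM).ne'⟩⟩
    exact ((Nat.Prime.coprime_iff_not_dvd hl).2 h).symm.dvd_of_dvd_mul_left k.1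
  · rw [Nat.mul_div_assoc _ (Nat.dvd_of_mem_divisors (Finset.mem_filter.1 hc).1), hv, mul_left_comm]

theorem rc_conv_prime {u v : ℕ → ℂ} (u1 : u 1 = 1) (v1 : v 1 = 1) (hl : l.Prime) :
    ∑ c ∈ l.divisors, u c * v (l / c) = u l + v l := by
  rw [hl.sum_divisors, Nat.div_self hl.pos, Nat.div_one, u1, v1, mul_one, one_mul]

theorem heckeC_conv {u v : ℕ → ℂ} (u1 : u 1 = 1) (v1 : v 1 = 1)
    (hu : ∀ a b, u (a * b) = u a * u b) (hv : ∀ a b, v (a * b) = v a * v b) :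
    HeckeC (fun N => ∑ c ∈ N.divisors, u c * v (N / c)) fun l => u l * v l := by
  refine ⟨by simp [u1, v1], fun l hl N hN => ?_⟩
  rw [rc_conv_prime u1 v1 hl, ← Finset.sum_filter_add_sum_filter_not (l * N).divisors (l ∣ ·),
    rc_conv_dvd hu hl.pos hN, rc_conv_ndvd hv hl hN, add_mul, add_assoc,
    ← Finset.sum_filter_add_sum_filter_not N.divisors (l ∣ ·), mul_add (v l), add_comm (v l * _)]
  congr 2
  split_ifs with hd
  · obtain ⟨M, rfl⟩ := hd
    rw [rc_conv_dvd hu hl.pos (Nat.pos_of_mul_pos_left hN), Nat.mul_div_cancel_left _ hl.pos]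
    ring
  · rw [Finset.sum_eq_zero, mul_zero]
    intro c hc
    exact absurd ((Finset.mem_filter.1 hc).2.trans
      (Nat.dvd_of_mem_divisors (Finset.mem_filter.1 hc).1)) hd

theorem rc_kr_one (n : ℕ) : kr n 1 = 1 := by simp [kr]

theorem rc_kr_mul (n a b : ℕ) : kr n (a * b) = kr n a * kr n b := by
  simp only [kr, Nat.cast_mul, jacobiSym.mul_left, Int.cast_mul]

theorem rc_jac_zero (hl : l.Prime) (hn : n ≠ 0) (h : l ∣ n) : J((l : ℤ) | n) = 0 := by
  rw [jacobiSym.eq_zero_iff, Int.gcd_natCast_natCast, Nat.gcd_eq_left h]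
  exact ⟨hn, hl.ne_one⟩

variable [Fintype (Cl n)] (θ : Cl n →* ℂ) {a : Cl n}

theorem rc_shift (a : Cl n) (N : ℤ) :
    ∑ x, θ x * rc n (x * a) N = θ a⁻¹ * ∑ x, θ x * rc n x N := by
  rw [Finset.mul_sum]
  refine Fintype.sum_equiv (Equiv.mulRight a) _ _ fun x => ?_
  rw [← mul_assoc, ← map_mul]
  change _ = θ (a⁻¹ * (x * a)) * rc n (x * a) N
  rw [mul_comm x a, inv_mul_cancel_left]

theorem rc_rth_one (ok : Ok n 1) : rth n θ 1 = 1 := by
  simp [rth, rc_one ok]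

theorem rc_ite (l N : ℕ) : ∑ x, θ x * ((if (l : ℤ) ∣ N then rc n x (N / l) else 0 : ℕ) : ℂ) =
    2 * if l ∣ N then rth n θ (N / l) else 0 := by
  by_cases h : l ∣ N
  · simp only [Int.natCast_dvd_natCast, h, if_true, rth, Int.natCast_div]
    ring
  · simp [Int.natCast_dvd_natCast, h]

theorem rc_rel_split (ok : Ok n 1) (hl : l.Prime) (ha : Prm n l a) (h : ¬ l ∣ n) (N : ℕ) :
    rth n θ (l * N) + (if l ∣ N then rth n θ (N / l) else 0) = (θ a + θ a⁻¹) * rth n θ N := by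
  have h1 : ∑ x, θ x * ((rc n x (l * N) + (if (l : ℤ) ∣ N then rc n x (N / l) else 0) : ℕ) : ℂ) =
      ∑ x, θ x * ((rc n (x * a) N + rc n (x * a⁻¹) N : ℕ) : ℂ) :=
    Finset.sum_congr rfl fun x _ => by rw [rc_split ok hl ha h]
  simp only [Nat.cast_add, mul_add, Finset.sum_add_distrib] at h1
  rw [rc_ite, rc_shift, rc_shift, inv_inv] at h1
  generalize (if l ∣ N then rth n θ (N / l) else 0) = B at h1 ⊢
  rw [rth, rth, Nat.cast_mul]
  linear_combination h1 / 2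

theorem rc_rel_ram (ok : Ok n 1) (hs : Squarefree n) (hl : l.Prime) (ha : Prm n l a) (h : l ∣ n)
    (N : ℕ) : rth n θ (l * N) = θ a * rth n θ N := by
  rw [rth, rth, Nat.cast_mul]
  simp only [rc_ram ok hs hl ha h]
  rw [rc_shift, ha.sq ok hl h, mul_div_assoc]

theorem rc_rel_inert (ok : Ok n 1) (hl : l.Prime) (h : J((l : ℤ) | n) = -1) (N : ℕ) :
    rth n θ (l * N) = if l ∣ N then rth n θ (N / l) else 0 := by
  rw [rth, Nat.cast_mul]
  simp only [rc_inert ok hl h]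
  rw [rc_ite, mul_div_cancel_left₀ _ two_ne_zero]

theorem rth_split (ok : Ok n 1) (hl : l.Prime) (ha : Prm n l a) (h : ¬ l ∣ n) :
    rth n θ l = θ a + θ a⁻¹ := by
  have h1 := rc_rel_split θ ok hl ha h 1
  rwa [mul_one, if_neg hl.not_dvd_one, add_zero, rc_rth_one θ ok, mul_one] at h1

theorem rth_ram (ok : Ok n 1) (hs : Squarefree n) (hl : l.Prime) (ha : Prm n l a) (h : l ∣ n) :
    rth n θ l = θ a := by
  have h1 := rc_rel_ram θ ok hs hl ha h 1
  rwa [mul_one, rc_rth_one θ ok, mul_one] at h1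

theorem rth_inert (ok : Ok n 1) (hl : l.Prime) (h : J((l : ℤ) | n) = -1) : rth n θ l = 0 := by
  have h1 := rc_rel_inert θ ok hl h 1
  rwa [mul_one, if_neg hl.not_dvd_one] at h1

theorem rth_hecke (ok : Ok n 1) (hs : Squarefree n) : HeckeC (rth n θ) (kr n) := by
  refine ⟨rc_rth_one θ ok, fun l hl N _ => ?_⟩
  by_cases h : J((l : ℤ) | n) = -1
  · rw [rc_rel_inert θ ok hl h, rth_inert θ ok hl h, kr, h]
    split_ifs <;> simp
  obtain ⟨a, ha⟩ := exists_prm ok hs hl h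
  by_cases hd : l ∣ n
  · rw [rc_rel_ram θ ok hs hl ha hd, rth_ram θ ok hs hl ha hd, kr, rc_jac_zero hl hs.ne_zero hd]
    simp
  · rw [rth_split θ ok hl ha hd, ← rc_rel_split θ ok hl ha hd, kr, ha.jac ok hl hd]
    simp

/-- The values at primes for characters of order at most two are in `rth_sq`. -/
theorem rth_one_prime (ok : Ok n 1) (hs : Squarefree n) (hl : l.Prime) :
    rth n 1 l = 1 + kr n l := by
  by_cases h : J((l : ℤ) | n) = -1
  · rw [rth_inert 1 ok hl h, kr, h]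
    simp
  obtain ⟨a, ha⟩ := exists_prm ok hs hl h
  by_cases hd : l ∣ n
  · rw [rth_ram 1 ok hs hl ha hd, kr, rc_jac_zero hl hs.ne_zero hd]
    simp
  · rw [rth_split 1 ok hl ha hd, kr, ha.jac ok hl hd]
    simp

theorem rth_gen_prime [Fintype (Cl (p * q))] (h : PQ p q) {g : Cl (p * q) →* ℤˣ}
    (hg : IsGen p q g) {θ : Cl (p * q) →* ℂ} (e : ∀ x, θ x = (g x : ℤ)) (hl : l.Prime) :
    rth (p * q) θ l = kr p l + kr q l := by
  rw [kr, kr]
  by_cases k : J((l : ℤ) | p * q) = -1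
  · rw [rth_inert θ h.ok hl k]
    rw [jacobiSym.mul_right' _ h.pp.ne_zero h.qp.ne_zero] at k
    rcases Int.eq_one_or_neg_one_of_mul_eq_neg_one' k with ⟨k1, k2⟩ | ⟨k1, k2⟩ <;> simp [k1, k2]
  obtain ⟨a, ha⟩ := exists_prm h.ok h.sqf hl k
  have k1 := hg.prm h hl ha
  by_cases hd : l ∣ p * q
  · rw [rth_ram θ h.ok h.sqf hl ha hd, e]
    rcases (Nat.Prime.dvd_mul hl).1 hd with k2 | k2
    · rw [rc_jac_zero hl h.pp.ne_zero k2,
        k1.2 fun k3 => h.ne (((Nat.prime_dvd_prime_iff_eq hl h.pp).1 k2).symm.trans k3)]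
      simp
    · rw [rc_jac_zero hl h.qp.ne_zero k2,
        k1.1 fun k3 => h.ne (k3.symm.trans ((Nat.prime_dvd_prime_iff_eq hl h.qp).1 k2))]
      simp
  · rw [rth_split θ h.ok hl ha hd, e, e, k1.1 fun k3 => hd (k3 ▸ dvd_mul_right _ _),
      (hg.prm h hl (ha.inv h.ok)).2 fun k3 => hd (k3 ▸ dvd_mul_left _ _)]

theorem sum_rc (ok : Ok n 1) (hs : Squarefree n) {N : ℕ} (hN : 0 < N) :
    ∑ x : Cl n, (rc n x N : ℤ) = 2 * ∑ c ∈ N.divisors, J((c : ℤ) | n) := by
  have h1 := heckeC_conv (u := kr n) (v := fun _ => 1) (rc_kr_one n) rfl (rc_kr_mul n)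
    fun _ _ => (mul_one 1).symm
  simp only [mul_one] at h1
  have h2 := (rth_hecke 1 ok hs).ext h1 (fun l hl => by
    rw [rth_one_prime ok hs hl, hl.sum_divisors, rc_kr_one, add_comm]) hN
  simp only [rth, kr, MonoidHom.one_apply, one_mul] at h2
  refine Int.cast_injective (α := ℂ) ?_
  push_cast
  linear_combination 2 * h2

theorem norm_rth_le (ok : Ok n 1) (hs : Squarefree n) {N : ℕ} (hN : 0 < N) :
    ‖rth n θ N‖ ≤ N.divisors.card := by
  have h1 : ∀ x, ‖θ x‖ = 1 := fun x => Complex.norm_eq_one_of_pow_eq_one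
    (by rw [← map_pow, pow_card_eq_one, map_one]) (Fintype.card_ne_zero (α := Cl n))
  have h2 : ∑ x : Cl n, (rc n x N : ℤ) ≤ 2 * N.divisors.card := by
    rw [sum_rc ok hs hN]
    refine mul_le_mul_of_nonneg_left ?_ zero_le_two
    simpa using Finset.sum_le_card_nsmul N.divisors (fun c => J((c : ℤ) | n)) 1 fun c _ => by
      rcases jacobiSym.trichotomy (c : ℤ) n with k | k | k <;> simp [k]
  have h3 : ∑ x : Cl n, (rc n x N : ℝ) ≤ 2 * N.divisors.card := by exact_mod_cast h2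
  have h4 := norm_sum_le Finset.univ fun x => θ x * rc n x N
  simp only [norm_mul, h1, one_mul, Complex.norm_natCast] at h4
  rw [rth, norm_div, Complex.norm_two]
  linarith

theorem sum_gen_rc [Fintype (Cl (p * q))] (h : PQ p q) {g : Cl (p * q) →* ℤˣ} (hg : IsGen p q g)
    {N : ℕ} (hN : 0 < N) : ∑ x, (g x : ℤ) * rc (p * q) x N =
      2 * ∑ c ∈ N.divisors, J((c : ℤ) | p) * J(((N / c : ℕ) : ℤ) | q) := by
  let θ : Cl (p * q) →* ℂ := (Int.castRingHom ℂ).toMonoidHom.comp ((Units.coeHom ℤ).comp g)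
  have e : ∀ x, θ x = (g x : ℤ) := fun _ => rfl
  have h1 := heckeC_conv (rc_kr_one p) (rc_kr_one q) (rc_kr_mul p) (rc_kr_mul q)
  have h0 : (fun l => kr p l * kr q l) = kr (p * q) := funext fun l => by
    rw [kr, kr, kr, jacobiSym.mul_right' _ h.pp.ne_zero h.qp.ne_zero, Int.cast_mul]
  rw [h0] at h1
  have h2 := (rth_hecke θ h.ok h.sqf).ext h1 (fun l hl => by
    rw [rth_gen_prime h hg e hl, rc_conv_prime (rc_kr_one p) (rc_kr_one q) hl]) hN
  simp only [rth, kr, e] at h2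
  refine Int.cast_injective (α := ℂ) ?_
  rw [Int.cast_mul, Int.cast_sum, Int.cast_sum]
  simp only [Int.cast_mul, Int.cast_natCast, Int.cast_ofNat]
  linear_combination 2 * h2

end Pool.Agent.DH
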