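import Pool.Agent.Lib.MP_60ff09_nt.V4Defs

/-! Sums of two representations induced from unramified characters of a quadratic field. -/

set_option autoImplicit false

open NumberField

namespace Pool.Agent.Lib.MP_60ff09_nt.V4

variable {M L : Type} [Field M] [NumberField M] [Field L]

/-- The representation `V` is the direct sum of two representations, each induced from a character
of the subgroup fixing `δ` whose values are roots of unity of order a power of two and which is
trivial on all inertia groups. -/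
def IndSum (V : Rep L (M ≃ₐ[ℚ] M)) (δ : M) : Prop :=
  ∃ v : Module.Basis (Fin 2 × Fin 2) L V, ∀ i,
    (∀ σ : M ≃ₐ[ℚ] M, σ δ = δ →
      ∃ (c : L) (k : ℕ), c ^ 2 ^ k = 1 ∧ V.ρ σ (v (i, 0)) = c • v (i, 0)) ∧
    (∀ Q : Ideal (𝓞 M), Q.IsMaximal → ∀ σ ∈ Q.inertia (M ≃ₐ[ℚ] M), σ δ = δ →
      V.ρ σ (v (i, 0)) = v (i, 0)) ∧
    ∃ τ : M ≃ₐ[ℚ] M, τ δ = -δ ∧ V.ρ τ (v (i, 0)) = v (i, 1)

end Pool.Agent.Lib.MP_60ff09_nt.V4
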