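import Pool.Agent.Lib.MP_60ff09_nt.Dih.Re
import Pool.Agent.Lib.MP_60ff09_nt.Dih.Rc
import Pool.Agent.Lib.MP_60ff09_nt.Dih.St
import Pool.Agent.Lib.MP_60ff09_nt.V4Main

/-! Representations of finite Galois groups seen from the absolute Galois group: definitions. -/

set_option autoImplicit false

open scoped Classical NumberTheorySymbols TensorProduct
open NumberField CategoryTheory
open Pool.Agent.Lib.MP_696deb_nt Pool.Agent.Lib.MP_696deb_nt.B2 Pool.Agent.Lib.MP_696deb_nt.B2.CM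
open Pool.Agent.Lib.MP_60ff09_nt Pool.Agent.Lib.MP_60ff09_nt.V4

namespace Pool.Agent.DH

/-- An embedding of a normal extension into the algebraic numbers, with the restriction map. -/
structure Lf (M : Type) [Field M] [Algebra ℚ M] where
  e : M →+* Qbar
  π : Gam →* (M ≃ₐ[ℚ] M)
  comm : ∀ g x, e (π g x) = g (e x)
  surj : Function.Surjective π

/-- The place `w` lies over the ideal `Q`. -/
def Lf.Ov {M : Type} [Field M] [Algebra ℚ M] (F : Lf M) (w : Plc) (Q : Ideal (𝓞 M)) : Prop :=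
  ∀ x : 𝓞 M, x ∈ Q ↔ w.V (F.e x) < 1

/-- The same data for a normal subfield. -/
noncomputable def Lf.sub {M : Type} [Field M] [NumberField M] [Normal ℚ M] (F : Lf M)
    (H : IntermediateField ℚ M) [Normal ℚ H] : Lf H where
  e := F.e.comp (algebraMap H M)
  π := (AlgEquiv.restrictNormalHom H).comp F.π
  comm := fun g x => (congrArg F.e ((F.π g).restrictNormal_commutes H x)).trans (F.comm g x)
  surj := (AlgEquiv.restrictNormalHom_surjective M).comp F.surj

/-- The eigenspace of a subgroup. -/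
def eigL {R G : Type} [CommRing R] [Group G] (A : Rep R G) (N : Subgroup G) (c : G → R) :
    Submodule R A where
  carrier := {x | ∀ σ ∈ N, A.ρ σ x = c σ • x}
  add_mem' := fun h h' σ k => by rw [map_add, h σ k, h' σ k, smul_add]
  zero_mem' := fun σ _ => by simp
  smul_mem' := fun a x h σ k => by rw [map_smul, h σ k, smul_comm]

/-- The eigenspace of a class group character. -/
def eigT {M L : Type} [Field M] [Algebra ℚ M] [Field L] (F : Lf M) (n : ℕ)
    (V : Rep L (M ≃ₐ[ℚ] M)) (θ : Cl n →* L) : Submodule L V where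
  carrier := {x | ∀ g ∈ GK n, V.ρ (F.π g) x = θ (rho n 1 g) • x}
  add_mem' := fun h h' σ k => by rw [map_add, h σ k, h' σ k, smul_add]
  zero_mem' := fun σ _ => by simp
  smul_mem' := fun a x h σ k => by rw [map_smul, h σ k, smul_comm]

/-- The vectors `x`, `y` span the representation induced from `θ`. -/
structure IndB {M L : Type} [Field M] [NumberField M] [Field L] (F : Lf M) (n : ℕ) (δ : M)
    (V : Rep L (M ≃ₐ[ℚ] M)) (θ : Cl n →* L) (x y : V) : Prop where
  sq : δ ^ 2 = -n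
  fst : x ∈ eigT F n V θ
  swap : ∃ t, t ∉ GK n ∧ V.ρ (F.π t) x = y
  unr : ∀ Q : Ideal (𝓞 M), Q.IsMaximal → ∀ σ ∈ Q.inertia (M ≃ₐ[ℚ] M), σ δ = δ → V.ρ σ x = x

/-- The character `θ` has order `2 ^ m`, and `l` is its logarithm to the base `ζ`. -/
structure Cyc {L : Type} [Field L] {n : ℕ} (θ : Cl n →* L) (m : ℕ) (ζ : L)
    (l : Cl n →* Multiplicative (ZMod (2 ^ m))) : Prop where
  prim : IsPrimitiveRoot ζ (2 ^ m)
  surj : Function.Surjective l
  eq : ∀ x, θ x = ζ ^ (l x).toAdd.val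

/-- The arithmetic inputs. -/
structure Inp (p q : ℕ) [Fintype (Cl (p * q))] : Prop where
  link : ∀ (m : ℕ) (χ : Gam → ZMod (2 ^ m)), Ch (GK (p * q)) χ → Unr (GK (p * q)) χ →
    ∃ l : Cl (p * q) →* Multiplicative (ZMod (2 ^ m)), ∀ g ∈ GK (p * q), χ g = ch l g
  ram : ∀ (m : ℕ) (l : Cl (p * q) →* Multiplicative (ZMod (2 ^ m))) (w : Plc) (φ : Gam)
    (a : Cl (p * q)), w.p ∣ p * q → φ ∈ GK (p * q) → IsFrob w w.p φ → Prm (p * q) w.p a →
    l (rho (p * q) 1 φ) = l a
  dep : ∀ (j : ℕ) (l : Cl (p * q) →* Multiplicative (ZMod (2 ^ (j + 1)))), 1 ≤ j →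
    Function.Surjective l → (∃ w ∈ AA (p * q) (ch l), ¬ IsOfFinAddOrder w) ∧
      Dep (AA (p * q) (ch l)) (2 * 2 ^ j)
  simple : ∀ θ : Cl (p * q) →* ℂ, (∃ k : ℕ, ∀ x, θ x ^ 2 ^ k = 1) →
    Simple (rth (p * q) θ) (kr (p * q))
  rk1 : Module.rank ℤ (twist15 1).toAffine.Point = 0
  rkn : Module.rank ℤ (twist15 (-(p * q : ℕ))).toAffine.Point = 1
  rkp : Module.rank ℤ (twist15 p).toAffine.Point = 0
  rkq : Module.rank ℤ (twist15 (-q)).toAffine.Point = 1

end Pool.Agent.DH
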