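import Pool.Agent.Lib.MP_60ff09_nt.Dih.RK0

/-! Places, inertia and Frobenius elements of a finite Galois extension. -/

set_option autoImplicit false

open scoped Classical NumberTheorySymbols TensorProduct
open NumberField CategoryTheory
open Pool.Agent.Lib.MP_696deb_nt Pool.Agent.Lib.MP_696deb_nt.B2 Pool.Agent.Lib.MP_696deb_nt.B2.CM
open Pool.Agent.Lib.MP_60ff09_nt Pool.Agent.Lib.MP_60ff09_nt.V4

namespace Pool.Agent.DH

variable {M : Type} [Field M] [NumberField M] {F : Lf M} {n p : ℕ} {δ : M} {w : Plc} {g : Gam}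
  {Q : Ideal (𝓞 M)}

theorem exists_lf [Normal ℚ M] : Nonempty (Lf M) := by
  let j : M →ₐ[ℚ] Qbar := IsAlgClosed.lift
  let _ : Algebra M Qbar := j.toRingHom.toAlgebra
  have : IsScalarTower ℚ M Qbar := IsScalarTower.of_algebraMap_eq fun q => (j.commutes q).symm
  exact ⟨⟨algebraMap M Qbar, AlgEquiv.restrictNormalHom M,
    fun g x => g.restrictNormal_commutes M x, AlgEquiv.restrictNormalHom_surjective Qbar⟩⟩

theorem Lf.sm (F : Lf M) (H : Subgroup Gam) : Sm H F.π := by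
  obtain ⟨U, h1, h2, h3⟩ := Sm.pi (H := H) fun i => sm_apply (F.e (Module.finBasis ℚ M i))
  refine ⟨U, h1, h2, fun g hg k hk e => AlgEquiv.toLinearMap_injective
    ((Module.finBasis ℚ M).ext fun i => F.e.injective ?_)⟩
  exact ((F.comm g _).trans (congrFun (h3 g hg k hk e) i)).trans (F.comm k _).symm

theorem Lf.mem_GK (F : Lf M) (hn : 0 < n) (hδ : δ ^ 2 = -n) : g ∈ GK n ↔ F.π g δ = δ := by
  have h1 : F.e δ ^ 2 = ((-n : ℤ) : Qbar) := by
    rw [← map_pow, hδ]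
    simp
  have h0 : F.e δ ≠ 0 := fun e => by
    rw [e, zero_pow two_ne_zero, eq_comm, Int.cast_eq_zero] at h1
    omega
  rw [B4c_mem, ← F.e.injective.eq_iff, F.comm]
  exact ⟨fun e => by simpa [e] using chi_spec h1 g,
    fun e => b1b_chi_of h1 h0 (by simpa using e)⟩

theorem Lf.notMem_GK (F : Lf M) (hn : 0 < n) (hδ : δ ^ 2 = -n) : g ∉ GK n ↔ F.π g δ = -δ := by
  have h0 : δ ≠ 0 := fun e => by
    rw [e, zero_pow two_ne_zero, eq_comm, neg_eq_zero, Nat.cast_eq_zero] at hδ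
    omega
  rw [F.mem_GK hn hδ]
  exact ⟨(pm_of_sq (d := -n) (by simpa using hδ) _).resolve_left,
    fun e k => h0 (self_eq_neg.1 (k.symm.trans e))⟩

theorem Lf.mem_range (F : Lf M) {x : Qbar} (h : ∀ g, F.π g = 1 → g x = x) : ∃ y, F.e y = x := by
  have e := InfiniteGalois.fixedField_fixingSubgroup (k := ℚ) (K := Qbar)
    F.e.toRatAlgHom.fieldRange
  exact e.le ((IntermediateField.mem_fixedField_iff _ _).2 fun g hg => h g
    (AlgEquiv.ext fun y => F.e.injective ((F.comm g y).trans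
      ((IntermediateField.mem_fixingSubgroup_iff _ _).1 hg _ ⟨y, rfl⟩))))

theorem Lf.mem_range_pt (F : Lf M) {W : WeierstrassCurve ℚ} {P : Pt W Qbar}
    (h : ∀ g : Gam, F.π g = 1 → pmap (g : Qbar →+* Qbar) P = P) :
    ∃ R : Pt W M, pmap F.e R = P := by
  have hx := F.mem_range (x := xco P) fun g k => by
    rw [← RingHom.coe_coe, ← xco_pmap, h g k]
  have hy := F.mem_range (x := yco P) fun g k => by
    rw [← RingHom.coe_coe, ← yco_pmap, h g k]
  rcases P with _ | ⟨_, _, hQ⟩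
  · exact ⟨0, rfl⟩
  obtain ⟨x, rfl⟩ := hx
  obtain ⟨y, rfl⟩ := hy
  exact ⟨.some x y ((W.toAffine.baseChange_nonsingular F.e.toRatAlgHom.injective x y).mp hQ), rfl⟩

/-- The embedding of the ring of integers. -/
noncomputable def rkaF (F : Lf M) : 𝓞 M →+* Zbar :=
  (F.e.comp (algebraMap (𝓞 M) M)).codRestrict (integralClosure ℤ Qbar) fun x =>
    map_isIntegral_int F.e x.isIntegral_coe

theorem rka_int (F : Lf M) : (rkaF F).IsIntegral :=
  RingHom.IsIntegral.tower_top (algebraMap ℤ _) _ (by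
    rw [RingHom.ext_int ((rkaF F).comp _) (algebraMap ℤ Zbar)]
    exact fun x => Algebra.IsIntegral.isIntegral (R := ℤ) x)

theorem rka_le (F : Lf M) (w : Plc) (x : 𝓞 M) : w.V (F.e x) ≤ 1 :=
  w.V_le_one_of_isIntegral (rkaF F x).2

theorem Lf.exists_plc (F : Lf M) (hp : p.Prime) [Q.IsPrime] (hQ : (p : 𝓞 M) ∈ Q) :
    ∃ w : Plc, w.p = p ∧ F.Ov w Q := by
  have hm : Q.IsMaximal := Ideal.IsPrime.isMaximal ‹_› fun e => by
    rw [e, Ideal.mem_bot, Nat.cast_eq_zero] at hQ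
    exact hp.ne_zero hQ
  let _ := (rkaF F).toAlgebra
  have : Algebra.IsIntegral (𝓞 M) Zbar := ⟨rka_int F⟩
  obtain ⟨P, h1, h2⟩ := Ideal.exists_ideal_over_maximal_of_isIntegral (S := Zbar) Q fun x hx => by
    have e : F.e x = 0 := congrArg Subtype.val (RingHom.mem_ker.1 hx)
    rw [show x = 0 from RingOfIntegers.ext ((map_eq_zero F.e).1 e)]
    exact Q.zero_mem
  obtain ⟨w, rfl⟩ := b2a_surj P h1
  have h3 : F.Ov w Q := fun x => by
    rw [← h2]
    rfl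
  refine ⟨w, (Nat.prime_dvd_prime_iff_eq w.prime hp).1 (Int.natCast_dvd_natCast.1 (b2c_lt.1 ?_)),
    h3⟩
  simpa using (h3 _).1 hQ

theorem Lf.exists_ideal (F : Lf M) (w : Plc) : ∃ Q : Ideal (𝓞 M), Q.IsMaximal ∧ F.Ov w Q := by
  have := b2a_max w
  exact ⟨(b2aP w).comap (rkaF F),
    Ideal.isMaximal_comap_of_isIntegral_of_isMaximal' _ (rka_int F) _, fun _ => Iff.rfl⟩

theorem Lf.Ov.ine (h : F.Ov w Q) (hg : g ∈ Ine w) : F.π g ∈ Q.inertia (M ≃ₐ[ℚ] M) := by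
  intro x
  refine (h _).2 ?_
  change w.V (F.e (F.π g x - x)) < 1
  rw [map_sub, F.comm]
  exact hg.2 _ (rka_le F w x)

theorem Lf.Ov.frob (h : F.Ov w Q) (hg : IsFrob w w.p g) : IsArithFrobAt ℤ (F.π g) Q := by
  have : Q.IsPrime := by
    rw [show Q = (b2aP w).comap (rkaF F) from Ideal.ext h]
    infer_instance
  intro x
  rw [under_eq w.prime ((h _).2 (by simpa using b2a_p_lt w)), Int.card_ideal_quot]
  refine (h _).2 ?_
  change w.V (F.e (F.π g x - x ^ w.p)) < 1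
  rw [map_sub, F.comm, map_pow]
  exact hg.2 _ (rka_le F w x)

/-- Every Frobenius element comes from the absolute Galois group, up to inertia. -/
theorem Lf.Ov.exists_frob (h : F.Ov w Q) {φ : M ≃ₐ[ℚ] M} (hφ : IsArithFrobAt ℤ φ Q)
    (hg : IsFrob w w.p g) : ∃ τ ∈ Q.inertia (M ≃ₐ[ℚ] M), φ = F.π g * τ := by
  refine ⟨(F.π g)⁻¹ * φ, fun x => (h _).2 ?_, (mul_inv_cancel_left _ _).symm⟩
  have h1 : φ • x - F.π g • x ∈ Q := by
    have := sub_mem (hφ x) (h.frob hg x)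
    rwa [sub_sub_sub_cancel_right] at this
  have h2 : w.V (F.e (φ x - F.π g x)) < 1 := (h _).1 h1
  change w.V (F.e ((F.π g)⁻¹ (φ x) - x)) < 1
  rwa [← mem_Dec.1 hg.1, ← F.comm, map_sub, show F.π g ((F.π g)⁻¹ (φ x)) = φ x from
    (F.π g).apply_symm_apply _]

theorem conj_inertia (hQ : Q.IsMaximal) (t : M ≃ₐ[ℚ] M) : ∃ Q' : Ideal (𝓞 M), Q'.IsMaximal ∧
    ∀ σ ∈ Q.inertia (M ≃ₐ[ℚ] M), t⁻¹ * σ * t ∈ Q'.inertia (M ≃ₐ[ℚ] M) := by
  refine ⟨Q.comap (MulSemiringAction.toRingEquiv (M ≃ₐ[ℚ] M) (𝓞 M) t), inferInstance,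
    fun σ hσ x => ?_⟩
  change t • ((t⁻¹ * σ * t) • x - x) ∈ Q
  rw [smul_sub, mul_smul, mul_smul, smul_inv_smul]
  exact hσ _

end Pool.Agent.DH
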