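import Pool.Agent.Lib.MP_60ff09_nt.Dih.D0
import Pool.Agent.Lib.MP_696deb_nt.B2.CMc

/-! The two primes, norms of lattices, and numbers of representations. -/

set_option autoImplicit false

open scoped Classical NumberTheorySymbols
open Pool.Agent.Lib.MP_696deb_nt Pool.Agent.Lib.MP_696deb_nt.B2 Pool.Agent.Lib.MP_696deb_nt.B2.CM
open Pool.Agent.Dih (rep rW lam1 e15 Par GZan)

namespace Pool.Agent.DH

variable {p q n : ℕ} {I J : Lt} {ν μ : ℝ} {m b k : ℤ} {x : Cl n} {Q : Fm} {z : ℂ}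

theorem PQ.ok (h : PQ p q) : Ok (p * q) 1 := by
  have h1 := h.pm
  have h2 := h.qm
  refine ⟨?_, ?_, one_ne_zero⟩
  · rw [Nat.mul_mod, show p % 4 = 1 by omega, show q % 4 = 3 by omega]
  · exact lt_of_lt_of_le (by norm_num)
      (Nat.mul_le_mul (show 17 ≤ p by omega) (show 7 ≤ q by omega))

theorem PQ.p4 (h : PQ p q) : p % 4 = 1 := by
  have := h.pm
  omega

theorem PQ.q4 (h : PQ p q) : q % 4 = 3 := by
  have := h.qm
  omega

theorem PQ.ne (h : PQ p q) : p ≠ q := by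
  have := h.p4
  have := h.q4
  omega

theorem PQ.sqf (h : PQ p q) : Squarefree (p * q) :=
  (Nat.squarefree_mul ((Nat.coprime_primes h.pp h.qp).2 h.ne)).2 ⟨h.pp.squarefree, h.qp.squarefree⟩

theorem ra_mod (h : PQ p q) : p * q % 60 = 59 ∨ p * q % 60 = 11 := by
  rw [Nat.mul_mod]
  rcases h.pm with h1 | h1 <;> rcases h.qm with h2 | h2 <;> rw [h1, h2] <;> norm_num

theorem PQ.cop (h : PQ p q) : (p * q).Coprime 30 := by
  have h1 : p * q % 30 = 29 ∨ p * q % 30 = 11 := by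
    have := ra_mod h
    omega
  rw [Nat.coprime_comm, Nat.Coprime, Nat.gcd_rec]
  rcases h1 with h1 | h1 <;> rw [h1] <;> norm_num

theorem PQ.exists_okR (h : PQ p q) : ∃ r, OkR (p * q) 1 r := by
  have h1 : (p * q * 1).Coprime 15 := by
    rw [mul_one]
    exact h.cop.coprime_dvd_right (by norm_num)
  rcases ra_mod h with e | e
  · exact ⟨1, h.ok, by omega, h1⟩
  · exact ⟨7, h.ok, by omega, h1⟩

theorem PQ.fin (h : PQ p q) : Finite (Cl (p * q)) := finite_Pc h.ok.m4 h.ok.gt 1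

theorem ra_jac (a : ℤ) {l r : ℕ} (h : l % 60 = r) (hr : r % 2 = 1) (ha : 4 * a.natAbs ∣ 60) :
    J(a | l) = J(a | r) := by
  rw [jacobiSym.mod_right a (Nat.odd_iff.2 (by omega)), jacobiSym.mod_right a (Nat.odd_iff.2 hr),
    ← h, Nat.mod_mod_of_dvd _ ha]

theorem PQ.jac (h : PQ p q) : J(3 | p) = -1 ∧ J(5 | p) = -1 ∧ J(3 | q) = -1 ∧ J(5 | q) = -1 ∧
    J(-1 | p) = 1 ∧ J(-1 | q) = -1 ∧ J((p : ℤ) | 3) = -1 ∧ J((p : ℤ) | 5) = -1 := by
  have h3 : J((p : ℤ) | 3) = -1 := by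
    rw [jacobiSym.mod_left' (a₂ := 2) (by have := h.pm; omega)]
    norm_num
  have h5 : J((p : ℤ) | 5) = -1 := by
    rcases h.pm with e | e
    · rw [jacobiSym.mod_left' (a₂ := 2) (by omega)]
      norm_num
    · rw [jacobiSym.mod_left' (a₂ := 3) (by omega)]
      norm_num
  rcases h.pm with e | e <;> rcases h.qm with e' | e' <;>
    rw [ra_jac 3 e rfl (by decide), ra_jac 5 e rfl (by decide), ra_jac (-1) e rfl (by decide),
      ra_jac 3 e' rfl (by decide), ra_jac 5 e' rfl (by decide), ra_jac (-1) e' rfl (by decide),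
      h3, h5] <;> norm_num

theorem PQ.jac15 (h : PQ p q) : J(15 | p) = 1 ∧ J(15 | q) = 1 ∧ J(-15 | p) = 1 ∧
    J(-15 | q) = -1 ∧ J(-15 | p * q) = -1 ∧ J(3 | p * q) = 1 ∧ J(5 | p * q) = 1 := by
  obtain ⟨h1, h2, h3, h4, h5, h6, -⟩ := h.jac
  have := NeZero.mk h.pp.ne_zero
  have := NeZero.mk h.qp.ne_zero
  rw [show (-15 : ℤ) = -1 * (3 * 5) by norm_num, show (15 : ℤ) = 3 * 5 by norm_num]
  simp only [jacobiSym.mul_left, jacobiSym.mul_right, h1, h2, h3, h4, h5, h6]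
  norm_num

theorem jac_swap (hn : n % 4 = 3) {l : ℕ} (hl : Odd l) : J(-n | l) = J((l : ℤ) | n) := by
  rw [jacobiSym.neg _ hl]
  rcases Nat.odd_mod_four_iff.1 (Nat.odd_iff.1 hl) with e | e
  · rw [ZMod.χ₄_nat_one_mod_four e, one_mul,
      jacobiSym.quadratic_reciprocity_one_mod_four' (Nat.odd_iff.2 (by omega)) e]
  · rw [ZMod.χ₄_nat_three_mod_four e, jacobiSym.quadratic_reciprocity_three_mod_four hn e,
      neg_mul_neg, one_mul]

theorem ra_e (e : b ^ 2 + n = 4 * m * k) : b ^ 2 + n * ((1 : ℕ) : ℤ) ^ 2 = 4 * m * k := by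
  simpa using e

theorem ra_e' (e : b ^ 2 + n * ((1 : ℕ) : ℤ) ^ 2 = 4 * m * k) : b ^ 2 + n = 4 * m * k := by
  simpa using e

theorem ra_conj (n : ℕ) : (starRingAut : ℂ ≃+* ℂ) (dl n) = -dl n := conj_dl n

theorem ra_pos (ok : Ok n 1) : 0 < n := lt_trans (by norm_num) ok.gt

theorem inv_idl (ok : Ok n 1) (hs : Squarefree n) (hm : m ≠ 0) (e : b ^ 2 + n = 4 * m * k) :
    Inv n (idl n 1 m b) := by
  obtain ⟨g, x, y, z, m', b', k', h, rfl, rfl, rfl⟩ := cmb_gcd m b k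
  have hg : IsUnit g := Int.squarefree_natCast.2 hs g ⟨4 * m' * k' - b' ^ 2, by linear_combination e⟩
  refine isIv_idl ok.m4 (ra_e e) hm ⟨g * x, g * y, g * z, ?_⟩
  linear_combination g * h + Int.isUnit_mul_self hg

theorem cj_idl (n : ℕ) (m b : ℤ) : cj (idl n 1 m b) = idl n 1 m (-b) := by
  rw [cj, idl, mp_sp2, map_intCast, cmb_be_neg (ra_conj n), cmb_sp2_neg, idl]

theorem mem_cj : z ∈ cj I ↔ starRingEnd ℂ z ∈ I :=
  ⟨fun ⟨y, hy, e⟩ => by
    rwa [← show starRingEnd ℂ y = z from e, Complex.conj_conj], fun h => ⟨_, h, star_star z⟩⟩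

theorem ra_cj_cj (I : Lt) : cj (cj I) = I := by
  ext z
  rw [mem_cj, mem_cj, Complex.conj_conj]

theorem ra_cj_one (ok : Ok n 1) : cj (OO n) = OO n := mp_Oc ok.m4 (.inr (ra_conj n))

theorem cls_cj (ok : Ok n 1) (h : Inv n I) : Inv n (cj I) ∧ cls n (cj I) = (cls n I)⁻¹ :=
  ⟨h.mp ok.m4 (.inr (ra_conj n)), cl_mp_neg ok (ra_conj n) h⟩

theorem nm_idl (ok : Ok n 1) (hm : 0 < m) (e : b ^ 2 + n = 4 * m * k) (h : Inv n (idl n 1 m b)) :
    Nm n (idl n 1 m b) m :=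
  ⟨h, Int.cast_pos.2 hm, by
    rw [cj_idl, idl_mul_neg ok.m4 (ra_e e) (prim_of_mult ok (ra_e e) fun _ => h.mem_of_mul),
      Complex.ofReal_intCast]⟩

theorem nm_one (ok : Ok n 1) : Nm n (OO n) 1 :=
  ⟨isIv_one _, one_pos, by rw [ra_cj_one ok, ot_mul_ot le_rfl, Complex.ofReal_one, sc_one]⟩

theorem Nm.mul (ok : Ok n 1) (h : Nm n I ν) (k : Nm n J μ) : Nm n (I * J) (ν * μ) :=
  ⟨h.iv.mul k.iv, mul_pos h.pos k.pos, by
    rw [cj, mp_mul, mul_mul_mul_comm, h.eq, k.eq, sc_mul, mul_sc, sc_sc, ot_mul_ot le_rfl,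
      Complex.ofReal_mul]⟩

theorem Nm.sc (h : Nm n I ν) {a : ℂ} (ha : a ≠ 0) :
    Nm n (sc a I) (Complex.normSq a * ν) :=
  ⟨h.iv.sc ha, mul_pos (Complex.normSq_pos.2 ha) h.pos, by
    rw [cj, mp_sc, sc_mul, mul_sc, h.eq, sc_sc, sc_sc, Complex.ofReal_mul, ← Complex.mul_conj]
    rfl⟩

theorem Nm.cj (ok : Ok n 1) (h : Nm n I ν) : Nm n (cj I) ν :=
  ⟨(cls_cj ok h.iv).1, h.pos, by rw [ra_cj_cj, mul_comm, h.eq]⟩

theorem Nm.unique (ok : Ok n 1) (h : Nm n I ν) (k : Nm n I μ) : ν = μ := by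
  have h0 : (μ : ℂ) ≠ 0 := Complex.ofReal_ne_zero.2 k.pos.ne'
  have e : CM.sc ((μ : ℂ)⁻¹ * ν) (OO n) = OO n := by rw [← sc_sc, ← h.eq, k.eq, sc_inv_sc h0]
  rcases unit_Oc ok e with e | e <;> rw [inv_mul_eq_iff_eq_mul₀ h0] at e
  · exact_mod_cast e.trans (mul_one _)
  · have : ν = μ * -1 := by exact_mod_cast e
    linarith [h.pos, k.pos]

theorem exists_nm (ok : Ok n 1) (h : Inv n I) : ∃ ν, Nm n I ν := by
  obtain ⟨a, m, b, k, ha, hm, e, hp, rfl⟩ := h.exists_idl ok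
  exact ⟨_, (nm_idl ok hm (ra_e' e) (isIv_idl ok.m4 e hm.ne' hp)).sc ha⟩

theorem Nm.dvd (ok : Ok n 1) (h : Nm n I ν) (hz : z ∈ I) : ∃ N : ℕ, Complex.normSq z = N * ν := by
  have h1 : z * starRingEnd ℂ z ∈ I * DH.cj I :=
    Submodule.mul_mem_mul hz (mem_cj.2 ((Complex.conj_conj z).symm ▸ hz))
  rw [h.eq, Complex.mul_conj] at h1
  obtain ⟨y, hy, e⟩ := mem_sc.1 h1
  obtain ⟨s, t, -, rfl⟩ := (mem_Oc ok.m4).1 hy
  have h2 : t = 0 := by
    simpa [el, h.pos.ne', cma_im (b := 1) (ra_pos ok) one_ne_zero] using congrArg Complex.im e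
  rw [h2, el, Int.cast_zero, zero_mul, add_zero] at e
  have h3 : ν * s = Complex.normSq z := by exact_mod_cast e
  have h4 : (0 : ℝ) ≤ s := nonneg_of_mul_nonneg_right (h3 ▸ Complex.normSq_nonneg z) h.pos
  obtain ⟨N, rfl⟩ := Int.eq_ofNat_of_zero_le (Int.cast_nonneg_iff.1 h4)
  exact ⟨N, by rw [← h3, mul_comm, Int.cast_natCast]⟩

theorem Nm.eq_of_le (ok : Ok n 1) (h : Nm n I ν) (k : Nm n J ν) (e : I ≤ J) : I = J := by
  refine le_antisymm e fun z hz => ?_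
  have h0 : (ν : ℂ) ≠ 0 := Complex.ofReal_ne_zero.2 h.pos.ne'
  have h1 : J * (I * DH.cj I) ≤ J * (I * DH.cj J) :=
    mul_le_mul_right (mul_le_mul_right (Submodule.map_mono e) _) _
  rw [mul_left_comm J I (DH.cj J), h.eq, k.eq, mul_sc, mul_sc, h.iv.1, k.iv.1] at h1
  exact (mul_mem_sc h0).1 (h1 ((mul_mem_sc h0).2 hz))

theorem Nm.gen (ok : Ok n 1) (h : Nm n I ν) (hz : z ∈ I) (e : Complex.normSq z = ν) :
    I = CM.sc z (OO n) := by
  have h1 := (nm_one ok).sc (Complex.normSq_pos.1 (e ▸ h.pos))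
  rw [mul_one, e] at h1
  refine (h1.eq_of_le ok h fun y hy => ?_).symm
  obtain ⟨u, hu, rfl⟩ := mem_sc.1 hy
  exact mul_comm u z ▸ h.iv.mul_mem hu hz

theorem normSq_idl (e : b ^ 2 + n = 4 * m * k) (u v : ℤ) :
    Complex.normSq (u * (m : ℂ) + v * be n 1 b) = (m * fval (m, b, k) u v : ℤ) := by
  have h1 : starRingEnd ℂ (be n 1 b) = -be n 1 (-b) := cmb_be_neg (ra_conj n) 1 b
  apply Complex.ofReal_injective
  rw [← Complex.mul_conj, map_add, map_mul, map_mul, h1, cmb_neg, map_intCast, map_intCast,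
    map_intCast, Complex.ofReal_intCast, fval]
  push_cast
  linear_combination -(v : ℂ) ^ 2 * cmb_sq (ra_e e)

theorem ra_img (e : b ^ 2 + n = 4 * m * k) (a : ℂ) (c : ℝ) :
    {z | z ∈ CM.sc a (idl n 1 m b) ∧ Complex.normSq z = c} =
      (fun v : ℤ × ℤ => a * (v.1 * (m : ℂ) + v.2 * be n 1 b)) ''
        {v | Complex.normSq a * (m * fval (m, b, k) v.1 v.2 : ℤ) = c} := by
  ext z
  constructor
  · rintro ⟨hz, h⟩
    obtain ⟨y, hy, rfl⟩ := mem_sc.1 hz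
    obtain ⟨u, v, rfl⟩ := mem_sp2.1 hy
    exact ⟨(u, v), by rwa [map_mul, normSq_idl e] at h, rfl⟩
  · rintro ⟨v, h, rfl⟩
    exact ⟨mem_sc.2 ⟨_, mem_sp2.2 ⟨_, _, rfl⟩, rfl⟩, by rwa [map_mul, normSq_idl e]⟩

theorem finite_norm (ok : Ok n 1) (h : Inv n I) (c : ℝ) :
    {z | z ∈ I ∧ Complex.normSq z = c}.Finite := by
  obtain ⟨a, m, b, k, ha, hm, e, -, rfl⟩ := h.exists_idl ok
  replace e := ra_e' e
  rw [ra_img e]
  refine Set.Finite.image _ ?_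
  rcases Set.eq_empty_or_nonempty
    {v : ℤ × ℤ | Complex.normSq a * (m * fval (m, b, k) v.1 v.2 : ℤ) = c} with h0 | ⟨w, hw⟩
  · exact h0 ▸ Set.finite_empty
  generalize hM : 4 * m * fval (m, b, k) w.1 w.2 = M
  refine (((Set.finite_Icc (-M) M).prod (Set.finite_Icc (-M) M)).preimage
    (f := fun v : ℤ × ℤ => (2 * m * v.1 + b * v.2, v.2)) fun v _ v' _ k => ?_).subset fun v hv => ?_
  · obtain ⟨k1, k2⟩ := Prod.ext_iff.1 k
    dsimp only at k1 k2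
    rw [k2, add_left_inj] at k1
    exact Prod.ext (mul_left_cancel₀ (by omega) k1) k2
  have h1 : m * fval (m, b, k) v.1 v.2 = m * fval (m, b, k) w.1 w.2 := Int.cast_injective
    (mul_left_cancel₀ (Complex.normSq_pos.2 ha).ne' (Eq.trans hv (Eq.symm hw)))
  have h2 : (2 * m * v.1 + b * v.2) ^ 2 + n * v.2 ^ 2 = M := by
    rw [← hM, mul_assoc 4, ← h1, fval]
    linear_combination v.2 ^ 2 * e
  have h3 : v.2 ^ 2 ≤ n * v.2 ^ 2 :=
    le_mul_of_one_le_left (sq_nonneg _) (by exact_mod_cast ra_pos ok)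
  have h4 := sq_nonneg (2 * m * v.1 + b * v.2)
  have h5 := sq_nonneg v.2
  exact ⟨abs_le.1 ((Int.le_self_sq _).trans (by rw [sq_abs]; linarith)),
    abs_le.1 ((Int.le_self_sq _).trans (by rw [sq_abs]; linarith))⟩

theorem isFm_idl (ok : Ok n 1) (hs : Squarefree n) (hm : 0 < m) (e : b ^ 2 + n = 4 * m * k) :
    IsFm n (cls n (idl n 1 m b)) (m, b, k) :=
  ⟨by rw [fdisc]; linear_combination e, hm, inv_idl ok hs hm.ne' e, rfl⟩

theorem fm_spec (ok : Ok n 1) (x : Cl n) : IsFm n x (fm n x) := by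
  have h : ∃ Q, IsFm n x Q := by
    obtain ⟨I, hI, rfl⟩ := cl_surj x
    obtain ⟨a, m, b, k, ha, hm, e, hp, rfl⟩ := hI.exists_idl ok
    have h := isIv_idl ok.m4 e hm.ne' hp
    exact ⟨(m, b, k), by rw [fdisc]; linear_combination ra_e' e, hm, h, (cl_sc h ha).symm⟩
  rw [fm, dif_pos h]
  exact h.choose_spec

theorem fm_inj (ok : Ok n 1) : Function.Injective (fm n) := fun x y e => by
  rw [← (fm_spec ok x).eq, e, (fm_spec ok y).eq]

theorem ra_disc (h : IsFm n x Q) : Q.2.1 ^ 2 + n = 4 * Q.1 * Q.2.2 := by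
  have := h.disc
  rw [fdisc] at this
  linear_combination this

theorem ra_rep (ok : Ok n 1) (h : Nm n I ν) (k : IsFm n (cls n I) Q) (N : ℤ) :
    rep Q N = {z | z ∈ I ∧ Complex.normSq z = N * ν}.ncard := by
  obtain ⟨a, ha, rfl⟩ := (cl_eq_iff k.iv h.iv).1 k.eq
  have e := ra_disc k
  have h0 : (Q.1 : ℝ) ≠ 0 := Int.cast_ne_zero.2 k.pos.ne'
  rw [h.unique ok ((nm_idl ok k.pos e k.iv).sc ha), ra_img e, Set.ncard_image_of_injective,
    Dih.rep]
  · refine congrArg Set.ncard (Set.ext fun v => ?_)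
    rw [Set.mem_ofPred_eq, Set.mem_ofPred_eq, mul_comm (N : ℝ), mul_assoc, Int.cast_mul,
      mul_right_inj' (Complex.normSq_pos.2 ha).ne', mul_right_inj' h0, Int.cast_inj]
  · intro v v' e
    have := be_indep (b := Q.2.1) (x := (v.1 - v'.1) * Q.1) (y := v.2 - v'.2) (ra_pos ok)
      one_ne_zero (by push_cast; linear_combination mul_left_cancel₀ ha e)
    exact Prod.ext (sub_eq_zero.1 ((mul_eq_zero.1 this.1).resolve_right k.pos.ne'))
      (sub_eq_zero.1 this.2)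

theorem rc_eq (ok : Ok n 1) (h : Nm n I ν) (N : ℤ) :
    rc n (cls n I) N = {z | z ∈ I ∧ Complex.normSq z = N * ν}.ncard := ra_rep ok h (fm_spec ok _) N

theorem IsFm.rep_eq (ok : Ok n 1) (h : IsFm n x Q) (N : ℤ) : rep Q N = rc n x N := by
  have k := nm_idl ok h.pos (ra_disc h) h.iv
  rw [← h.eq, rc_eq ok k]
  exact ra_rep ok k (h.eq.symm ▸ h) N

theorem rc_inv (ok : Ok n 1) (x : Cl n) (N : ℤ) : rc n x⁻¹ N = rc n x N := by
  obtain ⟨I, hI, rfl⟩ := cl_surj x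
  obtain ⟨ν, h⟩ := exists_nm ok hI
  rw [← (cls_cj ok hI).2, rc_eq ok h, rc_eq ok (h.cj ok),
    ← Set.ncard_preimage_of_injective_subset_range (starRingEnd ℂ).injective
      fun z _ => ⟨_, Complex.conj_conj z⟩]
  refine congrArg Set.ncard (Set.ext fun z => ?_)
  simp [mem_cj]

theorem rc_one (ok : Ok n 1) (x : Cl n) : rc n x 1 = if x = 1 then 2 else 0 := by
  split_ifs with e
  · have h1 := nm_one ok
    rw [e, ← cl_one, rc_eq ok h1, ← Set.ncard_pair (show (1 : ℂ) ≠ -1 by norm_num)]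
    refine congrArg Set.ncard (Set.ext fun z => ⟨fun ⟨k1, k2⟩ => unit_Oc ok
      (h1.gen ok k1 (by simpa using k2)).symm, ?_⟩)
    rintro (rfl | rfl)
    · exact ⟨(Oc n 1).one_mem, by simp⟩
    · exact ⟨(Oc n 1).neg_mem (Oc n 1).one_mem, by simp⟩
  · obtain ⟨I, hI, rfl⟩ := cl_surj x
    obtain ⟨ν, h⟩ := exists_nm ok hI
    rw [rc_eq ok h]
    refine (congrArg Set.ncard (Set.eq_empty_of_forall_notMem fun z hz => e ?_)).trans
      (Set.ncard_empty _)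
    obtain ⟨k1, k2⟩ := hz
    rw [Int.cast_one, one_mul] at k2
    rw [h.gen ok k1 k2, cl_sc (isIv_one _) (Complex.normSq_pos.1 (k2 ▸ h.pos)), cl_one]

end Pool.Agent.DH
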