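import Pool.Agent.Lib.MP_60ff09_nt.Dih.Ra
import Pool.Agent.Lib.MP_60ff09_nt.Dih.ANb
import Pool.Agent.Lib.MP_696deb_nt.B2.CMf

/-! The Hecke relations for numbers of representations. -/

set_option autoImplicit false

open scoped Classical NumberTheorySymbols
open Pool.Agent.Lib.MP_696deb_nt Pool.Agent.Lib.MP_696deb_nt.B2 Pool.Agent.Lib.MP_696deb_nt.B2.CM
open Pool.Agent.Dih (rep rW lam1 e15 Par GZan)

namespace Pool.Agent.DH

variable {n l : ℕ} {a : Cl n}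

theorem rb_two (ok : Ok n 1) : J(((2 : ℕ) : ℤ) | n) = if n % 8 = 7 then 1 else -1 := by
  have h := ok.m4
  rw [Nat.cast_ofNat, jacobiSym.at_two (Nat.odd_iff.2 (by omega)), ZMod.χ₈_nat_eq_if_mod_eight,
    if_neg (by omega)]
  exact if_congr (by omega) rfl rfl

theorem rb_odd (ok : Ok n 1) {b N : ℤ} (e : b ^ 2 + n = 4 * N) :
    ∃ s t : ℤ, b = 2 * s + 1 ∧ b ^ 2 = 8 * t + 1 := by
  have h := ok.m4
  rcases Int.even_or_odd' b with ⟨s, rfl | rfl⟩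
  · have h1 : (2 * s) ^ 2 = 4 * s ^ 2 := by ring
    omega
  · obtain ⟨t, ht⟩ := Int.even_mul_succ_self s
    exact ⟨s, t, rfl, by linear_combination 4 * ht⟩

theorem rb_dvd (hl : l.Prime) {b k : ℤ} (e : b ^ 2 + n = 4 * l * k) : (l : ℤ) ∣ b ↔ l ∣ n := by
  have h : (l : ℤ) ∣ b ^ 2 + n := ⟨4 * k, by linear_combination e⟩
  rw [← Int.natCast_dvd_natCast, ← (Nat.prime_iff_prime_int.1 hl).dvd_pow_iff_dvd two_ne_zero]
  exact ⟨fun k => (dvd_add_right k).1 h, fun k => (dvd_add_left k).1 h⟩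

theorem rb_gcd (hl : l.Prime) {b : ℤ} (h : ¬ (l : ℤ) ∣ b) : b.gcd l = 1 :=
  Int.isCoprime_iff_gcd_eq_one.1
    ((Nat.prime_iff_prime_int.1 hl).irreducible.coprime_iff_not_dvd.2 h).symm

/-- the symbol of `-n` at a prime that divides a value of the principal form -/
theorem rb_jac (hl : l.Prime) {x y : ℤ} (h : (l : ℤ) ∣ x ^ 2 + n * y ^ 2) (hy : ¬ (l : ℤ) ∣ y) :
    J(-n | l) ≠ -1 := fun e => by
  have h1 : J(-n * y ^ 2 | l) = J(x ^ 2 | l) :=
    jacobiSym.mod_left' (Int.modEq_iff_dvd.2 (by simpa using h))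
  rw [jacobiSym.mul_left, jacobiSym.sq_one' (rb_gcd hl hy), e, jacobiSym.pow_left] at h1
  nlinarith [sq_nonneg J(x | l)]

theorem exists_prm (ok : Ok n 1) (hs : Squarefree n) (hl : l.Prime) (h : J((l : ℤ) | n) ≠ -1) :
    ∃ a, Prm n l a := by
  have h4 := ok.m4
  suffices ∃ b k : ℤ, b ^ 2 + n = 4 * l * k by
    obtain ⟨b, k, e⟩ := this
    exact ⟨_, b, k, e, inv_idl ok hs (Nat.cast_ne_zero.2 hl.ne_zero) e, rfl⟩
  rcases hl.eq_two_or_odd' with rfl | ho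
  · rw [rb_two ok] at h
    have h1 : n % 8 = 7 := by_contra fun k => h (if_neg k)
    exact ⟨1, (n + 1) / 8, by omega⟩
  by_cases hd : l ∣ n
  · obtain ⟨c, rfl⟩ := hd
    have h1 : (l + c) % 4 = 0 := by
      rw [Nat.mul_mod] at h4
      have h2 : l % 4 = 1 ∨ l % 4 = 3 := by have := Nat.odd_iff.1 ho; omega
      rcases h2 with h2 | h2 <;> rw [h2] at h4 <;> omega
    obtain ⟨k, hk⟩ : (4 : ℤ) ∣ l + c := by omega
    exact ⟨l, k, by push_cast; linear_combination l * hk⟩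
  · rw [← jac_swap h4 ho] at h
    have h1 : J(-n | l) ≠ 0 := fun e => (jacobiSym.eq_zero_iff.1 e).2
      (rb_gcd hl (by rwa [dvd_neg, Int.natCast_dvd_natCast]))
    obtain ⟨b, k, e, -⟩ := exists_root_split (c := 1) h4 hl (fun k => absurd (k ▸ ho) (by decide))
      (((jacobiSym.trichotomy _ _).resolve_left h1).resolve_right h) hl.not_dvd_one
    exact ⟨b, k, by simpa using e⟩

theorem rb_neg (ok : Ok n 1) {m b : ℤ} (h : Inv n (idl n 1 m b)) :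
    Inv n (idl n 1 m (-b)) ∧ cls n (idl n 1 m (-b)) = (cls n (idl n 1 m b))⁻¹ :=
  cj_idl n m b ▸ cls_cj ok h

theorem Prm.inv (ok : Ok n 1) (ha : Prm n l a) : Prm n l a⁻¹ := by
  obtain ⟨b, k, e, h, rfl⟩ := ha
  exact ⟨-b, k, by rwa [neg_sq], (rb_neg ok h).1, (rb_neg ok h).2.symm⟩

theorem Prm.or (ok : Ok n 1) (hl : l.Prime) (ha : Prm n l a) {a' : Cl n} (ha' : Prm n l a') :
    a' = a ∨ a' = a⁻¹ := by
  obtain ⟨b, k, e, h, rfl⟩ := ha
  obtain ⟨b', k', e', -, rfl⟩ := ha'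
  obtain ⟨s, -, rfl, -⟩ := rb_odd ok (e.trans (mul_assoc _ _ _))
  obtain ⟨s', -, rfl, -⟩ := rb_odd ok (e'.trans (mul_assoc _ _ _))
  have h1 : (l : ℤ) ∣ (s' - s) * (s' + s + 1) := ⟨k' - k, by nlinarith⟩
  rcases (Nat.prime_iff_prime_int.1 hl).dvd_or_dvd h1 with ⟨t, ht⟩ | ⟨t, ht⟩
  · exact .inl (congrArg _ (idl_congr ⟨t, by linear_combination 2 * ht⟩))
  · exact .inr ((congrArg _ (idl_congr ⟨t, by linear_combination 2 * ht⟩)).trans (rb_neg ok h).2)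

theorem Prm.sq (ok : Ok n 1) (hl : l.Prime) (ha : Prm n l a) (h : l ∣ n) : a⁻¹ = a := by
  obtain ⟨b, k, e, hi, rfl⟩ := ha
  obtain ⟨t, ht⟩ := (rb_dvd hl e).2 h
  exact (rb_neg ok hi).2.symm.trans (congrArg _ (idl_congr ⟨-t, by linear_combination -2 * ht⟩))

theorem Prm.jac (ok : Ok n 1) (hl : l.Prime) (ha : Prm n l a) (h : ¬ l ∣ n) :
    J((l : ℤ) | n) = 1 := by
  obtain ⟨b, k, e, -, -⟩ := ha
  rcases hl.eq_two_or_odd' with rfl | ho
  · obtain ⟨-, t, -, ht⟩ := rb_odd ok (e.trans (mul_assoc _ _ _))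
    rw [rb_two ok, if_pos (by omega)]
  · rw [← jac_swap ok.m4 ho, ← jacobiSym.sq_one' (rb_gcd hl (mt (rb_dvd hl e).1 h))]
    exact jacobiSym.mod_left' (Int.modEq_iff_dvd.2 ⟨4 * k, by linear_combination e⟩)

/-- every class has a form whose first coefficient is prime to `l` -/
theorem rb_form (ok : Ok n 1) (hl : l.Prime) (x : Cl n) :
    ∃ m b k : ℤ, IsFm n x (m, b, k) ∧ IsCoprime m l ∧ b ^ 2 + n = 4 * m * k := by
  obtain ⟨m, b, k, hm, e, h1, h2, rfl⟩ := exists_idl_coprime ok x (Nat.cast_ne_zero.2 hl.ne_zero)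
  have e' : b ^ 2 + n = 4 * m * k := by simpa using e
  exact ⟨m, b, k, ⟨by simp only [fdisc]; linear_combination e', by positivity,
    cmc_isIv ok.m4 e (Nat.cast_ne_zero.2 hm) h2, rfl⟩, h1, e'⟩

/-- the form of the product with a prime ideal -/
theorem rb_prod (ok : Ok n 1) (hl : l.Prime) {x : Cl n} {m b k b0 k0 : ℤ} (hx : IsFm n x (m, b, k))
    (hm : IsCoprime m l) (e : b ^ 2 + n = 4 * m * k) (e0 : b0 ^ 2 + n = 4 * l * k0)
    (h0 : Inv n (idl n 1 l b0)) : ∃ s K t : ℤ, m * s ^ 2 + b * s + k = l * K ∧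
      b + 2 * m * s - b0 = 2 * l * t ∧
      IsFm n (x * cls n (idl n 1 l b0)) (m * l, b + 2 * m * s, K) := by
  obtain ⟨c, -, hc, -⟩ := rb_odd ok (e.trans (mul_assoc _ _ _))
  obtain ⟨c0, -, hc0, -⟩ := rb_odd ok (e0.trans (mul_assoc _ _ _))
  obtain ⟨u, v, huv⟩ := id hm
  obtain ⟨s, t, ht⟩ : ∃ s t, b + 2 * m * s - b0 = 2 * l * t :=
    ⟨u * (c0 - c), v * (c - c0), by rw [hc, hc0]; linear_combination 2 * (c0 - c) * huv⟩
  have h1 : (l : ℤ) ∣ m * (m * s ^ 2 + b * s + k) := ⟨k0 + b0 * t + l * t ^ 2, by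
    have h2 : b + 2 * m * s = b0 + 2 * l * t := by linear_combination ht
    have h3 : (b + 2 * m * s) ^ 2 = (b0 + 2 * l * t) ^ 2 := by rw [h2]
    nlinarith⟩
  obtain ⟨K, hK⟩ := hm.symm.dvd_of_dvd_mul_left h1
  have h2 : idl n 1 (m * l) (b + 2 * m * s) = idl n 1 m b * idl n 1 l b0 := by
    rw [idl_mul (k := K) (by push_cast; linear_combination e + 4 * m * hK) ⟨u, v, 0, by
      linear_combination huv⟩, cmb_shift, idl_congr ⟨t, ht⟩]
  refine ⟨s, K, t, hK, ht, ?_, mul_pos hx.pos (Nat.cast_pos.2 hl.pos), ?_, ?_⟩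
  · simp only [fdisc]
    linear_combination e + 4 * m * hK
  · exact h2 ▸ hx.iv.mul h0
  · exact (congrArg _ h2).trans ((cl_mul hx.iv h0).trans (congrArg (· * _) hx.eq))

theorem rb_one {L m b k s K : ℤ} (hL : L ≠ 0) (e : m * s ^ 2 + b * s + k = L * K) (N : ℤ) :
    {v : ℤ × ℤ | fval (m, b, k) v.1 v.2 = L * N ∧ L ∣ v.1 - s * v.2}.ncard =
      rep (m * L, b + 2 * m * s, K) N := by
  have h : ∀ u v, fval (m, b, k) (L * u + s * v) v =
      L * fval (m * L, b + 2 * m * s, K) u v := fun u v => by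
    simp only [fval]
    linear_combination v ^ 2 * e
  symm
  refine Set.ncard_congr (fun v _ => (L * v.1 + s * v.2, v.2)) (fun v hv => ?_)
    (fun v w _ _ k => ?_) fun v ⟨h1, u, h2⟩ => ?_
  · exact ⟨(h _ _).trans (congrArg _ hv), v.1, by simp⟩
  · obtain ⟨k1, k2⟩ := Prod.ext_iff.1 k
    have k2 : v.2 = w.2 := k2
    exact Prod.ext (mul_left_cancel₀ hL (by simpa [k2] using k1)) k2
  · have h3 : L * u + s * v.2 = v.1 := by linear_combination -h2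
    exact ⟨(u, v.2), mul_left_cancel₀ hL ((h _ _).symm.trans (h3 ▸ h1)), Prod.ext h3 rfl⟩

theorem rb_both {L : ℤ} (hL : L ≠ 0) (Q : Fm) (N : ℤ) :
    {v : ℤ × ℤ | fval Q v.1 v.2 = L * N ∧ L ∣ v.1 ∧ L ∣ v.2}.ncard =
      if L ∣ N then rep Q (N / L) else 0 := by
  have h : ∀ u v, fval Q (L * u) (L * v) = L * (L * fval Q u v) := fun u v => by
    simp only [fval]
    ring
  split_ifs with hN
  · obtain ⟨N, rfl⟩ := hN
    rw [Int.mul_ediv_cancel_left _ hL]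
    symm
    refine Set.ncard_congr (fun v _ => (L * v.1, L * v.2)) (fun v hv => ?_)
      (fun v w _ _ k => ?_) fun (u, v) ⟨h1, ⟨u', h2⟩, v', h3⟩ => ?_
    · exact ⟨(h _ _).trans (congrArg (fun t => L * (L * t)) hv), dvd_mul_right _ _,
        dvd_mul_right _ _⟩
    · obtain ⟨k1, k2⟩ := Prod.ext_iff.1 k
      exact Prod.ext (mul_left_cancel₀ hL k1) (mul_left_cancel₀ hL k2)
    · obtain rfl : u = _ := h2
      obtain rfl : v = _ := h3
      exact ⟨(u', v'), mul_left_cancel₀ hL (mul_left_cancel₀ hL ((h _ _).symm.trans h1)), rfl⟩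
  · refine (congrArg _ (Set.eq_empty_of_forall_notMem ?_)).trans (Set.ncard_empty _)
    rintro ⟨_, _⟩ ⟨h1, ⟨u, rfl⟩, v, rfl⟩
    exact hN ⟨_, mul_left_cancel₀ hL (h1.symm.trans (h u v))⟩

theorem rc_split (ok : Ok n 1) (hl : l.Prime) (ha : Prm n l a) (h : ¬ l ∣ n) (x : Cl n) (N : ℤ) :
    rc n x (l * N) + (if (l : ℤ) ∣ N then rc n x (N / l) else 0) =
      rc n (x * a) N + rc n (x * a⁻¹) N := by
  obtain ⟨b0, k0, e0, h0, rfl⟩ := ha
  obtain ⟨m, b, k, hx, hm, e⟩ := rb_form ok hl x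
  obtain ⟨s, K, t, e1, e2, h1⟩ := rb_prod ok hl hx hm e e0 h0
  obtain ⟨s', K', t', e1', e2', h2⟩ := rb_prod ok hl hx hm e (by rwa [neg_sq]) (rb_neg ok h0).1
  have hp := Nat.prime_iff_prime_int.1 hl
  have hf := Dih.finite_rep (Q := (m, b, k)) (by have := ok.gt; rw [hx.disc]; omega) hx.pos (l * N)
  have h3 : b + m * (s + s') = l * (t + t') := by linarith
  have h4 : m * (s - s') - b0 = l * (t - t') := by linarith
  rw [(rb_neg ok h0).2] at h2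
  rw [← h1.rep_eq ok, ← h2.rep_eq ok, ← rb_one hp.ne_zero e1, ← rb_one hp.ne_zero e1',
    ← Set.ncard_union_add_ncard_inter _ _ (hf.subset fun _ h => h.1) (hf.subset fun _ h => h.1),
    ← hx.rep_eq ok, ← hx.rep_eq ok, ← rb_both hp.ne_zero, Dih.rep]
  refine congrArg₂ (fun S T : Set (ℤ × ℤ) => S.ncard + T.ncard) (Set.ext fun (u, v) => ?_)
    (Set.ext fun (u, v) => ?_)
  · refine ⟨fun k1 => ?_, fun k1 => k1.elim And.left And.left⟩
    have k2 : m * u ^ 2 + b * u * v + k * v ^ 2 = l * N := k1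
    have k3 : (l : ℤ) ∣ m * ((u - s * v) * (u - s' * v)) :=
      ⟨N - (t + t') * u * v - K * v ^ 2 + (t + t') * s * v ^ 2, by
        linear_combination k2 - u * v * h3 - v ^ 2 * e1 + s * v ^ 2 * h3⟩
    exact (hp.dvd_or_dvd (hm.symm.dvd_of_dvd_mul_left k3)).imp (⟨k1, ·⟩) (⟨k1, ·⟩)
  · refine ⟨fun ⟨k1, k2, k3⟩ => ⟨⟨k1, k2.sub (k3.mul_left _)⟩, k1, k2.sub (k3.mul_left _)⟩,
      fun ⟨⟨k1, c, k2⟩, _, c', k3⟩ => ?_⟩
    have k2 : u - s * v = l * c := k2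
    have k3 : u - s' * v = l * c' := k3
    have k4 : (l : ℤ) ∣ v := (hp.dvd_or_dvd (⟨m * (c' - c) - (t - t') * v, by
      linear_combination m * k3 - m * k2 - v * h4⟩ : (l : ℤ) ∣ b0 * v)).resolve_left
        (mt (rb_dvd hl e0).1 h)
    exact ⟨k1, (dvd_sub_left (k4.mul_left s)).1 ⟨c, k2⟩, k4⟩

theorem rc_ram (ok : Ok n 1) (hs : Squarefree n) (hl : l.Prime) (ha : Prm n l a) (h : l ∣ n)
    (x : Cl n) (N : ℤ) : rc n x (l * N) = rc n (x * a) N := by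
  obtain ⟨b0, k0, e0, h0, rfl⟩ := (fun _ => ha) hs
  obtain ⟨m, b, k, hx, hm, e⟩ := rb_form ok hl x
  obtain ⟨s, K, t, e1, e2, h1⟩ := rb_prod ok hl hx hm e e0 h0
  obtain ⟨c, hc⟩ := (rb_dvd hl e0).2 h
  have hp := Nat.prime_iff_prime_int.1 hl
  rw [← h1.rep_eq ok, ← rb_one hp.ne_zero e1, ← hx.rep_eq ok, Dih.rep]
  refine congrArg Set.ncard (Set.ext fun (u, v) => ⟨fun k1 => ⟨k1, ?_⟩, And.left⟩)
  have k2 : m * u ^ 2 + b * u * v + k * v ^ 2 = l * N := k1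
  have k3 : (l : ℤ) ∣ m * (u - s * v) ^ 2 := ⟨N - (2 * t + c) * (u - s * v) * v - K * v ^ 2, by
    linear_combination k2 - (u - s * v) * v * (e2 + hc) - v ^ 2 * e1⟩
  exact hp.dvd_of_dvd_pow (hm.symm.dvd_of_dvd_mul_left k3)

theorem rc_inert (ok : Ok n 1) (hl : l.Prime) (h : J((l : ℤ) | n) = -1) (x : Cl n) (N : ℤ) :
    rc n x (l * N) = if (l : ℤ) ∣ N then rc n x (N / l) else 0 := by
  obtain ⟨m, b, k, hx, hm, e⟩ := rb_form ok hl x
  have hp := Nat.prime_iff_prime_int.1 hl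
  rw [← hx.rep_eq ok, ← hx.rep_eq ok, ← rb_both hp.ne_zero, Dih.rep]
  refine congrArg Set.ncard (Set.ext fun (u, v) => ⟨fun k1 => ⟨k1, ?_⟩, And.left⟩)
  have k2 : m * u ^ 2 + b * u * v + k * v ^ 2 = l * N := k1
  have k3 : (l : ℤ) ∣ v := by_contra fun hv => by
    rcases hl.eq_two_or_odd' with rfl | ho
    · have h4 := ok.m4
      have h5 : n % 8 ≠ 7 := fun k => by
        rw [rb_two ok, if_pos k] at h
        omega
      obtain ⟨c, rfl⟩ : ∃ c, v = 2 * c + 1 := ⟨v / 2, by omega⟩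
      obtain ⟨t, ht⟩ := Int.even_mul_succ_self c
      have h6 : (2 * m * u + b * (2 * c + 1)) ^ 2 + n = 4 * (2 * (m * N - n * t)) := by
        push_cast at k2
        linear_combination 4 * m * k2 + (2 * c + 1) ^ 2 * e - 4 * n * ht
      obtain ⟨-, t', -, ht'⟩ := rb_odd ok h6
      omega
    · exact rb_jac hl (x := 2 * m * u + b * v) ⟨4 * m * N, by
        linear_combination 4 * m * k2 + v ^ 2 * e⟩ hv ((jac_swap ok.m4 ho).trans h)
  obtain ⟨c, rfl⟩ := id k3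
  exact ⟨hp.dvd_of_dvd_pow (hm.symm.dvd_of_dvd_mul_left (⟨N - b * u * c - k * l * c ^ 2, by
    linear_combination k2⟩ : (l : ℤ) ∣ m * u ^ 2)), k3⟩

theorem Once.rc_eq (ok : Ok n 1) (hs : Squarefree n) {M : ℕ} (h : Once n l M) (x : Cl n) :
    rc n x (M * n : ℕ) = 0 := by
  obtain ⟨c, rfl⟩ := (fun _ => h.dvd) hs
  have h1 := rc_inert ok h.prime ((jac_swap ok.m4 (h.prime.odd_of_ne_two h.odd)).symm.trans h.jac)
    x (c * n)
  rw [if_neg] at h1
  · rwa [Nat.cast_mul, Nat.cast_mul, mul_assoc]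
  · intro k
    rcases (Nat.prime_iff_prime_int.1 h.prime).dvd_or_dvd k with k | k
    · exact h.ndvd (sq l ▸ mul_dvd_mul_left l (Int.natCast_dvd_natCast.1 k))
    · exact rb_jac h.prime (x := 0) (y := 1) (by simpa using k)
        (Nat.prime_iff_prime_int.1 h.prime).not_dvd_one h.jac

end Pool.Agent.DH
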