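import Pool.Agent.Lib.MP_60ff09_nt.Dih.Rb
import Pool.Agent.Lib.MP_60ff09_nt.Dih.Rh

/-! The two-primary part of the class group is cyclic. -/

set_option autoImplicit false

open scoped Classical NumberTheorySymbols
open Pool.Agent.Lib.MP_696deb_nt Pool.Agent.Lib.MP_696deb_nt.B2 Pool.Agent.Lib.MP_696deb_nt.B2.CM
open Pool.Agent.Dih (rep rW lam1 e15 Par GZan)

namespace Pool.Agent.DH

variable {p q : ℕ} {g : Cl (p * q) →* ℤˣ} {a x : Cl (p * q)}

open Complex in
open scoped ComplexConjugate in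
/-- Change of basis along a primitive vector. -/
theorem re_basis {n : ℕ} {m b k u v : ℤ} (hb : b ^ 2 + n = 4 * m * k) (hm : 0 < m)
    (huv : IsCoprime u v) (z0 : (u : ℂ) * m + v * be n 1 b ≠ 0) : ∃ f b' k' : ℤ, 0 < f ∧
    b' ^ 2 + n = 4 * f * k' ∧
    sc (conj ((u : ℂ) * m + v * be n 1 b)) (idl n 1 m b) = sc m (idl n 1 f b') := by
  obtain ⟨t, s', hts⟩ := huv
  obtain ⟨s, rfl⟩ : ∃ s, s' = -s := ⟨-s', by ring⟩
  have hd : u * t - v * s = 1 := by linear_combination hts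
  have hs := be_sq (n := n) (c := 1) (b := b) (N := m * k) (by push_cast; linear_combination hb)
  have hd' : (u : ℂ) * t - v * s = 1 := by exact_mod_cast hd
  have hc : conj ((u : ℂ) * m + v * be n 1 b) = u * m + v * (b - be n 1 b) := by
    simp only [be, map_add, map_mul, map_div₀, map_intCast, map_natCast, map_ofNat, conj_dl]
    ring
  push_cast at hs
  have z1 : conj ((u : ℂ) * m + v * be n 1 b) * (u * m + v * be n 1 b) =
      m * (m * u ^ 2 + b * u * v + k * v ^ 2 : ℤ) := by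
    rw [hc]; push_cast; linear_combination (-(v : ℂ) ^ 2) * hs
  have z2 : conj ((u : ℂ) * m + v * be n 1 b) * (s * m + t * be n 1 b) =
      m * be n 1 (b + 2 * ((u * m + v * b) * s + v * t * k)) := by
    rw [hc, cmc_be_add]; push_cast
    linear_combination (-(v : ℂ) * t) * hs + m * be n 1 b * hd'
  refine ⟨m * u ^ 2 + b * u * v + k * v ^ 2, b + 2 * ((u * m + v * b) * s + v * t * k),
    m * s ^ 2 + b * s * t + k * t ^ 2, ?_, ?_, ?_⟩
  · have h1 := normSq_pos.2 z0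
    rw [← normSq_eq_conj_mul_self] at z1
    have h2 : normSq ((u : ℂ) * m + v * be n 1 b) =
        ((m * (m * u ^ 2 + b * u * v + k * v ^ 2) : ℤ) : ℝ) := by exact_mod_cast z1
    rw [h2] at h1
    exact (mul_pos_iff_of_pos_left hm).1 (by exact_mod_cast h1)
  · linear_combination hb - 4 * (m * k * (u * t - v * s + 1) +
      b * ((u * m + v * b) * s + v * t * k)) * hd
  · rw [idl, idl, ← cmc_basis hd, sc_sp2, sc_sp2, z1, z2]

theorem re_cancel {a : ℂ} (ha : a ≠ 0) {I J : Lt} (h : sc a I = sc a J) : I = J := by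
  rw [← sc_inv_sc ha I, h, sc_inv_sc ha]

open Complex in
open scoped ComplexConjugate in
theorem amb_idl {n : ℕ} (ok : Ok n 1) {x : Cl n} (h : x⁻¹ = x) :
    ∃ m b k : ℤ, 0 < m ∧ m ∣ b ∧ b ^ 2 + n = 4 * m * k ∧ x = cls n (idl n 1 m b) := by
  have n0 : 0 < n := by have := ok.gt; omega
  obtain ⟨m', b, k, m0, hb0, -, cp, rfl⟩ := exists_idl_coprime ok x one_ne_zero
  have iv := cmc_isIv ok.m4 hb0 (by exact_mod_cast m0) cp
  obtain ⟨m, hm, e⟩ : ∃ m : ℤ, 0 < m ∧ m = m' := ⟨m', by omega, rfl⟩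
  rw [← e] at h hb0 iv ⊢
  have hb : b ^ 2 + n = 4 * m * k := by simpa using hb0
  have i1 := nm_idl ok hm hb iv
  have m1 : (m : ℂ) ≠ 0 := by exact_mod_cast hm.ne'
  obtain ⟨a, a0, ha⟩ := (cl_eq_iff iv (cls_cj ok iv).1).1 (h.symm.trans (cls_cj ok iv).2.symm)
  have a1 : conj a * a = 1 := by
    have h1 := (i1.cj ok).unique ok (ha ▸ i1.sc a0)
    rw [← normSq_eq_conj_mul_self, (mul_eq_right₀ i1.pos.ne').1 h1.symm, ofReal_one]
  obtain ⟨w, hw, w0, ew⟩ : ∃ w ∈ idl n 1 m b, w ≠ 0 ∧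
      sc w (cj (idl n 1 m b)) = sc (conj w) (idl n 1 m b) := by
    have h1 : (m : ℂ) ∈ idl n 1 m b := left_mem_sp2 _ _
    by_cases a2 : 1 + a = 0
    · refine ⟨m, h1, m1, ?_⟩
      rw [ha, map_intCast, eq_neg_of_add_eq_zero_right a2]
      congr 1
      ext z
      rw [← neg_mem_iff, ← mul_mem_sc (I := idl n 1 m b) (z := z) (a := -1) (by norm_num),
        neg_one_mul, neg_mem_iff]
    · have h2 : a * m ∈ cj (idl n 1 m b) := ha ▸ (mul_mem_sc a0).2 h1
      refine ⟨m + conj (a * m), add_mem h1 (mem_cj.1 h2), fun e => a2 ?_, ?_⟩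
      · have h3 := congrArg conj e
        rw [map_add, conj_conj, map_intCast, map_zero] at h3
        exact (mul_eq_zero.1 (by linear_combination h3 : (1 + a) * m = 0)).resolve_right m1
      · rw [ha, sc_sc, map_add, conj_conj, map_mul, map_intCast]
        congr 1
        linear_combination m * a1
  obtain ⟨x, y, rfl⟩ := mem_sp2.1 hw
  obtain ⟨g, u, v, g0, huv, rfl, rfl⟩ := Int.exists_gcd_one' (m := x) (n := y)
    (Int.gcd_pos_iff.2 (by
      by_contra e
      rw [not_or, not_not, not_not] at e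
      simp [e.1, e.2] at w0))
  have e1 : ((u * g : ℤ) : ℂ) * m + (v * g : ℤ) * be n 1 b = g * (u * m + v * be n 1 b) := by
    push_cast
    ring
  rw [e1] at w0 ew
  rw [map_mul, map_natCast, ← sc_sc, ← sc_sc] at ew
  have z0 := right_ne_zero_of_mul w0
  obtain ⟨f, b', k', f0, hb', key⟩ := re_basis hb hm (Int.isCoprime_iff_gcd_eq_one.2 huv) z0
  have e2 : idl n 1 f (-b') = idl n 1 f b' := by
    have h1 := congrArg cj key
    rw [cj, cj, mp_sc, mp_sc, starRingAut_apply, starRingAut_apply, ← starRingEnd_apply,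
      ← starRingEnd_apply, conj_conj, map_intCast] at h1
    refine re_cancel m1 ?_
    rw [← cj_idl, ← h1, ← key]
    exact re_cancel (left_ne_zero_of_mul w0) ew
  obtain ⟨r, s, e3⟩ := mem_sp2.1 (e2.le (right_mem_sp2 _ _))
  have e4 := (be_indep n0 one_ne_zero (b := b') (x := r * f + b') (y := s - 1) (by
    rw [cmb_neg] at e3
    push_cast
    linear_combination -e3)).1
  have z1 := (map_ne_zero conj).2 z0
  have i2 := (iv.sc z1).sc (inv_ne_zero m1)
  rw [key, sc_inv_sc m1] at i2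
  refine ⟨f, b', k', f0, ⟨-r, by linear_combination e4⟩, hb', ?_⟩
  rw [← cl_sc iv z1, key, cl_sc i2 m1]

theorem re_n {n : ℕ} (ok : Ok n 1) : cls n (idl n 1 n n) = 1 := by
  have n0 : 0 < n := by have := ok.gt; omega
  have d0 : dl n ≠ 0 := fun e => by simpa [e] using dl_im n0
  have e : idl n 1 n n = sc (dl n) (ot (Oc n 1)) := by
    rw [ot_Oc (b := 1) ok.m4 (by simp), sc_sp2, idl,
      ← cmc_basis (u := 1) (v := -2) (s := 1) (t := -1) (by norm_num) (dl n * 1)]
    congr 1 <;> simp only [be] <;> push_cast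
    · linear_combination dl_sq n
    · linear_combination 1 / 2 * dl_sq n
  rw [cls, e, cl_sc (isIv_one _) d0, cl_one]

theorem re_pp (h : PQ p q) : Prm (p * q) p (cls (p * q) (idl (p * q) 1 p p)) ∧
    Prm (p * q) q (cls (p * q) (idl (p * q) 1 q q)) ∧ Inv (p * q) (idl (p * q) 1 p p) ∧
    Inv (p * q) (idl (p * q) 1 q q) := by
  have p4 := h.p4
  have q4 := h.q4
  obtain ⟨i, hi⟩ : ∃ i : ℤ, (p : ℤ) + q = 4 * i := ⟨(p + q) / 4, by omega⟩
  have e1 : (p : ℤ) ^ 2 + (p * q : ℕ) = 4 * p * i := by push_cast; linear_combination p * hi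
  have e2 : (q : ℤ) ^ 2 + (p * q : ℕ) = 4 * q * i := by push_cast; linear_combination q * hi
  have i1 := inv_idl h.ok h.sqf (by omega) e1
  have i2 := inv_idl h.ok h.sqf (by omega) e2
  exact ⟨⟨p, i, e1, i1, rfl⟩, ⟨q, i, e2, i2, rfl⟩, i1, i2⟩

theorem re_eq (h : PQ p q) (ha : Prm (p * q) p a) : a = cls (p * q) (idl (p * q) 1 p p) :=
  ((re_pp h).1.or h.ok h.pp ha).elim id fun e =>
    e.trans ((re_pp h).1.sq h.ok h.pp (dvd_mul_right p q))

theorem re_pq (h : PQ p q) :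
    cls (p * q) (idl (p * q) 1 q q) = cls (p * q) (idl (p * q) 1 p p) := by
  have p4 := h.p4
  have q4 := h.q4
  have n4 := h.ok.m4
  obtain ⟨j, hj⟩ : ∃ j : ℤ, ((p * q : ℕ) : ℤ) + 1 = 4 * j := ⟨((p * q : ℕ) + 1) / 4, by omega⟩
  obtain ⟨a, ha⟩ : ∃ a : ℤ, (p : ℤ) - 1 = 2 * a := ⟨(p - 1) / 2, by omega⟩
  obtain ⟨b, hb⟩ : ∃ b : ℤ, (q : ℤ) - 1 = 2 * b := ⟨(q - 1) / 2, by omega⟩
  have en : ((p * q : ℕ) : ℤ) = p * q := Nat.cast_mul _ _
  obtain ⟨u, v, e⟩ := Nat.isCoprime_iff_coprime.2 ((Nat.coprime_primes h.pp h.qp).2 h.ne)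
  have e1 := idl_mul (n := p * q) (c := 1) (m := p) (m' := q) (b := (p * q : ℕ)) (k := j)
    (by push_cast at hj ⊢; linear_combination p * q * hj) ⟨u, v, 0, by linear_combination e⟩
  rw [← en, idl_congr (m := p) (b' := p) ⟨b, by linear_combination en + p * hb⟩,
    idl_congr (m := q) (b' := q) ⟨a, by linear_combination en + q * ha⟩] at e1
  have e2 := re_n h.ok
  rw [cls, e1, cl_mul (re_pp h).2.2.1 (re_pp h).2.2.2] at e2
  exact (eq_inv_of_mul_eq_one_right e2).trans ((re_pp h).1.sq h.ok h.pp (dvd_mul_right p q))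

theorem two_tors (h : PQ p q) (ha : Prm (p * q) p a) (hx : x⁻¹ = x) : x = 1 ∨ x = a := by
  have ok := h.ok
  obtain ⟨m, _, k, m0, ⟨r, rfl⟩, e, rfl⟩ := amb_idl ok hx
  have e5 : m ∣ (p * q : ℕ) := ⟨4 * k - r ^ 2 * m, by linear_combination e⟩
  obtain ⟨c, hc⟩ := two_dvd_sub (c := 1) (b := m * r) (N := m * k) ok.m4
    (by push_cast at e ⊢; linear_combination e)
  obtain ⟨j, rfl⟩ : ∃ j, r = 2 * j + 1 := by
    obtain ⟨j, rfl | rfl⟩ := Int.even_or_odd' r
    · have : 2 * (j * m - c) = 1 := by push_cast at hc; linear_combination hc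
      omega
    · exact ⟨j, rfl⟩
  rw [idl_congr (b' := m) ⟨j, by ring⟩, re_eq h ha]
  lift m to ℕ using m0.le
  obtain ⟨r, s, hr, hs, rfl⟩ := Nat.dvd_mul.1 (Int.natCast_dvd_natCast.1 e5)
  rcases (Nat.dvd_prime h.pp).1 hr with rfl | rfl <;>
    rcases (Nat.dvd_prime h.qp).1 hs with rfl | rfl
  · left
    rw [← cl_one, ot_Oc (b := 1) ok.m4 (by simp)]
    simp [idl]
  · right
    rw [one_mul, re_pq h]
  · right
    rw [mul_one]
  · exact Or.inl (re_n ok)

theorem prm_pq (h : PQ p q) (ha : Prm (p * q) p a) : Prm (p * q) q a := by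
  rw [re_eq h ha, ← re_pq h]
  exact (re_pp h).2.1

theorem IsGen.three (h : PQ p q) (hg : IsGen p q g) {l : ℕ} (hl : l = 3 ∨ l = 5)
    (ha : Prm (p * q) l a) : g a = -1 := by
  have pm := h.pm
  have j := h.jac
  refine Units.ext ?_
  rcases hl with rfl | rfl
  · exact ((hg.prm h Nat.prime_three ha).1 (by omega)).symm.trans j.1
  · exact ((hg.prm h Nat.prime_five ha).1 (by omega)).symm.trans j.2.1

theorem re_sq {G : Type} [Group G] (g : G →* ℤˣ) (y : G) : g (y ^ 2) = 1 := by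
  rw [map_pow, Int.units_sq]

theorem re_neg (h : PQ p q) (hg : IsGen p q g) : ∃ y, g y = -1 := by
  obtain ⟨y, hy⟩ := exists_prm h.ok h.sqf Nat.prime_three (by
    rw [Nat.cast_ofNat, h.jac15.2.2.2.2.2.1]
    norm_num)
  exact ⟨y, hg.three h (.inl rfl) hy⟩

theorem re_ker (h : PQ p q) (hg : IsGen p q g) :
    ∃ a : Cl (p * q), a ≠ 1 ∧ ∀ y, y ^ 2 = 1 ↔ y = 1 ∨ y = a := by
  have := h.fin
  obtain ⟨a, ha⟩ : ∃ a, Prm (p * q) p a := ⟨_, (re_pp h).1⟩
  have k : ∀ y, y ^ 2 = 1 ↔ y = 1 ∨ y = a := fun y =>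
    ⟨fun e => two_tors h ha (inv_eq_of_mul_eq_one_right (by rwa [← sq])), by
      rintro (rfl | rfl)
      · exact one_pow 2
      · rw [sq, mul_eq_one_iff_inv_eq]
        exact ha.sq h.ok h.pp (dvd_mul_right p q)⟩
  refine ⟨a, fun e => ?_, k⟩
  obtain ⟨y, hy⟩ := re_neg h hg
  obtain ⟨z, rfl⟩ := Finite.surjective_of_injective
    ((injective_iff_map_eq_one (powMonoidHom 2 : Cl (p * q) →* Cl (p * q))).2 fun z hz => by
      simpa [e] using (k z).1 hz) y
  rw [powMonoidHom_apply, re_sq] at hy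
  exact absurd hy (by decide)

theorem IsGen.sq_iff (h : PQ p q) (hg : IsGen p q g) : g x = 1 ↔ ∃ y, x = y ^ 2 := by
  have := h.fin
  refine ⟨fun hx => by_contra fun h2 => ?_, by rintro ⟨y, rfl⟩; exact re_sq g y⟩
  obtain ⟨a, a1, ha⟩ := re_ker h hg
  have h3 : (powMonoidHom 2 : Cl (p * q) →* Cl (p * q)).range.index = 2 := by
    rw [Subgroup.index_range, ← SetLike.coe_sort_coe, Nat.card_coe_set_eq]
    exact Eq.trans (congrArg Set.ncard (Set.ext fun y => ha y)) (Set.ncard_pair a1.symm)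
  have h4 : ∀ z : Cl (p * q), z ∈ (powMonoidHom 2 : Cl (p * q) →* Cl (p * q)).range ↔
      ∃ y, z = y ^ 2 := fun z => by simp [eq_comm]
  obtain ⟨y, hy⟩ := re_neg h hg
  obtain ⟨z, hz⟩ := (h4 _).1 ((Subgroup.mul_mem_iff_of_index_two h3 (a := x) (b := y)).2 (by
    rw [h4, h4]
    refine iff_of_false h2 ?_
    rintro ⟨z, rfl⟩
    rw [re_sq] at hy
    exact absurd hy (by decide)))
  have h5 := re_sq g z
  rw [← hz, map_mul, hx, hy] at h5
  exact absurd h5 (by decide)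

theorem IsGen.sum_sq [Fintype (Cl (p * q))] (h : PQ p q) (hg : IsGen p q g) (c : Cl (p * q))
    (f : Cl (p * q) → ℤ) : ∑ y, f (c * y ^ 2) = ∑ x, (1 + (g x : ℤ) * g c) * f x := by
  obtain ⟨a, a1, ha⟩ := re_ker h hg
  rw [← Finset.sum_fiberwise' Finset.univ (fun y => c * y ^ 2) f]
  refine Finset.sum_congr rfl fun z _ => ?_
  have e0 : (g z : ℤ) * g c = g (c⁻¹ * z) := by
    rw [map_mul, map_inv, Int.units_inv_eq_self, Units.val_mul, mul_comm]
  rw [Finset.sum_const, nsmul_eq_mul, e0]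
  congr 1
  rcases Int.units_eq_one_or (g (c⁻¹ * z)) with e | e
  · obtain ⟨w, hw⟩ := (hg.sq_iff h).1 e
    have e1 : Finset.univ.filter (fun y => c * y ^ 2 = z) = {w, w * a} := by
      ext y
      rw [Finset.mem_filter_univ, ← eq_inv_mul_iff_mul_eq, hw, Finset.mem_insert,
        Finset.mem_singleton, eq_comm, ← inv_mul_eq_one, ← inv_pow, ← mul_pow, ha, inv_mul_eq_one,
        inv_mul_eq_iff_eq_mul, eq_comm]
    rw [e, e1, Finset.card_pair (by simpa using a1)]
    rfl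
  · rw [e, Finset.filter_eq_empty_iff.2 fun y _ hy => by
      rw [← hy, inv_mul_cancel_left, re_sq] at e
      exact absurd e (by decide)]
    rfl

theorem IsGen.odd_index (h : PQ p q) (hg : IsGen p q g) (ha : g a = -1) :
    Odd (Subgroup.zpowers a).index := by
  have := h.fin
  have := Fact.mk Nat.prime_two
  refine Nat.not_even_iff_odd.1 fun e => ?_
  obtain ⟨z, hz⟩ := exists_prime_orderOf_dvd_card' (G := Cl (p * q) ⧸ Subgroup.zpowers a) 2
    e.two_dvd
  have s : Function.Surjective (powMonoidHom 2 : Cl (p * q) ⧸ Subgroup.zpowers a →* _) :=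
    fun x => by
      obtain ⟨x, rfl⟩ := QuotientGroup.mk_surjective x
      rcases Int.units_eq_one_or (g x) with k | k
      · obtain ⟨y, rfl⟩ := (hg.sq_iff h).1 k
        exact ⟨y, rfl⟩
      · obtain ⟨y, hy⟩ := (hg.sq_iff h (x := x * a)).1 (by rw [map_mul, k, ha]; rfl)
        refine ⟨y, ?_⟩
        rw [powMonoidHom_apply, ← QuotientGroup.mk_pow, ← hy,
          QuotientGroup.mk_mul_of_mem _ (Subgroup.mem_zpowers a)]
  have k := (injective_iff_map_eq_one _).1 (Finite.injective_iff_surjective.2 s) z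
    (by rw [powMonoidHom_apply, ← hz, pow_orderOf_eq_one])
  rw [k, orderOf_one] at hz
  omega

theorem IsGen.exists_pow (h : PQ p q) (hg : IsGen p q g) (ha : g a = -1) (x : Cl (p * q)) :
    ∃ o k : ℕ, Odd o ∧ x ^ o * a ^ k = 1 := by
  have := h.fin
  obtain ⟨k, hk⟩ := mem_powers_iff_mem_zpowers.2 (inv_mem ((Subgroup.zpowers a).pow_index_mem x))
  exact ⟨_, k, hg.odd_index h ha, by rw [show a ^ k = _ from hk, mul_inv_cancel]⟩

theorem IsGen.even_order (h : PQ p q) (hg : IsGen p q g) (ha : g a = -1) : Even (orderOf a) := by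
  have e := congrArg g (pow_orderOf_eq_one a)
  rwa [map_pow, ha, map_one, neg_one_pow_eq_one_iff_even (by decide)] at e

/-- Characters of order at most two. -/
theorem IsGen.quad {L : Type} [Field L] (h : PQ p q) (hg : IsGen p q g) (θ : Cl (p * q) →* L)
    (hθ : ∀ x, θ x ^ 2 = 1) : θ = 1 ∨ ∀ x, θ x = (g x : ℤ) := by
  have k : ∀ x, g x = 1 → θ x = 1 := fun x e => by
    obtain ⟨y, rfl⟩ := (hg.sq_iff h).1 e
    rw [map_pow, hθ]
  obtain ⟨y, hy⟩ := re_neg h hg
  have k' : ∀ x, g x = -1 → θ x * θ y = 1 := fun x e => by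
    rw [← map_mul]
    exact k _ (by rw [map_mul, e, hy]; rfl)
  refine (sq_eq_one_iff.1 (hθ y)).imp (fun e => MonoidHom.ext fun x => ?_)
    fun e x => ?_
  · rcases Int.units_eq_one_or (g x) with c | c
    · exact k x c
    · simpa [e] using k' x c
  · rcases Int.units_eq_one_or (g x) with c | c
    · simp [c, k x c]
    · have := k' x c
      rw [e] at this
      rw [c]
      push_cast
      linear_combination -this

end Pool.Agent.DH
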