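import Pool.Agent.Lib.MP_60ff09_nt.Dih.Ra
import Pool.Agent.Lib.MP_60ff09_nt.V4An
import Pool.Agent.Lib.MP_696deb_nt.B2.Top3

/-! The four quadratic twists attached to the two primes. -/

set_option autoImplicit false

open scoped NumberTheorySymbols
open Pool.Agent.Lib.MP_696deb_nt Pool.Agent.Lib.MP_696deb_nt.B2 Pool.Agent.Lib.MP_696deb_nt.B2.CM

namespace Pool.Agent.DH

variable {p q : ℕ}

theorem cork_of_selV {ι : Type} [Fintype ι] {l : ι → ℕ} (hl : ∀ i, (l i).Prime ∧ ¬ l i ∣ 30)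
    (hi : Function.Injective l)
    (f : ZMod 2 × ZMod 2 × ZMod 2 → (ι → ZMod 2) × (ι → ZMod 2) × ZMod 2 × ZMod 2 × ZMod 2)
    (h : ∀ x y a c s, SelV l x y a c s → ∃ v, f v = (x, y, a, c, s)) :
    Cork (∏ i, pstar (l i)) := by
  have D0 : ∏ i, pstar (l i) ≠ 0 := Finset.prod_ne_zero_iff.2 fun i _ =>
    Int.natAbs_ne_zero.1 (by rw [natAbs_pstar]; exact (hl i).1.ne_zero)
  refine cork_of_card fun s hs => le_trans (Finset.card_le_card_of_surjOn (s := Finset.univ)
    (fun v g => ((f v).2.2.1 * xi (-3) g + (f v).2.2.2.1 * xi 5 g +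
      ∑ i, (f v).1 i * xi (pstar (l i)) g).val • T2 +
    ((f v).2.2.2.2 * xi (-1) g + (f v).2.2.1 * xi (-3) g +
      ∑ i, (f v).2.1 i * xi (pstar (l i)) g).val • B2.T1) fun ξ hξ => ?_) (by simp)
  obtain ⟨α, β, h1, h2⟩ := ax_pair m_desc D0 (hs ξ hξ).1 (hs ξ hξ).2
  obtain ⟨x, y, a, c, t, h3, h4⟩ := ax_expand hl hi h1
  obtain ⟨v, hv⟩ := h x y a c t h3
  refine ⟨v, by simp, funext fun g => ?_⟩
  simp only [h2, (h4 g).1, (h4 g).2, hv]

theorem sia_aleg {l : ℕ} (hl : l.Prime) {a : ℤ} :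
    (J(a | l) = 1 → aleg l a = 0) ∧ (J(a | l) = -1 → aleg l a = 1) := by
  have := Fact.mk hl
  refine ⟨fun h => aleg_eq_zero_iff.2 (ZMod.isSquare_of_jacobiSym_eq_one h), fun h => ?_⟩
  rw [aleg, if_neg (ZMod.nonsquare_of_jacobiSym_eq_neg_one h)]

theorem PQ.alg (h : PQ p q) : aleg p (-1) = 0 ∧ aleg p (-3) = 1 ∧ aleg p 5 = 1 ∧
    aleg q (-1) = 1 ∧ aleg q (-3) = 0 ∧ aleg q 5 = 1 := by
  obtain ⟨h1, h2, h3, h4, h5, h6, -⟩ := h.jac
  refine ⟨(sia_aleg h.pp).1 h5, (sia_aleg h.pp).2 ?_, (sia_aleg h.pp).2 h2, (sia_aleg h.qp).2 h6,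
    (sia_aleg h.qp).1 ?_, (sia_aleg h.qp).2 h4⟩
  · rw [show (-3 : ℤ) = -1 * 3 by norm_num, jacobiSym.mul_left, h5, h1, one_mul]
  · rw [show (-3 : ℤ) = -1 * 3 by norm_num, jacobiSym.mul_left, h6, h3]
    norm_num

theorem PQ.p30 (h : PQ p q) : ¬ p ∣ 30 := fun k => by
  have := h.pm
  have := Nat.le_of_dvd (by norm_num) k
  obtain rfl : p = 17 := by omega
  norm_num at k

theorem PQ.q30 (h : PQ p q) : ¬ q ∣ 30 := fun k => by
  have := h.qm
  have := Nat.le_of_dvd (by norm_num) k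
  obtain rfl : q = 7 := by omega
  norm_num at k

theorem PQ.ps (h : PQ p q) : pstar p = p ∧ pstar q = -q := by
  have := h.q4
  exact ⟨if_pos h.p4, if_neg (by omega)⟩

theorem PQ.cork_p (h : PQ p q) : Cork p := by
  obtain ⟨h1, h2, h3, -⟩ := h.alg
  have := cork_of_selV (ι := Unit) (l := fun _ => p) (fun _ => ⟨h.pp, h.p30⟩)
    (fun _ _ _ => rfl) (fun v => (fun _ => v.1, fun _ => v.2.1, 0, 0, v.2.2)) fun x y a c s k => by
      have e1 := k.e1 ()
      have e2 := k.e2 ()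
      simp only [h1, h2, h3, Finset.univ_unique, Finset.sum_singleton, CharTwo.add_self_eq_zero,
        mul_zero, mul_one, add_zero, zero_add] at e1 e2
      subst e2
      rw [zero_add] at e1
      subst e1
      exact ⟨(x (), y (), s), rfl⟩
  simpa [h.ps.1] using this

theorem PQ.cork_q (h : PQ p q) : Cork (-q) := by
  obtain ⟨-, -, -, h1, h2, h3⟩ := h.alg
  have := cork_of_selV (ι := Unit) (l := fun _ => q) (fun _ => ⟨h.qp, h.q30⟩)
    (fun _ _ _ => rfl) (fun v => (fun _ => v.1, fun _ => v.2.1, v.2.2, 0, v.1 + v.2.1))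
    fun x y a c s k => by
      have e1 := k.e1 ()
      have e2 := k.e2 ()
      simp only [h1, h2, h3, Finset.univ_unique, Finset.sum_singleton, CharTwo.add_self_eq_zero,
        mul_zero, mul_one, add_zero, zero_add] at e1 e2
      subst e1
      obtain rfl := (by decide : ∀ s u v : ZMod 2, s + u + v = 0 → s = u + v) _ _ _ e2
      exact ⟨(x (), y (), a), rfl⟩
  simpa [h.ps.2] using this

theorem PQ.cork_n (h : PQ p q) : Cork (-(p * q : ℕ)) := by
  obtain ⟨h1, h2, h3, h4, h5, h6⟩ := h.alg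
  have p2 : p ≠ 2 := by have := h.p4; omega
  have q2 : q ≠ 2 := by have := h.q4; omega
  have h7 : aleg p (pstar q) = aleg q (pstar p) := by
    rw [aleg_pstar h.pp h.qp p2 q2 h.ne, h.ps.1]
  have := cork_of_selV (ι := Bool) (l := fun b => cond b p q)
    (by rintro (_ | _); exacts [⟨h.qp, h.q30⟩, ⟨h.pp, h.p30⟩])
    (by rintro (_ | _) (_ | _) e; exacts [rfl, absurd e h.ne.symm, absurd e h.ne, rfl])
    (fun v => (fun b => cond b v.1 v.2.1, fun _ => v.2.2, 0,
      aleg q (pstar p) * (v.1 + v.2.1), v.2.1 + v.2.2)) fun x y a c s k => by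
      have e1 := k.e1 true
      have e2 := k.e1 false
      have e3 := k.e3
      have e5 := k.e5
      simp only [h1, h2, h3, h4, h5, h6, h7, Fintype.sum_bool, cond_true, cond_false,
        CharTwo.add_self_eq_zero, mul_zero, mul_one, add_zero, zero_add, one_mul,
        zero_mul] at e1 e2 e3 e5
      refine ⟨(x true, x false, y false), ?_⟩
      have : a = 0 ∧ y false = y true ∧ aleg q (pstar p) * (x true + x false) = c ∧
          x false + y false = s := by
        have two : (2 : ZMod 2) = 0 := rfl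
        exact ⟨by linear_combination e1 - e2, by linear_combination e5 - (e1 - e2) - y true * two,
          by linear_combination e2 - c * two, by linear_combination e3 + y false * two⟩
      obtain ⟨rfl, k1, rfl, rfl⟩ := this
      refine Prod.ext (funext fun b => ?_) (Prod.ext (funext fun b => ?_) rfl) <;> cases b
      exacts [rfl, rfl, rfl, k1]
  simpa [h.ps.1, h.ps.2] using this

theorem PQ.bsd_p (h : PQ p q) : BSD (-12987 * (p : ℤ) ^ 2) (-263466 * (p : ℤ) ^ 3) 0 := by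
  have := h.pm
  have := bsd_all smithStmt ⟨Int.squarefree_natCast.2 h.pp.squarefree, by omega, by omega,
    by omega⟩ h.cork_p
  rwa [Int.natAbs_natCast, if_pos h.jac15.2.2.1] at this

theorem PQ.bsd_q (h : PQ p q) : BSD (-12987 * (-q : ℤ) ^ 2) (-263466 * (-q : ℤ) ^ 3) 1 := by
  have := h.qm
  have := bsd_all smithStmt ⟨Int.squarefree_natAbs.1 (by simpa using h.qp.squarefree), by omega,
    by omega, by omega⟩ h.cork_q
  rwa [Int.natAbs_neg, Int.natAbs_natCast, h.jac15.2.2.2.1, if_neg (by norm_num)] at this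

theorem PQ.bsd_n (h : PQ p q) :
    BSD (-12987 * (-(p * q : ℕ) : ℤ) ^ 2) (-263466 * (-(p * q : ℕ) : ℤ) ^ 3) 1 := by
  have := ra_mod h
  have := bsd_all smithStmt ⟨Int.squarefree_natAbs.1 (by
    rw [Int.natAbs_neg, Int.natAbs_natCast]; exact h.sqf), by omega, by omega, by omega⟩ h.cork_n
  rwa [Int.natAbs_neg, Int.natAbs_natCast, h.jac15.2.2.2.2.1, if_neg (by norm_num)] at this

theorem rank_of_bsd {d : ℤ} {r : ℕ} (h : BSD (-12987 * d ^ 2) (-263466 * d ^ 3) r) :
    Module.rank ℤ (twist15 d).toAffine.Point = r := by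
  obtain ⟨F, -, -, h1, h2, h3⟩ := h
  have : Module.Finite ℤ (twist15 d).toAffine.Point := h2
  have e : Module.finrank ℤ (twist15 d).toAffine.Point = r := by
    exact_mod_cast h1.symm.trans h3
  rw [← e, Module.finrank_eq_rank]

end Pool.Agent.DH
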